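import Pool.Agent.H517R2.EO.Defs

/-!
# TEAM EO : basic lemmas on fibres, averages and words
-/

set_option autoImplicit false

open Finset

namespace H517.EO

section fibres

variable {Ω β γ : Type} [Fintype Ω]

theorem mem_fiber (f : Ω → β) (p q : Ω) : q ∈ fiber f p ↔ f q = f p := by
  classical
  simp [fiber]

theorem self_mem_fiber (f : Ω → β) (p : Ω) : p ∈ fiber f p := by
  rw [mem_fiber]

theorem fib_pos (f : Ω → β) (p : Ω) : 0 < fib f p := by
  unfold fib
  exact_mod_cast Finset.card_pos.2 ⟨p, self_mem_fiber f p⟩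

theorem one_le_fib (f : Ω → β) (p : Ω) : 1 ≤ fib f p := by
  unfold fib
  exact_mod_cast Finset.card_pos.2 ⟨p, self_mem_fiber f p⟩

theorem fib_le_card (f : Ω → β) (p : Ω) : fib f p ≤ (Fintype.card Ω : ℝ) := by
  unfold fib
  exact_mod_cast Finset.card_le_univ _

theorem fiber_congr (f : Ω → β) {p q : Ω} (h : f p = f q) : fiber f p = fiber f q := by
  ext r
  simp only [mem_fiber]
  rw [h]

theorem fib_congr (f : Ω → β) {p q : Ω} (h : f p = f q) : fib f p = fib f q := by
  unfold fib
  rw [fiber_congr f h]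

theorem fiber_subset {f : Ω → β} {g : Ω → γ} (h : ∀ p q, g p = g q → f p = f q) (p : Ω) :
    fiber g p ⊆ fiber f p := by
  intro q hq
  rw [mem_fiber] at hq ⊢
  exact h _ _ hq

theorem fib_le_fib {f : Ω → β} {g : Ω → γ} (h : ∀ p q, g p = g q → f p = f q) (p : Ω) :
    fib g p ≤ fib f p := by
  unfold fib
  exact_mod_cast Finset.card_le_card (fiber_subset h p)

theorem fiber_eq_of_iff {f : Ω → β} {g : Ω → γ} (h : ∀ p q, g p = g q ↔ f p = f q) (p : Ω) :
    fiber g p = fiber f p := by
  ext q
  rw [mem_fiber, mem_fiber, h]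

theorem fib_eq_of_iff {f : Ω → β} {g : Ω → γ} (h : ∀ p q, g p = g q ↔ f p = f q) (p : Ω) :
    fib g p = fib f p := by
  unfold fib
  rw [fiber_eq_of_iff h]

theorem avg_congr {φ ψ : Ω → ℝ} (h : ∀ p, φ p = ψ p) : avg φ = avg ψ := by
  unfold avg
  rw [Finset.sum_congr rfl fun p _ => h p]

theorem avg_mono {φ ψ : Ω → ℝ} (h : ∀ p, φ p ≤ ψ p) : avg φ ≤ avg ψ := by
  unfold avg
  exact div_le_div_of_nonneg_right (Finset.sum_le_sum fun p _ => h p) (Nat.cast_nonneg _)

theorem avg_nonneg {φ : Ω → ℝ} (h : ∀ p, 0 ≤ φ p) : 0 ≤ avg φ := by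
  unfold avg
  exact div_nonneg (Finset.sum_nonneg fun p _ => h p) (Nat.cast_nonneg _)

theorem avg_add (φ ψ : Ω → ℝ) : avg (fun p => φ p + ψ p) = avg φ + avg ψ := by
  unfold avg
  rw [Finset.sum_add_distrib, add_div]

theorem avg_sub (φ ψ : Ω → ℝ) : avg (fun p => φ p - ψ p) = avg φ - avg ψ := by
  unfold avg
  rw [Finset.sum_sub_distrib, sub_div]

theorem avg_const_mul (c : ℝ) (φ : Ω → ℝ) : avg (fun p => c * φ p) = c * avg φ := by
  unfold avg
  rw [← Finset.mul_sum, mul_div_assoc]

theorem avg_mul_const (φ : Ω → ℝ) (c : ℝ) : avg (fun p => φ p * c) = avg φ * c := by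
  unfold avg
  rw [← Finset.sum_mul, div_mul_eq_mul_div]

theorem avg_const [Nonempty Ω] (c : ℝ) : avg (fun _ : Ω => c) = c := by
  unfold avg
  have : (Fintype.card Ω : ℝ) ≠ 0 := by exact_mod_cast Fintype.card_ne_zero
  rw [Finset.sum_const, Finset.card_univ, nsmul_eq_mul, mul_comm, mul_div_assoc, div_self this,
    mul_one]

theorem avg_le_of_le [Nonempty Ω] {φ : Ω → ℝ} {c : ℝ} (h : ∀ p, φ p ≤ c) : avg φ ≤ c := by
  rw [← avg_const (Ω := Ω) c]
  exact avg_mono h

theorem le_avg_of_le [Nonempty Ω] {φ : Ω → ℝ} {c : ℝ} (h : ∀ p, c ≤ φ p) : c ≤ avg φ := by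
  rw [← avg_const (Ω := Ω) c]
  exact avg_mono h

/-- change of variables in an average -/
theorem avg_equiv {Ω' : Type} [Fintype Ω'] (e : Ω ≃ Ω') (φ : Ω' → ℝ) :
    avg (fun p => φ (e p)) = avg φ := by
  unfold avg
  rw [Fintype.card_congr e]
  congr 1
  exact Equiv.sum_comp e φ

theorem avg_prod {Ω' : Type} [Fintype Ω'] (φ : Ω × Ω' → ℝ) :
    avg φ = avg (fun p => avg (fun p' => φ (p, p'))) := by
  unfold avg
  rw [Fintype.sum_prod_type, Fintype.card_prod, ← Finset.sum_div, div_div]
  push_cast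
  rw [mul_comm]

theorem HR_congr {f : Ω → β} {g : Ω → γ} (h : ∀ p q, g p = g q ↔ f p = f q) : HR g = HR f := by
  unfold HR
  exact avg_congr fun p => by rw [fib_eq_of_iff h]

/-- transport of a fibre under an equivalence -/
theorem fib_equiv {Ω' : Type} [Fintype Ω'] (e : Ω ≃ Ω') (f : Ω' → β) (p : Ω) :
    fib (fun q => f (e q)) p = fib f (e p) := by
  classical
  unfold fib fiber
  congr 1
  apply Finset.card_bij (fun q _ => e q)
  · intro q hq; simpa using hq
  · intro a _ b _ h; exact e.injective h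
  · intro b hb; exact ⟨e.symm b, by simpa using hb, by simp⟩

theorem HR_equiv {Ω' : Type} [Fintype Ω'] (e : Ω ≃ Ω') (f : Ω' → β) :
    HR (fun q => f (e q)) = HR f := by
  unfold HR
  rw [← avg_equiv e (fun p => Real.log (fib f p))]
  exact avg_congr fun p => by rw [fib_equiv]

open Classical in
/-- sums over points weighted by `1/fib` are sums over classes -/
theorem sum_div_fib (f : Ω → β) (φ : Finset Ω → ℝ) :
    (∑ p, φ (fiber f p) / fib f p) = ∑ S ∈ Finset.univ.image (fiber f), φ S := by
  have key : ∀ S ∈ Finset.univ.image (fiber f),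
      (∑ p ∈ Finset.univ.filter (fun p => fiber f p = S), φ (fiber f p) / fib f p) = φ S := by
    intro S hS
    obtain ⟨p0, -, rfl⟩ := Finset.mem_image.1 hS
    have h1 : Finset.univ.filter (fun p => fiber f p = fiber f p0) = fiber f p0 := by
      ext q
      simp only [Finset.mem_filter, Finset.mem_univ, true_and, mem_fiber]
      constructor
      · intro h
        have := self_mem_fiber f q
        rw [h, mem_fiber] at this
        exact this
      · intro h
        exact fiber_congr f h
    rw [h1]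
    have h2 : ∀ q ∈ fiber f p0, φ (fiber f q) / fib f q = φ (fiber f p0) / fib f p0 := by
      intro q hq
      rw [mem_fiber] at hq
      rw [fiber_congr f hq, fib_congr f hq]
    rw [Finset.sum_congr rfl h2, Finset.sum_const, nsmul_eq_mul]
    have h3 : ((fiber f p0).card : ℝ) = fib f p0 := rfl
    rw [h3, mul_div_assoc', mul_comm, mul_div_assoc, div_self (fib_pos f p0).ne', mul_one]
  rw [← Finset.sum_congr rfl key]
  rw [Finset.sum_fiberwise_of_maps_to (s := Finset.univ) (t := Finset.univ.image (fiber f))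
    (g := fiber f) (fun x _ => Finset.mem_image_of_mem _ (Finset.mem_univ x))]

end fibres

section words

variable {A : Type}

theorem XX_append (lam : ℝ) (t : A → ℝ) {a b : ℕ} (u : Fin a → A) (v : Fin b → A) :
    XX lam t (Fin.append u v) = XX lam t u + lam ^ a * XX lam t v := by
  unfold XX
  rw [Fin.sum_univ_add, Finset.mul_sum]
  congr 1
  · exact Finset.sum_congr rfl fun i _ => by simp
  · refine Finset.sum_congr rfl fun i _ => ?_
    simp [pow_add, mul_assoc]

theorem YY_append (τ : A → A → PowerSeries ℤ) {a b : ℕ} (u : Fin a → A) (v : Fin b → A) (c : A) :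
    YY τ (Fin.append u v) c = YY τ u c + PowerSeries.X ^ a * YY τ v c := by
  unfold YY
  rw [Fin.sum_univ_add, Finset.mul_sum]
  congr 1
  · exact Finset.sum_congr rfl fun i _ => by simp
  · refine Finset.sum_congr rfl fun i _ => ?_
    simp [pow_add, mul_assoc]

/-- averages over words of length `a + b` -/
theorem avg_append [Fintype A] (a b : ℕ) (φ : (Fin (a + b) → A) → ℝ) :
    avg φ = avg (fun x : (Fin a → A) × (Fin b → A) => φ (Fin.append x.1 x.2)) := by
  rw [← avg_equiv (Fin.appendEquiv a b)]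
  rfl

theorem HR_append [Fintype A] {β : Type} (a b : ℕ) (f : (Fin (a + b) → A) → β) :
    HR f = HR (fun x : (Fin a → A) × (Fin b → A) => f (Fin.append x.1 x.2)) := by
  rw [← HR_equiv (Fin.appendEquiv a b)]
  rfl

theorem fib_append [Fintype A] {β : Type} (a b : ℕ) (f : (Fin (a + b) → A) → β)
    (x : (Fin a → A) × (Fin b → A)) :
    fib f (Fin.append x.1 x.2) = fib (fun x : (Fin a → A) × (Fin b → A) => f (Fin.append x.1 x.2)) x := by
  have := fib_equiv (Fin.appendEquiv a b) f x
  exact this.symm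

theorem pre_append {a b : ℕ} (h : a ≤ a + b) (u : Fin a → A) (v : Fin b → A) :
    pre h (Fin.append u v) = u := by
  funext i
  unfold pre
  have : Fin.castLE h i = Fin.castAdd b i := rfl
  rw [this, Fin.append_left]

theorem YM_apply (τ : A → A → PowerSeries ℤ) (J : ℕ) {k : ℕ} (p : Fin k → A) (b : A) (j : ℕ) :
    YM τ J p b j = if j < J then PowerSeries.coeff j (YY τ p b) else 0 := rfl

theorem YM_eq_iff (τ : A → A → PowerSeries ℤ) (J : ℕ) {k k' : ℕ} (p : Fin k → A) (q : Fin k' → A) :
    YM τ J p = YM τ J q ↔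
      ∀ b, ∀ j < J, PowerSeries.coeff j (YY τ p b) = PowerSeries.coeff j (YY τ q b) := by
  constructor
  · intro h b j hj
    have := congrFun (congrFun h b) j
    simpa [YM, hj] using this
  · intro h
    funext b j
    by_cases hj : j < J
    · simp [YM, hj, h b j hj]
    · simp [YM, hj]

end words

end H517.EO
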