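import Mathlib

/-!
# TEAM EO : the exact overlaps conjecture on the line (S04273, S02791)
Definitions and exact statements (as `Prop`s) of all modules.
-/

set_option autoImplicit false

open Finset Filter MeasureTheory

namespace H517.EO

/-! ### Fibre entropies: `U` uniform on a finite type `Ω` -/

open Classical in
/-- the fibre of `f` through `p` -/
noncomputable def fiber {Ω β : Type} [Fintype Ω] (f : Ω → β) (p : Ω) : Finset Ω :=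
  Finset.univ.filter (fun q => f q = f p)

/-- size of the fibre of `f` through `p` (a real number `≥ 1`) -/
noncomputable def fib {Ω β : Type} [Fintype Ω] (f : Ω → β) (p : Ω) : ℝ := ((fiber f p).card : ℝ)

/-- average over `Ω` -/
noncomputable def avg {Ω : Type} [Fintype Ω] (φ : Ω → ℝ) : ℝ := (∑ p, φ p) / (Fintype.card Ω : ℝ)

/-- `HR f = H(U | f(U))`, the average log of the fibre size -/
noncomputable def HR {Ω β : Type} [Fintype Ω] (f : Ω → β) : ℝ := avg (fun p => Real.log (fib f p))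

/-- `condH u g = H(u(U) | g(U))` -/
noncomputable def condH {Ω β γ : Type} [Fintype Ω] (u : Ω → γ) (g : Ω → β) : ℝ :=
  HR g - HR (fun p => (g p, u p))

/-- collision probability of `f(U)` -/
noncomputable def coll {Ω β : Type} [Fintype Ω] (f : Ω → β) : ℝ := avg (fun p => fib f p / (Fintype.card Ω : ℝ))

/-- entropy of `f(U)` -/
noncomputable def Hd {Ω β : Type} [Fintype Ω] (f : Ω → β) : ℝ := Real.log (Fintype.card Ω : ℝ) - HR f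

/-! ### Words -/

/-- value of a word -/
noncomputable def XX {A : Type} (lam : ℝ) (t : A → ℝ) {k : ℕ} (p : Fin k → A) : ℝ :=
  ∑ i : Fin k, lam ^ (i : ℕ) * t (p i)

/-- formal value of a word with respect to `τ` -/
noncomputable def YY {A : Type} (τ : A → A → PowerSeries ℤ) {k : ℕ} (p : Fin k → A) :
    A → PowerSeries ℤ :=
  fun b => ∑ i : Fin k, (PowerSeries.X : PowerSeries ℤ) ^ (i : ℕ) * τ b (p i)

/-- formal value modulo `x^J` -/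
noncomputable def YM {A : Type} (τ : A → A → PowerSeries ℤ) (J : ℕ) {k : ℕ} (p : Fin k → A) :
    A → ℕ → ℤ :=
  fun b j => if j < J then PowerSeries.coeff j (YY τ p b) else 0

/-- prefix of length `l` -/
def pre {A : Type} {l k : ℕ} (h : l ≤ k) (p : Fin k → A) : Fin l → A := fun i => p (Fin.castLE h i)

/-- `H(U | Y(U) exact, cell of size w of X(U))`, words of length `k` -/
noncomputable def HW {A : Type} [Fintype A] (lam : ℝ) (t : A → ℝ) (τ : A → A → PowerSeries ℤ)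
    (k : ℕ) (w : ℝ) : ℝ :=
  HR (fun p : Fin k → A => (YY τ p, ⌊XX lam t p / w⌋))

/-- the diagonal quantity `H(U | Y mod x^n, cell of size lam^n)`, words of length `n` -/
noncomputable def HT {A : Type} [Fintype A] (lam : ℝ) (t : A → ℝ) (τ : A → A → PowerSeries ℤ)
    (n : ℕ) : ℝ :=
  HR (fun p : Fin n → A => (YM τ n p, ⌊XX lam t p / lam ^ n⌋))

/-- claim `C(τ)` -/
def Claim {A : Type} [Fintype A] (lam : ℝ) (t : A → ℝ) (τ : A → A → PowerSeries ℤ) : Prop :=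
  ∀ ε : ℝ, 0 < ε → ∀ n0 : ℕ, ∃ n : ℕ, n0 ≤ n ∧ HT lam t τ n < ε * n

/-- freeness: distinct words of equal length have distinct values -/
def Free {A : Type} (lam : ℝ) (t : A → ℝ) : Prop :=
  ∀ (k : ℕ) (p q : Fin k → A), XX lam t p = XX lam t q → p = q

/-! ### The Laplace functional -/

/-- `m(z) = Σ e^{-|z - y_i|}` -/
noncomputable def mm {ι : Type} (S : Finset ι) (y : ι → ℝ) (z : ℝ) : ℝ :=
  ∑ i ∈ S, Real.exp (-|z - y i|)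

/-- `M(z) = Σ e^{-|z - y_i|} e(R y_i)` -/
noncomputable def MM {ι : Type} (R : ℝ) (S : Finset ι) (y : ι → ℝ) (z : ℝ) : ℂ :=
  ∑ i ∈ S, (Real.exp (-|z - y i|) : ℂ) * Complex.exp (2 * Real.pi * R * y i * Complex.I)

/-- `∫ |M|^2 / m` -/
noncomputable def Gam {ι : Type} (R : ℝ) (S : Finset ι) (y : ι → ℝ) : ℝ :=
  ∫ z : ℝ, ‖MM R S y z‖ ^ 2 / mm S y z

/-- the normalised functional relative to the partition `f` -/
noncomputable def GG {Ω β : Type} [Fintype Ω] (R : ℝ) (f : Ω → β) (y : Ω → ℝ) : ℝ :=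
  avg (fun p => Gam R (fiber f p) y / fib f p) / 2

/-- the monotone sequence `a(n)` -/
noncomputable def aa {A : Type} [Fintype A] (lam : ℝ) (t : A → ℝ) (τ : A → A → PowerSeries ℤ)
    (R : ℝ) (n : ℕ) : ℝ :=
  GG R (fun p : Fin n → A => YM τ n p) (fun p : Fin n → A => XX lam t p / lam ^ n)

/-- `Σ |coefficients|` -/
noncomputable def L1 (P : Polynomial ℤ) : ℝ :=
  ∑ i ∈ Finset.range (P.natDegree + 1), |((P.coeff i : ℤ) : ℝ)|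

/-- relation polynomials of two words -/
noncomputable def FF {A : Type} [DecidableEq A] {k : ℕ} (p q : Fin k → A) (a : A) :
    Polynomial ℤ :=
  ∑ i : Fin k, ((if p i = a then (Polynomial.X : Polynomial ℤ) ^ (i : ℕ) else 0)
    - (if q i = a then (Polynomial.X : Polynomial ℤ) ^ (i : ℕ) else 0))

/-- rank of the kernel of `τ` over the fraction field of `ℤ⟦X⟧` -/
noncomputable def rk {A : Type} [Fintype A] [DecidableEq A] (τ : A → A → PowerSeries ℤ) : ℕ :=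
  Module.finrank (FractionRing (PowerSeries ℤ))
    (LinearMap.ker (Matrix.toLin' (Matrix.of (fun b a =>
      algebraMap (PowerSeries ℤ) (FractionRing (PowerSeries ℤ)) (τ b a)))))

/-! ### Statements: entropy library (E) -/

/-- finer partition, smaller `HR` -/
def E_mono : Prop := ∀ (Ω β γ : Type) [Fintype Ω] (f : Ω → β) (g : Ω → γ),
  (∀ p q, g p = g q → f p = f q) → HR g ≤ HR f

def E_bound : Prop := ∀ (Ω β : Type) [Fintype Ω] (f : Ω → β),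
  0 ≤ HR f ∧ HR f ≤ Real.log (Fintype.card Ω : ℝ)

/-- `f` takes at most `N` values on every fibre of `g` -/
def E_card : Prop := ∀ (Ω β γ : Type) [Fintype Ω] (g : Ω → β) (f : Ω → γ) (N : ℝ), 1 ≤ N →
  (∀ p, (((fiber g p : Set Ω).image f).ncard : ℝ) ≤ N) →
  HR g ≤ HR (fun p => (g p, f p)) + Real.log N

/-- comparison of two grids -/
def E_grid : Prop := ∀ (Ω β : Type) [Fintype Ω] (κ : Ω → β) (x : Ω → ℝ) (w w' s s' B : ℝ),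
  0 < w → 0 < w' → 0 ≤ B → w ≤ B * w' →
  HR (fun p => (κ p, ⌊x p / w + s⌋)) ≤ HR (fun p => (κ p, ⌊x p / w' + s'⌋)) + Real.log (B + 2)

/-- inactive range of scales -/
def E_inactive : Prop := ∀ (Ω β : Type) [Fintype Ω] (κ : Ω → β) (x : Ω → ℝ) (w w' : ℝ),
  0 < w' → w' ≤ w →
  (∀ p q, κ p = κ q → |x p - x q| < w → |x p - x q| ≤ w') →
  HR (fun p => (κ p, ⌊x p / w⌋)) ≤ HR (fun p => (κ p, ⌊x p / w'⌋)) + Real.log 3

/-- submodularity `H(h | f,g) ≤ H(h | f)` -/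
def E_submod : Prop := ∀ (Ω β γ δ : Type) [Fintype Ω] (f : Ω → β) (g : Ω → γ) (h : Ω → δ),
  condH h (fun p => (f p, g p)) ≤ condH h f

/-- a split of every fibre of `f` in at most two parts -/
def E_bin : Prop := ∀ (Ω β γ : Type) [Fintype Ω] (f : Ω → β) (c : Ω → γ) (M : ℝ), 1 ≤ M →
  (∀ p, ((fiber f p : Set Ω).image c).ncard ≤ 2) →
  HR f - HR (fun p => (f p, c p)) ≤
    avg (fun p => 1 - fib (fun q => (f q, c q)) p / fib f p) * Real.log M + 1 / M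

/-! ### Statements: the Laplace functional (L) -/

/-- single profile leak inequality -/
def L_single : Prop := ∀ (m : ℝ → ℝ) (M : ℝ → ℂ) (R : ℝ), 1 ≤ R →
  Continuous m → Continuous M → (∀ z, 0 < m z) → Integrable m → (∀ z, ‖M z‖ ≤ m z) →
  (∀ z y, m (z + y) ≤ Real.exp |y| * m z) →
  (∀ z y, ‖M (z + y) - M z‖ ≤ (Real.exp |y| - 1) * m z) →
  ∀ (ι : Type) [Fintype ι] [Nonempty ι] (s : ι → ℝ), (∀ i j, |s i - s j| ≤ 1 / (2 * R)) →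
    (∫ z : ℝ, ‖∑ i, Complex.exp (2 * Real.pi * R * s i * Complex.I) * M (z - s i)‖ ^ 2
        / ∑ i, m (z - s i)) ≤
      (Fintype.card ι : ℝ) * (∫ z : ℝ, ‖M z‖ ^ 2 / m z)
      - Real.exp (-(1 / (2 * R))) / 2 / (Fintype.card ι : ℝ)
        * (∑ i, ∑ j, (R * (s i - s j)) ^ 2)
        * (8 * (∫ z : ℝ, ‖M z‖ ^ 2 / m z) - 12 / R ^ 2 * ∫ z : ℝ, m z)

/-- monotonicity and bounds of `GG` -/
def L_mono : Prop := ∀ (Ω β γ : Type) [Fintype Ω] (R : ℝ) (f : Ω → β) (g : Ω → γ) (y : Ω → ℝ),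
  (∀ p q, g p = g q → f p = f q) → 0 ≤ GG R f y ∧ GG R f y ≤ GG R g y ∧ GG R g y ≤ 1

/-- leak inequality for a product system -/
def L_prod : Prop := ∀ (P Q β γ : Type) [Fintype P] [Fintype Q] [Nonempty P] [Nonempty Q]
  (R : ℝ), 1 ≤ R → ∀ (g : P → β) (h : Q → γ) (s : P → ℝ) (y : Q → ℝ),
  (∀ p p', g p = g p' → |s p - s p'| ≤ 1 / (2 * R)) →
  Real.exp (-(1 / (2 * R))) / 2 * (8 * GG R h y - 12 / R ^ 2) *
    avg (fun p : P => (∑ p' ∈ fiber g p, (R * (s p - s p')) ^ 2) / fib g p)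
    ≤ GG R h y - GG R (fun x : P × Q => (g x.1, h x.2)) (fun x : P × Q => s x.1 + y x.2)

/-- the leak inequality -/
def L_leak : Prop := ∀ (A : Type) [Fintype A] [Nonempty A] (lam : ℝ) (t : A → ℝ)
  (τ : A → A → PowerSeries ℤ) (R : ℝ), 0 < lam → lam < 1 → 1 ≤ R →
  ∀ (k n : ℕ), k ≤ n → ∀ (β : Type) (g : (Fin k → A) → β),
  (∀ p q, g p = g q → YY τ p = YY τ q ∧ |XX lam t p - XX lam t q| ≤ lam ^ n / (2 * R)) →
  Real.exp (-(1 / (2 * R))) / 2 * (8 * aa lam t τ R (n - k) - 12 / R ^ 2) *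
    avg (fun p : Fin k → A =>
      (∑ q ∈ fiber g p, (R * (XX lam t p - XX lam t q) / lam ^ n) ^ 2) / fib g p)
    ≤ aa lam t τ R (n - k) - aa lam t τ R n

/-! ### Statements: non-flatness (N) -/

/-- Fejer kernel bound -/
def N_fejer : Prop := ∀ (Ω : Type) [Fintype Ω] [Nonempty Ω] (y : Ω → ℝ) (N : ℕ), 1 ≤ N →
  Real.log N - Real.log (1 + 2 * ∑ R ∈ Finset.Ico 1 N, GG (R : ℝ) (fun _ : Ω => ()) y) - 6
    ≤ HR (fun p => ⌊y p⌋) - HR (fun p => ⌊2 * (N : ℝ) * y p⌋)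

/-- entropy rate below `log (1/lam)` gives a non-flat frequency -/
def N_nonflat : Prop := ∀ (A : Type) [Fintype A] [Nonempty A] (lam : ℝ) (t : A → ℝ),
  0 < lam → lam < 1 →
  (∃ ε : ℝ, 0 < ε ∧ ∃ C : ℝ, ∀ n : ℕ,
    (n : ℝ) * (Real.log (Fintype.card A) - Real.log (1 / lam) + ε) - C
      ≤ HR (fun p : Fin n → A => ⌊XX lam t p / lam ^ n⌋)) →
  ∃ R : ℕ, 1 ≤ R ∧ ∃ A0 : ℝ, 3 / (2 * (R : ℝ) ^ 2) < A0 ∧
    ∀ n : ℕ, A0 ≤ aa lam t (fun _ _ => 0) R n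

/-! ### Statements: leak to entropy (D) -/

open Classical in
/-- separation at dyadic level `q` under a random shift `ξ` : one pair of points -/
def D_pair : Prop := ∀ (Ω β : Type) [Fintype Ω] (κ : Ω → β) (x : Ω → ℝ) (p p' : Ω) (q : ℕ),
  κ p = κ p' → ∃ i : ℕ,
  (∫ ξ in (0 : ℝ)..1,
    if ⌊(2 : ℝ) ^ q * (x p + ξ)⌋ = ⌊(2 : ℝ) ^ q * (x p' + ξ)⌋ ∧
       ⌊(2 : ℝ) ^ (q + 1) * (x p + ξ)⌋ ≠ ⌊(2 : ℝ) ^ (q + 1) * (x p' + ξ)⌋
    then 1 / fib (fun r => (κ r, ⌊(2 : ℝ) ^ q * (x r + ξ)⌋)) p else 0) ≤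
  64 * (1 / 2) ^ i * ∫ ξ in (0 : ℝ)..1,
    if ⌊(2 : ℝ) ^ (q + i) * (x p + ξ)⌋ = ⌊(2 : ℝ) ^ (q + i) * (x p' + ξ)⌋
    then ((2 : ℝ) ^ (q + i) * (x p - x p')) ^ 2
      / fib (fun r => (κ r, ⌊(2 : ℝ) ^ (q + i) * (x r + ξ)⌋)) p else 0

/-- from quadratic leaks to the drop of entropy (dyadic scales) -/
def D_drop : Prop := ∀ (Ω β : Type) [Fintype Ω] [Nonempty Ω] (κ : Ω → β) (x : Ω → ℝ) (e : ℕ → ℝ),
  (∀ q, 0 ≤ e q) → (∀ q, e q ≤ 1) →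
  (∀ (q : ℕ) (ξ : ℝ), 0 ≤ ξ → ξ ≤ 1 →
    avg (fun p => (∑ p' ∈ fiber (fun p => (κ p, ⌊(2 : ℝ) ^ q * (x p + ξ)⌋)) p,
        ((2 : ℝ) ^ q * (x p - x p')) ^ 2) / fib (fun p => (κ p, ⌊(2 : ℝ) ^ q * (x p + ξ)⌋)) p)
      ≤ e q) →
  ∀ (q0 q1 : ℕ), q0 ≤ q1 → ∀ M : ℝ, 1 ≤ M →
    HR (fun p => (κ p, ⌊(2 : ℝ) ^ q0 * x p⌋)) - HR (fun p => (κ p, ⌊(2 : ℝ) ^ q1 * x p⌋))
      ≤ 3 + 128 * (1 + ∑ q ∈ Finset.Ico q0 q1, e q) * Real.log M + ((q1 : ℝ) - q0) / M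

/-- the abstract drop inequality for the pair `(a, H)`; `H k n` is an entropy at scale `lam^n`
for words of length `k` -/
def DropIneq (C1 : ℝ) (a : ℕ → ℝ) (k : ℕ) (H : ℕ → ℝ) : Prop :=
  ∀ (n0 n1 : ℕ), k ≤ n0 → n0 ≤ n1 → ∀ M : ℝ, 2 ≤ M →
    H n0 - H n1 ≤ C1 * (1 + ∑ n ∈ Finset.Icc n0 n1, (a (n - k) - a n)) * Real.log M
      + C1 * ((n1 : ℝ) - n0) / M

def D_lam : Prop := ∀ (A : Type) [Fintype A] [Nonempty A] (lam : ℝ) (t : A → ℝ),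
  0 < lam → lam < 1 → ∀ (R : ℕ) (A0 : ℝ), 1 ≤ R → 3 / (2 * (R : ℝ) ^ 2) < A0 →
  (∀ n : ℕ, A0 ≤ aa lam t (fun _ _ => 0) R n) →
  ∀ τ : A → A → PowerSeries ℤ,
    Antitone (aa lam t τ R) ∧ (∀ n, 0 ≤ aa lam t τ R n ∧ aa lam t τ R n ≤ 1) ∧
    ∃ C1 : ℝ, 1 ≤ C1 ∧ ∀ k : ℕ, 1 ≤ k →
      DropIneq C1 (aa lam t τ R) k (fun n => HW lam t τ k (lam ^ n))

/-! ### Statements: the function field theorem (F) -/

/-- collision probability of a sum of independent digits in a torsion free group -/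
def F_conv : Prop := ∀ (A S S' : Type) [Fintype A] [Fintype S] [Fintype S'] [Nonempty S] [Nonempty S']
  (d : S → A → ℤ) (d' : S' → A → ℤ),
  coll (fun x : S × S' => d x.1 + d' x.2) ≤
    coll d' - 1 / 32 * (1 - coll d) * coll d' ^ 3

/-- entropy of a sum of independent digits -/
def F_ent : Prop := ∀ (A S S' : Type) [Fintype A] [Fintype S] [Fintype S'] [Nonempty S] [Nonempty S']
  (d : S → A → ℤ) (d' : S' → A → ℤ) (M : ℝ), 1 ≤ M →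
  Hd d ≤ (1 - coll d) * (Real.log M + Hd d') + 1 / M
    + (Hd (fun x : S × S' => d x.1 + d' x.2) - Hd d')

/-- `Θ(j)` : collision probability of digit `j` given the lower digits -/
noncomputable def Th {A : Type} [Fintype A] (τ : A → A → PowerSeries ℤ) (j : ℕ) : ℝ :=
  avg (fun p : Fin (j + 1) → A =>
    fib (fun p : Fin (j + 1) → A => YM τ (j + 1) p) p / fib (fun p : Fin (j + 1) → A => YM τ j p) p)

/-- `h(j)` : entropy of digit `j` given the lower digits -/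
noncomputable def hh {A : Type} [Fintype A] (τ : A → A → PowerSeries ℤ) (j : ℕ) : ℝ :=
  HR (fun p : Fin (j + 1) → A => YM τ j p) - HR (fun p : Fin (j + 1) → A => YM τ (j + 1) p)

/-- `δ_k(q)` -/
noncomputable def del {A : Type} [Fintype A] (τ : A → A → PowerSeries ℤ) (k q : ℕ) : ℝ :=
  avg (fun p : Fin k → A =>
    1 - fib (fun p : Fin k → A => YM τ (q + 1) p) p / fib (fun p : Fin k → A => YM τ q p) p)

def F_one : Prop := ∀ (A : Type) [Fintype A] [Nonempty A] (τ : A → A → PowerSeries ℤ) (k q : ℕ),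
  k ≤ q → 1 / 32 * Th τ (q - k) ^ 3 * del τ k q ≤ Th τ (q - k) - Th τ q

def F_two : Prop := ∀ (A : Type) [Fintype A] [Nonempty A] (τ : A → A → PowerSeries ℤ) (k q : ℕ),
  k ≤ q → ∀ M : ℝ, 1 ≤ M →
  HR (fun p : Fin k → A => YM τ q p) - HR (fun p : Fin k → A => YM τ (q + 1) p) ≤
    del τ k q * (Real.log M + Real.log (Fintype.card A)) + 1 / M + (hh τ q - hh τ (q - k))

/-- bounds and monotonicity of `h`, lower bound of `Θ` -/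
def F_h : Prop := ∀ (A : Type) [Fintype A] [Nonempty A] (τ : A → A → PowerSeries ℤ),
  (∀ j, 0 ≤ hh τ j ∧ hh τ j ≤ Real.log (Fintype.card A)) ∧ Monotone (hh τ) ∧ Antitone (Th τ) ∧
  (∀ j, 1 / (Fintype.card A : ℝ) ≤ Th τ j ∧ Th τ j ≤ 1)

/-- at most `m k` active depths -/
def F_act : Prop := ∀ (A : Type) [Fintype A] [DecidableEq A] (τ : A → A → PowerSeries ℤ) (k : ℕ)
  (S : Finset ℕ),
  (∀ q ∈ S, ∃ p p' : Fin k → A, YM τ q p = YM τ q p' ∧ YM τ (q + 1) p ≠ YM τ (q + 1) p') →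
  S.card ≤ Fintype.card A * k

/-- the function field theorem -/
def F_thm : Prop := ∀ (A : Type) [Fintype A] [DecidableEq A] [Nonempty A]
  (τ : A → A → PowerSeries ℤ) (ε : ℝ), 0 < ε → ∃ k0 : ℕ, ∀ k : ℕ, k0 ≤ k →
  HR (fun p : Fin k → A => YM τ k p) - HR (fun p : Fin k → A => YY τ p) ≤ ε * k

/-- lower bound of `HW` at the natural scale -/
def F_low : Prop := ∀ (A : Type) [Fintype A] [DecidableEq A] [Nonempty A] (lam : ℝ) (t : A → ℝ)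
  (τ : A → A → PowerSeries ℤ), 0 < lam → lam < 1 → ∀ c0 : ℝ, 0 < c0 →
  (∃ n0 : ℕ, ∀ n : ℕ, n0 ≤ n → c0 * n ≤ HT lam t τ n) →
  ∃ k0 : ℕ, ∀ k : ℕ, k0 ≤ k → c0 / 2 * k ≤ HW lam t τ k (lam ^ k)

/-! ### Statements: abstract pigeonholes (P) -/

def P_near : Prop := ∀ (a : ℕ → ℝ) (H : ℕ → ℕ → ℝ) (C1 c0 : ℝ),
  Antitone a → (∀ n, 0 ≤ a n ∧ a n ≤ 1) → 1 ≤ C1 → 0 < c0 →
  (∃ k0 : ℕ, ∀ k : ℕ, k0 ≤ k → c0 * k ≤ H k k) →
  (∀ k : ℕ, 1 ≤ k → DropIneq C1 a k (H k)) →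
  ∀ g0 : ℕ, ∃ g : ℕ, g0 ≤ g ∧ ∃ K : ℕ, 2 ^ (g ^ 3) ≤ K ∧ K ≤ 2 ^ ((g + 1) ^ 3) ∧
    ∀ k : ℕ, K ≤ k → k ≤ K * 2 ^ g → c0 / 2 * k ≤ H k (k * 8 ^ g)

/-- a single length: one window carries spread mass -/
def P_step : Prop := ∀ (a : ℕ → ℝ) (C1 C2 c : ℝ) (N : ℕ),
  Antitone a → (∀ n, 0 ≤ a n ∧ a n ≤ 1) → 1 ≤ C1 → 1 ≤ C2 → 0 < c →
  ∃ c2 : ℝ, 0 < c2 ∧ ∃ g0 : ℕ, 2 ≤ g0 ∧ ∀ g : ℕ, g0 ≤ g → ∀ k : ℕ, 2 ^ (g ^ 3) ≤ k →
  ∀ H : ℕ → ℝ, DropIneq C1 a k H → ∀ u v : Fin N → ℕ,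
  (∀ j, 2 * k ≤ u j ∧ u j ≤ v j ∧ (v j : ℝ) ≤ u j + C2 * k * (g : ℝ) ^ 3) →
  c * k ≤ C2 + ∑ j, (H (u j) - H (v j)) →
  ∃ j, ∀ b : ℕ, c2 / Real.log g ≤
    ∑ i ∈ (Finset.Ico (u j - k) (v j + 1)) \ (Finset.Ico b (b + k)), (a i - a (i + 1))

/-- drifting windows: combinatorial part -/
def P_multi : Prop := ∀ (d : ℕ → ℝ) (η : ℝ) (G : ℕ) (k s e : ℕ → ℕ),
  (∀ i, 0 ≤ d i) → (∀ S : Finset ℕ, ∑ i ∈ S, d i ≤ 1) → 0 < η →
  (∀ i, i < G → s i ≤ e i) → (∀ i, i + 1 < G → 4 * (e i - s i) ≤ k (i + 1)) →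
  (∀ i, i + 1 < G → 2 * k i ≤ k (i + 1)) →
  (∀ i, i < G → ∀ b : ℕ, η ≤ ∑ j ∈ (Finset.Ico (s i) (e i)) \ (Finset.Ico b (b + k i)), d j) →
  (G : ℝ) * η ^ 2 ≤ 1

/-- drifting windows -/
def P_grid : Prop := ∀ (a : ℕ → ℝ) (C1 C2 c : ℝ) (N : ℕ),
  Antitone a → (∀ n, 0 ≤ a n ∧ a n ≤ 1) → 1 ≤ C1 → 1 ≤ C2 → 0 < c →
  ∃ g0 : ℕ, ∀ g : ℕ, g0 ≤ g → ∀ K : ℕ, 2 ^ (g ^ 3) ≤ K →
  ¬ (∀ k : ℕ, K ≤ k → k ≤ K * 2 ^ g → ∃ H : ℕ → ℝ, DropIneq C1 a k H ∧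
      ∃ u v : Fin N → ℕ, (∀ j, 2 * k ≤ u j ∧ u j ≤ v j ∧
        (v j : ℝ) ≤ u j + C2 * k * (g : ℝ) ^ 3) ∧
        c * k ≤ C2 + ∑ j, (H (u j) - H (v j)))

/-! ### Statements: compactness and algebra (A) -/

/-- every subspace is the kernel of an integral matrix -/
def A_ker : Prop := ∀ (A : Type) [Fintype A] [DecidableEq A]
  (V : Submodule (FractionRing (PowerSeries ℤ)) (A → FractionRing (PowerSeries ℤ))),
  ∃ τ : A → A → PowerSeries ℤ,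
    LinearMap.ker (Matrix.toLin' (Matrix.of (fun b a =>
      algebraMap (PowerSeries ℤ) (FractionRing (PowerSeries ℤ)) (τ b a)))) = V

/-- case A: an upper bound of `H(prefix | g)` by `HT` -/
def A_caseA : Prop := ∀ (A : Type) [Fintype A] [DecidableEq A] (lam : ℝ) (t : A → ℝ)
  (τ' : A → A → PowerSeries ℤ), 0 < lam → lam < 1 →
  ∀ (l k : ℕ) (h : l ≤ k) (β : Type) (g : (Fin k → A) → β) (B : ℝ), 0 ≤ B →
  (∀ p q, g p = g q → YM τ' l (pre h p) = YM τ' l (pre h q) ∧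
    |XX lam t (pre h p) - XX lam t (pre h q)| ≤ B * lam ^ l) →
  condH (pre h) g ≤ HT lam t τ' l + Real.log (B + 2)

/-- analytic limit: some derivative does not vanish -/
def A_anal : Prop := ∀ (lam : ℝ), 0 < lam → lam < 1 → ∀ (m : ℕ) (B : ℝ) (U : Filter ℕ) [U.NeBot]
  (P : ℕ → Polynomial ℤ) (c : ℕ → ℤ),
  (∀ j i, |(((P j).coeff i : ℤ) : ℝ)| ≤ B * ((i : ℝ) + 1) ^ m) →
  (∀ i, ∀ᶠ j in U, (P j).coeff i = c i) → (∃ i, c i ≠ 0) →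
  ∃ e : ℕ, ∃ δ : ℝ, 0 < δ ∧ ∀ᶠ j in U, δ ≤ |Polynomial.aeval lam (Polynomial.hasseDeriv e (P j))|

/-- a small value and a large derivative give a close root -/
def A_root : Prop := ∀ (P : Polynomial ℤ) (lam δ η : ℝ) (e : ℕ), P ≠ 0 → 1 ≤ e → 0 < δ →
  0 ≤ η → |Polynomial.aeval lam P| ≤ η → δ ≤ |Polynomial.aeval lam (Polynomial.hasseDeriv e P)| →
  ∃ z : ℂ, Polynomial.aeval z P = 0 ∧
    ‖(lam : ℂ) - z‖ ≤ P.natDegree * (η / δ) ^ ((1 : ℝ) / e)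

/-- basic facts on relation polynomials -/
def A_rel : Prop := ∀ (A : Type) [Fintype A] [DecidableEq A] (lam : ℝ) (t : A → ℝ)
  (τ : A → A → PowerSeries ℤ) (k : ℕ) (p q : Fin k → A),
  (∀ a, (FF p q a).natDegree ≤ k) ∧ (∀ a i, |(FF p q a).coeff i| ≤ 1) ∧
  (∀ a i, k ≤ i → (FF p q a).coeff i = 0) ∧ (∀ a, L1 (FF p q a) ≤ k) ∧
  (∀ b, ∑ a, τ b a * ((FF p q a : Polynomial ℤ) : PowerSeries ℤ) = YY τ p b - YY τ q b) ∧
  (∑ a, t a * Polynomial.aeval lam (FF p q a) = XX lam t p - XX lam t q)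

/-- ultralimits of bounded sequences of polynomial vectors -/
def A_lim : Prop := ∀ (A : Type) [Fintype A] (U : Ultrafilter ℕ) (F : ℕ → A → Polynomial ℤ),
  (∀ j a i, |(F j a).coeff i| ≤ 1) →
  ∃ G : A → PowerSeries ℤ, (∀ a i, |PowerSeries.coeff i (G a)| ≤ 1) ∧
    ∀ J : ℕ, ∀ᶠ j in (U : Filter ℕ), ∀ a, ∀ i < J, (F j a).coeff i = PowerSeries.coeff i (G a)

/-- a spanning set contains a basis which is completed by unit vectors -/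
def A_span : Prop := ∀ (A F : Type) [Fintype A] [DecidableEq A] [Field F] (S : Set (A → F)),
  ∃ (T : Finset A) (c : A → A → F), T.card = Module.finrank F (Submodule.span F S) ∧
    (∀ a ∈ T, c a ∈ S) ∧ (∀ a, a ∉ T → c a = Pi.single a 1) ∧ (Matrix.of c).det ≠ 0

/-- Cramer's rule inside the kernel of `τ` -/
def A_det : Prop := ∀ (A : Type) [Fintype A] [DecidableEq A] [Nonempty A] (lam : ℝ) (t : A → ℝ),
  0 < lam → lam < 1 → ∀ (τ : A → A → PowerSeries ℤ) (T : Finset A)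
  (c : A → A → Polynomial ℤ) (Fs : A → Polynomial ℤ) (w : ℝ), 0 ≤ w →
  T.card = rk τ → (∀ a, a ∉ T → c a = Pi.single a 1) →
  (∀ a b i, |(c a b).coeff i| ≤ 1) → (∀ b i, |(Fs b).coeff i| ≤ 1) →
  (∀ a ∈ T, ∀ b, ∑ a', τ b a' * ((c a a' : Polynomial ℤ) : PowerSeries ℤ) = 0) →
  (∀ b, ∑ a', τ b a' * ((Fs a' : Polynomial ℤ) : PowerSeries ℤ) = 0) →
  (∀ a ∈ T, |∑ a', t a' * Polynomial.aeval lam (c a a')| ≤ w) → (Matrix.of c).det ≠ 0 →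
  |Polynomial.aeval lam (Matrix.of c).det| * |∑ a', t a' * Polynomial.aeval lam (Fs a')| ≤
    (Fintype.card A).factorial * Fintype.card A * (1 / (1 - lam)) ^ (Fintype.card A) * w

/-- size of a determinant of polynomials -/
def A_bds : Prop := ∀ (A : Type) [Fintype A] [DecidableEq A] (c : A → A → Polynomial ℤ) (K : ℕ),
  1 ≤ K → (∀ a b, (c a b).natDegree ≤ K) → (∀ a b i, |(c a b).coeff i| ≤ 1) →
  (∀ a b, L1 (c a b) ≤ K) →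
  (Matrix.of c).det.natDegree ≤ Fintype.card A * K ∧
  L1 (Matrix.of c).det ≤ (Fintype.card A).factorial * (K : ℝ) ^ (Fintype.card A) ∧
  ∀ i, |(((Matrix.of c).det.coeff i : ℤ) : ℝ)| ≤
    (Fintype.card A).factorial * ((i : ℝ) + 1) ^ (Fintype.card A)

/-- the compactness theorem -/
def A_compact : Prop := ∀ (A : Type) [Fintype A] [DecidableEq A] [Nonempty A] (lam : ℝ) (t : A → ℝ),
  0 < lam → lam < 1 → Free lam t → ∀ τ : A → A → PowerSeries ℤ,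
  (∀ τ' : A → A → PowerSeries ℤ, rk τ' < rk τ → Claim lam t τ') →
  ∀ (c : ℝ), 0 < c → ∀ (K : ℕ → ℕ) (w : ℕ → ℝ), (∀ j, 0 < w j) → Tendsto w atTop (nhds 0) →
  (∀ l : ℕ, 1 ≤ l → ∀ᶠ j in atTop, ∃ (k' : ℕ) (h : l ≤ k'), k' ≤ K j ∧ ∃ s w' : ℝ,
    0 < w' ∧ w' ≤ w j ∧
    c * l ≤ condH (pre h) (fun p : Fin k' → A => (YY τ p, ⌊XX lam t p / w' + s⌋))) →
  ∃ e : ℕ, 1 ≤ e ∧ ∃ C : ℝ, 1 ≤ C ∧ ∃ᶠ j in atTop, ∃ P : Polynomial ℤ, P ≠ 0 ∧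
    P.natDegree ≤ Fintype.card A * K j ∧ L1 P ≤ C * (K j : ℝ) ^ (Fintype.card A) ∧
    ∃ z : ℂ, Polynomial.aeval z P = 0 ∧
      ‖(lam : ℂ) - z‖ ≤ (Fintype.card A : ℝ) * K j * (C * w j) ^ ((1 : ℝ) / e)

/-- chain rule: from long words to prefixes -/
def A_chain : Prop := ∀ (A : Type) [Fintype A] [DecidableEq A] (lam : ℝ) (t : A → ℝ)
  (τ : A → A → PowerSeries ℤ), 2 ≤ Fintype.card A → 0 < lam → lam < 1 →
  ∀ (c : ℝ), 0 < c → ∀ l : ℕ, 1 ≤ l → ∃ k0 : ℕ, ∀ k : ℕ, k0 ≤ k → ∀ w : ℝ, 0 < w →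
  c * k ≤ HW lam t τ k w →
  ∃ (k' : ℕ) (h : l ≤ k'), k' ≤ k ∧ ∃ s w' : ℝ, 0 < w' ∧ w' ≤ w / lam ^ k ∧
    c / 2 * l ≤ condH (pre h) (fun p : Fin k' → A => (YY τ p, ⌊XX lam t p / w' + s⌋))

/-! ### Statements: windows (W) -/

/-- Liouville inequality -/
def W_liou : Prop := ∀ (P D : Polynomial ℤ) (z : ℂ), P ≠ 0 → Polynomial.aeval z P = 0 →
  Polynomial.aeval z D ≠ 0 →
  1 ≤ ‖Polynomial.aeval z D‖ * L1 D ^ P.natDegree * L1 P ^ D.natDegree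

/-- separation of roots (Mahler) -/
def W_sep : Prop := ∀ (P Q : Polynomial ℤ) (z z' : ℂ), P ≠ 0 → Q ≠ 0 →
  Polynomial.aeval z P = 0 → Polynomial.aeval z' Q = 0 → z ≠ z' → ‖z‖ ≤ 1 → ‖z'‖ ≤ 1 →
  1 ≤ ‖z - z'‖ * ((P.natDegree + Q.natDegree : ℕ) : ℝ) ^ (2 * (P.natDegree + Q.natDegree) + 2)
    * (L1 P * L1 Q) ^ (P.natDegree + Q.natDegree)

/-- abstract window lemma -/
def W_lemma : Prop := ∀ (I : Type) [Fintype I] [DecidableEq I] (z : I → ℂ) (B κ0 : ℝ),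
  1 ≤ B → 0 < κ0 → κ0 ≤ 1 → ∀ (w : Fin (Fintype.card I + 1) → I → ℂ),
  (∀ i a, ‖w i a‖ ≤ B) →
  (∀ (r : ℕ) (f : Fin r → Fin (Fintype.card I + 1)) (g : Fin r → I), r ≤ Fintype.card I →
    (Matrix.of (fun i j => w (f i) (g j))).det = 0 ∨
      κ0 ≤ ‖(Matrix.of (fun i j => w (f i) (g j))).det‖) →
  (∀ i, 0 < ‖∑ a, w i a * z a‖) →
  (∀ i j, i ≤ j → ‖∑ a, w j a * z a‖ ≤ ‖∑ a, w i a * z a‖) →
  ∃ i : Fin (Fintype.card I),
    ‖∑ a, w i.castSucc a * z a‖ ≤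
      (Fintype.card I * (Fintype.card I).factorial * B ^ (Fintype.card I) / κ0 : ℝ)
        * ‖∑ a, w i.succ a * z a‖

/-- Taylor expansion at a nearby complex number -/
def W_taylor : Prop := ∀ (lam : ℝ) (z : ℂ) (E : ℕ), 0 < lam → lam < 1 →
  ‖(lam : ℂ) - z‖ ≤ (1 - lam) / 4 → ∀ F : Polynomial ℤ, (∀ i, |F.coeff i| ≤ 1) →
  ‖Polynomial.aeval (lam : ℂ) F - ∑ e ∈ Finset.range (E + 1),
      ((lam : ℂ) - z) ^ e * Polynomial.aeval z (Polynomial.hasseDeriv e F)‖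
    ≤ (8 / (1 - lam)) ^ (E + 2) * ‖(lam : ℂ) - z‖ ^ (E + 1) ∧
  ∀ e ≤ E, ‖Polynomial.aeval z (Polynomial.hasseDeriv e F)‖ ≤ (2 / (1 - lam)) ^ (e + 1)

/-- minors at an algebraic number are zero or not too small -/
def W_minor : Prop := ∀ (N E m : ℕ) (Cp : ℝ), 1 ≤ Cp → ∃ C : ℝ, 1 ≤ C ∧
  ∀ (K : ℕ) (P : Polynomial ℤ) (z : ℂ), 2 ≤ K → P ≠ 0 → P.natDegree ≤ m * K →
  L1 P ≤ Cp * (K : ℝ) ^ m → Polynomial.aeval z P = 0 → ∀ k : ℕ, K ≤ k →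
  ∀ (r : ℕ), r ≤ N → ∀ (F : Fin r → Fin r → Polynomial ℤ) (e : Fin r → ℕ), (∀ j, e j ≤ E) →
  (∀ i j, (F i j).natDegree ≤ k) → (∀ i j n, |(F i j).coeff n| ≤ 1) →
  (Matrix.of (fun i j => Polynomial.aeval z (Polynomial.hasseDeriv (e j) (F i j)))).det = 0 ∨
    Real.exp (-(C * k * Real.log k)) ≤
      ‖(Matrix.of (fun i j => Polynomial.aeval z (Polynomial.hasseDeriv (e j) (F i j)))).det‖

/-- differences of words of length `κ` avoid most scales near an algebraic number -/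
def W_win : Prop := ∀ (A : Type) [Fintype A] [DecidableEq A] [Nonempty A] (lam : ℝ) (t : A → ℝ),
  0 < lam → lam < 1 → ∀ (E : ℕ) (Cp : ℝ), 1 ≤ Cp → ∃ C : ℝ, 1 ≤ C ∧
  ∀ (K : ℕ) (P : Polynomial ℤ) (z : ℂ), 2 ≤ K → P ≠ 0 → P.natDegree ≤ Fintype.card A * K →
  L1 P ≤ Cp * (K : ℝ) ^ (Fintype.card A) → Polynomial.aeval z P = 0 →
  ‖(lam : ℂ) - z‖ ≤ (1 - lam) / 4 → ∀ k : ℕ, K ≤ k →
  ∃ v : Fin (Fintype.card A * (E + 1)) → ℝ, ∀ p q : Fin k → A,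
    XX lam t p ≠ XX lam t q → C * ‖(lam : ℂ) - z‖ ^ (E + 1) ≤ |XX lam t p - XX lam t q| →
    ∃ i, v i ≤ -Real.log |XX lam t p - XX lam t q| ∧
      -Real.log |XX lam t p - XX lam t q| ≤ v i + C * k * Real.log k

/-- drop through windows -/
def W_drop : Prop := ∀ (Ω β : Type) [Fintype Ω] (κ : Ω → β) (x : Ω → ℝ) (lam : ℝ),
  0 < lam → lam < 1 → ∀ (N : ℕ) (v : Fin N → ℝ) (ell : ℝ), 0 ≤ ell →
  ∀ nA nE : ℕ, nA ≤ nE →
  (∀ p q, κ p = κ q → x p ≠ x q → lam ^ nE ≤ |x p - x q| →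
    ∃ i, v i ≤ -Real.log |x p - x q| ∧ -Real.log |x p - x q| ≤ v i + ell) →
  ∃ u u' : Fin N → ℕ, (∀ j, nA ≤ u j ∧ u j ≤ u' j ∧
      (u' j : ℝ) ≤ u j + ell / Real.log (1 / lam) + 4) ∧
    HR (fun p => (κ p, ⌊x p / lam ^ nA⌋)) - HR (fun p => (κ p, ⌊x p / lam ^ nE⌋)) ≤
      10 * (N + 1) + ∑ j, (HR (fun p => (κ p, ⌊x p / lam ^ (u j)⌋)) -
        HR (fun p => (κ p, ⌊x p / lam ^ (u' j)⌋)))

/-- existence of a good length `κ` -/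
def W_kappa : Prop := ∀ (A : Type) [Fintype A] [DecidableEq A] [Nonempty A] (lam : ℝ) (t : A → ℝ),
  0 < lam → lam < 1 → Free lam t → ∀ (τ : A → A → PowerSeries ℤ) (a : ℕ → ℝ) (C1 c0 : ℝ),
  Antitone a → (∀ n, 0 ≤ a n ∧ a n ≤ 1) → 1 ≤ C1 → 0 < c0 →
  (∀ k : ℕ, 1 ≤ k → DropIneq C1 a k (fun n => HW lam t τ k (lam ^ n))) →
  ∀ (E e : ℕ) (Cp : ℝ), 1 ≤ e → 1 ≤ Cp → ∃ g0 : ℕ, ∀ g : ℕ, g0 ≤ g → ∀ K : ℕ,
  2 ^ (g ^ 3) ≤ K → K ≤ 2 ^ ((g + 1) ^ 3) →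
  (∀ k : ℕ, K ≤ k → k ≤ K * 2 ^ g → c0 / 2 * k ≤ HW lam t τ k (lam ^ (k * 8 ^ g))) →
  ∀ (P : Polynomial ℤ) (z : ℂ), P ≠ 0 → P.natDegree ≤ Fintype.card A * K →
  L1 P ≤ Cp * (K : ℝ) ^ (Fintype.card A) → Polynomial.aeval z P = 0 →
  ‖(lam : ℂ) - z‖ ≤ (Fintype.card A : ℝ) * K * (Cp * lam ^ (K * (8 ^ g - 1))) ^ ((1 : ℝ) / e) →
  ∃ k : ℕ, K ≤ k ∧ k ≤ K * 2 ^ g ∧ (lam : ℂ) ≠ z ∧
    c0 / 8 * k ≤ HW lam t τ k (‖(lam : ℂ) - z‖ ^ E)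

/-! ### Statements: main line (M) -/

/-- `C(τ)` for all `τ` -/
def M_claim : Prop := ∀ (A : Type) [Fintype A] [DecidableEq A] (lam : ℝ) (t : A → ℝ),
  2 ≤ Fintype.card A → 0 < lam → lam < 1 → Free lam t →
  (∃ R : ℕ, 1 ≤ R ∧ ∃ A0 : ℝ, 3 / (2 * (R : ℝ) ^ 2) < A0 ∧
    ∀ n : ℕ, A0 ≤ aa lam t (fun _ _ => 0) R n) →
  ∀ τ : A → A → PowerSeries ℤ, Claim lam t τ

/-- many cells -/
def M_cells : Prop := ∀ (A : Type) [Fintype A] [DecidableEq A] (lam : ℝ) (t : A → ℝ),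
  2 ≤ Fintype.card A → 0 < lam → lam < 1 → Free lam t →
  ∀ ε : ℝ, 0 < ε → ∀ n0 : ℕ, ∃ n : ℕ, n0 ≤ n ∧
    Real.exp (n * (min (Real.log (Fintype.card A)) (Real.log (1 / lam)) - ε)) ≤
      ((Set.range (fun p : Fin n → A => ⌊XX lam t p / lam ^ n⌋)).ncard : ℝ)

/-! ### Statements: geometry (G) -/

/-- strongly separated homogeneous systems -/
def G_holder : Prop := ∀ (M : ℕ) (ρ D : ℝ) (b : Fin M → ℝ) (X : Set ℝ), 2 ≤ M → 0 < ρ → ρ < 1 →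
  X.Nonempty → IsClosed X → (∀ x ∈ X, ∀ y ∈ X, |x - y| ≤ D) →
  (∀ i, ∀ x ∈ X, ρ * x + b i ∈ X) → (∀ i j, i ≠ j → (D + 1) * ρ ≤ |b i - b j|) →
  ENNReal.ofReal (Real.log M / Real.log (1 / ρ)) ≤ dimH X

/-- homogeneous systems -/
def G_homog : Prop := ∀ (A : Type) [Fintype A] [DecidableEq A] (lam : ℝ) (t : A → ℝ),
  2 ≤ Fintype.card A → 0 < lam → lam < 1 → Free lam t → ∀ X : Set ℝ, X.Nonempty → IsCompact X →
  (∀ a, ∀ x ∈ X, lam * x + t a ∈ X) →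
  ENNReal.ofReal (min 1 (Real.log (Fintype.card A) / Real.log (1 / lam))) ≤ dimH X

/-- words of one type -/
def G_type : Prop := ∀ (n : ℕ) (r : Fin n → ℝ) (s : ℝ), 2 ≤ n → (∀ i, r i ≠ 0 ∧ |r i| < 1) →
  (∑ i, |r i| ^ s) = 1 → ∀ ε : ℝ, 0 < ε →
  ∃ (N : ℕ) (lam : ℝ) (W : Finset (Fin N → Fin n)), 1 ≤ N ∧ 0 < lam ∧ lam < 1 ∧ 2 ≤ W.card ∧
    (∀ w ∈ W, ∏ i, r (w i) = lam) ∧ s - ε ≤ Real.log W.card / Real.log (1 / lam)

/-- upper bound -/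
def G_upper : Prop := ∀ (n : ℕ) (r b : Fin n → ℝ), 0 < n → (∀ i, r i ≠ 0 ∧ |r i| < 1) →
  ∀ X : Set ℝ, X.Nonempty → IsCompact X → X = ⋃ i, (fun x : ℝ => r i * x + b i) '' X →
  ∀ s : ℝ, (∑ i, |r i| ^ s) = 1 → dimH X ≤ ENNReal.ofReal (min 1 s)

/-- the exact overlaps conjecture, statement S04273 -/
def G_main : Prop := ∀ (n : ℕ) (r b : Fin n → ℝ), 0 < n →
      (∀ i, r i ≠ 0 ∧ |r i| < 1) →
      (∀ w w' : List (Fin n),
        List.foldr (fun i (g : ℝ → ℝ) => fun x : ℝ => r i * g x + b i) (fun x : ℝ => x) w =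
          List.foldr (fun i (g : ℝ → ℝ) => fun x : ℝ => r i * g x + b i) (fun x : ℝ => x) w' →
        w = w') →
      ∀ X : Set ℝ, X.Nonempty → IsCompact X →
        X = ⋃ i, (fun x : ℝ => r i * x + b i) '' X →
        ∀ s : ℝ, (∑ i, |r i| ^ s) = 1 →
          dimH X = ENNReal.ofReal (min 1 s)

/-- statement S02791 -/
def G_main2 : Prop := ∀ (k : ℕ) (a b : Fin k → ℝ),
      (∀ i, a i ≠ 0) → (∀ i, |a i| < 1) →
      ∀ (F : Set ℝ), IsCompact F → F.Nonempty →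
        F = ⋃ i, (fun x => a i * x + b i) '' F →
        ∀ (s : ℝ), (∑ i, |a i| ^ s) = 1 →
          dimH F < ENNReal.ofReal (min 1 s) →
          ∃ (m : ℕ) (u v : Fin m → Fin k), u ≠ v ∧
            (fun x => (List.ofFn u).foldr (fun i y => a i * y + b i) x) '' F =
            (fun x => (List.ofFn v).foldr (fun i y => a i * y + b i) x) '' F

end H517.EO
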