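import Pool.Agent.H517R2.EO.Basic

/-! TEAM EO, task A1 (helper930): linear algebra and ultralimits. -/

set_option autoImplicit false

open Finset Filter MeasureTheory

namespace H517.EO

theorem t_A_ker : A_ker := by
  intro A _ _ V
  obtain ⟨W, hW⟩ := Submodule.exists_isCompl V
  obtain ⟨P, hP⟩ : ∃ P : (A → FractionRing (PowerSeries ℤ)) →ₗ[FractionRing (PowerSeries ℤ)]
      (A → FractionRing (PowerSeries ℤ)), LinearMap.ker P = V := by
    refine ⟨W.subtype ∘ₗ Submodule.projectionOnto W V hW.symm, ?_⟩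
    rw [LinearMap.ker_comp_of_ker_eq_bot _ (Submodule.ker_subtype W),
      Submodule.ker_projectionOnto]
  obtain ⟨b, hb⟩ := IsLocalization.exist_integer_multiples_of_finite
    (nonZeroDivisors (PowerSeries ℤ))
    (fun p : A × A => LinearMap.toMatrix' P p.1 p.2)
  choose t ht using hb
  refine ⟨fun x y => t (x, y), ?_⟩
  have hb0 : algebraMap (PowerSeries ℤ) (FractionRing (PowerSeries ℤ)) (b : PowerSeries ℤ) ≠ 0 := by
    intro h
    have h1 : (b : PowerSeries ℤ) = 0 :=
      (IsFractionRing.injective (PowerSeries ℤ) (FractionRing (PowerSeries ℤ))) (by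
        rw [h, map_zero])
    exact nonZeroDivisors.coe_ne_zero b h1
  have h1 : (Matrix.of (fun x y =>
      algebraMap (PowerSeries ℤ) (FractionRing (PowerSeries ℤ)) (t (x, y)))) =
      algebraMap (PowerSeries ℤ) (FractionRing (PowerSeries ℤ)) (b : PowerSeries ℤ) •
        LinearMap.toMatrix' P := by
    ext x y
    rw [Matrix.of_apply, ht (x, y), Matrix.smul_apply, smul_eq_mul, Algebra.smul_def]
  rw [h1, map_smul, Matrix.toLin'_toMatrix', LinearMap.ker_smul _ _ hb0, hP]

theorem t_A_lim : A_lim := by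
  intro A _ U F hF
  have h1 : ∀ a i, ∃ v : ℤ, |v| ≤ 1 ∧ ∀ᶠ j in (U : Filter ℕ), (F j a).coeff i = v := by
    intro a i
    have h2 : ∀ᶠ j in (U : Filter ℕ), (F j a).coeff i = -1 ∨ ((F j a).coeff i = 0 ∨
        (F j a).coeff i = 1) := by
      refine Filter.Eventually.of_forall fun j => ?_
      have := abs_le.1 (hF j a i)
      omega
    rcases Ultrafilter.eventually_or.1 h2 with h | h
    · exact ⟨-1, by norm_num, h⟩
    · rcases Ultrafilter.eventually_or.1 h with h | h
      · exact ⟨0, by norm_num, h⟩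
      · exact ⟨1, by norm_num, h⟩
  choose v hv1 hv2 using h1
  refine ⟨fun a => PowerSeries.mk (v a), ?_, ?_⟩
  · intro a i
    rw [PowerSeries.coeff_mk]
    exact hv1 a i
  · intro J
    rw [Filter.eventually_all]
    intro a
    have h3 : ∀ i ∈ Finset.range J, ∀ᶠ j in (U : Filter ℕ),
        (F j a).coeff i = PowerSeries.coeff i (PowerSeries.mk (v a)) := by
      intro i _
      rw [PowerSeries.coeff_mk]
      exact hv2 a i
    have h4 := (Filter.eventually_all_finset (Finset.range J)).2 h3
    filter_upwards [h4] with j hj i hi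
    exact hj i (Finset.mem_range.2 hi)

theorem t_A_span : A_span := by
  intro A F _ _ _ S
  obtain ⟨b, hbS, hbspan, hbli⟩ := exists_linearIndependent F S
  have hbli' : LinearIndepOn F id b := hbli
  obtain ⟨B, hBt, hbB, htB, hBli⟩ := exists_linearIndepOn_id_extension (K := F)
    (t := b ∪ Set.range (fun a : A => (Pi.single a 1 : A → F))) hbli' Set.subset_union_left
  have hBli' : LinearIndependent F ((↑) : B → (A → F)) := hBli
  have hBfin : Finite B := hBli'.finite
  have hbfin : Finite b := hbli.finite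
  have : Fintype B := Fintype.ofFinite B
  have : Fintype b := Fintype.ofFinite b
  have hBtop : Submodule.span F B = ⊤ := by
    rw [eq_top_iff, ← (Pi.basisFun F A).span_eq, Submodule.span_le]
    rintro _ ⟨a, rfl⟩
    rw [Pi.basisFun_apply]
    exact htB (Or.inr ⟨a, rfl⟩)
  have hBcard : Fintype.card B = Fintype.card A := by
    have h1 := linearIndependent_iff_card_eq_finrank_span.1 hBli'
    rw [Set.finrank, Subtype.range_coe, hBtop, finrank_top,
      Module.finrank_fintype_fun_eq_card] at h1
    exact h1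
  have hbcard : Fintype.card b = Module.finrank F (Submodule.span F S) := by
    have h1 := linearIndependent_iff_card_eq_finrank_span.1 hbli
    rw [Set.finrank, Subtype.range_coe, hbspan] at h1
    exact h1
  have hsing : Function.Injective (fun a : A => (Pi.single a 1 : A → F)) := by
    intro x y hxy
    by_contra hne
    have h1 := congrFun hxy x
    beta_reduce at h1
    rw [Pi.single_eq_same, Pi.single_eq_of_ne hne] at h1
    exact one_ne_zero h1
  classical
  obtain ⟨U, hU⟩ : ∃ U : Finset A, ∀ a, a ∈ U ↔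
      (Pi.single a 1 : A → F) ∈ B ∧ (Pi.single a 1 : A → F) ∉ b :=
    ⟨Finset.univ.filter fun a => (Pi.single a 1 : A → F) ∈ B ∧ (Pi.single a 1 : A → F) ∉ b,
      fun a => by simp⟩
  have hUcard : U.card + Fintype.card b = Fintype.card B := by
    have h1 : (B.toFinset) = U.image (fun a : A => (Pi.single a 1 : A → F)) ∪ b.toFinset := by
      ext x
      rw [Set.mem_toFinset, mem_union, mem_image, Set.mem_toFinset]
      constructor
      · intro hx
        by_cases hxb : x ∈ b
        · exact Or.inr hxb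
        · left
          rcases hBt hx with h | ⟨a, rfl⟩
          · exact absurd h hxb
          · exact ⟨a, (hU a).2 ⟨hx, hxb⟩, rfl⟩
      · rintro (⟨a, ha, rfl⟩ | hx)
        · exact ((hU a).1 ha).1
        · exact hbB hx
    have h2 : Disjoint (U.image (fun a : A => (Pi.single a 1 : A → F))) b.toFinset := by
      rw [Finset.disjoint_left]
      intro x hx hxb
      rw [mem_image] at hx
      obtain ⟨a, ha, rfl⟩ := hx
      exact ((hU a).1 ha).2 (Set.mem_toFinset.1 hxb)
    rw [← Set.toFinset_card B, h1, Finset.card_union_of_disjoint h2,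
      Finset.card_image_of_injective _ hsing, Set.toFinset_card]
  have hTcard : (Uᶜ).card = Fintype.card b := by
    rw [Finset.card_compl]
    have := Finset.card_le_univ U
    omega
  obtain ⟨ψ⟩ : Nonempty ({x // x ∈ Uᶜ} ≃ b) := by
    rw [← Fintype.card_eq, Fintype.card_coe, hTcard]
  obtain ⟨c, hc1, hc2⟩ : ∃ c : A → A → F, (∀ (a : A) (ha : a ∈ Uᶜ), c a = (ψ ⟨a, ha⟩ : b).1) ∧
      (∀ a, a ∉ Uᶜ → c a = Pi.single a 1) :=
    ⟨fun a => if ha : a ∈ Uᶜ then (ψ ⟨a, ha⟩ : b).1 else Pi.single a 1,
      fun a ha => dif_pos ha, fun a ha => dif_neg ha⟩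
  have hcB : ∀ a, c a ∈ B := by
    intro a
    by_cases ha : a ∈ Uᶜ
    · rw [hc1 a ha]
      exact hbB (ψ ⟨a, ha⟩).2
    · rw [hc2 a ha]
      rw [Finset.mem_compl, not_not] at ha
      exact ((hU a).1 ha).1
  have hcinj : Function.Injective c := by
    intro x y hxy
    by_cases hx : x ∈ Uᶜ <;> by_cases hy : y ∈ Uᶜ
    · rw [hc1 x hx, hc1 y hy] at hxy
      have := ψ.injective (Subtype.ext hxy)
      exact congrArg Subtype.val this
    · rw [hc1 x hx, hc2 y hy] at hxy
      rw [Finset.mem_compl, not_not] at hy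
      exact absurd (hxy ▸ (ψ ⟨x, hx⟩).2) ((hU y).1 hy).2
    · rw [hc2 x hx, hc1 y hy] at hxy
      rw [Finset.mem_compl, not_not] at hx
      exact absurd (hxy ▸ (ψ ⟨y, hy⟩).2) ((hU x).1 hx).2
    · rw [hc2 x hx, hc2 y hy] at hxy
      exact hsing hxy
  refine ⟨Uᶜ, c, by rw [hTcard, hbcard], ?_, hc2, ?_⟩
  · intro a ha
    rw [hc1 a ha]
    exact hbS (ψ ⟨a, ha⟩).2
  · have h1 : LinearIndependent F c := by
      have h2 : c = ((↑) : B → (A → F)) ∘ (fun a => (⟨c a, hcB a⟩ : B)) := rfl
      rw [h2]
      apply hBli'.comp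
      intro x y hxy
      exact hcinj (congrArg Subtype.val hxy)
    have h3 : LinearIndependent F (Matrix.of c).row := h1
    have h4 := Matrix.linearIndependent_rows_iff_isUnit.1 h3
    exact ((Matrix.isUnit_iff_isUnit_det _).1 h4).ne_zero

end H517.EO
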