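import Pool.Agent.H517R2.EO.Basic

/-! TEAM EO, task G3 (helper930): words of one type. -/

set_option autoImplicit false

open Finset Filter MeasureTheory

namespace H517.EO

namespace G3

/-- the type (letter counts) of a word -/
noncomputable def ty {N n : ℕ} (w : Fin N → Fin n) : Fin n → Fin (N + 1) :=
  fun a => ⟨(univ.filter fun i => w i = a).card, by
    have := card_filter_le (univ : Finset (Fin N)) (fun i => w i = a)
    rw [card_univ, Fintype.card_fin] at this
    omega⟩

theorem prod_ty {N n : ℕ} (w : Fin N → Fin n) (g : Fin n → ℝ) :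
    ∏ i, g (w i) = ∏ a, g a ^ (ty w a : ℕ) := by
  rw [← Finset.prod_fiberwise univ w (fun i => g (w i))]
  refine Finset.prod_congr rfl fun a _ => ?_
  have h1 : ∏ i ∈ univ.filter (fun i => w i = a), g (w i) =
      ∏ i ∈ univ.filter (fun i => w i = a), g a := by
    refine Finset.prod_congr rfl fun i hi => ?_
    rw [(mem_filter.1 hi).2]
  rw [h1, Finset.prod_const]
  rfl

theorem s_pos (n : ℕ) (r : Fin n → ℝ) (s : ℝ) (hn : 2 ≤ n) (hr : ∀ i, r i ≠ 0 ∧ |r i| < 1)
    (hs : (∑ i, |r i| ^ s) = 1) : 0 < s := by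
  by_contra h
  push Not at h
  have h1 : ∀ i ∈ (univ : Finset (Fin n)), (1 : ℝ) ≤ |r i| ^ s := fun i _ =>
    Real.one_le_rpow_of_pos_of_le_one_of_nonpos (abs_pos.2 (hr i).1) (hr i).2.le h
  have h2 := Finset.sum_le_sum h1
  rw [Finset.sum_const, card_univ, Fintype.card_fin, nsmul_eq_mul, mul_one, hs] at h2
  have h3 : (2 : ℝ) ≤ n := by exact_mod_cast hn
  linarith

/-- a popular type -/
theorem popular (n N : ℕ) (r : Fin n → ℝ) (s : ℝ) (hr : ∀ i, r i ≠ 0 ∧ |r i| < 1)
    (hs : (∑ i, |r i| ^ s) = 1) :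
    ∃ (P : ℝ) (A : Finset (Fin N → Fin n)), P ≠ 0 ∧ (∀ w ∈ A, ∏ i, r (w i) = P) ∧
      1 ≤ (((N : ℝ) + 1) ^ n) * (A.card * |P| ^ s) := by
  classical
  have h1 : ∑ w : Fin N → Fin n, ∏ i, |r (w i)| ^ s = 1 := by
    have h2 := Finset.prod_univ_sum (fun _ : Fin N => (univ : Finset (Fin n)))
      (fun (_ : Fin N) (j : Fin n) => |r j| ^ s)
    rw [Fintype.piFinset_univ] at h2
    rw [← h2, Finset.prod_const, hs, one_pow]
  rw [← Finset.sum_fiberwise univ (ty (N := N) (n := n)) _] at h1
  have hcard : (Fintype.card (Fin n → Fin (N + 1)) : ℝ) = ((N : ℝ) + 1) ^ n := by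
    rw [Fintype.card_fun, Fintype.card_fin, Fintype.card_fin]
    push_cast
    rfl
  obtain ⟨τ, _, hτ⟩ : ∃ τ ∈ (univ : Finset (Fin n → Fin (N + 1))),
      1 / (((N : ℝ) + 1) ^ n) ≤ ∑ w ∈ univ.filter (fun w : Fin N → Fin n => ty w = τ),
        ∏ i, |r (w i)| ^ s := by
    apply Finset.exists_le_of_sum_le univ_nonempty
    rw [h1, Finset.sum_const, card_univ, nsmul_eq_mul, hcard]
    rw [mul_one_div_cancel]
    positivity
  refine ⟨∏ a, r a ^ (τ a : ℕ), univ.filter (fun w : Fin N → Fin n => ty w = τ), ?_, ?_, ?_⟩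
  · rw [Finset.prod_ne_zero_iff]
    intro a _
    exact pow_ne_zero _ (hr a).1
  · intro w hw
    rw [prod_ty, (mem_filter.1 hw).2]
  · have h2 : ∑ w ∈ univ.filter (fun w : Fin N → Fin n => ty w = τ), ∏ i, |r (w i)| ^ s =
        (univ.filter (fun w : Fin N → Fin n => ty w = τ)).card *
          |∏ a, r a ^ (τ a : ℕ)| ^ s := by
      rw [← nsmul_eq_mul, ← Finset.sum_const]
      refine Finset.sum_congr rfl fun w hw => ?_
      have h3 : ∏ i, r (w i) = ∏ a, r a ^ (τ a : ℕ) := by
        rw [prod_ty, (mem_filter.1 hw).2]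
      rw [← h3, Finset.abs_prod, ← Real.finsetProd_rpow _ _ (fun i _ => abs_nonneg _)]
    rw [← h2]
    rw [div_le_iff₀ (by positivity)] at hτ
    linarith

theorem choose_N (n : ℕ) (δ : ℝ) (hδ : 0 < δ) : ∃ N : ℕ, 1 ≤ N ∧
    n * Real.log (N + 1) ≤ δ * N := by
  have hd : 0 < δ / (2 * (n + 1)) := by positivity
  have h1 := (Real.isLittleO_log_id_atTop.def hd)
  have h2 : Tendsto (fun N : ℕ => (N : ℝ) + 1) atTop atTop :=
    tendsto_atTop_add_const_right _ _ tendsto_natCast_atTop_atTop
  obtain ⟨N, hN1, hN⟩ := ((h2.eventually h1).and (eventually_ge_atTop 1)).exists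
  refine ⟨N, hN, ?_⟩
  have hN' : (1 : ℝ) ≤ N := by exact_mod_cast hN
  have h3 : Real.log ((N : ℝ) + 1) ≤ δ / (2 * (n + 1)) * (N + 1) := by
    have h4 := (le_abs_self _).trans hN1
    rwa [id, Real.norm_eq_abs, abs_of_pos (by positivity)] at h4
  have h5 : Real.log ((N : ℝ) + 1) ≤ δ / (2 * (n + 1)) * (2 * N) :=
    h3.trans (mul_le_mul_of_nonneg_left (by linarith) hd.le)
  have h6 : (n : ℝ) * Real.log (N + 1) ≤ n * (δ / (2 * (n + 1)) * (2 * N)) :=
    mul_le_mul_of_nonneg_left h5 (Nat.cast_nonneg _)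
  have h7 : (n : ℝ) * (δ / (2 * (n + 1)) * (2 * N)) = (n / (n + 1)) * (δ * N) := by
    field_simp
  rw [h7] at h6
  refine h6.trans ?_
  have h8 : (n : ℝ) / (n + 1) ≤ 1 := by
    rw [div_le_one (by positivity)]
    linarith
  have h9 : 0 ≤ δ * N := by positivity
  nlinarith

end G3

theorem t_G_type : G_type := by
  classical
  intro n r s hn hr hs ε hε
  have hs0 := G3.s_pos n r s hn hr hs
  haveI : Nonempty (Fin n) := ⟨⟨0, by omega⟩⟩
  obtain ⟨i0, _, hi0⟩ := Finset.exists_max_image (univ : Finset (Fin n)) (fun i => |r i|)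
    univ_nonempty
  have hq0 : 0 < |r i0| := abs_pos.2 (hr i0).1
  have hq1 : |r i0| < 1 := (hr i0).2
  obtain ⟨c, hc⟩ : ∃ c, c = -Real.log |r i0| := ⟨_, rfl⟩
  have hc0 : 0 < c := by
    rw [hc]
    have := Real.log_neg hq0 hq1
    linarith
  obtain ⟨e, he⟩ : ∃ e, e = min ε (s / 2) := ⟨_, rfl⟩
  have he0 : 0 < e := by
    rw [he]
    exact lt_min hε (by linarith)
  have heε : e ≤ ε := he ▸ min_le_left _ _
  have hes : e ≤ s / 2 := he ▸ min_le_right _ _
  obtain ⟨N, hN1, hN⟩ := G3.choose_N n (e * c) (by positivity)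
  obtain ⟨P, A, hP, hA, hcard⟩ := G3.popular n N r s hr hs
  have hP0 : 0 < |P| := abs_pos.2 hP
  have hAne : A.Nonempty := by
    rw [nonempty_iff_ne_empty]
    rintro rfl
    rw [card_empty, Nat.cast_zero, zero_mul, mul_zero] at hcard
    linarith
  have hM0 : (0 : ℝ) < A.card := by exact_mod_cast hAne.card_pos
  obtain ⟨x, hx⟩ : ∃ x, x = -Real.log |P| := ⟨_, rfl⟩
  have hN' : (1 : ℝ) ≤ N := by exact_mod_cast hN1
  have hxc : N * c ≤ x := by
    obtain ⟨w, hw⟩ := hAne
    have h1 : |P| ≤ |r i0| ^ N := by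
      rw [← hA w hw, Finset.abs_prod]
      calc ∏ i, |r (w i)| ≤ ∏ _i : Fin N, |r i0| :=
            Finset.prod_le_prod (fun _ _ => abs_nonneg _) (fun i _ => hi0 (w i) (mem_univ _))
        _ = |r i0| ^ N := by rw [Finset.prod_const, card_univ, Fintype.card_fin]
    have h2 := Real.log_le_log hP0 h1
    rw [Real.log_pow] at h2
    rw [hx, hc]
    linarith
  have hx0 : 0 < x := by nlinarith
  have hlog : s * x - n * Real.log (N + 1) ≤ Real.log A.card := by
    have h1 := Real.log_le_log one_pos hcard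
    rw [Real.log_one, Real.log_mul (by positivity) (by positivity), Real.log_pow,
      Real.log_mul (by positivity) (by positivity), Real.log_rpow hP0] at h1
    rw [hx]
    linarith
  have hlog2 : (s - e) * x ≤ Real.log A.card := by
    have h1 : e * c * N ≤ e * x := by
      have := mul_le_mul_of_nonneg_left hxc he0.le
      linarith
    linarith
  have hM2 : 2 ≤ A.card := by
    have h1 : 0 < Real.log A.card := lt_of_lt_of_le (by
      apply mul_pos _ hx0
      linarith) hlog2
    by_contra h2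
    push Not at h2
    have h3 : A.card = 1 := by
      have := hAne.card_pos
      omega
    rw [h3, Nat.cast_one, Real.log_one] at h1
    exact lt_irrefl _ h1
  have hP1 : |P| < 1 := by
    by_contra h
    push Not at h
    have := Real.log_nonneg h
    linarith
  have hPP : 0 < P * P := mul_self_pos.2 hP
  have hPa : P * P = |P| * |P| := (abs_mul_abs_self P).symm
  refine ⟨N + N, P * P, (A ×ˢ A).image (fun p => Fin.append p.1 p.2), by omega, hPP, ?_, ?_, ?_, ?_⟩
  · rw [hPa]
    nlinarith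
  · rw [card_image_of_injective, card_product]
    · nlinarith
    · intro p q hpq
      have hpq' : Fin.append p.1 p.2 = Fin.append q.1 q.2 := hpq
      refine Prod.ext (funext fun i => ?_) (funext fun i => ?_)
      · have := congrFun hpq' (Fin.castAdd N i)
        rwa [Fin.append_left, Fin.append_left] at this
      · have := congrFun hpq' (Fin.natAdd N i)
        rwa [Fin.append_right, Fin.append_right] at this
  · intro w hw
    rw [mem_image] at hw
    obtain ⟨p, hp, rfl⟩ := hw
    rw [mem_product] at hp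
    rw [Fin.prod_univ_add]
    have h1 : ∏ i : Fin N, r (Fin.append p.1 p.2 (Fin.castAdd N i)) = P := by
      rw [← hA p.1 hp.1]
      exact Finset.prod_congr rfl fun i _ => by rw [Fin.append_left]
    have h2 : ∏ i : Fin N, r (Fin.append p.1 p.2 (Fin.natAdd N i)) = P := by
      rw [← hA p.2 hp.2]
      exact Finset.prod_congr rfl fun i _ => by rw [Fin.append_right]
    rw [h1, h2]
  · have h1 : ((A ×ˢ A).image (fun p => Fin.append p.1 p.2)).card = A.card * A.card := by
      rw [card_image_of_injective, card_product]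
      intro p q hpq
      have hpq' : Fin.append p.1 p.2 = Fin.append q.1 q.2 := hpq
      refine Prod.ext (funext fun i => ?_) (funext fun i => ?_)
      · have := congrFun hpq' (Fin.castAdd N i)
        rwa [Fin.append_left, Fin.append_left] at this
      · have := congrFun hpq' (Fin.natAdd N i)
        rwa [Fin.append_right, Fin.append_right] at this
    rw [h1, Nat.cast_mul, Real.log_mul hM0.ne' hM0.ne', one_div, Real.log_inv, hPa,
      Real.log_mul hP0.ne' hP0.ne', le_div_iff₀ (by linarith)]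
    have h2 : (s - ε) * x ≤ (s - e) * x := mul_le_mul_of_nonneg_right (by linarith) hx0.le
    have h3 : -(Real.log |P| + Real.log |P|) = 2 * x := by rw [hx]; ring
    rw [h3]
    linarith

end H517.EO
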