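import Pool.Agent.H517R2.EO.Basic

/-! TEAM EO, task W1 (helper930): Liouville inequality with the Mahler measure. -/

set_option autoImplicit false

open Finset Filter MeasureTheory

namespace H517.EO

namespace W1

open Polynomial

theorem aeval_eq (P : ℤ[X]) (z : ℂ) :
    aeval z P = (P.map (Int.castRingHom ℂ)).eval z := by
  rw [aeval_def, eval_map]
  rfl

theorem natDegree_mapC (P : ℤ[X]) : (P.map (Int.castRingHom ℂ)).natDegree = P.natDegree :=
  natDegree_map_eq_of_injective (RingHom.injective_int _) P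

/-- an irreducible factor vanishing at `z` -/
theorem exists_factor (P : ℤ[X]) (z : ℂ) (hP : P ≠ 0) (hz : aeval z P = 0) :
    ∃ f : ℤ[X], Irreducible f ∧ f ∣ P ∧ aeval z f = 0 ∧ f.natDegree ≠ 0 := by
  obtain ⟨m, hm1, u, hu⟩ := UniqueFactorizationMonoid.exists_prime_factors P hP
  have h1 : aeval z m.prod = 0 := by
    have h2 : aeval z m.prod * aeval z (u : ℤ[X]) = 0 := by
      rw [← map_mul, hu, hz]
    rcases mul_eq_zero.1 h2 with h | h
    · exact h
    · exact absurd h ((u.isUnit.map (aeval z)).ne_zero)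
  rw [map_multiset_prod, Multiset.prod_eq_zero_iff, Multiset.mem_map] at h1
  obtain ⟨f, hf, hfz⟩ := h1
  have hirr : Irreducible f := (hm1 f hf).irreducible
  refine ⟨f, hirr, ?_, hfz, ?_⟩
  · exact (Multiset.dvd_prod hf).trans ⟨u, hu.symm⟩
  · intro h0
    have h2 := eq_C_of_natDegree_eq_zero h0
    rw [h2, aeval_C] at hfz
    have h3 : f.coeff 0 = 0 := by
      have : ((f.coeff 0 : ℤ) : ℂ) = 0 := hfz
      exact_mod_cast this
    rw [h3, C_0] at h2
    exact hirr.ne_zero h2

/-- the resultant is a nonzero integer -/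
theorem res_ne (f D : ℤ[X]) (z : ℂ) (hf : Irreducible f) (hd : f.natDegree ≠ 0)
    (hfz : aeval z f = 0) (hD : aeval z D ≠ 0) : resultant f D ≠ 0 := by
  have hprim := hf.isPrimitive hd
  have hQ : Irreducible (f.map (Int.castRingHom ℚ)) :=
    (IsPrimitive.Int.irreducible_iff_irreducible_map_cast hprim).1 hf
  have hnd : ¬ (f.map (Int.castRingHom ℚ)) ∣ (D.map (Int.castRingHom ℚ)) := by
    rintro ⟨q, hq⟩
    apply hD
    have h1 : aeval z D = aeval z (D.map (Int.castRingHom ℚ)) := by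
      rw [aeval_def, aeval_def, eval₂_map]
      congr 1
    have h2 : aeval z f = aeval z (f.map (Int.castRingHom ℚ)) := by
      rw [aeval_def, aeval_def, eval₂_map]
      congr 1
    rw [h1, hq, map_mul, ← h2, hfz, zero_mul]
  have hcop : IsCoprime (f.map (Int.castRingHom ℚ)) (D.map (Int.castRingHom ℚ)) :=
    (Irreducible.coprime_iff_not_dvd hQ).2 hnd
  have h3 := resultant_ne_zero _ _ hcop
  rw [natDegree_map_eq_of_injective (RingHom.injective_int _),
    natDegree_map_eq_of_injective (RingHom.injective_int _), resultant_map_map] at h3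
  intro h4
  rw [h4, map_zero] at h3
  exact h3 rfl

theorem L1_nonneg (D : ℤ[X]) : 0 ≤ L1 D := Finset.sum_nonneg fun _ _ => abs_nonneg _

theorem one_le_L1 (D : ℤ[X]) (hD : D ≠ 0) : 1 ≤ L1 D := by
  unfold L1
  have h1 : (1 : ℝ) ≤ |((D.coeff D.natDegree : ℤ) : ℝ)| := by
    have h2 : D.coeff D.natDegree ≠ 0 := by
      rw [coeff_natDegree]
      exact leadingCoeff_ne_zero.2 hD
    have h3 := Int.one_le_abs h2
    exact_mod_cast h3
  refine h1.trans ?_
  exact Finset.single_le_sum (f := fun i => |((D.coeff i : ℤ) : ℝ)|) (fun i _ => abs_nonneg _)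
    (Finset.mem_range.2 (Nat.lt_succ_self _))

theorem eval_le (D : ℤ[X]) (x : ℂ) :
    ‖(D.map (Int.castRingHom ℂ)).eval x‖ ≤ L1 D * (max 1 ‖x‖) ^ D.natDegree := by
  rw [eval_eq_sum_range, natDegree_mapC]
  unfold L1
  rw [Finset.sum_mul]
  refine (norm_sum_le _ _).trans (Finset.sum_le_sum fun i hi => ?_)
  rw [Finset.mem_range] at hi
  rw [coeff_map, norm_mul, norm_pow, eq_intCast, Complex.norm_intCast]
  apply mul_le_mul_of_nonneg_left _ (abs_nonneg _)
  calc ‖x‖ ^ i ≤ (max 1 ‖x‖) ^ i := pow_le_pow_left₀ (norm_nonneg _) (le_max_right _ _) i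
    _ ≤ (max 1 ‖x‖) ^ D.natDegree := pow_le_pow_right₀ (le_max_left _ _) (by omega)

theorem prod_le (D : ℤ[X]) (s : Multiset ℂ) :
    (s.map fun x => ‖(D.map (Int.castRingHom ℂ)).eval x‖).prod ≤
      L1 D ^ s.card * ((s.map fun x => max 1 ‖x‖).prod) ^ D.natDegree := by
  induction s using Multiset.induction_on with
  | empty => simp
  | cons a s ih =>
    rw [Multiset.map_cons, Multiset.prod_cons, Multiset.map_cons, Multiset.prod_cons,
      Multiset.card_cons, mul_pow, pow_succ]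
    have h1 := eval_le D a
    have h0 : 0 ≤ (s.map fun x => ‖(D.map (Int.castRingHom ℂ)).eval x‖).prod := by
      apply Multiset.prod_nonneg
      intro y hy
      rw [Multiset.mem_map] at hy
      obtain ⟨x, _, rfl⟩ := hy
      exact norm_nonneg _
    have h2 : 0 ≤ L1 D * (max 1 ‖a‖) ^ D.natDegree :=
      mul_nonneg (L1_nonneg D) (by positivity)
    calc _ ≤ (L1 D * (max 1 ‖a‖) ^ D.natDegree) *
          (L1 D ^ s.card * ((s.map fun x => max 1 ‖x‖).prod) ^ D.natDegree) :=
          mul_le_mul h1 ih h0 h2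
      _ = _ := by ring

theorem one_le_prod (s : Multiset ℂ) : 1 ≤ (s.map fun x => max 1 ‖x‖).prod := by
  induction s using Multiset.induction_on with
  | empty => simp
  | cons a s ih =>
    rw [Multiset.map_cons, Multiset.prod_cons]
    have h1 : 1 ≤ max 1 ‖a‖ := le_max_left _ _
    nlinarith

theorem norm_prod (s : Multiset ℂ) (g : ℂ → ℂ) :
    ‖(s.map g).prod‖ = (s.map fun x => ‖g x‖).prod := by
  induction s using Multiset.induction_on with
  | empty => simp
  | cons a s ih =>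
    rw [Multiset.map_cons, Multiset.prod_cons, Multiset.map_cons, Multiset.prod_cons, norm_mul, ih]

theorem mahler_le (P : ℤ[X]) : (P.map (Int.castRingHom ℂ)).mahlerMeasure ≤ L1 P := by
  refine (mahlerMeasure_le_sum_norm_coeff _).trans (le_of_eq ?_)
  rw [sum_over_range _ (fun _ => norm_zero), natDegree_mapC]
  unfold L1
  refine Finset.sum_congr rfl fun i _ => ?_
  rw [coeff_map, eq_intCast, Complex.norm_intCast]

theorem mahler_dvd (f P : ℤ[X]) (hP : P ≠ 0) (h : f ∣ P) :
    (f.map (Int.castRingHom ℂ)).mahlerMeasure ≤ (P.map (Int.castRingHom ℂ)).mahlerMeasure := by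
  obtain ⟨Q, rfl⟩ := h
  have hQ : Q ≠ 0 := right_ne_zero_of_mul hP
  rw [Polynomial.map_mul, mahlerMeasure_mul]
  have h1 : 1 ≤ (Q.map (Int.castRingHom ℂ)).mahlerMeasure := by
    refine le_trans ?_ (leadingCoeff_le_mahlerMeasure _)
    rw [leadingCoeff_map_of_injective (RingHom.injective_int _), eq_intCast, Complex.norm_intCast]
    have h3 := Int.one_le_abs (leadingCoeff_ne_zero.2 hQ)
    exact_mod_cast h3
  have h2 : 0 ≤ (f.map (Int.castRingHom ℂ)).mahlerMeasure := mahlerMeasure_nonneg _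
  nlinarith

end W1

open Polynomial in
theorem t_W_liou : W_liou := by
  intro P D z hP hz hDz
  obtain ⟨f, hf, hfP, hfz, hfd⟩ := W1.exists_factor P z hP hz
  have hf0 : f ≠ 0 := hf.ne_zero
  have hD0 : D ≠ 0 := by
    rintro rfl
    exact hDz (map_zero _)
  have hres := W1.res_ne f D z hf hfd hfz hDz
  obtain ⟨fc, hfc⟩ : ∃ fc, fc = f.map (Int.castRingHom ℂ) := ⟨_, rfl⟩
  obtain ⟨Dc, hDc⟩ : ∃ Dc, Dc = D.map (Int.castRingHom ℂ) := ⟨_, rfl⟩
  have h1 : (1 : ℝ) ≤ ‖resultant fc Dc f.natDegree D.natDegree‖ := by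
    rw [hfc, hDc, resultant_map_map, eq_intCast, Complex.norm_intCast]
    have h3 := Int.one_le_abs hres
    exact_mod_cast h3
  have hfcd : fc.natDegree = f.natDegree := by rw [hfc, W1.natDegree_mapC]
  have hDcd : Dc.natDegree = D.natDegree := by rw [hDc, W1.natDegree_mapC]
  have hsplit : fc.Splits := IsAlgClosed.splits fc
  have h2 := resultant_eq_prod_eval fc Dc D.natDegree hDcd.le hsplit
  rw [hfcd] at h2
  have hfc0 : fc ≠ 0 := by
    rw [hfc]
    intro h
    apply hf0
    exact Polynomial.map_injective _ (RingHom.injective_int _) (by rw [h, Polynomial.map_zero])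
  have hzr : z ∈ fc.roots := by
    rw [mem_roots hfc0, IsRoot.def, hfc, ← W1.aeval_eq, hfz]
  obtain ⟨s, hs⟩ := Multiset.exists_cons_of_mem hzr
  have hcard : s.card + 1 = f.natDegree := by
    have h3 := hsplit.natDegree_eq_card_roots
    rw [hs, Multiset.card_cons, hfcd] at h3
    exact h3.symm
  have hM := mahlerMeasure_eq_leadingCoeff_mul_prod_roots fc
  rw [hs, Multiset.map_cons, Multiset.prod_cons] at hM
  rw [h2, norm_mul, norm_pow, hs, Multiset.map_cons, Multiset.prod_cons, norm_mul,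
    W1.norm_prod] at h1
  have h3 := W1.prod_le D s
  rw [← hDc] at h3
  have hL0 := W1.L1_nonneg D
  have hL1 := W1.one_le_L1 D hD0
  obtain ⟨Q, hQ⟩ : ∃ Q, Q = (s.map fun x => max 1 ‖x‖).prod := ⟨_, rfl⟩
  rw [← hQ] at h3 hM
  have hQ1 : 1 ≤ Q := hQ ▸ W1.one_le_prod s
  have hMf : ‖fc.leadingCoeff‖ * Q ≤ L1 P := by
    have h4 : ‖fc.leadingCoeff‖ * Q ≤ fc.mahlerMeasure := by
      rw [hM]
      have h5 : 1 ≤ max 1 ‖z‖ := le_max_left _ _
      have h6 : Q ≤ max 1 ‖z‖ * Q := by nlinarith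
      exact mul_le_mul_of_nonneg_left h6 (norm_nonneg _)
    calc ‖fc.leadingCoeff‖ * Q ≤ fc.mahlerMeasure := h4
      _ ≤ (P.map (Int.castRingHom ℂ)).mahlerMeasure := by
          rw [hfc]
          exact W1.mahler_dvd f P hP hfP
      _ ≤ L1 P := W1.mahler_le P
  have hdeg : s.card ≤ P.natDegree := by
    have := natDegree_le_of_dvd hfP hP
    omega
  have hDz' : aeval z D = Dc.eval z := by rw [hDc, W1.aeval_eq]
  rw [hDz']
  calc (1 : ℝ) ≤ ‖fc.leadingCoeff‖ ^ D.natDegree * (‖Dc.eval z‖ *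
        (s.map fun x => ‖Dc.eval x‖).prod) := h1
    _ ≤ ‖fc.leadingCoeff‖ ^ D.natDegree * (‖Dc.eval z‖ * (L1 D ^ s.card * Q ^ D.natDegree)) := by
        apply mul_le_mul_of_nonneg_left _ (by positivity)
        exact mul_le_mul_of_nonneg_left h3 (norm_nonneg _)
    _ = ‖Dc.eval z‖ * L1 D ^ s.card * (‖fc.leadingCoeff‖ * Q) ^ D.natDegree := by ring
    _ ≤ ‖Dc.eval z‖ * L1 D ^ P.natDegree * L1 P ^ D.natDegree := by
        apply mul_le_mul
        · exact mul_le_mul_of_nonneg_left (pow_le_pow_right₀ hL1 hdeg) (norm_nonneg _)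
        · exact pow_le_pow_left₀ (by positivity) hMf _
        · positivity
        · positivity

end H517.EO
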