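import Pool.Agent.H517R2.EO.Basic

/-! TEAM EO, task W3 (helper930): the abstract window lemma. -/

set_option autoImplicit false

open Finset Filter MeasureTheory

namespace H517.EO

namespace W3

/-- a nonzero minor of a family of independent rows -/
theorem exists_minor {I : Type} [Fintype I] {r : ℕ} (W : Fin r → I → ℂ)
    (h : LinearIndependent ℂ W) :
    ∃ g : Fin r → I, (Matrix.of (fun i j => W i (g j))).det ≠ 0 := by
  classical
  obtain ⟨M, hM⟩ : ∃ M : Matrix (Fin r) I ℂ, M = Matrix.of W := ⟨_, rfl⟩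
  have hrow : M.row = W := by rw [hM]; rfl
  have hrank : M.rank = r := by
    have h1 : LinearIndependent ℂ M.row := by rw [hrow]; exact h
    rw [h1.rank_matrix, Fintype.card_fin]
  rw [M.rank_eq_finrank_span_cols] at hrank
  obtain ⟨κ', a, ha, hspan, hli⟩ := exists_linearIndependent' ℂ M.col
  have hfin : Finite κ' := hli.finite
  have : Fintype κ' := Fintype.ofFinite κ'
  have hcard : Fintype.card κ' = r := by
    rw [linearIndependent_iff_card_eq_finrank_span.1 hli, Set.finrank, hspan, hrank]
  obtain ⟨e⟩ : Nonempty (Fin r ≃ κ') := by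
    rw [← Fintype.card_eq, Fintype.card_fin, hcard]
  refine ⟨fun j => a (e j), ?_⟩
  have h2 : (Matrix.of (fun i j => W i (a (e j)))).col = (M.col ∘ a) ∘ e := by
    funext j i
    rw [hM]
    rfl
  have h3 : LinearIndependent ℂ (Matrix.of (fun i j => W i (a (e j)))).col := by
    rw [h2]
    exact hli.comp _ e.injective
  have h4 := Matrix.linearIndependent_cols_iff_isUnit.1 h3
  exact ((Matrix.isUnit_iff_isUnit_det _).1 h4).ne_zero

/-- size of a determinant -/
theorem norm_det_le {r : ℕ} (N : Matrix (Fin r) (Fin r) ℂ) (B : ℝ) (hN : ∀ i j, ‖N i j‖ ≤ B) :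
    ‖N.det‖ ≤ r.factorial * B ^ r := by
  have h := Matrix.det_le (A := N) (abv := NormedField.toAbsoluteValue ℂ) (x := B) hN
  rw [Fintype.card_fin, nsmul_eq_mul] at h
  exact h

end W3

theorem t_W_lemma : W_lemma := by
  intro I _ _ z B κ0 hB hκ0 hκ1 w hwB hmin hpos hanti
  classical
  -- a relation
  have hdep : ¬ LinearIndependent ℂ w := by
    intro h
    have h1 := h.fintype_card_le_finrank
    rw [Fintype.card_fin, Module.finrank_fintype_fun_eq_card] at h1
    omega
  obtain ⟨c, hc, j0, hj0⟩ := Fintype.not_linearIndependent_iff.1 hdep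
  obtain ⟨i, hi, hilt⟩ : ∃ i, c i ≠ 0 ∧ ∀ j, j < i → c j = 0 := by
    have hne : (Finset.univ.filter fun j => c j ≠ 0).Nonempty :=
      ⟨j0, by rw [mem_filter]; exact ⟨mem_univ _, hj0⟩⟩
    refine ⟨(Finset.univ.filter fun j => c j ≠ 0).min' hne, ?_, ?_⟩
    · exact (mem_filter.1 (Finset.min'_mem _ hne)).2
    · intro j hj
      by_contra hcj
      have hmem : j ∈ Finset.univ.filter fun j => c j ≠ 0 := by
        rw [mem_filter]
        exact ⟨mem_univ _, hcj⟩
      have := Finset.min'_le _ j hmem
      exact absurd hj (not_lt.2 this)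
  have hspan : w i ∈ Submodule.span ℂ (Set.range (fun j : {j // i < j} => w j.1)) := by
    have h1 : c i • w i = - ∑ j ∈ Finset.univ.erase i, c j • w j := by
      rw [eq_neg_iff_add_eq_zero, Finset.add_sum_erase Finset.univ (fun j => c j • w j)
        (mem_univ i)]
      exact hc
    have h2 : c i • w i ∈ Submodule.span ℂ (Set.range (fun j : {j // i < j} => w j.1)) := by
      rw [h1]
      apply Submodule.neg_mem
      apply Submodule.sum_mem
      intro j hj
      rcases lt_trichotomy j i with h | h | h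
      · rw [hilt j h, zero_smul]
        exact Submodule.zero_mem _
      · exact absurd h (Finset.ne_of_mem_erase hj)
      · exact Submodule.smul_mem _ _ (Submodule.subset_span ⟨⟨j, h⟩, rfl⟩)
    exact (Submodule.smul_mem_iff _ hi).1 h2
  obtain ⟨κ', a, ha, hsp, hli⟩ := exists_linearIndependent' ℂ
    (fun j : {j // i < j} => w j.1)
  rw [← hsp] at hspan
  have hfin : Finite κ' := hli.finite
  have : Fintype κ' := Fintype.ofFinite κ'
  obtain ⟨r, hr⟩ : ∃ r, r = Fintype.card κ' := ⟨_, rfl⟩
  have hrN : r ≤ Fintype.card I := by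
    have h1 := hli.fintype_card_le_finrank
    rw [Module.finrank_fintype_fun_eq_card] at h1
    omega
  obtain ⟨e⟩ : Nonempty (Fin r ≃ κ') := by
    rw [← Fintype.card_eq, Fintype.card_fin, hr]
  obtain ⟨f, hf⟩ : ∃ f : Fin r → Fin (Fintype.card I + 1), ∀ k, f k = (a (e k)).1 :=
    ⟨_, fun _ => rfl⟩
  have hfi : ∀ k, i < f k := fun k => by
    rw [hf]
    exact (a (e k)).2
  have hlif : LinearIndependent ℂ (fun k => w (f k)) := by
    have h1 : (fun k => w (f k)) = ((fun j : {j // i < j} => w j.1) ∘ a) ∘ e := by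
      funext k
      rw [hf]
      rfl
    rw [h1]
    exact hli.comp _ e.injective
  obtain ⟨d, hd⟩ : ∃ d : Fin r → ℂ, ∑ k, d k • w (f k) = w i := by
    have h1 : Set.range ((fun j : {j // i < j} => w j.1) ∘ a) = Set.range (fun k => w (f k)) := by
      have h2 : (fun k => w (f k)) = ((fun j : {j // i < j} => w j.1) ∘ a) ∘ e := by
        funext k
        rw [hf]
        rfl
      rw [h2, EquivLike.range_comp]
    rw [h1] at hspan
    exact (Submodule.mem_span_range_iff_exists_fun ℂ).1 hspan
  obtain ⟨g, hg⟩ := W3.exists_minor _ hlif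
  have hdet : κ0 ≤ ‖(Matrix.of (fun i j => w (f i) (g j))).det‖ := by
    rcases hmin r f g hrN with h | h
    · exact absurd h hg
    · exact h
  have hdpos : 0 < ‖(Matrix.of (fun i j => w (f i) (g j))).det‖ := lt_of_lt_of_le hκ0 hdet
  -- Cramer
  have hdk : ∀ k, ‖d k‖ ≤ r.factorial * B ^ r / κ0 := by
    intro k
    have h1 := Matrix.det_updateRow_sum (Matrix.of (fun i j => w (f i) (g j))) k d
    have h2 : (∑ l, d l • (Matrix.of (fun i j => w (f i) (g j))) l) = fun j => w i (g j) := by
      funext j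
      rw [← hd, Finset.sum_apply, Finset.sum_apply]
      rfl
    rw [h2] at h1
    have h3 : ‖((Matrix.of (fun i j => w (f i) (g j))).updateRow k fun j => w i (g j)).det‖ ≤
        r.factorial * B ^ r := by
      apply W3.norm_det_le
      intro p q
      by_cases hp : p = k
      · rw [hp, Matrix.updateRow_self]
        exact hwB _ _
      · rw [Matrix.updateRow_ne hp]
        exact hwB _ _
    rw [h1, smul_eq_mul, norm_mul] at h3
    rw [le_div_iff₀ hκ0]
    calc ‖d k‖ * κ0 ≤ ‖d k‖ * ‖(Matrix.of (fun i j => w (f i) (g j))).det‖ :=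
          mul_le_mul_of_nonneg_left hdet (norm_nonneg _)
      _ ≤ _ := h3
  -- `i` is not the last index
  have hr0 : 0 < r := by
    by_contra h
    have hr0 : r = 0 := by omega
    subst hr0
    have h1 : w i = 0 := by
      rw [← hd]
      simp
    have h2 := hpos i
    rw [h1] at h2
    simp at h2
  have hilast : i ≠ Fin.last _ := by
    intro h
    have := hfi ⟨0, hr0⟩
    rw [h] at this
    exact absurd this (not_lt.2 (Fin.le_last _))
  obtain ⟨i', rfl⟩ : ∃ i' : Fin (Fintype.card I), i'.castSucc = i :=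
    ⟨i.castPred hilast, Fin.castSucc_castPred _ _⟩
  refine ⟨i', ?_⟩
  have hexp : ∑ a, w i'.castSucc a * z a = ∑ k, d k * ∑ a, w (f k) a * z a := by
    rw [← hd]
    simp_rw [Finset.sum_apply, Pi.smul_apply, smul_eq_mul, Finset.sum_mul, Finset.mul_sum]
    rw [Finset.sum_comm]
    refine Finset.sum_congr rfl fun k _ => Finset.sum_congr rfl fun x _ => ?_
    ring
  have hB1 : 1 ≤ B ^ (Fintype.card I) := one_le_pow₀ hB
  have hC0 : 0 ≤ (r.factorial : ℝ) * B ^ r / κ0 := by positivity
  have hrB : (r.factorial : ℝ) * B ^ r ≤ (Fintype.card I).factorial * B ^ (Fintype.card I) := by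
    have h1 : (r.factorial : ℝ) ≤ (Fintype.card I).factorial := by
      exact_mod_cast Nat.factorial_le hrN
    have h2 : B ^ r ≤ B ^ (Fintype.card I) := pow_le_pow_right₀ hB hrN
    exact mul_le_mul h1 h2 (by positivity) (by positivity)
  calc ‖∑ a, w i'.castSucc a * z a‖ = ‖∑ k, d k * ∑ a, w (f k) a * z a‖ := by rw [hexp]
    _ ≤ ∑ k, ‖d k * ∑ a, w (f k) a * z a‖ := norm_sum_le _ _
    _ ≤ ∑ k : Fin r, (r.factorial * B ^ r / κ0) * ‖∑ a, w i'.succ a * z a‖ := by
        apply Finset.sum_le_sum
        intro k _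
        rw [norm_mul]
        apply mul_le_mul (hdk k) _ (norm_nonneg _) hC0
        apply hanti
        have := hfi k
        rw [Fin.lt_def, Fin.val_castSucc] at this
        rw [Fin.le_def, Fin.val_succ]
        omega
    _ = (r * (r.factorial * B ^ r) / κ0) * ‖∑ a, w i'.succ a * z a‖ := by
        rw [Finset.sum_const, card_univ, Fintype.card_fin, nsmul_eq_mul]
        ring
    _ ≤ _ := by
        apply mul_le_mul_of_nonneg_right _ (norm_nonneg _)
        apply div_le_div_of_nonneg_right _ hκ0.le
        rw [mul_assoc]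
        have h1 : (r : ℝ) ≤ Fintype.card I := by exact_mod_cast hrN
        exact mul_le_mul h1 hrB (by positivity) (by positivity)

end H517.EO
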