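import Pool.Agent.H517R2.EO.Final0
import Pool.Agent.H517R2.EO.T_A1
import Pool.Agent.H517R2.EO.T_G3
import Pool.Agent.H517R2.EO.T_W1
import Pool.Agent.H517R2.EO.T_W3

/-!
# TEAM EO : the exact overlaps conjecture
-/

set_option autoImplicit false

namespace H517.EO

theorem exact_overlaps : G_main := final0 t_A_ker t_A_span t_A_lim t_G_type t_W_liou t_W_lemma

theorem exact_overlaps2 : G_main2 := t_G_main2 exact_overlaps

end H517.EO
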