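import Pool.Agent.H517R2.EO.Basic

/-!
# TEAM EO, task A3 : an analytic limit has a nonvanishing derivative
-/

set_option autoImplicit false

open Finset Filter Topology

namespace H517.EO

namespace A3

theorem summable_poly_geom (m : ℕ) (r : ℝ) (h0 : 0 ≤ r) (h1 : r < 1) :
    Summable (fun i : ℕ => ((i : ℝ) + 1) ^ m * r ^ i) := by
  have h : ∀ i : ℕ, ((i : ℝ) + 1) ^ m * r ^ i =
      ∑ k ∈ range (m + 1), ((m.choose k : ℕ) : ℝ) * ((i : ℝ) ^ k * r ^ i) := by
    intro i
    rw [add_pow, Finset.sum_mul]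
    apply Finset.sum_congr rfl
    intro k _
    simp only [one_pow, mul_one]
    ring
  simp_rw [h]
  apply summable_sum
  intro k _
  apply Summable.mul_left
  apply summable_pow_mul_geometric_of_norm_lt_one
  rw [Real.norm_eq_abs, abs_of_nonneg h0]
  exact h1

/-- a power series with polynomially bounded coefficients which vanishes near a point of the
unit interval vanishes identically -/
theorem coeff_zero_of_eventually (c : ℕ → ℝ) (m : ℕ) (B : ℝ)
    (hc : ∀ i, |c i| ≤ B * ((i : ℝ) + 1) ^ m) (lam : ℝ) (h0 : 0 < lam) (h1 : lam < 1)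
    (hev : ∀ᶠ x in 𝓝 lam, ∑' i, c i * x ^ i = 0) : ∀ i, c i = 0 := by
  set p : FormalMultilinearSeries ℝ ℝ ℝ := FormalMultilinearSeries.ofScalars ℝ c with hp
  have hrad : (1 : ENNReal) ≤ p.radius := by
    apply ENNReal.le_of_forall_nnreal_lt
    intro r hr
    have hr1 : (r : ℝ) < 1 := by
      have : r < 1 := by exact_mod_cast hr
      exact_mod_cast this
    apply FormalMultilinearSeries.le_radius_of_summable_norm
    have hs := (summable_poly_geom m r r.2 hr1).mul_left B
    refine Summable.of_nonneg_of_le (fun i => by positivity) (fun i => ?_) hs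
    rw [hp, FormalMultilinearSeries.ofScalars_norm, Real.norm_eq_abs]
    calc |c i| * (r : ℝ) ^ i ≤ (B * ((i : ℝ) + 1) ^ m) * (r : ℝ) ^ i :=
          mul_le_mul_of_nonneg_right (hc i) (by positivity)
      _ = B * (((i : ℝ) + 1) ^ m * (r : ℝ) ^ i) := by ring
  have hrad0 : 0 < p.radius := lt_of_lt_of_le one_pos hrad
  have hball := p.hasFPowerSeriesOnBall hrad0
  have hball1 : HasFPowerSeriesOnBall p.sum p 0 1 := hball.mono one_pos hrad
  have hsum : ∀ x : ℝ, p.sum x = ∑' i, c i * x ^ i := by
    intro x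
    have := FormalMultilinearSeries.ofScalars_sum_eq (E := ℝ) c x
    simp only [FormalMultilinearSeries.ofScalarsSum, smul_eq_mul] at this
    exact this
  have hanal : AnalyticOnNhd ℝ p.sum (Metric.eball (0 : ℝ) 1) := hball1.analyticOnNhd
  have hzero : Set.EqOn p.sum 0 (Metric.eball (0 : ℝ) 1) := by
    apply hanal.eqOn_zero_of_preconnected_of_eventuallyEq_zero (z₀ := lam)
    · have : Metric.eball (0 : ℝ) 1 = Metric.ball (0 : ℝ) 1 := by
        rw [← ENNReal.ofReal_one, Metric.eball_ofReal]
      rw [this]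
      exact (convex_ball (0 : ℝ) 1).isPreconnected
    · simp only [Metric.mem_eball, edist_zero_right]
      rw [← ofReal_norm, Real.norm_eq_abs, abs_of_pos h0, ← ENNReal.ofReal_one]
      exact (ENNReal.ofReal_lt_ofReal_iff one_pos).2 h1
    · filter_upwards [hev] with x hx
      rw [hsum x, hx]
      rfl
  have hat : HasFPowerSeriesAt p.sum p 0 := hball1.hasFPowerSeriesAt
  have hat0 : HasFPowerSeriesAt 0 p 0 := by
    refine hat.congr ?_
    have : Metric.eball (0 : ℝ) 1 ∈ 𝓝 (0 : ℝ) := Metric.eball_mem_nhds 0 one_pos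
    filter_upwards [this] with x hx
    exact hzero hx
  have hp0 : p = 0 := hat0.eq_zero
  rw [hp, FormalMultilinearSeries.ofScalars_series_eq_zero] at hp0
  intro i
  rw [hp0]
  rfl

/-- the `e`-th Hasse derivative of the power series at `lam` -/
noncomputable def LL (c : ℕ → ℝ) (lam : ℝ) (e : ℕ) : ℝ :=
  ∑' n : ℕ, (((n + e).choose e : ℕ) : ℝ) * c (n + e) * lam ^ n

/-- Taylor expansion -/
theorem taylor (c : ℕ → ℝ) (m : ℕ) (B : ℝ)
    (hc : ∀ i, |c i| ≤ B * ((i : ℝ) + 1) ^ m) (lam : ℝ) (h0 : 0 < lam) (y : ℝ)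
    (hy : lam + |y| < 1) :
    ∑' i, c i * (lam + y) ^ i = ∑' e, y ^ e * LL c lam e := by
  set g : ℕ → ℕ → ℝ := fun i e => c i * ((i.choose e : ℕ) : ℝ) * lam ^ (i - e) * y ^ e with hg
  have hfin : ∀ i e, e ∉ range (i + 1) → g i e = 0 := by
    intro i e he
    have : i < e := by
      by_contra h
      exact he (Finset.mem_range.2 (by omega))
    simp [hg, Nat.choose_eq_zero_of_lt this]
  have hrow : ∀ i, ∑' e, g i e = c i * (lam + y) ^ i := by
    intro i
    rw [tsum_eq_sum (hfin i), add_comm lam y, add_pow, Finset.mul_sum]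
    apply Finset.sum_congr rfl
    intro e _
    simp only [hg]
    ring
  have hrown : ∀ i, ∑' e, ‖g i e‖ = |c i| * (lam + |y|) ^ i := by
    intro i
    rw [tsum_eq_sum (s := range (i + 1)) (fun e he => by rw [hfin i e he, norm_zero]),
      add_comm lam |y|, add_pow, Finset.mul_sum]
    apply Finset.sum_congr rfl
    intro e _
    simp only [hg, norm_mul, Real.norm_eq_abs, abs_pow, abs_of_pos h0, Nat.abs_cast]
    ring
  have hsum : Summable (Function.uncurry g) := by
    rw [← summable_norm_iff]
    rw [summable_prod_of_nonneg (fun x => norm_nonneg _)]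
    constructor
    · intro i
      apply summable_of_ne_finset_zero (s := range (i + 1))
      intro e he
      simp [Function.uncurry, hfin i e he]
    · have : ∀ i, ∑' e, ‖Function.uncurry g (i, e)‖ = |c i| * (lam + |y|) ^ i := hrown
      simp_rw [this]
      have hs := (summable_poly_geom m (lam + |y|) (by positivity) hy).mul_left B
      refine Summable.of_nonneg_of_le (fun i => by positivity) (fun i => ?_) hs
      calc |c i| * (lam + |y|) ^ i ≤ (B * ((i : ℝ) + 1) ^ m) * (lam + |y|) ^ i :=
            mul_le_mul_of_nonneg_right (hc i) (by positivity)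
        _ = B * (((i : ℝ) + 1) ^ m * (lam + |y|) ^ i) := by ring
  have hcol : ∀ e, ∑' i, g i e = y ^ e * LL c lam e := by
    intro e
    have hs : Summable (fun i => g i e) := by
      have := hsum.prod_symm.prod_factor e
      exact this
    rw [LL, ← tsum_mul_left]
    rw [← hs.sum_add_tsum_nat_add e]
    have hz : ∑ i ∈ range e, g i e = 0 := by
      apply Finset.sum_eq_zero
      intro i hi
      apply hfin
      simp only [Finset.mem_range] at hi ⊢
      omega
    rw [hz, zero_add]
    apply tsum_congr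
    intro n
    simp only [hg, Nat.add_sub_cancel]
    ring
  calc ∑' i, c i * (lam + y) ^ i = ∑' i, ∑' e, g i e := by simp_rw [hrow]
    _ = ∑' e, ∑' i, g i e := hsum.tsum_comm.symm
    _ = ∑' e, y ^ e * LL c lam e := by simp_rw [hcol]

/-- some Hasse derivative does not vanish -/
theorem exists_LL_ne (c : ℕ → ℝ) (m : ℕ) (B : ℝ)
    (hc : ∀ i, |c i| ≤ B * ((i : ℝ) + 1) ^ m) (lam : ℝ) (h0 : 0 < lam) (h1 : lam < 1)
    (hne : ∃ i, c i ≠ 0) : ∃ e, LL c lam e ≠ 0 := by
  by_contra hcon
  push Not at hcon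
  obtain ⟨i, hi⟩ := hne
  apply hi
  apply coeff_zero_of_eventually c m B hc lam h0 h1
  have hnb : Metric.ball lam (1 - lam) ∈ 𝓝 lam := Metric.ball_mem_nhds _ (by linarith)
  filter_upwards [hnb] with x hx
  rw [Metric.mem_ball, Real.dist_eq] at hx
  have := taylor c m B hc lam h0 (x - lam) (by linarith)
  rw [show lam + (x - lam) = x by ring] at this
  rw [this]
  simp [hcon]

/-- value of a polynomial as an infinite sum -/
theorem aeval_eq_tsum (Q : Polynomial ℤ) (x : ℝ) :
    Polynomial.aeval x Q = ∑' n : ℕ, ((Q.coeff n : ℤ) : ℝ) * x ^ n := by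
  rw [tsum_eq_sum (s := range (Q.natDegree + 1)), Polynomial.aeval_eq_sum_range]
  · apply Finset.sum_congr rfl
    intro i _
    simp [zsmul_eq_mul]
  · intro n hn
    have : Q.natDegree < n := by
      by_contra h
      exact hn (Finset.mem_range.2 (by omega))
    rw [Polynomial.coeff_eq_zero_of_natDegree_lt this]
    simp

end A3

open A3 in
theorem t_A_anal : A_anal := by
  intro lam h0 h1 m B U hU P c hB hev hne
  have hc : ∀ i, |((c i : ℤ) : ℝ)| ≤ B * ((i : ℝ) + 1) ^ m := by
    intro i
    obtain ⟨j, hj⟩ := (hev i).exists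
    rw [← hj]
    exact hB j i
  have hne' : ∃ i, ((c i : ℤ) : ℝ) ≠ 0 := by
    obtain ⟨i, hi⟩ := hne
    exact ⟨i, by exact_mod_cast hi⟩
  have hB0 : 0 ≤ B := by
    have := hc 0
    simp at this
    exact le_trans (abs_nonneg _) this
  obtain ⟨e, he⟩ := exists_LL_ne (fun i => ((c i : ℤ) : ℝ)) m B hc lam h0 h1 hne'
  set L := LL (fun i => ((c i : ℤ) : ℝ)) lam e with hL
  refine ⟨e, |L| / 2, by positivity, ?_⟩
  have htend : Tendsto (fun j => Polynomial.aeval lam (Polynomial.hasseDeriv e (P j))) U
      (𝓝 L) := by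
    have heq : (fun j => (Polynomial.aeval lam (Polynomial.hasseDeriv e (P j)) : ℝ)) =
        fun j => ∑' n : ℕ, (((n + e).choose e : ℕ) : ℝ) * (((P j).coeff (n + e) : ℤ) : ℝ) * lam ^ n := by
      funext j
      rw [aeval_eq_tsum]
      apply tsum_congr
      intro n
      rw [Polynomial.hasseDeriv_coeff]
      push_cast
      ring
    rw [heq, hL, LL]
    apply tendsto_tsum_of_dominated_convergence
      (bound := fun n : ℕ => (B * ((e : ℝ) + 1) ^ (m + e)) * (((n : ℝ) + 1) ^ (m + e) * lam ^ n))
    · exact (summable_poly_geom (m + e) lam h0.le h1).mul_left _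
    · intro n
      apply tendsto_nhds_of_eventually_eq
      filter_upwards [hev (n + e)] with j hj
      rw [hj]
    · filter_upwards with j n
      rw [norm_mul, norm_mul, Real.norm_eq_abs, Real.norm_eq_abs, Real.norm_eq_abs, abs_pow,
        abs_of_pos h0, Nat.abs_cast]
      have hch : (((n + e).choose e : ℕ) : ℝ) ≤ ((n : ℝ) + e + 1) ^ e := by
        calc (((n + e).choose e : ℕ) : ℝ) ≤ (((n + e) ^ e : ℕ) : ℝ) := by
              exact_mod_cast Nat.choose_le_pow (n + e) e
          _ = ((n : ℝ) + e) ^ e := by push_cast; ring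
          _ ≤ ((n : ℝ) + e + 1) ^ e := by
              apply pow_le_pow_left₀ (by positivity)
              linarith
      have hco : |(((P j).coeff (n + e) : ℤ) : ℝ)| ≤ B * ((n : ℝ) + e + 1) ^ m := by
        have := hB j (n + e)
        push_cast at this
        exact this
      have hle : (n : ℝ) + e + 1 ≤ ((e : ℝ) + 1) * ((n : ℝ) + 1) := by
        have : (0 : ℝ) ≤ (e : ℝ) * n := by positivity
        nlinarith
      calc (((n + e).choose e : ℕ) : ℝ) * |(((P j).coeff (n + e) : ℤ) : ℝ)| * lam ^ n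
          ≤ (((n : ℝ) + e + 1) ^ e * (B * ((n : ℝ) + e + 1) ^ m)) * lam ^ n := by
            apply mul_le_mul_of_nonneg_right _ (by positivity)
            exact mul_le_mul hch hco (abs_nonneg _) (by positivity)
        _ = B * ((n : ℝ) + e + 1) ^ (m + e) * lam ^ n := by rw [pow_add]; ring
        _ ≤ B * (((e : ℝ) + 1) * ((n : ℝ) + 1)) ^ (m + e) * lam ^ n := by
            apply mul_le_mul_of_nonneg_right _ (by positivity)
            apply mul_le_mul_of_nonneg_left _ hB0
            exact pow_le_pow_left₀ (by positivity) hle _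
        _ = (B * ((e : ℝ) + 1) ^ (m + e)) * (((n : ℝ) + 1) ^ (m + e) * lam ^ n) := by
            rw [mul_pow]; ring
  have habs : Tendsto (fun j => |(Polynomial.aeval lam (Polynomial.hasseDeriv e (P j)) : ℝ)|) U
      (𝓝 |L|) := htend.abs
  have hlt : |L| / 2 < |L| := by
    have : 0 < |L| := abs_pos.2 he
    linarith
  filter_upwards [habs.eventually (lt_mem_nhds hlt)] with j hj
  exact hj.le

end H517.EO
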