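import Pool.Agent.H517R2.EO.Basic

/-!
# `A_root`: a small value and a large derivative give a close root
-/

set_option autoImplicit false

open Polynomial

namespace H517.EO

theorem A4_coeff_le (d : ℝ) (hd : 0 ≤ d) (s : Multiset ℂ) (hs : ∀ w ∈ s, d ≤ ‖w‖) :
    ∀ e : ℕ, ‖((s.map (fun w => (X : ℂ[X]) + C w)).prod).coeff e‖ * d ^ e ≤
      (s.card.choose e : ℝ) * ‖((s.map (fun w => (X : ℂ[X]) + C w)).prod).coeff 0‖ := by
  induction s using Multiset.induction with
  | empty =>
    intro e
    rcases Nat.eq_zero_or_pos e with rfl | he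
    · simp
    · have : (1 : ℂ[X]).coeff e = 0 := by rw [coeff_one, if_neg (by omega)]
      simp [this]
  | cons w s ih =>
    intro e
    have hw : d ≤ ‖w‖ := hs w (Multiset.mem_cons_self w s)
    have ih' := ih (fun v hv => hs v (Multiset.mem_cons_of_mem hv))
    rw [Multiset.map_cons, Multiset.prod_cons, Multiset.card_cons]
    set T : ℂ[X] := (s.map (fun w => (X : ℂ[X]) + C w)).prod with hT
    have h0 : ((X + C w) * T).coeff 0 = w * T.coeff 0 := by
      rw [add_mul, coeff_add, coeff_C_mul, mul_coeff_zero, coeff_X_zero, zero_mul, zero_add]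
    rw [h0, norm_mul]
    rcases e with _ | e
    · rw [h0, norm_mul]; simp
    · have h1 : ((X + C w) * T).coeff (e + 1) = T.coeff e + w * T.coeff (e + 1) := by
        rw [add_mul, coeff_add, coeff_C_mul, coeff_X_mul]
      rw [h1, Nat.choose_succ_succ]
      push_cast
      have h2 : ‖T.coeff e + w * T.coeff (e + 1)‖ ≤ ‖T.coeff e‖ + ‖w‖ * ‖T.coeff (e + 1)‖ := by
        refine (norm_add_le _ _).trans ?_
        rw [norm_mul]
      have h3 := ih' e
      have h4 := ih' (e + 1)
      have h5 : 0 ≤ ‖w‖ := norm_nonneg w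
      have h6 : 0 ≤ d ^ (e + 1) := by positivity
      calc ‖T.coeff e + w * T.coeff (e + 1)‖ * d ^ (e + 1)
          ≤ (‖T.coeff e‖ + ‖w‖ * ‖T.coeff (e + 1)‖) * d ^ (e + 1) :=
            mul_le_mul_of_nonneg_right h2 h6
        _ = d * (‖T.coeff e‖ * d ^ e) + ‖w‖ * (‖T.coeff (e + 1)‖ * d ^ (e + 1)) := by ring
        _ ≤ ‖w‖ * (‖T.coeff e‖ * d ^ e) + ‖w‖ * (‖T.coeff (e + 1)‖ * d ^ (e + 1)) := by
            have : 0 ≤ ‖T.coeff e‖ * d ^ e := by positivity
            have := mul_le_mul_of_nonneg_right hw this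
            linarith
        _ ≤ ‖w‖ * ((s.card.choose e : ℝ) * ‖T.coeff 0‖) +
              ‖w‖ * ((s.card.choose (e + 1) : ℝ) * ‖T.coeff 0‖) := by
            have a1 := mul_le_mul_of_nonneg_left h3 h5
            have a2 := mul_le_mul_of_nonneg_left h4 h5
            linarith
        _ = ((s.card.choose e : ℝ) + (s.card.choose (e + 1) : ℝ)) * (‖w‖ * ‖T.coeff 0‖) := by ring

theorem t_A_root : A_root := by
  intro P lam δ η e hP he hδ hη h1 h2
  by_cases h0 : aeval lam P = 0
  · refine ⟨(lam : ℂ), ?_, ?_⟩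
    · have := Polynomial.aeval_algebraMap_apply ℂ lam P
      rw [h0, map_zero] at this
      exact this
    · rw [sub_self, norm_zero]
      positivity
  · set Q : ℂ[X] := P.map (Int.castRingHom ℂ) with hQ
    have hQ0 : Q ≠ 0 := by
      rw [hQ, Ne, Polynomial.map_eq_zero_iff (RingHom.injective_int (Int.castRingHom ℂ))]
      exact hP
    have hdeg : Q.natDegree = P.natDegree :=
      natDegree_map_eq_of_injective (RingHom.injective_int (Int.castRingHom ℂ)) P
    have hspl : Q.Splits := IsAlgClosed.splits Q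
    have hcard : Q.roots.card = P.natDegree := by rw [← hdeg, hspl.natDegree_eq_card_roots]
    have hev : ∀ R : ℤ[X], (R.map (Int.castRingHom ℂ)).eval (lam : ℂ) = ((aeval lam R : ℝ) : ℂ) := by
      intro R
      have h := Polynomial.aeval_algebraMap_apply ℂ lam R
      rw [Polynomial.aeval_def, ← Polynomial.eval_map] at h
      exact h
    have hprod := hspl.eq_prod_roots
    set T : ℂ[X] := ((Q.roots.map (fun z => (lam : ℂ) - z)).map (fun w => (X : ℂ[X]) + C w)).prod
      with hT
    have htay : taylor (lam : ℂ) Q = C Q.leadingCoeff * T := by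
      conv_lhs => rw [hprod]
      rw [taylor_mul, taylor_C]
      congr 1
      have : taylor (lam : ℂ) ((Q.roots.map (fun a => (X : ℂ[X]) - C a)).prod) =
          taylorAlgHom (lam : ℂ) ((Q.roots.map (fun a => (X : ℂ[X]) - C a)).prod) := rfl
      rw [this, map_multiset_prod, hT, Multiset.map_map, Multiset.map_map]
      congr 1
      refine Multiset.map_congr rfl fun z _ => ?_
      change taylor (lam : ℂ) (X - C z) = X + C ((lam : ℂ) - z)
      rw [map_sub, taylor_X, taylor_C, C_sub]
      ring
    have hce : ∀ i : ℕ, Q.leadingCoeff * T.coeff i = ((aeval lam (hasseDeriv i P) : ℝ) : ℂ) := by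
      intro i
      rw [← coeff_C_mul, ← htay, taylor_coeff, ← hev, hQ]
      congr 1
      ext n
      rw [coeff_map, hasseDeriv_coeff, hasseDeriv_coeff, coeff_map]
      simp
    have hc0 : Q.leadingCoeff * T.coeff 0 = ((aeval lam P : ℝ) : ℂ) := by
      rw [hce 0, hasseDeriv_zero']
    have hDpos : 0 < P.natDegree := by
      rcases Nat.eq_zero_or_pos P.natDegree with h | h
      · exfalso
        have : hasseDeriv e P = 0 := hasseDeriv_eq_zero_of_lt_natDegree P e (by omega)
        rw [this, map_zero, abs_zero] at h2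
        linarith
      · exact h
    have hne : Q.roots.toFinset.Nonempty := by
      rw [Finset.nonempty_iff_ne_empty, Ne, Multiset.toFinset_eq_empty]
      intro h
      rw [h, Multiset.card_zero] at hcard
      omega
    obtain ⟨z, hz, hmin⟩ := Finset.exists_min_image Q.roots.toFinset
      (fun z => ‖(lam : ℂ) - z‖) hne
    rw [Multiset.mem_toFinset, mem_roots hQ0, IsRoot.def] at hz
    refine ⟨z, ?_, ?_⟩
    · rw [aeval_def, ← eval_map]; exact hz
    · set d := ‖(lam : ℂ) - z‖ with hd
      have hall : ∀ w ∈ Q.roots.map (fun z => (lam : ℂ) - z), d ≤ ‖w‖ := by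
        intro w hw
        obtain ⟨z', hz', rfl⟩ := Multiset.mem_map.1 hw
        exact hmin z' (Multiset.mem_toFinset.2 hz')
      have key := A4_coeff_le d (norm_nonneg _) _ hall e
      rw [Multiset.card_map, hcard, ← hT] at key
      have key2 : |aeval lam (hasseDeriv e P)| * d ^ e ≤ (P.natDegree.choose e : ℝ) * |aeval lam P| := by
        have e1 : |aeval lam (hasseDeriv e P)| = ‖Q.leadingCoeff‖ * ‖T.coeff e‖ := by
          rw [← norm_mul, hce e, Complex.norm_real, Real.norm_eq_abs]
        have e2 : |aeval lam P| = ‖Q.leadingCoeff‖ * ‖T.coeff 0‖ := by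
          rw [← norm_mul, hc0, Complex.norm_real, Real.norm_eq_abs]
        rw [e1, e2]
        have := mul_le_mul_of_nonneg_left key (norm_nonneg Q.leadingCoeff)
        calc _ = ‖Q.leadingCoeff‖ * (‖T.coeff e‖ * d ^ e) := by ring
          _ ≤ _ := this
          _ = _ := by ring
      have key3 : δ * d ^ e ≤ (P.natDegree : ℝ) ^ e * η := by
        have hchoose : (P.natDegree.choose e : ℝ) ≤ (P.natDegree : ℝ) ^ e := by
          exact_mod_cast Nat.choose_le_pow P.natDegree e
        have a1 : δ * d ^ e ≤ |aeval lam (hasseDeriv e P)| * d ^ e :=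
          mul_le_mul_of_nonneg_right h2 (by positivity)
        have a2 : (P.natDegree.choose e : ℝ) * |aeval lam P| ≤ (P.natDegree : ℝ) ^ e * η :=
          mul_le_mul hchoose h1 (abs_nonneg _) (by positivity)
        linarith
      have hr : 0 ≤ η / δ := div_nonneg hη hδ.le
      have key4 : d ^ e ≤ ((P.natDegree : ℝ) * (η / δ) ^ ((1 : ℝ) / e)) ^ e := by
        rw [mul_pow, ← Real.rpow_natCast ((η / δ) ^ ((1 : ℝ) / e)) e, ← Real.rpow_mul hr,
          one_div_mul_cancel (by exact_mod_cast (by omega : e ≠ 0)), Real.rpow_one]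
        rw [← mul_div_assoc, le_div_iff₀ hδ]
        linarith
      exact le_of_pow_le_pow_left₀ (by omega) (by positivity) key4

end H517.EO
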