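import Pool.Agent.H517R2.EO.Basic

/-!
# TEAM EO : basic facts on relation polynomials
-/

set_option autoImplicit false

open Finset

namespace H517.EO

section rel

variable {A : Type} [DecidableEq A]

theorem FF_coeff_lt {k : ℕ} (p q : Fin k → A) (a : A) (n : Fin k) :
    (FF p q a).coeff (n : ℕ) = (if p n = a then 1 else 0) - (if q n = a then 1 else 0) := by
  unfold FF
  rw [Polynomial.finsetSum_coeff]
  rw [Finset.sum_eq_single n]
  · rw [Polynomial.coeff_sub]
    split_ifs <;> simp
  · intro i _ hi
    have h1 : (n : ℕ) ≠ (i : ℕ) := fun h => hi (Fin.ext h.symm)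
    rw [Polynomial.coeff_sub]
    split_ifs <;> simp [Polynomial.coeff_X_pow, h1]
  · intro h
    exact absurd (Finset.mem_univ _) h

theorem FF_coeff_ge {k : ℕ} (p q : Fin k → A) (a : A) (n : ℕ) (h : k ≤ n) :
    (FF p q a).coeff n = 0 := by
  unfold FF
  rw [Polynomial.finsetSum_coeff]
  apply Finset.sum_eq_zero
  intro i _
  have h1 : n ≠ (i : ℕ) := by
    have := i.2
    omega
  rw [Polynomial.coeff_sub]
  split_ifs <;> simp [Polynomial.coeff_X_pow, h1]

theorem FF_coeff_abs {k : ℕ} (p q : Fin k → A) (a : A) (n : ℕ) : |(FF p q a).coeff n| ≤ 1 := by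
  by_cases h : n < k
  · have := FF_coeff_lt p q a ⟨n, h⟩
    simp only at this
    rw [this]
    split_ifs <;> simp
  · rw [FF_coeff_ge p q a n (not_lt.1 h)]
    simp

theorem FF_natDegree {k : ℕ} (p q : Fin k → A) (a : A) : (FF p q a).natDegree ≤ k := by
  rw [Polynomial.natDegree_le_iff_coeff_eq_zero]
  intro N hN
  exact FF_coeff_ge p q a N hN.le

theorem FF_L1 {k : ℕ} (p q : Fin k → A) (a : A) : L1 (FF p q a) ≤ k := by
  unfold L1
  have h1 : ∀ i ∈ Finset.range ((FF p q a).natDegree + 1),
      |(((FF p q a).coeff i : ℤ) : ℝ)| ≤ if i < k then (1 : ℝ) else 0 := by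
    intro i _
    by_cases h : i < k
    · rw [if_pos h]
      exact_mod_cast FF_coeff_abs p q a i
    · rw [if_neg h, FF_coeff_ge p q a i (not_lt.1 h)]
      simp
  refine (Finset.sum_le_sum h1).trans ?_
  rw [← Finset.sum_filter, Finset.sum_const, nsmul_eq_mul, mul_one]
  have h2 : (Finset.filter (fun i => i < k) (Finset.range ((FF p q a).natDegree + 1))).card ≤ k := by
    calc _ ≤ (Finset.range k).card := by
            apply Finset.card_le_card
            intro i hi
            simp only [Finset.mem_filter, Finset.mem_range] at hi ⊢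
            exact hi.2
      _ = k := Finset.card_range k
  exact_mod_cast h2

theorem FF_tau [Fintype A] (τ : A → A → PowerSeries ℤ) {k : ℕ} (p q : Fin k → A) (b : A) :
    ∑ a, τ b a * ((FF p q a : Polynomial ℤ) : PowerSeries ℤ) = YY τ p b - YY τ q b := by
  have h1 : ∀ a, ((FF p q a : Polynomial ℤ) : PowerSeries ℤ) =
      ∑ i : Fin k, ((if p i = a then (PowerSeries.X : PowerSeries ℤ) ^ (i : ℕ) else 0)
        - (if q i = a then (PowerSeries.X : PowerSeries ℤ) ^ (i : ℕ) else 0)) := by
    intro a
    have h2 : ((FF p q a : Polynomial ℤ) : PowerSeries ℤ)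
        = Polynomial.coeToPowerSeries.ringHom (FF p q a) := rfl
    rw [h2]
    unfold FF
    rw [map_sum]
    refine Finset.sum_congr rfl fun i _ => ?_
    rw [map_sub]
    congr 1
    · split_ifs <;> simp
    · split_ifs <;> simp
  unfold YY
  rw [← Finset.sum_sub_distrib]
  calc ∑ a, τ b a * ((FF p q a : Polynomial ℤ) : PowerSeries ℤ)
      = ∑ a, ∑ i : Fin k, τ b a * ((if p i = a then (PowerSeries.X : PowerSeries ℤ) ^ (i : ℕ) else 0)
        - (if q i = a then (PowerSeries.X : PowerSeries ℤ) ^ (i : ℕ) else 0)) := by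
        refine Finset.sum_congr rfl fun a _ => ?_
        rw [h1, Finset.mul_sum]
    _ = ∑ i : Fin k, ∑ a, τ b a * ((if p i = a then (PowerSeries.X : PowerSeries ℤ) ^ (i : ℕ) else 0)
        - (if q i = a then (PowerSeries.X : PowerSeries ℤ) ^ (i : ℕ) else 0)) := Finset.sum_comm
    _ = _ := by
        refine Finset.sum_congr rfl fun i _ => ?_
        simp only [mul_sub, mul_ite, mul_zero]
        rw [Finset.sum_sub_distrib, Finset.sum_ite_eq, Finset.sum_ite_eq]
        simp only [Finset.mem_univ, if_true]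
        ring

theorem FF_aeval [Fintype A] (lam : ℝ) (t : A → ℝ) {k : ℕ} (p q : Fin k → A) :
    ∑ a, t a * Polynomial.aeval lam (FF p q a) = XX lam t p - XX lam t q := by
  have h1 : ∀ a, Polynomial.aeval lam (FF p q a) =
      ∑ i : Fin k, ((if p i = a then lam ^ (i : ℕ) else 0)
        - (if q i = a then lam ^ (i : ℕ) else 0)) := by
    intro a
    unfold FF
    rw [map_sum]
    refine Finset.sum_congr rfl fun i _ => ?_
    rw [map_sub]
    congr 1
    · split_ifs <;> simp
    · split_ifs <;> simp
  unfold XX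
  rw [← Finset.sum_sub_distrib]
  calc ∑ a, t a * Polynomial.aeval lam (FF p q a)
      = ∑ a, ∑ i : Fin k, t a * ((if p i = a then lam ^ (i : ℕ) else 0)
        - (if q i = a then lam ^ (i : ℕ) else 0)) := by
        refine Finset.sum_congr rfl fun a _ => ?_
        rw [h1, Finset.mul_sum]
    _ = ∑ i : Fin k, ∑ a, t a * ((if p i = a then lam ^ (i : ℕ) else 0)
        - (if q i = a then lam ^ (i : ℕ) else 0)) := Finset.sum_comm
    _ = _ := by
        refine Finset.sum_congr rfl fun i _ => ?_
        simp only [mul_sub, mul_ite, mul_zero]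
        rw [Finset.sum_sub_distrib, Finset.sum_ite_eq, Finset.sum_ite_eq]
        simp only [Finset.mem_univ, if_true]
        ring

end rel

theorem t_A_rel : A_rel := by
  intro A _ _ lam t τ k p q
  exact ⟨fun a => FF_natDegree p q a, fun a i => FF_coeff_abs p q a i,
    fun a i h => FF_coeff_ge p q a i h, fun a => FF_L1 p q a, fun b => FF_tau τ p q b,
    FF_aeval lam t p q⟩

end H517.EO
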