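import Pool.Agent.H517R2.EO.Basic

/-!
# TEAM EO : A6, Cramer's rule inside the kernel of `τ` (helper61)
-/

set_option autoImplicit false

open Finset

namespace H517.EO

namespace A6

/-- linearly independent rows inside a subspace -/
theorem card_le {A K : Type} [Fintype A] [DecidableEq A] [Field K] (M : Matrix A A K)
    (hM : M.det ≠ 0) (V : Submodule K (A → K)) (S : Finset A) (hS : ∀ a ∈ S, M a ∈ V) :
    S.card ≤ Module.finrank K V := by
  have h1 : LinearIndependent K M.row := Matrix.linearIndependent_rows_of_det_ne_zero hM
  have h2 : LinearIndependent K (fun a : S => (⟨M a.1, hS a.1 a.2⟩ : V)) := by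
    apply LinearIndependent.of_comp V.subtype
    exact h1.comp (fun a : S => a.1) Subtype.val_injective
  have h3 := h2.fintype_card_le_finrank
  simpa using h3

/-- the embedding of `ℤ[X]` in the fraction field of `ℤ⟦X⟧` -/
noncomputable def phi : Polynomial ℤ →+* FractionRing (PowerSeries ℤ) :=
  (algebraMap (PowerSeries ℤ) (FractionRing (PowerSeries ℤ))).comp Polynomial.coeToPowerSeries.ringHom

theorem phi_inj : Function.Injective phi := by
  intro a b h
  unfold phi at h
  rw [RingHom.comp_apply, RingHom.comp_apply] at h
  have h1 := IsFractionRing.injective (PowerSeries ℤ) (FractionRing (PowerSeries ℤ)) h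
  rw [Polynomial.coeToPowerSeries.ringHom_apply, Polynomial.coeToPowerSeries.ringHom_apply] at h1
  exact Polynomial.coe_injective ℤ h1

theorem ev_le (lam : ℝ) (h0 : 0 < lam) (h1 : lam < 1) (F : Polynomial ℤ)
    (hF : ∀ i, |F.coeff i| ≤ 1) : |Polynomial.aeval lam F| ≤ 1 / (1 - lam) := by
  rw [Polynomial.aeval_eq_sum_range]
  have h2 : ∀ i ∈ Finset.range (F.natDegree + 1), |F.coeff i • lam ^ i| ≤ lam ^ i := by
    intro i _
    rw [zsmul_eq_mul, abs_mul, abs_of_pos (pow_pos h0 i)]
    have h3 : |((F.coeff i : ℤ) : ℝ)| ≤ 1 := by exact_mod_cast hF i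
    exact mul_le_of_le_one_left (pow_pos h0 i).le h3
  refine (Finset.abs_sum_le_sum_abs _ _).trans ((Finset.sum_le_sum h2).trans ?_)
  have h4 : (0 : ℝ) < 1 - lam := by linarith
  rw [le_div_iff₀ h4, geom_sum_mul_neg]
  have := pow_pos h0 (F.natDegree + 1)
  linarith

end A6

open A6 in
theorem t_A_det : A_det := by
  intro A _ _ _ lam t h0 h1 τ T c Fs w hw hT hunit hc hF hcker hFker hcw hdet
  set N : Matrix A A (Polynomial ℤ) := Matrix.of c with hN
  set y : A → Polynomial ℤ := fun a => (N.updateRow a Fs).det with hy
  -- Cramer's rule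
  have hcr : ∀ b, ∑ a, c a b * y a = N.det * Fs b := by
    intro b
    have h2 := congrFun (Matrix.mulVec_cramer N.transpose Fs) b
    rw [Matrix.det_transpose, Pi.smul_apply, smul_eq_mul] at h2
    rw [← h2]
    unfold Matrix.mulVec dotProduct
    apply Finset.sum_congr rfl
    intro a _
    rw [Matrix.cramer_transpose_apply]
    rfl
  -- the coefficients outside `T` vanish
  have hker : ∀ v : A → Polynomial ℤ,
      (∀ b, ∑ a', τ b a' * ((v a' : Polynomial ℤ) : PowerSeries ℤ) = 0) →
      (fun a => phi (v a)) ∈ LinearMap.ker (Matrix.toLin' (Matrix.of (fun b a =>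
        algebraMap (PowerSeries ℤ) (FractionRing (PowerSeries ℤ)) (τ b a)))) := by
    intro v hv
    rw [LinearMap.mem_ker]
    funext b
    rw [Matrix.toLin'_apply]
    unfold Matrix.mulVec dotProduct
    have h2 := congrArg (algebraMap (PowerSeries ℤ) (FractionRing (PowerSeries ℤ))) (hv b)
    rw [map_sum, map_zero] at h2
    rw [Pi.zero_apply, ← h2]
    apply Finset.sum_congr rfl
    intro a _
    rw [map_mul]
    rfl
  have hy0 : ∀ a, a ∉ T → y a = 0 := by
    intro a ha
    by_contra hne
    have h2 : ((N.updateRow a Fs).map phi).det ≠ 0 := by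
      have h3 : ((N.updateRow a Fs).map phi).det = phi (N.updateRow a Fs).det := by
        rw [RingHom.map_det]
        rfl
      rw [h3]
      intro h4
      apply hne
      apply phi_inj
      rw [map_zero]
      exact h4
    have h5 := card_le ((N.updateRow a Fs).map phi) h2 _ (insert a T) (by
      intro b hb
      by_cases hba : b = a
      · subst hba
        have : ((N.updateRow b Fs).map phi) b = fun a => phi (Fs a) := by
          funext a
          rw [Matrix.map_apply, Matrix.updateRow_self]
        rw [this]
        exact hker Fs hFker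
      · have : ((N.updateRow a Fs).map phi) b = fun a' => phi (c b a') := by
          funext a'
          rw [Matrix.map_apply, Matrix.updateRow_ne hba]
          rfl
        rw [this]
        have hbT : b ∈ T := by
          rcases Finset.mem_insert.1 hb with h | h
          · exact absurd h hba
          · exact h
        exact hker (c b) (hcker b hbT))
    rw [Finset.card_insert_of_notMem ha] at h5
    unfold rk at hT
    omega
  -- evaluate at `lam`
  have hev : Polynomial.aeval lam N.det * ∑ b, t b * Polynomial.aeval lam (Fs b) =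
      ∑ a ∈ T, Polynomial.aeval lam (y a) * ∑ b, t b * Polynomial.aeval lam (c a b) := by
    have h2 : ∀ b, Polynomial.aeval lam N.det * Polynomial.aeval lam (Fs b) =
        ∑ a ∈ T, Polynomial.aeval lam (y a) * Polynomial.aeval lam (c a b) := by
      intro b
      rw [← map_mul, ← hcr b, map_sum]
      rw [← Finset.sum_subset (Finset.subset_univ T)]
      · apply Finset.sum_congr rfl
        intro a _
        rw [map_mul, mul_comm]
      · intro a _ ha
        rw [hy0 a ha, mul_zero, map_zero]
    rw [Finset.mul_sum]
    have h3 : ∀ b ∈ (Finset.univ : Finset A),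
        Polynomial.aeval lam N.det * (t b * Polynomial.aeval lam (Fs b)) =
        ∑ a ∈ T, Polynomial.aeval lam (y a) * (t b * Polynomial.aeval lam (c a b)) := by
      intro b _
      calc Polynomial.aeval lam N.det * (t b * Polynomial.aeval lam (Fs b))
          = t b * (Polynomial.aeval lam N.det * Polynomial.aeval lam (Fs b)) := by ring
        _ = _ := by
          rw [h2 b, Finset.mul_sum]
          apply Finset.sum_congr rfl
          intro a _
          ring
    rw [Finset.sum_congr rfl h3, Finset.sum_comm]
    apply Finset.sum_congr rfl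
    intro a _
    rw [Finset.mul_sum]
  rw [← abs_mul, hev]
  have hpos : (0 : ℝ) < 1 / (1 - lam) := one_div_pos.2 (by linarith)
  have hyb : ∀ a, |Polynomial.aeval lam (y a)| ≤
      (Fintype.card A).factorial * (1 / (1 - lam)) ^ (Fintype.card A) := by
    intro a
    have h2 : Polynomial.aeval lam (y a) =
        ((N.updateRow a Fs).map (Polynomial.aeval lam)).det := by
      rw [hy]
      have := AlgHom.map_det (Polynomial.aeval lam) (N.updateRow a Fs)
      rw [this]
      rfl
    rw [h2]
    have h3 := Matrix.det_le (A := (N.updateRow a Fs).map (Polynomial.aeval lam))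
      (abv := AbsoluteValue.abs) (x := 1 / (1 - lam)) (by
        intro i j
        rw [AbsoluteValue.abs_apply, Matrix.map_apply]
        by_cases hi : i = a
        · subst hi
          rw [Matrix.updateRow_self]
          exact ev_le lam h0 h1 _ (hF j)
        · rw [Matrix.updateRow_ne hi]
          exact ev_le lam h0 h1 _ (hc i j))
    rw [AbsoluteValue.abs_apply, nsmul_eq_mul] at h3
    exact h3
  calc |∑ a ∈ T, Polynomial.aeval lam (y a) * ∑ b, t b * Polynomial.aeval lam (c a b)|
      ≤ ∑ a ∈ T, |Polynomial.aeval lam (y a) * ∑ b, t b * Polynomial.aeval lam (c a b)| :=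
        Finset.abs_sum_le_sum_abs _ _
    _ ≤ ∑ _a ∈ T, ((Fintype.card A).factorial * (1 / (1 - lam)) ^ (Fintype.card A)) * w := by
        apply Finset.sum_le_sum
        intro a ha
        rw [abs_mul]
        exact mul_le_mul (hyb a) (hcw a ha) (abs_nonneg _) (by positivity)
    _ = T.card * (((Fintype.card A).factorial * (1 / (1 - lam)) ^ (Fintype.card A)) * w) := by
        rw [Finset.sum_const, nsmul_eq_mul]
    _ ≤ (Fintype.card A : ℝ) *
          (((Fintype.card A).factorial * (1 / (1 - lam)) ^ (Fintype.card A)) * w) := by
        apply mul_le_mul_of_nonneg_right _ (by positivity)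
        exact_mod_cast Finset.card_le_univ T
    _ = _ := by ring

end H517.EO
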