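import Pool.Agent.H517R2.EO.Basic

/-!
# TEAM EO : the compactness theorem `A_compact` (helper204)
-/

set_option autoImplicit false

open Finset Filter

namespace H517.EO

namespace AC

/-! ### words -/

theorem exists_append {A : Type} {l m : ℕ} (h : l ≤ l + m) (p : Fin (l + m) → A) :
    ∃ r : Fin m → A, p = Fin.append (pre h p) r := by
  refine ⟨fun i => p (Fin.natAdd l i), ?_⟩
  have := Fin.append_castAdd_natAdd (f := p)
  exact this.symm

theorem coeff_YY_pre {A : Type} (τ : A → A → PowerSeries ℤ) {l k : ℕ} (h : l ≤ k) (p : Fin k → A)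
    (b : A) (i : ℕ) (hi : i < l) :
    PowerSeries.coeff i (YY τ (pre h p) b) = PowerSeries.coeff i (YY τ p b) := by
  obtain ⟨m, rfl⟩ := Nat.exists_eq_add_of_le h
  obtain ⟨r, hr⟩ := exists_append h p
  conv_rhs => rw [hr]
  rw [YY_append, map_add, PowerSeries.coeff_X_pow_mul', if_neg (by omega), add_zero]

theorem XX_le {A : Type} (lam : ℝ) (t : A → ℝ) (h0 : 0 < lam) (h1 : lam < 1) (M : ℝ)
    (hM : ∀ a, |t a| ≤ M) (hM0 : 0 ≤ M) {k : ℕ} (p : Fin k → A) :
    |XX lam t p| ≤ M / (1 - lam) := by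
  unfold XX
  have e1 : |∑ i : Fin k, lam ^ (i : ℕ) * t (p i)| ≤ ∑ i : Fin k, lam ^ (i : ℕ) * M := by
    refine (Finset.abs_sum_le_sum_abs _ _).trans (Finset.sum_le_sum fun i _ => ?_)
    rw [abs_mul, abs_of_nonneg (by positivity)]
    exact mul_le_mul_of_nonneg_left (hM _) (by positivity)
  refine e1.trans ?_
  rw [← Finset.sum_mul, Fin.sum_univ_eq_sum_range (fun i => lam ^ i) k, mul_comm]
  have e2 : ∑ i ∈ range k, lam ^ i ≤ 1 / (1 - lam) := by
    have h3 : (∑ i ∈ range k, lam ^ i) * (1 - lam) = 1 - lam ^ k := geom_sum_mul_neg lam k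
    rw [le_div_iff₀ (by linarith), h3]
    have : 0 ≤ lam ^ k := by positivity
    linarith
  calc M * ∑ i ∈ range k, lam ^ i ≤ M * (1 / (1 - lam)) := mul_le_mul_of_nonneg_left e2 hM0
    _ = M / (1 - lam) := by rw [mul_one_div]

theorem XX_pre_sub {A : Type} (lam : ℝ) (t : A → ℝ) (h0 : 0 < lam) (h1 : lam < 1) (M : ℝ)
    (hM : ∀ a, |t a| ≤ M) (hM0 : 0 ≤ M) {l k : ℕ} (h : l ≤ k) (p q : Fin k → A) :
    |XX lam t (pre h p) - XX lam t (pre h q)| ≤
      |XX lam t p - XX lam t q| + 2 * (M / (1 - lam)) * lam ^ l := by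
  obtain ⟨m, rfl⟩ := Nat.exists_eq_add_of_le h
  obtain ⟨r, hr⟩ := exists_append h p
  obtain ⟨r', hr'⟩ := exists_append h q
  have e1 : XX lam t p = XX lam t (pre h p) + lam ^ l * XX lam t r := by
    conv_lhs => rw [hr]
    rw [XX_append]
  have e2 : XX lam t q = XX lam t (pre h q) + lam ^ l * XX lam t r' := by
    conv_lhs => rw [hr']
    rw [XX_append]
  have h3 := XX_le lam t h0 h1 M hM hM0 r
  have h4 := XX_le lam t h0 h1 M hM hM0 r'
  have h5 : XX lam t (pre h p) - XX lam t (pre h q) =
      (XX lam t p - XX lam t q) + lam ^ l * (XX lam t r' - XX lam t r) := by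
    rw [e1, e2]; ring
  rw [h5]
  refine (abs_add_le _ _).trans ?_
  rw [abs_mul, abs_of_nonneg (by positivity : 0 ≤ lam ^ l)]
  have h6 : |XX lam t r' - XX lam t r| ≤ 2 * (M / (1 - lam)) := by
    refine (abs_sub _ _).trans ?_
    linarith
  have : lam ^ l * |XX lam t r' - XX lam t r| ≤ lam ^ l * (2 * (M / (1 - lam))) :=
    mul_le_mul_of_nonneg_left h6 (by positivity)
  linarith

/-! ### a non-injective map -/

theorem exists_collision {Ω β γ : Type} [Fintype Ω] (u : Ω → γ) (g : Ω → β)
    (h : 0 < condH u g) : ∃ p q, p ≠ q ∧ g p = g q := by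
  by_contra hcon
  push Not at hcon
  have hinj : ∀ p q, g p = g q → p = q := by
    intro p q hpq
    by_contra hne
    exact hcon p q hne hpq
  have h1 : HR g = 0 := by
    unfold HR avg
    have : ∀ p, Real.log (fib g p) = 0 := by
      intro p
      have : fiber g p = {p} := by
        ext q
        rw [mem_fiber, Finset.mem_singleton]
        exact ⟨fun h => hinj _ _ h, fun h => by rw [h]⟩
      unfold fib
      rw [this]
      simp
    simp [this]
  have h2 : 0 ≤ HR (fun p => (g p, u p)) := by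
    unfold HR
    exact avg_nonneg fun p => Real.log_nonneg (one_le_fib _ _)
  unfold condH at h
  linarith

/-! ### relation vectors -/

/-- the relation vectors at level `j` -/
def RR {A : Type} [DecidableEq A] (lam : ℝ) (t : A → ℝ) (τ : A → A → PowerSeries ℤ)
    (K : ℕ → ℕ) (w : ℕ → ℝ) (j : ℕ) : Set (A → Polynomial ℤ) :=
  {F | ∃ (k : ℕ) (p q : Fin k → A), k ≤ K j ∧ YY τ p = YY τ q ∧
    |XX lam t p - XX lam t q| ≤ w j ∧ F = fun a => FF p q a}

/-- convergence of coefficients along `U` -/
def IsL {A : Type} (U : Ultrafilter ℕ) (F : ℕ → A → Polynomial ℤ) (G : A → PowerSeries ℤ) : Prop :=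
  ∀ J : ℕ, ∀ᶠ j in (U : Filter ℕ), ∀ a, ∀ i < J, (F j a).coeff i = PowerSeries.coeff i (G a)

section rel

variable {A : Type} [Fintype A] [DecidableEq A]

theorem RR_facts (hrel : A_rel) {lam : ℝ} {t : A → ℝ} {τ : A → A → PowerSeries ℤ}
    {K : ℕ → ℕ} {w : ℕ → ℝ} {j : ℕ} {F : A → Polynomial ℤ} (hF : F ∈ RR lam t τ K w j) :
    (∀ a, (F a).natDegree ≤ K j) ∧ (∀ a i, |(F a).coeff i| ≤ 1) ∧ (∀ a, L1 (F a) ≤ K j) ∧
    (∀ b, ∑ a, τ b a * ((F a : Polynomial ℤ) : PowerSeries ℤ) = 0) ∧
    |∑ a, t a * Polynomial.aeval lam (F a)| ≤ w j := by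
  obtain ⟨k, p, q, hk, hY, hX, rfl⟩ := hF
  obtain ⟨h1, h2, _, h4, h5, h6⟩ := hrel A lam t τ k p q
  refine ⟨fun a => (h1 a).trans hk, h2, fun a => (h4 a).trans (by exact_mod_cast hk), ?_, ?_⟩
  · intro b
    rw [h5 b, hY, sub_self]
  · rw [h6]; exact hX

omit [Fintype A] in
theorem zero_mem_RR {lam : ℝ} {t : A → ℝ} {τ : A → A → PowerSeries ℤ}
    {K : ℕ → ℕ} {w : ℕ → ℝ} (hw : ∀ j, 0 < w j) (j : ℕ) : (RR lam t τ K w j).Nonempty := by
  refine ⟨_, 0, Fin.elim0, Fin.elim0, Nat.zero_le _, rfl, ?_, rfl⟩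
  rw [sub_self, abs_zero]
  exact (hw j).le

/-- coefficients of `τ F` depend only on the lower coefficients -/
theorem coeff_congr (f : A → PowerSeries ℤ) (G G' : A → PowerSeries ℤ) (i : ℕ)
    (h : ∀ a, ∀ n ≤ i, PowerSeries.coeff n (G a) = PowerSeries.coeff n (G' a)) :
    PowerSeries.coeff i (∑ a, f a * G a) = PowerSeries.coeff i (∑ a, f a * G' a) := by
  rw [map_sum, map_sum]
  refine Finset.sum_congr rfl fun a _ => ?_
  rw [PowerSeries.coeff_mul, PowerSeries.coeff_mul]
  refine Finset.sum_congr rfl fun x hx => ?_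
  rw [Finset.HasAntidiagonal.mem_antidiagonal] at hx
  rw [h a x.2 (by omega)]

theorem lim_ker (hrel : A_rel) {lam : ℝ} {t : A → ℝ} {τ : A → A → PowerSeries ℤ}
    {K : ℕ → ℕ} {w : ℕ → ℝ} (U : Ultrafilter ℕ) {F : ℕ → A → Polynomial ℤ} {G : A → PowerSeries ℤ}
    (hF : ∀ j, F j ∈ RR lam t τ K w j) (hL : IsL U F G) (b : A) :
    ∑ a, τ b a * G a = 0 := by
  ext i
  obtain ⟨j, hj⟩ := (hL (i + 1)).exists
  have h1 := coeff_congr (τ b) G (fun a => ((F j a : Polynomial ℤ) : PowerSeries ℤ)) i (by
    intro a n hn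
    rw [Polynomial.coeff_coe, hj a n (by omega)])
  rw [h1, (RR_facts hrel (hF j)).2.2.2.1 b]

end rel

/-! ### determinants -/

theorem det_congr {A : Type} [Fintype A] [DecidableEq A] (M N : Matrix A A (PowerSeries ℤ)) (J : ℕ)
    (h : ∀ a b, ∀ i < J, PowerSeries.coeff i (M a b) = PowerSeries.coeff i (N a b)) :
    ∀ i < J, PowerSeries.coeff i M.det = PowerSeries.coeff i N.det := by
  have h1 : (Ideal.Quotient.mk (Ideal.span {(PowerSeries.X : PowerSeries ℤ) ^ J})) M.det =
      (Ideal.Quotient.mk (Ideal.span {(PowerSeries.X : PowerSeries ℤ) ^ J})) N.det := by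
    rw [RingHom.map_det, RingHom.map_det]
    congr 1
    ext a b
    rw [RingHom.mapMatrix_apply, RingHom.mapMatrix_apply, Matrix.map_apply, Matrix.map_apply,
      Ideal.Quotient.eq, Ideal.mem_span_singleton, PowerSeries.X_pow_dvd_iff]
    intro m hm
    rw [map_sub, h a b m hm, sub_self]
  rw [Ideal.Quotient.eq, Ideal.mem_span_singleton, PowerSeries.X_pow_dvd_iff] at h1
  intro i hi
  have := h1 i hi
  rw [map_sub] at this
  linarith

theorem coe_det {A : Type} [Fintype A] [DecidableEq A] (M : Matrix A A (Polynomial ℤ)) :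
    ((M.det : Polynomial ℤ) : PowerSeries ℤ) =
      (M.map (fun P => (P : PowerSeries ℤ))).det := by
  have := RingHom.map_det (Polynomial.coeToPowerSeries.ringHom (R := ℤ)) M
  rw [Polynomial.coeToPowerSeries.ringHom_apply] at this
  rw [this]
  congr 1

end AC

open AC

theorem t_A_compact (hker : A_ker) (hcaseA : A_caseA) (hanal : A_anal) (hroot : A_root)
    (hrel : A_rel) (hlim : A_lim) (hspan : A_span) (hdet : A_det) (hbds : A_bds) : A_compact := by
  intro A _ _ _ lam t h0 h1 hfree τ hind c hc K w hw hwt hH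
  classical
  set U : Ultrafilter ℕ := Filter.hyperfilter ℕ with hUdef
  have hU : (U : Filter ℕ) ≤ atTop := by
    rw [← Nat.cofinite_eq_atTop]
    exact Filter.hyperfilter_le_cofinite
  set Kf := FractionRing (PowerSeries ℤ) with hKf
  have hinj : Function.Injective (algebraMap (PowerSeries ℤ) Kf) :=
    IsFractionRing.injective (PowerSeries ℤ) Kf
  set S : Set (A → Kf) := {v | ∃ (F : ℕ → A → Polynomial ℤ) (G : A → PowerSeries ℤ),
    (∀ j, F j ∈ RR lam t τ K w j) ∧ IsL U F G ∧ v = fun a => algebraMap _ _ (G a)} with hS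
  set V : Submodule Kf (A → Kf) := Submodule.span Kf S with hV
  have hVle : V ≤ LinearMap.ker (Matrix.toLin' (Matrix.of (fun b a =>
      algebraMap (PowerSeries ℤ) (FractionRing (PowerSeries ℤ)) (τ b a)))) := by
    rw [hV, Submodule.span_le]
    rintro v ⟨F, G, hF, hL, rfl⟩
    rw [SetLike.mem_coe, LinearMap.mem_ker, Matrix.toLin'_apply]
    funext b
    have h2 := lim_ker hrel U hF hL b
    have h3 := congrArg (algebraMap (PowerSeries ℤ) Kf) h2
    rw [map_sum, map_zero] at h3
    simp only [Matrix.mulVec, dotProduct, Matrix.of_apply, Pi.zero_apply]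
    rw [← h3]
    exact Finset.sum_congr rfl fun a _ => by rw [map_mul]
  have hfin : Module.finrank Kf V ≤ rk τ := Submodule.finrank_mono hVle
  -- bound for the digits
  set M : ℝ := ∑ a, |t a| with hM
  have hM0 : 0 ≤ M := Finset.sum_nonneg fun _ _ => abs_nonneg _
  have hMt : ∀ a, |t a| ≤ M := fun a =>
    Finset.single_le_sum (f := fun a => |t a|) (fun _ _ => abs_nonneg _) (Finset.mem_univ a)
  -- members of a fibre give relations
  have hfibre : ∀ (j k : ℕ) (s w' : ℝ), k ≤ K j → 0 < w' → w' ≤ w j → ∀ p q : Fin k → A,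
      (YY τ p, ⌊XX lam t p / w' + s⌋) = (YY τ q, ⌊XX lam t q / w' + s⌋) →
      YY τ p = YY τ q ∧ |XX lam t p - XX lam t q| ≤ w j := by
    intro j k s w' _ hw0 hwj p q hpq
    rw [Prod.mk.injEq] at hpq
    refine ⟨hpq.1, ?_⟩
    have h2 := Int.abs_sub_lt_one_of_floor_eq_floor hpq.2
    have h3 : XX lam t p / w' + s - (XX lam t q / w' + s) = (XX lam t p - XX lam t q) / w' := by
      ring
    rw [h3, abs_div, abs_of_pos hw0, div_lt_one hw0] at h2
    linarith
  rcases lt_or_eq_of_le hfin with hlt | heq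
  · -- case A
    exfalso
    obtain ⟨τ', hτ'⟩ := hker A V
    have hrk : rk τ' = Module.finrank Kf V := by
      unfold rk
      rw [hτ']
    have hcl := hind τ' (by rw [hrk]; exact hlt)
    set B : ℝ := 1 + 2 * (M / (1 - lam)) with hB
    have hB0 : 0 ≤ B := by
      have : 0 ≤ M / (1 - lam) := div_nonneg hM0 (by linarith)
      rw [hB]; linarith
    obtain ⟨n0, hn0⟩ := exists_nat_ge (Real.log (B + 2) / (c / 4))
    obtain ⟨l, hl, hHT⟩ := hcl (c / 4) (by linarith) (max n0 1)
    have hl1 : 1 ≤ l := (le_max_right _ _).trans hl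
    have hln : n0 ≤ l := (le_max_left _ _).trans hl
    have hlog : Real.log (B + 2) ≤ c / 4 * l := by
      rw [div_le_iff₀ (by linarith)] at hn0
      have : (n0 : ℝ) ≤ l := by exact_mod_cast hln
      nlinarith
    -- the relations vanish to order `l`
    have hvan : ∀ᶠ j in (U : Filter ℕ), ∀ F ∈ RR lam t τ K w j, ∀ b, ∀ i < l,
        PowerSeries.coeff i (∑ a, τ' b a * ((F a : Polynomial ℤ) : PowerSeries ℤ)) = 0 := by
      by_contra hcon
      rw [← Ultrafilter.eventually_not] at hcon
      have hch : ∀ j, ∃ F ∈ RR lam t τ K w j, (¬ (∀ F ∈ RR lam t τ K w j, ∀ b, ∀ i < l,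
        PowerSeries.coeff i (∑ a, τ' b a * ((F a : Polynomial ℤ) : PowerSeries ℤ)) = 0)) →
        ¬ (∀ b, ∀ i < l,
          PowerSeries.coeff i (∑ a, τ' b a * ((F a : Polynomial ℤ) : PowerSeries ℤ)) = 0) := by
        intro j
        by_cases hj : ∀ F ∈ RR lam t τ K w j, ∀ b, ∀ i < l,
          PowerSeries.coeff i (∑ a, τ' b a * ((F a : Polynomial ℤ) : PowerSeries ℤ)) = 0
        · obtain ⟨F, hF⟩ := zero_mem_RR (A := A) (lam := lam) (t := t) (τ := τ) (K := K) hw j
          exact ⟨F, hF, fun h => absurd hj h⟩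
        · have hj' := hj
          push Not at hj'
          obtain ⟨F, hF, b, i, hi, hne⟩ := hj'
          exact ⟨F, hF, fun _ h => hne (h b i hi)⟩
      choose F hF hFbad using hch
      obtain ⟨G, _, hL⟩ := hlim A U F (fun j => (RR_facts hrel (hF j)).2.1)
      have hmem : (fun a => algebraMap (PowerSeries ℤ) Kf (G a)) ∈ V :=
        Submodule.subset_span ⟨F, G, hF, hL, rfl⟩
      rw [← hτ', LinearMap.mem_ker, Matrix.toLin'_apply] at hmem
      have hzero : ∀ b, ∑ a, τ' b a * G a = 0 := by
        intro b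
        apply hinj
        rw [map_sum, map_zero]
        have := congrFun hmem b
        simp only [Matrix.mulVec, dotProduct, Matrix.of_apply, Pi.zero_apply] at this
        rw [← this]
        exact Finset.sum_congr rfl fun a _ => by rw [map_mul]
      obtain ⟨j, hj1, hj2⟩ := (hcon.and (hL l)).exists
      apply hFbad j hj1
      intro b i hi
      rw [coeff_congr (τ' b) (fun a => ((F j a : Polynomial ℤ) : PowerSeries ℤ)) G i (by
        intro a n hn
        rw [Polynomial.coeff_coe, hj2 a n (by omega)]), hzero b, map_zero]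
    have hsmall : ∀ᶠ j in atTop, w j ≤ lam ^ l :=
      (hwt.eventually (gt_mem_nhds (pow_pos h0 l))).mono fun j hj => hj.le
    obtain ⟨j, ⟨hjv, hjH⟩, hjs⟩ := ((hvan.and (hU (hH l hl1))).and (hU hsmall)).exists
    obtain ⟨k', h, hk', s, w', hw0, hwj, hcond⟩ := hjH
    have hA := hcaseA A lam t τ' h0 h1 l k' h _
      (fun p : Fin k' → A => (YY τ p, ⌊XX lam t p / w' + s⌋)) B hB0 (by
        intro p q hpq
        obtain ⟨hY, hX⟩ := hfibre j k' s w' hk' hw0 hwj p q hpq
        constructor
        · rw [YM_eq_iff]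
          intro b i hi
          rw [coeff_YY_pre τ' h p b i hi, coeff_YY_pre τ' h q b i hi]
          have h3 := hjv (fun a => FF p q a) ⟨k', p, q, hk', hY, hX, rfl⟩ b i hi
          rw [(hrel A lam t τ' k' p q).2.2.2.2.1 b, map_sub] at h3
          linarith
        · have h3 := XX_pre_sub lam t h0 h1 M hMt hM0 h p q
          have h4 : |XX lam t p - XX lam t q| ≤ lam ^ l := hX.trans hjs
          rw [hB]
          linarith)
    have hl0 : (1 : ℝ) ≤ l := by exact_mod_cast hl1
    have : c * l < c * l := by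
      calc c * l ≤ HT lam t τ' l + Real.log (B + 2) := hcond.trans hA
        _ < c / 4 * l + c / 4 * l := by linarith
        _ ≤ c * l := by nlinarith
    exact lt_irrefl _ this
  · -- case B
    obtain ⟨T, cinf, hTc, hcS, hc1, hdne⟩ := hspan A Kf S
    have hch : ∀ a : A, ∃ (F : ℕ → A → Polynomial ℤ) (G : A → PowerSeries ℤ), a ∈ T →
        (∀ j, F j ∈ RR lam t τ K w j) ∧ IsL U F G ∧ cinf a = fun a' => algebraMap _ _ (G a') := by
      intro a
      by_cases ha : a ∈ T
      · obtain ⟨F, G, h2, h3, h4⟩ := hcS a ha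
        exact ⟨F, G, fun _ => ⟨h2, h3, h4⟩⟩
      · exact ⟨fun _ _ => 0, fun _ => 0, fun h => absurd h ha⟩
    choose F G hFG using hch
    -- the matrices
    set cj : ℕ → A → A → Polynomial ℤ := fun j a => if a ∈ T then F a j else Pi.single a 1 with hcj
    set Gi : A → A → PowerSeries ℤ := fun a => if a ∈ T then G a else Pi.single a 1 with hGi
    have hcjT : ∀ j a, a ∈ T → cj j a = F a j := fun j a ha => by rw [hcj]; simp only [if_pos ha]
    have hcjN : ∀ j a, a ∉ T → cj j a = Pi.single a 1 := fun j a ha => by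
      rw [hcj]; simp only [if_neg ha]
    have hGiT : ∀ a, a ∈ T → Gi a = G a := fun a ha => by rw [hGi]; simp only [if_pos ha]
    have hGiN : ∀ a, a ∉ T → Gi a = Pi.single a 1 := fun a ha => by
      rw [hGi]; simp only [if_neg ha]
    have hdetG : (Matrix.of Gi).det ≠ 0 := by
      intro hz
      apply hdne
      have h2 := RingHom.map_det (algebraMap (PowerSeries ℤ) Kf) (Matrix.of Gi)
      rw [hz, map_zero] at h2
      rw [h2]
      congr 1
      ext a b
      rw [RingHom.mapMatrix_apply, Matrix.map_apply, Matrix.of_apply, Matrix.of_apply]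
      by_cases ha : a ∈ T
      · rw [hGiT a ha, (hFG a ha).2.2]
      · rw [hGiN a ha, hc1 a ha]
        by_cases hab : b = a
        · subst hab
          simp
        · simp [Pi.single_eq_of_ne hab]
    have hcoef : ∀ J : ℕ, ∀ᶠ j in (U : Filter ℕ), ∀ a b, ∀ i < J,
        (cj j a b).coeff i = PowerSeries.coeff i (Gi a b) := by
      intro J
      rw [Filter.eventually_all]
      intro a
      by_cases ha : a ∈ T
      · filter_upwards [(hFG a ha).2.1 J] with j hj b i hi
        rw [hcjT j a ha, hGiT a ha]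
        exact hj b i hi
      · refine Filter.Eventually.of_forall fun j b i hi => ?_
        rw [hcjN j a ha, hGiN a ha]
        by_cases hab : b = a
        · subst hab
          simp [Polynomial.coeff_one, PowerSeries.coeff_one]
        · simp [Pi.single_eq_of_ne hab]
    set P : ℕ → Polynomial ℤ := fun j => (Matrix.of (cj j)).det with hP
    have hPc : ∀ i, ∀ᶠ j in (U : Filter ℕ), (P j).coeff i =
        PowerSeries.coeff i (Matrix.of Gi).det := by
      intro i
      filter_upwards [hcoef (i + 1)] with j hj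
      have h2 := det_congr ((Matrix.of (cj j)).map (fun P => (P : PowerSeries ℤ))) (Matrix.of Gi)
        (i + 1) (by
          intro a b n hn
          rw [Matrix.map_apply, Polynomial.coeff_coe, Matrix.of_apply, Matrix.of_apply]
          exact hj a b n hn) i (by omega)
      rw [← coe_det, Polynomial.coeff_coe] at h2
      exact h2
    obtain ⟨i0, hi0⟩ : ∃ i, PowerSeries.coeff i (Matrix.of Gi).det ≠ 0 := by
      by_contra hcon
      push Not at hcon
      apply hdetG
      ext i
      rw [hcon i, map_zero]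
    have hPne : ∀ᶠ j in (U : Filter ℕ), P j ≠ 0 := by
      filter_upwards [hPc i0] with j hj h2
      rw [h2, Polynomial.coeff_zero] at hj
      exact hi0 hj.symm
    -- bounds on the entries
    have hdeg : ∀ j a b, (cj j a b).natDegree ≤ max (K j) 1 := by
      intro j a b
      by_cases ha : a ∈ T
      · rw [hcjT j a ha]
        exact ((RR_facts hrel ((hFG a ha).1 j)).1 b).trans (le_max_left _ _)
      · rw [hcjN j a ha]
        by_cases hab : b = a
        · subst hab; simp
        · simp [Pi.single_eq_of_ne hab]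
    have hco1 : ∀ j a b i, |(cj j a b).coeff i| ≤ 1 := by
      intro j a b i
      by_cases ha : a ∈ T
      · rw [hcjT j a ha]
        exact (RR_facts hrel ((hFG a ha).1 j)).2.1 b i
      · rw [hcjN j a ha]
        by_cases hab : b = a
        · subst hab
          rw [Pi.single_eq_same, Polynomial.coeff_one]
          split_ifs <;> simp
        · simp [Pi.single_eq_of_ne hab]
    have hL1 : ∀ j a b, L1 (cj j a b) ≤ ((max (K j) 1 : ℕ) : ℝ) := by
      intro j a b
      by_cases ha : a ∈ T
      · rw [hcjT j a ha]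
        refine ((RR_facts hrel ((hFG a ha).1 j)).2.2.1 b).trans ?_
        exact_mod_cast le_max_left _ _
      · rw [hcjN j a ha]
        have h1m : (1 : ℝ) ≤ ((max (K j) 1 : ℕ) : ℝ) := by exact_mod_cast le_max_right _ _
        by_cases hab : b = a
        · subst hab
          rw [Pi.single_eq_same]
          simp only [L1, Polynomial.natDegree_one, zero_add, Finset.range_one,
            Finset.sum_singleton, Polynomial.coeff_one_zero, Int.cast_one, abs_one]
          exact h1m
        · rw [Pi.single_eq_of_ne hab]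
          simp only [L1, Polynomial.natDegree_zero, zero_add, Finset.range_one,
            Finset.sum_singleton, Polynomial.coeff_zero, Int.cast_zero, abs_zero]
          linarith
    have hbd := fun j => hbds A (cj j) (max (K j) 1) (le_max_right _ _) (hdeg j) (hco1 j) (hL1 j)
    obtain ⟨e, δ, hδ, hev⟩ := hanal lam h0 h1 (Fintype.card A) ((Fintype.card A).factorial : ℝ)
      (U : Filter ℕ) P (fun i => PowerSeries.coeff i (Matrix.of Gi).det)
      (fun j i => (hbd j).2.2 i) hPc ⟨i0, hi0⟩
    -- a fixed relation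
    have hH1 := hH 1 le_rfl
    obtain ⟨j0, k0, hk0, hk0K, s0, w0, hw0, hw0j, hcond0⟩ := hH1.exists
    obtain ⟨p, q, hpq, hgpq⟩ := exists_collision _ _ (lt_of_lt_of_le (by
      push_cast; linarith : (0 : ℝ) < c * ((1 : ℕ) : ℝ)) hcond0)
    obtain ⟨hYpq, _⟩ := hfibre j0 k0 s0 w0 hk0K hw0 hw0j p q hgpq
    have hXne : XX lam t p ≠ XX lam t q := fun h => hpq (hfree k0 p q h)
    set D : ℝ := |XX lam t p - XX lam t q| with hD
    have hD0 : 0 < D := abs_pos.2 (sub_ne_zero.2 hXne)
    obtain ⟨_, r2, _, _, r5, r6⟩ := hrel A lam t τ k0 p q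
    set C1 : ℝ := (Fintype.card A).factorial * Fintype.card A * (1 / (1 - lam)) ^ (Fintype.card A)
      with hC1
    have hC10 : 0 ≤ C1 := by
      have : 0 < 1 - lam := by linarith
      rw [hC1]; positivity
    have hval : ∀ᶠ j in (U : Filter ℕ), |Polynomial.aeval lam (P j)| ≤ C1 / D * w j := by
      filter_upwards [hPne] with j hj
      have h2 := hdet A lam t h0 h1 τ T (cj j) (fun a => FF p q a) (w j) (hw j).le
        (by rw [hTc]; exact heq) (hcjN j) (hco1 j) r2
        (by
          intro a ha b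
          rw [hcjT j a ha]
          exact (RR_facts hrel ((hFG a ha).1 j)).2.2.2.1 b)
        (by
          intro b
          rw [r5 b, hYpq, sub_self])
        (by
          intro a ha
          rw [hcjT j a ha]
          exact (RR_facts hrel ((hFG a ha).1 j)).2.2.2.2) hj
      rw [r6] at h2
      rw [div_mul_eq_mul_div, le_div_iff₀ hD0]
      exact h2
    -- e ≥ 1
    have he1 : 1 ≤ e := by
      by_contra hcon
      have he0 : e = 0 := by omega
      subst he0
      have h2 : Tendsto (fun j => C1 / D * w j) atTop (nhds 0) := by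
        have := hwt.const_mul (C1 / D)
        rwa [mul_zero] at this
      have h3 : ∀ᶠ j in atTop, C1 / D * w j < δ := h2.eventually (gt_mem_nhds hδ)
      obtain ⟨j, ⟨hj1, hj2⟩, hj3⟩ := ((hev.and hval).and (hU h3)).exists
      rw [Polynomial.hasseDeriv_zero'] at hj1
      linarith
    -- conclusion
    set C : ℝ := max 1 (max (C1 / D / δ) ((Fintype.card A).factorial : ℝ)) with hC
    refine ⟨e, he1, C, le_max_left _ _, ?_⟩
    have hfinal : ∀ᶠ j in (U : Filter ℕ), ∃ P : Polynomial ℤ, P ≠ 0 ∧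
        P.natDegree ≤ Fintype.card A * K j ∧ L1 P ≤ C * (K j : ℝ) ^ (Fintype.card A) ∧
        ∃ z : ℂ, Polynomial.aeval z P = 0 ∧
          ‖(lam : ℂ) - z‖ ≤ (Fintype.card A : ℝ) * K j * (C * w j) ^ ((1 : ℝ) / e) := by
      filter_upwards [hPne, hev, hval, hU hH1] with j hj1 hj2 hj3 hj4
      have hK1 : 1 ≤ K j := by
        obtain ⟨k', h, hk', _⟩ := hj4
        omega
      have hKm : max (K j) 1 = K j := max_eq_left hK1
      obtain ⟨b1, b2, _⟩ := hbd j
      rw [hKm] at b1 b2
      have hη : 0 ≤ C1 / D * w j := mul_nonneg (div_nonneg hC10 hD0.le) (hw j).le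
      obtain ⟨z, hz1, hz2⟩ := hroot (P j) lam δ (C1 / D * w j) e hj1 he1 hδ hη hj3 hj2
      refine ⟨P j, hj1, b1, b2.trans ?_, z, hz1, hz2.trans ?_⟩
      · apply mul_le_mul_of_nonneg_right _ (by positivity)
        exact (le_max_right _ _).trans (le_max_right _ _)
      · have h5 : ((P j).natDegree : ℝ) ≤ (Fintype.card A : ℝ) * K j := by exact_mod_cast b1
        have h6 : C1 / D * w j / δ ≤ C * w j := by
          have : C1 / D * w j / δ = C1 / D / δ * w j := by ring
          rw [this]
          apply mul_le_mul_of_nonneg_right _ (hw j).le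
          exact (le_max_left _ _).trans (le_max_right _ _)
        apply mul_le_mul h5 _ (by positivity) (by positivity)
        exact Real.rpow_le_rpow (div_nonneg hη hδ.le) h6 (by positivity)
    exact hfinal.frequently.filter_mono hU

end H517.EO
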