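import Pool.Agent.H517R2.EO.Basic

set_option autoImplicit false

open Finset

namespace H517.EO

namespace TA9

theorem HR_cond_fst {Ω Ω' β : Type} [Fintype Ω] [Fintype Ω'] (F : Ω × Ω' → β) :
    HR (fun x : Ω × Ω' => (F x, x.1)) = avg (fun u => HR (fun v => F (u, v))) := by
  classical
  unfold HR
  rw [avg_prod]
  refine avg_congr fun u => avg_congr fun v => ?_
  congr 1
  unfold fib
  congr 1
  apply Finset.card_bij (fun (x : Ω × Ω') _ => x.2)
  · intro x hx
    rw [mem_fiber] at hx ⊢
    simp only [Prod.mk.injEq] at hx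
    obtain ⟨h1, h2⟩ := hx
    rw [← h1, ← h2]
  · intro x hx y hy hxy
    rw [mem_fiber] at hx hy
    simp only [Prod.mk.injEq] at hx hy
    exact Prod.ext (hx.2.trans hy.2.symm) hxy
  · intro v' hv'
    rw [mem_fiber] at hv'
    refine ⟨(u, v'), ?_, rfl⟩
    rw [mem_fiber]
    simp only [Prod.mk.injEq, and_true]
    exact hv'

theorem exists_avg_le {Ω : Type} [Fintype Ω] [Nonempty Ω] (φ : Ω → ℝ) : ∃ u, avg φ ≤ φ u := by
  by_contra h
  push Not at h
  have h1 : avg φ < avg φ := by
    conv_rhs => unfold avg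
    rw [lt_div_iff₀ (by exact_mod_cast Fintype.card_pos)]
    calc avg φ * (Fintype.card Ω : ℝ) = ∑ _p : Ω, avg φ := by
          rw [Finset.sum_const, Finset.card_univ, nsmul_eq_mul, mul_comm]
      _ = ∑ _p : Ω, avg φ := rfl
      _ < _ := ?_
    exact absurd (Finset.sum_lt_sum_of_nonempty Finset.univ_nonempty (fun u _ => h u)) (by
      unfold avg
      rw [Finset.sum_const, Finset.card_univ, nsmul_eq_mul, mul_div_assoc', mul_comm,
        mul_div_assoc, div_self (by exact_mod_cast Fintype.card_ne_zero), mul_one]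
      exact lt_irrefl _)
  exact lt_irrefl _ h1

theorem HR_le {Ω β : Type} [Fintype Ω] [Nonempty Ω] (f : Ω → β) :
    HR f ≤ Real.log (Fintype.card Ω : ℝ) := by
  unfold HR
  exact avg_le_of_le fun p => Real.log_le_log (fib_pos f p) (fib_le_card f p)

/-- the basic function -/
noncomputable def gg {A : Type} (lam : ℝ) (t : A → ℝ) (τ : A → A → PowerSeries ℤ) (k : ℕ)
    (w s : ℝ) : (Fin k → A) → (A → PowerSeries ℤ) × ℤ :=
  fun p => (YY τ p, ⌊XX lam t p / w + s⌋)

theorem gg_append {A : Type} [Fintype A] (lam : ℝ) (t : A → ℝ) (τ : A → A → PowerSeries ℤ)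
    (l k : ℕ) (w s : ℝ) (hlam : 0 < lam) (hw : 0 < w) (u : Fin l → A) :
    HR (fun v : Fin k → A => gg lam t τ (l + k) w s (Fin.append u v)) =
      HR (gg lam t τ k (w / lam ^ l) (XX lam t u / w + s)) := by
  apply HR_congr
  intro p q
  unfold gg
  have hX : ∀ v : Fin k → A, XX lam t (Fin.append u v) / w + s
      = XX lam t v / (w / lam ^ l) + (XX lam t u / w + s) := by
    intro v
    rw [XX_append]
    have : lam ^ l ≠ 0 := by positivity
    field_simp
    ring
  have hY : YY τ (Fin.append u p) = YY τ (Fin.append u q) ↔ YY τ p = YY τ q := by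
    constructor
    · intro h
      funext c
      have := congrFun h c
      rw [YY_append, YY_append, add_right_inj] at this
      exact mul_left_cancel₀ (pow_ne_zero _ PowerSeries.X_ne_zero) this
    · intro h
      funext c
      rw [YY_append, YY_append, h]
  rw [Prod.mk.injEq, Prod.mk.injEq, hX, hX, hY]

theorem step {A : Type} [Fintype A] [Nonempty A] (lam : ℝ) (t : A → ℝ)
    (τ : A → A → PowerSeries ℤ) (l k : ℕ) (w s : ℝ) (hlam : 0 < lam) (hw : 0 < w)
    (h : l ≤ l + k) :
    ∃ s' : ℝ, HR (gg lam t τ (l + k) w s) ≤ condH (pre h) (gg lam t τ (l + k) w s) +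
      HR (gg lam t τ k (w / lam ^ l) s') := by
  have h1 : HR (fun p => (gg lam t τ (l + k) w s p, pre h p)) =
      avg (fun u : Fin l → A => HR (gg lam t τ k (w / lam ^ l) (XX lam t u / w + s))) := by
    rw [HR_append]
    have h2 : (fun x : (Fin l → A) × (Fin k → A) =>
        (gg lam t τ (l + k) w s (Fin.append x.1 x.2), pre h (Fin.append x.1 x.2)))
        = fun x : (Fin l → A) × (Fin k → A) =>
        ((fun x : (Fin l → A) × (Fin k → A) => gg lam t τ (l + k) w s (Fin.append x.1 x.2)) x, x.1) := by
      funext x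
      rw [pre_append]
    rw [h2, HR_cond_fst]
    exact avg_congr fun u => gg_append lam t τ l k w s hlam hw u
  obtain ⟨u, hu⟩ := exists_avg_le (fun u : Fin l → A =>
    HR (gg lam t τ k (w / lam ^ l) (XX lam t u / w + s)))
  refine ⟨XX lam t u / w + s, ?_⟩
  unfold condH
  rw [h1]
  linarith

end TA9

open TA9 in
theorem t_A_chain : A_chain := by
  intro A _ _ lam t τ hA hlam hlam1 c hc l hl
  haveI : Nonempty A := Fintype.card_pos_iff.1 (by omega)
  set m : ℝ := (Fintype.card A : ℝ) with hm
  have hm1 : (1 : ℝ) ≤ m := by rw [hm]; exact_mod_cast (by omega : 1 ≤ Fintype.card A)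
  have hlogm : 0 ≤ Real.log m := Real.log_nonneg hm1
  have main : ∀ k : ℕ, ∀ w : ℝ, 0 < w → ∀ s : ℝ,
      (∃ (k' : ℕ) (h : l ≤ k'), k' ≤ k ∧ ∃ s' w' : ℝ, 0 < w' ∧ w' ≤ w / lam ^ k ∧
        c / 2 * l ≤ condH (pre h) (gg lam t τ k' w' s')) ∨
      HR (gg lam t τ k w s) ≤ c / 2 * k + l * Real.log m := by
    intro k
    induction k using Nat.strong_induction_on with
    | _ k ih =>
      intro w hw s
      by_cases hk : k < l
      · right
        have h1 := HR_le (gg lam t τ k w s)
        have h2 : (Fintype.card (Fin k → A) : ℝ) = m ^ k := by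
          rw [Fintype.card_fun, Fintype.card_fin]
          push_cast
          rfl
        rw [h2, Real.log_pow] at h1
        have h3 : (k : ℝ) * Real.log m ≤ l * Real.log m :=
          mul_le_mul_of_nonneg_right (by exact_mod_cast hk.le) hlogm
        have h4 : 0 ≤ c / 2 * (k : ℝ) := by positivity
        linarith
      · push Not at hk
        obtain ⟨k', rfl⟩ := Nat.exists_eq_add_of_le hk
        by_cases hcond : c / 2 * l ≤ condH (pre hk) (gg lam t τ (l + k') w s)
        · left
          refine ⟨l + k', hk, le_rfl, s, w, hw, ?_, hcond⟩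
          rw [le_div_iff₀ (by positivity)]
          have : lam ^ (l + k') ≤ 1 := pow_le_one₀ hlam.le hlam1.le
          nlinarith
        · push Not at hcond
          obtain ⟨s', hs'⟩ := step lam t τ l k' w s hlam hw hk
          rcases ih k' (by omega) (w / lam ^ l) (by positivity) s' with h | h
          · left
            obtain ⟨k2, h2, h3, s2, w2, h4, h5, h6⟩ := h
            refine ⟨k2, h2, by omega, s2, w2, h4, ?_, h6⟩
            rw [pow_add, ← div_div]
            exact h5
          · right
            push_cast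
            linarith
  refine ⟨⌈2 * l * Real.log m / c⌉₊ + 1, fun k hk w hw hHW => ?_⟩
  rcases main k w hw 0 with h | h
  · exact h
  · exfalso
    have h1 : HW lam t τ k w = HR (gg lam t τ k w 0) := by
      unfold HW gg
      simp only [add_zero]
    rw [h1] at hHW
    have h2 : 2 * l * Real.log m / c < k := by
      have h3 : 2 * l * Real.log m / c ≤ ⌈2 * l * Real.log m / c⌉₊ := Nat.le_ceil _
      have h4 : ((⌈2 * l * Real.log m / c⌉₊ : ℝ) + 1) ≤ k := by exact_mod_cast hk
      linarith
    rw [div_lt_iff₀ hc] at h2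
    nlinarith

end H517.EO
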