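import Pool.Agent.H517R2.EO.Basic

/-!
# TEAM EO : size of a determinant of polynomials
-/

set_option autoImplicit false

open Finset

namespace H517.EO

namespace ABds

/-- the polynomial of absolute values -/
noncomputable def AP (P : Polynomial ℤ) : Polynomial ℝ :=
  ∑ i ∈ Finset.range (P.natDegree + 1), Polynomial.C |((P.coeff i : ℤ) : ℝ)| * Polynomial.X ^ i

theorem AP_coeff (P : Polynomial ℤ) (k : ℕ) : (AP P).coeff k = |((P.coeff k : ℤ) : ℝ)| := by
  unfold AP
  rw [Polynomial.finsetSum_coeff]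
  simp only [Polynomial.coeff_C_mul, Polynomial.coeff_X_pow]
  rcases Nat.lt_or_ge k (P.natDegree + 1) with h | h
  · rw [Finset.sum_eq_single k]
    · simp
    · intro b _ hb
      rw [if_neg (Ne.symm hb), mul_zero]
    · intro hk
      exact absurd (Finset.mem_range.2 h) hk
  · rw [Finset.sum_eq_zero]
    · rw [Polynomial.coeff_eq_zero_of_natDegree_lt (by omega)]
      simp
    · intro b hb
      rw [Finset.mem_range] at hb
      rw [if_neg (by omega), mul_zero]

theorem AP_natDegree (P : Polynomial ℤ) : (AP P).natDegree ≤ P.natDegree := by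
  rw [Polynomial.natDegree_le_iff_coeff_eq_zero]
  intro N hN
  rw [AP_coeff, Polynomial.coeff_eq_zero_of_natDegree_lt hN]
  simp

theorem L1_eq_eval (P : Polynomial ℤ) : L1 P = (AP P).eval 1 := by
  rw [Polynomial.eval_eq_sum_range' (Nat.lt_succ_of_le (AP_natDegree P))]
  unfold L1
  refine Finset.sum_congr rfl fun i _ => ?_
  rw [AP_coeff, one_pow, mul_one]

theorem L1_eq_range (P : Polynomial ℤ) (N : ℕ) (h : P.natDegree < N) :
    L1 P = ∑ i ∈ Finset.range N, |((P.coeff i : ℤ) : ℝ)| := by
  rw [L1_eq_eval, Polynomial.eval_eq_sum_range' (lt_of_le_of_lt (AP_natDegree P) h)]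
  refine Finset.sum_congr rfl fun i _ => ?_
  rw [AP_coeff, one_pow, mul_one]

theorem L1_nonneg (P : Polynomial ℤ) : 0 ≤ L1 P := Finset.sum_nonneg fun _ _ => abs_nonneg _

theorem L1_add (P Q : Polynomial ℤ) : L1 (P + Q) ≤ L1 P + L1 Q := by
  set N := max P.natDegree Q.natDegree + 1 with hN
  have h1 : (P + Q).natDegree < N :=
    lt_of_le_of_lt (Polynomial.natDegree_add_le P Q) (Nat.lt_succ_self _)
  have h2 : P.natDegree < N := lt_of_le_of_lt (le_max_left _ _) (Nat.lt_succ_self _)
  have h3 : Q.natDegree < N := lt_of_le_of_lt (le_max_right _ _) (Nat.lt_succ_self _)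
  rw [L1_eq_range _ N h1, L1_eq_range _ N h2, L1_eq_range _ N h3, ← Finset.sum_add_distrib]
  refine Finset.sum_le_sum fun i _ => ?_
  rw [Polynomial.coeff_add]
  push_cast
  exact abs_add_le _ _

theorem L1_zero : L1 (0 : Polynomial ℤ) = 0 := by
  unfold L1
  simp

theorem L1_one : L1 (1 : Polynomial ℤ) = 1 := by
  unfold L1
  simp

theorem L1_sum {ι : Type} (s : Finset ι) (f : ι → Polynomial ℤ) :
    L1 (∑ i ∈ s, f i) ≤ ∑ i ∈ s, L1 (f i) := by
  classical
  induction s using Finset.induction_on with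
  | empty => simp [L1_zero]
  | insert a s ha ih =>
    rw [Finset.sum_insert ha, Finset.sum_insert ha]
    exact le_trans (L1_add _ _) (by linarith)

theorem L1_mul (P Q : Polynomial ℤ) : L1 (P * Q) ≤ L1 P * L1 Q := by
  have hd : ((AP P) * (AP Q)).natDegree < P.natDegree + Q.natDegree + 1 :=
    lt_of_le_of_lt (Polynomial.natDegree_mul_le)
      (Nat.lt_succ_of_le (add_le_add (AP_natDegree P) (AP_natDegree Q)))
  have hd2 : (P * Q).natDegree < P.natDegree + Q.natDegree + 1 :=
    Nat.lt_succ_of_le Polynomial.natDegree_mul_le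
  rw [L1_eq_range _ _ hd2, L1_eq_eval P, L1_eq_eval Q, ← Polynomial.eval_mul,
    Polynomial.eval_eq_sum_range' hd]
  refine Finset.sum_le_sum fun i _ => ?_
  rw [one_pow, mul_one, Polynomial.coeff_mul, Polynomial.coeff_mul]
  push_cast
  refine le_trans (Finset.abs_sum_le_sum_abs _ _) (Finset.sum_le_sum fun x _ => ?_)
  rw [abs_mul, AP_coeff, AP_coeff]

theorem L1_units_smul (u : ℤˣ) (P : Polynomial ℤ) : L1 (u • P) = L1 P := by
  rcases Int.units_eq_one_or u with h | h
  · rw [h, one_smul]
  · rw [h]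
    have : (-1 : ℤˣ) • P = -P := by
      rw [Units.smul_def]
      simp
    rw [this]
    unfold L1
    rw [Polynomial.natDegree_neg]
    refine Finset.sum_congr rfl fun i _ => ?_
    rw [Polynomial.coeff_neg]
    push_cast
    rw [abs_neg]

theorem natDegree_units_smul (u : ℤˣ) (P : Polynomial ℤ) : (u • P).natDegree = P.natDegree := by
  rcases Int.units_eq_one_or u with h | h
  · rw [h, one_smul]
  · rw [h]
    have : (-1 : ℤˣ) • P = -P := by
      rw [Units.smul_def]
      simp
    rw [this, Polynomial.natDegree_neg]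

theorem abs_coeff_units_smul (u : ℤˣ) (P : Polynomial ℤ) (i : ℕ) :
    |(((u • P).coeff i : ℤ) : ℝ)| = |((P.coeff i : ℤ) : ℝ)| := by
  rcases Int.units_eq_one_or u with h | h
  · rw [h, one_smul]
  · rw [h]
    have : (-1 : ℤˣ) • P = -P := by
      rw [Units.smul_def]
      simp
    rw [this, Polynomial.coeff_neg]
    push_cast
    rw [abs_neg]

theorem prod_coeff {ι : Type} (s : Finset ι) (f : ι → Polynomial ℤ)
    (hf : ∀ a i, |(f a).coeff i| ≤ 1) (i : ℕ) :
    |(((∏ a ∈ s, f a).coeff i : ℤ) : ℝ)| ≤ ((i : ℝ) + 1) ^ s.card := by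
  classical
  induction s using Finset.induction_on generalizing i with
  | empty =>
    rw [Finset.prod_empty, Finset.card_empty, pow_zero, Polynomial.coeff_one]
    split_ifs <;> simp
  | insert a s ha ih =>
    rw [Finset.prod_insert ha, Finset.card_insert_of_notMem ha, Polynomial.coeff_mul]
    push_cast
    refine le_trans (Finset.abs_sum_le_sum_abs _ _) ?_
    have h1 : ∀ x ∈ (Finset.HasAntidiagonal.antidiagonal i : Finset (ℕ × ℕ)),
        |((((f a).coeff x.1 : ℤ) : ℝ)) * (((∏ b ∈ s, f b).coeff x.2 : ℤ) : ℝ)| ≤ ((i : ℝ) + 1) ^ s.card := by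
      intro x hx
      rw [abs_mul]
      have e1 : |(((f a).coeff x.1 : ℤ) : ℝ)| ≤ 1 := by
        have := hf a x.1
        exact_mod_cast this
      have e2 := ih x.2
      have e3 : ((x.2 : ℝ) + 1) ^ s.card ≤ ((i : ℝ) + 1) ^ s.card := by
        apply pow_le_pow_left₀ (by positivity)
        have : x.2 ≤ i := by
          have := Finset.HasAntidiagonal.mem_antidiagonal.1 hx
          omega
        have : (x.2 : ℝ) ≤ i := by exact_mod_cast this
        linarith
      calc |(((f a).coeff x.1 : ℤ) : ℝ)| * |(((∏ b ∈ s, f b).coeff x.2 : ℤ) : ℝ)|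
          ≤ 1 * ((i : ℝ) + 1) ^ s.card :=
            mul_le_mul e1 (le_trans e2 e3) (abs_nonneg _) zero_le_one
        _ = _ := one_mul _
    refine le_trans (Finset.sum_le_sum h1) ?_
    rw [Finset.sum_const, Finset.Nat.card_antidiagonal, nsmul_eq_mul, pow_succ]
    push_cast
    rw [mul_comm]

end ABds

open ABds in
theorem t_A_bds : A_bds := by
  intro A _ _ c K hK h1 h2 h3
  have hdet : (Matrix.of c).det = ∑ σ : Equiv.Perm A, Equiv.Perm.sign σ • ∏ i, c (σ i) i := by
    rw [Matrix.det_apply]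
    rfl
  have hK' : (1 : ℝ) ≤ K := by exact_mod_cast hK
  refine ⟨?_, ?_, ?_⟩
  · rw [hdet]
    refine Polynomial.natDegree_sum_le_of_forall_le _ _ fun σ _ => ?_
    rw [natDegree_units_smul]
    refine le_trans (Polynomial.natDegree_prod_le _ _) ?_
    refine le_trans (Finset.sum_le_sum fun i _ => h1 (σ i) i) ?_
    rw [Finset.sum_const, Finset.card_univ, smul_eq_mul]
  · rw [hdet]
    refine le_trans (L1_sum _ _) ?_
    have hprod : ∀ (s : Finset A) (g : A → Polynomial ℤ), (∀ a, L1 (g a) ≤ K) →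
        L1 (∏ a ∈ s, g a) ≤ (K : ℝ) ^ s.card := by
      intro s g hg
      induction s using Finset.induction_on with
      | empty => simp [L1_one]
      | insert a s ha ih =>
        rw [Finset.prod_insert ha, Finset.card_insert_of_notMem ha, pow_succ']
        refine le_trans (L1_mul _ _) ?_
        exact mul_le_mul (hg a) ih (L1_nonneg _) (by positivity)
    have h4 : ∀ σ ∈ (Finset.univ : Finset (Equiv.Perm A)),
        L1 (Equiv.Perm.sign σ • ∏ i, c (σ i) i) ≤ (K : ℝ) ^ (Fintype.card A) := by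
      intro σ _
      rw [L1_units_smul]
      exact hprod Finset.univ (fun i => c (σ i) i) fun a => h3 _ _
    refine le_trans (Finset.sum_le_sum h4) ?_
    rw [Finset.sum_const, Finset.card_univ, Fintype.card_perm, nsmul_eq_mul]
  · intro i
    rw [hdet, Polynomial.finsetSum_coeff]
    push_cast
    refine le_trans (Finset.abs_sum_le_sum_abs _ _) ?_
    have h4 : ∀ σ ∈ (Finset.univ : Finset (Equiv.Perm A)),
        |(((Equiv.Perm.sign σ • ∏ i, c (σ i) i).coeff i : ℤ) : ℝ)| ≤ ((i : ℝ) + 1) ^ (Fintype.card A) := by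
      intro σ _
      rw [abs_coeff_units_smul]
      exact prod_coeff Finset.univ (fun a => c (σ a) a) (fun a j => h2 _ _ j) i
    refine le_trans (Finset.sum_le_sum h4) ?_
    rw [Finset.sum_const, Finset.card_univ, Fintype.card_perm, nsmul_eq_mul]

end H517.EO
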