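import Pool.Agent.H517R2.EO.Basic

/-!
# TEAM EO : task D1, one pair of points under a random dyadic shift
-/

set_option autoImplicit false

open Finset MeasureTheory

namespace H517.EO

namespace D1

variable {Ω β : Type} [Fintype Ω]

theorem meas_fib (κ : Ω → β) (x : Ω → ℝ) (a : ℝ) (p : Ω) :
    Measurable (fun ξ : ℝ => fib (fun r => (κ r, ⌊a * (x r + ξ)⌋)) p) := by
  classical
  have e : (fun ξ : ℝ => fib (fun r => (κ r, ⌊a * (x r + ξ)⌋)) p) = fun ξ : ℝ =>
      ∑ r, if κ r = κ p ∧ ⌊a * (x r + ξ)⌋ = ⌊a * (x p + ξ)⌋ then (1 : ℝ) else 0 := by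
    funext ξ
    unfold fib fiber
    rw [Finset.card_filter]
    push_cast
    refine Finset.sum_congr rfl fun r _ => ?_
    simp only [Prod.mk.injEq]
  rw [e]
  refine Finset.measurable_sum _ fun r _ => ?_
  by_cases h : κ r = κ p
  · simp only [h, true_and]
    refine Measurable.ite ?_ measurable_const measurable_const
    exact measurableSet_eq_fun (by fun_prop) (by fun_prop)
  · simp only [h, false_and, if_false]
    exact measurable_const

/-- bounded measurable functions are integrable -/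
theorem intble {f : ℝ → ℝ} (hf : Measurable f) (C : ℝ) (hC : ∀ u, |f u| ≤ C) (a b : ℝ) :
    IntervalIntegrable f volume a b := by
  refine IntervalIntegrable.mono_fun (g := f) (f := fun _ => C) intervalIntegrable_const
    hf.aestronglyMeasurable ?_
  refine Filter.Eventually.of_forall fun u => ?_
  show ‖f u‖ ≤ |C|
  rw [Real.norm_eq_abs]
  exact (hC u).trans (le_abs_self C)

/-- averaging a function of the fractional part over shifts -/
theorem per (G : ℝ → ℝ) (hG : Measurable G) (C : ℝ) (hC : ∀ u, |G u| ≤ C) (n : ℕ) (x : ℝ) :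
    (∫ ξ in (0 : ℝ)..1, G (Int.fract ((2 : ℝ) ^ n * (x + ξ)))) = ∫ u in (0 : ℝ)..1, G u := by
  set g : ℝ → ℝ := fun u => G (Int.fract u) with hg
  have hgm : Measurable g := hG.comp measurable_fract
  have hgp : Function.Periodic g 1 := fun u => by simp [hg]
  have hgi : ∀ a b, IntervalIntegrable g volume a b := fun a b => intble hgm C (fun u => hC _) a b
  have hc : (2 : ℝ) ^ n ≠ 0 := by positivity
  have h1 : (∫ ξ in (0 : ℝ)..1, G (Int.fract ((2 : ℝ) ^ n * (x + ξ)))) =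
      ∫ ξ in (0 : ℝ)..1, g ((2 : ℝ) ^ n * ξ + (2 : ℝ) ^ n * x) := by
    refine intervalIntegral.integral_congr fun ξ _ => ?_
    simp only [hg]
    congr 2
    ring
  rw [h1, intervalIntegral.integral_comp_mul_add g hc]
  have h2 : (2 : ℝ) ^ n * 1 + (2 : ℝ) ^ n * x =
      ((2 : ℝ) ^ n * 0 + (2 : ℝ) ^ n * x) + ((2 ^ n : ℕ) : ℤ) • (1 : ℝ) := by
    simp; ring
  rw [h2, hgp.intervalIntegral_add_zsmul_eq _ _ hgi]
  rw [hgp.intervalIntegral_add_eq _ 0]
  simp only [zero_add, zsmul_eq_mul, smul_eq_mul]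
  push_cast
  rw [← mul_assoc, inv_mul_cancel₀ hc, one_mul]
  refine intervalIntegral.integral_congr_ae ?_
  rw [Set.uIoc_of_le zero_le_one]
  have h3 : ∀ᵐ u : ℝ, u ≠ 1 := by
    simp [ae_iff]
  filter_upwards [h3] with u hu hu2
  simp only [hg]
  congr 1
  rw [Int.fract_eq_self]
  exact ⟨hu2.1.le, lt_of_le_of_ne hu2.2 hu⟩

theorem ind_le (S : Set ℝ) [∀ u, Decidable (u ∈ S)] (hS : MeasurableSet S) (a b : ℝ) (hab : a ≤ b) (h : S ⊆ Set.Icc a b) :
    (∫ u in (0 : ℝ)..1, if u ∈ S then (1 : ℝ) else 0) ≤ b - a := by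
  have e : (fun u : ℝ => if u ∈ S then (1 : ℝ) else 0) = S.indicator 1 := by
    funext u; simp [Set.indicator_apply]
  rw [e, intervalIntegral.integral_of_le zero_le_one, integral_indicator_one hS]
  rw [measureReal_restrict_apply hS]
  have : volume.real (Set.Icc a b) = b - a := by
    rw [Real.volume_real_Icc_of_le hab]
  rw [← this]
  exact measureReal_mono (Set.inter_subset_left.trans h) (by simp)

theorem le_ind (S : Set ℝ) [∀ u, Decidable (u ∈ S)] (hS : MeasurableSet S) (a b : ℝ) (hab : a ≤ b) (ha : 0 ≤ a) (hb : b ≤ 1)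
    (h : Set.Ioo a b ⊆ S) :
    b - a ≤ (∫ u in (0 : ℝ)..1, if u ∈ S then (1 : ℝ) else 0) := by
  have e : (fun u : ℝ => if u ∈ S then (1 : ℝ) else 0) = S.indicator 1 := by
    funext u; simp [Set.indicator_apply]
  rw [e, intervalIntegral.integral_of_le zero_le_one, integral_indicator_one hS]
  rw [measureReal_restrict_apply hS]
  have : volume.real (Set.Ioo a b) = b - a := by
    rw [Real.volume_real_Ioo_of_le hab]
  rw [← this]
  refine measureReal_mono ?_ ?_
  · intro u hu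
    exact ⟨h hu, lt_of_le_of_lt ha hu.1, (hu.2.trans_le hb).le⟩
  · exact (measure_mono Set.inter_subset_right).trans_lt (by simp) |>.ne


theorem meas_L (κ : Ω → β) (x : Ω → ℝ) (p p' : Ω) (q : ℕ) :
    Measurable (fun ξ : ℝ => if ⌊(2 : ℝ) ^ q * (x p + ξ)⌋ = ⌊(2 : ℝ) ^ q * (x p' + ξ)⌋ ∧
       ⌊(2 : ℝ) ^ (q + 1) * (x p + ξ)⌋ ≠ ⌊(2 : ℝ) ^ (q + 1) * (x p' + ξ)⌋
    then 1 / fib (fun r => (κ r, ⌊(2 : ℝ) ^ q * (x r + ξ)⌋)) p else 0) := by
  refine Measurable.ite ?_ (measurable_const.div (meas_fib κ x _ p)) measurable_const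
  refine MeasurableSet.inter (measurableSet_eq_fun (by fun_prop) (by fun_prop)) ?_
  exact (measurableSet_eq_fun (by fun_prop) (by fun_prop)).compl

theorem meas_R (κ : Ω → β) (x : Ω → ℝ) (p p' : Ω) (a c : ℝ) :
    Measurable (fun ξ : ℝ => if ⌊a * (x p + ξ)⌋ = ⌊a * (x p' + ξ)⌋
    then c / fib (fun r => (κ r, ⌊a * (x r + ξ)⌋)) p else 0) := by
  refine Measurable.ite ?_ (measurable_const.div (meas_fib κ x _ p)) measurable_const
  exact measurableSet_eq_fun (by fun_prop) (by fun_prop)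

theorem int_L (κ : Ω → β) (x : Ω → ℝ) (p p' : Ω) (q : ℕ) :
    IntervalIntegrable (fun ξ : ℝ =>
      if ⌊(2 : ℝ) ^ q * (x p + ξ)⌋ = ⌊(2 : ℝ) ^ q * (x p' + ξ)⌋ ∧
       ⌊(2 : ℝ) ^ (q + 1) * (x p + ξ)⌋ ≠ ⌊(2 : ℝ) ^ (q + 1) * (x p' + ξ)⌋
    then 1 / fib (fun r => (κ r, ⌊(2 : ℝ) ^ q * (x r + ξ)⌋)) p else 0) volume 0 1 := by
  refine intble (meas_L κ x p p' q) 1 (fun ξ => ?_) 0 1
  have h := one_le_fib (fun r => (κ r, ⌊(2 : ℝ) ^ q * (x r + ξ)⌋)) p
  split
  · rw [abs_of_nonneg (by positivity), div_le_one (by linarith)]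
    exact h
  · simp

theorem int_R (κ : Ω → β) (x : Ω → ℝ) (p p' : Ω) (a c : ℝ) (hc : 0 ≤ c) :
    IntervalIntegrable (fun ξ : ℝ => if ⌊a * (x p + ξ)⌋ = ⌊a * (x p' + ξ)⌋
    then c / fib (fun r => (κ r, ⌊a * (x r + ξ)⌋)) p else 0) volume 0 1 := by
  refine intble (meas_R κ x p p' a c) c (fun ξ => ?_) 0 1
  have h := one_le_fib (fun r => (κ r, ⌊a * (x r + ξ)⌋)) p
  split
  · rw [abs_of_nonneg (by positivity)]
    exact div_le_self hc h
  · simpa using hc

theorem floor2 (u u' δ : ℝ) (h : |u - u'| ≤ δ) (h1 : ⌊u⌋ = ⌊u'⌋) (h2 : ⌊2 * u⌋ ≠ ⌊2 * u'⌋) :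
    Int.fract u ∈ Set.Icc (1 / 2 - δ) (1 / 2 + δ) := by
  by_contra hc
  apply h2
  have a1 := Int.floor_add_fract u
  have a2 := Int.floor_add_fract u'
  have b1 := Int.fract_nonneg u
  have b2 := Int.fract_nonneg u'
  have c1 := Int.fract_lt_one u
  have c2 := Int.fract_lt_one u'
  obtain ⟨h3, h4⟩ := abs_le.1 h
  rw [h1] at a1
  rw [Set.mem_Icc, not_and_or, not_le, not_le] at hc
  rcases hc with hc | hc
  · have e1 : ⌊2 * u⌋ = 2 * ⌊u'⌋ := by
      rw [Int.floor_eq_iff]; push_cast; constructor <;> linarith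
    have e2 : ⌊2 * u'⌋ = 2 * ⌊u'⌋ := by
      rw [Int.floor_eq_iff]; push_cast; constructor <;> linarith
    rw [e1, e2]
  · have e1 : ⌊2 * u⌋ = 2 * ⌊u'⌋ + 1 := by
      rw [Int.floor_eq_iff]; push_cast; constructor <;> linarith
    have e2 : ⌊2 * u'⌋ = 2 * ⌊u'⌋ + 1 := by
      rw [Int.floor_eq_iff]; push_cast; constructor <;> linarith
    rw [e1, e2]

theorem floor_near (u v : ℝ) (hu : Int.fract u ∈ Set.Icc (3 / 8 : ℝ) (5 / 8)) (h : |v - u| ≤ 1 / 4) :
    ⌊v⌋ = ⌊u⌋ := by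
  have a1 := Int.floor_add_fract u
  obtain ⟨h3, h4⟩ := abs_le.1 h
  obtain ⟨h5, h6⟩ := hu
  rw [Int.floor_eq_iff]
  constructor <;> linarith

end D1

open D1 in
theorem t_D_pair : D_pair := by
  intro Ω β _ κ x p p' q hκ
  classical
  by_cases h0 : x p = x p'
  · refine ⟨0, ?_⟩
    simp [h0]
  set δ : ℝ := (2 : ℝ) ^ q * |x p - x p'| with hδ
  have hd0 : 0 < |x p - x p'| := abs_pos.2 (sub_ne_zero.2 h0)
  have hδ0 : 0 < δ := by positivity
  by_cases h1 : 1 / 8 < δ
  · refine ⟨0, ?_⟩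
    simp only [pow_zero, mul_one, add_zero]
    rw [← intervalIntegral.integral_const_mul]
    refine intervalIntegral.integral_mono_on zero_le_one (int_L κ x p p' q)
      ((int_R κ x p p' _ _ (sq_nonneg _)).const_mul 64) fun ξ _ => ?_
    have hf := one_le_fib (fun r => (κ r, ⌊(2 : ℝ) ^ q * (x r + ξ)⌋)) p
    by_cases hA : ⌊(2 : ℝ) ^ q * (x p + ξ)⌋ = ⌊(2 : ℝ) ^ q * (x p' + ξ)⌋
    · rw [if_pos hA]
      have hsq : 1 ≤ 64 * ((2 : ℝ) ^ q * (x p - x p')) ^ 2 := by
        have e : ((2 : ℝ) ^ q * (x p - x p')) ^ 2 = δ ^ 2 := by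
          rw [hδ, mul_pow, mul_pow, sq_abs]
        rw [e]; nlinarith
      have hle : 1 / fib (fun r => (κ r, ⌊(2 : ℝ) ^ q * (x r + ξ)⌋)) p ≤
          64 * (((2 : ℝ) ^ q * (x p - x p')) ^ 2 /
            fib (fun r => (κ r, ⌊(2 : ℝ) ^ q * (x r + ξ)⌋)) p) := by
        rw [← mul_div_assoc]
        exact div_le_div_of_nonneg_right hsq (by linarith)
      split
      · exact hle
      · exact le_trans (by positivity) hle
    · rw [if_neg (fun h => hA h.1), if_neg hA, mul_zero]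
  · -- the points are close
    rw [not_lt] at h1
    obtain ⟨n, hn1, hn2⟩ := exists_nat_pow_near_of_lt_one (x := δ) (y := (1 / 2 : ℝ)) hδ0
      (by linarith) (by norm_num) (by norm_num)
    have hn3 : 3 ≤ n := by
      by_contra hlt
      have : (1 / 2 : ℝ) ^ 3 ≤ (1 / 2 : ℝ) ^ (n + 1) :=
        pow_le_pow_of_le_one (by norm_num) (by norm_num) (by omega)
      norm_num at this
      norm_num at hn1
      linarith
    obtain ⟨i, rfl⟩ : ∃ i, n = i + 1 := ⟨n - 1, by omega⟩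
    have hi2 : 2 ≤ i := by omega
    refine ⟨i, ?_⟩
    set ε : ℝ := (2 : ℝ) ^ (q + i) * |x p - x p'| with hε
    have hεδ : ε = 2 ^ i * δ := by rw [hε, hδ, pow_add]; ring
    have h2i : (2 : ℝ) ^ i * (1 / 2) ^ i = 1 := by rw [← mul_pow]; norm_num
    have hε1 : 1 / 4 < ε := by
      rw [hεδ]
      calc (1 / 4 : ℝ) = 2 ^ i * (1 / 2) ^ i * (1 / 4) := by rw [h2i]; norm_num
        _ = 2 ^ i * (1 / 2) ^ (i + 1 + 1) := by ring
        _ < 2 ^ i * δ := by
          exact mul_lt_mul_of_pos_left hn1 (by positivity)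
    have hε2 : ε ≤ 1 / 2 := by
      rw [hεδ]
      calc (2 : ℝ) ^ i * δ ≤ 2 ^ i * (1 / 2) ^ (i + 1) :=
            mul_le_mul_of_nonneg_left hn2 (by positivity)
        _ = 2 ^ i * (1 / 2) ^ i * (1 / 2) := by ring
        _ = 1 / 2 := by rw [h2i]; norm_num
    set Bs : Finset Ω := univ.filter (fun r => κ r = κ p ∧ (2 : ℝ) ^ q * |x r - x p| ≤ 1 / 4)
      with hBs
    set Bn : ℝ := (Bs.card : ℝ) with hBn
    have hBn0 : 0 < Bn := by
      rw [hBn]
      have : p ∈ Bs := by simp [hBs]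
      exact_mod_cast Finset.card_pos.2 ⟨p, this⟩
    -- left side
    have hleft : (∫ ξ in (0 : ℝ)..1,
        if ⌊(2 : ℝ) ^ q * (x p + ξ)⌋ = ⌊(2 : ℝ) ^ q * (x p' + ξ)⌋ ∧
          ⌊(2 : ℝ) ^ (q + 1) * (x p + ξ)⌋ ≠ ⌊(2 : ℝ) ^ (q + 1) * (x p' + ξ)⌋
        then 1 / fib (fun r => (κ r, ⌊(2 : ℝ) ^ q * (x r + ξ)⌋)) p else 0) ≤
        1 / Bn * (1 / 2) ^ i := by
      have hm : Measurable (fun u : ℝ => if u ∈ Set.Icc (1 / 2 - δ) (1 / 2 + δ) then (1 : ℝ) else 0) :=
        Measurable.ite measurableSet_Icc measurable_const measurable_const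
      have hper := per (fun u : ℝ => if u ∈ Set.Icc (1 / 2 - δ) (1 / 2 + δ) then (1 : ℝ) else 0) hm 1
        (fun u => by split <;> simp) q (x p)
      have hS := ind_le (Set.Icc (1 / 2 - δ) (1 / 2 + δ)) measurableSet_Icc (1 / 2 - δ) (1 / 2 + δ)
        (by linarith) subset_rfl
      have hint : IntervalIntegrable (fun ξ : ℝ => 1 / Bn *
          (if Int.fract ((2 : ℝ) ^ q * (x p + ξ)) ∈ Set.Icc (1 / 2 - δ) (1 / 2 + δ)
            then (1 : ℝ) else 0)) volume 0 1 := by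
        refine (intble (C := 1) ?_ (fun u => by split <;> simp) 0 1).const_mul (1 / Bn)
        refine Measurable.ite ?_ measurable_const measurable_const
        exact (by fun_prop : Measurable fun ξ : ℝ => Int.fract ((2 : ℝ) ^ q * (x p + ξ)))
          measurableSet_Icc
      have hle := intervalIntegral.integral_mono_on zero_le_one (int_L κ x p p' q) hint
        fun ξ _ => ?_
      · refine hle.trans ?_
        rw [intervalIntegral.integral_const_mul, hper]
        refine mul_le_mul_of_nonneg_left ?_ (by positivity)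
        refine hS.trans ?_
        calc 1 / 2 + δ - (1 / 2 - δ) = 2 * δ := by ring
          _ ≤ 2 * (1 / 2) ^ (i + 1) := by linarith
          _ = (1 / 2) ^ i := by ring
      · by_cases hc : ⌊(2 : ℝ) ^ q * (x p + ξ)⌋ = ⌊(2 : ℝ) ^ q * (x p' + ξ)⌋ ∧
          ⌊(2 : ℝ) ^ (q + 1) * (x p + ξ)⌋ ≠ ⌊(2 : ℝ) ^ (q + 1) * (x p' + ξ)⌋
        · rw [if_pos hc]
          have hfr := floor2 ((2 : ℝ) ^ q * (x p + ξ)) ((2 : ℝ) ^ q * (x p' + ξ)) δ (by
              rw [← mul_sub, abs_mul, abs_of_pos (by positivity : (0 : ℝ) < 2 ^ q), hδ]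
              apply le_of_eq; congr 2; ring) hc.1 (by
              have e1 : ∀ z : ℝ, (2 : ℝ) ^ (q + 1) * z = 2 * (2 ^ q * z) := fun z => by ring
              rw [← e1, ← e1]; exact hc.2)
          rw [if_pos hfr, mul_one]
          refine one_div_le_one_div_of_le hBn0 ?_
          unfold fib
          rw [hBn]
          refine Nat.cast_le.2 (Finset.card_le_card fun r hr => ?_)
          rw [hBs, Finset.mem_filter] at hr
          rw [mem_fiber]
          obtain ⟨-, hr1, hr2⟩ := hr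
          rw [Prod.mk.injEq]
          refine ⟨hr1, floor_near _ _ ?_ ?_⟩
          · exact ⟨by linarith [hfr.1], by linarith [hfr.2]⟩
          · rw [← mul_sub, abs_mul, abs_of_pos (by positivity : (0 : ℝ) < 2 ^ q)]
            refine le_trans (le_of_eq ?_) hr2
            congr 2; ring
        · rw [if_neg hc]
          split
          · positivity
          · simp
    -- right side
    have hfibR : ∀ ξ : ℝ, fib (fun r => (κ r, ⌊(2 : ℝ) ^ (q + i) * (x r + ξ)⌋)) p ≤ Bn := by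
      intro ξ
      unfold fib
      rw [hBn]
      refine Nat.cast_le.2 (Finset.card_le_card fun r hr => ?_)
      rw [mem_fiber, Prod.mk.injEq] at hr
      rw [hBs, Finset.mem_filter]
      refine ⟨Finset.mem_univ _, hr.1, ?_⟩
      have h3 := Int.abs_sub_lt_one_of_floor_eq_floor hr.2
      rw [← mul_sub, abs_mul, abs_of_pos (by positivity : (0 : ℝ) < 2 ^ (q + i))] at h3
      have h4 : x r + ξ - (x p + ξ) = x r - x p := by ring
      rw [h4, pow_add] at h3
      have h5 : (4 : ℝ) ≤ 2 ^ i := by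
        calc (4 : ℝ) = 2 ^ 2 := by norm_num
          _ ≤ 2 ^ i := pow_le_pow_right₀ (by norm_num) hi2
      have h6 : 0 ≤ (2 : ℝ) ^ q * |x r - x p| := by positivity
      nlinarith
    have hright : (1 / 16 / Bn) * (1 - ε) ≤ ∫ ξ in (0 : ℝ)..1,
        if ⌊(2 : ℝ) ^ (q + i) * (x p + ξ)⌋ = ⌊(2 : ℝ) ^ (q + i) * (x p' + ξ)⌋
        then ((2 : ℝ) ^ (q + i) * (x p - x p')) ^ 2
          / fib (fun r => (κ r, ⌊(2 : ℝ) ^ (q + i) * (x r + ξ)⌋)) p else 0 := by
      obtain ⟨S, hS, a, b, hab, ha, hb, hba, hSs, hSf⟩ : ∃ S : Set ℝ, MeasurableSet S ∧ ∃ a b : ℝ,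
          a ≤ b ∧ 0 ≤ a ∧ b ≤ 1 ∧ b - a = 1 - ε ∧ Set.Ioo a b ⊆ S ∧
          ∀ ξ : ℝ, Int.fract ((2 : ℝ) ^ (q + i) * (x p + ξ)) ∈ S →
            ⌊(2 : ℝ) ^ (q + i) * (x p + ξ)⌋ = ⌊(2 : ℝ) ^ (q + i) * (x p' + ξ)⌋ := by
        rcases lt_or_gt_of_ne h0 with hlt | hlt
        · refine ⟨Set.Ioo 0 (1 - ε), measurableSet_Ioo, 0, 1 - ε, by linarith, le_rfl, by linarith,
            by ring, subset_rfl, fun ξ hξ => ?_⟩
          have a1 := Int.floor_add_fract ((2 : ℝ) ^ (q + i) * (x p + ξ))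
          have a2 : (2 : ℝ) ^ (q + i) * (x p' + ξ) = (2 : ℝ) ^ (q + i) * (x p + ξ) + ε := by
            rw [hε, abs_of_neg (by linarith)]; ring
          symm
          rw [Int.floor_eq_iff, a2]
          constructor <;> linarith [hξ.1, hξ.2]
        · refine ⟨Set.Ioo ε 1, measurableSet_Ioo, ε, 1, by linarith, by linarith, le_rfl,
            by ring, subset_rfl, fun ξ hξ => ?_⟩
          have a1 := Int.floor_add_fract ((2 : ℝ) ^ (q + i) * (x p + ξ))
          have a2 : (2 : ℝ) ^ (q + i) * (x p' + ξ) = (2 : ℝ) ^ (q + i) * (x p + ξ) - ε := by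
            rw [hε, abs_of_pos (by linarith)]; ring
          symm
          rw [Int.floor_eq_iff, a2]
          constructor <;> linarith [hξ.1, hξ.2]
      have hm : Measurable (fun u : ℝ => if u ∈ S then (1 : ℝ) else 0) :=
        Measurable.ite hS measurable_const measurable_const
      have hper := per (fun u : ℝ => if u ∈ S then (1 : ℝ) else 0) hm 1
        (fun u => by split <;> simp) (q + i) (x p)
      have hI := le_ind S hS a b hab ha hb hSs
      have hint : IntervalIntegrable (fun ξ : ℝ => 1 / 16 / Bn *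
          (if Int.fract ((2 : ℝ) ^ (q + i) * (x p + ξ)) ∈ S then (1 : ℝ) else 0)) volume 0 1 := by
        refine (intble (C := 1) ?_ (fun u => by split <;> simp) 0 1).const_mul (1 / 16 / Bn)
        refine Measurable.ite ?_ measurable_const measurable_const
        exact (by fun_prop : Measurable fun ξ : ℝ => Int.fract ((2 : ℝ) ^ (q + i) * (x p + ξ))) hS
      have hle := intervalIntegral.integral_mono_on zero_le_one hint
        (int_R κ x p p' ((2 : ℝ) ^ (q + i)) (((2 : ℝ) ^ (q + i) * (x p - x p')) ^ 2) (sq_nonneg _))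
        fun ξ _ => ?_
      · refine le_trans ?_ hle
        rw [intervalIntegral.integral_const_mul, hper]
        refine mul_le_mul_of_nonneg_left ?_ (by positivity)
        linarith
      · have hf := one_le_fib (fun r => (κ r, ⌊(2 : ℝ) ^ (q + i) * (x r + ξ)⌋)) p
        by_cases hc : Int.fract ((2 : ℝ) ^ (q + i) * (x p + ξ)) ∈ S
        · rw [if_pos hc, if_pos (hSf ξ hc), mul_one]
          have e : ((2 : ℝ) ^ (q + i) * (x p - x p')) ^ 2 = ε ^ 2 := by
            rw [hε, mul_pow, mul_pow, sq_abs]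
          rw [e]
          exact div_le_div₀ (by positivity) (by nlinarith) (by linarith) (hfibR ξ)
        · rw [if_neg hc, mul_zero]
          split
          · positivity
          · exact le_rfl
    calc _ ≤ 1 / Bn * (1 / 2) ^ i := hleft
      _ ≤ 64 * (1 / 2) ^ i * ((1 / 16 / Bn) * (1 - ε)) := by
        have e : 64 * (1 / 2 : ℝ) ^ i * ((1 / 16 / Bn) * (1 - ε)) =
            (1 / Bn * (1 / 2) ^ i) * (4 * (1 - ε)) := by ring
        rw [e]
        have : 0 ≤ 1 / Bn * (1 / 2 : ℝ) ^ i := by positivity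
        nlinarith
      _ ≤ _ := mul_le_mul_of_nonneg_left hright (by positivity)

end H517.EO
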