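import Pool.Agent.H517R2.EO.Basic

/-!
# TEAM EO, task D2 : from quadratic leaks to the drop of entropy (dyadic scales)
-/

set_option autoImplicit false

open Finset MeasureTheory

namespace H517.EO

namespace DD

variable {Ω β γ : Type} [Fintype Ω]

theorem floor_two (y : ℝ) : ⌊2 * y⌋ = 2 * ⌊y⌋ ∨ ⌊2 * y⌋ = 2 * ⌊y⌋ + 1 := by
  have h1 := Int.floor_le y
  have h2 := Int.lt_floor_add_one y
  have h5 : 2 * ⌊y⌋ ≤ ⌊2 * y⌋ := Int.le_floor.2 (by push_cast; linarith)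
  have h6 : ⌊2 * y⌋ < 2 * ⌊y⌋ + 2 := Int.floor_lt.2 (by push_cast; linarith)
  omega

open Classical in
theorem fib_sum (f : Ω → β) (p : Ω) : fib f p = ∑ r, if f r = f p then (1 : ℝ) else 0 := by
  unfold fib fiber
  rw [Finset.card_filter]
  push_cast
  rfl

open Classical in
theorem one_sub_fib (f : Ω → β) (c : Ω → γ) (p : Ω) :
    1 - fib (fun q => (f q, c q)) p / fib f p =
      ∑ p', if f p' = f p ∧ c p' ≠ c p then 1 / fib f p else 0 := by
  have h0 := fib_pos f p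
  have h1 : fib f p = fib (fun q => (f q, c q)) p +
      ∑ p', if f p' = f p ∧ c p' ≠ c p then (1 : ℝ) else 0 := by
    rw [fib_sum f p, fib_sum (fun q => (f q, c q)) p, ← Finset.sum_add_distrib]
    refine Finset.sum_congr rfl fun r _ => ?_
    by_cases h2 : f r = f p
    · by_cases h3 : c r = c p
      · simp [h2, h3]
      · simp [h2, h3]
    · simp [h2]
  have h4 : (∑ p', if f p' = f p ∧ c p' ≠ c p then 1 / fib f p else 0) =
      (∑ p', if f p' = f p ∧ c p' ≠ c p then (1 : ℝ) else 0) / fib f p := by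
    rw [Finset.sum_div]
    refine Finset.sum_congr rfl fun r _ => ?_
    split_ifs
    · rfl
    · rw [zero_div]
  rw [h4, eq_div_iff h0.ne', sub_mul, div_mul_cancel₀ _ h0.ne']
  linarith

/-- the partition at level `q` with shift `ξ` -/
noncomputable def Fq (κ : Ω → β) (x : Ω → ℝ) (q : ℕ) (ξ : ℝ) : Ω → β × ℤ :=
  fun p => (κ p, ⌊(2 : ℝ) ^ q * (x p + ξ)⌋)

theorem Fq_det (κ : Ω → β) (x : Ω → ℝ) (q : ℕ) (ξ : ℝ) (p : Ω) :
    ⌊(2 : ℝ) ^ (q + 1) * (x p + ξ)⌋ = 2 * ⌊(2 : ℝ) ^ q * (x p + ξ)⌋ ∨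
    ⌊(2 : ℝ) ^ (q + 1) * (x p + ξ)⌋ = 2 * ⌊(2 : ℝ) ^ q * (x p + ξ)⌋ + 1 := by
  have h : (2 : ℝ) ^ (q + 1) * (x p + ξ) = 2 * ((2 : ℝ) ^ q * (x p + ξ)) := by
    rw [pow_succ]; ring
  rw [h]
  exact floor_two _

open Classical in
/-- the separation at level `q` with shift `ξ` -/
noncomputable def sep (κ : Ω → β) (x : Ω → ℝ) (q : ℕ) (ξ : ℝ) : ℝ :=
  avg (fun p => ∑ p', if κ p = κ p' then
    (if ⌊(2 : ℝ) ^ q * (x p + ξ)⌋ = ⌊(2 : ℝ) ^ q * (x p' + ξ)⌋ ∧
       ⌊(2 : ℝ) ^ (q + 1) * (x p + ξ)⌋ ≠ ⌊(2 : ℝ) ^ (q + 1) * (x p' + ξ)⌋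
    then 1 / fib (fun r => (κ r, ⌊(2 : ℝ) ^ q * (x r + ξ)⌋)) p else 0) else 0)

theorem drop_one (hb : E_bin) (κ : Ω → β) (x : Ω → ℝ) (q : ℕ) (ξ : ℝ) (M : ℝ) (hM : 1 ≤ M) :
    HR (Fq κ x q ξ) - HR (Fq κ x (q + 1) ξ) ≤ sep κ x q ξ * Real.log M + 1 / M := by
  classical
  have h1 := hb Ω (β × ℤ) ℤ (Fq κ x q ξ) (fun p => ⌊(2 : ℝ) ^ (q + 1) * (x p + ξ)⌋) M hM ?_
  · have h2 : HR (fun p => (Fq κ x q ξ p, ⌊(2 : ℝ) ^ (q + 1) * (x p + ξ)⌋)) =
        HR (Fq κ x (q + 1) ξ) := by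
      apply HR_congr
      intro p p'
      simp only [Fq, Prod.mk.injEq]
      constructor
      · rintro ⟨⟨h3, h4⟩, h5⟩
        exact ⟨h3, h5⟩
      · rintro ⟨h3, h5⟩
        refine ⟨⟨h3, ?_⟩, h5⟩
        rcases Fq_det κ x q ξ p with h6 | h6 <;> rcases Fq_det κ x q ξ p' with h7 | h7 <;> omega
    rw [h2] at h1
    have h3 : avg (fun p => 1 - fib (fun q_1 => (Fq κ x q ξ q_1,
        ⌊(2 : ℝ) ^ (q + 1) * (x q_1 + ξ)⌋)) p / fib (Fq κ x q ξ) p) = sep κ x q ξ := by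
      unfold sep
      refine avg_congr fun p => ?_
      rw [one_sub_fib]
      refine Finset.sum_congr rfl fun p' _ => ?_
      by_cases hk : κ p = κ p'
      · rw [if_pos hk]
        have : (Fq κ x q ξ p' = Fq κ x q ξ p ∧
            ⌊(2 : ℝ) ^ (q + 1) * (x p' + ξ)⌋ ≠ ⌊(2 : ℝ) ^ (q + 1) * (x p + ξ)⌋) ↔
            (⌊(2 : ℝ) ^ q * (x p + ξ)⌋ = ⌊(2 : ℝ) ^ q * (x p' + ξ)⌋ ∧
            ⌊(2 : ℝ) ^ (q + 1) * (x p + ξ)⌋ ≠ ⌊(2 : ℝ) ^ (q + 1) * (x p' + ξ)⌋) := by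
          simp only [Fq, Prod.mk.injEq]
          constructor
          · rintro ⟨⟨_, h⟩, h'⟩
            exact ⟨h.symm, fun h'' => h' h''.symm⟩
          · rintro ⟨h, h'⟩
            exact ⟨⟨hk.symm, h.symm⟩, fun h'' => h' h''.symm⟩
        by_cases hc : (⌊(2 : ℝ) ^ q * (x p + ξ)⌋ = ⌊(2 : ℝ) ^ q * (x p' + ξ)⌋ ∧
            ⌊(2 : ℝ) ^ (q + 1) * (x p + ξ)⌋ ≠ ⌊(2 : ℝ) ^ (q + 1) * (x p' + ξ)⌋)
        · rw [if_pos (this.2 hc), if_pos hc]
          rfl
        · rw [if_neg (fun h => hc (this.1 h)), if_neg hc]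
      · rw [if_neg hk, if_neg]
        rintro ⟨h, _⟩
        simp only [Fq, Prod.mk.injEq] at h
        exact hk h.1.symm
    rw [h3] at h1
    exact h1
  · intro p
    have : ((fiber (Fq κ x q ξ) p : Set Ω).image (fun p => ⌊(2 : ℝ) ^ (q + 1) * (x p + ξ)⌋)) ⊆
        (({2 * ⌊(2 : ℝ) ^ q * (x p + ξ)⌋, 2 * ⌊(2 : ℝ) ^ q * (x p + ξ)⌋ + 1} : Finset ℤ) :
          Set ℤ) := by
      rintro _ ⟨r, hr, rfl⟩
      rw [Finset.mem_coe, mem_fiber] at hr
      simp only [Fq, Prod.mk.injEq] at hr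
      have h4 := Fq_det κ x q ξ r
      rw [hr.2] at h4
      simpa using h4
    calc _ ≤ Set.ncard (({2 * ⌊(2 : ℝ) ^ q * (x p + ξ)⌋,
          2 * ⌊(2 : ℝ) ^ q * (x p + ξ)⌋ + 1} : Finset ℤ) : Set ℤ) :=
          Set.ncard_le_ncard this (Finset.finite_toSet _)
      _ ≤ 2 := by
          rw [Set.ncard_coe_finset]
          exact Finset.card_le_two

theorem drop_sum (hb : E_bin) (κ : Ω → β) (x : Ω → ℝ) (q0 q1 : ℕ) (h01 : q0 ≤ q1) (ξ : ℝ) (M : ℝ)
    (hM : 1 ≤ M) :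
    HR (Fq κ x q0 ξ) - HR (Fq κ x q1 ξ) ≤
      (∑ q ∈ Finset.Ico q0 q1, sep κ x q ξ) * Real.log M + ((q1 : ℝ) - q0) / M := by
  induction q1, h01 using Nat.le_induction with
  | base => simp
  | succ q h ih =>
    have h1 := drop_one hb κ x q ξ M hM
    rw [Finset.sum_Ico_succ_top h, add_mul]
    have h2 : (((q + 1 : ℕ) : ℝ) - q0) / M = ((q : ℝ) - q0) / M + 1 / M := by
      push_cast
      ring
    rw [h2]
    linarith

/-! ### measurability -/

theorem meas_eq (x : Ω → ℝ) (q : ℕ) (p p' : Ω) :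
    MeasurableSet {ξ : ℝ | ⌊(2 : ℝ) ^ q * (x p + ξ)⌋ = ⌊(2 : ℝ) ^ q * (x p' + ξ)⌋} :=
  measurableSet_eq_fun (Int.measurable_floor.comp (by fun_prop))
    (Int.measurable_floor.comp (by fun_prop))

theorem meas_fib (κ : Ω → β) (x : Ω → ℝ) (q : ℕ) (p : Ω) :
    Measurable (fun ξ : ℝ => fib (fun r => (κ r, ⌊(2 : ℝ) ^ q * (x r + ξ)⌋)) p) := by
  classical
  simp only [fib_sum]
  refine Finset.measurable_sum _ fun r _ => ?_
  refine Measurable.ite ?_ measurable_const measurable_const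
  by_cases h : κ r = κ p
  · have : {a : ℝ | (κ r, ⌊(2 : ℝ) ^ q * (x r + a)⌋) = (κ p, ⌊(2 : ℝ) ^ q * (x p + a)⌋)} =
        {ξ : ℝ | ⌊(2 : ℝ) ^ q * (x r + ξ)⌋ = ⌊(2 : ℝ) ^ q * (x p + ξ)⌋} := by
      ext ξ
      simp [h]
    rw [this]
    exact meas_eq x q r p
  · have : {a : ℝ | (κ r, ⌊(2 : ℝ) ^ q * (x r + a)⌋) = (κ p, ⌊(2 : ℝ) ^ q * (x p + a)⌋)} = ∅ := by
      ext ξ
      simp [h]
    rw [this]
    exact MeasurableSet.empty

theorem ii_bdd {f : ℝ → ℝ} (hm : Measurable f) (C : ℝ) (hb : ∀ ξ, |f ξ| ≤ C) :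
    IntervalIntegrable f volume 0 1 := by
  rw [intervalIntegrable_iff_integrableOn_Ioc_of_le zero_le_one]
  refine Measure.integrableOn_of_bounded (M := C) (by simp) hm.aestronglyMeasurable ?_
  exact Filter.Eventually.of_forall fun ξ => by rw [Real.norm_eq_abs]; exact hb ξ

theorem ii_sum {ι : Type} (s : Finset ι) (f : ι → ℝ → ℝ)
    (h : ∀ i ∈ s, IntervalIntegrable (f i) volume 0 1) :
    IntervalIntegrable (fun ξ => ∑ i ∈ s, f i ξ) volume 0 1 := by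
  have h1 := IntervalIntegrable.sum s h
  have h2 : (∑ i ∈ s, f i) = fun ξ => ∑ i ∈ s, f i ξ := by
    funext ξ
    rw [Finset.sum_apply]
  rw [h2] at h1
  exact h1

open Classical in
/-- left integrand -/
noncomputable def Li (κ : Ω → β) (x : Ω → ℝ) (q : ℕ) (p p' : Ω) (ξ : ℝ) : ℝ :=
  if ⌊(2 : ℝ) ^ q * (x p + ξ)⌋ = ⌊(2 : ℝ) ^ q * (x p' + ξ)⌋ ∧
       ⌊(2 : ℝ) ^ (q + 1) * (x p + ξ)⌋ ≠ ⌊(2 : ℝ) ^ (q + 1) * (x p' + ξ)⌋
    then 1 / fib (fun r => (κ r, ⌊(2 : ℝ) ^ q * (x r + ξ)⌋)) p else 0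

open Classical in
/-- right integrand -/
noncomputable def Ri (κ : Ω → β) (x : Ω → ℝ) (q : ℕ) (p p' : Ω) (ξ : ℝ) : ℝ :=
  if ⌊(2 : ℝ) ^ q * (x p + ξ)⌋ = ⌊(2 : ℝ) ^ q * (x p' + ξ)⌋
    then ((2 : ℝ) ^ q * (x p - x p')) ^ 2 / fib (fun r => (κ r, ⌊(2 : ℝ) ^ q * (x r + ξ)⌋)) p
    else 0

theorem Li_ii (κ : Ω → β) (x : Ω → ℝ) (q : ℕ) (p p' : Ω) :
    IntervalIntegrable (Li κ x q p p') volume 0 1 := by
  classical
  refine ii_bdd ?_ 1 fun ξ => ?_
  · unfold Li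
    refine Measurable.ite ?_ (measurable_const.div (meas_fib κ x q p)) measurable_const
    exact (meas_eq x q p p').inter (meas_eq x (q + 1) p p').compl
  · unfold Li
    have h0 := one_le_fib (fun r => (κ r, ⌊(2 : ℝ) ^ q * (x r + ξ)⌋)) p
    split_ifs
    · rw [abs_of_nonneg (by positivity)]
      rw [div_le_one (by linarith)]
      exact h0
    · simp

theorem Ri_nonneg (κ : Ω → β) (x : Ω → ℝ) (q : ℕ) (p p' : Ω) (ξ : ℝ) :
    0 ≤ Ri κ x q p p' ξ := by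
  unfold Ri
  have h0 := fib_pos (fun r => (κ r, ⌊(2 : ℝ) ^ q * (x r + ξ)⌋)) p
  split_ifs
  · positivity
  · exact le_refl _

theorem Ri_ii (κ : Ω → β) (x : Ω → ℝ) (q : ℕ) (p p' : Ω) :
    IntervalIntegrable (Ri κ x q p p') volume 0 1 := by
  classical
  refine ii_bdd ?_ (((2 : ℝ) ^ q * (x p - x p')) ^ 2) fun ξ => ?_
  · unfold Ri
    exact Measurable.ite (meas_eq x q p p') (measurable_const.div (meas_fib κ x q p))
      measurable_const
  · rw [abs_of_nonneg (Ri_nonneg _ _ _ _ _ _)]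
    unfold Ri
    have h0 := one_le_fib (fun r => (κ r, ⌊(2 : ℝ) ^ q * (x r + ξ)⌋)) p
    split_ifs
    · exact div_le_self (by positivity) h0
    · positivity

open Classical in
theorem int_sep (κ : Ω → β) (x : Ω → ℝ) (q : ℕ) :
    (∫ ξ in (0 : ℝ)..1, sep κ x q ξ) =
      avg (fun p => ∑ p', if κ p = κ p' then (∫ ξ in (0 : ℝ)..1, Li κ x q p p' ξ) else 0) := by
  have h1 : ∀ p p', IntervalIntegrable
      (fun ξ => if κ p = κ p' then Li κ x q p p' ξ else 0) volume 0 1 := by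
    intro p p'
    by_cases h : κ p = κ p'
    · simp only [h, if_true]
      exact Li_ii κ x q p p'
    · simp only [h, if_false]
      exact intervalIntegrable_const
  have h2 : ∀ ξ, sep κ x q ξ = (∑ p, ∑ p', if κ p = κ p' then Li κ x q p p' ξ else 0) /
      (Fintype.card Ω : ℝ) := fun ξ => rfl
  unfold avg
  simp only [h2]
  rw [intervalIntegral.integral_div]
  rw [intervalIntegral.integral_finsetSum]
  · congr 1
    refine Finset.sum_congr rfl fun p _ => ?_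
    rw [intervalIntegral.integral_finsetSum]
    · refine Finset.sum_congr rfl fun p' _ => ?_
      by_cases h : κ p = κ p'
      · simp only [h, if_true]
      · simp only [h, if_false, intervalIntegral.integral_zero]
    · exact fun p' _ => h1 p p'
  · intro p _
    exact ii_sum _ _ fun p' _ => h1 p p'

open Classical in
theorem sep_ii (κ : Ω → β) (x : Ω → ℝ) (q : ℕ) :
    IntervalIntegrable (sep κ x q) volume 0 1 := by
  have h1 : ∀ p p', IntervalIntegrable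
      (fun ξ => if κ p = κ p' then Li κ x q p p' ξ else 0) volume 0 1 := by
    intro p p'
    by_cases h : κ p = κ p'
    · simp only [h, if_true]
      exact Li_ii κ x q p p'
    · simp only [h, if_false]
      exact intervalIntegrable_const
  have h2 : sep κ x q = fun ξ => (∑ p, ∑ p', if κ p = κ p' then Li κ x q p p' ξ else 0) /
      (Fintype.card Ω : ℝ) := rfl
  rw [h2]
  refine IntervalIntegrable.div_const ?_ _
  refine ii_sum _ _ fun p _ => ?_
  exact ii_sum _ _ fun p' _ => h1 p p'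

open Classical in
theorem int_Ri (κ : Ω → β) (x : Ω → ℝ) (q : ℕ) (e : ℝ)
    (h : ∀ ξ : ℝ, 0 ≤ ξ → ξ ≤ 1 →
    avg (fun p => (∑ p' ∈ fiber (fun p => (κ p, ⌊(2 : ℝ) ^ q * (x p + ξ)⌋)) p,
        ((2 : ℝ) ^ q * (x p - x p')) ^ 2) / fib (fun p => (κ p, ⌊(2 : ℝ) ^ q * (x p + ξ)⌋)) p)
      ≤ e) :
    avg (fun p => ∑ p', if κ p = κ p' then (∫ ξ in (0 : ℝ)..1, Ri κ x q p p' ξ) else 0) ≤ e := by
  have h1 : ∀ p p', IntervalIntegrable
      (fun ξ => if κ p = κ p' then Ri κ x q p p' ξ else 0) volume 0 1 := by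
    intro p p'
    by_cases h : κ p = κ p'
    · simp only [h, if_true]
      exact Ri_ii κ x q p p'
    · simp only [h, if_false]
      exact intervalIntegrable_const
  have hii : IntervalIntegrable (fun ξ => (∑ p, ∑ p', if κ p = κ p' then Ri κ x q p p' ξ else 0) /
      (Fintype.card Ω : ℝ)) volume 0 1 := by
    refine IntervalIntegrable.div_const ?_ _
    refine ii_sum _ _ fun p _ => ?_
    exact ii_sum _ _ fun p' _ => h1 p p'
  have h3 : (∫ ξ in (0 : ℝ)..1, (∑ p, ∑ p', if κ p = κ p' then Ri κ x q p p' ξ else 0) /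
      (Fintype.card Ω : ℝ)) =
      avg (fun p => ∑ p', if κ p = κ p' then (∫ ξ in (0 : ℝ)..1, Ri κ x q p p' ξ) else 0) := by
    unfold avg
    rw [intervalIntegral.integral_div]
    rw [intervalIntegral.integral_finsetSum]
    · congr 1
      refine Finset.sum_congr rfl fun p _ => ?_
      rw [intervalIntegral.integral_finsetSum]
      · refine Finset.sum_congr rfl fun p' _ => ?_
        by_cases h : κ p = κ p'
        · simp only [h, if_true]
        · simp only [h, if_false, intervalIntegral.integral_zero]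
      · exact fun p' _ => h1 p p'
    · intro p _
      exact ii_sum _ _ fun p' _ => h1 p p'
  rw [← h3]
  have h4 : (∫ ξ in (0 : ℝ)..1, (∑ p, ∑ p', if κ p = κ p' then Ri κ x q p p' ξ else 0) /
      (Fintype.card Ω : ℝ)) ≤ ∫ ξ in (0 : ℝ)..1, e := by
    refine intervalIntegral.integral_mono_on zero_le_one hii intervalIntegrable_const ?_
    intro ξ hξ
    refine le_trans (le_of_eq ?_) (h ξ hξ.1 hξ.2)
    unfold avg
    congr 1
    refine Finset.sum_congr rfl fun p _ => ?_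
    beta_reduce
    rw [Finset.sum_div]
    unfold fiber
    rw [Finset.sum_filter]
    refine Finset.sum_congr rfl fun p' _ => ?_
    by_cases hk : κ p = κ p'
    · rw [if_pos hk]
      unfold Ri
      by_cases hc : ⌊(2 : ℝ) ^ q * (x p + ξ)⌋ = ⌊(2 : ℝ) ^ q * (x p' + ξ)⌋
      · rw [if_pos hc, if_pos]
        exact Prod.ext hk.symm hc.symm
      · rw [if_neg hc, if_neg]
        intro h5
        simp only [Prod.mk.injEq] at h5
        exact hc h5.2.symm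
    · rw [if_neg hk, if_neg]
      intro h5
      simp only [Prod.mk.injEq] at h5
      exact hk h5.1.symm
  simpa using h4

theorem sum_weights (e : ℕ → ℝ) (he0 : ∀ q, 0 ≤ e q) (he1 : ∀ q, e q ≤ 1) (N : ℕ) (q0 q1 : ℕ)
    (h01 : q0 ≤ q1) :
    ∑ q ∈ Finset.Ico q0 q1, ∑ i ∈ Finset.range N, (1 / 2 : ℝ) ^ i * e (q + i) ≤
      2 * (1 + ∑ q ∈ Finset.Ico q0 q1, e q) := by
  set G : ℕ → ℝ := fun q => ∑ i ∈ Finset.range N, (1 / 2 : ℝ) ^ i * e (q + i) with hG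
  have hG0 : ∀ q, 0 ≤ G q := fun q => Finset.sum_nonneg fun i _ =>
    mul_nonneg (by positivity) (he0 _)
  have hG2 : ∀ q, G q ≤ 2 := by
    intro q
    have h1 : G q ≤ ∑ i ∈ Finset.range N, (1 / 2 : ℝ) ^ i :=
      Finset.sum_le_sum fun i _ => by
        have := mul_le_mul_of_nonneg_left (he1 (q + i)) (show (0 : ℝ) ≤ (1 / 2) ^ i by positivity)
        linarith
    have h2 : ∀ n : ℕ, ∑ i ∈ Finset.range n, (1 / 2 : ℝ) ^ i = 2 - 2 * (1 / 2) ^ n := by
      intro n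
      induction n with
      | zero => simp
      | succ n ih => rw [Finset.sum_range_succ, ih, pow_succ]; ring
    rw [h2] at h1
    have : (0 : ℝ) ≤ (1 / 2) ^ N := by positivity
    linarith
  have hGr : ∀ q, G q ≤ e q + G (q + 1) / 2 := by
    intro q
    rcases Nat.eq_zero_or_pos N with hN | hN
    · have h1 : G q = 0 := by simp [hG, hN]
      have := he0 q
      have := hG0 (q + 1)
      linarith
    · obtain ⟨n, rfl⟩ : ∃ n, N = n + 1 := ⟨N - 1, by omega⟩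
      have h1 : G q = e q + (∑ i ∈ Finset.range n, (1 / 2 : ℝ) ^ i * e (q + 1 + i)) / 2 := by
        simp only [hG]
        rw [Finset.sum_range_succ', Finset.sum_div]
        have : ∀ i, (1 / 2 : ℝ) ^ (i + 1) * e (q + (i + 1)) =
            (1 / 2 : ℝ) ^ i * e (q + 1 + i) / 2 := by
          intro i
          rw [show q + (i + 1) = q + 1 + i by ring, pow_succ]
          ring
        simp only [this]
        simp
        ring
      have h2 : ∑ i ∈ Finset.range n, (1 / 2 : ℝ) ^ i * e (q + 1 + i) ≤ G (q + 1) := by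
        simp only [hG]
        rw [Finset.sum_range_succ]
        have : 0 ≤ (1 / 2 : ℝ) ^ n * e (q + 1 + n) := mul_nonneg (by positivity) (he0 _)
        linarith
      linarith
  have h3 : ∑ q ∈ Finset.Ico q0 q1, G q ≤
      ∑ q ∈ Finset.Ico q0 q1, e q + (∑ q ∈ Finset.Ico q0 q1, G (q + 1)) / 2 := by
    rw [Finset.sum_div, ← Finset.sum_add_distrib]
    exact Finset.sum_le_sum fun q _ => hGr q
  have h4 : ∑ q ∈ Finset.Ico q0 q1, G (q + 1) ≤ ∑ q ∈ Finset.Ico q0 q1, G q + 2 := by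
    have h5 : ∑ q ∈ Finset.Ico q0 q1, G (q + 1) + G q0 =
        ∑ q ∈ Finset.Ico q0 q1, G q + G q1 := by
      induction q1, h01 using Nat.le_induction with
      | base => simp
      | succ q h ih =>
        have h6 : ∑ q ∈ Finset.Ico q0 q, G q ≤
            ∑ q ∈ Finset.Ico q0 q, e q + (∑ q ∈ Finset.Ico q0 q, G (q + 1)) / 2 := by
          rw [Finset.sum_div, ← Finset.sum_add_distrib]
          exact Finset.sum_le_sum fun q _ => hGr q
        have h7 := ih h6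
        rw [Finset.sum_Ico_succ_top h, Finset.sum_Ico_succ_top h]
        linarith
    have := hG0 q0
    have := hG2 q1
    linarith
  linarith

theorem log_three : 2 * Real.log 3 ≤ 3 := by
  have h1 : Real.log 9 ≤ 3 := by
    rw [Real.log_le_iff_le_exp (by norm_num)]
    have h2 := Real.exp_one_gt_d9
    have h3 : Real.exp 3 = Real.exp 1 ^ 3 := by
      rw [← Real.exp_nat_mul]; norm_num
    rw [h3]
    have h4 : (2.7 : ℝ) ^ 3 ≤ Real.exp 1 ^ 3 := pow_le_pow_left₀ (by norm_num) (by linarith) 3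
    have h5 : (9 : ℝ) ≤ (2.7 : ℝ) ^ 3 := by norm_num
    linarith
  have h2 : Real.log 9 = 2 * Real.log 3 := by
    rw [show (9 : ℝ) = 3 ^ 2 by norm_num, Real.log_pow]
    norm_num
  linarith

theorem grid_shift (hg : E_grid) (κ : Ω → β) (x : Ω → ℝ) (q : ℕ) (ξ : ℝ) :
    HR (fun p => (κ p, ⌊(2 : ℝ) ^ q * x p⌋)) ≤ HR (Fq κ x q ξ) + Real.log 3 ∧
    HR (Fq κ x q ξ) ≤ HR (fun p => (κ p, ⌊(2 : ℝ) ^ q * x p⌋)) + Real.log 3 := by
  have h2 : (0 : ℝ) < 2 ^ q := by positivity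
  have e1 : (fun p => (κ p, ⌊(2 : ℝ) ^ q * x p⌋)) =
      fun p => (κ p, ⌊x p / (1 / (2 : ℝ) ^ q) + 0⌋) := by
    funext p
    rw [add_zero, div_div_eq_mul_div, div_one, mul_comm]
  have e2 : Fq κ x q ξ = fun p => (κ p, ⌊x p / (1 / (2 : ℝ) ^ q) + 2 ^ q * ξ⌋) := by
    funext p
    unfold Fq
    rw [div_div_eq_mul_div, div_one, mul_add, mul_comm ((2 : ℝ) ^ q) (x p)]
  have h3 : (3 : ℝ) = 1 + 2 := by norm_num
  rw [e1, e2, h3]
  constructor
  · exact hg Ω β κ x _ _ 0 (2 ^ q * ξ) 1 (by positivity) (by positivity) zero_le_one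
      (by rw [one_mul])
  · exact hg Ω β κ x _ _ (2 ^ q * ξ) 0 1 (by positivity) (by positivity) zero_le_one
      (by rw [one_mul])

end DD

open DD in
/-- task D2 -/
theorem t_D_drop (h1 : D_pair) (h2 : E_bin) (h3 : E_grid) : D_drop := by
  classical
  intro Ω β _ _ κ x e he0 he1 hE q0 q1 h01 M hM
  have hlog : 0 ≤ Real.log M := Real.log_nonneg hM
  -- choose the levels
  have hch : ∀ p p' : Ω, ∀ q : ℕ, ∃ i : ℕ, κ p = κ p' →
      (∫ ξ in (0 : ℝ)..1, Li κ x q p p' ξ) ≤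
        64 * (1 / 2) ^ i * ∫ ξ in (0 : ℝ)..1, Ri κ x (q + i) p p' ξ := by
    intro p p' q
    by_cases hk : κ p = κ p'
    · obtain ⟨i, hi⟩ := h1 Ω β κ x p p' q hk
      exact ⟨i, fun _ => hi⟩
    · exact ⟨0, fun h => absurd h hk⟩
  choose I hI using hch
  let N : ℕ := (Finset.univ ×ˢ Finset.univ ×ˢ Finset.range q1 : Finset (Ω × Ω × ℕ)).sup
    (fun t => I t.1 t.2.1 t.2.2) + 1
  have hN : ∀ p p' q, q < q1 → I p p' q < N := by
    intro p p' q hq
    have : I p p' q ≤ (Finset.univ ×ˢ Finset.univ ×ˢ Finset.range q1 : Finset (Ω × Ω × ℕ)).sup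
        (fun t => I t.1 t.2.1 t.2.2) :=
      Finset.le_sup (f := fun t : Ω × Ω × ℕ => I t.1 t.2.1 t.2.2) (b := (p, p', q))
        (by simp [hq])
    omega
  have hJ0 : ∀ p p' q, 0 ≤ ∫ ξ in (0 : ℝ)..1, Ri κ x q p p' ξ := fun p p' q =>
    intervalIntegral.integral_nonneg zero_le_one fun ξ _ => Ri_nonneg _ _ _ _ _ _
  have hsep : ∀ q, q < q1 → (∫ ξ in (0 : ℝ)..1, sep κ x q ξ) ≤
      64 * ∑ i ∈ Finset.range N, (1 / 2 : ℝ) ^ i * e (q + i) := by
    intro q hq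
    rw [int_sep]
    have h4 : avg (fun p => ∑ p', if κ p = κ p' then
        (∫ ξ in (0 : ℝ)..1, Li κ x q p p' ξ) else 0) ≤
        avg (fun p => ∑ p', ∑ i ∈ Finset.range N, 64 * ((1 / 2 : ℝ) ^ i *
          if κ p = κ p' then (∫ ξ in (0 : ℝ)..1, Ri κ x (q + i) p p' ξ) else 0)) := by
      refine avg_mono fun p => Finset.sum_le_sum fun p' _ => ?_
      by_cases hk : κ p = κ p'
      · simp only [hk, if_true]
        have h5 := hI p p' q hk
        refine h5.trans ?_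
        have h6 := Finset.single_le_sum (s := Finset.range N)
          (f := fun i => 64 * ((1 / 2 : ℝ) ^ i * ∫ ξ in (0 : ℝ)..1, Ri κ x (q + i) p p' ξ))
          (fun i _ => mul_nonneg (by norm_num) (mul_nonneg (by positivity) (hJ0 _ _ _)))
          (Finset.mem_range.2 (hN p p' q hq))
        refine le_trans (le_of_eq ?_) h6
        ring
      · simp only [hk, if_false, mul_zero, Finset.sum_const_zero, le_refl]
    refine h4.trans ?_
    have h7 : avg (fun p => ∑ p', ∑ i ∈ Finset.range N, 64 * ((1 / 2 : ℝ) ^ i *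
          if κ p = κ p' then (∫ ξ in (0 : ℝ)..1, Ri κ x (q + i) p p' ξ) else 0)) =
        64 * ∑ i ∈ Finset.range N, (1 / 2 : ℝ) ^ i * avg (fun p => ∑ p',
          if κ p = κ p' then (∫ ξ in (0 : ℝ)..1, Ri κ x (q + i) p p' ξ) else 0) := by
      unfold avg
      simp only [← Finset.mul_sum]
      rw [mul_div_assoc, Finset.sum_div]
      congr 1
      have h8 : ∀ p : Ω, (∑ p', ∑ i ∈ Finset.range N, (1 / 2 : ℝ) ^ i *
          if κ p = κ p' then (∫ ξ in (0 : ℝ)..1, Ri κ x (q + i) p p' ξ) else 0) =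
          ∑ i ∈ Finset.range N, (1 / 2 : ℝ) ^ i * ∑ p',
          if κ p = κ p' then (∫ ξ in (0 : ℝ)..1, Ri κ x (q + i) p p' ξ) else 0 := by
        intro p
        rw [Finset.sum_comm]
        exact Finset.sum_congr rfl fun i _ => by rw [Finset.mul_sum]
      simp only [h8, Finset.sum_div]
      rw [Finset.sum_comm]
      refine Finset.sum_congr rfl fun i _ => ?_
      rw [Finset.mul_sum]
      exact Finset.sum_congr rfl fun p _ => by rw [mul_div_assoc, Finset.sum_div]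
    rw [h7]
    refine mul_le_mul_of_nonneg_left ?_ (by norm_num)
    refine Finset.sum_le_sum fun i _ => mul_le_mul_of_nonneg_left ?_ (by positivity)
    exact int_Ri κ x (q + i) (e (q + i)) (hE (q + i))
  have hpt : ∀ ξ : ℝ, HR (fun p => (κ p, ⌊(2 : ℝ) ^ q0 * x p⌋)) -
      HR (fun p => (κ p, ⌊(2 : ℝ) ^ q1 * x p⌋)) - 2 * Real.log 3 - ((q1 : ℝ) - q0) / M ≤
      (∑ q ∈ Finset.Ico q0 q1, sep κ x q ξ) * Real.log M := by
    intro ξ
    have h4 := drop_sum h2 κ x q0 q1 h01 ξ M hM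
    have h5 := (grid_shift h3 κ x q0 ξ).1
    have h6 := (grid_shift h3 κ x q1 ξ).2
    linarith
  have hint : HR (fun p => (κ p, ⌊(2 : ℝ) ^ q0 * x p⌋)) -
      HR (fun p => (κ p, ⌊(2 : ℝ) ^ q1 * x p⌋)) - 2 * Real.log 3 - ((q1 : ℝ) - q0) / M ≤
      (∑ q ∈ Finset.Ico q0 q1, ∫ ξ in (0 : ℝ)..1, sep κ x q ξ) * Real.log M := by
    rw [← intervalIntegral.integral_finsetSum (fun q _ => sep_ii κ x q),
      ← intervalIntegral.integral_mul_const]
    have h4 : (∫ ξ in (0 : ℝ)..1, (HR (fun p => (κ p, ⌊(2 : ℝ) ^ q0 * x p⌋)) -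
      HR (fun p => (κ p, ⌊(2 : ℝ) ^ q1 * x p⌋)) - 2 * Real.log 3 - ((q1 : ℝ) - q0) / M)) ≤
      ∫ ξ in (0 : ℝ)..1, (∑ q ∈ Finset.Ico q0 q1, sep κ x q ξ) * Real.log M := by
      refine intervalIntegral.integral_mono_on zero_le_one intervalIntegrable_const ?_
        fun ξ _ => hpt ξ
      exact (ii_sum _ _ fun q _ => sep_ii κ x q).mul_const _
    simpa using h4
  have hsum : ∑ q ∈ Finset.Ico q0 q1, ∫ ξ in (0 : ℝ)..1, sep κ x q ξ ≤
      128 * (1 + ∑ q ∈ Finset.Ico q0 q1, e q) := by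
    calc ∑ q ∈ Finset.Ico q0 q1, ∫ ξ in (0 : ℝ)..1, sep κ x q ξ ≤
        ∑ q ∈ Finset.Ico q0 q1, 64 * ∑ i ∈ Finset.range N, (1 / 2 : ℝ) ^ i * e (q + i) :=
          Finset.sum_le_sum fun q hq => hsep q (Finset.mem_Ico.1 hq).2
      _ = 64 * ∑ q ∈ Finset.Ico q0 q1, ∑ i ∈ Finset.range N, (1 / 2 : ℝ) ^ i * e (q + i) := by
          rw [Finset.mul_sum]
      _ ≤ 64 * (2 * (1 + ∑ q ∈ Finset.Ico q0 q1, e q)) :=
          mul_le_mul_of_nonneg_left (sum_weights e he0 he1 N q0 q1 h01) (by norm_num)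
      _ = _ := by ring
  have h9 := mul_le_mul_of_nonneg_right hsum hlog
  have h10 := log_three
  linarith

end H517.EO
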