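import Pool.Agent.H517R2.EO.Basic

/-!
# TEAM EO : task D3, from leaks to the drop of entropy at the scales `lam ^ n`
-/

set_option autoImplicit false

open Finset Filter MeasureTheory

namespace H517.EO

namespace D3

theorem pow_two_lam {lam : ℝ} (h0 : 0 < lam) (q n : ℕ) :
    (2:ℝ) ^ q * lam ^ n = Real.exp (q * Real.log 2 - n * Real.log (1 / lam)) := by
  have e1 : Real.exp ((q:ℝ) * Real.log 2) = 2 ^ q := by
    rw [Real.exp_nat_mul, Real.exp_log (by norm_num)]
  have e2 : Real.exp (-((n:ℝ) * Real.log (1 / lam))) = lam ^ n := by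
    rw [one_div, Real.log_inv, mul_neg, neg_neg, Real.exp_nat_mul, Real.exp_log h0]
  rw [sub_eq_add_neg, Real.exp_add, e1, e2]

/-- an interval of length `L` contains at most `L + 1` integers -/
theorem card_le_of_interval (S : Finset ℕ) (α L : ℝ) (hα : 0 ≤ α) (hL : 0 ≤ L)
    (h : ∀ q ∈ S, α ≤ q ∧ (q:ℝ) < α + L) : (S.card : ℝ) ≤ L + 1 := by
  have hsub : S ⊆ Finset.Ico ⌈α⌉₊ ⌈α + L⌉₊ := by
    intro q hq
    obtain ⟨h1, h2⟩ := h q hq
    rw [Finset.mem_Ico]
    exact ⟨Nat.ceil_le.2 h1, Nat.lt_ceil.2 h2⟩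
  have hc := Finset.card_le_card hsub
  rw [Nat.card_Ico] at hc
  have hle : ⌈α⌉₊ ≤ ⌈α + L⌉₊ := Nat.ceil_mono (by linarith)
  have h1 : (S.card : ℝ) ≤ (⌈α + L⌉₊ : ℝ) - ⌈α⌉₊ := by
    have : (S.card : ℝ) ≤ ((⌈α + L⌉₊ - ⌈α⌉₊ : ℕ) : ℝ) := by exact_mod_cast hc
    rwa [Nat.cast_sub hle] at this
  have h2 : (⌈α + L⌉₊ : ℝ) < α + L + 1 := Nat.ceil_lt_add_one (by linarith)
  have h3 : α ≤ (⌈α⌉₊ : ℝ) := Nat.le_ceil α
  linarith

end D3

open D3 in
theorem t_D_lam (hdrop : D_drop) (hleak : L_leak) (hmono : L_mono) (hgrid : E_grid) : D_lam := by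
  intro A _ _ lam t h0 h1 R A0 hR hA0 haa τ
  have hRr : (1:ℝ) ≤ R := by exact_mod_cast hR
  have hR0 : (0:ℝ) < R := by linarith
  -- bounds
  have hbd : ∀ n, 0 ≤ aa lam t τ R n ∧ aa lam t τ R n ≤ 1 := fun n => by
    have := hmono (Fin n → A) _ _ (R:ℝ) (fun p : Fin n → A => YM τ n p)
      (fun p : Fin n → A => YM τ n p) (fun p => XX lam t p / lam ^ n) (fun _ _ h => h)
    exact ⟨this.1, this.2.2⟩
  have hge : ∀ n, A0 ≤ aa lam t τ R n := fun n => by
    refine (haa n).trans ?_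
    have := hmono (Fin n → A) _ _ (R:ℝ) (fun p : Fin n → A => YM (fun _ _ => 0) n p)
      (fun p : Fin n → A => YM τ n p) (fun p => XX lam t p / lam ^ n) (fun p q _ => by
        funext b j
        simp [YM, YY])
    exact this.2.1
  have hanti : Antitone (aa lam t τ R) := by
    refine antitone_nat_of_succ_le fun n => ?_
    have h := hleak A lam t τ R h0 h1 hRr 1 (n + 1) (by omega) (Fin 1 → A) id (fun p q h => by
      have h' : p = q := h
      subst h'
      refine ⟨rfl, ?_⟩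
      rw [sub_self, abs_zero]
      positivity)
    have hz : avg (fun p : Fin 1 → A => (∑ q ∈ fiber (id : (Fin 1 → A) → (Fin 1 → A)) p,
        ((R:ℝ) * (XX lam t p - XX lam t q) / lam ^ (n + 1)) ^ 2) /
          fib (id : (Fin 1 → A) → (Fin 1 → A)) p) = 0 := by
      have : ∀ p : Fin 1 → A, (∑ q ∈ fiber (id : (Fin 1 → A) → (Fin 1 → A)) p,
        ((R:ℝ) * (XX lam t p - XX lam t q) / lam ^ (n + 1)) ^ 2) /
          fib (id : (Fin 1 → A) → (Fin 1 → A)) p = 0 := by
        intro p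
        rw [Finset.sum_eq_zero, zero_div]
        intro q hq
        have : q = p := (mem_fiber _ _ _).1 hq
        rw [this]
        simp
      rw [avg_congr this]
      simp [avg]
    rw [hz, mul_zero] at h
    have e : n + 1 - 1 = n := by omega
    rw [e] at h
    linarith
  refine ⟨hanti, hbd, ?_⟩
  -- constants
  set χ : ℝ := Real.log (1 / lam) with hχ
  have hχ0 : 0 < χ := Real.log_pos (by rw [one_div]; exact (one_lt_inv₀ h0).2 h1)
  set b : ℝ := Real.log 2 with hb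
  have hb0 : 0 < b := Real.log_pos (by norm_num)
  have hb1 : 1 / 2 ≤ b := by
    have := Real.log_two_gt_d9
    linarith
  set c : ℝ := Real.exp (-(1 / (2 * R))) / 2 * (8 * A0 - 12 / (R:ℝ) ^ 2) with hc
  have hc0 : 0 < c := by
    have h2 : 12 / (R:ℝ) ^ 2 < 8 * A0 := by
      have : 12 / (R:ℝ) ^ 2 = 8 * (3 / (2 * (R : ℝ) ^ 2)) := by
        field_simp
        norm_num
      rw [this]
      linarith
    have : 0 < 8 * A0 - 12 / (R:ℝ) ^ 2 := by linarith
    positivity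
  set C2 : ℝ := 4 / (lam ^ 2 * c) with hC2
  have hC20 : 0 < C2 := by positivity
  set ρ : ℝ := Real.log (2 * R) with hρ
  have hρ0 : 0 ≤ ρ := Real.log_nonneg (by linarith)
  set B : ℝ := 4 * R / lam with hB
  have hB0 : 0 < B := by positivity
  set c' : ℝ := Real.log (B + 2) + Real.log 3 + 3 + 1 with hc'
  have hlB : 0 ≤ Real.log (B + 2) := Real.log_nonneg (by linarith)
  have hl3 : 0 ≤ Real.log 3 := Real.log_nonneg (by norm_num)
  set L : ℝ := χ / b with hL
  have hL0 : 0 < L := by positivity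
  refine ⟨2 * c' + 128 + 128 * (C2 * (L + 1)) + L, ?_, ?_⟩
  · have : 0 < C2 * (L + 1) := by positivity
    rw [hc']
    linarith
  intro k hk n0 n1 hkn0 hn01 M hM
  set a : ℕ → ℝ := aa lam t τ R with ha
  -- the sum of the increments
  have hsub0 : ∀ n, 0 ≤ a (n - k) - a n := fun n => sub_nonneg.2 (hanti (Nat.sub_le n k))
  set Sg : ℝ := ∑ n ∈ Finset.Icc n0 n1, (a (n - k) - a n) with hSg
  have hSg0 : 0 ≤ Sg := Finset.sum_nonneg fun n _ => hsub0 n
  have hlM : b ≤ Real.log M := Real.log_le_log (by norm_num) hM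
  have hlM2 : 1 / 2 ≤ Real.log M := hb1.trans hlM
  have hn01' : (0:ℝ) ≤ (n1:ℝ) - n0 := by
    have : (n0:ℝ) ≤ n1 := by exact_mod_cast hn01
    linarith
  -- dyadic levels
  set q0 : ℕ := ⌈((n0 + 1 : ℝ) * χ + ρ) / b⌉₊ with hq0
  set q1 : ℕ := ⌈(n1 : ℝ) * χ / b⌉₊ with hq1
  have hq0a : ((n0 + 1 : ℝ) * χ + ρ) / b ≤ q0 := Nat.le_ceil _
  have hq0b : (q0 : ℝ) < ((n0 + 1 : ℝ) * χ + ρ) / b + 1 := Nat.ceil_lt_add_one (by positivity)
  have hq1a : (n1 : ℝ) * χ / b ≤ q1 := Nat.le_ceil _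
  have hq1b : (q1 : ℝ) < (n1 : ℝ) * χ / b + 1 := Nat.ceil_lt_add_one (by positivity)
  let nn : ℕ → ℕ := fun q => ⌊((q:ℝ) * b - ρ) / χ⌋₊
  have hnn1 : ∀ q : ℕ, q0 ≤ q → ((nn q : ℕ) : ℝ) * χ ≤ q * b - ρ ∧
      (q:ℝ) * b - ρ < ((nn q : ℕ) + 1 : ℝ) * χ ∧ n0 + 1 ≤ nn q := by
    intro q hq
    have hq' : (q0:ℝ) ≤ q := by exact_mod_cast hq
    have h2 : (n0 + 1 : ℝ) * χ ≤ (q:ℝ) * b - ρ := by
      have h3 := (div_le_iff₀ hb0).1 (hq0a.trans hq')
      linarith
    have h4 : (n0 + 1 : ℝ) ≤ ((q:ℝ) * b - ρ) / χ := (le_div_iff₀ hχ0).2 h2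
    have h5 : (0:ℝ) ≤ ((q:ℝ) * b - ρ) / χ := le_trans (by positivity) h4
    refine ⟨?_, ?_, ?_⟩
    · exact (le_div_iff₀ hχ0).1 (Nat.floor_le h5)
    · exact (div_lt_iff₀ hχ0).1 (Nat.lt_floor_add_one _)
    · exact Nat.le_floor (by push_cast; exact h4)
  classical
  let e : ℕ → ℝ := fun q => if q0 ≤ q then min 1 (C2 * (a (nn q - k) - a (nn q))) else 1
  have he0 : ∀ q, 0 ≤ e q := by
    intro q
    simp only [e]
    split_ifs
    · exact le_min zero_le_one (mul_nonneg hC20.le (hsub0 _))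
    · exact zero_le_one
  have he1 : ∀ q, e q ≤ 1 := by
    intro q
    simp only [e]
    split_ifs
    · exact min_le_left _ _
    · exact le_rfl
  -- the hypothesis of `D_drop`
  have hcell : ∀ (q : ℕ) (ξ : ℝ) (p p' : Fin k → A),
      p' ∈ fiber (fun p : Fin k → A => (YY τ p, ⌊(2 : ℝ) ^ q * (XX lam t p + ξ)⌋)) p →
      YY τ p' = YY τ p ∧ |(2:ℝ) ^ q * (XX lam t p - XX lam t p')| < 1 := by
    intro q ξ p p' hp'
    rw [mem_fiber] at hp'
    simp only [Prod.mk.injEq] at hp'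
    refine ⟨hp'.1, ?_⟩
    have h2 := Int.abs_sub_lt_one_of_floor_eq_floor hp'.2
    have e2 : (2:ℝ) ^ q * (XX lam t p - XX lam t p') =
        -((2 : ℝ) ^ q * (XX lam t p' + ξ) - (2 : ℝ) ^ q * (XX lam t p + ξ)) := by ring
    rw [e2, abs_neg]
    exact h2
  have hmain : ∀ (q : ℕ) (ξ : ℝ), 0 ≤ ξ → ξ ≤ 1 →
    avg (fun p : Fin k → A => (∑ p' ∈ fiber (fun p : Fin k → A =>
        (YY τ p, ⌊(2 : ℝ) ^ q * (XX lam t p + ξ)⌋)) p,
        ((2 : ℝ) ^ q * (XX lam t p - XX lam t p')) ^ 2) /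
          fib (fun p : Fin k → A => (YY τ p, ⌊(2 : ℝ) ^ q * (XX lam t p + ξ)⌋)) p)
      ≤ e q := by
    intro q ξ _ _
    have hone : avg (fun p : Fin k → A => (∑ p' ∈ fiber (fun p : Fin k → A =>
        (YY τ p, ⌊(2 : ℝ) ^ q * (XX lam t p + ξ)⌋)) p,
        ((2 : ℝ) ^ q * (XX lam t p - XX lam t p')) ^ 2) /
          fib (fun p : Fin k → A => (YY τ p, ⌊(2 : ℝ) ^ q * (XX lam t p + ξ)⌋)) p) ≤ 1 := by
      refine avg_le_of_le fun p => ?_
      rw [div_le_one (fib_pos _ _)]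
      unfold fib
      rw [← nsmul_one, ← Finset.sum_const]
      refine Finset.sum_le_sum fun p' hp' => ?_
      have h2 := (hcell q ξ p p' hp').2
      rw [← sq_abs]
      exact pow_le_one₀ (abs_nonneg _) h2.le
    by_cases hq : q0 ≤ q
    · obtain ⟨h2, h3, h4⟩ := hnn1 q hq
      set n := nn q with hn
      -- comparison of the scales
      have h5 : 2 * (R:ℝ) ≤ 2 ^ q * lam ^ n := by
        rw [pow_two_lam h0, ← Real.exp_log (show (0:ℝ) < 2 * R by positivity)]
        exact Real.exp_le_exp.2 (by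
          change ρ ≤ (q:ℝ) * b - n * χ
          linarith)
      have h6 : (2:ℝ) ^ q * lam ^ (n + 1) ≤ 2 * R := by
        rw [pow_two_lam h0, ← Real.exp_log (show (0:ℝ) < 2 * R by positivity)]
        exact Real.exp_le_exp.2 (by
          change (q:ℝ) * b - ((n + 1 : ℕ) : ℝ) * χ ≤ ρ
          push_cast
          linarith)
      have hln : 0 < lam ^ n := pow_pos h0 n
      have h2q : (0:ℝ) < 2 ^ q := by positivity
      have hk2 : k ≤ n := by omega
      have hl := hleak A lam t τ R h0 h1 hRr k n hk2 _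
        (fun p : Fin k → A => (YY τ p, ⌊(2 : ℝ) ^ q * (XX lam t p + ξ)⌋)) (fun p p' hpp => by
          have hh := hcell q ξ p' p ((mem_fiber _ _ _).2 hpp)
          refine ⟨hh.1, ?_⟩
          have h7 := hh.2
          rw [abs_mul, abs_of_pos h2q] at h7
          rw [abs_sub_comm, le_div_iff₀ (by positivity)]
          have h8 : |XX lam t p' - XX lam t p| * (2 * R) ≤
              |XX lam t p' - XX lam t p| * (2 ^ q * lam ^ n) :=
            mul_le_mul_of_nonneg_left h5 (abs_nonneg _)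
          nlinarith [h7, h8, hln])
      have hav0 : 0 ≤ avg (fun p : Fin k → A =>
          (∑ q_1 ∈ fiber (fun p : Fin k → A => (YY τ p, ⌊(2 : ℝ) ^ q * (XX lam t p + ξ)⌋)) p,
            ((R:ℝ) * (XX lam t p - XX lam t q_1) / lam ^ n) ^ 2) /
            fib (fun p : Fin k → A => (YY τ p, ⌊(2 : ℝ) ^ q * (XX lam t p + ξ)⌋)) p) :=
        avg_nonneg fun p => div_nonneg (Finset.sum_nonneg fun _ _ => sq_nonneg _) (fib_pos _ _).le
      have hcle : c ≤ Real.exp (-(1 / (2 * R))) / 2 * (8 * aa lam t τ R (n - k) - 12 / (R:ℝ) ^ 2) := by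
        rw [hc]
        refine mul_le_mul_of_nonneg_left ?_ (by positivity)
        have := hge (n - k)
        linarith
      have hl2 := (mul_le_mul_of_nonneg_right hcle hav0).trans hl
      have hcomp : avg (fun p : Fin k → A => (∑ p' ∈ fiber (fun p : Fin k → A =>
        (YY τ p, ⌊(2 : ℝ) ^ q * (XX lam t p + ξ)⌋)) p,
        ((2 : ℝ) ^ q * (XX lam t p - XX lam t p')) ^ 2) /
          fib (fun p : Fin k → A => (YY τ p, ⌊(2 : ℝ) ^ q * (XX lam t p + ξ)⌋)) p) ≤
          4 / lam ^ 2 * avg (fun p : Fin k → A =>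
          (∑ q_1 ∈ fiber (fun p : Fin k → A => (YY τ p, ⌊(2 : ℝ) ^ q * (XX lam t p + ξ)⌋)) p,
            ((R:ℝ) * (XX lam t p - XX lam t q_1) / lam ^ n) ^ 2) /
            fib (fun p : Fin k → A => (YY τ p, ⌊(2 : ℝ) ^ q * (XX lam t p + ξ)⌋)) p) := by
        rw [← avg_const_mul]
        refine avg_mono fun p => ?_
        rw [mul_div_assoc', Finset.mul_sum]
        refine div_le_div_of_nonneg_right (Finset.sum_le_sum fun p' _ => ?_) (fib_pos _ _).le
        set u := XX lam t p - XX lam t p'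
        have h9 : (2:ℝ) ^ q * lam ^ n / R ≤ 2 / lam := by
          rw [div_le_div_iff₀ hR0 h0]
          calc (2:ℝ) ^ q * lam ^ n * lam = 2 ^ q * lam ^ (n + 1) := by ring
            _ ≤ 2 * R := h6
        have h10 : 0 ≤ (2:ℝ) ^ q * lam ^ n / R := by positivity
        have h11 : ((2:ℝ) ^ q * lam ^ n / R) ^ 2 ≤ 4 / lam ^ 2 := by
          calc ((2:ℝ) ^ q * lam ^ n / R) ^ 2 ≤ (2 / lam) ^ 2 := pow_le_pow_left₀ h10 h9 2
            _ = 4 / lam ^ 2 := by rw [div_pow]; norm_num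
        calc ((2:ℝ) ^ q * u) ^ 2 = ((2:ℝ) ^ q * lam ^ n / R) ^ 2 * ((R:ℝ) * u / lam ^ n) ^ 2 := by
              field_simp
          _ ≤ 4 / lam ^ 2 * ((R:ℝ) * u / lam ^ n) ^ 2 :=
              mul_le_mul_of_nonneg_right h11 (sq_nonneg _)
      simp only [e, if_pos hq]
      refine le_min hone (hcomp.trans ?_)
      rw [hC2]
      have h12 : 4 / (lam ^ 2 * c) * (a (n - k) - a n) = 4 / lam ^ 2 * ((a (n - k) - a n) / c) := by
        field_simp
      rw [h12]
      refine mul_le_mul_of_nonneg_left ?_ (by positivity)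
      rw [le_div_iff₀ hc0, mul_comm]
      exact hl2
    · simp only [e, if_neg hq]
      exact hone
  -- comparison of the grids
  have key0 : HW lam t τ k (lam ^ n0) ≤
      HR (fun p : Fin k → A => (YY τ p, ⌊(2 : ℝ) ^ q0 * XX lam t p⌋)) + Real.log (B + 2) := by
    have h2 : lam ^ n0 ≤ B * ((2:ℝ) ^ q0)⁻¹ := by
      have h3 : (2:ℝ) ^ q0 * lam ^ (n0 + 1) ≤ 2 * (2 * R) := by
        rw [pow_two_lam h0]
        have e3 : (2:ℝ) * (2 * R) = Real.exp (b + ρ) := by
          rw [Real.exp_add, Real.exp_log (by norm_num), Real.exp_log (by positivity)]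
        rw [e3]
        refine Real.exp_le_exp.2 ?_
        change (q0:ℝ) * b - ((n0 + 1 : ℕ) : ℝ) * χ ≤ b + ρ
        have h4 : (q0:ℝ) * b < (((n0 + 1 : ℝ) * χ + ρ) / b + 1) * b :=
          mul_lt_mul_of_pos_right hq0b hb0
        have h5 : (((n0 + 1 : ℝ) * χ + ρ) / b + 1) * b = (n0 + 1 : ℝ) * χ + ρ + b := by
          field_simp
        rw [h5] at h4
        push_cast
        linarith
      have h2q : (0:ℝ) < 2 ^ q0 := by positivity
      rw [hB, ← div_eq_mul_inv, le_div_iff₀ h2q, le_div_iff₀ h0]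
      calc lam ^ n0 * 2 ^ q0 * lam = (2:ℝ) ^ q0 * lam ^ (n0 + 1) := by ring
        _ ≤ 4 * R := by linarith
    have h3 := hgrid (Fin k → A) _ (YY τ) (XX lam t) (lam ^ n0) ((2:ℝ) ^ q0)⁻¹ 0 0 B
      (pow_pos h0 _) (by positivity) hB0.le h2
    have e1 : (fun p : Fin k → A => (YY τ p, ⌊XX lam t p / lam ^ n0 + 0⌋)) =
        fun p : Fin k → A => (YY τ p, ⌊XX lam t p / lam ^ n0⌋) := by
      funext p; rw [add_zero]
    have e2 : (fun p : Fin k → A => (YY τ p, ⌊XX lam t p / ((2:ℝ) ^ q0)⁻¹ + 0⌋)) =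
        fun p : Fin k → A => (YY τ p, ⌊(2:ℝ) ^ q0 * XX lam t p⌋) := by
      funext p; rw [add_zero, div_inv_eq_mul, mul_comm]
    rw [e1, e2] at h3
    exact h3
  have key1 : ∀ q : ℕ, (n1:ℝ) * χ / b ≤ q →
      HR (fun p : Fin k → A => (YY τ p, ⌊(2 : ℝ) ^ q * XX lam t p⌋)) ≤
        HW lam t τ k (lam ^ n1) + Real.log 3 := by
    intro q hq
    have h2 : ((2:ℝ) ^ q)⁻¹ ≤ 1 * lam ^ n1 := by
      have h3 : 1 ≤ (2:ℝ) ^ q * lam ^ n1 := by
        rw [pow_two_lam h0]
        refine Real.one_le_exp ?_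
        change 0 ≤ (q:ℝ) * b - n1 * χ
        have := (div_le_iff₀ hb0).1 hq
        linarith
      have h2q : (0:ℝ) < 2 ^ q := by positivity
      rw [inv_le_iff_one_le_mul₀ h2q]
      linarith
    have h3 := hgrid (Fin k → A) _ (YY τ) (XX lam t) ((2:ℝ) ^ q)⁻¹ (lam ^ n1) 0 0 1
      (by positivity) (pow_pos h0 _) (by norm_num) h2
    have e1 : (fun p : Fin k → A => (YY τ p, ⌊XX lam t p / lam ^ n1 + 0⌋)) =
        fun p : Fin k → A => (YY τ p, ⌊XX lam t p / lam ^ n1⌋) := by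
      funext p; rw [add_zero]
    have e2 : (fun p : Fin k → A => (YY τ p, ⌊XX lam t p / ((2:ℝ) ^ q)⁻¹ + 0⌋)) =
        fun p : Fin k → A => (YY τ p, ⌊(2:ℝ) ^ q * XX lam t p⌋) := by
      funext p; rw [add_zero, div_inv_eq_mul, mul_comm]
    have e3 : (1:ℝ) + 2 = 3 := by norm_num
    rw [e1, e2, e3] at h3
    exact h3
  have hlM0 : 0 ≤ Real.log M := by linarith
  have hM0 : 0 < M := by linarith
  have hM1 : 1 / M ≤ 1 / 2 := by
    rw [div_le_div_iff₀ hM0 (by norm_num)]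
    linarith
  have hdivM : 0 ≤ ((n1:ℝ) - n0) / M := div_nonneg hn01' hM0.le
  have hP0 : 0 ≤ 128 * (C2 * (L + 1)) := by positivity
  change HW lam t τ k (lam ^ n0) - HW lam t τ k (lam ^ n1) ≤ _
  by_cases hqq : q0 ≤ q1
  · -- the main case
    have hd := hdrop (Fin k → A) _ (YY τ) (XX lam t) e he0 he1 hmain q0 q1 hqq M (by linarith)
    -- the sum of the `e q`
    have hsum : ∑ q ∈ Finset.Ico q0 q1, e q ≤ C2 * (L + 1) * Sg := by
      have hmaps : ∀ q ∈ Finset.Ico q0 q1, nn q ∈ Finset.Icc n0 n1 := by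
        intro q hq
        rw [Finset.mem_Ico] at hq
        obtain ⟨h2, h3, h4⟩ := hnn1 q hq.1
        rw [Finset.mem_Icc]
        refine ⟨by omega, ?_⟩
        have h5 : (q:ℝ) < n1 * χ / b := Nat.lt_ceil.1 hq.2
        have h6 : (q:ℝ) * b < n1 * χ := (lt_div_iff₀ hb0).1 h5
        have h7 : ((nn q : ℕ) : ℝ) * χ < n1 * χ := by linarith
        have h8 : ((nn q : ℕ) : ℝ) < n1 := lt_of_mul_lt_mul_right h7 hχ0.le
        exact le_of_lt (by exact_mod_cast h8)
      calc ∑ q ∈ Finset.Ico q0 q1, e q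
          ≤ ∑ q ∈ Finset.Ico q0 q1, C2 * (a (nn q - k) - a (nn q)) := by
            refine Finset.sum_le_sum fun q hq => ?_
            simp only [e, if_pos (Finset.mem_Ico.1 hq).1]
            exact min_le_right _ _
        _ = ∑ n ∈ Finset.Icc n0 n1, ∑ q ∈ (Finset.Ico q0 q1).filter (fun q => nn q = n),
              C2 * (a (nn q - k) - a (nn q)) :=
            (Finset.sum_fiberwise_of_maps_to hmaps _).symm
        _ = ∑ n ∈ Finset.Icc n0 n1, (((Finset.Ico q0 q1).filter (fun q => nn q = n)).card : ℝ) *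
              (C2 * (a (n - k) - a n)) := by
            refine Finset.sum_congr rfl fun n _ => ?_
            rw [← nsmul_eq_mul, ← Finset.sum_const]
            refine Finset.sum_congr rfl fun q hq => ?_
            rw [(Finset.mem_filter.1 hq).2]
        _ ≤ ∑ n ∈ Finset.Icc n0 n1, (L + 1) * (C2 * (a (n - k) - a n)) := by
            refine Finset.sum_le_sum fun n _ => ?_
            refine mul_le_mul_of_nonneg_right ?_ (mul_nonneg hC20.le (hsub0 n))
            refine card_le_of_interval _ (((n:ℝ) * χ + ρ) / b) L (by positivity) hL0.le ?_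
            intro q hq
            obtain ⟨hq1', hq2⟩ := Finset.mem_filter.1 hq
            obtain ⟨h2, h3, h4⟩ := hnn1 q (Finset.mem_Ico.1 hq1').1
            rw [hq2] at h2 h3
            constructor
            · rw [div_le_iff₀ hb0]; linarith
            · have e4 : ((n:ℝ) * χ + ρ) / b + L = (((n:ℝ) + 1) * χ + ρ) / b := by
                rw [hL, ← add_div]; ring
              rw [e4, lt_div_iff₀ hb0]
              linarith
        _ = C2 * (L + 1) * Sg := by
            rw [← Finset.mul_sum, ← Finset.mul_sum]; ring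
    have hkey1 := key1 q1 hq1a
    have hqd : ((q1:ℝ) - q0) / M ≤ L * (((n1:ℝ) - n0) / M) + 1 / 2 := by
      have h2 : (q1:ℝ) - q0 ≤ L * ((n1:ℝ) - n0) + 1 := by
        have e5 : ((n0 + 1 : ℝ) * χ + ρ) / b = L * (n0 + 1) + ρ / b := by
          rw [hL]; ring
        have e6 : (n1 : ℝ) * χ / b = L * n1 := by rw [hL]; ring
        rw [e5] at hq0a
        rw [e6] at hq1b
        have : 0 ≤ ρ / b := by positivity
        linarith
      calc ((q1:ℝ) - q0) / M ≤ (L * ((n1:ℝ) - n0) + 1) / M :=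
            div_le_div_of_nonneg_right h2 hM0.le
        _ = L * (((n1:ℝ) - n0) / M) + 1 / M := by ring
        _ ≤ _ := by linarith
    have h20 : 128 * (1 + ∑ q ∈ Finset.Ico q0 q1, e q) * Real.log M ≤
        128 * (1 + C2 * (L + 1) * Sg) * Real.log M := by
      refine mul_le_mul_of_nonneg_right ?_ hlM0
      linarith
    have h21 : c' ≤ 2 * c' * Real.log M := by
      have hc'0 : 0 ≤ c' := by rw [hc']; linarith
      have := mul_le_mul_of_nonneg_left (show (1:ℝ) ≤ 2 * Real.log M by linarith) hc'0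
      linarith
    have h22 : 0 ≤ (2 * c' + 128 + L) * (Sg * Real.log M) := by
      have hc'0 : 0 ≤ c' := by rw [hc']; linarith
      have := mul_nonneg hSg0 hlM0
      have h23 : 0 ≤ 2 * c' + 128 + L := by linarith
      exact mul_nonneg h23 this
    have h24 : 0 ≤ (128 * (C2 * (L + 1)) + L) * Real.log M :=
      mul_nonneg (by linarith) hlM0
    have h25 : 0 ≤ (2 * c' + 128 + 128 * (C2 * (L + 1))) * (((n1:ℝ) - n0) / M) := by
      have hc'0 : 0 ≤ c' := by rw [hc']; linarith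
      exact mul_nonneg (by linarith) hdivM
    have e7 : (2 * c' + 128 + 128 * (C2 * (L + 1)) + L) * (1 + Sg) * Real.log M +
        (2 * c' + 128 + 128 * (C2 * (L + 1)) + L) * ((n1:ℝ) - n0) / M =
        2 * c' * Real.log M + 128 * (1 + C2 * (L + 1) * Sg) * Real.log M +
        L * (((n1:ℝ) - n0) / M) + (2 * c' + 128 + L) * (Sg * Real.log M) +
        (128 * (C2 * (L + 1)) + L) * Real.log M +
        (2 * c' + 128 + 128 * (C2 * (L + 1))) * (((n1:ℝ) - n0) / M) := by ring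
    rw [e7]
    have h26 : c' = Real.log (B + 2) + Real.log 3 + 3 + 1 := hc'
    linarith
  · -- the degenerate case
    have hq0' : (n1:ℝ) * χ / b ≤ q0 := by
      refine hq1a.trans ?_
      have : q1 ≤ q0 := by omega
      exact_mod_cast this
    have hkey1 := key1 q0 hq0'
    have hc'0 : 0 ≤ c' := by rw [hc']; linarith
    have h21 : c' ≤ 2 * c' * Real.log M := by
      have := mul_le_mul_of_nonneg_left (show (1:ℝ) ≤ 2 * Real.log M by linarith) hc'0
      linarith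
    have h22 : 0 ≤ (2 * c' + 128 + 128 * (C2 * (L + 1)) + L) * (Sg * Real.log M) :=
      mul_nonneg (by linarith) (mul_nonneg hSg0 hlM0)
    have h24 : 0 ≤ (128 + 128 * (C2 * (L + 1)) + L) * Real.log M :=
      mul_nonneg (by linarith) hlM0
    have h25 : 0 ≤ (2 * c' + 128 + 128 * (C2 * (L + 1)) + L) * (((n1:ℝ) - n0) / M) :=
      mul_nonneg (by linarith) hdivM
    have e7 : (2 * c' + 128 + 128 * (C2 * (L + 1)) + L) * (1 + Sg) * Real.log M +
        (2 * c' + 128 + 128 * (C2 * (L + 1)) + L) * ((n1:ℝ) - n0) / M =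
        2 * c' * Real.log M + (128 + 128 * (C2 * (L + 1)) + L) * Real.log M +
        (2 * c' + 128 + 128 * (C2 * (L + 1)) + L) * (Sg * Real.log M) +
        (2 * c' + 128 + 128 * (C2 * (L + 1)) + L) * (((n1:ℝ) - n0) / M) := by ring
    rw [e7]
    have h26 : c' = Real.log (B + 2) + Real.log 3 + 3 + 1 := hc'
    linarith

end H517.EO
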