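import Pool.Agent.H517R2.EO.Basic

set_option autoImplicit false

open Finset

namespace H517.EO

theorem t_E_mono : E_mono := by
  intro Ω β γ _ f g h
  unfold HR
  exact avg_mono fun p => Real.log_le_log (fib_pos g p) (fib_le_fib h p)

theorem t_E_bound : E_bound := by
  intro Ω β _ f
  constructor
  · unfold HR
    exact avg_nonneg fun p => Real.log_nonneg (one_le_fib f p)
  · unfold HR
    rcases isEmpty_or_nonempty Ω with hE | hE
    · simp [avg]
    · exact avg_le_of_le fun p => Real.log_le_log (fib_pos f p) (fib_le_card f p)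

theorem sum_inv_fib {Ω β γ : Type} [Fintype Ω] (g : Ω → β) (f : Ω → γ) (q : Ω) :
    (∑ p ∈ fiber g q, 1 / fib (fun p => (g p, f p)) p)
      = (((fiber g q : Set Ω).image f).ncard : ℝ) := by
  classical
  have h0 : (((fiber g q : Set Ω).image f).ncard : ℝ) = (((fiber g q).image f).card : ℝ) := by
    rw [← Finset.coe_image, Set.ncard_coe_finset]
  rw [h0, ← Finset.sum_fiberwise_of_maps_to (s := fiber g q) (t := (fiber g q).image f) (g := f)
    (fun x hx => Finset.mem_image_of_mem _ hx)]
  rw [Finset.card_eq_sum_ones, Nat.cast_sum]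
  refine Finset.sum_congr rfl fun v hv => ?_
  obtain ⟨p0, hp0, rfl⟩ := Finset.mem_image.1 hv
  rw [mem_fiber] at hp0
  have h1 : (fiber g q).filter (fun p => f p = f p0) = fiber (fun p => (g p, f p)) p0 := by
    ext p
    simp only [Finset.mem_filter, mem_fiber, Prod.mk.injEq, hp0]
  rw [h1]
  have h2 : ∀ p ∈ fiber (fun p => (g p, f p)) p0,
      1 / fib (fun p => (g p, f p)) p = 1 / fib (fun p => (g p, f p)) p0 := by
    intro p hp
    rw [mem_fiber] at hp
    rw [fib_congr (fun p => (g p, f p)) hp]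
  rw [Finset.sum_congr rfl h2, Finset.sum_const, nsmul_eq_mul]
  have h3 : ((fiber (fun p => (g p, f p)) p0).card : ℝ) = fib (fun p => (g p, f p)) p0 := rfl
  rw [h3, mul_one_div, div_self (fib_pos _ p0).ne', Nat.cast_one]

theorem sum_ratio {Ω β γ : Type} [Fintype Ω] (g : Ω → β) (f : Ω → γ) :
    (∑ p, fib g p / fib (fun p => (g p, f p)) p)
      = ∑ q, (((fiber g q : Set Ω).image f).ncard : ℝ) := by
  classical
  have h1 : ∀ p, fib g p / fib (fun p => (g p, f p)) p
      = ∑ q, if g q = g p then 1 / fib (fun p => (g p, f p)) p else 0 := by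
    intro p
    rw [← Finset.sum_filter, Finset.sum_const, nsmul_eq_mul, mul_one_div]
    congr 1
  rw [Finset.sum_congr rfl fun p _ => h1 p, Finset.sum_comm]
  refine Finset.sum_congr rfl fun q _ => ?_
  rw [← sum_inv_fib g f q, ← Finset.sum_filter]
  refine Finset.sum_congr ?_ fun _ _ => rfl
  ext p
  simp only [Finset.mem_filter, Finset.mem_univ, true_and, mem_fiber]
  exact eq_comm

theorem t_E_card : E_card := by
  intro Ω β γ _ g f N hN h
  have hN0 : 0 < N := by linarith
  rcases isEmpty_or_nonempty Ω with hE | hE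
  · simp [HR, avg]
    exact Real.log_nonneg hN
  have hpt : ∀ p, Real.log (fib g p) ≤ Real.log (fib (fun p => (g p, f p)) p)
      + (Real.log N - 1 + (1 / N) * (fib g p / fib (fun p => (g p, f p)) p)) := by
    intro p
    have ha := fib_pos g p
    have hb := fib_pos (fun p => (g p, f p)) p
    have hx : 0 < fib g p / fib (fun p => (g p, f p)) p / N := by positivity
    have h1 := Real.log_le_sub_one_of_pos hx
    rw [Real.log_div (by positivity) (by positivity),
      Real.log_div (by positivity) (by positivity)] at h1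
    have h2 : fib g p / fib (fun p => (g p, f p)) p / N
        = (1 / N) * (fib g p / fib (fun p => (g p, f p)) p) := by ring
    linarith
  have h1 : HR g ≤ HR (fun p => (g p, f p))
      + (Real.log N - 1 + (1 / N) * avg (fun p => fib g p / fib (fun p => (g p, f p)) p)) := by
    have := avg_mono hpt
    rw [avg_add, avg_add, avg_const, avg_const_mul] at this
    exact this
  have h2 : avg (fun p => fib g p / fib (fun p => (g p, f p)) p) ≤ N := by
    have h3 : avg (fun p => fib g p / fib (fun p => (g p, f p)) p)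
        = avg (fun q => (((fiber g q : Set Ω).image f).ncard : ℝ)) := by
      unfold avg
      rw [sum_ratio]
    rw [h3]
    exact avg_le_of_le h
  have h3 : (1 / N) * avg (fun p => fib g p / fib (fun p => (g p, f p)) p) ≤ 1 := by
    calc _ ≤ (1 / N) * N := mul_le_mul_of_nonneg_left h2 (by positivity)
      _ = 1 := by field_simp
  linarith

/-- a set of integers inside `[a, a + L)` has at most `L` elements -/
theorem ncard_le_of_Ico {S : Set ℤ} {a L : ℤ} (hL : 0 ≤ L) (h : ∀ m ∈ S, a ≤ m ∧ m < a + L) :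
    (S.ncard : ℝ) ≤ (L : ℝ) := by
  have h1 : S ⊆ (Finset.Ico a (a + L) : Finset ℤ) := by
    intro m hm
    simpa using h m hm
  have h2 := Set.ncard_le_ncard h1 (Finset.finite_toSet _)
  rw [Set.ncard_coe_finset, Int.card_Ico] at h2
  have h3 : ((a + L - a).toNat : ℝ) = (L : ℝ) := by
    have : ((a + L - a).toNat : ℤ) = L := by
      rw [Int.toNat_of_nonneg (by linarith)]; ring
    exact_mod_cast this
  rw [← h3]
  exact_mod_cast h2

theorem t_E_grid : E_grid := by
  intro Ω β _ κ x w w' s s' B hw hw' hB hwB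
  have h1 : HR (fun p => (κ p, ⌊x p / w + s⌋))
      ≤ HR (fun p => ((fun p => (κ p, ⌊x p / w + s⌋)) p, (fun p => ⌊x p / w' + s'⌋) p))
        + Real.log (B + 2) := by
    refine t_E_card Ω _ _ (fun p => (κ p, ⌊x p / w + s⌋)) (fun p => ⌊x p / w' + s'⌋) (B + 2)
      (by linarith) ?_
    intro p
    set c : ℤ := ⌊x p / w + s⌋ with hc
    set α : ℝ := ((c : ℝ) - s) * (w / w') + s' with hα
    have hr : w / w' ≤ B := by rw [div_le_iff₀ hw']; exact hwB
    have hr0 : 0 < w / w' := by positivity
    refine (ncard_le_of_Ico (a := ⌊α⌋) (L := ⌈B + 1⌉) (Int.ceil_nonneg (by linarith)) ?_).trans ?_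
    · rintro m ⟨q, hq, rfl⟩
      have hq' : q ∈ fiber (fun p => (κ p, ⌊x p / w + s⌋)) p := hq
      rw [mem_fiber, Prod.mk.injEq] at hq'
      have hc' : ⌊x q / w + s⌋ = c := hq'.2
      rw [Int.floor_eq_iff] at hc'
      have hy : x q / w' + s' = (x q / w + s - s) * (w / w') + s' := by
        field_simp
        ring
      have hlo : α ≤ x q / w' + s' := by
        rw [hy, hα]
        have : ((c : ℝ) - s) * (w / w') ≤ (x q / w + s - s) * (w / w') :=
          mul_le_mul_of_nonneg_right (by linarith) hr0.le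
        linarith
      have hhi : x q / w' + s' < α + B := by
        rw [hy, hα]
        have : (x q / w + s - s) * (w / w') < ((c : ℝ) + 1 - s) * (w / w') :=
          mul_lt_mul_of_pos_right (by linarith) hr0
        have h5 : ((c : ℝ) + 1 - s) * (w / w') = ((c : ℝ) - s) * (w / w') + w / w' := by ring
        linarith
      constructor
      · exact Int.floor_le_floor hlo
      · have h6 : ((⌊x q / w' + s'⌋ : ℤ) : ℝ) < (⌊α⌋ : ℝ) + (⌈B + 1⌉ : ℝ) := by
          have h7 := Int.floor_le (x q / w' + s')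
          have h8 := Int.lt_floor_add_one α
          have h9 := Int.le_ceil (B + 1)
          linarith
        exact_mod_cast h6
    · have := Int.ceil_lt_add_one (B + 1)
      linarith
  have h2 : HR (fun p => ((fun p => (κ p, ⌊x p / w + s⌋)) p, (fun p => ⌊x p / w' + s'⌋) p))
      ≤ HR (fun p => (κ p, ⌊x p / w' + s'⌋)) := by
    refine t_E_mono Ω _ _ _ _ ?_
    intro p q hpq
    simp only [Prod.mk.injEq] at hpq ⊢
    exact ⟨hpq.1.1, hpq.2⟩
  linarith

theorem t_E_inactive : E_inactive := by
  intro Ω β _ κ x w w' hw' hww h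
  have hw : 0 < w := lt_of_lt_of_le hw' hww
  have h1 : HR (fun p => (κ p, ⌊x p / w⌋))
      ≤ HR (fun p => ((fun p => (κ p, ⌊x p / w⌋)) p, (fun p => ⌊x p / w'⌋) p))
        + Real.log 3 := by
    refine t_E_card Ω _ _ (fun p => (κ p, ⌊x p / w⌋)) (fun p => ⌊x p / w'⌋) 3
      (by norm_num) ?_
    intro p
    have := ncard_le_of_Ico (S := (fun p => ⌊x p / w'⌋) '' (fiber (fun p => (κ p, ⌊x p / w⌋)) p : Set Ω))
      (a := ⌊x p / w'⌋ - 1) (L := 3) (by norm_num) ?_
    · exact_mod_cast this
    · rintro m ⟨q, hq, rfl⟩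
      have hq' : q ∈ fiber (fun p => (κ p, ⌊x p / w⌋)) p := hq
      rw [mem_fiber, Prod.mk.injEq] at hq'
      have hd : |x q - x p| < w := by
        have h3 := Int.abs_sub_lt_one_of_floor_eq_floor hq'.2
        have h4 : x q / w - x p / w = (x q - x p) / w := by ring
        rw [h4, abs_div, abs_of_pos hw, div_lt_one hw] at h3
        exact h3
      have hd' := h q p hq'.1 hd
      have h5 : |x q / w' - x p / w'| ≤ 1 := by
        have h4 : x q / w' - x p / w' = (x q - x p) / w' := by ring
        rw [h4, abs_div, abs_of_pos hw', div_le_one hw']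
        exact hd'
      rw [abs_le] at h5
      have h6 := Int.floor_le (x q / w')
      have h7 := Int.lt_floor_add_one (x q / w')
      have h8 := Int.floor_le (x p / w')
      have h9 := Int.lt_floor_add_one (x p / w')
      have h10 : ((⌊x p / w'⌋ : ℤ) : ℝ) - 2 < ((⌊x q / w'⌋ : ℤ) : ℝ) := by linarith
      have h11 : ((⌊x q / w'⌋ : ℤ) : ℝ) < ((⌊x p / w'⌋ : ℤ) : ℝ) + 2 := by linarith
      have h12 : ⌊x p / w'⌋ - 2 < ⌊x q / w'⌋ := by exact_mod_cast h10
      have h13 : ⌊x q / w'⌋ < ⌊x p / w'⌋ + 2 := by exact_mod_cast h11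
      constructor
      · show ⌊x p / w'⌋ - 1 ≤ ⌊x q / w'⌋
        omega
      · show ⌊x q / w'⌋ < ⌊x p / w'⌋ - 1 + 3
        omega
  have h2 : HR (fun p => ((fun p => (κ p, ⌊x p / w⌋)) p, (fun p => ⌊x p / w'⌋) p))
      ≤ HR (fun p => (κ p, ⌊x p / w'⌋)) := by
    refine t_E_mono Ω _ _ _ _ ?_
    intro p q hpq
    simp only [Prod.mk.injEq] at hpq ⊢
    exact ⟨hpq.1.1, hpq.2⟩
  linarith

end H517.EO
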