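import Pool.Agent.H517R2.EO.Basic

/-!
# TEAM EO : E2, submodularity of entropy (helper61)
-/

set_option autoImplicit false

open Finset

namespace H517.EO

namespace E2

variable {Ω β γ δ : Type} [Fintype Ω]

theorem fib_sum (f : Ω → β) (p : Ω) [DecidablePred fun q => f q = f p] :
    fib f p = ∑ q, if f q = f p then (1 : ℝ) else 0 := by
  unfold fib fiber
  rw [Finset.sum_boole]
  congr

open Classical in
/-- the inner sum -/
theorem inner (f : Ω → β) (g : Ω → γ) (h : Ω → δ) (q r : Ω) :
    (∑ p, (if (f q, g q) = (f p, g p) then (1 : ℝ) else 0) *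
      (if (f r, h r) = (f p, h p) then (1 : ℝ) else 0) /
        (fib (fun p => ((f p, g p), h p)) p * fib f p)) ≤
      (if f r = f q then (1 : ℝ) else 0) / fib f q := by
  by_cases hex : ∃ p0, (f q, g q) = (f p0, g p0) ∧ (f r, h r) = (f p0, h p0)
  · obtain ⟨p0, h1, h2⟩ := hex
    have hq : f q = f p0 := (Prod.ext_iff.1 h1).1
    have hr : f r = f p0 := (Prod.ext_iff.1 h2).1
    rw [if_pos (hr.trans hq.symm)]
    have hterm : ∀ p, (if (f q, g q) = (f p, g p) then (1 : ℝ) else 0) *
        (if (f r, h r) = (f p, h p) then (1 : ℝ) else 0) /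
        (fib (fun p => ((f p, g p), h p)) p * fib f p) =
        (if ((f p, g p), h p) = ((f p0, g p0), h p0) then (1 : ℝ) else 0) *
          (1 / (fib (fun p => ((f p, g p), h p)) p0 * fib f q)) := by
      intro p
      by_cases hp : ((f p, g p), h p) = ((f p0, g p0), h p0)
      · have e1 : (f p, g p) = (f p0, g p0) := (Prod.ext_iff.1 hp).1
        have e2 : h p = h p0 := (Prod.ext_iff.1 hp).2
        have e3 : f p = f p0 := (Prod.ext_iff.1 e1).1
        rw [if_pos hp, if_pos (h1.trans e1.symm), if_pos (h2.trans (by rw [e2, e3])),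
          fib_congr (fun p => ((f p, g p), h p)) (p := p) (q := p0) hp,
          fib_congr f (p := p) (q := q) (e3.trans hq.symm)]
        ring
      · rw [if_neg hp, zero_mul]
        by_cases e1 : (f q, g q) = (f p, g p)
        · by_cases e2 : (f r, h r) = (f p, h p)
          · exfalso
            apply hp
            have e3 : (f p, g p) = (f p0, g p0) := e1.symm.trans h1
            have e4 : h p = h p0 := (Prod.ext_iff.1 (e2.symm.trans h2)).2
            rw [e3, e4]
          · rw [if_neg e2, mul_zero, zero_div]
        · rw [if_neg e1, zero_mul, zero_div]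
    rw [Finset.sum_congr rfl fun p _ => hterm p, ← Finset.sum_mul,
      ← fib_sum (fun p => ((f p, g p), h p)) p0]
    have hc := fib_pos (fun p => ((f p, g p), h p)) p0
    have hn := fib_pos f q
    apply le_of_eq
    field_simp
  · push Not at hex
    have h0 : (0 : ℝ) ≤ (if f r = f q then (1 : ℝ) else 0) / fib f q :=
      div_nonneg (by split_ifs <;> norm_num) (fib_pos f q).le
    refine le_trans (le_of_eq ?_) h0
    apply Finset.sum_eq_zero
    intro p _
    by_cases e1 : (f q, g q) = (f p, g p)
    · rw [if_neg (hex p e1), mul_zero, zero_div]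
    · rw [if_neg e1, zero_mul, zero_div]

theorem main (f : Ω → β) (g : Ω → γ) (h : Ω → δ) :
    ∑ p, fib (fun p => (f p, g p)) p * fib (fun p => (f p, h p)) p /
      (fib (fun p => ((f p, g p), h p)) p * fib f p) ≤ (Fintype.card Ω : ℝ) := by
  classical
  calc ∑ p, fib (fun p => (f p, g p)) p * fib (fun p => (f p, h p)) p /
      (fib (fun p => ((f p, g p), h p)) p * fib f p)
      = ∑ p, ∑ q, ∑ r, (if (f q, g q) = (f p, g p) then (1 : ℝ) else 0) *
          (if (f r, h r) = (f p, h p) then (1 : ℝ) else 0) /
        (fib (fun p => ((f p, g p), h p)) p * fib f p) := by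
        apply Finset.sum_congr rfl
        intro p _
        rw [fib_sum (fun p => (f p, g p)) p, fib_sum (fun p => (f p, h p)) p, Finset.sum_mul,
          Finset.sum_div]
        apply Finset.sum_congr rfl
        intro q _
        rw [Finset.mul_sum, Finset.sum_div]
    _ = ∑ q, ∑ r, ∑ p, (if (f q, g q) = (f p, g p) then (1 : ℝ) else 0) *
          (if (f r, h r) = (f p, h p) then (1 : ℝ) else 0) /
        (fib (fun p => ((f p, g p), h p)) p * fib f p) := by
        rw [Finset.sum_comm]
        apply Finset.sum_congr rfl
        intro q _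
        rw [Finset.sum_comm]
    _ ≤ ∑ q, ∑ r, (if f r = f q then (1 : ℝ) else 0) / fib f q :=
        Finset.sum_le_sum fun q _ => Finset.sum_le_sum fun r _ => inner f g h q r
    _ = ∑ q : Ω, (1 : ℝ) := by
        apply Finset.sum_congr rfl
        intro q _
        rw [← Finset.sum_div, ← fib_sum f q, div_self (fib_pos f q).ne']
    _ = (Fintype.card Ω : ℝ) := by simp

end E2

theorem t_E_submod : E_submod := by
  intro Ω β γ δ _ f g h
  unfold condH
  rcases isEmpty_or_nonempty Ω with hE | hN
  · have h0 : ∀ (β' : Type) (u : Ω → β'), HR u = 0 := by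
      intro β' u
      unfold HR avg
      simp
    simp [h0]
  · have key : avg (fun p => Real.log (fib (fun p => (f p, g p)) p) +
        Real.log (fib (fun p => (f p, h p)) p) - Real.log (fib (fun p => ((f p, g p), h p)) p) -
        Real.log (fib f p)) ≤ 0 := by
      have h1 : ∀ p, Real.log (fib (fun p => (f p, g p)) p) +
          Real.log (fib (fun p => (f p, h p)) p) - Real.log (fib (fun p => ((f p, g p), h p)) p) -
          Real.log (fib f p) ≤ fib (fun p => (f p, g p)) p * fib (fun p => (f p, h p)) p /
            (fib (fun p => ((f p, g p), h p)) p * fib f p) - 1 := by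
        intro p
        have ha := fib_pos (fun p => (f p, g p)) p
        have hb := fib_pos (fun p => (f p, h p)) p
        have hc := fib_pos (fun p => ((f p, g p), h p)) p
        have hn := fib_pos f p
        have e : Real.log (fib (fun p => (f p, g p)) p * fib (fun p => (f p, h p)) p /
            (fib (fun p => ((f p, g p), h p)) p * fib f p)) =
            Real.log (fib (fun p => (f p, g p)) p) + Real.log (fib (fun p => (f p, h p)) p) -
            Real.log (fib (fun p => ((f p, g p), h p)) p) - Real.log (fib f p) := by
          rw [Real.log_div (mul_pos ha hb).ne' (mul_pos hc hn).ne', Real.log_mul ha.ne' hb.ne',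
            Real.log_mul hc.ne' hn.ne']
          ring
        rw [← e]
        exact Real.log_le_sub_one_of_pos (div_pos (mul_pos ha hb) (mul_pos hc hn))
      refine (avg_mono h1).trans ?_
      rw [avg_sub, avg_const, sub_nonpos]
      unfold avg
      have hcard : (0 : ℝ) < (Fintype.card Ω : ℝ) := by exact_mod_cast Fintype.card_pos
      rw [div_le_one hcard]
      exact E2.main f g h
    rw [avg_sub, avg_sub, avg_add] at key
    unfold HR
    linarith

end H517.EO
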