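import Pool.Agent.H517R2.EO.Basic

set_option autoImplicit false

open Finset Filter MeasureTheory

namespace H517.EO

namespace E3

theorem mono_aux {θ s : ℝ} (hθ : 0 < θ) (hs : θ ≤ s) (hs1 : s ≤ 1) :
    θ * (1 - Real.log θ) ≤ s * (1 - Real.log s) := by
  have hs0 : 0 < s := hθ.trans_le hs
  have h1 := Real.log_le_sub_one_of_pos (div_pos hs0 hθ)
  rw [Real.log_div hs0.ne' hθ.ne'] at h1
  have h2 : θ * (Real.log s - Real.log θ) ≤ s - θ := by
    calc θ * (Real.log s - Real.log θ) ≤ θ * (s / θ - 1) := mul_le_mul_of_nonneg_left h1 hθ.le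
      _ = s - θ := by field_simp
  have h3 : Real.log s ≤ 0 := Real.log_nonpos hs0.le hs1
  nlinarith

theorem s_aux {s M : ℝ} (hs : 0 < s) (hM : 1 ≤ M) : s * (1 - Real.log s) ≤ s * Real.log M + 1 / M := by
  have hM0 : 0 < M := by linarith
  have h1 := Real.one_sub_inv_le_log_of_pos (mul_pos hs hM0)
  rw [Real.log_mul hs.ne' hM0.ne'] at h1
  have h2 : s * (1 - (s * M)⁻¹) ≤ s * (Real.log s + Real.log M) := mul_le_mul_of_nonneg_left h1 hs.le
  have h3 : s * (1 - (s * M)⁻¹) = s - 1 / M := by field_simp
  rw [h3] at h2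
  linarith

theorem num_le {a b M : ℝ} (ha : 0 < a) (hab : a ≤ b) (hM : 1 ≤ M) :
    a * (Real.log (a + b) - Real.log a) + b * (Real.log (a + b) - Real.log b) ≤
      (a * (1 - a / (a + b)) + b * (1 - b / (a + b))) * Real.log M + (a + b) / M := by
  have hb : 0 < b := ha.trans_le hab
  set n := a + b with hn
  have hn0 : 0 < n := by linarith
  have h1 : b * (Real.log n - Real.log b) ≤ a := by
    have h := Real.log_le_sub_one_of_pos (div_pos hn0 hb)
    rw [Real.log_div hn0.ne' hb.ne'] at h
    calc b * (Real.log n - Real.log b) ≤ b * (n / b - 1) := mul_le_mul_of_nonneg_left h hb.le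
      _ = a := by field_simp; linarith
  set s := 2 * a * b / n ^ 2 with hs
  have hs0 : 0 < s := by positivity
  have hθ : a / n ≤ s := by
    rw [hs, div_le_div_iff₀ hn0 (by positivity)]
    nlinarith [mul_pos ha hn0]
  have hs1 : s ≤ 1 := by
    rw [hs, div_le_one (by positivity)]
    nlinarith [sq_nonneg (a - b)]
  have h2 := mono_aux (div_pos ha hn0) hθ hs1
  have h3 := s_aux hs0 hM
  rw [Real.log_div ha.ne' hn0.ne'] at h2
  have h4 : n * (a / n * (1 - (Real.log a - Real.log n))) = a + a * (Real.log n - Real.log a) := by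
    field_simp; ring
  have h5 : n * (s * Real.log M + 1 / M) =
      (a * (1 - a / n) + b * (1 - b / n)) * Real.log M + n / M := by
    rw [hs]
    have : a * (1 - a / n) + b * (1 - b / n) = n * (2 * a * b / n ^ 2) := by
      field_simp
      rw [hn]; ring
    rw [this]; ring
  have h6 := mul_le_mul_of_nonneg_left (h2.trans h3) hn0.le
  rw [h4, h5] at h6
  linarith

theorem num {a b M : ℝ} (ha : 0 < a) (hb : 0 ≤ b) (hM : 1 ≤ M) :
    a * (Real.log (a + b) - Real.log a) + b * (Real.log (a + b) - Real.log b) ≤
      (a * (1 - a / (a + b)) + b * (1 - b / (a + b))) * Real.log M + (a + b) / M := by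
  rcases hb.eq_or_lt with rfl | hb
  · rw [add_zero, div_self ha.ne']
    have : 0 ≤ a / M := by positivity
    simpa using this
  rcases le_total a b with h | h
  · exact num_le ha h hM
  · have := num_le hb h hM
    rw [add_comm b a] at this
    linarith

theorem class_sum {Ω β : Type} [Fintype Ω] (f : Ω → β) (φ : Ω → ℝ) :
    ∑ p, (∑ q ∈ fiber f p, φ q) / fib f p = ∑ p, φ p := by
  classical
  have h1 : ∀ p, (∑ q ∈ fiber f p, φ q) / fib f p = ∑ q ∈ fiber f p, φ q / fib f q := by
    intro p
    rw [Finset.sum_div]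
    refine Finset.sum_congr rfl fun q hq => ?_
    rw [fib_congr f ((mem_fiber f p q).1 hq)]
  rw [Finset.sum_congr rfl fun p _ => h1 p,
    Finset.sum_comm' (s := Finset.univ) (t := fun p => fiber f p) (s' := fun q => fiber f q)
      (t' := Finset.univ) (fun x y => by simp [mem_fiber, eq_comm])]
  refine Finset.sum_congr rfl fun q _ => ?_
  rw [Finset.sum_const, nsmul_eq_mul]
  have := fib_pos f q
  unfold fib at this ⊢
  field_simp

end E3

open E3 in
theorem t_E_bin : E_bin := by
  intro Ω β γ _ f c M hM hc
  classical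
  rcases isEmpty_or_nonempty Ω with hΩ | hΩ
  · have h0 : ∀ φ : Ω → ℝ, avg φ = 0 := fun φ => by unfold avg; simp
    unfold HR
    rw [h0, h0, h0]
    simp; linarith
  set g : Ω → β × γ := fun p => (f p, c p) with hg
  have hM0 : 0 < M := by linarith
  have hN : (0:ℝ) < Fintype.card Ω := by exact_mod_cast Fintype.card_pos
  -- the class inequality
  have key : ∀ p, (∑ q ∈ fiber f p, (Real.log (fib f q) - Real.log (fib g q) -
      (1 - fib g q / fib f q) * Real.log M)) / fib f p ≤ 1 / M := by
    intro p
    set S1 := fiber g p with hS1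
    have hsub : S1 ⊆ fiber f p := fiber_subset (f := f) (g := g) (fun p q h => by
      simp only [hg, Prod.mk.injEq] at h; exact h.1) p
    set S2 := fiber f p \ S1 with hS2
    have hn : fib f p = (S1.card : ℝ) + (S2.card : ℝ) := by
      unfold fib
      rw [← Finset.card_sdiff_add_card_eq_card hsub]
      push_cast; ring
    have ha : fib g p = (S1.card : ℝ) := rfl
    have hfib : ∀ q ∈ S2, fib g q = (S2.card : ℝ) := by
      intro q hq
      have hq1 := (Finset.mem_sdiff.1 hq).1
      have hq2 := (Finset.mem_sdiff.1 hq).2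
      rw [mem_fiber] at hq1
      have hcq : c q ≠ c p := by
        intro h
        exact hq2 ((mem_fiber g p q).2 (by simp [hg, hq1, h]))
      have : fiber g q = S2 := by
        ext r
        rw [mem_fiber, hS2, Finset.mem_sdiff, mem_fiber, hS1, mem_fiber]
        simp only [hg, Prod.mk.injEq]
        constructor
        · rintro ⟨h1, h2⟩
          refine ⟨h1.trans hq1, fun h => ?_⟩
          exact hcq (h2.symm.trans h.2)
        · rintro ⟨h1, h2⟩
          refine ⟨h1.trans hq1.symm, ?_⟩
          by_contra hne
          have hcr : c r ≠ c p := fun h => h2 ⟨h1, h⟩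
          have h3 : ({c p, c q, c r} : Set γ) ⊆ (fiber f p : Set Ω).image c := by
            intro x hx
            rcases hx with rfl | rfl | rfl
            · exact ⟨p, by simp [mem_fiber], rfl⟩
            · exact ⟨q, by simp [mem_fiber, hq1], rfl⟩
            · exact ⟨r, by simp [mem_fiber, h1], rfl⟩
          have h4 := Set.ncard_le_ncard h3 (Set.Finite.image _ (Finset.finite_toSet _))
          have h5 : ({c p, c q, c r} : Set γ).ncard = 3 := by
            rw [Set.ncard_eq_three]
            exact ⟨c p, c q, c r, hcq.symm, hcr.symm, fun h => hne h.symm, rfl⟩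
          have := hc p
          omega
      unfold fib
      rw [this]
    have hfn : ∀ q ∈ fiber f p, fib f q = fib f p := fun q hq => fib_congr f ((mem_fiber f p q).1 hq)
    have hsum : (∑ q ∈ fiber f p, (Real.log (fib f q) - Real.log (fib g q) -
        (1 - fib g q / fib f q) * Real.log M)) =
        (S1.card : ℝ) * (Real.log (fib f p) - Real.log S1.card - (1 - S1.card / fib f p) * Real.log M) +
        (S2.card : ℝ) * (Real.log (fib f p) - Real.log S2.card - (1 - S2.card / fib f p) * Real.log M) := by
      rw [← Finset.sum_sdiff hsub, ← hS2]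
      rw [Finset.sum_congr rfl (g := fun _ => (Real.log (fib f p) - Real.log S2.card -
          (1 - S2.card / fib f p) * Real.log M)) (s₁ := S2) (fun q hq => by
          rw [hfib q hq, hfn q (Finset.mem_sdiff.1 hq).1])]
      rw [Finset.sum_congr rfl (g := fun _ => (Real.log (fib f p) - Real.log S1.card -
          (1 - S1.card / fib f p) * Real.log M)) (s₁ := S1) (fun q hq => by
          rw [hfn q (hsub hq), fib_congr g ((mem_fiber g p q).1 hq), ha])]
      rw [Finset.sum_const, Finset.sum_const, nsmul_eq_mul, nsmul_eq_mul]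
      ring
    have hS1pos : (0:ℝ) < S1.card := by rw [← ha]; exact fib_pos g p
    have hnum := num hS1pos (Nat.cast_nonneg S2.card) hM
    rw [← hn] at hnum
    rw [hsum, div_le_iff₀ (fib_pos f p)]
    have : 1 / M * fib f p = fib f p / M := by ring
    rw [this]
    linarith
  have h1 := class_sum f (fun q => Real.log (fib f q) - Real.log (fib g q) -
      (1 - fib g q / fib f q) * Real.log M)
  have h2 : ∑ p, (Real.log (fib f p) - Real.log (fib g p) -
      (1 - fib g p / fib f p) * Real.log M) ≤ (Fintype.card Ω : ℝ) * (1 / M) := by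
    rw [← h1]
    calc _ ≤ ∑ p : Ω, (1 / M) := Finset.sum_le_sum fun p _ => key p
      _ = _ := by rw [Finset.sum_const, Finset.card_univ, nsmul_eq_mul]
  have h3 : HR f - HR g - avg (fun p => 1 - fib g p / fib f p) * Real.log M =
      (∑ p, (Real.log (fib f p) - Real.log (fib g p) -
        (1 - fib g p / fib f p) * Real.log M)) / (Fintype.card Ω : ℝ) := by
    have h5 : ∑ p, (Real.log (fib f p) - Real.log (fib g p) -
        (1 - fib g p / fib f p) * Real.log M) = ∑ p, Real.log (fib f p) - ∑ p, Real.log (fib g p) -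
        (∑ p, (1 - fib g p / fib f p)) * Real.log M := by
      rw [Finset.sum_mul, ← Finset.sum_sub_distrib, ← Finset.sum_sub_distrib]
    rw [h5]
    unfold HR avg
    ring
  have h4 : (∑ p, (Real.log (fib f p) - Real.log (fib g p) -
        (1 - fib g p / fib f p) * Real.log M)) / (Fintype.card Ω : ℝ) ≤ 1 / M := by
    rw [div_le_iff₀ hN]
    linarith
  linarith

end H517.EO
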