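import Pool.Agent.H517R2.EO.Basic

/-!
# TEAM EO, task F2 (helper446): entropy of a sum of independent digits
-/

set_option autoImplicit false

open Finset

namespace H517.EO

theorem f2_fib_pair {P Q β γ : Type} [Fintype P] [Fintype Q] (f : P → β) (g : Q → γ) (x : P × Q) :
    fib (fun x : P × Q => (f x.1, g x.2)) x = fib f x.1 * fib g x.2 := by
  unfold fib
  have : fiber (fun x : P × Q => (f x.1, g x.2)) x = fiber f x.1 ×ˢ fiber g x.2 := by
    ext y
    rw [mem_fiber, Finset.mem_product, mem_fiber, mem_fiber, Prod.mk.injEq]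
  rw [this, Finset.card_product]
  push_cast
  rfl

theorem f2_HR_pair {P Q β γ : Type} [Fintype P] [Fintype Q] [Nonempty P] [Nonempty Q]
    (f : P → β) (g : Q → γ) :
    HR (fun x : P × Q => (f x.1, g x.2)) = HR f + HR g := by
  unfold HR
  rw [avg_prod]
  have h1 : ∀ p : P, avg (fun q : Q => Real.log (fib (fun x : P × Q => (f x.1, g x.2)) (p, q))) =
      Real.log (fib f p) + avg (fun q => Real.log (fib g q)) := by
    intro p
    rw [← avg_const (Ω := Q) (Real.log (fib f p)), ← avg_add]
    refine avg_congr fun q => ?_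
    rw [f2_fib_pair, Real.log_mul (fib_pos _ _).ne' (fib_pos _ _).ne']
  rw [avg_congr h1, avg_add, avg_const]

theorem f2_HR_const {P β : Type} [Fintype P] [Nonempty P] (c : β) :
    HR (fun _ : P => c) = Real.log (Fintype.card P) := by
  unfold HR
  have : ∀ p : P, Real.log (fib (fun _ : P => c) p) = Real.log (Fintype.card P) := by
    intro p
    unfold fib fiber
    simp
  rw [avg_congr this, avg_const]

theorem f2_card_mul_HR {P β : Type} [Fintype P] (f : P → β) :
    (Fintype.card P : ℝ) * HR f = ∑ p, Real.log (fib f p) := by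
  unfold HR avg
  by_cases h : (Fintype.card P : ℝ) = 0
  · have h0 : Fintype.card P = 0 := by exact_mod_cast h
    have := Fintype.card_eq_zero_iff.1 h0
    simp
  · field_simp

theorem f2_HR_le {P β : Type} [Fintype P] [Nonempty P] (f : P → β) :
    HR f ≤ Real.log (Fintype.card P) := by
  unfold HR
  exact avg_le_of_le fun p => Real.log_le_log (fib_pos f p) (fib_le_card f p)

theorem t_F_ent (hS : E_submod) : F_ent := by
  classical
  intro A S S' _ _ _ _ _ d d' M hM
  -- a value of maximal probability
  obtain ⟨s0, -, hs0⟩ := Finset.exists_max_image (Finset.univ : Finset S) (fun s => fib d s)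
    Finset.univ_nonempty
  have hmax : ∀ s, fib d s ≤ fib d s0 := fun s => hs0 s (Finset.mem_univ s)
  set t0 := d s0 with ht0
  set N : ℝ := (Fintype.card S : ℝ) with hN
  set N' : ℝ := (Fintype.card S' : ℝ) with hN'
  have hNpos : 0 < N := by rw [hN]; exact_mod_cast Fintype.card_pos
  have hN'pos : 0 < N' := by rw [hN']; exact_mod_cast Fintype.card_pos
  set K0 : ℝ := (Fintype.card {s // d s = t0} : ℝ) with hK0
  set K1 : ℝ := (Fintype.card {s // ¬ d s = t0} : ℝ) with hK1
  have hK0fib : fib d s0 = K0 := by
    rw [hK0, Fintype.card_subtype]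
    unfold fib
    congr 2
    ext s
    simp [mem_fiber, ht0]
  have hK0pos : 0 < K0 := by rw [← hK0fib]; exact fib_pos _ _
  have hK1nn : 0 ≤ K1 := by rw [hK1]; exact Nat.cast_nonneg _
  have hKK : K0 + K1 = N := by
    rw [hK0, hK1, hN]
    have := Fintype.card_subtype_compl (fun s : S => d s = t0)
    have h2 := Fintype.card_subtype_le (fun s : S => d s = t0)
    have h3 : Fintype.card {s // d s = t0} + Fintype.card {s // ¬ d s = t0} = Fintype.card S := by
      omega
    exact_mod_cast h3
  -- fibres on the two parts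
  have hfib0 : ∀ s, d s = t0 → fib d s = K0 := by
    intro s hs
    rw [← hK0fib]
    exact fib_congr d hs
  set d1 : {s // ¬ d s = t0} → (A → ℤ) := fun s => d s.1 with hd1
  have hfib1 : ∀ s : {s // ¬ d s = t0}, fib d s.1 = fib d1 s := by
    intro s
    unfold fib
    congr 1
    symm
    apply Finset.card_bij (fun r _ => r.1)
    · intro r hr
      rw [mem_fiber] at hr ⊢
      exact hr
    · intro a _ b _ h
      exact Subtype.ext h
    · intro r hr
      rw [mem_fiber] at hr
      refine ⟨⟨r, by rw [hr]; exact s.2⟩, ?_, rfl⟩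
      rw [mem_fiber]
      exact hr
  -- (i)
  have hi : N * HR d = K0 * Real.log K0 + K1 * HR d1 := by
    rw [hN, f2_card_mul_HR, ← Fintype.sum_subtype_add_sum_subtype (fun s : S => d s = t0)
      (fun s => Real.log (fib d s)), hK1, f2_card_mul_HR]
    congr 1
    · have : ∀ s : {s // d s = t0}, Real.log (fib d s.1) = Real.log K0 := by
        intro s
        rw [hfib0 s.1 s.2]
      rw [Finset.sum_congr rfl fun s _ => this s, Finset.sum_const, Finset.card_univ,
        nsmul_eq_mul]
    · exact Finset.sum_congr rfl fun s _ => by rw [hfib1]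
  -- the indicator and the sum
  set F : S × S' → (A → ℤ) := fun x => d x.1 + d' x.2 with hF
  set Xi : S × S' → Prop := fun x => d x.1 = t0 with hXi
  set F1 : {s // ¬ d s = t0} × S' → (A → ℤ) := fun x => d x.1.1 + d' x.2 with hF1
  have hPfib0 : ∀ (s : S) (s' : S'), d s = t0 →
      fib (fun x : S × S' => (Xi x, F x)) (s, s') = K0 * fib d' s' := by
    intro s s' hs
    rw [← hfib0 s hs, ← f2_fib_pair d d' (s, s')]
    unfold fib
    congr 2
    ext ⟨r, r'⟩
    rw [mem_fiber, mem_fiber]
    simp only [hXi, hF, Prod.mk.injEq, hs, eq_iff_iff, iff_true]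
    constructor
    · rintro ⟨h1, h2⟩
      rw [h1] at h2
      exact ⟨h1, add_left_cancel h2⟩
    · rintro ⟨h1, h2⟩
      exact ⟨h1, by rw [h1, h2]⟩
  have hPfib1 : ∀ (s : {s // ¬ d s = t0}) (s' : S'),
      fib (fun x : S × S' => (Xi x, F x)) (s.1, s') = fib F1 (s, s') := by
    intro s s'
    unfold fib
    congr 1
    symm
    apply Finset.card_bij (fun r _ => (r.1.1, r.2))
    · rintro ⟨r, r'⟩ hr
      rw [mem_fiber] at hr ⊢
      simp only [hXi, Prod.mk.injEq, eq_iff_iff]
      exact ⟨⟨fun h => absurd h r.2, fun h => absurd h s.2⟩, hr⟩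
    · rintro ⟨a, a'⟩ _ ⟨b, b'⟩ _ h
      simp only [Prod.mk.injEq] at h
      exact Prod.ext (Subtype.ext h.1) h.2
    · rintro ⟨r, r'⟩ hr
      rw [mem_fiber] at hr
      simp only [hXi, Prod.mk.injEq, eq_iff_iff] at hr
      refine ⟨(⟨r, fun h => s.2 (hr.1.1 h)⟩, r'), ?_, rfl⟩
      rw [mem_fiber]
      exact hr.2
  -- (ii)
  have hii : N * N' * HR (fun x : S × S' => (Xi x, F x)) =
      K0 * N' * Real.log K0 + K0 * (N' * HR d') + K1 * N' * HR F1 := by
    have hc : (Fintype.card (S × S') : ℝ) = N * N' := by
      rw [Fintype.card_prod]; push_cast; rfl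
    rw [← hc, f2_card_mul_HR, Fintype.sum_prod_type,
      ← Fintype.sum_subtype_add_sum_subtype (fun s : S => d s = t0)]
    congr 1
    · have : ∀ s : {s // d s = t0}, ∑ s' : S', Real.log (fib (fun x : S × S' => (Xi x, F x)) (s.1, s'))
          = N' * Real.log K0 + N' * HR d' := by
        intro s
        rw [hN', f2_card_mul_HR]
        have h2 : ∀ s' : S', Real.log (fib (fun x : S × S' => (Xi x, F x)) (s.1, s')) =
            Real.log K0 + Real.log (fib d' s') := by
          intro s'
          rw [hPfib0 s.1 s' s.2, Real.log_mul hK0pos.ne' (fib_pos _ _).ne']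
        rw [Finset.sum_congr rfl fun s' _ => h2 s', Finset.sum_add_distrib, Finset.sum_const,
          Finset.card_univ, nsmul_eq_mul]
      rw [Finset.sum_congr rfl fun s _ => this s, Finset.sum_const, Finset.card_univ,
        nsmul_eq_mul]
      ring
    · have hc1 : (Fintype.card ({s // ¬ d s = t0} × S') : ℝ) = K1 * N' := by
        rw [Fintype.card_prod]; push_cast; rfl
      rw [← hc1, f2_card_mul_HR, Fintype.sum_prod_type]
      exact Finset.sum_congr rfl fun s _ => Finset.sum_congr rfl fun s' _ => by rw [hPfib1]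
  -- (iii)
  have hXfib0 : ∀ (s : S) (s' : S'), d s = t0 → fib Xi (s, s') = K0 * N' := by
    intro s s' hs
    have h2 := f2_fib_pair d (fun _ : S' => ()) (s, s')
    have h3 : fib (fun _ : S' => ()) s' = N' := by
      unfold fib fiber
      simp [hN']
    simp only [h3] at h2
    rw [hfib0 s hs] at h2
    rw [← h2]
    unfold fib
    congr 2
    ext ⟨r, r'⟩
    rw [mem_fiber, mem_fiber]
    simp only [hXi, Prod.mk.injEq, hs, eq_iff_iff, iff_true, and_true]
  have hXfib1 : ∀ (s : {s // ¬ d s = t0}) (s' : S'), fib Xi (s.1, s') = K1 * N' := by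
    intro s s'
    have hc1 : (Fintype.card ({s // ¬ d s = t0} × S') : ℝ) = K1 * N' := by
      rw [Fintype.card_prod]; push_cast; rfl
    rw [← hc1, ← Finset.card_univ]
    unfold fib
    congr 1
    symm
    apply Finset.card_bij (fun r _ => (r.1.1, r.2))
    · rintro ⟨r, r'⟩ hr
      rw [mem_fiber]
      simp only [hXi, eq_iff_iff]
      exact ⟨fun h => absurd h r.2, fun h => absurd h s.2⟩
    · rintro ⟨a, a'⟩ _ ⟨b, b'⟩ _ h
      simp only [Prod.mk.injEq] at h
      exact Prod.ext (Subtype.ext h.1) h.2
    · rintro ⟨r, r'⟩ hr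
      rw [mem_fiber] at hr
      simp only [hXi, eq_iff_iff] at hr
      exact ⟨(⟨r, fun h => s.2 (hr.1 h)⟩, r'), Finset.mem_univ _, rfl⟩
  have hiii : N * N' * HR Xi =
      K0 * N' * Real.log (K0 * N') + K1 * N' * Real.log (K1 * N') := by
    have hc : (Fintype.card (S × S') : ℝ) = N * N' := by
      rw [Fintype.card_prod]; push_cast; rfl
    rw [← hc, f2_card_mul_HR, Fintype.sum_prod_type,
      ← Fintype.sum_subtype_add_sum_subtype (fun s : S => d s = t0)]
    congr 1
    · have : ∀ s : {s // d s = t0}, ∑ s' : S', Real.log (fib Xi (s.1, s'))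
          = N' * Real.log (K0 * N') := by
        intro s
        rw [Finset.sum_congr rfl fun s' _ => by rw [hXfib0 s.1 s' s.2], Finset.sum_const,
          Finset.card_univ, nsmul_eq_mul]
      rw [Finset.sum_congr rfl fun s _ => this s, Finset.sum_const, Finset.card_univ,
        nsmul_eq_mul]
      ring
    · have : ∀ s : {s // ¬ d s = t0}, ∑ s' : S', Real.log (fib Xi (s.1, s'))
          = N' * Real.log (K1 * N') := by
        intro s
        rw [Finset.sum_congr rfl fun s' _ => by rw [hXfib1 s s'], Finset.sum_const,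
          Finset.card_univ, nsmul_eq_mul]
      rw [Finset.sum_congr rfl fun s _ => this s, Finset.sum_const, Finset.card_univ,
        nsmul_eq_mul]
      ring
  -- (iv)
  have hiv : K1 * HR F1 ≤ K1 * (Real.log N' + HR d1) := by
    rcases hK1nn.eq_or_lt with h0 | h0
    · rw [← h0]; simp
    · apply mul_le_mul_of_nonneg_left _ hK1nn
      have hne : Nonempty {s // ¬ d s = t0} := by
        rw [← Fintype.card_pos_iff]
        have : (0 : ℝ) < (Fintype.card {s // ¬ d s = t0} : ℝ) := h0
        exact_mod_cast this
      have h1 := hS ({s // ¬ d s = t0} × S') Unit (A → ℤ) (A → ℤ) (fun _ => ())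
        (fun x => d' x.2) F1
      unfold condH at h1
      have e1 : HR (fun p : {s // ¬ d s = t0} × S' => (((), d' p.2) : Unit × (A → ℤ))) =
          Real.log K1 + HR d' := by
        rw [← f2_HR_const (P := {s // ¬ d s = t0}) (), ← f2_HR_pair]
      have e2 : HR (fun p : {s // ¬ d s = t0} × S' => ((((), d' p.2) : Unit × (A → ℤ)), F1 p)) =
          HR d1 + HR d' := by
        rw [← f2_HR_pair]
        refine HR_congr fun p q => ?_
        simp only [hF1, hd1, Prod.mk.injEq, true_and]
        constructor
        · rintro ⟨h2, h3⟩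
          rw [h2] at h3
          exact ⟨add_right_cancel h3, h2⟩
        · rintro ⟨h2, h3⟩
          exact ⟨h3, by rw [h2, h3]⟩
      have e3 : HR (fun _ : {s // ¬ d s = t0} × S' => ()) = Real.log K1 + Real.log N' := by
        rw [f2_HR_const, Fintype.card_prod]
        push_cast
        rw [Real.log_mul h0.ne' hN'pos.ne']
      have e4 : HR (fun p : {s // ¬ d s = t0} × S' => (((), F1 p) : Unit × (A → ℤ))) = HR F1 := by
        refine HR_congr fun p q => ?_
        simp
      rw [e1, e2, e3, e4] at h1
      linarith
  -- (v)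
  have hv : HR Xi - HR (fun x : S × S' => (Xi x, F x)) ≤ Real.log (N * N') - HR F := by
    have h1 := hS (S × S') Unit Prop (A → ℤ) (fun _ => ()) Xi F
    unfold condH at h1
    have e1 : HR (fun p : S × S' => (((), Xi p) : Unit × Prop)) = HR Xi := by
      refine HR_congr fun p q => ?_
      simp
    have e2 : HR (fun p : S × S' => ((((), Xi p) : Unit × Prop), F p)) =
        HR (fun x : S × S' => (Xi x, F x)) := by
      refine HR_congr fun p q => ?_
      simp
    have e3 : HR (fun _ : S × S' => ()) = Real.log (N * N') := by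
      rw [f2_HR_const, Fintype.card_prod]
      push_cast
      rfl
    have e4 : HR (fun p : S × S' => (((), F p) : Unit × (A → ℤ))) = HR F := by
      refine HR_congr fun p q => ?_
      simp
    rw [e1, e2, e3, e4] at h1
    exact h1
  -- the entropy of the sum
  have hHd' : 0 ≤ Real.log N' - HR d' := by
    have := f2_HR_le d'
    linarith
  have hlogM : 0 ≤ Real.log M := Real.log_nonneg hM
  have hMpos : 0 < M := by linarith
  have hsum : K0 * (Real.log N' - HR d') + K1 * Real.log K1 - K1 * HR d1 ≤
      N * (Real.log (N * N') - HR F) := by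
    have h1 : N' * (N * (HR Xi - HR (fun x : S × S' => (Xi x, F x)))) =
        N' * (K0 * Real.log (K0 * N') + K1 * Real.log (K1 * N') - K0 * Real.log K0
          - K0 * HR d' - K1 * HR F1) := by
      linear_combination hiii - hii
    have h2 := mul_left_cancel₀ hN'pos.ne' h1
    have h3 : N * (HR Xi - HR (fun x : S × S' => (Xi x, F x))) ≤
        N * (Real.log (N * N') - HR F) := mul_le_mul_of_nonneg_left hv hNpos.le
    rw [h2] at h3
    have h4 : K0 * Real.log (K0 * N') = K0 * Real.log K0 + K0 * Real.log N' := by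
      rw [Real.log_mul hK0pos.ne' hN'pos.ne']; ring
    have h5 : K1 * Real.log (K1 * N') = K1 * Real.log K1 + K1 * Real.log N' := by
      rcases hK1nn.eq_or_lt with h0 | h0
      · rw [← h0]; simp
      · rw [Real.log_mul h0.ne' hN'pos.ne']; ring
    linarith
  -- the entropy of the indicator
  have hent : N * Real.log N - K0 * Real.log K0 - K1 * Real.log K1 ≤ K1 * Real.log M + N / M := by
    have h1 : K0 * (Real.log N - Real.log K0) ≤ K1 := by
      rw [← Real.log_div hNpos.ne' hK0pos.ne']
      have h2 := Real.log_le_sub_one_of_pos (div_pos hNpos hK0pos)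
      calc K0 * Real.log (N / K0) ≤ K0 * (N / K0 - 1) := mul_le_mul_of_nonneg_left h2 hK0pos.le
        _ = K1 := by field_simp; linarith
    have h3 : K1 * (Real.log N - Real.log K1) ≤ K1 * Real.log M + N / M - K1 := by
      rcases hK1nn.eq_or_lt with h0 | h0
      · rw [← h0]
        have : 0 ≤ N / M := by positivity
        linarith
      · have h4 := Real.log_le_sub_one_of_pos (show 0 < N / (K1 * M) by positivity)
        rw [Real.log_div hNpos.ne' (by positivity), Real.log_mul h0.ne' hMpos.ne'] at h4
        have h5 : K1 * (Real.log N - (Real.log K1 + Real.log M)) ≤ K1 * (N / (K1 * M) - 1) :=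
          mul_le_mul_of_nonneg_left h4 hK1nn
        have h6 : K1 * (N / (K1 * M) - 1) = N / M - K1 := by field_simp
        rw [h6] at h5
        linarith
    have h7 : N * Real.log N = K0 * Real.log N + K1 * Real.log N := by rw [← hKK]; ring
    linarith
  -- the collision probability
  have hcoll : K1 / N ≤ 1 - coll d := by
    have h1 : coll d ≤ K0 / N := by
      unfold coll
      refine avg_le_of_le fun p => ?_
      rw [← hK0fib]
      exact div_le_div_of_nonneg_right (hmax p) hNpos.le
    have h2 : K1 / N = 1 - K0 / N := by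
      rw [← hKK]
      field_simp
      ring
    linarith
  have hmain : Real.log N - HR d ≤ K1 / N * (Real.log M + (Real.log N' - HR d')) + 1 / M +
      ((Real.log (N * N') - HR F) - (Real.log N' - HR d')) := by
    have h1 : N * (Real.log N - HR d) ≤ N * (K1 / N * (Real.log M + (Real.log N' - HR d'))
        + 1 / M + ((Real.log (N * N') - HR F) - (Real.log N' - HR d'))) := by
      have e1 : N * (K1 / N * (Real.log M + (Real.log N' - HR d'))
        + 1 / M + ((Real.log (N * N') - HR F) - (Real.log N' - HR d'))) =
          K1 * Real.log M + K1 * (Real.log N' - HR d') + N / M +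
            N * (Real.log (N * N') - HR F) - N * (Real.log N' - HR d') := by
        field_simp
        ring
      rw [e1, mul_sub, hi]
      have e2 : N * (Real.log N' - HR d') = K0 * (Real.log N' - HR d') +
          K1 * (Real.log N' - HR d') := by rw [← hKK]; ring
      linarith
    exact le_of_mul_le_mul_left h1 hNpos
  have hcard : (Fintype.card (S × S') : ℝ) = N * N' := by
    rw [Fintype.card_prod]; push_cast; rfl
  unfold Hd
  rw [hcard]
  refine hmain.trans ?_
  have h9 : K1 / N * (Real.log M + (Real.log N' - HR d')) ≤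
      (1 - coll d) * (Real.log M + (Real.log N' - HR d')) :=
    mul_le_mul_of_nonneg_right hcoll (by linarith)
  linarith

end H517.EO
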