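import Pool.Agent.H517R2.EO.Basic

/-!
# TEAM EO : task F4, entropy increments of the digits (`F_two`)
-/

set_option autoImplicit false

open Finset

namespace H517.EO

namespace F4

section general

variable {Ω β γ δ : Type} [Fintype Ω]

/-- averaging over classes -/
theorem avg_fiber (f : Ω → β) (φ : Ω → ℝ) :
    avg (fun p => (∑ r ∈ fiber f p, φ r) / fib f p) = avg φ := by
  classical
  unfold avg
  congr 1
  have h1 : ∀ p, (∑ r ∈ fiber f p, φ r) / fib f p =
      ∑ r, if f r = f p then φ r / fib f r else 0 := by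
    intro p
    rw [Finset.sum_div, ← Finset.sum_filter]
    have : fiber f p = Finset.univ.filter (fun q => f q = f p) := by
      ext q
      simp [mem_fiber]
    rw [this]
    refine Finset.sum_congr rfl fun r hr => ?_
    rw [Finset.mem_filter] at hr
    rw [fib_congr f hr.2]
  rw [Finset.sum_congr rfl fun p _ => h1 p, Finset.sum_comm]
  refine Finset.sum_congr rfl fun r _ => ?_
  rw [← Finset.sum_filter, Finset.sum_const]
  have : (Finset.univ.filter (fun p => f r = f p)) = fiber f r := by
    ext q
    simp [mem_fiber, eq_comm]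
  rw [this, nsmul_eq_mul]
  have h2 : ((fiber f r).card : ℝ) = fib f r := rfl
  rw [h2, mul_div_assoc', mul_comm, mul_div_assoc, div_self (fib_pos f r).ne', mul_one]

/-- the class of `p` as a type -/
abbrev Cl (f : Ω → β) (p : Ω) : Type := {r : Ω // r ∈ fiber f p}

instance (f : Ω → β) (p : Ω) : Nonempty (Cl f p) := ⟨⟨p, self_mem_fiber f p⟩⟩

theorem card_Cl (f : Ω → β) (p : Ω) : (Fintype.card (Cl f p) : ℝ) = fib f p := by
  unfold fib
  rw [Fintype.card_coe]

/-- fibres inside a class -/
theorem fib_Cl (f : Ω → β) (d : Ω → δ) (p : Ω) (r : Cl f p) :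
    fib (fun x : Cl f p => d x) r = fib (fun q => (f q, d q)) (r : Ω) := by
  classical
  unfold fib
  congr 1
  apply Finset.card_bij (fun (q : Cl f p) _ => (q : Ω))
  · intro q hq
    rw [mem_fiber] at hq ⊢
    have h1 := (mem_fiber f p q).1 q.2
    have h2 := (mem_fiber f p r).1 r.2
    exact Prod.ext (h1.trans h2.symm) hq
  · intro a _ b _ h
    exact Subtype.ext h
  · intro b hb
    rw [mem_fiber] at hb
    have h1 : f b = f r := congrArg Prod.fst hb
    have h2 : d b = d r := congrArg Prod.snd hb
    have h3 := (mem_fiber f p r).1 r.2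
    exact ⟨⟨b, (mem_fiber f p b).2 (h1.trans h3)⟩, (mem_fiber _ _ _).2 h2, rfl⟩

theorem avg_Cl (f : Ω → β) (φ : Ω → ℝ) (p : Ω) :
    avg (fun x : Cl f p => φ x) = (∑ r ∈ fiber f p, φ r) / fib f p := by
  unfold avg
  rw [card_Cl]
  congr 1
  exact Finset.sum_coe_sort (fiber f p) φ

/-- decomposition of a conditional entropy over classes -/
theorem condH_eq_avg (f : Ω → β) (d : Ω → δ) :
    condH d f = avg (fun p => Hd (fun x : Cl f p => d x)) := by
  have h1 : ∀ p, Hd (fun x : Cl f p => d x) = Real.log (fib f p) -
      (∑ r ∈ fiber f p, Real.log (fib (fun q => (f q, d q)) r)) / fib f p := by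
    intro p
    unfold Hd
    rw [card_Cl]
    congr 1
    unfold HR
    rw [← avg_Cl f (fun r => Real.log (fib (fun q => (f q, d q)) r)) p]
    exact avg_congr fun r => by rw [fib_Cl]
  rw [avg_congr h1, avg_sub, avg_fiber]
  rfl

theorem avg_coll (f : Ω → β) (d : Ω → δ) :
    avg (fun p => coll (fun x : Cl f p => d x)) =
      avg (fun p => fib (fun q => (f q, d q)) p / fib f p) := by
  rw [← avg_fiber f (fun p => fib (fun q => (f q, d q)) p / fib f p)]
  refine avg_congr fun p => ?_
  unfold coll
  rw [← avg_Cl f (fun p => fib (fun q => (f q, d q)) p / fib f p) p]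
  refine avg_congr fun r => ?_
  rw [fib_Cl, card_Cl]
  congr 1
  exact (fib_congr f ((mem_fiber f p r).1 r.2)).symm

theorem Hd_equiv {Ω' : Type} [Fintype Ω'] (e : Ω ≃ Ω') (f : Ω' → β) :
    Hd (fun q => f (e q)) = Hd f := by
  unfold Hd
  rw [HR_equiv e f, Fintype.card_congr e]

end general

section product

variable {P Q β γ : Type} [Fintype P] [Fintype Q]

/-- classes of a product function -/
def clEquiv (f : P → β) (g : Q → γ) (p : P) (q : Q) :
    Cl f p × Cl g q ≃ Cl (fun x : P × Q => (f x.1, g x.2)) (p, q) where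
  toFun x := ⟨(x.1, x.2), by
    rw [mem_fiber]
    exact Prod.ext ((mem_fiber f p x.1).1 x.1.2) ((mem_fiber g q x.2).1 x.2.2)⟩
  invFun y := (⟨y.1.1, by
    have := (mem_fiber _ _ _).1 y.2
    exact (mem_fiber f p _).2 (congrArg Prod.fst this)⟩, ⟨y.1.2, by
    have := (mem_fiber _ _ _).1 y.2
    exact (mem_fiber g q _).2 (congrArg Prod.snd this)⟩)
  left_inv x := rfl
  right_inv y := rfl

theorem condH_prod {δ : Type} (f : P → β) (g : Q → γ) (u : P × Q → δ) :
    condH u (fun x : P × Q => (f x.1, g x.2)) =
      avg (fun p => avg (fun q => Hd (fun x : Cl f p × Cl g q => u (x.1, x.2)))) := by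
  rw [condH_eq_avg, avg_prod]
  refine avg_congr fun p => avg_congr fun q => ?_
  rw [← Hd_equiv (clEquiv f g p q)]
  rfl

end product

/-- digit -/
noncomputable def dig {A : Type} (τ : A → A → PowerSeries ℤ) (j : ℕ) {k : ℕ} (p : Fin k → A) :
    A → ℤ := fun b => PowerSeries.coeff j (YY τ p b)

theorem YM_succ_iff {A : Type} (τ : A → A → PowerSeries ℤ) (J : ℕ) {k : ℕ} (p q : Fin k → A) :
    YM τ (J + 1) p = YM τ (J + 1) q ↔ (YM τ J p, dig τ J p) = (YM τ J q, dig τ J q) := by
  rw [Prod.ext_iff]
  simp only
  rw [YM_eq_iff, YM_eq_iff]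
  constructor
  · intro h
    refine ⟨fun b j hj => h b j (by omega), ?_⟩
    funext b
    exact h b J (by omega)
  · rintro ⟨h1, h2⟩ b j hj
    rcases Nat.lt_succ_iff_lt_or_eq.1 hj with h | h
    · exact h1 b j h
    · subst h
      exact congrFun h2 b

theorem coeff_append {A : Type} (τ : A → A → PowerSeries ℤ) {k m : ℕ} (u : Fin k → A)
    (v : Fin m → A) (b : A) (j : ℕ) :
    PowerSeries.coeff j (YY τ (Fin.append u v) b) = PowerSeries.coeff j (YY τ u b) +
      (if k ≤ j then PowerSeries.coeff (j - k) (YY τ v b) else 0) := by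
  rw [YY_append, map_add, PowerSeries.coeff_X_pow_mul']

end F4

open F4

theorem t_F_two (h1 : F_ent) (h2 : E_submod) (h3 : F_h) : F_two := by
  intro A _ _ τ k q hkq M hM
  obtain ⟨m, rfl⟩ := Nat.exists_eq_add_of_le hkq
  rw [Nat.add_sub_cancel_left]
  -- notation
  let f : (Fin k → A) → (A → ℕ → ℤ) := fun p => YM τ (k + m) p
  let g : (Fin (m + 1) → A) → (A → ℕ → ℤ) := fun p => YM τ m p
  let d : (Fin k → A) → A → ℤ := fun p => dig τ (k + m) p
  let d' : (Fin (m + 1) → A) → A → ℤ := fun p => dig τ m p
  -- left hand side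
  have hL : HR (fun p : Fin k → A => YM τ (k + m) p) - HR (fun p : Fin k → A => YM τ (k + m + 1) p)
      = avg (fun p => Hd (fun x : Cl f p => d x)) := by
    rw [← condH_eq_avg]
    unfold condH
    congr 1
    exact HR_congr fun p q => YM_succ_iff τ (k + m) p q
  have hdel : del τ k (k + m) = 1 - avg (fun p => coll (fun x : Cl f p => d x)) := by
    rw [avg_coll]
    unfold del
    rw [avg_sub, avg_const]
    congr 1
    refine avg_congr fun p => ?_
    congr 1
    exact fib_eq_of_iff (fun p q => YM_succ_iff τ (k + m) p q) p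
  have hhm : hh τ m = avg (fun p => Hd (fun x : Cl g p => d' x)) := by
    rw [← condH_eq_avg]
    unfold hh condH
    congr 1
    exact HR_congr fun p q => YM_succ_iff τ m p q
  -- the long words
  have hlong : avg (fun p => avg (fun p' =>
      Hd (fun x : Cl f p × Cl g p' => d x.1 + d' x.2))) ≤ hh τ (k + m) := by
    have e1 := condH_prod f g (fun x : (Fin k → A) × (Fin (m + 1) → A) => d x.1 + d' x.2)
    have e2 : condH (fun x : (Fin k → A) × (Fin (m + 1) → A) => d x.1 + d' x.2)
        (fun x => (f x.1, g x.2)) =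
        condH (fun x : (Fin k → A) × (Fin (m + 1) → A) => d x.1 + d' x.2)
          (fun x => (YM τ (k + m) (Fin.append x.1 x.2), (f x.1, g x.2))) := by
      have key : ∀ x y : (Fin k → A) × (Fin (m + 1) → A), (f x.1, g x.2) = (f y.1, g y.2) →
          YM τ (k + m) (Fin.append x.1 x.2) = YM τ (k + m) (Fin.append y.1 y.2) := by
        intro x y hxy
        have ha : YM τ (k + m) x.1 = YM τ (k + m) y.1 := congrArg Prod.fst hxy
        have hb : YM τ m x.2 = YM τ m y.2 := congrArg Prod.snd hxy
        rw [YM_eq_iff] at ha hb ⊢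
        intro b j hj
        rw [coeff_append, coeff_append, ha b j hj]
        congr 1
        split_ifs with hk
        · exact hb b (j - k) (by omega)
        · rfl
      unfold condH
      congr 1
      · refine HR_congr fun x y => ?_
        constructor
        · intro h
          exact Prod.ext (key x y h) h
        · intro h
          exact congrArg Prod.snd h
      · refine HR_congr fun x y => ?_
        constructor
        · intro h
          have ha : (f x.1, g x.2) = (f y.1, g y.2) := congrArg Prod.fst h
          have hb : d x.1 + d' x.2 = d y.1 + d' y.2 := congrArg Prod.snd h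
          exact Prod.ext (Prod.ext (key x y ha) ha) hb
        · intro h
          have ha : (YM τ (k + m) (Fin.append x.1 x.2), (f x.1, g x.2)) =
            (YM τ (k + m) (Fin.append y.1 y.2), (f y.1, g y.2)) := congrArg Prod.fst h
          have hb : d x.1 + d' x.2 = d y.1 + d' y.2 := congrArg Prod.snd h
          have hc : (f x.1, g x.2) = (f y.1, g y.2) := congrArg Prod.snd ha
          exact Prod.ext hc hb
    have e3 := h2 ((Fin k → A) × (Fin (m + 1) → A)) _ _ _
      (fun x => YM τ (k + m) (Fin.append x.1 x.2)) (fun x => (f x.1, g x.2))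
      (fun x => d x.1 + d' x.2)
    have e4 : condH (fun x : (Fin k → A) × (Fin (m + 1) → A) => d x.1 + d' x.2)
        (fun x => YM τ (k + m) (Fin.append x.1 x.2)) = hh τ (k + m) := by
      unfold condH hh
      congr 1
      · exact (HR_append k (m + 1) (fun p : Fin (k + (m + 1)) → A => YM τ (k + m) p)).symm
      · refine Eq.trans ?_
          (HR_append k (m + 1) (fun p : Fin (k + (m + 1)) → A => YM τ (k + m + 1) p)).symm
        refine (HR_congr fun x y => ?_)
        have hdig : ∀ x : (Fin k → A) × (Fin (m + 1) → A),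
            dig τ (k + m) (Fin.append x.1 x.2) = d x.1 + d' x.2 := by
          intro x
          funext b
          show PowerSeries.coeff (k + m) (YY τ (Fin.append x.1 x.2) b) =
            PowerSeries.coeff (k + m) (YY τ x.1 b) + PowerSeries.coeff m (YY τ x.2 b)
          rw [coeff_append, if_pos (Nat.le_add_right k m), Nat.add_sub_cancel_left]
        rw [YM_succ_iff, hdig, hdig]
    rw [← e1, e2, ← e4]
    exact e3
  -- the pointwise inequality
  have hpt : ∀ p p', Hd (fun x : Cl f p => d x) ≤
      (1 - coll (fun x : Cl f p => d x)) * (Real.log M + Hd (fun x : Cl g p' => d' x)) + 1 / M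
        + (Hd (fun x : Cl f p × Cl g p' => d x.1 + d' x.2) - Hd (fun x : Cl g p' => d' x)) := by
    intro p p'
    exact h1 A (Cl f p) (Cl g p') (fun x => d x) (fun x => d' x) M hM
  have hav : avg (fun p => Hd (fun x : Cl f p => d x)) ≤
      (1 - avg (fun p => coll (fun x : Cl f p => d x))) *
        (Real.log M + avg (fun p' => Hd (fun x : Cl g p' => d' x))) + 1 / M
        + (avg (fun p => avg (fun p' => Hd (fun x : Cl f p × Cl g p' => d x.1 + d' x.2)))
          - avg (fun p' => Hd (fun x : Cl g p' => d' x))) := by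
    have hp : ∀ p, Hd (fun x : Cl f p => d x) ≤
        (1 - coll (fun x : Cl f p => d x)) *
          (Real.log M + avg (fun p' => Hd (fun x : Cl g p' => d' x))) + 1 / M
        + (avg (fun p' => Hd (fun x : Cl f p × Cl g p' => d x.1 + d' x.2))
          - avg (fun p' => Hd (fun x : Cl g p' => d' x))) := by
      intro p
      have := le_avg_of_le (hpt p)
      rw [avg_add, avg_add, avg_const_mul, avg_add, avg_sub, avg_const, avg_const] at this
      exact this
    have := avg_mono hp
    rw [avg_add, avg_add, avg_mul_const, avg_sub, avg_sub, avg_const, avg_const, avg_const] at this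
    exact this
  rw [hL, hdel]
  rw [← hhm] at hav
  have hb := (h3 A τ).1 m
  have hcoll : 0 ≤ 1 - avg (fun p => coll (fun x : Cl f p => d x)) := by
    rw [← hdel]
    unfold del
    refine avg_nonneg fun p => ?_
    have : fib (fun p : Fin k → A => YM τ (k + m + 1) p) p ≤ fib (fun p : Fin k → A => YM τ (k + m) p) p := by
      refine fib_le_fib (fun p q h => ?_) p
      exact congrArg Prod.fst ((YM_succ_iff τ (k + m) p q).1 h)
    rw [sub_nonneg, div_le_one (fib_pos _ p)]
    exact this
  have hmul := mul_le_mul_of_nonneg_left (add_le_add_right hb.2 (Real.log M)) hcoll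
  have hmul' : (1 - avg (fun p => coll (fun x : Cl f p => d x))) * (Real.log M + hh τ m) ≤
      (1 - avg (fun p => coll (fun x : Cl f p => d x))) * (Real.log M + Real.log (Fintype.card A)) :=
    mul_le_mul_of_nonneg_left (by linarith [hb.2]) hcoll
  linarith [hav, hmul', hlong]

end H517.EO
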