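import Pool.Agent.H517R2.EO.Basic

/-!
# TEAM EO, task F5 : bounds and monotonicity of `h` and `Θ`
-/

set_option autoImplicit false

open Finset

namespace H517.EO

namespace F5

/-- entropy of words of length `k` at formal depth `q` -/
noncomputable def HL {A : Type} [Fintype A] (τ : A → A → PowerSeries ℤ) (k q : ℕ) : ℝ :=
  HR (fun p : Fin k → A => YM τ q p)

theorem hh_eq {A : Type} [Fintype A] (τ : A → A → PowerSeries ℤ) (j : ℕ) :
    hh τ j = HL τ (j + 1) j - HL τ (j + 1) (j + 1) := rfl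

theorem YM_of_succ {A : Type} (τ : A → A → PowerSeries ℤ) (J : ℕ) {k : ℕ} (p q : Fin k → A)
    (h : YM τ (J + 1) p = YM τ (J + 1) q) : YM τ J p = YM τ J q := by
  rw [YM_eq_iff] at h ⊢
  intro b j hj
  exact h b j (by omega)

theorem fib_id_prod {P Q β : Type} [Fintype P] [Fintype Q] (g : Q → β) (x : P × Q) :
    fib (fun x : P × Q => (x.1, g x.2)) x = fib g x.2 := by
  classical
  unfold fib
  have : fiber (fun x : P × Q => (x.1, g x.2)) x = {x.1} ×ˢ fiber g x.2 := by
    ext y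
    rw [mem_fiber, Finset.mem_product, Finset.mem_singleton, mem_fiber, Prod.mk.injEq]
  rw [this, Finset.card_product, Finset.card_singleton, one_mul]

theorem HR_id_prod {P Q β : Type} [Fintype P] [Fintype Q] [Nonempty P] (g : Q → β) :
    HR (fun x : P × Q => (x.1, g x.2)) = HR g := by
  unfold HR
  rw [avg_prod]
  have : ∀ p : P, avg (fun p' : Q => Real.log (fib (fun x : P × Q => (x.1, g x.2)) (p, p')))
      = avg (fun p' : Q => Real.log (fib g p')) := by
    intro p
    exact avg_congr fun p' => by rw [fib_id_prod]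
  rw [avg_congr this, avg_const]

theorem fib_fst {P Q β : Type} [Fintype P] [Fintype Q] (f : P → β) (x : P × Q) :
    fib (fun x : P × Q => f x.1) x = fib f x.1 * (Fintype.card Q : ℝ) := by
  classical
  unfold fib
  have : fiber (fun x : P × Q => f x.1) x = fiber f x.1 ×ˢ (univ : Finset Q) := by
    ext y
    rw [mem_fiber, Finset.mem_product, mem_fiber]
    simp
  rw [this, Finset.card_product, Finset.card_univ]
  push_cast
  ring

theorem HR_fst {P Q β : Type} [Fintype P] [Fintype Q] [Nonempty P] [Nonempty Q] (f : P → β) :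
    HR (fun x : P × Q => f x.1) = HR f + Real.log (Fintype.card Q : ℝ) := by
  unfold HR
  rw [avg_prod]
  have hQ : (Fintype.card Q : ℝ) ≠ 0 := by exact_mod_cast Fintype.card_ne_zero
  have : ∀ p : P, avg (fun p' : Q => Real.log (fib (fun x : P × Q => f x.1) (p, p')))
      = Real.log (fib f p) + Real.log (Fintype.card Q : ℝ) := by
    intro p
    rw [← avg_const (Ω := Q) (Real.log (fib f p) + Real.log (Fintype.card Q : ℝ))]
    exact avg_congr fun p' => by rw [fib_fst, Real.log_mul (fib_pos f p).ne' hQ]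
  rw [avg_congr this, avg_add, avg_const]

/-- fixed first part, one letter -/
theorem YM_cons_iff {A : Type} (τ : A → A → PowerSeries ℤ) (J : ℕ) {k : ℕ} (u : Fin 1 → A)
    (v v' : Fin k → A) :
    YM τ (J + 1) (Fin.append u v) = YM τ (J + 1) (Fin.append u v') ↔ YM τ J v = YM τ J v' := by
  rw [YM_eq_iff, YM_eq_iff]
  constructor
  · intro h b j hj
    have := h b (j + 1) (by omega)
    rw [YY_append, YY_append, map_add, map_add, PowerSeries.coeff_X_pow_mul',
      PowerSeries.coeff_X_pow_mul'] at this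
    simpa using this
  · intro h b j hj
    rw [YY_append, YY_append, map_add, map_add, PowerSeries.coeff_X_pow_mul',
      PowerSeries.coeff_X_pow_mul']
    by_cases h1 : 1 ≤ j
    · rw [if_pos h1, if_pos h1, h b (j - 1) (by omega)]
    · rw [if_neg h1, if_neg h1]

/-- the last letters do not matter -/
theorem YM_snoc {A : Type} (τ : A → A → PowerSeries ℤ) (q : ℕ) {k l : ℕ} (hq : q ≤ k)
    (u : Fin k → A) (v : Fin l → A) : YM τ q (Fin.append u v) = YM τ q u := by
  rw [YM_eq_iff]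
  intro b j hj
  rw [YY_append, map_add, PowerSeries.coeff_X_pow_mul', if_neg (by omega), add_zero]

theorem HL_succ {A : Type} [Fintype A] [Nonempty A] (τ : A → A → PowerSeries ℤ) (k q : ℕ)
    (hq : q ≤ k) : HL τ (k + 1) q = HL τ k q + Real.log (Fintype.card A : ℝ) := by
  unfold HL
  rw [HR_append k 1 (fun p : Fin (k + 1) → A => YM τ q p)]
  have h1 : (fun x : (Fin k → A) × (Fin 1 → A) => YM τ q (Fin.append x.1 x.2)) =
      fun x : (Fin k → A) × (Fin 1 → A) => YM τ q x.1 := by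
    funext x
    exact YM_snoc τ q hq x.1 x.2
  rw [h1, HR_fst (fun p : Fin k → A => YM τ q p)]
  congr 2
  simp

theorem hh_mono {A : Type} [Fintype A] [Nonempty A] (τ : A → A → PowerSeries ℤ)
    (h2 : E_submod) (j : ℕ) : hh τ j ≤ hh τ (j + 1) := by
  have e1 : hh τ (j + 1) = HL τ (1 + (j + 1)) (j + 1) - HL τ (1 + (j + 1)) (j + 1 + 1) := by
    rw [hh_eq, add_comm 1 (j + 1)]
  rw [e1, hh_eq]
  unfold HL
  rw [HR_append 1 (j + 1) (fun p : Fin (1 + (j + 1)) → A => YM τ (j + 1) p),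
    HR_append 1 (j + 1) (fun p : Fin (1 + (j + 1)) → A => YM τ (j + 1 + 1) p)]
  have h := h2 ((Fin 1 → A) × (Fin (j + 1) → A)) _ _ _
    (fun x : (Fin 1 → A) × (Fin (j + 1) → A) => YM τ (j + 1) (Fin.append x.1 x.2))
    (fun x : (Fin 1 → A) × (Fin (j + 1) → A) => x.1)
    (fun x : (Fin 1 → A) × (Fin (j + 1) → A) => YM τ (j + 1 + 1) (Fin.append x.1 x.2))
  unfold condH at h
  have a1 : HR (fun p : (Fin 1 → A) × (Fin (j + 1) → A) =>
      (YM τ (j + 1) (Fin.append p.1 p.2), p.1)) = HR (fun v : Fin (j + 1) → A => YM τ j v) := by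
    rw [← HR_id_prod (P := Fin 1 → A) (fun v : Fin (j + 1) → A => YM τ j v)]
    apply HR_congr
    rintro ⟨u, v⟩ ⟨u', v'⟩
    simp only [Prod.mk.injEq]
    constructor
    · rintro ⟨h, rfl⟩
      exact ⟨rfl, (YM_cons_iff τ j u v v').1 h⟩
    · rintro ⟨rfl, h⟩
      exact ⟨(YM_cons_iff τ j u v v').2 h, rfl⟩
  have a2 : HR (fun p : (Fin 1 → A) × (Fin (j + 1) → A) =>
      ((YM τ (j + 1) (Fin.append p.1 p.2), p.1), YM τ (j + 1 + 1) (Fin.append p.1 p.2))) =
      HR (fun v : Fin (j + 1) → A => YM τ (j + 1) v) := by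
    rw [← HR_id_prod (P := Fin 1 → A) (fun v : Fin (j + 1) → A => YM τ (j + 1) v)]
    apply HR_congr
    rintro ⟨u, v⟩ ⟨u', v'⟩
    simp only [Prod.mk.injEq]
    constructor
    · rintro ⟨⟨-, rfl⟩, h⟩
      exact ⟨rfl, (YM_cons_iff τ (j + 1) u v v').1 h⟩
    · rintro ⟨rfl, h⟩
      have h' := (YM_cons_iff τ (j + 1) u v v').2 h
      exact ⟨⟨YM_of_succ τ (j + 1) _ _ h', rfl⟩, h'⟩
  have a3 : HR (fun p : (Fin 1 → A) × (Fin (j + 1) → A) =>
      (YM τ (j + 1) (Fin.append p.1 p.2), YM τ (j + 1 + 1) (Fin.append p.1 p.2))) =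
      HR (fun p : (Fin 1 → A) × (Fin (j + 1) → A) => YM τ (j + 1 + 1) (Fin.append p.1 p.2)) := by
    apply HR_congr
    intro x y
    rw [Prod.mk.injEq]
    exact ⟨fun h => h.2, fun h => ⟨YM_of_succ τ (j + 1) _ _ h, h⟩⟩
  rw [a1, a2, a3] at h
  exact h

theorem hh_nonneg {A : Type} [Fintype A] (τ : A → A → PowerSeries ℤ) (h3 : E_mono) (j : ℕ) :
    0 ≤ hh τ j := by
  unfold hh
  have := h3 (Fin (j + 1) → A) _ _ (fun p : Fin (j + 1) → A => YM τ j p)
    (fun p : Fin (j + 1) → A => YM τ (j + 1) p) (fun p q h => YM_of_succ τ j p q h)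
  linarith

theorem hh_sum {A : Type} [Fintype A] [Nonempty A] (τ : A → A → PowerSeries ℤ) (n : ℕ) :
    ∑ j ∈ range n, hh τ j = n * Real.log (Fintype.card A : ℝ) - HL τ n n + HL τ 0 0 := by
  induction n with
  | zero => simp
  | succ n ih =>
    rw [Finset.sum_range_succ, ih, hh_eq, HL_succ τ n n le_rfl]
    push_cast
    ring

theorem hh_le {A : Type} [Fintype A] [Nonempty A] (τ : A → A → PowerSeries ℤ) (h2 : E_submod)
    (h3 : E_mono) (h4 : E_bound) (j : ℕ) : hh τ j ≤ Real.log (Fintype.card A : ℝ) := by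
  have hmono : Monotone (hh τ) := monotone_nat_of_le_succ (hh_mono τ h2)
  have h0 : HL τ 0 0 ≤ 0 := by
    have := (h4 (Fin 0 → A) _ (fun p : Fin 0 → A => YM τ 0 p)).2
    unfold HL
    refine this.trans (le_of_eq ?_)
    simp
  by_contra hlt
  push Not at hlt
  set L := Real.log (Fintype.card A : ℝ) with hL
  have hL0 : 0 ≤ L := Real.log_natCast_nonneg _
  set d := hh τ j - L with hd
  have hd0 : 0 < d := by linarith
  obtain ⟨n, hn⟩ := exists_nat_gt (((j : ℝ) * L) / d)
  have h5 : (n : ℝ) * hh τ j ≤ ∑ i ∈ range (j + n), hh τ i := by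
    rw [Finset.sum_range_add]
    have h6 : 0 ≤ ∑ i ∈ range j, hh τ i := Finset.sum_nonneg fun i _ => hh_nonneg τ h3 i
    have h7 : ∑ i ∈ range n, hh τ j ≤ ∑ i ∈ range n, hh τ (j + i) :=
      Finset.sum_le_sum fun i _ => hmono (by omega)
    rw [Finset.sum_const, Finset.card_range, nsmul_eq_mul] at h7
    linarith
  have h8 : ∑ i ∈ range (j + n), hh τ i ≤ ((j : ℝ) + n) * L := by
    rw [hh_sum]
    have := (h4 (Fin (j + n) → A) _ (fun p : Fin (j + n) → A => YM τ (j + n) p)).1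
    have h9 : 0 ≤ HL τ (j + n) (j + n) := this
    push_cast
    linarith
  rw [div_lt_iff₀ hd0] at hn
  have h10 : (n : ℝ) * hh τ j = n * L + n * d := by rw [hd]; ring
  nlinarith

theorem ratio_pos {A : Type} [Fintype A] (τ : A → A → PowerSeries ℤ) (k j : ℕ) (p : Fin k → A) :
    0 < fib (fun p : Fin k → A => YM τ (j + 1) p) p / fib (fun p : Fin k → A => YM τ j p) p :=
  div_pos (fib_pos _ _) (fib_pos _ _)

theorem ratio_le {A : Type} [Fintype A] (τ : A → A → PowerSeries ℤ) (k j : ℕ) (p : Fin k → A) :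
    fib (fun p : Fin k → A => YM τ (j + 1) p) p / fib (fun p : Fin k → A => YM τ j p) p ≤ 1 := by
  rw [div_le_one (fib_pos _ _)]
  exact fib_le_fib (fun p q h => YM_of_succ τ j p q h) p

theorem Th_nonneg {A : Type} [Fintype A] (τ : A → A → PowerSeries ℤ) (j : ℕ) : 0 ≤ Th τ j :=
  avg_nonneg fun p => (ratio_pos τ (j + 1) j p).le

theorem del_nonneg {A : Type} [Fintype A] (τ : A → A → PowerSeries ℤ) (k j : ℕ) :
    0 ≤ del τ k j :=
  avg_nonneg fun p => by
    have := ratio_le τ k j p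
    linarith

theorem Th_anti {A : Type} [Fintype A] [Nonempty A] (τ : A → A → PowerSeries ℤ) (h1 : F_one)
    (j : ℕ) : Th τ (j + 1) ≤ Th τ j := by
  have h := h1 A τ 1 (j + 1) (by omega)
  rw [Nat.add_sub_cancel] at h
  have h5 : 0 ≤ 1 / 32 * Th τ j ^ 3 * del τ 1 (j + 1) :=
    mul_nonneg (mul_nonneg (by norm_num) (pow_nonneg (Th_nonneg τ j) 3)) (del_nonneg τ 1 (j + 1))
  linarith

theorem Th_low {A : Type} [Fintype A] [Nonempty A] (τ : A → A → PowerSeries ℤ) (j : ℕ) :
    Real.exp (-hh τ j) ≤ Th τ j := by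
  set c : ℝ := -hh τ j with hc
  have h1 : ∀ p : Fin (j + 1) → A, Real.exp c * (1 - c) + Real.exp c *
      (Real.log (fib (fun p : Fin (j + 1) → A => YM τ (j + 1) p) p) -
        Real.log (fib (fun p : Fin (j + 1) → A => YM τ j p) p)) ≤
      fib (fun p : Fin (j + 1) → A => YM τ (j + 1) p) p /
        fib (fun p : Fin (j + 1) → A => YM τ j p) p := by
    intro p
    have hθ := ratio_pos τ (j + 1) j p
    set θ := fib (fun p : Fin (j + 1) → A => YM τ (j + 1) p) p /
        fib (fun p : Fin (j + 1) → A => YM τ j p) p with hθd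
    have h2 : Real.log (fib (fun p : Fin (j + 1) → A => YM τ (j + 1) p) p) -
        Real.log (fib (fun p : Fin (j + 1) → A => YM τ j p) p) = Real.log θ := by
      rw [hθd, Real.log_div (fib_pos _ _).ne' (fib_pos _ _).ne']
    rw [h2]
    have h3 := Real.add_one_le_exp (Real.log θ - c)
    have h4 : Real.exp c * Real.exp (Real.log θ - c) = θ := by
      rw [← Real.exp_add]
      rw [show c + (Real.log θ - c) = Real.log θ by ring, Real.exp_log hθ]
    have h5 := mul_le_mul_of_nonneg_left h3 (Real.exp_pos c).le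
    rw [h4] at h5
    linarith
  have h6 := avg_mono h1
  rw [avg_add, avg_const, avg_const_mul, avg_sub] at h6
  have h7 : avg (fun p : Fin (j + 1) → A =>
        Real.log (fib (fun p : Fin (j + 1) → A => YM τ (j + 1) p) p)) -
      avg (fun p : Fin (j + 1) → A => Real.log (fib (fun p : Fin (j + 1) → A => YM τ j p) p)) = c := by
    rw [hc]
    unfold hh HR
    ring
  rw [h7] at h6
  calc Real.exp c = Real.exp c * (1 - c) + Real.exp c * c := by ring
    _ ≤ _ := h6

end F5

theorem t_F_h (h1 : F_one) (h2 : E_submod) (h3 : E_mono) (h4 : E_bound) : F_h := by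
  intro A _ _ τ
  refine ⟨fun j => ⟨F5.hh_nonneg τ h3 j, F5.hh_le τ h2 h3 h4 j⟩,
    monotone_nat_of_le_succ (F5.hh_mono τ h2), antitone_nat_of_succ_le (F5.Th_anti τ h1),
    fun j => ⟨?_, avg_le_of_le fun p => F5.ratio_le τ (j + 1) j p⟩⟩
  have hA : (0 : ℝ) < (Fintype.card A : ℝ) := by exact_mod_cast Fintype.card_pos
  calc 1 / (Fintype.card A : ℝ) = Real.exp (-Real.log (Fintype.card A : ℝ)) := by
        rw [Real.exp_neg, Real.exp_log hA, one_div]
    _ ≤ Real.exp (-hh τ j) := Real.exp_le_exp.2 (neg_le_neg (F5.hh_le τ h2 h3 h4 j))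
    _ ≤ Th τ j := F5.Th_low τ j

end H517.EO
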