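import Pool.Agent.H517R2.EO.Basic

set_option autoImplicit false

open Finset Filter MeasureTheory

namespace H517.EO

theorem t_F_act : F_act := by
  intro A _ _ τ k S hS
  classical
  have hS' : ∀ q : S, ∃ p p' : Fin k → A, YM τ q p = YM τ q p' ∧ YM τ (q + 1) p ≠ YM τ (q + 1) p' :=
    fun q => hS q q.2
  choose p p' h1 h2 using hS'
  -- the coefficients
  let c : A → ℕ → A × Fin k → ℚ := fun b j x =>
    ((PowerSeries.coeff j ((PowerSeries.X : PowerSeries ℤ) ^ (x.2 : ℕ) * τ b x.1) : ℤ) : ℚ)
  let L : A → ℕ → (A × Fin k → ℚ) → ℚ := fun b j v => ∑ x, v x * c b j x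
  let w : (Fin k → A) → A × Fin k → ℚ := fun r x => if r x.2 = x.1 then 1 else 0
  let v : S → A × Fin k → ℚ := fun q x => w (p q) x - w (p' q) x
  have hw : ∀ (b : A) (j : ℕ) (r : Fin k → A), ∑ x, w r x * c b j x =
      ((PowerSeries.coeff j (YY τ r b) : ℤ) : ℚ) := by
    intro b j r
    rw [Fintype.sum_prod_type_right]
    unfold YY
    rw [map_sum]
    push_cast
    refine Finset.sum_congr rfl fun i _ => ?_
    simp [w, c]
  have hL : ∀ (b : A) (j : ℕ) (q : S), L b j (v q) =
      ((PowerSeries.coeff j (YY τ (p q) b) : ℤ) : ℚ) - ((PowerSeries.coeff j (YY τ (p' q) b) : ℤ) : ℚ) := by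
    intro b j q
    simp only [L, v]
    rw [← hw, ← hw, ← Finset.sum_sub_distrib]
    exact Finset.sum_congr rfl fun x _ => by ring
  have hlow : ∀ (b : A) (j : ℕ) (q : S), j < (q : ℕ) → L b j (v q) = 0 := by
    intro b j q hj
    rw [hL]
    have := congrFun (congrFun (h1 q) b) j
    unfold YM at this
    rw [if_pos hj, if_pos hj] at this
    rw [this, sub_self]
  have htop : ∀ q : S, ∃ b : A, L b q (v q) ≠ 0 := by
    intro q
    by_contra hcon
    push Not at hcon
    apply h2 q
    funext b j
    unfold YM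
    split_ifs with hj
    · rcases Nat.lt_succ_iff_lt_or_eq.1 hj with hj' | hj'
      · have := hlow b j q hj'
        rw [hL, sub_eq_zero] at this
        exact_mod_cast this
      · have := hcon b
        rw [hL, sub_eq_zero] at this
        rw [hj']
        exact_mod_cast this
    · rfl
  have hli : LinearIndependent ℚ v := by
    rw [Fintype.linearIndependent_iff]
    intro g hg
    by_contra hcon
    push Not at hcon
    obtain ⟨q0, hq0⟩ := hcon
    -- the smallest index
    let T : Finset S := Finset.univ.filter fun q => g q ≠ 0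
    have hT : T.Nonempty := ⟨q0, by simp [T, hq0]⟩
    obtain ⟨m, hm, hmin⟩ := T.exists_min_image (fun q => (q : ℕ)) hT
    have hgm : g m ≠ 0 := by simpa [T] using hm
    obtain ⟨b, hb⟩ := htop m
    have h3 : L b m (∑ i, g i • v i) = ∑ i, g i * L b m (v i) := by
      simp only [L, Finset.sum_apply, Pi.smul_apply, smul_eq_mul, Finset.sum_mul, Finset.mul_sum]
      rw [Finset.sum_comm]
      exact Finset.sum_congr rfl fun _ _ => Finset.sum_congr rfl fun _ _ => by ring
    have h4 : ∑ i, g i * L b m (v i) = g m * L b m (v m) := by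
      refine Finset.sum_eq_single m (fun i _ hi => ?_) (fun h => absurd (Finset.mem_univ _) h)
      by_cases hgi : g i = 0
      · rw [hgi, zero_mul]
      have h5 : (m : ℕ) ≤ i := hmin i (by simp [T, hgi])
      have h6 : (m : ℕ) ≠ i := fun h => hi (Subtype.ext h.symm)
      rw [hlow b m i (lt_of_le_of_ne h5 h6), mul_zero]
    have h5 : L b m (∑ i, g i • v i) = 0 := by
      rw [hg]; simp [L]
    rw [h3, h4] at h5
    exact (mul_ne_zero hgm hb) h5
  have h := hli.fintype_card_le_finrank
  rw [Module.finrank_fintype_fun_eq_card, Fintype.card_prod, Fintype.card_fin, Fintype.card_coe] at h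
  exact h

end H517.EO
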