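import Mathlib
import Pool.Agent.H517R2.EO.Basic

/-!
# TEAM EO : the function field theorem, assembly (F7)
-/

set_option autoImplicit false

open Finset Filter

namespace H517.EO

namespace F7

theorem sum_shift (a : ℕ → ℝ) (L : ℝ) (hL : ∀ j, L ≤ a j) (k n : ℕ) :
    ∑ q ∈ Finset.Ico k (k + n), (a (q - k) - a q) ≤ ∑ j ∈ Finset.range k, (a j - L) := by
  rw [Finset.sum_Ico_eq_sum_range]
  have e1 : k + n - k = n := by omega
  rw [e1]
  have e2 : ∀ i ∈ Finset.range n, a (k + i - k) - a (k + i) = a i - a (k + i) := by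
    intro i _
    rw [Nat.add_sub_cancel_left]
  rw [Finset.sum_congr rfl e2, Finset.sum_sub_distrib, Finset.sum_sub_distrib]
  have h1 := Finset.sum_range_add a n k
  have h2 := Finset.sum_range_add a k n
  rw [add_comm n k] at h1
  have h3 : ∑ j ∈ Finset.range k, L ≤ ∑ j ∈ Finset.range k, a (n + j) :=
    Finset.sum_le_sum fun j _ => hL _
  linarith

theorem cesaro_small (a : ℕ → ℝ) (ha : Antitone a) (hb : ∃ B, ∀ j, B ≤ a j) (ε : ℝ) (hε : 0 < ε) :
    ∃ L : ℝ, (∀ j, L ≤ a j) ∧ ∃ k0 : ℕ, ∀ k : ℕ, k0 ≤ k →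
      ∑ j ∈ Finset.range k, (a j - L) ≤ ε * k := by
  obtain ⟨B, hB⟩ := hb
  have hbdd : BddBelow (Set.range a) := ⟨B, by rintro _ ⟨j, rfl⟩; exact hB j⟩
  have ht := tendsto_atTop_ciInf ha hbdd
  refine ⟨⨅ i, a i, fun j => ciInf_le hbdd j, ?_⟩
  have ht2 : Tendsto (fun j => a j - ⨅ i, a i) atTop (nhds 0) := by
    have := ht.sub_const (⨅ i, a i)
    simpa using this
  have ht3 := ht2.cesaro
  have h4 := ht3.eventually (gt_mem_nhds hε)
  obtain ⟨k0, hk0⟩ := Filter.eventually_atTop.1 h4
  refine ⟨max k0 1, fun k hk => ?_⟩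
  have hk1 : 1 ≤ k := (le_max_right _ _).trans hk
  have hkpos : (0 : ℝ) < k := by exact_mod_cast hk1
  have h5 := hk0 k ((le_max_left _ _).trans hk)
  have h6 : (∑ j ∈ Finset.range k, (a j - ⨅ i, a i)) =
      k * ((k : ℝ)⁻¹ * ∑ j ∈ Finset.range k, (a j - ⨅ i, a i)) := by
    rw [← mul_assoc, mul_inv_cancel₀ hkpos.ne', one_mul]
  rw [h6, mul_comm ε]
  exact mul_le_mul_of_nonneg_left h5.le hkpos.le

variable {A : Type} [Fintype A]

theorem YM_mono (τ : A → A → PowerSeries ℤ) {J J' : ℕ} (h : J ≤ J') {k : ℕ} (p q : Fin k → A)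
    (he : YM τ J' p = YM τ J' q) : YM τ J p = YM τ J q := by
  rw [YM_eq_iff] at he ⊢
  exact fun b j hj => he b j (lt_of_lt_of_le hj h)

theorem YM_of_YY (τ : A → A → PowerSeries ℤ) (J : ℕ) {k : ℕ} (p q : Fin k → A)
    (he : YY τ p = YY τ q) : YM τ J p = YM τ J q := by
  rw [YM_eq_iff]
  intro b j _
  rw [he]

theorem exists_Q (τ : A → A → PowerSeries ℤ) (k : ℕ) :
    ∃ n : ℕ, ∀ p q : Fin k → A, YM τ (k + n) p = YM τ (k + n) q → YY τ p = YY τ q := by
  have h1 : ∀ x : (Fin k → A) × (Fin k → A), ∃ J : ℕ, YM τ J x.1 = YM τ J x.2 →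
      YY τ x.1 = YY τ x.2 := by
    intro x
    by_cases hx : YY τ x.1 = YY τ x.2
    · exact ⟨0, fun _ => hx⟩
    · have : ∃ b, YY τ x.1 b ≠ YY τ x.2 b := by
        by_contra hc
        push Not at hc
        exact hx (funext hc)
      obtain ⟨b, hb⟩ := this
      have : ∃ j, PowerSeries.coeff j (YY τ x.1 b) ≠ PowerSeries.coeff j (YY τ x.2 b) := by
        by_contra hc
        push Not at hc
        exact hb (PowerSeries.ext hc)
      obtain ⟨j, hj⟩ := this
      refine ⟨j + 1, fun he => ?_⟩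
      rw [YM_eq_iff] at he
      exact absurd (he b j (Nat.lt_succ_self j)) hj
  choose J hJ using h1
  refine ⟨∑ x, J x, fun p q he => hJ (p, q) (YM_mono τ ?_ p q he)⟩
  have : J (p, q) ≤ ∑ x, J x := Finset.single_le_sum (fun _ _ => Nat.zero_le _) (Finset.mem_univ _)
  omega

theorem telescope (H : ℕ → ℝ) (k n : ℕ) :
    ∑ q ∈ Finset.Ico k (k + n), (H q - H (q + 1)) = H k - H (k + n) := by
  induction n with
  | zero => simp
  | succ n ih =>
    rw [← add_assoc, Finset.sum_Ico_succ_top (by omega), ih]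
    ring

end F7

theorem t_F_thm (h1 : F_one) (h2 : F_two) (h3 : F_h) (h4 : F_act) (h5 : E_mono) : F_thm := by
  intro A _ _ _ τ ε hε
  classical
  obtain ⟨hhb, hhm, hTa, hTb⟩ := h3 A τ
  set m : ℝ := (Fintype.card A : ℝ) with hm
  have hm1 : 1 ≤ m := by
    rw [hm]
    exact_mod_cast Fintype.card_pos
  have hm0 : 0 < m := by linarith
  have hlm : 0 ≤ Real.log m := Real.log_nonneg hm1
  set M : ℝ := max 1 (2 * m / ε) with hM
  have hM1 : 1 ≤ M := le_max_left _ _
  have hM0 : 0 < M := by linarith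
  have hMm : m / M ≤ ε / 2 := by
    rw [div_le_iff₀ hM0]
    have : 2 * m / ε ≤ M := le_max_right _ _
    rw [div_le_iff₀ hε] at this
    linarith
  have hlM : 0 ≤ Real.log M := Real.log_nonneg hM1
  set c : ℝ := (Real.log M + Real.log m) * (32 * m ^ 3) with hc
  have hc0 : 0 ≤ c := by positivity
  set a : ℕ → ℝ := fun j => c * Th τ j - hh τ j with ha
  have haa : Antitone a := by
    intro i j hij
    simp only [ha]
    have := hTa hij
    have h6 := hhm hij
    have := mul_le_mul_of_nonneg_left this hc0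
    linarith
  have hab : ∃ B, ∀ j, B ≤ a j := by
    refine ⟨- Real.log m, fun j => ?_⟩
    simp only [ha]
    have h6 := (hhb j).2
    have h7 : 0 ≤ Th τ j := le_trans (by positivity) (hTb j).1
    have h8 : 0 ≤ c * Th τ j := mul_nonneg hc0 h7
    linarith
  obtain ⟨L, hL, k0, hk0⟩ := F7.cesaro_small a haa hab (ε / 2) (by linarith)
  refine ⟨k0, fun k hk => ?_⟩
  obtain ⟨n, hn⟩ := F7.exists_Q τ k
  set H : ℕ → ℝ := fun q => HR (fun p : Fin k → A => YM τ q p) with hH
  have hQ : HR (fun p : Fin k → A => YY τ p) = H (k + n) := by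
    simp only [hH]
    exact HR_congr fun p q => ⟨fun he => F7.YM_of_YY τ _ p q he, fun he => hn p q he⟩
  set act : Finset ℕ := (Finset.Ico k (k + n)).filter (fun q => ∃ p p' : Fin k → A,
    YM τ q p = YM τ q p' ∧ YM τ (q + 1) p ≠ YM τ (q + 1) p') with hact
  have hcard : (act.card : ℝ) ≤ m * k := by
    have := h4 A τ k act (fun q hq => (Finset.mem_filter.1 hq).2)
    rw [hm]
    exact_mod_cast this
  have hstep : ∀ q ∈ Finset.Ico k (k + n), H q - H (q + 1) ≤
      (a (q - k) - a q) + (if q ∈ act then 1 / M else 0) := by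
    intro q hq
    have hkq : k ≤ q := (Finset.mem_Ico.1 hq).1
    have hanti : a q ≤ a (q - k) := haa (Nat.sub_le q k)
    by_cases hqa : q ∈ act
    · rw [if_pos hqa]
      have h6 := h2 A τ k q hkq M hM1
      have h7 := h1 A τ k q hkq
      have h8 := (hTb (q - k)).1
      have hdel : 0 ≤ del τ k q := by
        unfold del
        refine avg_nonneg fun p => ?_
        rw [sub_nonneg]
        exact div_le_one_of_le₀ (fib_le_fib (fun p q' he => F7.YM_mono τ (Nat.le_succ q) p q' he) p)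
          (fib_pos _ _).le
      have h9 : (1 / m) ^ 3 ≤ Th τ (q - k) ^ 3 := pow_le_pow_left₀ (by positivity) h8 3
      have h10 : del τ k q ≤ 32 * m ^ 3 * (Th τ (q - k) - Th τ q) := by
        have h11 : 1 / 32 * (1 / m) ^ 3 * del τ k q ≤ 1 / 32 * Th τ (q - k) ^ 3 * del τ k q := by
          refine mul_le_mul_of_nonneg_right ?_ hdel
          exact mul_le_mul_of_nonneg_left h9 (by norm_num)
        have h12 := h11.trans h7
        have h13 : 32 * m ^ 3 * (1 / 32 * (1 / m) ^ 3 * del τ k q) = del τ k q := by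
          field_simp
        calc del τ k q = 32 * m ^ 3 * (1 / 32 * (1 / m) ^ 3 * del τ k q) := h13.symm
          _ ≤ 32 * m ^ 3 * (Th τ (q - k) - Th τ q) :=
            mul_le_mul_of_nonneg_left h12 (by positivity)
      have h14 : del τ k q * (Real.log M + Real.log m) ≤
          c * (Th τ (q - k) - Th τ q) := by
        calc del τ k q * (Real.log M + Real.log m) ≤
            (32 * m ^ 3 * (Th τ (q - k) - Th τ q)) * (Real.log M + Real.log m) :=
              mul_le_mul_of_nonneg_right h10 (by positivity)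
          _ = c * (Th τ (q - k) - Th τ q) := by rw [hc]; ring
      have h15 : H q - H (q + 1) ≤ del τ k q * (Real.log M + Real.log m) + 1 / M +
          (hh τ q - hh τ (q - k)) := h6
      simp only [ha]
      linarith
    · rw [if_neg hqa]
      have h6 : H (q + 1) = H q := by
        simp only [hH]
        refine HR_congr fun p p' => ⟨fun he => F7.YM_mono τ (Nat.le_succ q) p p' he, fun he => ?_⟩
        by_contra hne
        exact hqa (Finset.mem_filter.2 ⟨hq, p, p', he, hne⟩)
      rw [h6]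
      linarith
  have hsum := Finset.sum_le_sum hstep
  rw [F7.telescope, Finset.sum_add_distrib] at hsum
  have h16 := F7.sum_shift a L hL k n
  have h17 := hk0 k hk
  have h18 : ∑ q ∈ Finset.Ico k (k + n), (if q ∈ act then 1 / M else 0) ≤ ε / 2 * k := by
    rw [← Finset.sum_filter, Finset.sum_const, nsmul_eq_mul]
    have h19 : (Finset.Ico k (k + n)).filter (fun q => q ∈ act) = act := by
      ext q
      simp only [Finset.mem_filter]
      exact ⟨fun h => h.2, fun h => ⟨(Finset.mem_filter.1 h).1, h⟩⟩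
    rw [h19]
    calc (act.card : ℝ) * (1 / M) ≤ (m * k) * (1 / M) :=
          mul_le_mul_of_nonneg_right hcard (by positivity)
      _ = (m / M) * k := by ring
      _ ≤ ε / 2 * k := mul_le_mul_of_nonneg_right hMm (Nat.cast_nonneg _)
  rw [hQ]
  have h20 : HR (fun p : Fin k → A => YM τ k p) = H k := rfl
  rw [h20]
  linarith

end H517.EO
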