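import Pool.Agent.H517R2.EO.Basic

/-!
# TEAM EO : F_low (task F8)
-/

set_option autoImplicit false

open Finset

namespace H517.EO

theorem t_F_low (h1 : F_thm) (h2 : E_submod) (_h3 : E_mono) : F_low := by
  intro A _ _ _ lam t τ hlam0 hlam1 c0 hc0 hHT
  obtain ⟨n0, hn0⟩ := hHT
  obtain ⟨k0, hk0⟩ := h1 A τ (c0 / 2) (by positivity)
  refine ⟨max n0 k0, fun k hk => ?_⟩
  have hkn : n0 ≤ k := le_trans (le_max_left _ _) hk
  have hkk : k0 ≤ k := le_trans (le_max_right _ _) hk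
  have a1 := hn0 k hkn
  have a2 := hk0 k hkk
  have a3 := h2 (Fin k → A) (A → ℕ → ℤ) ℤ (A → PowerSeries ℤ)
    (fun p => YM τ k p) (fun p => ⌊XX lam t p / lam ^ k⌋) (fun p => YY τ p)
  unfold condH at a3
  have key : ∀ p q : Fin k → A, YY τ p = YY τ q → YM τ k p = YM τ k q := by
    intro p q hpq
    rw [YM_eq_iff]
    intro b j _
    rw [hpq]
  have e1 : HR (fun p : Fin k → A => ((YM τ k p, ⌊XX lam t p / lam ^ k⌋), YY τ p)) =
      HR (fun p : Fin k → A => (YY τ p, ⌊XX lam t p / lam ^ k⌋)) := by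
    apply HR_congr
    intro p q
    simp only [Prod.mk.injEq]
    constructor
    · rintro ⟨⟨_, b⟩, c⟩
      exact ⟨c, b⟩
    · rintro ⟨c, b⟩
      exact ⟨⟨key p q c, b⟩, c⟩
  have e2 : HR (fun p : Fin k → A => (YM τ k p, YY τ p)) =
      HR (fun p : Fin k → A => YY τ p) := by
    apply HR_congr
    intro p q
    simp only [Prod.mk.injEq]
    constructor
    · rintro ⟨_, c⟩
      exact c
    · intro c
      exact ⟨key p q c, c⟩
  rw [e1, e2] at a3
  unfold HW
  unfold HT at a1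
  linarith

end H517.EO
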