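import Pool.Agent.H517R2.EO.Basic

/-!
# TEAM EO : task F3, the inequality `F_one`
-/

set_option autoImplicit false

open Finset

namespace H517.EO

namespace F3

section general

variable {Ω β γ δ : Type} [Fintype Ω]

theorem sum_fiber_symm (f : Ω → β) (F : Ω → Ω → ℝ) :
    ∑ p, ∑ q ∈ fiber f p, F p q = ∑ q, ∑ p ∈ fiber f q, F p q := by
  apply Finset.sum_comm'
  intro p q
  simp only [mem_univ, true_and, and_true, mem_fiber]
  exact eq_comm

/-- average over the fibres -/
noncomputable def EE (f : Ω → β) (φ : Ω → ℝ) (p : Ω) : ℝ := (∑ q ∈ fiber f p, φ q) / fib f p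

theorem EE_selfadj (f : Ω → β) (φ ψ : Ω → ℝ) :
    ∑ p, EE f φ p * ψ p = ∑ p, φ p * EE f ψ p := by
  have h1 : ∀ p, EE f φ p * ψ p = ∑ q ∈ fiber f p, φ q * ψ p / fib f p := by
    intro p
    rw [EE, div_mul_eq_mul_div, Finset.sum_mul, Finset.sum_div]
  have h2 : ∀ p, φ p * EE f ψ p = ∑ q ∈ fiber f p, φ p * ψ q / fib f q := by
    intro p
    rw [EE, ← mul_div_assoc, Finset.mul_sum, Finset.sum_div]
    refine Finset.sum_congr rfl fun q hq => ?_
    rw [mem_fiber] at hq
    rw [fib_congr f hq]
  rw [Finset.sum_congr rfl fun p _ => h1 p, Finset.sum_congr rfl fun p _ => h2 p,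
    sum_fiber_symm]

theorem EE_of_const {f : Ω → β} {φ : Ω → ℝ} (h : ∀ p q, f p = f q → φ p = φ q) (p : Ω) :
    EE f φ p = φ p := by
  have h1 : ∀ q ∈ fiber f p, φ q = φ p := by
    intro q hq
    rw [mem_fiber] at hq
    exact h _ _ hq
  rw [EE, Finset.sum_congr rfl h1, Finset.sum_const, nsmul_eq_mul]
  have h2 : ((fiber f p).card : ℝ) = fib f p := rfl
  rw [h2, mul_comm, mul_div_assoc, div_self (fib_pos f p).ne', mul_one]

theorem EE_congr (f : Ω → β) (φ : Ω → ℝ) {p q : Ω} (h : f p = f q) : EE f φ p = EE f φ q := by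
  rw [EE, EE, fiber_congr f h, fib_congr f h]

theorem sum_EE (f : Ω → β) (φ : Ω → ℝ) : ∑ p, EE f φ p = ∑ p, φ p := by
  have h := EE_selfadj f φ (fun _ => 1)
  simp only [mul_one] at h
  rw [h]
  refine Finset.sum_congr rfl fun p _ => ?_
  rw [EE_of_const (fun _ _ _ => rfl), mul_one]

theorem avg_EE (f : Ω → β) (φ : Ω → ℝ) : avg (EE f φ) = avg φ := by
  unfold avg
  rw [sum_EE]

/-- the energy is monotone -/
theorem energy_mono {f : Ω → β} {g : Ω → γ} (h : ∀ p q, g p = g q → f p = f q) (φ : Ω → ℝ) :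
    ∑ p, φ p * EE f φ p ≤ ∑ p, φ p * EE g φ p := by
  have h1 : ∑ p, EE f φ p * EE f φ p = ∑ p, φ p * EE f φ p := by
    rw [EE_selfadj]
    refine Finset.sum_congr rfl fun p _ => ?_
    rw [EE_of_const (fun p q hpq => EE_congr f φ hpq)]
  have h2 : ∑ p, EE g φ p * EE g φ p = ∑ p, φ p * EE g φ p := by
    rw [EE_selfadj]
    refine Finset.sum_congr rfl fun p _ => ?_
    rw [EE_of_const (fun p q hpq => EE_congr g φ hpq)]
  have h3 : ∑ p, EE g φ p * EE f φ p = ∑ p, φ p * EE f φ p := by
    rw [EE_selfadj]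
    refine Finset.sum_congr rfl fun p _ => ?_
    rw [EE_of_const (fun p q hpq => EE_congr f φ (h _ _ hpq))]
  have h4 : 0 ≤ ∑ p, (EE g φ p - EE f φ p) ^ 2 := Finset.sum_nonneg fun p _ => sq_nonneg _
  have h5 : ∑ p, (EE g φ p - EE f φ p) ^ 2 = ∑ p, EE g φ p * EE g φ p
      - 2 * ∑ p, EE g φ p * EE f φ p + ∑ p, EE f φ p * EE f φ p := by
    rw [Finset.mul_sum, ← Finset.sum_sub_distrib, ← Finset.sum_add_distrib]
    refine Finset.sum_congr rfl fun p _ => ?_
    ring
  rw [h5, h1, h2, h3] at h4
  linarith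

open Classical in
theorem sum_coll_eq (f : Ω → β) (d : Ω → δ) :
    ∑ w, (1 / fib d w) * ∑ p, (if d p = d w then (1 : ℝ) else 0) *
      EE f (fun q => if d q = d w then (1 : ℝ) else 0) p =
    ∑ p, fib (fun q => (f q, d q)) p / fib f p := by
  have h1 : ∀ w p, (1 / fib d w) * ((if d p = d w then (1 : ℝ) else 0) *
      EE f (fun q => if d q = d w then (1 : ℝ) else 0) p) =
      if d w = d p then (1 / fib d p) * (fib (fun q => (f q, d q)) p / fib f p) else 0 := by
    intro w p
    by_cases h : d p = d w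
    · rw [if_pos h, if_pos h.symm, one_mul, fib_congr d h.symm]
      congr 1
      rw [EE]
      congr 1
      rw [← h, Finset.sum_ite, Finset.sum_const_zero, add_zero, Finset.sum_const, nsmul_eq_mul,
        mul_one]
      unfold fib
      congr 2
      ext q
      simp only [Finset.mem_filter, mem_fiber, Prod.mk.injEq]
    · rw [if_neg h, if_neg (fun h' => h h'.symm)]
      ring
  have h2 : ∀ w, (1 / fib d w) * ∑ p, (if d p = d w then (1 : ℝ) else 0) *
      EE f (fun q => if d q = d w then (1 : ℝ) else 0) p =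
      ∑ p, if d w = d p then (1 / fib d p) * (fib (fun q => (f q, d q)) p / fib f p) else 0 := by
    intro w
    rw [Finset.mul_sum]
    exact Finset.sum_congr rfl fun p _ => h1 w p
  rw [Finset.sum_congr rfl fun w _ => h2 w, Finset.sum_comm]
  refine Finset.sum_congr rfl fun p _ => ?_
  rw [← Finset.sum_filter, Finset.sum_const, nsmul_eq_mul]
  have h3 : ((Finset.univ.filter (fun w => d w = d p)).card : ℝ) = fib d p := by
    unfold fib fiber
    congr
  rw [h3, ← mul_assoc, mul_one_div, div_self (fib_pos d p).ne', one_mul]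

/-- conditional collision probabilities increase with the information -/
theorem cc_mono {f : Ω → β} {g : Ω → γ} (h : ∀ p q, g p = g q → f p = f q) (d : Ω → δ) :
    avg (fun p => fib (fun q => (f q, d q)) p / fib f p) ≤
      avg (fun p => fib (fun q => (g q, d q)) p / fib g p) := by
  classical
  unfold avg
  refine div_le_div_of_nonneg_right ?_ (Nat.cast_nonneg _)
  rw [← sum_coll_eq f d, ← sum_coll_eq g d]
  refine Finset.sum_le_sum fun w _ => ?_
  refine mul_le_mul_of_nonneg_left ?_ (by have := fib_pos d w; positivity)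
  exact energy_mono h _

theorem fib_restrict (f : Ω → β) (d : Ω → δ) (p0 : Ω) (x : {x // x ∈ fiber f p0}) :
    fib (fun y : {x // x ∈ fiber f p0} => d y) x = fib (fun q => (f q, d q)) (x : Ω) := by
  classical
  unfold fib
  congr 1
  apply Finset.card_bij (fun (y : {x // x ∈ fiber f p0}) _ => (y : Ω))
  · intro y hy
    rw [mem_fiber] at hy ⊢
    have h1 := (mem_fiber f p0 y).1 y.2
    have h2 := (mem_fiber f p0 x).1 x.2
    simp only [Prod.mk.injEq]
    exact ⟨h1.trans h2.symm, hy⟩
  · intro a _ b _ hab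
    exact Subtype.ext hab
  · intro b hb
    rw [mem_fiber] at hb
    simp only [Prod.mk.injEq] at hb
    have h2 := (mem_fiber f p0 x).1 x.2
    refine ⟨⟨b, (mem_fiber f p0 b).2 (hb.1.trans h2)⟩, ?_, rfl⟩
    rw [mem_fiber]
    exact hb.2

/-- the average of the collision probabilities over the classes -/
theorem avg_coll (f : Ω → β) (d : Ω → δ) :
    avg (fun p => fib (fun q => (f q, d q)) p / fib f p) =
      avg (fun p0 => coll (fun x : {x // x ∈ fiber f p0} => d x)) := by
  rw [← avg_EE f]
  refine avg_congr fun p0 => ?_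
  unfold coll avg
  have hc : (Fintype.card {x // x ∈ fiber f p0} : ℝ) = fib f p0 := by
    rw [Fintype.card_coe]
    rfl
  rw [hc, EE]
  congr 1
  rw [← Finset.sum_coe_sort (fiber f p0)]
  refine Finset.sum_congr rfl fun x _ => ?_
  show _ = fib (fun x : {x // x ∈ fiber f p0} => d x) x / fib f p0
  rw [fib_restrict, fib_congr f ((mem_fiber f p0 x).1 x.2)]

theorem coll_equiv {Ω' : Type} [Fintype Ω'] (e : Ω ≃ Ω') (f : Ω' → β) :
    coll (fun q => f (e q)) = coll f := by
  unfold coll
  rw [← avg_equiv e (fun p => fib f p / (Fintype.card Ω' : ℝ))]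
  refine avg_congr fun p => ?_
  rw [fib_equiv, Fintype.card_congr e]

/-- power mean -/
theorem avg_pow_three [Nonempty Ω] (φ : Ω → ℝ) (h : ∀ p, 0 ≤ φ p) :
    avg φ ^ 3 ≤ avg (fun p => φ p ^ 3) := by
  have hN : (0 : ℝ) < Fintype.card Ω := by exact_mod_cast Fintype.card_pos
  have hj := Real.pow_arith_mean_le_arith_mean_pow Finset.univ
    (fun _ : Ω => 1 / (Fintype.card Ω : ℝ)) φ (fun _ _ => by positivity)
    (by rw [Finset.sum_const, Finset.card_univ, nsmul_eq_mul]; field_simp) (fun p _ => h p) 3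
  rw [← Finset.mul_sum, ← Finset.mul_sum] at hj
  unfold avg
  rw [div_eq_inv_mul, div_eq_inv_mul]
  simpa [one_div] using hj

end general

end F3

open F3 in
/-- task F3 -/
theorem t_F_one (hconv : F_conv) : F_one := by
  intro A _ _ τ k q hkq
  obtain ⟨r, rfl⟩ : ∃ r, q = k + r := ⟨q - k, by omega⟩
  rw [Nat.add_sub_cancel_left]
  -- digits
  let D : (Fin k → A) → A → ℤ := fun u b => PowerSeries.coeff (k + r) (YY τ u b)
  let D' : (Fin (r + 1) → A) → A → ℤ := fun v b => PowerSeries.coeff r (YY τ v b)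
  have hYM : ∀ (l j : ℕ) (p p' : Fin l → A), YM τ (j + 1) p = YM τ (j + 1) p' ↔
      (YM τ j p, fun b => PowerSeries.coeff j (YY τ p b)) =
        (YM τ j p', fun b => PowerSeries.coeff j (YY τ p' b)) := by
    intro l j p p'
    rw [Prod.mk.injEq, YM_eq_iff, YM_eq_iff]
    constructor
    · intro h
      exact ⟨fun b i hi => h b i (by omega), funext fun b => h b j (by omega)⟩
    · rintro ⟨h1, h2⟩ b i hi
      rcases Nat.lt_succ_iff_lt_or_eq.1 hi with h | h
      · exact h1 b i h
      · subst h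
        exact congrFun h2 b
  have hcoef : ∀ (u : Fin k → A) (v : Fin (r + 1) → A) (b : A) (j : ℕ),
      PowerSeries.coeff j (YY τ (Fin.append u v) b) = PowerSeries.coeff j (YY τ u b) +
        if k ≤ j then PowerSeries.coeff (j - k) (YY τ v b) else 0 := by
    intro u v b j
    rw [YY_append, map_add, PowerSeries.coeff_X_pow_mul']
  -- the product system
  let f' : (Fin k → A) × (Fin (r + 1) → A) → (A → ℕ → ℤ) × (A → ℕ → ℤ) :=
    fun x => (YM τ (k + r) x.1, YM τ r x.2)
  let dd : (Fin k → A) × (Fin (r + 1) → A) → A → ℤ := fun x => D x.1 + D' x.2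
  have hTh : Th τ (k + r) ≤ avg (fun x : (Fin k → A) × (Fin (r + 1) → A) =>
      fib (fun y => (f' y, dd y)) x / fib f' x) := by
    have e1 : Th τ (k + r) = avg (fun x : (Fin k → A) × (Fin (r + 1) → A) =>
        fib (fun y : (Fin k → A) × (Fin (r + 1) → A) =>
          (YM τ (k + r) (Fin.append y.1 y.2), dd y)) x /
        fib (fun y : (Fin k → A) × (Fin (r + 1) → A) => YM τ (k + r) (Fin.append y.1 y.2)) x) := by
      unfold Th
      have := avg_append (A := A) k (r + 1) (fun p : Fin (k + (r + 1)) → A =>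
        fib (fun p : Fin (k + (r + 1)) → A => YM τ (k + r + 1) p) p /
          fib (fun p : Fin (k + (r + 1)) → A => YM τ (k + r) p) p)
      refine Eq.trans this ?_
      refine avg_congr fun x => ?_
      rw [fib_append, fib_append]
      congr 1
      apply fib_eq_of_iff
      intro y y'
      rw [hYM]
      have hdd : ∀ y : (Fin k → A) × (Fin (r + 1) → A),
          (fun b => PowerSeries.coeff (k + r) (YY τ (Fin.append y.1 y.2) b)) = dd y := by
        intro y
        funext b
        rw [hcoef, if_pos (Nat.le_add_right k r), Nat.add_sub_cancel_left]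
        rfl
      rw [hdd, hdd]
    rw [e1]
    apply cc_mono
    intro x y hxy
    simp only [f', Prod.mk.injEq] at hxy
    obtain ⟨h1, h2⟩ := hxy
    rw [YM_eq_iff] at h1 h2
    rw [YM_eq_iff]
    intro b j hj
    rw [hcoef, hcoef, h1 b j hj]
    congr 1
    split_ifs with hk
    · exact h2 b (j - k) (by omega)
    · rfl
  -- collision probabilities on the classes
  let al : (Fin k → A) → ℝ := fun u0 =>
    coll (fun x : {x // x ∈ fiber (fun p : Fin k → A => YM τ (k + r) p) u0} => D x)
  let be : (Fin (r + 1) → A) → ℝ := fun v0 =>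
    coll (fun x : {x // x ∈ fiber (fun p : Fin (r + 1) → A => YM τ r p) v0} => D' x)
  have hbe : Th τ r = avg be := by
    unfold Th
    have := avg_coll (fun p : Fin (r + 1) → A => YM τ r p) D'
    rw [← this]
    refine avg_congr fun p => ?_
    congr 1
    apply fib_eq_of_iff
    intro y y'
    exact hYM _ _ _ _
  have hal : del τ k (k + r) = avg (fun u => 1 - al u) := by
    unfold del
    have := avg_coll (fun p : Fin k → A => YM τ (k + r) p) D
    rw [avg_sub, avg_sub, ← this]
    congr 1
    refine avg_congr fun p => ?_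
    congr 1
    apply fib_eq_of_iff
    intro y y'
    exact hYM _ _ _ _
  have hcoll_nonneg : ∀ {Ω β : Type} [Fintype Ω] (f : Ω → β), 0 ≤ coll f := by
    intro Ω β _ f
    unfold coll
    exact avg_nonneg fun p => div_nonneg (fib_pos f p).le (Nat.cast_nonneg _)
  have hcoll_le : ∀ {Ω β : Type} [Fintype Ω] [Nonempty Ω] (f : Ω → β), coll f ≤ 1 := by
    intro Ω β _ _ f
    unfold coll
    refine avg_le_of_le fun p => ?_
    rw [div_le_one (by exact_mod_cast Fintype.card_pos)]
    exact fib_le_card f p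
  have hprod : avg (fun x : (Fin k → A) × (Fin (r + 1) → A) =>
      fib (fun y => (f' y, dd y)) x / fib f' x) ≤
      avg (fun x : (Fin k → A) × (Fin (r + 1) → A) =>
        be x.2 - 1 / 32 * (1 - al x.1) * be x.2 ^ 3) := by
    rw [avg_coll f' dd]
    refine avg_mono fun x0 => ?_
    let e : {x // x ∈ fiber f' x0} ≃
        {x // x ∈ fiber (fun p : Fin k → A => YM τ (k + r) p) x0.1} ×
        {x // x ∈ fiber (fun p : Fin (r + 1) → A => YM τ r p) x0.2} :=
      { toFun := fun x => (⟨x.1.1, by
            have := (mem_fiber f' x0 x).1 x.2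
            simp only [f', Prod.mk.injEq] at this
            rw [mem_fiber]
            exact this.1⟩, ⟨x.1.2, by
            have := (mem_fiber f' x0 x).1 x.2
            simp only [f', Prod.mk.injEq] at this
            rw [mem_fiber]
            exact this.2⟩)
        invFun := fun y => ⟨(y.1.1, y.2.1), by
            rw [mem_fiber]
            simp only [f', Prod.mk.injEq]
            exact ⟨(mem_fiber _ _ _).1 y.1.2, (mem_fiber _ _ _).1 y.2.2⟩⟩
        left_inv := fun x => rfl
        right_inv := fun y => rfl }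
    have h1 := coll_equiv e (fun y => D y.1 + D' y.2)
    have h2 : coll (fun x : {x // x ∈ fiber f' x0} => dd x) =
        coll (fun y : {x // x ∈ fiber (fun p : Fin k → A => YM τ (k + r) p) x0.1} ×
        {x // x ∈ fiber (fun p : Fin (r + 1) → A => YM τ r p) x0.2} => D y.1 + D' y.2) := h1
    rw [h2]
    have : Nonempty {x // x ∈ fiber (fun p : Fin k → A => YM τ (k + r) p) x0.1} :=
      ⟨⟨x0.1, self_mem_fiber _ _⟩⟩
    have : Nonempty {x // x ∈ fiber (fun p : Fin (r + 1) → A => YM τ r p) x0.2} :=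
      ⟨⟨x0.2, self_mem_fiber _ _⟩⟩
    exact hconv A _ _ (fun x : {x // x ∈ fiber (fun p : Fin k → A => YM τ (k + r) p) x0.1} => D x)
      (fun x : {x // x ∈ fiber (fun p : Fin (r + 1) → A => YM τ r p) x0.2} => D' x)
  have hsplit : avg (fun x : (Fin k → A) × (Fin (r + 1) → A) =>
        be x.2 - 1 / 32 * (1 - al x.1) * be x.2 ^ 3) =
      avg be - 1 / 32 * avg (fun u => 1 - al u) * avg (fun v => be v ^ 3) := by
    rw [avg_prod]
    have h1 : ∀ u : Fin k → A, avg (fun v : Fin (r + 1) → A =>
        be v - 1 / 32 * (1 - al u) * be v ^ 3) =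
        avg be - (1 / 32 * avg (fun v => be v ^ 3)) * (1 - al u) := by
      intro u
      rw [avg_sub, avg_const_mul]
      ring
    rw [avg_congr h1, avg_sub, avg_const, avg_const_mul]
    ring
  have hbe3 : avg be ^ 3 ≤ avg (fun v => be v ^ 3) := avg_pow_three be fun v => hcoll_nonneg _
  have hal0 : 0 ≤ avg (fun u => 1 - al u) := by
    refine avg_nonneg fun u => ?_
    have : Nonempty {x // x ∈ fiber (fun p : Fin k → A => YM τ (k + r) p) u} :=
      ⟨⟨u, self_mem_fiber _ _⟩⟩
    have : al u ≤ 1 := hcoll_le _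
    linarith
  rw [hal]
  have hfin := hTh.trans hprod
  rw [hsplit, ← hbe] at hfin
  rw [← hbe] at hbe3
  have := mul_le_mul_of_nonneg_right hbe3 hal0
  nlinarith [this, hfin]

end H517.EO
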