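import Pool.Agent.H517R2.EO.Basic

/-!
# TEAM EO, task G2: homogeneous systems
-/

set_option autoImplicit false

open Finset Filter MeasureTheory

namespace H517.EO

theorem G2_inv {A : Type} (lam : ℝ) (t : A → ℝ) (X : Set ℝ)
    (h : ∀ a, ∀ x ∈ X, lam * x + t a ∈ X) :
    ∀ (k : ℕ) (p : Fin k → A), ∀ x ∈ X, lam ^ k * x + XX lam t p ∈ X := by
  intro k
  induction k with
  | zero => intro p x hx; simpa [XX] using hx
  | succ k ih =>
    intro p x hx
    have h1 := h (p 0) _ (ih (fun i => p i.succ) x hx)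
    have h2 : lam ^ (k + 1) * x + XX lam t p =
        lam * (lam ^ k * x + XX lam t (fun i : Fin k => p i.succ)) + t (p 0) := by
      unfold XX
      rw [Fin.sum_univ_succ, mul_add, Finset.mul_sum]
      have : ∑ i : Fin k, lam ^ ((i.succ : Fin (k + 1)) : ℕ) * t (p i.succ) =
          ∑ i : Fin k, lam * (lam ^ (i : ℕ) * t (p i.succ)) := by
        refine Finset.sum_congr rfl fun i _ => ?_
        rw [Fin.val_succ]; ring
      rw [this]
      simp only [Fin.val_zero, pow_zero, one_mul]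
      ring
    rw [h2]; exact h1

/-- Many cells give many well separated words. -/
theorem G2_sep {A : Type} [Fintype A] (lam : ℝ) (t : A → ℝ) (hl : 0 < lam) (n D0 : ℕ) :
    ∃ (M : ℕ) (b : Fin M → ℝ), (∀ i, ∃ p : Fin n → A, b i = XX lam t p) ∧
      (∀ i j, i ≠ j → ((D0 : ℝ) + 1) * lam ^ n ≤ |b i - b j|) ∧
      ((Set.range (fun p : Fin n → A => ⌊XX lam t p / lam ^ n⌋)).ncard : ℝ) ≤
        ((D0 : ℝ) + 2) * M := by
  classical
  set f : (Fin n → A) → ℤ := fun p => ⌊XX lam t p / lam ^ n⌋ with hf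
  set S : Finset ℤ := Finset.univ.image f with hS
  have hcard : (Set.range f).ncard = S.card := by
    rw [← Set.ncard_coe_finset, hS, Finset.coe_image, Finset.coe_univ, Set.image_univ]
  set D1 : ℤ := (D0 : ℤ) + 2 with hD1
  have hD1pos : 0 < D1 := by omega
  have hmaps : ∀ c ∈ S, c % D1 ∈ Finset.Ico (0 : ℤ) D1 := by
    intro c _
    rw [Finset.mem_Ico]
    exact ⟨Int.emod_nonneg _ hD1pos.ne', Int.emod_lt_of_pos _ hD1pos⟩
  have hIco : (Finset.Ico (0 : ℤ) D1).card = D0 + 2 := by
    rw [Int.card_Ico]; omega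
  obtain ⟨r, -, hr⟩ := Finset.exists_le_card_fiber_of_nsmul_le_card_of_maps_to
    (M := ℝ) (b := (S.card : ℝ) / ((D0 : ℝ) + 2)) hmaps (by
      rw [← Finset.card_pos, hIco]; omega) (by
      rw [hIco, nsmul_eq_mul]
      push_cast
      rw [mul_div_cancel₀]
      positivity)
  set T : Finset ℤ := S.filter (fun c => c % D1 = r) with hT
  have hTw : ∀ c : T, ∃ p : Fin n → A, f p = (c : ℤ) := by
    intro c
    have := (Finset.mem_filter.1 c.2).1
    obtain ⟨p, _, hp⟩ := Finset.mem_image.1 this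
    exact ⟨p, hp⟩
  choose w hw using hTw
  refine ⟨T.card, fun i => XX lam t (w (T.equivFin.symm i)), fun i => ⟨_, rfl⟩, ?_, ?_⟩
  · intro i j hij
    set c : ℤ := (T.equivFin.symm i : ℤ) with hc
    set c' : ℤ := (T.equivFin.symm j : ℤ) with hc'
    have hcT : c ∈ T := (T.equivFin.symm i).2
    have hcT' : c' ∈ T := (T.equivFin.symm j).2
    have hne : c ≠ c' := by
      intro h
      apply hij
      have : T.equivFin.symm i = T.equivFin.symm j := Subtype.ext h
      exact T.equivFin.symm.injective this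
    have hmod : c % D1 = c' % D1 := by
      rw [(Finset.mem_filter.1 hcT).2, (Finset.mem_filter.1 hcT').2]
    have hdvd : D1 ∣ c - c' := Int.ModEq.dvd (by
      show c' % D1 = c % D1
      exact hmod.symm)
    have habs : D1 ≤ |c - c'| := by
      apply Int.le_of_dvd (abs_pos.2 (sub_ne_zero.2 hne))
      rwa [dvd_abs]
    have hfc : ⌊XX lam t (w (T.equivFin.symm i)) / lam ^ n⌋ = c := hw (T.equivFin.symm i)
    have hfc' : ⌊XX lam t (w (T.equivFin.symm j)) / lam ^ n⌋ = c' := hw (T.equivFin.symm j)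
    have hpos : 0 < lam ^ n := pow_pos hl n
    set x := XX lam t (w (T.equivFin.symm i)) with hx
    set y := XX lam t (w (T.equivFin.symm j)) with hy
    show ((D0 : ℝ) + 1) * lam ^ n ≤ |x - y|
    have e1 : (c : ℝ) ≤ x / lam ^ n := by rw [← hfc]; exact Int.floor_le _
    have e2 : x / lam ^ n < c + 1 := by rw [← hfc]; exact Int.lt_floor_add_one _
    have e3 : (c' : ℝ) ≤ y / lam ^ n := by rw [← hfc']; exact Int.floor_le _
    have e4 : y / lam ^ n < c' + 1 := by rw [← hfc']; exact Int.lt_floor_add_one _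
    have e5 : ((D0 : ℝ) + 2) ≤ |(c : ℝ) - c'| := by
      have : ((D1 : ℤ) : ℝ) ≤ ((|c - c'| : ℤ) : ℝ) := by exact_mod_cast habs
      rw [hD1] at this
      push_cast at this
      exact this
    have e6 : ((D0 : ℝ) + 1) ≤ |x / lam ^ n - y / lam ^ n| := by
      rcases le_abs.1 e5 with h | h
      · exact le_trans (by linarith) (le_abs_self _)
      · exact le_trans (by linarith) (neg_le_abs _)
    rw [← sub_div, abs_div, abs_of_pos hpos, le_div_iff₀ hpos] at e6
    exact e6
  · rw [hcard]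
    have : (0 : ℝ) < (D0 : ℝ) + 2 := by positivity
    rw [div_le_iff₀ this] at hr
    rw [mul_comm]
    exact hr

theorem t_G_homog (hM : M_cells) (hG : G_holder) : G_homog := by
  intro A _ _ lam t hA hl hl1 hfree X hXne hXc hinv
  have hchi : 0 < Real.log (1 / lam) := Real.log_pos (by
    rw [lt_div_iff₀ hl]; linarith)
  set chi := Real.log (1 / lam) with hchi'
  have hlm : 0 < Real.log (Fintype.card A) := Real.log_pos (by exact_mod_cast hA)
  set lm := Real.log (Fintype.card A : ℝ) with hlm'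
  set mu := min lm chi with hmu
  have hmupos : 0 < mu := lt_min hlm hchi
  have hv : min 1 (lm / chi) = mu / chi := by
    rw [hmu]
    rcases le_total lm chi with h | h
    · rw [min_eq_left h, min_eq_right ((div_le_one hchi).2 h)]
    · rw [min_eq_right h, div_self hchi.ne', min_eq_left ((one_le_div hchi).2 h)]
  rw [hv]
  -- diameter
  obtain ⟨D0, hD0⟩ : ∃ D0 : ℕ, ∀ x ∈ X, ∀ y ∈ X, |x - y| ≤ (D0 : ℝ) := by
    obtain ⟨C, hC⟩ := hXc.isBounded.exists_norm_le
    obtain ⟨N, hN⟩ := exists_nat_ge (2 * C)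
    refine ⟨N, fun x hx y hy => ?_⟩
    have h1 := hC x hx
    have h2 := hC y hy
    rw [Real.norm_eq_abs] at h1 h2
    calc |x - y| ≤ |x| + |y| := abs_sub _ _
      _ ≤ N := by linarith
  apply ENNReal.le_of_forall_pos_le_add
  intro η hη hfin
  have hη' : (0 : ℝ) < η := hη
  -- parameters
  set ε : ℝ := min (η * chi / 2) (mu / 2) with hε
  have hεpos : 0 < ε := lt_min (by positivity) (by positivity)
  have hD : (0 : ℝ) < (D0 : ℝ) + 2 := by positivity
  obtain ⟨n1, hn1⟩ := exists_nat_ge (2 * Real.log (2 * ((D0 : ℝ) + 2)) / mu)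
  obtain ⟨n2, hn2⟩ := exists_nat_ge (2 * Real.log ((D0 : ℝ) + 2) / (η * chi))
  obtain ⟨n, hn, hcells⟩ := hM A lam t hA hl hl1 hfree ε hεpos (max (max n1 n2) 1)
  have hn1' : (n1 : ℝ) ≤ n := by
    exact_mod_cast (le_max_left n1 n2).trans ((le_max_left _ _).trans hn)
  have hn2' : (n2 : ℝ) ≤ n := by
    exact_mod_cast (le_max_right n1 n2).trans ((le_max_left _ _).trans hn)
  have hn0 : 1 ≤ n := (le_max_right _ _).trans hn
  have hnpos : (0 : ℝ) < n := by exact_mod_cast hn0
  obtain ⟨M, b, hb1, hb2, hb3⟩ := G2_sep lam t hl n D0 (A := A)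
  have hexp : Real.exp (n * (mu - ε)) ≤ ((D0 : ℝ) + 2) * M := hcells.trans hb3
  have hM2 : 2 ≤ M := by
    by_contra hcon
    have hM1 : (M : ℝ) ≤ 1 := by
      have : M ≤ 1 := by omega
      exact_mod_cast this
    have h1 : Real.exp (n * (mu - ε)) ≤ (D0 : ℝ) + 2 := by
      refine hexp.trans ?_
      nlinarith
    have h2 : Real.log (2 * ((D0 : ℝ) + 2)) ≤ n * (mu - ε) := by
      have h3 : 2 * Real.log (2 * ((D0 : ℝ) + 2)) ≤ n * mu := by
        have := hn1.trans hn1'
        rwa [div_le_iff₀ hmupos] at this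
      have h4 : ε ≤ mu / 2 := min_le_right _ _
      nlinarith
    have h5 : 2 * ((D0 : ℝ) + 2) ≤ Real.exp (n * (mu - ε)) := by
      rw [← Real.exp_log (show 0 < 2 * ((D0 : ℝ) + 2) by positivity)]
      exact Real.exp_le_exp.2 h2
    linarith
  have hρ : 0 < lam ^ n := pow_pos hl n
  have hρ1 : lam ^ n < 1 := pow_lt_one₀ hl.le hl1 (by omega)
  have hmain := hG M (lam ^ n) D0 b X hM2 hρ hρ1 hXne hXc.isClosed hD0
    (fun i x hx => by
      obtain ⟨p, hp⟩ := hb1 i
      rw [hp]
      exact G2_inv lam t X hinv n p x hx) hb2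
  have hlog : Real.log (1 / lam ^ n) = n * chi := by
    rw [hchi', ← Real.log_pow, one_div, one_div, inv_pow]
  rw [hlog] at hmain
  have hMpos : (0 : ℝ) < M := by
    have : 0 < M := by omega
    exact_mod_cast this
  have hlogM : n * (mu - ε) - Real.log ((D0 : ℝ) + 2) ≤ Real.log M := by
    have := Real.log_le_log (Real.exp_pos _) hexp
    rw [Real.log_exp, Real.log_mul hD.ne' hMpos.ne'] at this
    linarith
  have hkey : mu / chi - η ≤ Real.log M / (n * chi) := by
    rw [le_div_iff₀ (by positivity)]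
    have h1 : (mu / chi - η) * (n * chi) = n * mu - η * (n * chi) := by
      field_simp
    rw [h1]
    have h2 : ε ≤ η * chi / 2 := min_le_left _ _
    have h3 : 2 * Real.log ((D0 : ℝ) + 2) ≤ n * (η * chi) := by
      have := hn2.trans hn2'
      rwa [div_le_iff₀ (by positivity)] at this
    nlinarith
  calc ENNReal.ofReal (mu / chi) = ENNReal.ofReal ((mu / chi - η) + η) := by congr 1; ring
    _ ≤ ENNReal.ofReal (mu / chi - η) + ENNReal.ofReal η := ENNReal.ofReal_add_le
    _ ≤ ENNReal.ofReal (Real.log M / (n * chi)) + ENNReal.ofReal η := by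
        gcongr
    _ ≤ dimH X + η := by
        gcongr
        exact (ENNReal.ofReal_coe_nnreal).le

end H517.EO
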