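import Pool.Agent.H517R2.EO.Basic

set_option autoImplicit false

open Finset

namespace H517.EO

section G5

variable {n : ℕ} (r b : Fin n → ℝ)

/-- composition along a word -/
noncomputable def Phi (w : List (Fin n)) : ℝ → ℝ :=
  List.foldr (fun i (g : ℝ → ℝ) => fun x : ℝ => r i * g x + b i) (fun x : ℝ => x) w

theorem Phi_nil (x : ℝ) : Phi r b [] x = x := rfl

theorem Phi_cons (i : Fin n) (w : List (Fin n)) (x : ℝ) :
    Phi r b (i :: w) x = r i * Phi r b w x + b i := rfl

theorem Phi_append (w w' : List (Fin n)) (x : ℝ) :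
    Phi r b (w ++ w') x = Phi r b w (Phi r b w' x) := by
  induction w with
  | nil => rfl
  | cons i w ih => rw [List.cons_append, Phi_cons, Phi_cons, ih]

theorem Phi_affine (w : List (Fin n)) (x : ℝ) :
    Phi r b w x = (w.map r).prod * x + Phi r b w 0 := by
  induction w with
  | nil => simp [Phi_nil]
  | cons i w ih =>
    rw [Phi_cons, Phi_cons, ih, List.map_cons, List.prod_cons]
    ring

theorem Phi_mem {X : Set ℝ} (hX : ∀ i, ∀ x ∈ X, r i * x + b i ∈ X) (w : List (Fin n)) :
    ∀ x ∈ X, Phi r b w x ∈ X := by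
  induction w with
  | nil => intro x hx; exact hx
  | cons i w ih => intro x hx; rw [Phi_cons]; exact hX i _ (ih x hx)

theorem Phi_ofFn {N : ℕ} (w : Fin N → Fin n) (lam : ℝ) (hw : ∏ i, r (w i) = lam) (x : ℝ) :
    Phi r b (List.ofFn w) x = lam * x + Phi r b (List.ofFn w) 0 := by
  rw [Phi_affine, List.map_ofFn, List.prod_ofFn]
  simp only [Function.comp]
  rw [hw]

theorem Phi_flatten {A : Type} {N : ℕ} (ι : A → (Fin N → Fin n)) (lam : ℝ)
    (hι : ∀ a, ∏ i, r (ι a i) = lam) (k : ℕ) (p : Fin k → A) (x : ℝ) :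
    Phi r b (List.ofFn (fun i => List.ofFn (ι (p i)))).flatten x
      = lam ^ k * x + XX lam (fun a => Phi r b (List.ofFn (ι a)) 0) p := by
  induction k with
  | zero => simp [XX, Phi_nil]
  | succ k ih =>
    rw [List.ofFn_succ, List.flatten_cons, Phi_append, ih (fun i => p i.succ),
      Phi_ofFn r b (ι (p 0)) lam (hι _)]
    unfold XX
    rw [Fin.sum_univ_succ]
    simp only [Fin.val_zero, pow_zero, one_mul, Fin.val_succ, pow_succ]
    have : ∑ i : Fin k, lam ^ (i : ℕ) * lam * Phi r b (List.ofFn (ι (p i.succ))) 0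
        = lam * ∑ i : Fin k, lam ^ (i : ℕ) * Phi r b (List.ofFn (ι (p i.succ))) 0 := by
      rw [Finset.mul_sum]
      exact Finset.sum_congr rfl fun i _ => by ring
    rw [this]
    ring

end G5

theorem t_G_main (h1 : G_homog) (h2 : G_type) (h3 : G_upper) : G_main := by
  intro n r b hn hr hfree X hXn hXc hX s hs
  have hXi : ∀ i, ∀ x ∈ X, r i * x + b i ∈ X := by
    intro i x hx
    have : r i * x + b i ∈ ⋃ i, (fun x : ℝ => r i * x + b i) '' X :=
      Set.mem_iUnion.2 ⟨i, x, hx, rfl⟩
    rw [← hX] at this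
    exact this
  have hup := h3 n r b hn hr X hXn hXc hX s hs
  refine le_antisymm hup ?_
  rcases Nat.lt_or_ge n 2 with hn2 | hn2
  · obtain rfl : n = 1 := by omega
    have hs0 : s = 0 := by
      have h4 : |r 0| ^ s = 1 := by simpa using hs
      have h5 : 0 < |r 0| := abs_pos.2 (hr 0).1
      rcases lt_trichotomy s 0 with h | h | h
      · exact absurd h4 (Real.one_lt_rpow_of_pos_of_lt_one_of_neg h5 (hr 0).2 h).ne'
      · exact h
      · exact absurd h4 (Real.rpow_lt_one h5.le (hr 0).2 h).ne
    subst hs0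
    simp
  · refine ENNReal.le_of_forall_pos_le_add ?_
    intro ε hε _
    obtain ⟨N, lam, W, hN, hl0, hl1, hW2, hW, hWs⟩ := h2 n r s hn2 hr hs ε (by exact_mod_cast hε)
    have hfr : Free lam (fun a : {w // w ∈ W} => Phi r b (List.ofFn a.1) 0) := by
      intro k p q hpq
      have h6 : (List.ofFn (fun i => List.ofFn (p i).1)).flatten
          = (List.ofFn (fun i => List.ofFn (q i).1)).flatten := by
        apply hfree
        funext x
        have e1 := Phi_flatten r b (fun a : {w // w ∈ W} => a.1) lam (fun a => hW a.1 a.2) k p x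
        have e2 := Phi_flatten r b (fun a : {w // w ∈ W} => a.1) lam (fun a => hW a.1 a.2) k q x
        unfold Phi at e1 e2
        refine e1.trans (Eq.trans ?_ e2.symm)
        unfold Phi at hpq
        rw [hpq]
      have h7 : List.ofFn (fun i => List.ofFn (p i).1) = List.ofFn (fun i => List.ofFn (q i).1) := by
        rw [List.eq_iff_flatten_eq]
        refine ⟨h6, ?_⟩
        rw [List.map_ofFn, List.map_ofFn]
        congr 1
        funext i
        simp
      have h8 := List.ofFn_injective h7
      funext i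
      have h9 := congrFun h8 i
      exact Subtype.ext (List.ofFn_injective h9)
    have h10 := h1 {w // w ∈ W} lam (fun a => Phi r b (List.ofFn a.1) 0)
      (by rw [Fintype.card_coe]; exact hW2) hl0 hl1 hfr X hXn hXc (by
        intro a x hx
        rw [← Phi_ofFn r b a.1 lam (hW a.1 a.2) x]
        exact Phi_mem r b hXi _ x hx)
    rw [Fintype.card_coe] at h10
    have h11 : min 1 s ≤ min 1 (Real.log W.card / Real.log (1 / lam)) + (ε : ℝ) := by
      have hε' : (0 : ℝ) < ε := by exact_mod_cast hε
      rcases le_total 1 (Real.log W.card / Real.log (1 / lam)) with h12 | h12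
      · rw [min_eq_left h12]
        exact (min_le_left _ _).trans (by linarith)
      · rw [min_eq_right h12]
        exact (min_le_right _ _).trans (by linarith)
    calc ENNReal.ofReal (min 1 s)
        ≤ ENNReal.ofReal (min 1 (Real.log W.card / Real.log (1 / lam)) + (ε : ℝ)) :=
          ENNReal.ofReal_le_ofReal h11
      _ ≤ ENNReal.ofReal (min 1 (Real.log W.card / Real.log (1 / lam))) + ENNReal.ofReal (ε : ℝ) :=
          ENNReal.ofReal_add_le
      _ ≤ dimH X + ε := by
          rw [ENNReal.ofReal_coe_nnreal]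
          gcongr

end H517.EO
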