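import Pool.Agent.H517R2.EO.Basic

set_option autoImplicit false

namespace H517.EO

namespace G6

/-- The map of a word, evaluated at a point. -/
def pp {k : ℕ} (a b : Fin k → ℝ) (w : List (Fin k)) (x : ℝ) : ℝ :=
  w.foldr (fun i y => a i * y + b i) x

theorem pp_append {k : ℕ} (a b : Fin k → ℝ) (w w' : List (Fin k)) (x : ℝ) :
    pp a b (w ++ w') x = pp a b w (pp a b w' x) := by
  unfold pp
  rw [List.foldr_append]

theorem foldr_eq {k : ℕ} (a b : Fin k → ℝ) (w : List (Fin k)) :
    List.foldr (fun i (g : ℝ → ℝ) => fun x : ℝ => a i * g x + b i) (fun x : ℝ => x) w =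
      pp a b w := by
  induction w with
  | nil => rfl
  | cons i w ih =>
    funext x
    rw [List.foldr_cons, ih]
    rfl

theorem pp_diff {k : ℕ} (a b : Fin k → ℝ) (w : List (Fin k)) (x y : ℝ) :
    pp a b w x - pp a b w y = (w.map a).prod * (x - y) := by
  induction w with
  | nil => simp [pp]
  | cons i w ih =>
    have h1 : ∀ z, pp a b (i :: w) z = a i * pp a b w z + b i := fun z => rfl
    rw [h1, h1, List.map_cons, List.prod_cons, mul_assoc, ← ih]
    ring

theorem prod_ne {k : ℕ} (a : Fin k → ℝ) (ha : ∀ i, a i ≠ 0) (w : List (Fin k)) :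
    (w.map a).prod ≠ 0 := by
  induction w with
  | nil => simp
  | cons i w ih =>
    rw [List.map_cons, List.prod_cons]
    exact mul_ne_zero (ha i) ih

theorem prod_le {k : ℕ} (a : Fin k → ℝ) (ha : ∀ i, |a i| < 1) (w : List (Fin k)) :
    |(w.map a).prod| ≤ 1 := by
  induction w with
  | nil => simp
  | cons i w ih =>
    rw [List.map_cons, List.prod_cons, abs_mul]
    exact mul_le_one₀ (ha i).le (abs_nonneg _) ih

theorem prod_lt {k : ℕ} (a : Fin k → ℝ) (ha : ∀ i, |a i| < 1) (w : List (Fin k))
    (hw : w ≠ []) : |(w.map a).prod| < 1 := by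
  cases w with
  | nil => exact absurd rfl hw
  | cons i w =>
    rw [List.map_cons, List.prod_cons, abs_mul]
    have h1 := prod_le a ha w
    have h2 := ha i
    calc |a i| * |(w.map a).prod| ≤ |a i| * 1 := mul_le_mul_of_nonneg_left h1 (abs_nonneg _)
      _ < 1 := by rw [mul_one]; exact h2

theorem eq_of_prefix {k : ℕ} (a b : Fin k → ℝ) (ha : ∀ i, a i ≠ 0) (ha1 : ∀ i, |a i| < 1)
    (w w' : List (Fin k)) (h : pp a b w = pp a b w') (hp : w <+: w') : w = w' := by
  obtain ⟨v, rfl⟩ := hp
  by_cases hv : v = []
  · rw [hv, List.append_nil]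
  · exfalso
    have h1 : ∀ x, pp a b v x = x := by
      intro x
      have h2 : pp a b w x = pp a b w (pp a b v x) := by
        rw [← pp_append, ← h]
      have h3 := pp_diff a b w x (pp a b v x)
      rw [h2, sub_self] at h3
      have h4 := (mul_eq_zero.1 h3.symm).resolve_left (prod_ne a ha w)
      linarith
    have h2 := pp_diff a b v 1 0
    rw [h1, h1, sub_zero, mul_one] at h2
    have h3 := prod_lt a ha1 v hv
    rw [← h2, abs_one] at h3
    exact lt_irrefl _ h3

end G6

open G6 in
theorem t_G_main2 (h : G_main) : G_main2 := by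
  intro k a b ha ha1 F hFc hFn hF s hs hlt
  by_contra hno
  have hno' : ∀ (m : ℕ) (u v : Fin m → Fin k),
      pp a b (List.ofFn u) '' F = pp a b (List.ofFn v) '' F → u = v := by
    intro m u v huv
    by_contra hne
    exact hno ⟨m, u, v, hne, huv⟩
  have hk : 0 < k := by
    rcases Nat.eq_zero_or_pos k with h0 | h0
    · exfalso
      subst h0
      obtain ⟨x, hx⟩ := hFn
      rw [hF] at hx
      obtain ⟨i, -⟩ := Set.mem_iUnion.1 hx
      exact Fin.elim0 i
    · exact h0
  have hlist : ∀ w w' : List (Fin k), w.length = w'.length → pp a b w = pp a b w' → w = w' := by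
    intro w w' hlen hpp
    have e1 : List.ofFn (fun i : Fin w.length => w.get i) = w := List.ofFn_get w
    have e2 : List.ofFn (fun i : Fin w.length => w'.get (Fin.cast hlen i)) = w' := by
      apply List.ext_get
      · rw [List.length_ofFn, hlen]
      · intro n h1 h2
        rw [List.get_ofFn]
        rfl
    have h1 := hno' w.length (fun i => w.get i) (fun i => w'.get (Fin.cast hlen i))
      (by rw [e1, e2, hpp])
    rw [← e1, ← e2, h1]
  have hfree : ∀ w w' : List (Fin k), pp a b w = pp a b w' → w = w' := by
    intro w w' hpp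
    have hcomm : pp a b (w ++ w') = pp a b (w' ++ w) := by
      funext x
      rw [pp_append, pp_append, hpp]
    have h1 := hlist (w ++ w') (w' ++ w)
      (by rw [List.length_append, List.length_append, add_comm]) hcomm
    rcases le_total w.length w'.length with hl | hl
    · refine eq_of_prefix a b ha ha1 w w' hpp ?_
      have p1 : w <+: w' ++ w := by
        rw [← h1]; exact List.prefix_append w w'
      exact List.prefix_of_prefix_length_le p1 (List.prefix_append w' w) hl
    · refine (eq_of_prefix a b ha ha1 w' w hpp.symm ?_).symm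
      have p1 : w' <+: w ++ w' := by
        rw [h1]; exact List.prefix_append w' w
      exact List.prefix_of_prefix_length_le p1 (List.prefix_append w w') hl
  have hdim := h k a b hk (fun i => ⟨ha i, ha1 i⟩)
    (by
      intro w w' hww
      rw [foldr_eq, foldr_eq] at hww
      exact hfree w w' hww) F hFn hFc hF s hs
  rw [hdim] at hlt
  exact lt_irrefl _ hlt

end H517.EO
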