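import Pool.Agent.H517R2.EO.Basic

/-!
# Lower bound of the dimension for strongly separated homogeneous systems
-/

set_option autoImplicit false

open Finset Filter MeasureTheory

namespace H517.EO

namespace GHolder

/-- the point with the given address -/
noncomputable def pt {M : ℕ} (ρ : ℝ) (b : Fin M → ℝ) (s : ℕ → Fin M) : ℝ :=
  ∑' n, ρ ^ n * b (s n)

theorem summ {M : ℕ} {ρ : ℝ} (h0 : 0 < ρ) (h1 : ρ < 1) (b : Fin M → ℝ) (s : ℕ → Fin M) :
    Summable (fun n => ρ ^ n * b (s n)) := by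
  apply Summable.of_norm_bounded (g := fun n => ρ ^ n * ∑ i, |b i|)
  · exact (summable_geometric_of_lt_one h0.le h1).mul_right _
  · intro n
    rw [Real.norm_eq_abs, abs_mul, abs_of_pos (pow_pos h0 n)]
    exact mul_le_mul_of_nonneg_left
      (Finset.single_le_sum (f := fun i => |b i|) (fun i _ => abs_nonneg _) (Finset.mem_univ (s n)))
      (pow_pos h0 n).le

theorem pt_split {M : ℕ} {ρ : ℝ} (h0 : 0 < ρ) (h1 : ρ < 1) (b : Fin M → ℝ) (s : ℕ → Fin M)
    (n : ℕ) : pt ρ b s = (∑ i ∈ Finset.range n, ρ ^ i * b (s i)) +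
      ρ ^ n * pt ρ b (fun i => s (i + n)) := by
  unfold pt
  rw [← Summable.sum_add_tsum_nat_add n (summ h0 h1 b s), ← tsum_mul_left]
  congr 1
  apply tsum_congr
  intro i
  rw [pow_add]
  ring

theorem pt_mem {M : ℕ} {ρ : ℝ} (h0 : 0 < ρ) (h1 : ρ < 1) (b : Fin M → ℝ) {X : Set ℝ}
    (hne : X.Nonempty) (hcl : IsClosed X) (hinv : ∀ i, ∀ x ∈ X, ρ * x + b i ∈ X)
    (s : ℕ → Fin M) : pt ρ b s ∈ X := by
  obtain ⟨x0, hx0⟩ := hne
  have hfin : ∀ n : ℕ, ∀ s : ℕ → Fin M,
      (∑ i ∈ Finset.range n, ρ ^ i * b (s i)) + ρ ^ n * x0 ∈ X := by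
    intro n
    induction n with
    | zero => intro s; simpa using hx0
    | succ n ih =>
      intro s
      have h := hinv (s 0) _ (ih (fun i => s (i + 1)))
      have e : ρ * ((∑ i ∈ Finset.range n, ρ ^ i * b (s (i + 1))) + ρ ^ n * x0) + b (s 0) =
          (∑ i ∈ Finset.range (n + 1), ρ ^ i * b (s i)) + ρ ^ (n + 1) * x0 := by
        rw [Finset.sum_range_succ', mul_add, Finset.mul_sum]
        have : ∀ i ∈ Finset.range n, ρ * (ρ ^ i * b (s (i + 1))) = ρ ^ (i + 1) * b (s (i + 1)) := by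
          intro i _
          rw [pow_succ]; ring
        rw [Finset.sum_congr rfl this, pow_succ]
        simp only [pow_zero, one_mul]
        ring
      rw [← e]
      exact h
  have hlim : Tendsto (fun n : ℕ => (∑ i ∈ Finset.range n, ρ ^ i * b (s i)) + ρ ^ n * x0) atTop
      (nhds (pt ρ b s + 0 * x0)) := by
    apply Tendsto.add
    · exact (summ h0 h1 b s).hasSum.tendsto_sum_nat
    · exact (tendsto_pow_atTop_nhds_zero_of_lt_one h0.le h1).mul_const _
  rw [zero_mul, add_zero] at hlim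
  exact hcl.mem_of_tendsto hlim (Eventually.of_forall fun n => hfin n s)

theorem sep {M : ℕ} {ρ D : ℝ} (h0 : 0 < ρ) (h1 : ρ < 1) (b : Fin M → ℝ) {X : Set ℝ}
    (hne : X.Nonempty) (hcl : IsClosed X) (hD : ∀ x ∈ X, ∀ y ∈ X, |x - y| ≤ D)
    (hinv : ∀ i, ∀ x ∈ X, ρ * x + b i ∈ X) (hb : ∀ i j, i ≠ j → (D + 1) * ρ ≤ |b i - b j|)
    (s s' : ℕ → Fin M) (j : ℕ) (hj : ∀ i < j, s i = s' i) (hne' : s j ≠ s' j) :
    ρ ^ (j + 1) ≤ |pt ρ b s - pt ρ b s'| := by
  have e1 : pt ρ b s - pt ρ b s' = ρ ^ j *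
      (pt ρ b (fun i => s (i + j)) - pt ρ b (fun i => s' (i + j))) := by
    rw [pt_split h0 h1 b s j, pt_split h0 h1 b s' j]
    have : ∑ i ∈ Finset.range j, ρ ^ i * b (s i) = ∑ i ∈ Finset.range j, ρ ^ i * b (s' i) :=
      Finset.sum_congr rfl fun i hi => by rw [hj i (Finset.mem_range.1 hi)]
    rw [this]
    ring
  rw [e1, abs_mul, abs_of_pos (pow_pos h0 j), pow_succ]
  apply mul_le_mul_of_nonneg_left _ (pow_pos h0 j).le
  set u : ℕ → Fin M := fun i => s (i + j) with hu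
  set v : ℕ → Fin M := fun i => s' (i + j) with hv
  have huv : u 0 ≠ v 0 := by
    simpa [hu, hv] using hne'
  rw [pt_split h0 h1 b u 1, pt_split h0 h1 b v 1]
  simp only [Finset.range_one, Finset.sum_singleton, pow_zero, one_mul, pow_one]
  have hx := pt_mem h0 h1 b hne hcl hinv (fun i => u (i + 1))
  have hy := pt_mem h0 h1 b hne hcl hinv (fun i => v (i + 1))
  have hd := hD _ hx _ hy
  have hb' := hb _ _ huv
  have e2 : b (u 0) + ρ * pt ρ b (fun i => u (i + 1)) -
      (b (v 0) + ρ * pt ρ b (fun i => v (i + 1))) = (b (u 0) - b (v 0)) +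
      ρ * (pt ρ b (fun i => u (i + 1)) - pt ρ b (fun i => v (i + 1))) := by ring
  rw [e2]
  have h3 := abs_sub_abs_le_abs_sub (b (u 0) - b (v 0))
    (-(ρ * (pt ρ b (fun i => u (i + 1)) - pt ρ b (fun i => v (i + 1)))))
  rw [sub_neg_eq_add, abs_neg, abs_mul, abs_of_pos h0] at h3
  have h4 := mul_le_mul_of_nonneg_left hd h0.le
  linarith

end GHolder

open GHolder in
theorem t_G_holder : G_holder := by
  intro M ρ D b X hM h0 h1 hne hcl hD hinv hb
  have hMr : (1 : ℝ) < M := by exact_mod_cast (by omega : 1 < M)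
  have hM0 : (0 : ℝ) < M := by linarith
  have hlogM : 0 < Real.log M := Real.log_pos hMr
  have hlogρ : 0 < Real.log (1 / ρ) := Real.log_pos (by rw [lt_div_iff₀ h0]; linarith)
  set β : ℝ := Real.log M / Real.log (1 / ρ) with hβ
  have hβ0 : 0 < β := div_pos hlogM hlogρ
  have hρβ : ρ ^ β = (M : ℝ)⁻¹ := by
    rw [Real.rpow_def_of_pos h0]
    have e1 : Real.log ρ = - Real.log (1 / ρ) := by rw [one_div, Real.log_inv]; ring
    rw [e1, hβ]
    have e2 : -Real.log (1 / ρ) * (Real.log M / Real.log (1 / ρ)) = - Real.log M := by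
      field_simp
    rw [e2, Real.exp_neg, Real.exp_log hM0]
  -- the key estimate
  have key : ∀ s s' : ℕ → Fin M, |Real.ofDigits s - Real.ofDigits s'| ≤
      M * |pt ρ b s - pt ρ b s'| ^ β := by
    intro s s'
    by_cases hss : s = s'
    · subst hss
      simp only [sub_self, abs_zero]
      positivity
    · have hex : ∃ j, s j ≠ s' j := Function.ne_iff.1 hss
      classical
      set j := Nat.find hex with hjdef
      have hj1 : s j ≠ s' j := Nat.find_spec hex
      have hj2 : ∀ i < j, s i = s' i := by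
        intro i hi
        by_contra hcon
        exact Nat.find_min hex hi hcon
      have a1 := Real.abs_ofDigits_sub_ofDigits_le (b := M) (x := s) (y := s') (n := j) hj2
      have a2 := sep h0 h1 b hne hcl hD hinv hb s s' j hj2 hj1
      have a3 : (ρ ^ (j + 1)) ^ β ≤ |pt ρ b s - pt ρ b s'| ^ β :=
        Real.rpow_le_rpow (pow_pos h0 _).le a2 hβ0.le
      have a4 : (ρ ^ (j + 1)) ^ β = ((M : ℝ)⁻¹) ^ (j + 1) := by
        rw [← hρβ, ← Real.rpow_natCast, ← Real.rpow_natCast, ← Real.rpow_mul h0.le,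
          ← Real.rpow_mul h0.le, mul_comm]
      rw [a4] at a3
      calc |Real.ofDigits s - Real.ofDigits s'| ≤ ((M : ℝ) ^ j)⁻¹ := a1
        _ = M * ((M : ℝ)⁻¹) ^ (j + 1) := by
            rw [inv_pow, pow_succ]
            field_simp
        _ ≤ M * |pt ρ b s - pt ρ b s'| ^ β := mul_le_mul_of_nonneg_left a3 hM0.le
  have hinj : Function.Injective (pt ρ b : (ℕ → Fin M) → ℝ) := by
    intro s s' hss
    by_contra hcon
    have hex : ∃ j, s j ≠ s' j := Function.ne_iff.1 hcon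
    classical
    have hj1 := Nat.find_spec hex
    have hj2 : ∀ i < Nat.find hex, s i = s' i := by
      intro i hi
      by_contra hc
      exact Nat.find_min hex hi hc
    have a2 := sep h0 h1 b hne hcl hD hinv hb s s' _ hj2 hj1
    rw [hss, sub_self, abs_zero] at a2
    exact absurd a2 (not_le.2 (pow_pos h0 _))
  have : Nonempty (Fin M) := ⟨⟨0, by omega⟩⟩
  set Y : Set ℝ := Set.range (pt ρ b : (ℕ → Fin M) → ℝ) with hY
  set f : ℝ → ℝ := fun y => Real.ofDigits (Function.invFun (pt ρ b) y) with hf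
  have hfpt : ∀ s : ℕ → Fin M, f (pt ρ b s) = Real.ofDigits s := by
    intro s
    rw [hf]
    simp only
    rw [Function.leftInverse_invFun hinj s]
  have hYX : Y ⊆ X := by
    rintro y ⟨s, rfl⟩
    exact pt_mem h0 h1 b hne hcl hinv s
  have hol : HolderOnWith (M : NNReal) (Real.toNNReal β) f Y := by
    rintro _ ⟨s, rfl⟩ _ ⟨s', rfl⟩
    rw [hfpt, hfpt, edist_dist, edist_dist, Real.dist_eq, Real.dist_eq,
      Real.coe_toNNReal β hβ0.le, ENNReal.ofReal_rpow_of_nonneg (abs_nonneg _) hβ0.le]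
    have e1 : ((M : NNReal) : ENNReal) = ENNReal.ofReal (M : ℝ) := by
      rw [ENNReal.ofReal_natCast]
      simp
    rw [e1, ← ENNReal.ofReal_mul hM0.le]
    exact ENNReal.ofReal_le_ofReal (key s s')
  have hfY : Set.Icc (0 : ℝ) 1 ⊆ f '' Y := by
    intro t ht
    obtain ⟨s, _, hs⟩ := Real.ofDigits_SurjOn (b := M) (by omega) ht
    exact ⟨pt ρ b s, ⟨s, rfl⟩, by rw [hfpt, hs]⟩
  have hβ' : 0 < Real.toNNReal β := Real.toNNReal_pos.2 hβ0
  have h5 := hol.dimH_image_le hβ'
  have h6 : dimH (Set.Icc (0 : ℝ) 1) = 1 := by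
    have h := Real.dimH_of_nonempty_interior (s := Set.Icc (0 : ℝ) 1)
      (by rw [interior_Icc]; exact ⟨1 / 2, by norm_num⟩)
    rw [h]
    simp
  have h7 : (1 : ENNReal) ≤ dimH Y / (Real.toNNReal β : ENNReal) := by
    rw [← h6]
    exact (dimH_mono hfY).trans h5
  have h8 : (Real.toNNReal β : ENNReal) ≤ dimH Y := by
    rw [ENNReal.le_div_iff_mul_le (Or.inl (by exact_mod_cast hβ'.ne')) (Or.inl ENNReal.coe_ne_top),
      one_mul] at h7
    exact h7
  exact h8.trans (dimH_mono hYX)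

end H517.EO
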