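import Pool.Agent.H517R2.EO.Basic

set_option autoImplicit false

open Finset Filter MeasureTheory Topology

namespace H517.EO

theorem G_upper_cover {n : ℕ} (r b : Fin n → ℝ) (X : Set ℝ)
    (hX : X = ⋃ i, (fun x : ℝ => r i * x + b i) '' X) (N : ℕ) :
    ∃ B : (Fin N → Fin n) → ℝ, X ⊆ ⋃ w, (fun x => (∏ i, r (w i)) * x + B w) '' X := by
  induction N with
  | zero =>
    refine ⟨fun _ => 0, fun x hx => ?_⟩
    exact Set.mem_iUnion.2 ⟨Fin.elim0, ⟨x, hx, by simp⟩⟩
  | succ N ih =>
    obtain ⟨B, hB⟩ := ih
    refine ⟨fun v => r (v 0) * B (Fin.tail v) + b (v 0), fun x hx => ?_⟩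
    rw [hX] at hx
    obtain ⟨i, y, hy, rfl⟩ := Set.mem_iUnion.1 hx
    obtain ⟨w, z, hz, rfl⟩ := Set.mem_iUnion.1 (hB hy)
    refine Set.mem_iUnion.2 ⟨Fin.cons i w, ⟨z, hz, ?_⟩⟩
    simp only [Fin.prod_univ_succ, Fin.cons_zero, Fin.cons_succ, Fin.tail_cons]
    ring

theorem G_upper_diam (R B : ℝ) (X : Set ℝ) :
    Metric.ediam ((fun x => R * x + B) '' X) ≤ ENNReal.ofReal |R| * Metric.ediam X := by
  have h : LipschitzWith (Real.toNNReal |R|) (fun x : ℝ => R * x + B) := by
    refine LipschitzWith.of_dist_le_mul fun x y => ?_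
    rw [Real.coe_toNNReal _ (abs_nonneg R), Real.dist_eq, Real.dist_eq, ← abs_mul]
    apply le_of_eq
    congr 1
    ring
  exact h.ediam_image_le X

theorem t_G_upper : G_upper := by
  intro n r b hn hr X hne hc hX s hs
  have hs0 : 0 ≤ s := by
    by_contra hneg
    push Not at hneg
    have h1 : ∀ i, 1 < |r i| ^ s := fun i =>
      Real.one_lt_rpow_of_pos_of_lt_one_of_neg (abs_pos.2 (hr i).1) (hr i).2 hneg
    have : Nonempty (Fin n) := ⟨⟨0, hn⟩⟩
    have h2 : ∑ _i : Fin n, (1 : ℝ) < ∑ i, |r i| ^ s :=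
      Finset.sum_lt_sum_of_nonempty Finset.univ_nonempty (fun i _ => h1 i)
    rw [hs] at h2
    simp only [Finset.sum_const, Finset.card_univ, Fintype.card_fin, nsmul_eq_mul, mul_one] at h2
    have : (1 : ℝ) ≤ n := by exact_mod_cast hn
    linarith
  have h1 : dimH X ≤ 1 := by
    calc dimH X ≤ dimH (Set.univ : Set ℝ) := dimH_mono (Set.subset_univ X)
      _ = 1 := Real.dimH_univ
  have h2 : dimH X ≤ ENNReal.ofReal s := by
    have : dimH X ≤ (Real.toNNReal s : ENNReal) := by
      apply dimH_le_of_hausdorffMeasure_ne_top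
      rw [Real.coe_toNNReal _ hs0]
      -- diameter
      set D : ENNReal := Metric.ediam X with hD
      have hDtop : D ≠ ⊤ := hc.isBounded.ediam_ne_top
      -- rho
      obtain ⟨ρ, hρ0, hρ1, hρ⟩ : ∃ ρ : ℝ, 0 ≤ ρ ∧ ρ < 1 ∧ ∀ i, |r i| ≤ ρ := by
        have hne' : (Finset.univ : Finset (Fin n)).Nonempty := ⟨⟨0, hn⟩, Finset.mem_univ _⟩
        obtain ⟨i0, -, hi0⟩ := Finset.exists_max_image Finset.univ (fun i => |r i|) hne'
        exact ⟨|r i0|, abs_nonneg _, (hr i0).2, fun i => hi0 i (Finset.mem_univ i)⟩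
      choose B hB using G_upper_cover r b X hX
      have key := Measure.hausdorffMeasure_le_liminf_sum (X := ℝ) (β := ℕ)
        (ι := fun N => (Fin N → Fin n)) s X (l := atTop)
        (fun N => ENNReal.ofReal (ρ ^ N) * D)
        (by
          have h0 : Tendsto (fun N : ℕ => ρ ^ N) atTop (𝓝 0) :=
            tendsto_pow_atTop_nhds_zero_of_lt_one hρ0 hρ1
          have h1 : Tendsto (fun N : ℕ => ENNReal.ofReal (ρ ^ N)) atTop (𝓝 0) := by
            have := (ENNReal.continuous_ofReal.tendsto 0).comp h0
            simpa [Function.comp_def] using this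
          have h2 := ENNReal.Tendsto.mul_const (b := D) h1 (Or.inr hDtop)
          simpa using h2)
        (fun N w => (fun x => (∏ i, r (w i)) * x + B N w) '' X)
        (by
          refine Eventually.of_forall fun N w => ?_
          refine (G_upper_diam _ _ X).trans ?_
          gcongr
          rw [Finset.abs_prod]
          calc ∏ i, |r (w i)| ≤ ∏ _i : Fin N, ρ :=
                Finset.prod_le_prod (fun i _ => abs_nonneg _) (fun i _ => hρ _)
            _ = ρ ^ N := by simp)
        (Eventually.of_forall fun N => hB N)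
      have hbound : ∀ N : ℕ, (∑ w : Fin N → Fin n,
          Metric.ediam ((fun x => (∏ i, r (w i)) * x + B N w) '' X) ^ s) ≤ D ^ s := by
        intro N
        calc (∑ w : Fin N → Fin n,
              Metric.ediam ((fun x => (∏ i, r (w i)) * x + B N w) '' X) ^ s)
            ≤ ∑ w : Fin N → Fin n, ENNReal.ofReal (∏ i, |r (w i)| ^ s) * D ^ s := by
              refine Finset.sum_le_sum fun w _ => ?_
              calc _ ≤ (ENNReal.ofReal |∏ i, r (w i)| * D) ^ s :=
                    ENNReal.rpow_le_rpow (G_upper_diam _ _ X) hs0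
                _ = _ := by
                    rw [ENNReal.mul_rpow_of_nonneg _ _ hs0, Finset.abs_prod,
                      ENNReal.ofReal_rpow_of_pos
                        (Finset.prod_pos fun i _ => abs_pos.2 (hr (w i)).1),
                      Real.finsetProd_rpow _ _ (fun i _ => abs_nonneg _)]
          _ = (∑ w : Fin N → Fin n, ENNReal.ofReal (∏ i, |r (w i)| ^ s)) * D ^ s := by
              rw [Finset.sum_mul]
          _ = D ^ s := by
              rw [← ENNReal.ofReal_sum_of_nonneg (fun w _ =>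
                Finset.prod_nonneg fun i _ => Real.rpow_nonneg (abs_nonneg _) _)]
              have := Fintype.sum_pow (fun i => |r i| ^ s) N
              rw [← this, hs]
              simp
      have hle : Measure.hausdorffMeasure s X ≤ D ^ s := by
        refine key.trans ?_
        calc liminf (fun N : ℕ => ∑ w : Fin N → Fin n,
              Metric.ediam ((fun x => (∏ i, r (w i)) * x + B N w) '' X) ^ s) atTop
            ≤ liminf (fun _ : ℕ => D ^ s) atTop := liminf_le_liminf (Eventually.of_forall hbound)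
          _ = D ^ s := by simp
      exact ne_top_of_le_ne_top (ENNReal.rpow_ne_top_of_nonneg hs0 hDtop) hle
    exact this
  rw [ENNReal.ofReal_min]
  exact le_min (by simpa using h1) h2

end H517.EO
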