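import Pool.Agent.H517R2.EO.Basic

/-!
# TEAM EO : task L1, the leak inequality for one profile
-/

set_option autoImplicit false

open Finset MeasureTheory

namespace H517.EO

namespace TL1

theorem exp_bd {t : ℝ} (h0 : 0 ≤ t) (h1 : t ≤ 1 / 2) : Real.exp t - 1 ≤ 3 / 2 * t := by
  have h := Real.abs_exp_sub_one_sub_id_le (x := t) (by rw [abs_of_nonneg h0]; linarith)
  have h2 := (abs_le.1 h).2
  nlinarith

theorem norm_e_sub_one {x : ℝ} (hx : |x| ≤ 1 / 2) :
    4 * |x| ≤ ‖Complex.exp (2 * Real.pi * x * Complex.I) - 1‖ := by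
  have e1 : (2 * Real.pi * x * Complex.I : ℂ) = Complex.I * ((2 * Real.pi * x : ℝ) : ℂ) := by
    push_cast; ring
  rw [e1, Complex.norm_exp_I_mul_ofReal_sub_one]
  have e2 : 2 * Real.pi * x / 2 = Real.pi * x := by ring
  rw [e2, norm_mul, Real.norm_eq_abs, Real.norm_eq_abs, abs_of_pos (by norm_num : (0 : ℝ) < 2)]
  have hpi := Real.pi_pos
  have key : 2 * |x| ≤ |Real.sin (Real.pi * x)| := by
    have h1 : Real.sin (Real.pi * |x|) ≤ |Real.sin (Real.pi * x)| := by
      rcases abs_cases x with ⟨h, _⟩ | ⟨h, _⟩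
      · rw [h]; exact le_abs_self _
      · rw [h, mul_neg, Real.sin_neg]; exact neg_le_abs _
    have h2 := Real.mul_le_sin (x := Real.pi * |x|) (by positivity) (by nlinarith)
    have h3 : 2 / Real.pi * (Real.pi * |x|) = 2 * |x| := by field_simp
    rw [h3] at h2
    exact h2.trans h1
  linarith

section pair

variable {m : ℝ → ℝ} {M : ℝ → ℂ} {R : ℝ}

theorem quot_diff (hpos : ∀ z, 0 < m z) (hle : ∀ z, ‖M z‖ ≤ m z)
    (hm : ∀ z y, m (z + y) ≤ Real.exp |y| * m z)
    (hM : ∀ z y, ‖M (z + y) - M z‖ ≤ (Real.exp |y| - 1) * m z) (a y : ℝ) :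
    ‖M (a + y) / (m (a + y) : ℂ) - M a / (m a : ℂ)‖ ≤ 2 * (Real.exp |y| - 1) := by
  have ha := hpos a
  have hb := hpos (a + y)
  have ha' : (m a : ℂ) ≠ 0 := by exact_mod_cast ha.ne'
  have hb' : (m (a + y) : ℂ) ≠ 0 := by exact_mod_cast hb.ne'
  have hdec : M (a + y) / (m (a + y) : ℂ) - M a / (m a : ℂ)
      = (M (a + y) - M a) / (m a : ℂ)
        + M (a + y) / (m (a + y) : ℂ) * (((m a - m (a + y) : ℝ) : ℂ) / (m a : ℂ)) := by
    push_cast
    field_simp
    ring
  rw [hdec]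
  have h1 : ‖(M (a + y) - M a) / (m a : ℂ)‖ ≤ Real.exp |y| - 1 := by
    rw [norm_div, Complex.norm_real, Real.norm_eq_abs, abs_of_pos ha, div_le_iff₀ ha]
    exact hM a y
  have h2 : ‖M (a + y) / (m (a + y) : ℂ)‖ ≤ 1 := by
    rw [norm_div, Complex.norm_real, Real.norm_eq_abs, abs_of_pos hb, div_le_iff₀ hb, one_mul]
    exact hle _
  have h3 : ‖((m a - m (a + y) : ℝ) : ℂ) / (m a : ℂ)‖ ≤ Real.exp |y| - 1 := by
    rw [norm_div, Complex.norm_real, Complex.norm_real, Real.norm_eq_abs, Real.norm_eq_abs,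
      abs_of_pos ha, div_le_iff₀ ha]
    have hE : 1 ≤ Real.exp |y| := Real.one_le_exp (abs_nonneg y)
    have h4 := hm a y
    have h5 := hm (a + y) (-y)
    rw [abs_neg, add_neg_cancel_right] at h5
    rw [abs_le]
    constructor
    · nlinarith
    · by_cases hc : m (a + y) ≤ m a
      · have : m a - m (a + y) ≤ (Real.exp |y| - 1) * m (a + y) := by nlinarith
        nlinarith
      · push Not at hc
        nlinarith
  calc ‖(M (a + y) - M a) / (m a : ℂ)
        + M (a + y) / (m (a + y) : ℂ) * (((m a - m (a + y) : ℝ) : ℂ) / (m a : ℂ))‖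
      ≤ ‖(M (a + y) - M a) / (m a : ℂ)‖
        + ‖M (a + y) / (m (a + y) : ℂ) * (((m a - m (a + y) : ℝ) : ℂ) / (m a : ℂ))‖ :=
        norm_add_le _ _
    _ ≤ (Real.exp |y| - 1) + 1 * (Real.exp |y| - 1) := by
        rw [norm_mul]
        exact add_le_add h1 (mul_le_mul h2 h3 (norm_nonneg _) zero_le_one)
    _ = 2 * (Real.exp |y| - 1) := by ring

theorem pair (hR : 1 ≤ R) (hpos : ∀ z, 0 < m z) (hle : ∀ z, ‖M z‖ ≤ m z)
    (hm : ∀ z y, m (z + y) ≤ Real.exp |y| * m z)
    (hM : ∀ z y, ‖M (z + y) - M z‖ ≤ (Real.exp |y| - 1) * m z) (a y : ℝ) (c d : ℂ)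
    (hc : ‖c‖ = 1) (hd : d = c * Complex.exp (2 * Real.pi * (R * y : ℝ) * Complex.I))
    (hy : |y| ≤ 1 / (2 * R)) :
    (R * y) ^ 2 * (8 * (‖M a‖ ^ 2 / m a) - 12 / R ^ 2 * m a) ≤
      m a * ‖c * (M (a + y) / (m (a + y) : ℂ)) - d * (M a / (m a : ℂ))‖ ^ 2 := by
  have hR0 : 0 < R := by linarith
  have ha := hpos a
  set U1 : ℂ := M (a + y) / (m (a + y) : ℂ) with hU1
  set U0 : ℂ := M a / (m a : ℂ) with hU0
  set e : ℂ := Complex.exp (2 * Real.pi * (R * y : ℝ) * Complex.I) with he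
  have hw : ‖c * U1 - d * U0‖ = ‖U1 - e * U0‖ := by
    rw [hd, mul_assoc, ← mul_sub, norm_mul, hc, one_mul]
  rw [hw]
  have hyR : |R * y| ≤ 1 / 2 := by
    rw [abs_mul, abs_of_pos hR0]
    calc R * |y| ≤ R * (1 / (2 * R)) := mul_le_mul_of_nonneg_left hy hR0.le
      _ = 1 / 2 := by field_simp
  have hy2 : |y| ≤ 1 / 2 := by
    refine hy.trans ?_
    rw [div_le_div_iff₀ (by positivity) (by norm_num)]
    linarith
  have h1 : 4 * |R * y| ≤ ‖e - 1‖ := norm_e_sub_one hyR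
  have h2 : ‖U1 - U0‖ ≤ 3 * |y| := by
    have := quot_diff hpos hle hm hM a y
    have h3 := exp_bd (abs_nonneg y) hy2
    linarith
  have h3 : ‖(e - 1) * U0‖ ≤ ‖U1 - U0‖ + ‖U1 - e * U0‖ := by
    have : (e - 1) * U0 = (U1 - U0) - (U1 - e * U0) := by ring
    rw [this]
    exact norm_sub_le _ _
  rw [norm_mul] at h3
  have h4 : 4 * |R * y| * ‖U0‖ ≤ 3 * |y| + ‖U1 - e * U0‖ := by
    have := mul_le_mul_of_nonneg_right h1 (norm_nonneg U0)
    linarith
  have hU : ‖U0‖ ^ 2 * m a = ‖M a‖ ^ 2 / m a := by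
    rw [hU0, norm_div, Complex.norm_real, Real.norm_eq_abs, abs_of_pos ha]
    field_simp
  have h5 : (4 * |R * y| * ‖U0‖) ^ 2 ≤ (3 * |y| + ‖U1 - e * U0‖) ^ 2 :=
    pow_le_pow_left₀ (by positivity) h4 2
  have h6 : (3 * |y| + ‖U1 - e * U0‖) ^ 2 ≤ 2 * (9 * y ^ 2) + 2 * ‖U1 - e * U0‖ ^ 2 := by
    have := sq_nonneg (3 * |y| - ‖U1 - e * U0‖)
    have h7 : |y| ^ 2 = y ^ 2 := sq_abs y
    nlinarith
  have h8 : (4 * |R * y| * ‖U0‖) ^ 2 = 16 * (R * y) ^ 2 * ‖U0‖ ^ 2 := by
    rw [mul_pow, mul_pow, sq_abs]; ring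
  rw [h8] at h5
  have h9 : 8 * (R * y) ^ 2 * ‖U0‖ ^ 2 - 12 * y ^ 2 ≤ ‖U1 - e * U0‖ ^ 2 := by
    nlinarith [sq_nonneg y]
  have h10 := mul_le_mul_of_nonneg_left h9 ha.le
  have h11 : (R * y) ^ 2 * (8 * (‖M a‖ ^ 2 / m a) - 12 / R ^ 2 * m a)
      = m a * (8 * (R * y) ^ 2 * ‖U0‖ ^ 2 - 12 * y ^ 2) := by
    rw [← hU]
    field_simp
  rw [h11]
  exact h10

end pair

theorem ident {ι : Type} [Fintype ι] (a : ι → ℝ) (u : ι → ℂ) :
    ∑ i, ∑ j, a i * a j * ‖u i - u j‖ ^ 2
      = 2 * (∑ i, a i) * (∑ i, a i * ‖u i‖ ^ 2) - 2 * ‖∑ i, a i • u i‖ ^ 2 := by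
  have h1 : ‖∑ i, a i • u i‖ ^ 2 = ∑ i, ∑ j, a i * a j * inner ℝ (u i) (u j) := by
    rw [← real_inner_self_eq_norm_sq, sum_inner]
    refine Finset.sum_congr rfl fun i _ => ?_
    rw [inner_sum]
    refine Finset.sum_congr rfl fun j _ => ?_
    rw [real_inner_smul_left, real_inner_smul_right]
    ring
  have h2 : ∑ i, ∑ j, a i * a j * ‖u i‖ ^ 2 = (∑ i, a i) * (∑ i, a i * ‖u i‖ ^ 2) := by
    rw [mul_comm, Finset.sum_mul_sum]
    refine Finset.sum_congr rfl fun i _ => Finset.sum_congr rfl fun j _ => ?_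
    ring
  have h3 : ∑ i, ∑ j, a i * a j * ‖u j‖ ^ 2 = (∑ i, a i) * (∑ i, a i * ‖u i‖ ^ 2) := by
    rw [Finset.sum_mul_sum]
    refine Finset.sum_congr rfl fun i _ => Finset.sum_congr rfl fun j _ => ?_
    ring
  calc ∑ i, ∑ j, a i * a j * ‖u i - u j‖ ^ 2
      = ∑ i, ∑ j, (a i * a j * ‖u i‖ ^ 2 + a i * a j * ‖u j‖ ^ 2
          - 2 * (a i * a j * inner ℝ (u i) (u j))) := by
        refine Finset.sum_congr rfl fun i _ => Finset.sum_congr rfl fun j _ => ?_
        rw [norm_sub_sq_real]; ring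
    _ = 2 * (∑ i, a i) * (∑ i, a i * ‖u i‖ ^ 2) - 2 * ‖∑ i, a i • u i‖ ^ 2 := by
        simp_rw [Finset.sum_sub_distrib, Finset.sum_add_distrib, ← Finset.mul_sum]
        rw [h2, h3, h1]
        ring

theorem pointwise {ι : Type} [Fintype ι] [Nonempty ι] (a : ι → ℝ) (u : ι → ℂ) (K : ℝ)
    (ha : ∀ i, 0 < a i) (hK : ∀ i, K / (Fintype.card ι : ℝ) * (∑ l, a l) ≤ a i) :
    ‖∑ i, a i • u i‖ ^ 2 / (∑ i, a i) ≤ ∑ i, a i * ‖u i‖ ^ 2
      - K / 2 / (Fintype.card ι : ℝ) * ∑ i, ∑ j, a j * ‖u i - u j‖ ^ 2 := by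
  have hS : 0 < ∑ i, a i := Finset.sum_pos (fun i _ => ha i) Finset.univ_nonempty
  have hid := ident a u
  have h1 : K / (Fintype.card ι : ℝ) * (∑ l, a l) * ∑ i, ∑ j, a j * ‖u i - u j‖ ^ 2
      ≤ ∑ i, ∑ j, a i * a j * ‖u i - u j‖ ^ 2 := by
    rw [Finset.mul_sum]
    refine Finset.sum_le_sum fun i _ => ?_
    rw [Finset.mul_sum]
    refine Finset.sum_le_sum fun j _ => ?_
    have := mul_le_mul_of_nonneg_right (hK i)
      (mul_nonneg (ha j).le (sq_nonneg ‖u i - u j‖))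
    linarith
  rw [hid] at h1
  rw [div_le_iff₀ hS]
  have h2 : K / 2 / (Fintype.card ι : ℝ) = (K / (Fintype.card ι : ℝ)) / 2 := by ring
  rw [h2]
  nlinarith

end TL1

open TL1 in
theorem t_L_single : L_single := by
  intro m M R hR hmc hMc hpos hint hle hm hM ι _ _ s hs
  have hR0 : 0 < R := by linarith
  set n : ℝ := (Fintype.card ι : ℝ) with hn
  have hn0 : 0 < n := by
    rw [hn]; exact_mod_cast Fintype.card_pos
  set K : ℝ := Real.exp (-(1 / (2 * R))) with hK
  set F : ℝ → ℝ := fun z => ‖M z‖ ^ 2 / m z with hF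
  have hFc : Continuous F := (hMc.norm.pow 2).div hmc (fun z => (hpos z).ne')
  have hF0 : ∀ z, 0 ≤ F z := fun z => div_nonneg (sq_nonneg _) (hpos z).le
  have hFm : ∀ z, F z ≤ m z := by
    intro z
    rw [hF]
    simp only
    rw [div_le_iff₀ (hpos z)]
    nlinarith [hle z, norm_nonneg (M z), hpos z]
  have hFi : Integrable F := by
    refine Integrable.mono' hint hFc.aestronglyMeasurable (Filter.Eventually.of_forall fun z => ?_)
    rw [Real.norm_eq_abs, abs_of_nonneg (hF0 z)]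
    exact hFm z
  -- the translates
  have hFt : ∀ i, Integrable (fun z => F (z - s i)) := fun i => hFi.comp_sub_right (s i)
  have hmt : ∀ i, Integrable (fun z => m (z - s i)) := fun i => hint.comp_sub_right (s i)
  have hFI : ∀ i, ∫ z, F (z - s i) = ∫ z, F z := fun i => integral_sub_right_eq_self F (s i)
  have hmI : ∀ i, ∫ z, m (z - s i) = ∫ z, m z := fun i => integral_sub_right_eq_self m (s i)
  set T : ι → ι → ℝ → ℝ := fun i j z =>
    (R * (s i - s j)) ^ 2 * (8 * F (z - s j) - 12 / R ^ 2 * m (z - s j)) with hT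
  have hTi : ∀ i j, Integrable (T i j) := by
    intro i j
    exact (((hFt j).const_mul 8).sub ((hmt j).const_mul (12 / R ^ 2))).const_mul _
  have hTI : ∀ i j, ∫ z, T i j z
      = (R * (s i - s j)) ^ 2 * (8 * (∫ z, F z) - 12 / R ^ 2 * ∫ z, m z) := by
    intro i j
    rw [hT]
    simp only
    rw [integral_const_mul, integral_sub ((hFt j).const_mul 8) ((hmt j).const_mul (12 / R ^ 2)),
      integral_const_mul, integral_const_mul, hFI j, hmI j]
  set G : ℝ → ℝ := fun z => ∑ i, F (z - s i) - K / 2 / n * ∑ i, ∑ j, T i j z with hG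
  have hGi : Integrable G := by
    refine Integrable.sub (integrable_finset_sum _ fun i _ => hFt i) ?_
    refine Integrable.const_mul (integrable_finset_sum _ fun i _ => ?_) _
    exact integrable_finset_sum _ fun j _ => hTi i j
  have hGI : ∫ z, G z = n * (∫ z, F z) - K / 2 / n * (∑ i, ∑ j, (R * (s i - s j)) ^ 2)
      * (8 * (∫ z, F z) - 12 / R ^ 2 * ∫ z, m z) := by
    rw [hG]
    simp only
    rw [integral_sub (integrable_finset_sum _ fun i _ => hFt i)
      (Integrable.const_mul (integrable_finset_sum _ fun i _ =>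
        integrable_finset_sum _ fun j _ => hTi i j) _),
      integral_finset_sum _ (fun i _ => hFt i), integral_const_mul,
      integral_finset_sum _ (fun i _ => integrable_finset_sum _ fun j _ => hTi i j)]
    have e1 : ∑ i, ∫ z, F (z - s i) = n * ∫ z, F z := by
      rw [Finset.sum_congr rfl fun i _ => hFI i, Finset.sum_const, Finset.card_univ,
        nsmul_eq_mul]
    have e2 : ∑ i, ∫ z, ∑ j, T i j z
        = (∑ i, ∑ j, (R * (s i - s j)) ^ 2) * (8 * (∫ z, F z) - 12 / R ^ 2 * ∫ z, m z) := by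
      rw [Finset.sum_mul]
      refine Finset.sum_congr rfl fun i _ => ?_
      rw [integral_finset_sum _ (fun j _ => hTi i j), Finset.sum_mul]
      exact Finset.sum_congr rfl fun j _ => hTI i j
    rw [e1, e2]
    ring
  rw [← hGI]
  refine integral_mono_of_nonneg (Filter.Eventually.of_forall fun z => ?_) hGi
    (Filter.Eventually.of_forall fun z => ?_)
  · exact div_nonneg (sq_nonneg _) (Finset.sum_nonneg fun i _ => (hpos _).le)
  -- the pointwise inequality
  simp only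
  set c : ι → ℂ := fun i => Complex.exp (2 * Real.pi * R * s i * Complex.I) with hc
  have hc1 : ∀ i, ‖c i‖ = 1 := by
    intro i
    have : (2 * Real.pi * R * s i * Complex.I : ℂ) = ((2 * Real.pi * R * s i : ℝ) : ℂ)
        * Complex.I := by push_cast; ring
    rw [hc]
    simp only
    rw [this, Complex.norm_exp_ofReal_mul_I]
  set a : ι → ℝ := fun i => m (z - s i) with ha
  set u : ι → ℂ := fun i => c i * (M (z - s i) / (m (z - s i) : ℂ)) with hu
  have ha0 : ∀ i, 0 < a i := fun i => hpos _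
  have hau : ∀ i, a i • u i = c i * M (z - s i) := by
    intro i
    have h0 : (m (z - s i) : ℂ) ≠ 0 := by exact_mod_cast (hpos (z - s i)).ne'
    rw [ha, hu]
    simp only
    rw [Complex.real_smul]
    field_simp
  have hcomp : ∀ i l, a l ≤ Real.exp (1 / (2 * R)) * a i := by
    intro i l
    have h1 := hm (z - s i) (s i - s l)
    have h2 : z - s i + (s i - s l) = z - s l := by ring
    rw [h2] at h1
    refine h1.trans (mul_le_mul_of_nonneg_right (Real.exp_le_exp.2 (hs i l)) (hpos _).le)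
  have hKa : ∀ i, K / (Fintype.card ι : ℝ) * (∑ l, a l) ≤ a i := by
    intro i
    have h1 : ∑ l, a l ≤ n * (Real.exp (1 / (2 * R)) * a i) := by
      calc ∑ l, a l ≤ ∑ _l : ι, Real.exp (1 / (2 * R)) * a i :=
            Finset.sum_le_sum fun l _ => hcomp i l
        _ = n * (Real.exp (1 / (2 * R)) * a i) := by
            rw [Finset.sum_const, Finset.card_univ, nsmul_eq_mul]
    have h2 : K / n * (n * (Real.exp (1 / (2 * R)) * a i)) = a i := by
      have h3 : K * Real.exp (1 / (2 * R)) = 1 := by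
        rw [hK, ← Real.exp_add, neg_add_cancel, Real.exp_zero]
      calc K / n * (n * (Real.exp (1 / (2 * R)) * a i))
          = (K * Real.exp (1 / (2 * R))) * a i := by field_simp
        _ = a i := by rw [h3, one_mul]
    calc K / (Fintype.card ι : ℝ) * (∑ l, a l) ≤ K / n * (n * (Real.exp (1 / (2 * R)) * a i)) :=
          mul_le_mul_of_nonneg_left h1 (div_nonneg (Real.exp_pos _).le hn0.le)
      _ = a i := h2
  have hpt := pointwise a u K ha0 hKa
  have e1 : ∑ i, a i • u i = ∑ i, c i * M (z - s i) := Finset.sum_congr rfl fun i _ => hau i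
  rw [e1] at hpt
  refine hpt.trans ?_
  have e2 : ∑ i, a i * ‖u i‖ ^ 2 = ∑ i, F (z - s i) := by
    refine Finset.sum_congr rfl fun i _ => ?_
    rw [ha, hu, hF]
    simp only
    rw [norm_mul, hc1, one_mul, norm_div, Complex.norm_real, Real.norm_eq_abs,
      abs_of_pos (hpos _)]
    have := (hpos (z - s i)).ne'
    field_simp
  rw [e2, hG]
  simp only
  have e3 : ∑ i, ∑ j, T i j z ≤ ∑ i, ∑ j, a j * ‖u i - u j‖ ^ 2 := by
    refine Finset.sum_le_sum fun i _ => Finset.sum_le_sum fun j _ => ?_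
    have h1 := pair (m := m) (M := M) hR hpos hle hm hM (z - s j) (s j - s i) (c i) (c j) (hc1 i)
      (by
        rw [hc]
        simp only
        rw [← Complex.exp_add]
        congr 1
        push_cast
        ring) (hs j i)
    have h2 : z - s j + (s j - s i) = z - s i := by ring
    rw [h2] at h1
    have h3 : (R * (s j - s i)) ^ 2 = (R * (s i - s j)) ^ 2 := by ring
    rw [h3] at h1
    exact h1
  have hK0 : 0 ≤ K / 2 / n := by positivity
  have := mul_le_mul_of_nonneg_left e3 hK0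
  linarith

end H517.EO
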