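import Pool.Agent.H517R2.EO.Basic

/-!
# TEAM EO, task L2 : monotonicity and bounds of the Laplace functional
-/

set_option autoImplicit false

open Finset MeasureTheory

namespace H517.EO

section lap

theorem lap_integral_exp_neg_abs : ∫ z : ℝ, Real.exp (-|z|) = 2 := by
  have h := integral_comp_abs (f := fun x : ℝ => Real.exp (-x))
  rw [h, integral_exp_neg_Ioi_zero]
  norm_num

theorem lap_integrable_exp_neg_abs : Integrable (fun z : ℝ => Real.exp (-|z|)) := by
  by_contra h
  have h1 := lap_integral_exp_neg_abs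
  rw [integral_undef h] at h1
  norm_num at h1

theorem lap_integral_shift (y : ℝ) : ∫ z : ℝ, Real.exp (-|z - y|) = 2 := by
  rw [integral_sub_right_eq_self (fun z : ℝ => Real.exp (-|z|)) y]
  exact lap_integral_exp_neg_abs

theorem lap_integrable_shift (y : ℝ) : Integrable (fun z : ℝ => Real.exp (-|z - y|)) :=
  lap_integrable_exp_neg_abs.comp_sub_right y

variable {ι : Type}

theorem mm_nonneg (S : Finset ι) (y : ι → ℝ) (z : ℝ) : 0 ≤ mm S y z :=
  Finset.sum_nonneg fun _ _ => (Real.exp_pos _).le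

theorem mm_pos {S : Finset ι} (hS : S.Nonempty) (y : ι → ℝ) (z : ℝ) : 0 < mm S y z :=
  Finset.sum_pos (fun _ _ => Real.exp_pos _) hS

theorem continuous_mm (S : Finset ι) (y : ι → ℝ) : Continuous (mm S y) := by
  unfold mm
  fun_prop

theorem integrable_mm (S : Finset ι) (y : ι → ℝ) : Integrable (mm S y) :=
  integrable_finsetSum _ fun i _ => lap_integrable_shift (y i)

theorem integral_mm (S : Finset ι) (y : ι → ℝ) : ∫ z : ℝ, mm S y z = 2 * (S.card : ℝ) := by
  unfold mm
  rw [integral_finsetSum _ fun i _ => lap_integrable_shift (y i)]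
  rw [Finset.sum_congr rfl fun i _ => lap_integral_shift (y i), Finset.sum_const, nsmul_eq_mul,
    mul_comm]

theorem lap_norm_term (R z y : ℝ) :
    ‖(Real.exp (-|z - y|) : ℂ) * Complex.exp (2 * Real.pi * R * y * Complex.I)‖ =
      Real.exp (-|z - y|) := by
  rw [norm_mul]
  have h1 : ‖Complex.exp (2 * Real.pi * R * y * Complex.I)‖ = 1 := by
    have := Complex.norm_exp_ofReal_mul_I (2 * Real.pi * R * y)
    push_cast at this
    exact this
  rw [h1, mul_one, Complex.norm_real, Real.norm_eq_abs, abs_of_pos (Real.exp_pos _)]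

theorem norm_MM_le (R : ℝ) (S : Finset ι) (y : ι → ℝ) (z : ℝ) : ‖MM R S y z‖ ≤ mm S y z := by
  unfold MM mm
  refine (norm_sum_le _ _).trans (le_of_eq ?_)
  exact Finset.sum_congr rfl fun i _ => lap_norm_term R z (y i)

theorem continuous_MM (R : ℝ) (S : Finset ι) (y : ι → ℝ) : Continuous (MM R S y) := by
  unfold MM
  fun_prop

theorem lap_quot_nonneg (R : ℝ) (S : Finset ι) (y : ι → ℝ) (z : ℝ) :
    0 ≤ ‖MM R S y z‖ ^ 2 / mm S y z := div_nonneg (by positivity) (mm_nonneg S y z)

theorem lap_quot_le (R : ℝ) (S : Finset ι) (y : ι → ℝ) (z : ℝ) :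
    ‖MM R S y z‖ ^ 2 / mm S y z ≤ mm S y z := by
  rcases S.eq_empty_or_nonempty with rfl | hS
  · simp [mm, MM]
  · rw [div_le_iff₀ (mm_pos hS y z), sq]
    exact mul_le_mul (norm_MM_le R S y z) (norm_MM_le R S y z) (norm_nonneg _) (mm_nonneg S y z)

theorem lap_quot_continuous (R : ℝ) {S : Finset ι} (hS : S.Nonempty) (y : ι → ℝ) :
    Continuous (fun z => ‖MM R S y z‖ ^ 2 / mm S y z) :=
  Continuous.div ((continuous_MM R S y).norm.pow 2) (continuous_mm S y)
    fun z => (mm_pos hS y z).ne'

theorem lap_quot_integrable (R : ℝ) (S : Finset ι) (y : ι → ℝ) :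
    Integrable (fun z => ‖MM R S y z‖ ^ 2 / mm S y z) := by
  rcases S.eq_empty_or_nonempty with rfl | hS
  · simp [mm, MM]
  · refine (integrable_mm S y).mono' (lap_quot_continuous R hS y).aestronglyMeasurable ?_
    refine Filter.Eventually.of_forall fun z => ?_
    rw [Real.norm_eq_abs, abs_of_nonneg (lap_quot_nonneg R S y z)]
    exact lap_quot_le R S y z

theorem Gam_nonneg (R : ℝ) (S : Finset ι) (y : ι → ℝ) : 0 ≤ Gam R S y :=
  integral_nonneg fun z => lap_quot_nonneg R S y z

theorem Gam_le (R : ℝ) (S : Finset ι) (y : ι → ℝ) : Gam R S y ≤ 2 * (S.card : ℝ) := by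
  rw [← integral_mm S y]
  exact integral_mono (lap_quot_integrable R S y) (integrable_mm S y) fun z => lap_quot_le R S y z

end lap

section classes

variable {Ω β γ : Type} [Fintype Ω]

/-- double counting inside a union of classes -/
theorem sum_fiber_smul {E : Type} [AddCommGroup E] [Module ℝ E] (g : Ω → γ) (S : Finset Ω)
    (hS : ∀ q r, g q = g r → q ∈ S → r ∈ S) (a : Ω → E) :
    ∑ q ∈ S, (1 / fib g q) • ∑ r ∈ fiber g q, a r = ∑ r ∈ S, a r := by
  have h1 : ∀ q ∈ S, (1 / fib g q) • ∑ r ∈ fiber g q, a r =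
      ∑ r ∈ fiber g q, (1 / fib g q) • a r := fun q _ => Finset.smul_sum
  rw [Finset.sum_congr rfl h1]
  rw [Finset.sum_comm' (t' := S) (s' := fun r => fiber g r)]
  · refine Finset.sum_congr rfl fun r _ => ?_
    rw [← Finset.sum_smul]
    have h2 : ∑ q ∈ fiber g r, 1 / fib g q = 1 := by
      have h3 : ∀ q ∈ fiber g r, 1 / fib g q = 1 / fib g r := by
        intro q hq
        rw [mem_fiber] at hq
        rw [fib_congr g hq]
      rw [Finset.sum_congr rfl h3, Finset.sum_const, nsmul_eq_mul]
      have h4 : ((fiber g r).card : ℝ) = fib g r := rfl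
      rw [h4, mul_one_div, div_self (fib_pos g r).ne']
    rw [h2, one_smul]
  · intro q r
    rw [mem_fiber, mem_fiber]
    constructor
    · rintro ⟨h1, h2⟩
      exact ⟨h2.symm, hS q r h2.symm h1⟩
    · rintro ⟨h1, h2⟩
      exact ⟨hS r q h1.symm h2, h1.symm⟩

/-- averaging over classes first does not change an average -/
theorem avg_class (f : Ω → β) (φ : Ω → ℝ) :
    avg (fun p => (∑ q ∈ fiber f p, φ q) / fib f p) = avg φ := by
  unfold avg
  congr 1
  have h := sum_fiber_smul f Finset.univ (fun _ _ _ _ => Finset.mem_univ _) φ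
  rw [← h]
  refine Finset.sum_congr rfl fun p _ => ?_
  simp only [smul_eq_mul]
  ring

/-- subadditivity of `Gam` -/
theorem Gam_fiber_le (R : ℝ) (f : Ω → β) (g : Ω → γ) (y : Ω → ℝ)
    (h : ∀ p q, g p = g q → f p = f q) (p : Ω) :
    Gam R (fiber f p) y ≤ ∑ q ∈ fiber f p, Gam R (fiber g q) y / fib g q := by
  have hS : ∀ q r, g q = g r → q ∈ fiber f p → r ∈ fiber f p := by
    intro q r hqr hq
    rw [mem_fiber] at hq ⊢
    rw [← h q r hqr, hq]
  have hint : ∀ q ∈ fiber f p,
      Integrable (fun z => (1 / fib g q) * (‖MM R (fiber g q) y z‖ ^ 2 / mm (fiber g q) y z)) :=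
    fun q _ => (lap_quot_integrable R (fiber g q) y).const_mul _
  have h2 : ∑ q ∈ fiber f p, Gam R (fiber g q) y / fib g q =
      ∫ z : ℝ, ∑ q ∈ fiber f p,
        (1 / fib g q) * (‖MM R (fiber g q) y z‖ ^ 2 / mm (fiber g q) y z) := by
    rw [integral_finsetSum _ hint]
    refine Finset.sum_congr rfl fun q _ => ?_
    rw [integral_const_mul, Gam]
    ring
  rw [h2]
  refine integral_mono (lap_quot_integrable R (fiber f p) y) (integrable_finsetSum _ hint) ?_
  intro z
  simp only
  have hm : mm (fiber f p) y z = ∑ q ∈ fiber f p, (1 / fib g q) * mm (fiber g q) y z := by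
    have := sum_fiber_smul g (fiber f p) hS (fun r => Real.exp (-|z - y r|))
    unfold mm
    rw [← this]
    exact Finset.sum_congr rfl fun q _ => by rw [smul_eq_mul]
  have hM : MM R (fiber f p) y z = ∑ q ∈ fiber f p, (1 / fib g q) • MM R (fiber g q) y z := by
    have := sum_fiber_smul g (fiber f p) hS
      (fun r => (Real.exp (-|z - y r|) : ℂ) * Complex.exp (2 * Real.pi * R * y r * Complex.I))
    unfold MM
    rw [← this]
  have hN : ‖MM R (fiber f p) y z‖ ≤
      ∑ q ∈ fiber f p, (1 / fib g q) * ‖MM R (fiber g q) y z‖ := by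
    rw [hM]
    refine (norm_sum_le _ _).trans (le_of_eq ?_)
    refine Finset.sum_congr rfl fun q _ => ?_
    rw [norm_smul, Real.norm_eq_abs, abs_of_pos (by have := fib_pos g q; positivity)]
  have hpos : ∀ q ∈ fiber f p, 0 < (1 / fib g q) * mm (fiber g q) y z := by
    intro q _
    have h3 := fib_pos g q
    have h4 := mm_pos (S := fiber g q) ⟨q, self_mem_fiber g q⟩ y z
    positivity
  calc ‖MM R (fiber f p) y z‖ ^ 2 / mm (fiber f p) y z
      ≤ (∑ q ∈ fiber f p, (1 / fib g q) * ‖MM R (fiber g q) y z‖) ^ 2 /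
          ∑ q ∈ fiber f p, (1 / fib g q) * mm (fiber g q) y z := by
        rw [hm]
        exact div_le_div_of_nonneg_right (pow_le_pow_left₀ (norm_nonneg _) hN 2)
          (Finset.sum_nonneg fun q hq => (hpos q hq).le)
    _ ≤ ∑ q ∈ fiber f p, ((1 / fib g q) * ‖MM R (fiber g q) y z‖) ^ 2 /
          ((1 / fib g q) * mm (fiber g q) y z) :=
        Finset.sq_sum_div_le_sum_sq_div _ _ hpos
    _ = _ := by
        refine Finset.sum_congr rfl fun q hq => ?_
        have h3 := fib_pos g q
        have h4 := mm_pos (S := fiber g q) ⟨q, self_mem_fiber g q⟩ y z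
        field_simp

theorem t_L_mono : L_mono := by
  intro Ω β γ _ R f g y h
  refine ⟨?_, ?_, ?_⟩
  · unfold GG
    exact div_nonneg (avg_nonneg fun p => div_nonneg (Gam_nonneg _ _ _) (fib_pos _ _).le)
      (by norm_num)
  · unfold GG
    refine div_le_div_of_nonneg_right ?_ (by norm_num)
    rw [← avg_class f (fun q => Gam R (fiber g q) y / fib g q)]
    refine avg_mono fun p => ?_
    exact div_le_div_of_nonneg_right (Gam_fiber_le R f g y h p) (fib_pos f p).le
  · unfold GG
    rw [div_le_one (by norm_num : (0 : ℝ) < 2)]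
    have h1 : ∀ p, Gam R (fiber g p) y / fib g p ≤ 2 := by
      intro p
      rw [div_le_iff₀ (fib_pos g p)]
      exact Gam_le R (fiber g p) y
    rcases isEmpty_or_nonempty Ω with hE | hN
    · unfold avg
      simp
    · exact avg_le_of_le h1

end classes

end H517.EO
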