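import Pool.Agent.H517R2.EO.Basic

/-!
# TEAM EO, task L4 : the leak inequality
-/

set_option autoImplicit false

open Finset MeasureTheory

namespace H517.EO

section transport

variable {Ω Ω' β : Type} [Fintype Ω] [Fintype Ω']

/-- a fibre is transported by an equivalence -/
theorem fiber_equiv_map (e : Ω ≃ Ω') (f : Ω' → β) (p : Ω) :
    fiber f (e p) = (fiber (fun q => f (e q)) p).map e.toEmbedding := by
  ext r
  rw [mem_fiber, Finset.mem_map]
  constructor
  · intro h
    refine ⟨e.symm r, ?_, by simp⟩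
    rw [mem_fiber]
    simpa using h
  · rintro ⟨q, hq, rfl⟩
    rw [mem_fiber] at hq
    simpa using hq

theorem Gam_map {ι ι' : Type} (e : ι ↪ ι') (R : ℝ) (S : Finset ι) (y : ι' → ℝ) :
    Gam R (S.map e) y = Gam R S (fun i => y (e i)) := by
  unfold Gam mm MM
  simp only [Finset.sum_map]

/-- transport of the normalised functional under an equivalence -/
theorem GG_equiv (e : Ω ≃ Ω') (R : ℝ) (f : Ω' → β) (y : Ω' → ℝ) :
    GG R (fun q => f (e q)) (fun q => y (e q)) = GG R f y := by
  unfold GG
  rw [← avg_equiv e (fun p => Gam R (fiber f p) y / fib f p)]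
  congr 1
  refine avg_congr fun p => ?_
  rw [fib_equiv, fiber_equiv_map e f p, Gam_map]
  rfl

end transport

theorem GG_append {A β : Type} [Fintype A] (a b : ℕ) (R : ℝ) (f : (Fin (a + b) → A) → β)
    (y : (Fin (a + b) → A) → ℝ) :
    GG R (fun x : (Fin a → A) × (Fin b → A) => f (Fin.append x.1 x.2))
      (fun x : (Fin a → A) × (Fin b → A) => y (Fin.append x.1 x.2)) = GG R f y :=
  GG_equiv (Fin.appendEquiv a b) R f y

theorem t_L_leak (h1 : L_prod) (h2 : L_mono) : L_leak := by
  intro A _ _ lam t τ R hlam0 hlam1 hR k n hkn β g hg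
  obtain ⟨m, rfl⟩ := Nat.exists_eq_add_of_le hkn
  rw [Nat.add_sub_cancel_left]
  have hl : (0 : ℝ) < lam ^ (k + m) := by positivity
  have hlk : (0 : ℝ) < lam ^ k := by positivity
  have hlm : (0 : ℝ) < lam ^ m := by positivity
  have h3 := h1 (Fin k → A) (Fin m → A) β (A → ℕ → ℤ) R hR g (fun p => YM τ m p)
    (fun p => XX lam t p / lam ^ (k + m)) (fun p => XX lam t p / lam ^ m) (by
      intro p p' hpp
      have h4 := (hg p p' hpp).2
      rw [← sub_div, abs_div, abs_of_pos hl, div_le_iff₀ hl]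
      refine h4.trans (le_of_eq ?_)
      ring)
  have e1 : avg (fun p : Fin k → A =>
      (∑ q ∈ fiber g p, (R * (XX lam t p - XX lam t q) / lam ^ (k + m)) ^ 2) / fib g p) =
      avg (fun p : Fin k → A => (∑ q ∈ fiber g p,
        (R * (XX lam t p / lam ^ (k + m) - XX lam t q / lam ^ (k + m))) ^ 2) / fib g p) := by
    refine avg_congr fun p => ?_
    congr 1
    refine Finset.sum_congr rfl fun q _ => ?_
    rw [← sub_div, mul_div_assoc]
  rw [e1]
  refine h3.trans ?_
  have h5 : aa lam t τ R (k + m) ≤ GG R (fun x : (Fin k → A) × (Fin m → A) => (g x.1, YM τ m x.2))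
      (fun x : (Fin k → A) × (Fin m → A) =>
        XX lam t x.1 / lam ^ (k + m) + XX lam t x.2 / lam ^ m) := by
    unfold aa
    rw [← GG_append k m R (fun p : Fin (k + m) → A => YM τ (k + m) p)
      (fun p : Fin (k + m) → A => XX lam t p / lam ^ (k + m))]
    have e2 : (fun x : (Fin k → A) × (Fin m → A) =>
        XX lam t (Fin.append x.1 x.2) / lam ^ (k + m)) =
        (fun x : (Fin k → A) × (Fin m → A) =>
          XX lam t x.1 / lam ^ (k + m) + XX lam t x.2 / lam ^ m) := by
      funext x
      rw [XX_append, pow_add]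
      field_simp
    rw [e2]
    refine (h2 _ _ _ R _ _ _ ?_).2.1
    rintro ⟨p, p'⟩ ⟨q, q'⟩ hpq
    simp only [Prod.mk.injEq] at hpq
    obtain ⟨hp, hq⟩ := hpq
    have hY := (hg p q hp).1
    simp only
    rw [YM_eq_iff] at hq ⊢
    intro b j hj
    rw [YY_append, YY_append, hY, map_add, map_add]
    congr 1
    rw [PowerSeries.coeff_X_pow_mul', PowerSeries.coeff_X_pow_mul']
    by_cases hkj : k ≤ j
    · rw [if_pos hkj, if_pos hkj]
      exact hq b (j - k) (by omega)
    · rw [if_neg hkj, if_neg hkj]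
  have h6 : GG R (fun p : Fin m → A => YM τ m p) (fun p : Fin m → A => XX lam t p / lam ^ m) =
      aa lam t τ R m := rfl
  rw [h6]
  linarith

end H517.EO
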