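import Pool.Agent.H517R2.EO.Basic

/-!
# TEAM EO : main assembly, `C(τ)` for all `τ`
-/

set_option autoImplicit false

open Finset Filter MeasureTheory

namespace H517.EO

/-- polynomial versus exponential -/
theorem M1_num (B c : ℝ) (hc : 0 < c) : ∃ g1 : ℕ, ∀ g : ℕ, g1 ≤ g → B * ((g : ℝ) + 1) ^ 3 ≤ c * 2 ^ g := by
  have h1 : Tendsto (fun n : ℕ => (n : ℝ) ^ 3 / (2 : ℝ) ^ n) atTop (nhds 0) :=
    tendsto_pow_const_div_const_pow_of_one_lt 3 (by norm_num)
  have h2 := (tendsto_add_atTop_iff_nat 1).2 h1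
  have hpos : 0 < c / (2 * (|B| + 1)) := by positivity
  have h3 := (h2.eventually (gt_mem_nhds hpos))
  obtain ⟨g1, hg1⟩ := eventually_atTop.1 h3
  refine ⟨g1, fun g hg => ?_⟩
  have h4 := hg1 g hg
  have h5 : ((g + 1 : ℕ) : ℝ) ^ 3 / (2 : ℝ) ^ (g + 1) < c / (2 * (|B| + 1)) := h4
  rw [div_lt_div_iff₀ (by positivity) (by positivity)] at h5
  push_cast at h5
  have h6 : ((g : ℝ) + 1) ^ 3 * (|B| + 1) < c * 2 ^ g := by
    have h55 : ((g : ℝ) + 1) ^ 3 * (2 * (|B| + 1)) < c * (2 ^ g * 2) := by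
      rw [← pow_succ]; exact h5
    linarith
  have h7 : B * ((g : ℝ) + 1) ^ 3 ≤ ((g : ℝ) + 1) ^ 3 * (|B| + 1) := by
    have : B ≤ |B| + 1 := by linarith [le_abs_self B]
    have h8 : (0 : ℝ) ≤ ((g : ℝ) + 1) ^ 3 := by positivity
    nlinarith
  linarith

theorem M1_logK (g K : ℕ) (hK : 1 ≤ K) (h : K ≤ 2 ^ ((g + 1) ^ 3)) : Real.log K ≤ ((g : ℝ) + 1) ^ 3 := by
  have h1 : Real.log K ≤ Real.log ((2 : ℝ) ^ ((g + 1) ^ 3)) := by
    apply Real.log_le_log (by exact_mod_cast hK)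
    exact_mod_cast h
  rw [Real.log_pow] at h1
  have h2 : Real.log 2 ≤ 1 := by linarith [Real.log_two_lt_d9]
  have h3 : (0 : ℝ) ≤ ((g : ℝ) + 1) ^ 3 := by positivity
  push_cast at h1
  nlinarith

theorem M1_four (g : ℕ) : (4 : ℝ) ^ g = 2 ^ g * 2 ^ g := by
  rw [← mul_pow]; norm_num

theorem M1_eight (g : ℕ) : (8 : ℝ) ^ g = 2 ^ g * (2 ^ g * 2 ^ g) := by
  rw [← mul_pow, ← mul_pow]; norm_num

/-- the first numerical fact -/
theorem M1_num1 (lam : ℝ) (h0 : 0 < lam) (h1 : lam < 1) (m : ℕ) (hm : 1 ≤ m) (C : ℝ) (hC : 1 ≤ C)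
    (e : ℕ) (he : 1 ≤ e) : ∃ g1 : ℕ, ∀ g : ℕ, g1 ≤ g → ∀ K : ℕ, 1 ≤ K → K ≤ 2 ^ ((g + 1) ^ 3) →
    (m : ℝ) * K * (C * lam ^ (K * (8 ^ g - 1))) ^ ((1 : ℝ) / e) ≤ lam ^ (K * 4 ^ g) := by
  set chi := -Real.log lam with hchi
  have hchipos : 0 < chi := by
    have := Real.log_neg h0 h1
    linarith
  have hepos : (0 : ℝ) < e := by exact_mod_cast he
  obtain ⟨ga, hga⟩ := M1_num ((e : ℝ) * (Real.log m + Real.log C + 1)) chi hchipos
  obtain ⟨gb, hgb⟩ := M1_num (2 * e + 4) 1 one_pos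
  refine ⟨max ga gb, fun g hg K hK1 hK2 => ?_⟩
  have hA := hga g (le_trans (le_max_left _ _) hg)
  have hB := hgb g (le_trans (le_max_right _ _) hg)
  have hKr : (1 : ℝ) ≤ K := by exact_mod_cast hK1
  have hmr : (1 : ℝ) ≤ m := by exact_mod_cast hm
  have hlogK := M1_logK g K hK1 hK2
  have hpowpos : 0 < lam ^ (K * (8 ^ g - 1)) := pow_pos h0 _
  have hx : 0 < C * lam ^ (K * (8 ^ g - 1)) := by positivity
  have hlhs : 0 < (m : ℝ) * K * (C * lam ^ (K * (8 ^ g - 1))) ^ ((1 : ℝ) / e) := by positivity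
  rw [← Real.log_le_log_iff hlhs (pow_pos h0 _)]
  rw [Real.log_mul (by positivity) (by positivity), Real.log_mul (by positivity) (by positivity),
    Real.log_rpow hx, Real.log_mul (by positivity) (by positivity), Real.log_pow, Real.log_pow]
  have h8 : (1 : ℕ) ≤ 8 ^ g := Nat.one_le_pow _ _ (by norm_num)
  push_cast [h8]
  have hlog : Real.log lam = -chi := by rw [hchi]; ring
  rw [hlog]
  have hg1 : (1 : ℝ) ≤ (g : ℝ) + 1 := by linarith [Nat.cast_nonneg (α := ℝ) g]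
  have hg3 : (1 : ℝ) ≤ ((g : ℝ) + 1) ^ 3 := one_le_pow₀ hg1
  have hlm : 0 ≤ Real.log m := Real.log_nonneg hmr
  have hlC : 0 ≤ Real.log C := Real.log_nonneg hC
  have hT : (1 : ℝ) ≤ 2 ^ g := one_le_pow₀ (by norm_num)
  -- main inequality multiplied by e
  have key : (Real.log m + Real.log K) * e + Real.log C + K * (4 ^ g) * chi * e
      ≤ K * (8 ^ g - 1) * chi := by
    rw [M1_four, M1_eight]
    set T : ℝ := 2 ^ g with hTdef
    have h10 : (Real.log m + Real.log K) * e + Real.log C ≤ chi * T * K := by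
      have h11 : (Real.log m + Real.log K) * e + Real.log C ≤
          (e : ℝ) * (Real.log m + Real.log C + 1) * ((g : ℝ) + 1) ^ 3 := by
        have he1 : (1 : ℝ) ≤ e := by exact_mod_cast he
        have h12 : Real.log m ≤ Real.log m * ((g : ℝ) + 1) ^ 3 := by nlinarith
        have h13 : Real.log C ≤ Real.log C * ((g : ℝ) + 1) ^ 3 := by nlinarith
        have h14 : Real.log C * ((g : ℝ) + 1) ^ 3 ≤ e * (Real.log C * ((g : ℝ) + 1) ^ 3) := by
          have : 0 ≤ Real.log C * ((g : ℝ) + 1) ^ 3 := by positivity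
          nlinarith
        nlinarith
      calc _ ≤ _ := h11
        _ ≤ chi * T := hA
        _ ≤ chi * T * K := by
          have : 0 ≤ chi * T := by positivity
          nlinarith
    have h15 : (2 * (e : ℝ) + 4) ≤ T := by
      have : (2 * (e : ℝ) + 4) ≤ (2 * e + 4) * ((g : ℝ) + 1) ^ 3 := by
        have : (0 : ℝ) ≤ 2 * e + 4 := by positivity
        nlinarith
      linarith
    have h16 : chi * T * K + K * (T * T) * chi * e ≤ K * (T * (T * T) - 1) * chi := by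
      have hK0 : 0 ≤ (K : ℝ) * chi := by positivity
      have h17 : T + T * T * e ≤ T * (T * T) - 1 := by
        have hT2 : (1 : ℝ) ≤ T * T := by nlinarith
        nlinarith
      nlinarith
    linarith
  have h20 : 1 / (e : ℝ) * (Real.log C + (K : ℝ) * (8 ^ g - 1) * (-chi)) =
      (Real.log C - K * (8 ^ g - 1) * chi) / e := by ring
  rw [h20]
  have h21 : Real.log m + Real.log K + (Real.log C - K * (8 ^ g - 1) * chi) / e ≤
      (K : ℝ) * 4 ^ g * (-chi) := by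
    rw [← sub_nonneg]
    have : (K : ℝ) * 4 ^ g * (-chi) - (Real.log m + Real.log K + (Real.log C - K * (8 ^ g - 1) * chi) / e)
        = (K * (8 ^ g - 1) * chi - ((Real.log m + Real.log K) * e + Real.log C + K * (4 ^ g) * chi * e)) / e := by
      field_simp
      ring
    rw [this]
    apply div_nonneg _ hepos.le
    linarith
  exact h21

/-- the second numerical fact -/
theorem M1_num2 (lam : ℝ) (h0 : 0 < lam) (h1 : lam < 1) (m : ℕ) (hm : 1 ≤ m) (C : ℝ) (hC : 1 ≤ C) :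
    ∃ g1 : ℕ, ∀ g : ℕ, g1 ≤ g → ∀ K k : ℕ, 1 ≤ K → K ≤ 2 ^ ((g + 1) ^ 3) → K ≤ k → k ≤ K * 2 ^ g →
    lam ^ (K * 4 ^ g) * (2 * ((2 * m * k : ℕ) : ℝ) ^ (2 * (2 * m * k) + 2) *
      (C * (k : ℝ) ^ (2 * m)) ^ (2 * m * k)) < 1 := by
  set chi := -Real.log lam with hchi
  have hchipos : 0 < chi := by
    have := Real.log_neg h0 h1
    linarith
  obtain ⟨ga, hga⟩ := M1_num (1 + 6 * m * (Real.log (2 * m) + 2) + 2 * m * (Real.log C + 4 * m)) (chi / 2)
    (by positivity)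
  refine ⟨ga, fun g hg K k hK1 hK2 hKk hk => ?_⟩
  have hA := hga g hg
  have hKr : (1 : ℝ) ≤ K := by exact_mod_cast hK1
  have hk1 : 1 ≤ k := le_trans hK1 hKk
  have hkr : (1 : ℝ) ≤ k := by exact_mod_cast hk1
  have hmr : (1 : ℝ) ≤ m := by exact_mod_cast hm
  have hlogK := M1_logK g K hK1 hK2
  have hlogk : Real.log k ≤ 2 * ((g : ℝ) + 1) ^ 3 := by
    have h2 : Real.log k ≤ Real.log (K * 2 ^ g : ℝ) := by
      apply Real.log_le_log (by linarith)
      exact_mod_cast hk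
    rw [Real.log_mul (by positivity) (by positivity), Real.log_pow] at h2
    have h3 : Real.log 2 ≤ 1 := by linarith [Real.log_two_lt_d9]
    have h4 : (g : ℝ) ≤ ((g : ℝ) + 1) ^ 3 := by
      have : (0:ℝ) ≤ g := Nat.cast_nonneg g
      nlinarith [sq_nonneg (g:ℝ)]
    have h5 : (g : ℝ) * Real.log 2 ≤ g := by
      have : (0:ℝ) ≤ g := Nat.cast_nonneg g
      nlinarith
    linarith
  have hlogk0 : 0 ≤ Real.log k := Real.log_nonneg hkr
  set L := ((g : ℝ) + 1) ^ 3 with hL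
  have hL1 : (1 : ℝ) ≤ L := by
    have : (1 : ℝ) ≤ (g : ℝ) + 1 := by linarith [Nat.cast_nonneg (α := ℝ) g]
    exact one_le_pow₀ this
  have hbase : (1 : ℝ) ≤ ((2 * m * k : ℕ) : ℝ) := by
    have : 1 ≤ 2 * m * k := by nlinarith
    exact_mod_cast this
  have hpos2 : 0 < lam ^ (K * 4 ^ g) * (2 * ((2 * m * k : ℕ) : ℝ) ^ (2 * (2 * m * k) + 2) *
      (C * (k : ℝ) ^ (2 * m)) ^ (2 * m * k)) := by positivity
  rw [← Real.log_neg_iff hpos2]
  rw [Real.log_mul (by positivity) (by positivity), Real.log_mul (by positivity) (by positivity),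
    Real.log_mul (by positivity) (by positivity), Real.log_pow, Real.log_pow, Real.log_pow,
    Real.log_mul (by positivity) (by positivity), Real.log_pow]
  have hlog : Real.log lam = -chi := by rw [hchi]; ring
  rw [hlog]
  push_cast
  have hl2mk : Real.log (2 * m * k) = Real.log (2 * m) + Real.log k := by
    rw [Real.log_mul (by positivity) (by positivity)]
  rw [hl2mk, M1_four]
  have hl2 : Real.log 2 ≤ 1 := by linarith [Real.log_two_lt_d9]
  have hl2m : 0 ≤ Real.log (2 * m) := Real.log_nonneg (by nlinarith)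
  have hlC : 0 ≤ Real.log C := Real.log_nonneg hC
  set T : ℝ := 2 ^ g with hT
  have hTpos : (1 : ℝ) ≤ T := one_le_pow₀ (by norm_num)
  have hkT : (k : ℝ) ≤ K * T := by rw [hT]; exact_mod_cast hk
  -- bounds of the three pieces
  have hkL : (1 : ℝ) ≤ k * L := by nlinarith
  have p1 : Real.log 2 ≤ 1 * (k * L) := by linarith
  have p2 : (2 * (2 * (m:ℝ) * k) + 2) * (Real.log (2 * m) + Real.log k) ≤
      6 * m * (Real.log (2 * m) + 2) * (k * L) := by
    have q0 : (1 : ℝ) ≤ m * k := by nlinarith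
    have q1 : (2 * (2 * (m:ℝ) * k) + 2) ≤ 6 * m * k := by linarith
    have q3 : Real.log (2 * m) * 1 ≤ Real.log (2 * m) * L := mul_le_mul_of_nonneg_left hL1 hl2m
    have q2 : Real.log (2 * m) + Real.log k ≤ (Real.log (2 * m) + 2) * L := by linarith
    calc _ ≤ (6 * m * k) * ((Real.log (2 * m) + 2) * L) := by
          apply mul_le_mul q1 q2 (by positivity) (by positivity)
      _ = _ := by ring
  have p3 : (2 * (m:ℝ) * k) * (Real.log C + 2 * m * Real.log k) ≤ 2 * m * (Real.log C + 4 * m) * (k * L) := by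
    have q2 : Real.log C + 2 * m * Real.log k ≤ (Real.log C + 4 * m) * L := by
      have q3 : Real.log C * 1 ≤ Real.log C * L := mul_le_mul_of_nonneg_left hL1 hlC
      have q4 : 2 * (m:ℝ) * Real.log k ≤ 2 * m * (2 * L) :=
        mul_le_mul_of_nonneg_left hlogk (by positivity)
      linarith
    calc _ ≤ (2 * m * k) * ((Real.log C + 4 * m) * L) := by
          apply mul_le_mul_of_nonneg_left q2 (by positivity)
      _ = _ := by ring
  have p4 : (1 + 6 * m * (Real.log (2 * m) + 2) + 2 * m * (Real.log C + 4 * m)) * (k * L) ≤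
      chi / 2 * T * (K * T) := by
    calc (1 + 6 * m * (Real.log (2 * m) + 2) + 2 * m * (Real.log C + 4 * m)) * (k * L) =
        ((1 + 6 * m * (Real.log (2 * m) + 2) + 2 * m * (Real.log C + 4 * m)) * L) * k := by ring
      _ ≤ (chi / 2 * T) * (K * T) := by
        apply mul_le_mul hA hkT (by positivity) (by positivity)
  have p5 : 0 < chi / 2 * T * (K * T) := by positivity
  have p6 : (K : ℝ) * (T * T) * -chi = -2 * (chi / 2 * T * (K * T)) := by ring
  rw [p6]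
  linarith

theorem M1_L1_nonneg (P : Polynomial ℤ) : 0 ≤ L1 P := by
  unfold L1
  exact Finset.sum_nonneg fun i _ => abs_nonneg _

theorem t_M_claim (hDl : D_lam) (hFl : F_low) (hPn : P_near) (hAch : A_chain) (hAc : A_compact)
    (hWk : W_kappa) (hWs : W_sep) : M_claim := by
  intro A _ _ lam t hA hl0 hl1 hfree hR τ
  obtain ⟨R, hR1, A0, hA0, haa⟩ := hR
  haveI : Nonempty A := Fintype.card_pos_iff.1 (by omega)
  induction' hN : rk τ using Nat.strong_induction_on with N ih generalizing τ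
  have IH : ∀ τ' : A → A → PowerSeries ℤ, rk τ' < rk τ → Claim lam t τ' :=
    fun τ' h' => ih (rk τ') (by rw [← hN]; exact h') τ' rfl
  by_contra hcon
  unfold Claim at hcon
  push_neg at hcon
  obtain ⟨c0, hc0, n0, hn0⟩ := hcon
  obtain ⟨hanti, hbd, C1, hC1, hdrop⟩ := hDl A lam t hl0 hl1 R A0 hR1 hA0 haa τ
  obtain ⟨k0, hk0⟩ := hFl A lam t τ hl0 hl1 c0 hc0 ⟨n0, hn0⟩
  have hc1 : 0 < c0 / 2 := by positivity
  generalize hc1def : c0 / 2 = c1 at *
  have hnear := hPn (aa lam t τ R) (fun k n => HW lam t τ k (lam ^ n)) C1 c1 hanti hbd hC1 hc1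
    ⟨k0, hk0⟩ hdrop
  choose g hg K hK1 hK2 hK3 using hnear
  have hKpos : ∀ j, 1 ≤ K j := fun j => le_trans Nat.one_le_two_pow (hK1 j)
  have hgK : ∀ j, g j ≤ K j := fun j => by
    have h1 : g j ≤ (g j) ^ 3 := Nat.le_self_pow (by norm_num) _
    have h2 : (g j) ^ 3 < 2 ^ ((g j) ^ 3) := Nat.lt_two_pow_self
    exact le_trans h1 (le_trans h2.le (hK1 j))
  have h8 : ∀ n : ℕ, n ≤ 8 ^ n - 1 := fun n => by
    have : n < 8 ^ n := Nat.lt_pow_self (by norm_num)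
    omega
  set m := Fintype.card A with hm
  have hm1 : 1 ≤ m := by omega
  -- first compactness
  have hw0 : ∀ j, 0 < lam ^ (K j * (8 ^ g j - 1)) := fun j => pow_pos hl0 _
  have hlamt : Tendsto (fun n : ℕ => lam ^ n) atTop (nhds 0) :=
    tendsto_pow_atTop_nhds_zero_of_lt_one hl0.le hl1
  have hwt : Tendsto (fun j => lam ^ (K j * (8 ^ g j - 1))) atTop (nhds 0) := by
    refine squeeze_zero (fun j => (hw0 j).le) (fun j => ?_) hlamt
    apply pow_le_pow_of_le_one hl0.le hl1.le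
    calc j ≤ g j := hg j
      _ ≤ 8 ^ g j - 1 := h8 _
      _ = 1 * (8 ^ g j - 1) := (one_mul _).symm
      _ ≤ K j * (8 ^ g j - 1) := Nat.mul_le_mul_right _ (hKpos j)
  obtain ⟨e, he, C, hC, hfreq⟩ := hAc A lam t hl0 hl1 hfree τ IH (c1 / 2 / 2) (by positivity) K
    (fun j => lam ^ (K j * (8 ^ g j - 1))) hw0 hwt (by
      intro l hl
      obtain ⟨k1, hk1⟩ := hAch A lam t τ hA hl0 hl1 (c1 / 2) (by positivity) l hl
      filter_upwards [eventually_ge_atTop k1] with j hj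
      have hKj : k1 ≤ K j := le_trans hj (le_trans (hg j) (hgK j))
      obtain ⟨k', h, hk', s, w', hw', hw'2, hcond⟩ := hk1 (K j) hKj (lam ^ (K j * 8 ^ g j))
        (pow_pos hl0 _) (hK3 j (K j) le_rfl (Nat.le_mul_of_pos_right _ (by positivity)))
      refine ⟨k', h, hk', s, w', hw', le_trans hw'2 (le_of_eq ?_), hcond⟩
      rw [div_eq_iff (pow_pos hl0 _).ne', ← pow_add]
      congr 1
      have : 1 ≤ 8 ^ g j := Nat.one_le_pow _ _ (by norm_num)
      obtain ⟨x, hx⟩ := Nat.exists_eq_add_of_le this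
      rw [hx]
      simp
      ring)
  obtain ⟨gn1, hgn1⟩ := M1_num1 lam hl0 hl1 m hm1 C hC e he
  -- data for every `E`
  have step : ∀ E : ℕ, ∃ (gg KK kk : ℕ) (P : Polynomial ℤ) (z : ℂ), E ≤ gg ∧ 1 ≤ KK ∧
      KK ≤ 2 ^ ((gg + 1) ^ 3) ∧ gg ≤ KK ∧ KK ≤ kk ∧ kk ≤ KK * 2 ^ gg ∧ P ≠ 0 ∧
      P.natDegree ≤ m * KK ∧ L1 P ≤ C * (KK : ℝ) ^ m ∧ Polynomial.aeval z P = 0 ∧
      (lam : ℂ) ≠ z ∧ ‖(lam : ℂ) - z‖ ≤ lam ^ (KK * 4 ^ gg) ∧
      c1 / 8 * kk ≤ HW lam t τ kk (‖(lam : ℂ) - z‖ ^ E) := by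
    intro E
    obtain ⟨gE, hgE⟩ := hWk A lam t hl0 hl1 hfree τ (aa lam t τ R) C1 c1 hanti hbd hC1 hc1 hdrop
      E e C he hC
    obtain ⟨j, hj⟩ := (hfreq.and_eventually (eventually_ge_atTop (max gE (max gn1 E)))).exists
    obtain ⟨⟨P, hP0, hPdeg, hPL, z, hz, hzd⟩, hjge⟩ := hj
    have hj1 : gE ≤ g j := le_trans (le_trans (le_max_left _ _) hjge) (hg j)
    have hj2 : gn1 ≤ g j := le_trans (le_trans (le_trans (le_max_left _ _) (le_max_right _ _)) hjge) (hg j)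
    have hj3 : E ≤ g j := le_trans (le_trans (le_trans (le_max_right _ _) (le_max_right _ _)) hjge) (hg j)
    obtain ⟨k, hk1, hk2, hne, hHW⟩ := hgE (g j) hj1 (K j) (hK1 j) (hK2 j) (hK3 j) P z hP0 hPdeg hPL hz hzd
    refine ⟨g j, K j, k, P, z, hj3, hKpos j, hK2 j, hgK j, hk1, hk2, hP0, hPdeg, hPL, hz, hne, ?_, hHW⟩
    exact le_trans hzd (hgn1 (g j) hj2 (K j) (hKpos j) (hK2 j))
  choose gg KK kk P z s1 s2 s3 s4 s5 s6 s7 s8 s9 s10 s11 s12 s13 using step
  have heps : ∀ E, 0 < ‖(lam : ℂ) - z E‖ := fun E => norm_pos_iff.2 (sub_ne_zero.2 (s11 E))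
  have heps1 : ∀ E, ‖(lam : ℂ) - z E‖ ≤ 1 := fun E =>
    le_trans (s12 E) (pow_le_one₀ hl0.le hl1.le)
  have h4E : ∀ E, E ≤ KK E * 4 ^ gg E := fun E => by
    calc E ≤ gg E := s1 E
      _ ≤ KK E := s4 E
      _ = KK E * 1 := (mul_one _).symm
      _ ≤ KK E * 4 ^ gg E := Nat.mul_le_mul_left _ (Nat.one_le_pow _ _ (by norm_num))
  have hepsE : ∀ E, ‖(lam : ℂ) - z E‖ ≤ lam ^ E := fun E =>
    le_trans (s12 E) (pow_le_pow_of_le_one hl0.le hl1.le (h4E E))
  have hlamk : ∀ E, ‖(lam : ℂ) - z E‖ ≤ lam ^ kk E := fun E => by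
    refine le_trans (s12 E) (pow_le_pow_of_le_one hl0.le hl1.le ?_)
    refine le_trans (s6 E) (Nat.mul_le_mul_left _ ?_)
    exact Nat.pow_le_pow_left (by norm_num) _
  have hw'b : ∀ E, 1 ≤ E → ‖(lam : ℂ) - z E‖ ^ E / lam ^ kk E ≤ ‖(lam : ℂ) - z E‖ ^ (E - 1) := by
    intro E hE
    rw [div_le_iff₀ (pow_pos hl0 _)]
    obtain ⟨E', rfl⟩ := Nat.exists_eq_add_of_le hE
    rw [Nat.add_sub_cancel_left, Nat.add_comm 1 E', pow_succ]
    rw [Nat.add_comm 1 E'] at *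
    exact mul_le_mul_of_nonneg_left (hlamk (E' + 1)) (by positivity)
  have hw'pos : ∀ E, 0 < ‖(lam : ℂ) - z E‖ ^ E / lam ^ kk E := fun E =>
    div_pos (pow_pos (heps E) _) (pow_pos hl0 _)
  have hw't : Tendsto (fun E => ‖(lam : ℂ) - z E‖ ^ E / lam ^ kk E) atTop (nhds 0) := by
    refine squeeze_zero' (Eventually.of_forall fun E => (hw'pos E).le) ?_ hlamt
    filter_upwards [eventually_ge_atTop 2] with E hE
    refine le_trans (hw'b E (by omega)) (le_trans ?_ (hepsE E))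
    calc ‖(lam : ℂ) - z E‖ ^ (E - 1) ≤ ‖(lam : ℂ) - z E‖ ^ 1 :=
          pow_le_pow_of_le_one (heps E).le (heps1 E) (by omega)
      _ = _ := pow_one _
  obtain ⟨e', he', C', hC', hfreq'⟩ := hAc A lam t hl0 hl1 hfree τ IH (c1 / 8 / 2) (by positivity) kk
    (fun E => ‖(lam : ℂ) - z E‖ ^ E / lam ^ kk E) hw'pos hw't (by
      intro l hl
      obtain ⟨k1, hk1⟩ := hAch A lam t τ hA hl0 hl1 (c1 / 8) (by positivity) l hl
      filter_upwards [eventually_ge_atTop k1] with E hE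
      have hKj : k1 ≤ kk E := le_trans hE (le_trans (s1 E) (le_trans (s4 E) (s5 E)))
      obtain ⟨k', h, hk', s, w', hw', hw'2, hcond⟩ := hk1 (kk E) hKj (‖(lam : ℂ) - z E‖ ^ E)
        (pow_pos (heps E) _) (s13 E)
      exact ⟨k', h, hk', s, w', hw', hw'2, hcond⟩)
  obtain ⟨gn2, hgn2⟩ := M1_num2 lam hl0 hl1 m hm1 (C * C') (one_le_mul_of_one_le_of_one_le hC hC')
  obtain ⟨N1, hN1⟩ := exists_pow_lt_of_lt_one (sub_pos.2 hl1) hl1
  obtain ⟨E, ⟨Q, hQ0, hQdeg, hQL, z', hz', hz'd⟩, hEge⟩ :=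
    (hfreq'.and_eventually (eventually_ge_atTop (max gn2 (max N1 (3 * e' + 2))))).exists
  have hE1 : gn2 ≤ gg E := le_trans (le_trans (le_max_left _ _) hEge) (s1 E)
  have hE2 : N1 ≤ E := le_trans (le_trans (le_max_left _ _) (le_max_right _ _)) hEge
  have hE3 : 3 * e' + 2 ≤ E := le_trans (le_trans (le_max_right _ _) (le_max_right _ _)) hEge
  have hnum := hgn2 (gg E) hE1 (KK E) (kk E) (s2 E) (s3 E) (s5 E) (s6 E)
  have hk1 : 1 ≤ kk E := le_trans (s2 E) (s5 E)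
  have hkr : (1 : ℝ) ≤ kk E := by exact_mod_cast hk1
  have hmr : (1 : ℝ) ≤ m := by exact_mod_cast hm1
  have hD' : 1 ≤ 2 * m * kk E := by nlinarith
  have hDr : (1 : ℝ) ≤ ((2 * m * kk E : ℕ) : ℝ) := by exact_mod_cast hD'
  have hCC : (1 : ℝ) ≤ C * C' := one_le_mul_of_one_le_of_one_le hC hC'
  have hbase2 : (1 : ℝ) ≤ C * C' * (kk E : ℝ) ^ (2 * m) :=
    one_le_mul_of_one_le_of_one_le hCC (one_le_pow₀ hkr)
  have hX1 : ((2 * m * kk E : ℕ) : ℝ) ≤ ((2 * m * kk E : ℕ) : ℝ) ^ (2 * (2 * m * kk E) + 2) :=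
    le_self_pow₀ hDr (by omega)
  have hX2 : C * C' * (kk E : ℝ) ^ (2 * m) ≤ (C * C' * (kk E : ℝ) ^ (2 * m)) ^ (2 * m * kk E) :=
    le_self_pow₀ hbase2 (by omega)
  set X1 := ((2 * m * kk E : ℕ) : ℝ) ^ (2 * (2 * m * kk E) + 2) with hX1d
  set X2 := (C * C' * (kk E : ℝ) ^ (2 * m)) ^ (2 * m * kk E) with hX2d
  have hX1p : 1 ≤ X1 := one_le_pow₀ hDr
  have hX2p : 1 ≤ X2 := one_le_pow₀ hbase2
  set ε := ‖(lam : ℂ) - z E‖ with hε
  have hε0 : 0 < ε := heps E
  have hε1 : ε < 1 - lam := lt_of_le_of_lt (hepsE E)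
    (lt_of_le_of_lt (pow_le_pow_of_le_one hl0.le hl1.le hE2) hN1)
  have hεlt : ε < 1 := by linarith
  have hnum' : ε * (2 * X1 * X2) < 1 := lt_of_le_of_lt
    (mul_le_mul_of_nonneg_right (s12 E) (by positivity)) hnum
  -- the second root is much closer
  have hclose : ‖(lam : ℂ) - z'‖ ≤ (m : ℝ) * kk E * (C' * ε ^ 3) := by
    refine le_trans hz'd (mul_le_mul_of_nonneg_left ?_ (by positivity))
    have h1 : C' * (‖(lam : ℂ) - z E‖ ^ E / lam ^ kk E) ≤ (C' * ε ^ 3) ^ e' := by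
      rw [mul_pow]
      have h2 : C' ≤ C' ^ e' := le_self_pow₀ hC' (by omega)
      have h3 : ‖(lam : ℂ) - z E‖ ^ E / lam ^ kk E ≤ (ε ^ 3) ^ e' := by
        refine le_trans (hw'b E (by omega)) ?_
        rw [← pow_mul]
        exact pow_le_pow_of_le_one hε0.le hεlt.le (by omega)
      exact mul_le_mul h2 h3 (hw'pos E).le (by positivity)
    calc (C' * (‖(lam : ℂ) - z E‖ ^ E / lam ^ kk E)) ^ ((1 : ℝ) / e')
        ≤ ((C' * ε ^ 3) ^ e') ^ ((1 : ℝ) / e') :=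
          Real.rpow_le_rpow (mul_nonneg (by linarith) (hw'pos E).le) h1 (by positivity)
      _ = C' * ε ^ 3 := by
          rw [one_div]
          exact Real.pow_rpow_inv_natCast (by positivity) (by omega)
  have hmk : (m : ℝ) * kk E * C' * ε ≤ 1 / 2 := by
    have h1 : (m : ℝ) * kk E ≤ X1 := by
      refine le_trans ?_ hX1
      push_cast
      nlinarith
    have h2 : C' ≤ X2 := by
      refine le_trans ?_ hX2
      have h3 : (1 : ℝ) ≤ C * (kk E : ℝ) ^ (2 * m) := one_le_mul_of_one_le_of_one_le hC (one_le_pow₀ hkr)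
      nlinarith
    have h3 : (m : ℝ) * kk E * C' ≤ X1 * X2 := mul_le_mul h1 h2 (by linarith) (by linarith)
    nlinarith
  have hclose2 : ‖(lam : ℂ) - z'‖ ≤ ε ^ 2 / 2 := by
    refine le_trans hclose ?_
    have : (m : ℝ) * kk E * (C' * ε ^ 3) = ((m : ℝ) * kk E * C' * ε) * ε ^ 2 := by ring
    rw [this]
    nlinarith [sq_nonneg ε]
  have hlt : ‖(lam : ℂ) - z'‖ < ε := by nlinarith
  have hne : z E ≠ z' := by
    intro h
    rw [← h] at hlt
    exact lt_irrefl _ hlt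
  have hdist : ‖z E - z'‖ ≤ 2 * ε := by
    have : z E - z' = ((lam : ℂ) - z') - ((lam : ℂ) - z E) := by ring
    rw [this]
    refine le_trans (norm_sub_le _ _) ?_
    linarith
  have hlamn : ‖(lam : ℂ)‖ = lam := by
    rw [Complex.norm_real, Real.norm_eq_abs, abs_of_pos hl0]
  have hzn : ‖z E‖ ≤ 1 := by
    have : z E = (lam : ℂ) - ((lam : ℂ) - z E) := by ring
    rw [this]
    refine le_trans (norm_sub_le _ _) ?_
    rw [hlamn]
    linarith
  have hz'n : ‖z'‖ ≤ 1 := by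
    have : z' = (lam : ℂ) - ((lam : ℂ) - z') := by ring
    rw [this]
    refine le_trans (norm_sub_le _ _) ?_
    rw [hlamn]
    linarith
  have hsep := hWs (P E) Q (z E) z' (s7 E) hQ0 (s10 E) hz' hne hzn hz'n
  set D := (P E).natDegree + Q.natDegree with hD
  have hDle : D ≤ 2 * m * kk E := by
    have h1 : (P E).natDegree ≤ m * kk E := le_trans (s8 E) (Nat.mul_le_mul_left _ (s5 E))
    have h2 : Q.natDegree ≤ m * kk E := hQdeg
    have h3 : 2 * m * kk E = m * kk E + m * kk E := by ring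
    omega
  have hY1 : ((D : ℕ) : ℝ) ^ (2 * D + 2) ≤ X1 := by
    calc ((D : ℕ) : ℝ) ^ (2 * D + 2) ≤ ((2 * m * kk E : ℕ) : ℝ) ^ (2 * D + 2) := by
          apply pow_le_pow_left₀ (Nat.cast_nonneg _)
          exact_mod_cast hDle
      _ ≤ _ := pow_le_pow_right₀ hDr (by omega)
  have hLL : L1 (P E) * L1 Q ≤ C * C' * (kk E : ℝ) ^ (2 * m) := by
    have h1 : L1 (P E) ≤ C * (kk E : ℝ) ^ m := by
      refine le_trans (s9 E) (mul_le_mul_of_nonneg_left ?_ (by linarith))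
      apply pow_le_pow_left₀ (Nat.cast_nonneg _)
      exact_mod_cast s5 E
    calc L1 (P E) * L1 Q ≤ (C * (kk E : ℝ) ^ m) * (C' * (kk E : ℝ) ^ m) :=
          mul_le_mul h1 hQL (M1_L1_nonneg _) (by positivity)
      _ = _ := by ring
  have hY2 : (L1 (P E) * L1 Q) ^ D ≤ X2 := by
    calc (L1 (P E) * L1 Q) ^ D ≤ (C * C' * (kk E : ℝ) ^ (2 * m)) ^ D :=
          pow_le_pow_left₀ (mul_nonneg (M1_L1_nonneg _) (M1_L1_nonneg _)) hLL _
      _ ≤ _ := pow_le_pow_right₀ hbase2 hDle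
  have hfin : ‖z E - z'‖ * ((D : ℕ) : ℝ) ^ (2 * D + 2) * (L1 (P E) * L1 Q) ^ D ≤ 2 * ε * X1 * X2 := by
    apply mul_le_mul _ hY2 (pow_nonneg (mul_nonneg (M1_L1_nonneg _) (M1_L1_nonneg _)) _)
      (by positivity)
    exact mul_le_mul hdist hY1 (by positivity) (by positivity)
  have : (1 : ℝ) < 1 := by
    calc (1 : ℝ) ≤ _ := hsep
      _ ≤ _ := hfin
      _ = ε * (2 * X1 * X2) := by ring
      _ < 1 := hnum'
  exact lt_irrefl _ this

end H517.EO
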