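import Pool.Agent.H517R2.EO.Basic

/-!
# TEAM EO, task M2 : many cells
-/

set_option autoImplicit false

open Finset

namespace H517.EO

namespace M2

theorem HR_unit {Ω : Type} [Fintype Ω] [Nonempty Ω] :
    HR (fun _ : Ω => ()) = Real.log (Fintype.card Ω : ℝ) := by
  unfold HR
  rw [← avg_const (Ω := Ω) (Real.log (Fintype.card Ω : ℝ))]
  apply avg_congr
  intro p
  congr 1
  unfold fib
  congr 1
  rw [← Finset.card_univ]
  congr 1
  ext q
  simp [mem_fiber]

theorem HR_ge {Ω γ : Type} [Fintype Ω] [Nonempty Ω] (hc : E_card) (f : Ω → γ) :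
    Real.log (Fintype.card Ω : ℝ) - Real.log ((Set.range f).ncard : ℝ) ≤ HR f := by
  have hfin : (Set.range f).Finite := Set.finite_range f
  have h1 : (1 : ℝ) ≤ ((Set.range f).ncard : ℝ) := by
    have : 0 < (Set.range f).ncard := (Set.ncard_pos hfin).2 (Set.range_nonempty f)
    exact_mod_cast this
  have h := hc Ω Unit γ (fun _ => ()) f ((Set.range f).ncard : ℝ) h1 (fun p => by
    have : ((fiber (fun _ : Ω => ()) p : Set Ω).image f).ncard ≤ (Set.range f).ncard :=
      Set.ncard_le_ncard (Set.image_subset_range _ _) hfin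
    exact_mod_cast this)
  rw [HR_unit] at h
  have h2 : HR (fun p : Ω => (((fun _ : Ω => ()) p), f p)) = HR f := by
    apply HR_congr
    intro p q
    simp
  rw [h2] at h
  linarith

end M2

theorem t_M_cells (h1 : M_claim) (h2 : N_nonflat) (h3 : E_bound) (h4 : E_card) : M_cells := by
  intro A _ _ lam t hm hl0 hl1 hfree ε hε n0
  have : Nonempty A := Fintype.card_pos_iff.1 (by omega)
  by_contra hcon
  push Not at hcon
  set m : ℝ := (Fintype.card A : ℝ) with hmdef
  have hm0 : 0 < m := by rw [hmdef]; exact_mod_cast Fintype.card_pos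
  have hm1 : 0 ≤ Real.log m := Real.log_natCast_nonneg _
  set χ : ℝ := Real.log (1 / lam) with hχ
  have hχ0 : 0 < χ := Real.log_pos (by rw [lt_div_iff₀ hl0]; linarith)
  have key : ∀ n, n0 ≤ n → (n : ℝ) * (Real.log m - min (Real.log m) χ + ε) ≤
      HR (fun p : Fin n → A => ⌊XX lam t p / lam ^ n⌋) := by
    intro n hn
    have a1 := M2.HR_ge h4 (fun p : Fin n → A => ⌊XX lam t p / lam ^ n⌋)
    have a2 := hcon n hn
    have hpos : (0 : ℝ) <
        ((Set.range (fun p : Fin n → A => ⌊XX lam t p / lam ^ n⌋)).ncard : ℝ) := by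
      have : 0 < (Set.range (fun p : Fin n → A => ⌊XX lam t p / lam ^ n⌋)).ncard :=
        (Set.ncard_pos (Set.finite_range _)).2 (Set.range_nonempty _)
      exact_mod_cast this
    have a3 := Real.log_lt_log hpos a2
    rw [Real.log_exp] at a3
    have a4 : Real.log (Fintype.card (Fin n → A) : ℝ) = n * Real.log m := by
      rw [Fintype.card_fun, Fintype.card_fin]
      push_cast
      rw [Real.log_pow]
    rw [a4] at a1
    have a5 : (n : ℝ) * (Real.log m - min (Real.log m) χ + ε) =
      n * Real.log m - n * (min (Real.log m) χ - ε) := by ring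
    rw [a5]
    linarith
  have hHR0 : ∀ n : ℕ, 0 ≤ HR (fun p : Fin n → A => ⌊XX lam t p / lam ^ n⌋) :=
    fun n => (h3 _ _ _).1
  have hflat := h2 A lam t hl0 hl1 ⟨ε, hε, n0 * (Real.log m + ε), fun n => by
    by_cases hn : n0 ≤ n
    · refine le_trans ?_ (key n hn)
      have b1 : min (Real.log m) χ ≤ χ := min_le_right _ _
      have b2 : (0 : ℝ) ≤ n0 * (Real.log m + ε) := by positivity
      have b3 : (n : ℝ) * (Real.log m - χ + ε) ≤ n * (Real.log m - min (Real.log m) χ + ε) := by
        apply mul_le_mul_of_nonneg_left _ (Nat.cast_nonneg _)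
        linarith
      linarith
    · refine le_trans ?_ (hHR0 n)
      have b1 : (n : ℝ) ≤ n0 := by exact_mod_cast (by omega : n ≤ n0)
      have b2 : (n : ℝ) * (Real.log m - χ + ε) ≤ n * (Real.log m + ε) := by
        apply mul_le_mul_of_nonneg_left _ (Nat.cast_nonneg _)
        linarith
      have b3 : (n : ℝ) * (Real.log m + ε) ≤ n0 * (Real.log m + ε) := by
        apply mul_le_mul_of_nonneg_right b1
        linarith
      linarith⟩
  have hclaim := h1 A lam t hm hl0 hl1 hfree hflat (fun _ _ => 0)
  obtain ⟨n, hn, hlt⟩ := hclaim ε hε n0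
  have c1 : HT lam t (fun _ _ => (0 : PowerSeries ℤ)) n =
      HR (fun p : Fin n → A => ⌊XX lam t p / lam ^ n⌋) := by
    unfold HT
    apply HR_congr
    intro p q
    rw [Prod.mk.injEq]
    constructor
    · exact fun h => h.2
    · intro h
      refine ⟨?_, h⟩
      rw [YM_eq_iff]
      intro b j _
      simp [YY]
  rw [c1] at hlt
  have c2 := key n hn
  have c3 : ε * (n : ℝ) ≤ n * (Real.log m - min (Real.log m) χ + ε) := by
    have : min (Real.log m) χ ≤ Real.log m := min_le_left _ _
    rw [mul_comm]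
    apply mul_le_mul_of_nonneg_left _ (Nat.cast_nonneg _)
    linarith
  linarith

end H517.EO
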