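import Pool.Agent.H517R2.EO.Basic

/-!
# TEAM EO, task N1 : the Fejer kernel bound (helper35)
-/

set_option autoImplicit false

open Finset MeasureTheory

namespace H517.EO

namespace NF

/-! ### integrals of exponentials -/

theorem integrable_exp_abs {b : ℝ} (hb : 0 < b) (a : ℝ) :
    Integrable (fun z : ℝ => Real.exp (-(b * |z - a|))) := by
  have h0 : Integrable (fun z : ℝ => Real.exp (-(b * |z|))) := by
    rw [← integrableOn_univ, ← Set.Iic_union_Ioi (a := (0:ℝ))]
    apply IntegrableOn.union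
    · refine (integrableOn_exp_mul_Iic hb 0).congr_fun ?_ measurableSet_Iic
      intro z hz
      have hz' : z ≤ 0 := hz
      simp only
      rw [abs_of_nonpos hz']
      ring_nf
    · refine (integrableOn_exp_mul_Ioi (a := -b) (by linarith) 0).congr_fun ?_ measurableSet_Ioi
      intro z hz
      have hz' : 0 < z := hz
      simp only
      rw [abs_of_pos hz']
      ring_nf
  exact h0.comp_sub_right a

theorem integral_exp_abs {b : ℝ} (hb : 0 < b) (a : ℝ) :
    ∫ z : ℝ, Real.exp (-(b * |z - a|)) = 2 / b := by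
  rw [integral_sub_right_eq_self (fun z : ℝ => Real.exp (-(b * |z|))) a]
  rw [integral_comp_abs (f := fun z => Real.exp (-(b * z)))]
  have : (∫ x in Set.Ioi (0:ℝ), Real.exp (-(b * x))) = 1 / b := by
    have h := integral_exp_mul_Ioi (a := -b) (by linarith) 0
    simp only [neg_mul] at h
    rw [h]
    simp
  rw [this]
  ring

section

variable {Ω : Type} [Fintype Ω]

theorem mm_pos [Nonempty Ω] (y : Ω → ℝ) (z : ℝ) : 0 < mm univ y z := by
  unfold mm
  exact Finset.sum_pos (fun i _ => Real.exp_pos _) Finset.univ_nonempty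

theorem mm_cont (y : Ω → ℝ) : Continuous (fun z => mm univ y z) := by
  unfold mm
  fun_prop

theorem MM_cont (R : ℝ) (y : Ω → ℝ) : Continuous (fun z => MM R univ y z) := by
  unfold MM
  fun_prop

theorem mm_integrable (y : Ω → ℝ) : Integrable (fun z => mm univ y z) := by
  unfold mm
  apply integrable_finsetSum
  intro i _
  have := integrable_exp_abs (b := 1) one_pos (y i)
  simpa using this

theorem mm_integral (y : Ω → ℝ) : ∫ z, mm univ y z = 2 * (Fintype.card Ω : ℝ) := by
  unfold mm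
  rw [integral_finsetSum]
  · have : ∀ i ∈ (univ : Finset Ω), ∫ z : ℝ, Real.exp (-|z - y i|) = 2 := by
      intro i _
      have := integral_exp_abs (b := 1) one_pos (y i)
      simpa using this
    rw [Finset.sum_congr rfl this, Finset.sum_const, Finset.card_univ, nsmul_eq_mul]
    ring
  · intro i _
    have := integrable_exp_abs (b := 1) one_pos (y i)
    simpa using this

theorem norm_MM_le (R : ℝ) (y : Ω → ℝ) (z : ℝ) : ‖MM R univ y z‖ ≤ mm univ y z := by
  unfold MM mm
  refine (norm_sum_le _ _).trans (Finset.sum_le_sum fun i _ => ?_)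
  rw [norm_mul]
  have h1 : ‖Complex.exp (2 * Real.pi * R * y i * Complex.I)‖ = 1 := by
    have : (2 * Real.pi * R * y i * Complex.I : ℂ) = ((2 * Real.pi * R * y i : ℝ) : ℂ) * Complex.I := by
      push_cast; ring
    rw [this, Complex.norm_exp_ofReal_mul_I]
  rw [h1, mul_one]
  rw [Complex.norm_real, Real.norm_of_nonneg (Real.exp_pos _).le]

theorem quot_integrable [Nonempty Ω] (R : ℝ) (y : Ω → ℝ) :
    Integrable (fun z => ‖MM R univ y z‖ ^ 2 / mm univ y z) := by
  refine (mm_integrable y).mono' ?_ ?_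
  · apply Continuous.aestronglyMeasurable
    exact ((MM_cont R y).norm.pow 2).div (mm_cont y) (fun z => (mm_pos y z).ne')
  · refine Filter.Eventually.of_forall fun z => ?_
    have h0 := mm_pos y z
    have h1 := norm_MM_le R y z
    rw [Real.norm_of_nonneg (by positivity), div_le_iff₀ h0]
    nlinarith [norm_nonneg (MM R univ y z)]

theorem Gam_nonneg (R : ℝ) (y : Ω → ℝ) : 0 ≤ Gam R univ y := by
  unfold Gam
  apply integral_nonneg
  intro z
  have : 0 ≤ mm univ y z := by
    unfold mm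
    exact Finset.sum_nonneg fun i _ => (Real.exp_pos _).le
  simp only [Pi.zero_apply]
  positivity

theorem Gam_zero [Nonempty Ω] (y : Ω → ℝ) : Gam 0 univ y = 2 * (Fintype.card Ω : ℝ) := by
  rw [← mm_integral y]
  unfold Gam
  congr 1
  funext z
  have h0 := mm_pos y z
  have : MM 0 univ y z = ((mm univ y z : ℝ) : ℂ) := by
    unfold MM mm
    push_cast
    refine Finset.sum_congr rfl fun i _ => ?_
    simp
  rw [this, Complex.norm_real, Real.norm_of_nonneg h0.le]
  field_simp

theorem Gam_neg (R : ℝ) (y : Ω → ℝ) : Gam (-R) univ y = Gam R univ y := by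
  unfold Gam
  congr 1
  funext z
  have : MM (-R) univ y z = (starRingEnd ℂ) (MM R univ y z) := by
    unfold MM
    rw [map_sum]
    refine Finset.sum_congr rfl fun i _ => ?_
    rw [map_mul, Complex.conj_ofReal, ← Complex.exp_conj]
    congr 2
    simp only [map_mul, Complex.conj_ofReal, Complex.conj_I, Complex.ofReal_neg]
    have : (starRingEnd ℂ) (2 : ℂ) = 2 := Complex.conj_ofNat 2
    rw [this]
    ring
  rw [this, RCLike.norm_conj]

/-! ### the Dirichlet kernel -/

noncomputable def DK (N : ℕ) (t : ℝ) : ℂ :=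
  ∑ j ∈ range N, Complex.exp (2 * Real.pi * (j : ℝ) * t * Complex.I)

theorem DK_lower (N : ℕ) (hN : 1 ≤ N) (t : ℝ) (ht : |t| ≤ 1 / (2 * (N : ℝ))) :
    2 / Real.pi * N ≤ ‖DK N t‖ := by
  have hN0 : (0 : ℝ) < N := by exact_mod_cast hN
  have hpi := Real.pi_pos
  by_cases h0 : t = 0
  · subst h0
    have : DK N 0 = (N : ℂ) := by
      unfold DK
      simp
    rw [this, Complex.norm_natCast]
    have h2 : 2 / Real.pi ≤ 1 := by
      rw [div_le_one hpi]
      linarith [Real.pi_gt_three]
    nlinarith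
  · have htp : 0 < |t| := abs_pos.2 h0
    set w : ℂ := Complex.exp (Complex.I * ((2 * Real.pi * t : ℝ) : ℂ)) with hw
    have hD : DK N t = ∑ j ∈ range N, w ^ j := by
      unfold DK
      refine Finset.sum_congr rfl fun j _ => ?_
      rw [hw, ← Complex.exp_nat_mul]
      congr 1
      push_cast
      ring
    have hg : (w - 1) * DK N t = w ^ N - 1 := by
      rw [hD]
      exact mul_geom_sum w N
    have hwN : w ^ N = Complex.exp (Complex.I * ((2 * Real.pi * t * N : ℝ) : ℂ)) := by
      rw [hw, ← Complex.exp_nat_mul]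
      congr 1
      push_cast
      ring
    have h1 : ‖w - 1‖ ≤ 2 * Real.pi * |t| := by
      rw [hw]
      refine (Real.norm_exp_I_mul_ofReal_sub_one_le).trans ?_
      rw [Real.norm_eq_abs, abs_mul, abs_mul, abs_of_pos hpi, abs_of_pos (by norm_num : (0:ℝ) < 2)]
    have h2 : 4 * N * |t| ≤ ‖w ^ N - 1‖ := by
      rw [hwN, Complex.norm_exp_I_mul_ofReal_sub_one]
      rw [Real.norm_eq_abs, abs_mul, abs_of_pos (by norm_num : (0:ℝ) < 2)]
      have e1 : 2 * Real.pi * t * N / 2 = Real.pi * N * t := by ring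
      rw [e1]
      have e2 : |Real.sin (Real.pi * N * t)| = Real.sin (Real.pi * N * |t|) := by
        have hle : Real.pi * N * |t| ≤ Real.pi := by
          have : N * |t| ≤ 1 / 2 := by
            calc (N : ℝ) * |t| ≤ N * (1 / (2 * N)) := by gcongr
              _ = 1 / 2 := by field_simp
          nlinarith
        have hs : 0 ≤ Real.sin (Real.pi * N * |t|) :=
          Real.sin_nonneg_of_nonneg_of_le_pi (by positivity) hle
        rcases abs_cases t with ⟨h, _⟩ | ⟨h, _⟩
        · rw [h] at hs ⊢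
          exact abs_of_nonneg hs
        · rw [h] at hs ⊢
          rw [mul_neg, Real.sin_neg] at hs ⊢
          rw [abs_of_nonpos (by linarith)]
      rw [e2]
      have h3 : Real.pi * N * |t| ≤ Real.pi / 2 := by
        have : N * |t| ≤ 1 / 2 := by
          calc (N : ℝ) * |t| ≤ N * (1 / (2 * N)) := by gcongr
            _ = 1 / 2 := by field_simp
        nlinarith
      have h4 := Real.mul_le_sin (x := Real.pi * N * |t|) (by positivity) h3
      have h5 : 2 / Real.pi * (Real.pi * N * |t|) = 2 * N * |t| := by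
        field_simp
      rw [h5] at h4
      linarith
    have h6 : ‖w - 1‖ * ‖DK N t‖ = ‖w ^ N - 1‖ := by
      rw [← norm_mul, hg]
    have h7 : 4 * N * |t| ≤ 2 * Real.pi * |t| * ‖DK N t‖ := by
      calc 4 * N * |t| ≤ ‖w ^ N - 1‖ := h2
        _ = ‖w - 1‖ * ‖DK N t‖ := h6.symm
        _ ≤ 2 * Real.pi * |t| * ‖DK N t‖ := by gcongr
    have h8 : 2 * (N : ℝ) ≤ Real.pi * ‖DK N t‖ := by
      have : |t| * (2 * (2 * (N:ℝ))) ≤ |t| * (2 * (Real.pi * ‖DK N t‖)) := by nlinarith
      have := le_of_mul_le_mul_left this htp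
      linarith
    rw [div_mul_eq_mul_div, div_le_iff₀ hpi]
    linarith

theorem DK_sq (N : ℕ) (t : ℝ) : ((‖DK N t‖ ^ 2 : ℝ) : ℂ) =
    ∑ j ∈ range N, ∑ k ∈ range N,
      Complex.exp (2 * Real.pi * (((j : ℝ) - (k : ℝ) : ℝ) : ℂ) * t * Complex.I) := by
  rw [Complex.ofReal_pow, ← Complex.mul_conj']
  unfold DK
  rw [map_sum, Finset.sum_mul_sum]
  refine Finset.sum_congr rfl fun j _ => Finset.sum_congr rfl fun k _ => ?_
  rw [← Complex.exp_conj, ← Complex.exp_add]
  congr 1
  simp only [map_mul, Complex.conj_ofReal, Complex.conj_I]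
  have : (starRingEnd ℂ) (2 : ℂ) = 2 := Complex.conj_ofNat 2
  rw [this]
  push_cast
  ring

theorem MM_sq (R : ℝ) (y : Ω → ℝ) (z : ℝ) : ((‖MM R univ y z‖ ^ 2 : ℝ) : ℂ) =
    ∑ p, ∑ q, (Real.exp (-|z - y p|) : ℂ) * (Real.exp (-|z - y q|) : ℂ) *
      Complex.exp (2 * Real.pi * R * ((y p - y q : ℝ) : ℂ) * Complex.I) := by
  rw [Complex.ofReal_pow, ← Complex.mul_conj']
  unfold MM
  rw [map_sum, Finset.sum_mul_sum]
  refine Finset.sum_congr rfl fun p _ => Finset.sum_congr rfl fun q _ => ?_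
  rw [map_mul, Complex.conj_ofReal, ← Complex.exp_conj]
  have h : Complex.exp (2 * Real.pi * R * ((y p - y q : ℝ) : ℂ) * Complex.I) =
      Complex.exp (2 * Real.pi * R * y p * Complex.I) *
        Complex.exp ((starRingEnd ℂ) (2 * Real.pi * R * y q * Complex.I)) := by
    rw [← Complex.exp_add]
    congr 1
    simp only [map_mul, Complex.conj_ofReal, Complex.conj_I]
    have : (starRingEnd ℂ) (2 : ℂ) = 2 := Complex.conj_ofNat 2
    rw [this]
    push_cast
    ring
  rw [h]
  ring

theorem double_sum (N : ℕ) (y : Ω → ℝ) (z : ℝ) :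
    ∑ j ∈ range N, ∑ k ∈ range N, ‖MM ((j : ℝ) - (k : ℝ)) univ y z‖ ^ 2 =
    ∑ p, ∑ q, Real.exp (-|z - y p|) * Real.exp (-|z - y q|) * ‖DK N (y p - y q)‖ ^ 2 := by
  have h : ((∑ j ∈ range N, ∑ k ∈ range N, ‖MM ((j : ℝ) - (k : ℝ)) univ y z‖ ^ 2 : ℝ) : ℂ) =
    ((∑ p, ∑ q, Real.exp (-|z - y p|) * Real.exp (-|z - y q|) * ‖DK N (y p - y q)‖ ^ 2 : ℝ) : ℂ) := by
    rw [Complex.ofReal_sum, Complex.ofReal_sum]
    simp_rw [Complex.ofReal_sum, Complex.ofReal_mul, MM_sq, DK_sq, Finset.mul_sum]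
    rw [Finset.sum_congr rfl fun j _ => Finset.sum_comm]
    rw [Finset.sum_comm]
    refine Finset.sum_congr rfl fun p _ => ?_
    rw [Finset.sum_congr rfl fun j _ => Finset.sum_comm]
    rw [Finset.sum_comm]
  exact_mod_cast h

/-! ### the sum over differences -/

theorem diff_sum (N : ℕ) (g : ℝ → ℝ) (h0 : ∀ x, 0 ≤ g x) (hneg : ∀ x, g (-x) = g x) :
    ∑ j ∈ range N, ∑ k ∈ range N, g ((j : ℝ) - (k : ℝ)) ≤
      N * (g 0 + 2 * ∑ R ∈ Finset.Ico 1 N, g (R : ℝ)) := by
  have key : ∀ j ∈ range N, ∑ k ∈ range N, g ((j : ℝ) - (k : ℝ)) ≤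
      g 0 + 2 * ∑ R ∈ Finset.Ico 1 N, g (R : ℝ) := by
    intro j hj
    have hj' := Finset.mem_range.1 hj
    rw [← Finset.sum_filter_add_sum_filter_not (range N) (fun k => k < j)]
    have e1 : ∑ k ∈ (range N).filter (fun k => k < j), g ((j : ℝ) - (k : ℝ)) ≤
        ∑ R ∈ Finset.Ico 1 N, g (R : ℝ) := by
      have : ∑ k ∈ (range N).filter (fun k => k < j), g ((j : ℝ) - (k : ℝ)) =
          ∑ R ∈ ((range N).filter (fun k => k < j)).image (fun k => j - k), g (R : ℝ) := by
        rw [Finset.sum_image]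
        · refine Finset.sum_congr rfl fun k hk => ?_
          have := (Finset.mem_filter.1 hk).2
          rw [Nat.cast_sub this.le]
        · intro a ha b hb hab
          have h1 := (Finset.mem_filter.1 ha).2
          have h2 := (Finset.mem_filter.1 hb).2
          simp only at hab
          omega
      rw [this]
      refine Finset.sum_le_sum_of_subset_of_nonneg ?_ (fun _ _ _ => h0 _)
      intro r hr
      obtain ⟨k, hk, rfl⟩ := Finset.mem_image.1 hr
      have h1 := (Finset.mem_filter.1 hk).2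
      rw [Finset.mem_Ico]
      omega
    have e2 : ∑ k ∈ (range N).filter (fun k => ¬ k < j), g ((j : ℝ) - (k : ℝ)) ≤
        g 0 + ∑ R ∈ Finset.Ico 1 N, g (R : ℝ) := by
      have : ∑ k ∈ (range N).filter (fun k => ¬ k < j), g ((j : ℝ) - (k : ℝ)) =
          ∑ R ∈ ((range N).filter (fun k => ¬ k < j)).image (fun k => k - j), g (R : ℝ) := by
        rw [Finset.sum_image]
        · refine Finset.sum_congr rfl fun k hk => ?_
          have := (Finset.mem_filter.1 hk).2
          rw [Nat.cast_sub (by omega), ← hneg]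
          congr 1
          ring
        · intro a ha b hb hab
          have h1 := (Finset.mem_filter.1 ha).2
          have h2 := (Finset.mem_filter.1 hb).2
          simp only at hab
          omega
      rw [this]
      have h1 : ∑ R ∈ range N, g (R : ℝ) = g 0 + ∑ R ∈ Finset.Ico 1 N, g (R : ℝ) := by
        rw [Finset.range_eq_Ico, Finset.sum_eq_sum_Ico_succ_bot (by omega)]
        simp
      rw [← h1]
      refine Finset.sum_le_sum_of_subset_of_nonneg ?_ (fun _ _ _ => h0 _)
      intro r hr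
      obtain ⟨k, hk, rfl⟩ := Finset.mem_image.1 hr
      have h1 := Finset.mem_range.1 (Finset.mem_filter.1 hk).1
      rw [Finset.mem_range]
      omega
    linarith
  calc ∑ j ∈ range N, ∑ k ∈ range N, g ((j : ℝ) - (k : ℝ))
      ≤ ∑ j ∈ range N, (g 0 + 2 * ∑ R ∈ Finset.Ico 1 N, g (R : ℝ)) := Finset.sum_le_sum key
    _ = N * (g 0 + 2 * ∑ R ∈ Finset.Ico 1 N, g (R : ℝ)) := by
        rw [Finset.sum_const, Finset.card_range, nsmul_eq_mul]

/-! ### lower bound for the energy of near pairs -/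

theorem mm_shift (y : Ω → ℝ) (z : ℝ) (p : Ω) :
    mm univ y z ≤ Real.exp |z - y p| * mm univ y (y p) := by
  unfold mm
  rw [Finset.mul_sum]
  refine Finset.sum_le_sum fun i _ => ?_
  rw [← Real.exp_add]
  apply Real.exp_le_exp.2
  have : |y p - y i| ≤ |z - y p| + |z - y i| := by
    have : y p - y i = (z - y i) - (z - y p) := by ring
    rw [this]
    have := abs_sub (z - y i) (z - y p)
    linarith
  linarith

theorem pair_lower [Nonempty Ω] (N : ℕ) (hN : 1 ≤ N) (y : Ω → ℝ) (z : ℝ) (p q : Ω)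
    (h : ⌊2 * (N : ℝ) * y q⌋ = ⌊2 * (N : ℝ) * y p⌋) :
    (2 / Real.pi * N) ^ 2 * Real.exp (-(1 / 2)) / mm univ y (y p) * Real.exp (-(3 * |z - y p|)) ≤
      Real.exp (-|z - y p|) * Real.exp (-|z - y q|) * ‖DK N (y p - y q)‖ ^ 2 / mm univ y z := by
  have hN0 : (0 : ℝ) < N := by exact_mod_cast hN
  have hN1 : (1 : ℝ) ≤ N := by exact_mod_cast hN
  have hd : |y p - y q| ≤ 1 / (2 * (N : ℝ)) := by
    have h1 := Int.abs_sub_lt_one_of_floor_eq_floor h
    rw [← mul_sub, abs_mul, abs_of_pos (by positivity), abs_sub_comm] at h1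
    rw [le_div_iff₀ (by positivity)]
    linarith
  have hd2 : |y p - y q| ≤ 1 / 2 := by
    refine hd.trans ?_
    rw [div_le_div_iff₀ (by positivity) (by norm_num)]
    linarith
  have hD := DK_lower N hN (y p - y q) hd
  have hpi := Real.pi_pos
  have hD2 : (2 / Real.pi * N) ^ 2 ≤ ‖DK N (y p - y q)‖ ^ 2 := by
    gcongr
  have hm := mm_pos y z
  have hmp := mm_pos y (y p)
  have hs := mm_shift y z p
  rw [le_div_iff₀ hm]
  calc (2 / Real.pi * N) ^ 2 * Real.exp (-(1 / 2)) / mm univ y (y p) * Real.exp (-(3 * |z - y p|))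
        * mm univ y z
      ≤ (2 / Real.pi * N) ^ 2 * Real.exp (-(1 / 2)) / mm univ y (y p) * Real.exp (-(3 * |z - y p|))
        * (Real.exp |z - y p| * mm univ y (y p)) := by gcongr
    _ = (2 / Real.pi * N) ^ 2 * (Real.exp (-(1 / 2)) * Real.exp (-(3 * |z - y p|))
        * Real.exp |z - y p|) := by
        field_simp
    _ = (2 / Real.pi * N) ^ 2 * (Real.exp (-|z - y p|) * Real.exp (-(|z - y p| + 1 / 2))) := by
        rw [← Real.exp_add, ← Real.exp_add, ← Real.exp_add]
        congr 2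
        ring
    _ ≤ ‖DK N (y p - y q)‖ ^ 2 * (Real.exp (-|z - y p|) * Real.exp (-|z - y q|)) := by
        have h3 : |z - y q| ≤ |z - y p| + 1 / 2 := by
          have : z - y q = (z - y p) + (y p - y q) := by ring
          rw [this]
          exact (abs_add_le _ _).trans (by linarith)
        have h4 : Real.exp (-(|z - y p| + 1 / 2)) ≤ Real.exp (-|z - y q|) :=
          Real.exp_le_exp.2 (by linarith)
        gcongr
    _ = _ := by ring

theorem energy_lower [Nonempty Ω] (N : ℕ) (hN : 1 ≤ N) (y : Ω → ℝ) :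
    (2 / Real.pi * N) ^ 2 * Real.exp (-(1 / 2)) * (2 / 3) *
      ∑ p, fib (fun p => ⌊2 * (N : ℝ) * y p⌋) p / mm univ y (y p) ≤
      ∑ j ∈ range N, ∑ k ∈ range N, Gam ((j : ℝ) - (k : ℝ)) univ y := by
  have hR : ∑ j ∈ range N, ∑ k ∈ range N, Gam ((j : ℝ) - (k : ℝ)) univ y =
      ∫ z, ∑ j ∈ range N, ∑ k ∈ range N, ‖MM ((j : ℝ) - (k : ℝ)) univ y z‖ ^ 2 / mm univ y z := by
    rw [integral_finsetSum]
    · refine Finset.sum_congr rfl fun j _ => ?_
      rw [integral_finsetSum]
      · rfl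
      · intro k _
        exact quot_integrable _ y
    · intro j _
      exact integrable_finsetSum _ fun k _ => quot_integrable _ y
  have hL : (2 / Real.pi * N) ^ 2 * Real.exp (-(1 / 2)) * (2 / 3) *
      ∑ p, fib (fun p => ⌊2 * (N : ℝ) * y p⌋) p / mm univ y (y p) =
      ∫ z, ∑ p, fib (fun p => ⌊2 * (N : ℝ) * y p⌋) p * ((2 / Real.pi * N) ^ 2 *
        Real.exp (-(1 / 2)) / mm univ y (y p) * Real.exp (-(3 * |z - y p|))) := by
    rw [integral_finsetSum]
    · rw [Finset.mul_sum]
      refine Finset.sum_congr rfl fun p _ => ?_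
      rw [integral_const_mul, integral_const_mul, integral_exp_abs (by norm_num)]
      ring
    · intro p _
      exact ((integrable_exp_abs (b := 3) (by norm_num) (y p)).const_mul _).const_mul _
  rw [hR, hL]
  apply integral_mono
  · apply integrable_finsetSum
    intro p _
    exact ((integrable_exp_abs (b := 3) (by norm_num) (y p)).const_mul _).const_mul _
  · apply integrable_finsetSum
    intro j _
    exact integrable_finsetSum _ fun k _ => quot_integrable _ y
  · intro z
    simp only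
    have h1 : ∑ j ∈ range N, ∑ k ∈ range N, ‖MM ((j : ℝ) - (k : ℝ)) univ y z‖ ^ 2 / mm univ y z =
        ∑ p, ∑ q, Real.exp (-|z - y p|) * Real.exp (-|z - y q|) * ‖DK N (y p - y q)‖ ^ 2
          / mm univ y z := by
      simp_rw [← Finset.sum_div]
      rw [double_sum]
    rw [h1]
    refine Finset.sum_le_sum fun p _ => ?_
    have hm := mm_pos y z
    calc fib (fun p => ⌊2 * (N : ℝ) * y p⌋) p * ((2 / Real.pi * N) ^ 2 *
        Real.exp (-(1 / 2)) / mm univ y (y p) * Real.exp (-(3 * |z - y p|)))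
        = ∑ q ∈ fiber (fun p => ⌊2 * (N : ℝ) * y p⌋) p, ((2 / Real.pi * N) ^ 2 *
        Real.exp (-(1 / 2)) / mm univ y (y p) * Real.exp (-(3 * |z - y p|))) := by
          rw [Finset.sum_const, nsmul_eq_mul]
          rfl
      _ ≤ ∑ q ∈ fiber (fun p => ⌊2 * (N : ℝ) * y p⌋) p,
          Real.exp (-|z - y p|) * Real.exp (-|z - y q|) * ‖DK N (y p - y q)‖ ^ 2 / mm univ y z := by
          refine Finset.sum_le_sum fun q hq => ?_
          rw [mem_fiber] at hq
          exact pair_lower N hN y z p q hq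
      _ ≤ ∑ q, Real.exp (-|z - y p|) * Real.exp (-|z - y q|) * ‖DK N (y p - y q)‖ ^ 2
            / mm univ y z := by
          refine Finset.sum_le_sum_of_subset_of_nonneg (Finset.subset_univ _) (fun q _ _ => ?_)
          positivity

/-! ### Jensen -/

theorem avg_log_le [Nonempty Ω] (x : Ω → ℝ) (hx : ∀ p, 0 < x p) (c : ℝ) (hc : avg x ≤ c) :
    avg (fun p => Real.log (x p)) ≤ Real.log c := by
  have hcard : (0 : ℝ) < Fintype.card Ω := by exact_mod_cast Fintype.card_pos
  have hpos : 0 < avg x := by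
    unfold avg
    exact div_pos (Finset.sum_pos (fun p _ => hx p) Finset.univ_nonempty) hcard
  have hc0 : 0 < c := lt_of_lt_of_le hpos hc
  have h1 : ∀ p, Real.log (x p) ≤ Real.log c - 1 + c⁻¹ * x p := by
    intro p
    have h := Real.log_le_sub_one_of_pos (div_pos (hx p) hc0)
    rw [Real.log_div (hx p).ne' hc0.ne'] at h
    have : x p / c = c⁻¹ * x p := by ring
    linarith
  calc avg (fun p => Real.log (x p)) ≤ avg (fun p => Real.log c - 1 + c⁻¹ * x p) := avg_mono h1
    _ = Real.log c - 1 + c⁻¹ * avg x := by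
        rw [avg_add, avg_const, avg_const_mul]
    _ ≤ Real.log c := by
        have : c⁻¹ * avg x ≤ 1 := by
          rw [inv_mul_le_iff₀ hc0]
          linarith
        linarith

/-! ### comparison of `m` with the unit cells -/

theorem geo_int (S : Finset ℤ) (a : ℤ) : ∑ i ∈ S, Real.exp (-|((i - a : ℤ) : ℝ)|) ≤ 4 := by
  have hex : Real.exp (-1) ≤ 1 / 2 := by
    rw [Real.exp_neg]
    rw [inv_le_comm₀ (Real.exp_pos 1) (by norm_num)]
    have := Real.add_one_le_exp (1 : ℝ)
    linarith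
  have hgeo : ∀ n : ℕ, Real.exp (-(n : ℝ)) ≤ (1 / 2) ^ n := by
    intro n
    have : Real.exp (-(n : ℝ)) = Real.exp (-1) ^ n := by
      rw [← Real.exp_nat_mul]
      congr 1
      ring
    rw [this]
    exact pow_le_pow_left₀ (Real.exp_pos _).le hex n
  have hS : Summable (fun n : ℕ => ((1 : ℝ) / 2) ^ n) := summable_geometric_two
  have hT : ∑' n : ℕ, ((1 : ℝ) / 2) ^ n = 2 := tsum_geometric_two
  have key : ∀ T : Finset ℤ, (∀ i ∈ T, ∀ j ∈ T, (i - a).natAbs = (j - a).natAbs → i = j) →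
      ∑ i ∈ T, Real.exp (-|((i - a : ℤ) : ℝ)|) ≤ 2 := by
    intro T hT'
    calc ∑ i ∈ T, Real.exp (-|((i - a : ℤ) : ℝ)|)
        ≤ ∑ i ∈ T, ((1 : ℝ) / 2) ^ ((i - a).natAbs) := by
          refine Finset.sum_le_sum fun i _ => ?_
          have : |((i - a : ℤ) : ℝ)| = (((i - a).natAbs : ℕ) : ℝ) := by
            rw [Nat.cast_natAbs]
            push_cast
            rfl
          rw [this]
          exact hgeo _
      _ = ∑ n ∈ T.image (fun i => (i - a).natAbs), ((1 : ℝ) / 2) ^ n := by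
          rw [Finset.sum_image]
          intro i hi j hj hij
          exact hT' i hi j hj hij
      _ ≤ ∑' n : ℕ, ((1 : ℝ) / 2) ^ n := hS.sum_le_tsum _ (fun n _ => by positivity)
      _ = 2 := hT
  rw [← Finset.sum_filter_add_sum_filter_not S (fun i => a ≤ i)]
  have h1 := key (S.filter (fun i => a ≤ i)) (by
    intro i hi j hj h
    have h1 := (Finset.mem_filter.1 hi).2
    have h2 := (Finset.mem_filter.1 hj).2
    omega)
  have h2 := key (S.filter (fun i => ¬ a ≤ i)) (by
    intro i hi j hj h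
    have h1 := (Finset.mem_filter.1 hi).2
    have h2 := (Finset.mem_filter.1 hj).2
    omega)
  linarith

theorem cell_sum [Nonempty Ω] (y : Ω → ℝ) (q : Ω) :
    ∑ p, Real.exp (-|y p - y q|) / fib (fun p => ⌊y p⌋) p ≤ 4 * Real.exp 1 := by
  classical
  have h1 : ∀ p, Real.exp (-|y p - y q|) / fib (fun p => ⌊y p⌋) p ≤
      Real.exp 1 * Real.exp (-|((⌊y p⌋ - ⌊y q⌋ : ℤ) : ℝ)|) / fib (fun p => ⌊y p⌋) p := by
    intro p
    have hf := fib_pos (fun p => ⌊y p⌋) p
    rw [← Real.exp_add]
    apply div_le_div_of_nonneg_right _ hf.le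
    apply Real.exp_le_exp.2
    have a1 := Int.floor_le (y p)
    have a2 := Int.lt_floor_add_one (y p)
    have a3 := Int.floor_le (y q)
    have a4 := Int.lt_floor_add_one (y q)
    push_cast
    have : |(⌊y p⌋ : ℝ) - ⌊y q⌋| ≤ |y p - y q| + 1 := by
      rw [abs_le]
      have b1 := neg_abs_le (y p - y q)
      have b2 := le_abs_self (y p - y q)
      constructor <;> linarith
    linarith
  refine (Finset.sum_le_sum fun p _ => h1 p).trans ?_
  have h2 : ∑ p, Real.exp 1 * Real.exp (-|((⌊y p⌋ - ⌊y q⌋ : ℤ) : ℝ)|) / fib (fun p => ⌊y p⌋) p =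
      Real.exp 1 * ∑ i ∈ univ.image (fun p => ⌊y p⌋), Real.exp (-|((i - ⌊y q⌋ : ℤ) : ℝ)|) := by
    rw [Finset.mul_sum]
    rw [← Finset.sum_fiberwise_of_maps_to (s := univ) (t := univ.image (fun p => ⌊y p⌋))
      (g := fun p => ⌊y p⌋) (fun x _ => Finset.mem_image_of_mem _ (Finset.mem_univ x))]
    refine Finset.sum_congr rfl fun i hi => ?_
    obtain ⟨p0, -, rfl⟩ := Finset.mem_image.1 hi
    have h3 : ∀ p ∈ univ.filter (fun p => ⌊y p⌋ = ⌊y p0⌋),
        Real.exp 1 * Real.exp (-|((⌊y p⌋ - ⌊y q⌋ : ℤ) : ℝ)|) / fib (fun p => ⌊y p⌋) p =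
        Real.exp 1 * Real.exp (-|((⌊y p0⌋ - ⌊y q⌋ : ℤ) : ℝ)|) / fib (fun p => ⌊y p⌋) p0 := by
      intro p hp
      have hp' := (Finset.mem_filter.1 hp).2
      rw [hp', fib_congr (fun p => ⌊y p⌋) (p := p) (q := p0) hp']
    rw [Finset.sum_congr rfl h3, Finset.sum_const, nsmul_eq_mul]
    have h4 : ((univ.filter (fun p => ⌊y p⌋ = ⌊y p0⌋)).card : ℝ) = fib (fun p => ⌊y p⌋) p0 := by
      unfold fib fiber
      congr 2
      ext r
      simp
    rw [h4]
    have := fib_pos (fun p => ⌊y p⌋) p0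
    field_simp
  rw [h2]
  have h5 := geo_int (univ.image (fun p => ⌊y p⌋)) ⌊y q⌋
  have := Real.exp_pos 1
  nlinarith

theorem avg_mm_le [Nonempty Ω] (y : Ω → ℝ) :
    avg (fun p => mm univ y (y p) / fib (fun p => ⌊y p⌋) p) ≤ 4 * Real.exp 1 := by
  have hcard : (0 : ℝ) < Fintype.card Ω := by exact_mod_cast Fintype.card_pos
  unfold avg
  rw [div_le_iff₀ hcard]
  have : ∑ p, mm univ y (y p) / fib (fun p => ⌊y p⌋) p =
      ∑ q, ∑ p, Real.exp (-|y p - y q|) / fib (fun p => ⌊y p⌋) p := by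
    rw [Finset.sum_comm]
    refine Finset.sum_congr rfl fun p _ => ?_
    unfold mm
    rw [Finset.sum_div]
  rw [this]
  refine (Finset.sum_le_sum fun q _ => cell_sum y q).trans ?_
  rw [Finset.sum_const, Finset.card_univ, nsmul_eq_mul, mul_comm]

end

end NF

open NF in
theorem t_N_fejer : N_fejer := by
  intro Ω _ _ y N hN
  have hN0 : (0 : ℝ) < N := by exact_mod_cast hN
  have hcard : (0 : ℝ) < Fintype.card Ω := by exact_mod_cast Fintype.card_pos
  have hpi := Real.pi_pos
  set s : ℝ := ∑ R ∈ Finset.Ico 1 N, GG (R : ℝ) (fun _ : Ω => ()) y with hs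
  -- GG for the trivial partition
  have hGG : ∀ R : ℝ, GG R (fun _ : Ω => ()) y = Gam R univ y / (2 * Fintype.card Ω) := by
    intro R
    have hf : ∀ p : Ω, fiber (fun _ : Ω => ()) p = univ := by
      intro p
      ext q
      simp [mem_fiber]
    have hfi : ∀ p : Ω, fib (fun _ : Ω => ()) p = Fintype.card Ω := by
      intro p
      unfold fib
      rw [hf p, Finset.card_univ]
    unfold GG
    have : avg (fun p : Ω => Gam R (fiber (fun _ : Ω => ()) p) y / fib (fun _ : Ω => ()) p) =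
        Gam R univ y / Fintype.card Ω := by
      rw [avg_congr (ψ := fun _ => Gam R univ y / Fintype.card Ω) (fun p => by rw [hf p, hfi p])]
      exact avg_const _
    rw [this]
    field_simp
  have hs0 : 0 ≤ s := by
    rw [hs]
    refine Finset.sum_nonneg fun R _ => ?_
    rw [hGG]
    have := Gam_nonneg (R : ℝ) y
    positivity
  have hsG : ∑ R ∈ Finset.Ico 1 N, Gam (R : ℝ) univ y = 2 * Fintype.card Ω * s := by
    rw [hs, Finset.mul_sum]
    refine Finset.sum_congr rfl fun R _ => ?_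
    rw [hGG]
    field_simp
  have hup := diff_sum N (fun R => Gam R univ y) (fun R => Gam_nonneg R y) (fun R => Gam_neg R y)
  rw [Gam_zero, hsG] at hup
  have hlow := energy_lower N hN y
  set T : ℝ := ∑ p, fib (fun p => ⌊2 * (N : ℝ) * y p⌋) p / mm univ y (y p) with hT
  -- first average
  have hA : avg (fun p => fib (fun p => ⌊2 * (N : ℝ) * y p⌋) p / mm univ y (y p)) ≤
      3 / 4 * Real.pi ^ 2 * Real.exp (1 / 2) * (1 + 2 * s) / N := by
    unfold avg
    rw [← hT, div_le_div_iff₀ hcard hN0]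
    have h1 : (2 / Real.pi * N) ^ 2 * Real.exp (-(1 / 2)) * (2 / 3) * T ≤
        N * (2 * (Fintype.card Ω : ℝ) + 2 * (2 * (Fintype.card Ω : ℝ) * s)) := hlow.trans hup
    have h2 : (2 / Real.pi * N) ^ 2 * Real.exp (-(1 / 2)) * (2 / 3) * T =
        (8 / 3 * N / (Real.pi ^ 2 * Real.exp (1 / 2))) * (T * N) := by
      rw [Real.exp_neg]
      field_simp
      ring
    rw [h2] at h1
    have h3 : 0 < Real.pi ^ 2 * Real.exp (1 / 2) := by positivity
    rw [div_mul_eq_mul_div, div_le_iff₀ h3] at h1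
    have h4 : (8 / 3 * (N : ℝ)) * (T * N) ≤
        (8 / 3 * (N : ℝ)) * (3 / 4 * Real.pi ^ 2 * Real.exp (1 / 2) * (1 + 2 * s)
          * Fintype.card Ω) := by
      refine h1.trans (le_of_eq ?_)
      ring
    exact le_of_mul_le_mul_left h4 (by positivity)
  have hB := avg_mm_le y
  have hmp : ∀ p, 0 < mm univ y (y p) := fun p => mm_pos y _
  have hJ1 := avg_log_le (fun p => fib (fun p => ⌊2 * (N : ℝ) * y p⌋) p / mm univ y (y p))
    (fun p => div_pos (fib_pos _ _) (hmp p)) _ hA
  have hJ2 := avg_log_le (fun p => mm univ y (y p) / fib (fun p => ⌊y p⌋) p)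
    (fun p => div_pos (hmp p) (fib_pos _ _)) _ hB
  have e1 : avg (fun p => Real.log (fib (fun p => ⌊2 * (N : ℝ) * y p⌋) p / mm univ y (y p))) =
      HR (fun p => ⌊2 * (N : ℝ) * y p⌋) - avg (fun p => Real.log (mm univ y (y p))) := by
    unfold HR
    rw [← avg_sub]
    exact avg_congr fun p => Real.log_div (fib_pos _ _).ne' (hmp p).ne'
  have e2 : avg (fun p => Real.log (mm univ y (y p) / fib (fun p => ⌊y p⌋) p)) =
      avg (fun p => Real.log (mm univ y (y p))) - HR (fun p => ⌊y p⌋) := by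
    unfold HR
    rw [← avg_sub]
    exact avg_congr fun p => Real.log_div (hmp p).ne' (fib_pos _ _).ne'
  rw [e1] at hJ1
  rw [e2] at hJ2
  -- the constants
  have h12 : 0 < 1 + 2 * s := by linarith
  have hl1 : Real.log (3 / 4 * Real.pi ^ 2 * Real.exp (1 / 2) * (1 + 2 * s) / N) =
      Real.log (3 / 4 * Real.pi ^ 2) + 1 / 2 + Real.log (1 + 2 * s) - Real.log N := by
    rw [Real.log_div (by positivity) hN0.ne', Real.log_mul (by positivity) h12.ne',
      Real.log_mul (by positivity) (by positivity), Real.log_exp]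
  have hl2 : Real.log (4 * Real.exp 1) = Real.log 4 + 1 := by
    rw [Real.log_mul (by norm_num) (by positivity), Real.log_exp]
  rw [hl1] at hJ1
  rw [hl2] at hJ2
  have hc1 : Real.log (3 / 4 * Real.pi ^ 2) + Real.log 4 ≤ 4 := by
    rw [← Real.log_mul (by positivity) (by norm_num)]
    rw [Real.log_le_iff_le_exp (by positivity)]
    have h3 : Real.pi < 3.15 := Real.pi_lt_d2
    have h4 : (2.7 : ℝ) < Real.exp 1 := by
      have := Real.exp_one_gt_d9
      linarith
    have h5 : Real.exp 4 = Real.exp 1 ^ 4 := by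
      rw [← Real.exp_nat_mul]
      norm_num
    rw [h5]
    have h6 : (2.7 : ℝ) ^ 4 ≤ Real.exp 1 ^ 4 := by gcongr
    have h7 : Real.pi ^ 2 ≤ 3.15 ^ 2 := by gcongr
    nlinarith
  linarith

end H517.EO
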