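import Pool.Agent.H517R2.EO.Basic

/-!
# Task N2 : entropy rate below `log (1/lam)` gives a non-flat frequency (helper215)
-/

set_option autoImplicit false

open Finset

namespace H517.EO

namespace TN2

theorem fib_prod_snd {U V β : Type} [Fintype U] [Fintype V] (F : U → V → β) (u : U) (v : V) :
    fib (fun x : U × V => (F x.1 x.2, x.2)) (u, v) = fib (fun u => F u v) u := by
  classical
  unfold fib fiber
  congr 1
  symm
  apply Finset.card_bij (fun q _ => (q, v))
  · intro q hq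
    simpa using hq
  · intro a _ b _ h
    simpa using h
  · rintro ⟨a, b⟩ h
    simp only [Finset.mem_filter, Finset.mem_univ, true_and, Prod.mk.injEq] at h
    obtain ⟨h1, rfl⟩ := h
    exact ⟨a, by simpa using h1, rfl⟩

theorem HR_prod_snd {U V β : Type} [Fintype U] [Fintype V] (F : U → V → β) :
    HR (fun x : U × V => (F x.1 x.2, x.2)) = avg (fun v => HR (fun u => F u v)) := by
  unfold HR
  rw [← avg_equiv (Equiv.prodComm V U), avg_prod]
  apply avg_congr
  intro v
  apply avg_congr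
  intro u
  have : (Equiv.prodComm V U) (v, u) = (u, v) := rfl
  rw [this, fib_prod_snd]

theorem grid' (hG : E_grid) {Ω : Type} [Fintype Ω] (x : Ω → ℝ) (w w' s s' B : ℝ)
    (h1 : 0 < w) (h2 : 0 < w') (h3 : 0 ≤ B) (h4 : w ≤ B * w') :
    HR (fun p => ⌊x p / w + s⌋) ≤ HR (fun p => ⌊x p / w' + s'⌋) + Real.log (B + 2) := by
  have h := hG Ω Unit (fun _ => ()) x w w' s s' B h1 h2 h3 h4
  have e1 : HR (fun p : Ω => (((), ⌊x p / w + s⌋) : Unit × ℤ)) = HR (fun p => ⌊x p / w + s⌋) :=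
    HR_congr fun p q => by simp
  have e2 : HR (fun p : Ω => (((), ⌊x p / w' + s'⌋) : Unit × ℤ)) =
      HR (fun p => ⌊x p / w' + s'⌋) :=
    HR_congr fun p q => by simp
  rw [e1, e2] at h
  exact h

theorem aa_anti (hL : L_leak) (A : Type) [Fintype A] [Nonempty A] (lam : ℝ) (t : A → ℝ)
    (τ : A → A → PowerSeries ℤ) (h0 : 0 < lam) (h1 : lam < 1) (R : ℕ) (hR : 1 ≤ R) :
    Antitone (aa lam t τ (R : ℝ)) := by
  apply antitone_nat_of_succ_le
  intro n
  have hR' : (1 : ℝ) ≤ (R : ℝ) := by exact_mod_cast hR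
  have h := hL A lam t τ (R : ℝ) h0 h1 hR' 1 (n + 1) (by omega) (Fin 1 → A) (fun p => p) (by
    intro p q hpq
    have hpq' : p = q := hpq
    subst hpq'
    refine ⟨rfl, ?_⟩
    rw [sub_self, abs_zero]
    positivity)
  have hz : avg (fun p : Fin 1 → A =>
      (∑ q ∈ fiber (fun p : Fin 1 → A => p) p,
        ((R : ℝ) * (XX lam t p - XX lam t q) / lam ^ (n + 1)) ^ 2) /
          fib (fun p : Fin 1 → A => p) p) = 0 := by
    rw [← avg_const (Ω := Fin 1 → A) (0 : ℝ)]
    apply avg_congr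
    intro p
    rw [Finset.sum_eq_zero, zero_div]
    intro q hq
    rw [mem_fiber] at hq
    have hq' : q = p := hq
    rw [hq', sub_self, mul_zero, zero_div]
    norm_num
  rw [hz, mul_zero] at h
  have h2 : n + 1 - 1 = n := by omega
  rw [h2] at h
  linarith

/-- the constant -/
noncomputable def K0 : ℝ := Real.log 3 + Real.log 6 + Real.log 11 + 6

theorem step (hF : N_fejer) (hM : L_mono) (hG : E_grid) (hC : E_card)
    (A : Type) [Fintype A] [Nonempty A] (lam : ℝ) (t : A → ℝ) (h0 : 0 < lam) (h1 : lam < 1)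
    (n j N : ℕ) (hN1 : 1 ≤ N) (hN2 : 2 * (N : ℝ) * lam ^ j ≤ 4) (hN3 : (1 / lam) ^ j ≤ (N : ℝ))
    (hs : ∑ R ∈ Finset.Ico 1 N, aa lam t (fun _ _ => 0) (R : ℝ) n ≤ 5) :
    HR (fun p : Fin (n + j) → A => ⌊XX lam t p / lam ^ (n + j)⌋) ≤
      HR (fun p : Fin n → A => ⌊XX lam t p / lam ^ n⌋) +
        j * (Real.log (Fintype.card A) - Real.log (1 / lam)) + K0 := by
  classical
  have hln : 0 < lam ^ n := pow_pos h0 n
  have hlj : 0 < lam ^ j := pow_pos h0 j
  have hlnj : 0 < lam ^ (n + j) := pow_pos h0 _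
  have hm : 0 < Fintype.card A := Fintype.card_pos
  have hNr : (1 : ℝ) ≤ (N : ℝ) := by exact_mod_cast hN1
  have hN0 : (0 : ℝ) < (N : ℝ) := by linarith
  -- Fejer
  have f1 := hF (Fin n → A) (fun p => XX lam t p / lam ^ n) N hN1
  have f2 : ∑ R ∈ Finset.Ico 1 N, GG (R : ℝ) (fun _ : Fin n → A => ())
      (fun p => XX lam t p / lam ^ n) ≤ 5 := by
    refine le_trans (Finset.sum_le_sum fun R _ => ?_) hs
    unfold aa
    exact (hM (Fin n → A) Unit (A → ℕ → ℤ) (R : ℝ) (fun _ => ())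
      (fun p : Fin n → A => YM (fun _ _ => 0) n p) (fun p => XX lam t p / lam ^ n)
      (fun _ _ _ => rfl)).2.1
  have f2' : 0 ≤ ∑ R ∈ Finset.Ico 1 N, GG (R : ℝ) (fun _ : Fin n → A => ())
      (fun p => XX lam t p / lam ^ n) := by
    apply Finset.sum_nonneg
    intro R _
    exact (hM (Fin n → A) Unit Unit (R : ℝ) (fun _ => ())
      (fun _ => ()) (fun p => XX lam t p / lam ^ n)
      (fun _ _ _ => rfl)).1
  have f3 : Real.log (1 + 2 * ∑ R ∈ Finset.Ico 1 N, GG (R : ℝ) (fun _ : Fin n → A => ())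
      (fun p => XX lam t p / lam ^ n)) ≤ Real.log 11 := by
    apply Real.log_le_log (by linarith)
    linarith
  have f4 : (j : ℝ) * Real.log (1 / lam) ≤ Real.log N := by
    rw [← Real.log_pow]
    exact Real.log_le_log (by positivity) hN3
  -- refinement of the grid
  have g1 := grid' hG (fun p : Fin n → A => XX lam t p) (lam ^ (n + j)) (lam ^ n / (2 * N)) 0 0 4
    hlnj (by positivity) (by norm_num) (by
      rw [pow_add]
      have : 4 * (lam ^ n / (2 * (N : ℝ))) = lam ^ n * (4 / (2 * (N : ℝ))) := by ring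
      rw [this]
      apply mul_le_mul_of_nonneg_left _ hln.le
      rw [le_div_iff₀ (by positivity)]
      linarith)
  have g2 : HR (fun p : Fin n → A => ⌊XX lam t p / (lam ^ n / (2 * (N : ℝ))) + 0⌋) =
      HR (fun p : Fin n → A => ⌊2 * (N : ℝ) * (XX lam t p / lam ^ n)⌋) := by
    congr 1
    funext p
    congr 1
    field_simp
    ring
  rw [g2] at g1
  -- conditioning on the last letters
  rw [HR_append]
  have c1 := hC ((Fin n → A) × (Fin j → A)) ℤ (Fin j → A)
    (fun x => ⌊XX lam t (Fin.append x.1 x.2) / lam ^ (n + j)⌋) (fun x => x.2)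
    ((Fintype.card A : ℝ) ^ j) (one_le_pow₀ (by exact_mod_cast hm)) (by
      intro p
      have h : ((fiber (fun x : (Fin n → A) × (Fin j → A) =>
          ⌊XX lam t (Fin.append x.1 x.2) / lam ^ (n + j)⌋) p : Set ((Fin n → A) × (Fin j → A))).image
            (fun x => x.2)).ncard ≤ (Set.univ : Set (Fin j → A)).ncard :=
        Set.ncard_le_ncard (Set.subset_univ _)
      rw [Set.ncard_univ, Nat.card_eq_fintype_card, Fintype.card_fun, Fintype.card_fin] at h
      exact_mod_cast h)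
  have c2 := HR_prod_snd (fun (u : Fin n → A) (v : Fin j → A) =>
    ⌊XX lam t (Fin.append u v) / lam ^ (n + j)⌋)
  have c3 : avg (fun v : Fin j → A => HR (fun u : Fin n → A =>
      ⌊XX lam t (Fin.append u v) / lam ^ (n + j)⌋)) ≤
      HR (fun p : Fin n → A => ⌊XX lam t p / lam ^ (n + j) + 0⌋) + Real.log (1 + 2) := by
    apply avg_le_of_le
    intro v
    have g3 := grid' hG (fun p : Fin n → A => XX lam t p) (lam ^ (n + j)) (lam ^ (n + j))
      (XX lam t v / lam ^ j) 0 1 hlnj hlnj (by norm_num) (by linarith)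
    refine le_trans (le_of_eq ?_) g3
    congr 1
    funext u
    congr 1
    rw [XX_append, pow_add]
    field_simp
  rw [c2] at c1
  rw [Real.log_pow] at c1
  norm_num at c3 g1
  unfold K0
  have e1 : (j : ℝ) * (Real.log (Fintype.card A) - Real.log (1 / lam)) =
    j * Real.log (Fintype.card A) - j * Real.log (1 / lam) := by ring
  rw [e1]
  linarith

theorem inv_sq_sum (N : ℕ) : ∑ R ∈ Finset.Ico 1 N, 5 / (2 * (R : ℝ) ^ 2) ≤ 5 := by
  have h := sum_Ioo_inv_sq_le (α := ℝ) 0 N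
  have e : Finset.Ioo 0 N = Finset.Ico 1 N := by
    ext x
    simp only [Finset.mem_Ioo, Finset.mem_Ico]
    omega
  rw [e] at h
  have e2 : ∑ R ∈ Finset.Ico 1 N, 5 / (2 * (R : ℝ) ^ 2) =
      5 / 2 * ∑ R ∈ Finset.Ico 1 N, ((R : ℝ) ^ 2)⁻¹ := by
    rw [Finset.mul_sum]
    refine Finset.sum_congr rfl fun R _ => ?_
    rw [div_mul_eq_div_div, div_eq_mul_inv (5 / 2 : ℝ)]
  rw [e2]
  norm_num at h
  linarith

end TN2

open TN2 in
theorem t_N_nonflat (hF : N_fejer) (hL : L_leak) (hM : L_mono) (hG : E_grid) (hC : E_card) :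
    N_nonflat := by
  intro A _ _ lam t h0 h1 hyp
  obtain ⟨ε, hε, C, hlow⟩ := hyp
  by_contra hcon
  push Not at hcon
  -- for every frequency a level
  have hex : ∀ R : ℕ, ∃ n : ℕ, 1 ≤ R → aa lam t (fun _ _ => 0) (R : ℝ) n < 5 / (2 * (R : ℝ) ^ 2) := by
    intro R
    by_cases hR : 1 ≤ R
    · have hR' : (0 : ℝ) < (R : ℝ) := by exact_mod_cast hR
      obtain ⟨n, hn⟩ := hcon R hR (5 / (2 * (R : ℝ) ^ 2)) (by
        apply div_lt_div_of_pos_right (by norm_num) (by positivity))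
      exact ⟨n, fun _ => hn⟩
    · exact ⟨0, fun h => absurd h hR⟩
  choose f hf using hex
  -- the step length
  obtain ⟨j, hj⟩ := exists_nat_gt ((K0 + 1) / ε)
  have hj' : K0 + 1 ≤ j * ε := by
    rw [div_lt_iff₀ hε] at hj
    exact hj.le
  set N : ℕ := ⌈(1 / lam) ^ j⌉₊ with hN
  have hlj : 0 < lam ^ j := pow_pos h0 j
  have hinv : (1 / lam) ^ j = 1 / lam ^ j := by rw [one_div_pow]
  have hN3 : (1 / lam) ^ j ≤ (N : ℝ) := Nat.le_ceil _
  have hN1 : 1 ≤ N := by
    have : (0 : ℝ) < N := lt_of_lt_of_le (by positivity) hN3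
    exact_mod_cast this
  have hN2 : 2 * (N : ℝ) * lam ^ j ≤ 4 := by
    have h2 : (N : ℝ) < (1 / lam) ^ j + 1 := Nat.ceil_lt_add_one (by positivity)
    have h3 : (N : ℝ) * lam ^ j ≤ ((1 / lam) ^ j + 1) * lam ^ j :=
      mul_le_mul_of_nonneg_right h2.le hlj.le
    have h4 : ((1 / lam) ^ j + 1) * lam ^ j = 1 + lam ^ j := by
      rw [hinv]
      field_simp
    have h5 : lam ^ j ≤ 1 := pow_le_one₀ h0.le h1.le
    linarith
  -- the starting level
  obtain ⟨n0, hn0⟩ : ∃ n0 : ℕ, ∀ R ∈ Finset.Ico 1 N, f R ≤ n0 :=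
    ⟨(Finset.Ico 1 N).sup f, fun R hR => Finset.le_sup hR⟩
  have hsum : ∀ n : ℕ, n0 ≤ n → ∑ R ∈ Finset.Ico 1 N, aa lam t (fun _ _ => 0) (R : ℝ) n ≤ 5 := by
    intro n hn
    refine le_trans (Finset.sum_le_sum fun R hR => ?_) (inv_sq_sum N)
    have hR1 : 1 ≤ R := (Finset.mem_Ico.1 hR).1
    have ha := aa_anti hL A lam t (fun _ _ => 0) h0 h1 R hR1
    exact le_trans (ha ((hn0 R hR).trans hn)) (hf R hR1).le
  have hiter : ∀ i : ℕ, HR (fun p : Fin (n0 + i * j) → A => ⌊XX lam t p / lam ^ (n0 + i * j)⌋) ≤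
      HR (fun p : Fin n0 → A => ⌊XX lam t p / lam ^ n0⌋) +
        i * (j * (Real.log (Fintype.card A) - Real.log (1 / lam)) + K0) := by
    intro i
    induction i with
    | zero =>
      have e : n0 + 0 * j = n0 := by omega
      rw [e]
      simp
    | succ i ih =>
      have e : n0 + (i + 1) * j = (n0 + i * j) + j := by ring
      rw [e]
      have := step hF hM hG hC A lam t h0 h1 (n0 + i * j) j N hN1 hN2 hN3
        (hsum _ (Nat.le_add_right _ _))
      push_cast
      linarith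
  -- contradiction
  set H0 := HR (fun p : Fin n0 → A => ⌊XX lam t p / lam ^ n0⌋) with hH0
  set D := Real.log (Fintype.card A) - Real.log (1 / lam) with hD
  obtain ⟨i, hi⟩ := exists_nat_gt (H0 + C - n0 * (D + ε))
  have a1 := hiter i
  have a2 := hlow (n0 + i * j)
  push_cast at a2
  have a3 : ((n0 : ℝ) + i * j) * (D + ε) - C ≤ H0 + i * (j * D + K0) := by
    have : Real.log (Fintype.card A) - Real.log (1 / lam) + ε = D + ε := by rw [hD]
    rw [this] at a2
    linarith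
  have a4 : (i : ℝ) * (j * ε - K0) ≤ H0 + C - n0 * (D + ε) := by nlinarith
  have a5 : (i : ℝ) * 1 ≤ (i : ℝ) * (j * ε - K0) :=
    mul_le_mul_of_nonneg_left (by linarith) (Nat.cast_nonneg i)
  linarith

end H517.EO
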