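import Pool.Agent.H517R2.EO.Basic

/-! TEAM EO, task P1 (helper930): near-flat scales exist. -/

set_option autoImplicit false

open Finset Filter MeasureTheory

namespace H517.EO

namespace P1

/-- telescoping of shifted differences -/
theorem shift_sum (a : ℕ → ℝ) (ha : Antitone a) (k m : ℕ) :
    ∑ n ∈ Finset.Icc (2 * k) (2 * k + m), (a (n - k) - a n) ≤
      ∑ j ∈ Finset.range k, (a (k + j) - a (k + m + 1 + j)) := by
  induction m with
  | zero =>
    rw [add_zero, Finset.Icc_self, Finset.sum_singleton]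
    have h1 : ∀ j ∈ Finset.range k, a (k + j) - a (k + 0 + 1 + j) =
        a (k + j) - a (k + (j + 1)) := by
      intro j _
      congr 2
      omega
    rw [Finset.sum_congr rfl h1, Finset.sum_range_sub' (fun j => a (k + j))]
    have h2 : 2 * k - k = k + 0 := by omega
    have h3 : 2 * k = k + k := by omega
    rw [h2, h3]
  | succ m ih =>
    have h1 : Finset.Icc (2 * k) (2 * k + (m + 1)) =
        insert (2 * k + (m + 1)) (Finset.Icc (2 * k) (2 * k + m)) := by
      ext x
      rw [mem_insert, mem_Icc, mem_Icc]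
      omega
    rw [h1, Finset.sum_insert (by rw [mem_Icc]; omega)]
    have h2 : ∑ j ∈ Finset.range k, (a (k + j) - a (k + (m + 1) + 1 + j)) =
        ∑ j ∈ Finset.range k, (a (k + j) - a (k + m + 1 + j)) +
        ∑ j ∈ Finset.range k, (a (k + m + 1 + j) - a (k + m + 1 + (j + 1))) := by
      rw [← Finset.sum_add_distrib]
      refine Finset.sum_congr rfl fun j _ => ?_
      have h3 : k + (m + 1) + 1 + j = k + m + 1 + (j + 1) := by omega
      rw [h3]
      ring
    rw [h2, Finset.sum_range_sub' (fun j => a (k + m + 1 + j))]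
    have h4 : 2 * k + (m + 1) - k = k + m + 1 + 0 := by omega
    have h5 : 2 * k + (m + 1) = k + m + 1 + k := by omega
    rw [h4, h5]
    linarith

/-- the sum over a long range of scales -/
theorem long_sum (a : ℕ → ℝ) (ha : Antitone a) (k N : ℕ) (hN : 2 * k ≤ N) :
    ∑ n ∈ Finset.Icc (2 * k) N, (a (n - k) - a n) ≤ k * (a k - a N) := by
  obtain ⟨m, rfl⟩ := Nat.exists_eq_add_of_le hN
  refine (shift_sum a ha k m).trans ?_
  calc ∑ j ∈ Finset.range k, (a (k + j) - a (k + m + 1 + j))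
      ≤ ∑ j ∈ Finset.range k, (a k - a (2 * k + m)) := by
        apply Finset.sum_le_sum
        intro j hj
        rw [mem_range] at hj
        have h1 := ha (show k ≤ k + j by omega)
        have h2 := ha (show k + m + 1 + j ≤ 2 * k + m by omega)
        linarith
    _ = k * (a k - a (2 * k + m)) := by
        rw [Finset.sum_const, card_range, nsmul_eq_mul]

/-- the first range: `k ≤ n ≤ 2 k` -/
theorem short_sum (a : ℕ → ℝ) (ha : Antitone a) (hb : ∀ n, 0 ≤ a n ∧ a n ≤ 1) (η : ℝ)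
    (hη : 0 < η) : ∃ J : ℕ, ∀ k : ℕ,
    ∑ n ∈ Finset.Icc k (2 * k), (a (n - k) - a n) ≤ J + η * (k + 1) := by
  have hbdd : BddBelow (Set.range a) := ⟨0, by rintro _ ⟨n, rfl⟩; exact (hb n).1⟩
  obtain ⟨J, hJ⟩ : ∃ J, a J < (⨅ i, a i) + η := exists_lt_of_ciInf_lt (by linarith)
  refine ⟨J, fun k => ?_⟩
  have h1 : ∑ n ∈ Finset.Icc k (2 * k), (a (n - k) - a n) =
      ∑ j ∈ Finset.range (k + 1), (a j - a (j + k)) := by
    have h0 : Finset.Icc k (2 * k) = Finset.Ico k (2 * k + 1) := by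
      ext x
      rw [mem_Icc, mem_Ico]
      omega
    rw [h0, Finset.sum_Ico_eq_sum_range]
    have h2 : 2 * k + 1 - k = k + 1 := by omega
    rw [h2]
    refine Finset.sum_congr rfl fun j _ => ?_
    have h3 : k + j - k = j := by omega
    rw [h3, add_comm k j]
  rw [h1]
  have h4 : ∀ j ∈ Finset.range (k + 1), a j - a (j + k) ≤ (if j < J then 1 else 0) + η := by
    intro j _
    by_cases hj : j < J
    · rw [if_pos hj]
      have := (hb j).2
      have := (hb (j + k)).1
      linarith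
    · rw [if_neg hj]
      have h5 := ha (not_lt.1 hj)
      have h6 := ciInf_le hbdd (j + k)
      linarith
  refine (Finset.sum_le_sum h4).trans ?_
  rw [Finset.sum_add_distrib, Finset.sum_const, card_range, nsmul_eq_mul, Finset.sum_boole]
  have h7 : ((Finset.range (k + 1)).filter (· < J)).card ≤ J := by
    calc ((Finset.range (k + 1)).filter (· < J)).card ≤ (Finset.range J).card :=
          Finset.card_le_card fun x hx => by
            rw [mem_filter] at hx
            exact mem_range.2 hx.2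
      _ = J := card_range J
  have h8 : (((Finset.range (k + 1)).filter (· < J)).card : ℝ) ≤ J := by exact_mod_cast h7
  push_cast
  linarith

end P1

theorem t_P_near : P_near := by
  intro a H C1 c0 ha hb hC1 hc0 hH hD g0
  obtain ⟨k0, hk0⟩ := hH
  have hC0 : 0 < C1 := by linarith
  -- step (i)
  obtain ⟨k1, hk1⟩ : ∃ k1 : ℕ, ∀ k : ℕ, k1 ≤ k → 7 / 8 * c0 * k ≤ H k (2 * k) := by
    obtain ⟨M0, hM0⟩ : ∃ M0 : ℝ, M0 = 16 * C1 / c0 + 2 := ⟨_, rfl⟩
    have hM2 : 2 ≤ M0 := by
      rw [hM0]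
      have : 0 ≤ 16 * C1 / c0 := by positivity
      linarith
    have hlog : 0 < Real.log M0 := Real.log_pos (by linarith)
    obtain ⟨η, hη⟩ : ∃ η : ℝ, η = c0 / (64 * C1 * Real.log M0) := ⟨_, rfl⟩
    have hη0 : 0 < η := by rw [hη]; positivity
    obtain ⟨J, hJ⟩ := P1.short_sum a ha hb η hη0
    obtain ⟨k2, hk2⟩ := exists_nat_ge ((1 + J + η) / η)
    refine ⟨max (max k0 k2) 1, fun k hk => ?_⟩
    have hk0' : k0 ≤ k := le_trans (le_trans (le_max_left _ _) (le_max_left _ _)) hk
    have hk2' : k2 ≤ k := le_trans (le_trans (le_max_right _ _) (le_max_left _ _)) hk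
    have hk1' : 1 ≤ k := le_trans (le_max_right _ _) hk
    have h1 := hk0 k hk0'
    have h2 := hD k hk1' k (2 * k) le_rfl (by omega) M0 hM2
    have h3 := hJ k
    have hkr : (1 : ℝ) ≤ k := by exact_mod_cast hk1'
    have h4 : (1 + J + η) ≤ η * k := by
      have h5 : (1 + J + η) / η ≤ k := hk2.trans (by exact_mod_cast hk2')
      rw [div_le_iff₀ hη0] at h5
      linarith
    have h5 : 1 + ∑ n ∈ Finset.Icc k (2 * k), (a (n - k) - a n) ≤ 2 * η * k := by linarith
    have h6 : C1 * (1 + ∑ n ∈ Finset.Icc k (2 * k), (a (n - k) - a n)) * Real.log M0 ≤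
        c0 / 16 * k := by
      calc C1 * (1 + ∑ n ∈ Finset.Icc k (2 * k), (a (n - k) - a n)) * Real.log M0
          ≤ C1 * (2 * η * k) * Real.log M0 := by gcongr
        _ = c0 / 32 * k := by
            rw [hη]
            field_simp
            norm_num
        _ ≤ c0 / 16 * k := by nlinarith
    have h7 : C1 * (((2 * k : ℕ) : ℝ) - k) / M0 ≤ c0 / 16 * k := by
      rw [div_le_iff₀ (by linarith)]
      push_cast
      have h8 : c0 / 16 * k * M0 = C1 * k + c0 / 8 * k := by
        rw [hM0]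
        field_simp
        ring
      rw [h8]
      nlinarith
    linarith
  -- step (ii)
  obtain ⟨c', hc'⟩ : ∃ c' : ℝ, c' = c0 / (16 * C1) := ⟨_, rfl⟩
  have hc'0 : 0 < c' := by rw [hc']; positivity
  obtain ⟨g1, hg1⟩ : ∃ g1 : ℕ, ∀ g : ℕ, g1 ≤ g → 4 ≤ g ∧ k1 ≤ g ∧
      Real.log (16 * C1 * 8 ^ g / c0 + 2) ≤ 4 * g ∧ 4 * (g : ℝ) / c' ≤ 2 ^ (g ^ 3) := by
    obtain ⟨b1, hb1⟩ := exists_nat_ge (16 * C1 / c0 + 2)
    obtain ⟨b2, hb2⟩ := exists_nat_ge (4 / c')
    refine ⟨max (max 4 k1) (max b1 b2), fun g hg => ?_⟩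
    have g4 : 4 ≤ g := le_trans (le_trans (le_max_left _ _) (le_max_left _ _)) hg
    have gk : k1 ≤ g := le_trans (le_trans (le_max_right _ _) (le_max_left _ _)) hg
    have gb1 : b1 ≤ g := le_trans (le_trans (le_max_left _ _) (le_max_right _ _)) hg
    have gb2 : b2 ≤ g := le_trans (le_trans (le_max_right _ _) (le_max_right _ _)) hg
    refine ⟨g4, gk, ?_, ?_⟩
    · have h8 : (1 : ℝ) ≤ 8 ^ g := one_le_pow₀ (by norm_num)
      have hx : 0 ≤ 16 * C1 / c0 := by positivity
      have h1 : 16 * C1 * 8 ^ g / c0 + 2 ≤ g * 8 ^ g := by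
        have h2 : 16 * C1 / c0 + 2 ≤ g := hb1.trans (by exact_mod_cast gb1)
        calc 16 * C1 * 8 ^ g / c0 + 2 = (16 * C1 / c0) * 8 ^ g + 2 := by ring
          _ ≤ (16 * C1 / c0) * 8 ^ g + 2 * 8 ^ g := by linarith
          _ = (16 * C1 / c0 + 2) * 8 ^ g := by ring
          _ ≤ g * 8 ^ g := mul_le_mul_of_nonneg_right h2 (by positivity)
      have hg0 : (0 : ℝ) < g := by
        have : 0 < g := by omega
        exact_mod_cast this
      have h3 : Real.log (16 * C1 * 8 ^ g / c0 + 2) ≤ Real.log (g * 8 ^ g) :=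
        Real.log_le_log (by positivity) h1
      rw [Real.log_mul hg0.ne' (by positivity), Real.log_pow] at h3
      have h4 : Real.log g ≤ g := by
        have := Real.log_le_sub_one_of_pos hg0
        linarith
      have h5 : Real.log 8 ≤ 3 := by
        have h6 : Real.log 8 = 3 * Real.log 2 := by
          rw [show (8 : ℝ) = 2 ^ 3 by norm_num, Real.log_pow]
          norm_num
        have := Real.log_two_lt_d9
        rw [h6]
        linarith
      nlinarith
    · have h1 : 4 / c' ≤ g := hb2.trans (by exact_mod_cast gb2)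
      have h2 : 4 * (g : ℝ) / c' ≤ g * g := by
        calc 4 * (g : ℝ) / c' = 4 / c' * g := by ring
          _ ≤ g * g := mul_le_mul_of_nonneg_right h1 (by positivity)
      refine h2.trans ?_
      have h3 : g * g ≤ 2 ^ (g ^ 3) := by
        have h4 : g * g ≤ g ^ 3 := by
          calc g * g = g ^ 2 := by ring
            _ ≤ g ^ 3 := Nat.pow_le_pow_right (by omega) (by norm_num)
        exact h4.trans (Nat.lt_two_pow_self).le
      exact_mod_cast h3
  by_contra hcon
  push Not at hcon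
  have hstep : ∀ g : ℕ, g0 ≤ g → g1 ≤ g → ∀ K : ℕ, 2 ^ (g ^ 3) ≤ K → K ≤ 2 ^ ((g + 1) ^ 3) →
      c' / g ≤ a K - a (K * 16 ^ g) := by
    intro g hg hg' K hK1 hK2
    obtain ⟨g4, gk, glog, gpow⟩ := hg1 g hg'
    obtain ⟨k, hkK, hkK2, hlt⟩ := hcon g hg K hK1 hK2
    have hg0 : (0 : ℝ) < g := by
      have : 0 < g := by omega
      exact_mod_cast this
    have h2g : g ≤ 2 ^ (g ^ 3) := by
      have h4 : g ≤ g ^ 3 := Nat.le_self_pow (by norm_num) g
      exact h4.trans (Nat.lt_two_pow_self).le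
    have hk1' : k1 ≤ k := gk.trans (h2g.trans (hK1.trans hkK))
    have hkp : 1 ≤ k := by
      have : 1 ≤ g := by omega
      exact this.trans (h2g.trans (hK1.trans hkK))
    have hkr : (1 : ℝ) ≤ k := by exact_mod_cast hkp
    have hkpow : (2 : ℝ) ^ (g ^ 3) ≤ k := by
      have : 2 ^ (g ^ 3) ≤ k := hK1.trans hkK
      exact_mod_cast this
    have h1 := hk1 k hk1'
    have h8 : 2 ≤ 8 ^ g := by
      calc 2 ≤ 8 ^ 1 := by norm_num
        _ ≤ 8 ^ g := Nat.pow_le_pow_right (by norm_num) (by omega)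
    have h2k : 2 * k ≤ k * 8 ^ g := by nlinarith
    have hM2 : 2 ≤ 16 * C1 * 8 ^ g / c0 + 2 := by
      have : 0 ≤ 16 * C1 * 8 ^ g / c0 := by positivity
      linarith
    have h2 := hD k hkp (2 * k) (k * 8 ^ g) (by omega) h2k _ hM2
    have h3 := P1.long_sum a ha k (k * 8 ^ g) h2k
    have hlog0 : 0 ≤ Real.log (16 * C1 * 8 ^ g / c0 + 2) := Real.log_nonneg (by linarith)
    have hd0 : 0 ≤ a k - a (k * 8 ^ g) := by
      have := ha (show k ≤ k * 8 ^ g by nlinarith)
      linarith
    have h4 : C1 * (1 + ∑ n ∈ Finset.Icc (2 * k) (k * 8 ^ g), (a (n - k) - a n)) *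
        Real.log (16 * C1 * 8 ^ g / c0 + 2) ≤ C1 * (1 + k * (a k - a (k * 8 ^ g))) * (4 * g) := by
      have h5 : C1 * (1 + ∑ n ∈ Finset.Icc (2 * k) (k * 8 ^ g), (a (n - k) - a n)) ≤
          C1 * (1 + k * (a k - a (k * 8 ^ g))) :=
        mul_le_mul_of_nonneg_left (by linarith) hC0.le
      have h6 : 0 ≤ C1 * (1 + k * (a k - a (k * 8 ^ g))) := by positivity
      calc C1 * (1 + ∑ n ∈ Finset.Icc (2 * k) (k * 8 ^ g), (a (n - k) - a n)) *
          Real.log (16 * C1 * 8 ^ g / c0 + 2)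
          ≤ C1 * (1 + k * (a k - a (k * 8 ^ g))) * Real.log (16 * C1 * 8 ^ g / c0 + 2) :=
            mul_le_mul_of_nonneg_right h5 hlog0
        _ ≤ _ := mul_le_mul_of_nonneg_left glog h6
    have h5 : C1 * (((k * 8 ^ g : ℕ) : ℝ) - ((2 * k : ℕ) : ℝ)) /
        (16 * C1 * 8 ^ g / c0 + 2) ≤ c0 / 16 * k := by
      rw [div_le_iff₀ (by linarith)]
      push_cast
      have h8 : c0 / 16 * k * (16 * C1 * 8 ^ g / c0 + 2) = C1 * (k * 8 ^ g) + c0 / 8 * k := by
        field_simp
        ring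
      rw [h8]
      nlinarith
    -- combine
    have h6 : 5 / 16 * c0 * k ≤ C1 * (1 + k * (a k - a (k * 8 ^ g))) * (4 * g) := by
      linarith
    have h7 : 5 / 16 * c0 / (4 * C1 * g) ≤ 1 / k + (a k - a (k * 8 ^ g)) := by
      rw [div_le_iff₀ (by positivity)]
      have h9 : (1 / k + (a k - a (k * 8 ^ g))) * (4 * C1 * g) * k =
          C1 * (1 + k * (a k - a (k * 8 ^ g))) * (4 * g) := by
        field_simp
      have h10 : 5 / 16 * c0 * k ≤
          (1 / k + (a k - a (k * 8 ^ g))) * (4 * C1 * g) * k := by rw [h9]; exact h6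
      exact le_of_mul_le_mul_right h10 (by linarith)
    have h8' : 1 / (k : ℝ) ≤ c' / (4 * g) := by
      rw [div_le_div_iff₀ (by linarith) (by positivity)]
      have h11 : 4 * (g : ℝ) / c' ≤ k := gpow.trans hkpow
      rw [div_le_iff₀ hc'0] at h11
      linarith
    have h9 : 5 / 16 * c0 / (4 * C1 * g) = 5 / 4 * (c' / g) := by
      rw [hc']
      field_simp
    have h10 : c' / (4 * g) = 1 / 4 * (c' / g) := by
      field_simp
    have h11 : c' / g ≤ a k - a (k * 8 ^ g) := by
      rw [h9] at h7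
      rw [h10] at h8'
      linarith
    have h12 := ha hkK
    have h13 : k * 8 ^ g ≤ K * 16 ^ g := by
      calc k * 8 ^ g ≤ (K * 2 ^ g) * 8 ^ g := Nat.mul_le_mul_right _ hkK2
        _ = K * 16 ^ g := by
            rw [mul_assoc, ← mul_pow]
            norm_num
    have h14 := ha h13
    linarith
  -- step (iii)
  have hcube : ∀ g : ℕ, g0 ≤ g → g1 ≤ g →
      c' / 2 ≤ a (2 ^ (g ^ 3)) - a (2 ^ ((g + 1) ^ 3)) := by
    intro g hg hg'
    obtain ⟨g4, _, _, _⟩ := hg1 g hg'
    have hg0 : (0 : ℝ) < g := by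
      have : 0 < g := by omega
      exact_mod_cast this
    have hind : ∀ m : ℕ, 4 * m ≤ 3 * g →
        m * (c' / g) ≤ a (2 ^ (g ^ 3)) - a (2 ^ (g ^ 3 + 4 * g * m)) := by
      intro m
      induction m with
      | zero =>
        intro _
        simp
      | succ m ih =>
        intro hm
        have h1 := ih (by omega)
        have hbound : g ^ 3 + 4 * g * m ≤ (g + 1) ^ 3 := by
          have h2 : 4 * g * m ≤ 3 * g * g := by nlinarith
          nlinarith
        have h2 := hstep g hg hg' (2 ^ (g ^ 3 + 4 * g * m))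
          (Nat.pow_le_pow_right (by norm_num) (by omega))
          (Nat.pow_le_pow_right (by norm_num) hbound)
        have h3 : 2 ^ (g ^ 3 + 4 * g * m) * 16 ^ g = 2 ^ (g ^ 3 + 4 * g * (m + 1)) := by
          rw [show (16 : ℕ) = 2 ^ 4 by norm_num, ← pow_mul, ← pow_add]
          congr 1
          ring
        rw [h3] at h2
        push_cast
        linarith
    obtain ⟨m, hm⟩ : ∃ m : ℕ, m = 3 * g / 4 := ⟨_, rfl⟩
    have h1 := hind m (by omega)
    have h2 : g ≤ 2 * m := by omega
    have h3 : (g : ℝ) ≤ 2 * m := by exact_mod_cast h2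
    have h4 : c' / 2 ≤ m * (c' / g) := by
      have h5 : m * (c' / g) = (m / g) * c' := by ring
      rw [h5]
      have h6 : (1 : ℝ) / 2 ≤ m / g := by
        rw [div_le_div_iff₀ (by norm_num) hg0]
        linarith
      nlinarith
    have h5 : a (2 ^ ((g + 1) ^ 3)) ≤ a (2 ^ (g ^ 3 + 4 * g * m)) := by
      apply ha
      apply Nat.pow_le_pow_right (by norm_num)
      have h2 : 4 * g * m ≤ 3 * g * g := by
        have : 4 * m ≤ 3 * g := by omega
        nlinarith
      nlinarith
    linarith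
  obtain ⟨G, hG⟩ : ∃ G : ℕ, G = max g0 g1 := ⟨_, rfl⟩
  have hsum : ∀ m : ℕ, m * (c' / 2) ≤ a (2 ^ (G ^ 3)) - a (2 ^ ((G + m) ^ 3)) := by
    intro m
    induction m with
    | zero => simp
    | succ m ih =>
      have h1 := hcube (G + m) (by omega) (by omega)
      have h2 : G + (m + 1) = G + m + 1 := by omega
      rw [h2]
      push_cast
      linarith
  obtain ⟨m, hm⟩ := exists_nat_gt (2 / c')
  have h1 := hsum m
  have h2 := (hb (2 ^ (G ^ 3))).2
  have h3 := (hb (2 ^ ((G + m) ^ 3))).1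
  rw [div_lt_iff₀ hc'0] at hm
  linarith

end H517.EO
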