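import Mathlib
import Pool.Agent.H517R2.EO.Basic

/-!
# TEAM EO : one length, one window carries spread mass (P2)
-/

set_option autoImplicit false

open Finset Filter

namespace H517.EO

namespace P2

theorem tele (a : ℕ → ℝ) {m n : ℕ} (h : m ≤ n) :
    ∑ i ∈ Finset.Ico m n, (a i - a (i + 1)) = a m - a n := by
  induction n, h using Nat.le_induction with
  | base => simp
  | succ n hmn ih =>
    rw [Finset.sum_Ico_succ_top hmn, ih]
    ring

theorem dbl (a : ℕ → ℝ) (ha : Antitone a) (S T : Finset ℕ) (k : ℕ)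
    (h : ∀ n ∈ S, Finset.Ico (n - k) n ⊆ T) :
    ∑ n ∈ S, (a (n - k) - a n) ≤ k * ∑ i ∈ T, (a i - a (i + 1)) := by
  have hd : ∀ i, 0 ≤ a i - a (i + 1) := fun i => sub_nonneg.2 (ha (Nat.le_succ i))
  have e1 : ∀ n ∈ S, a (n - k) - a n =
      ∑ i ∈ T, if (n - k ≤ i ∧ i < n) then a i - a (i + 1) else 0 := by
    intro n hn
    rw [← tele a (Nat.sub_le n k), ← Finset.sum_filter]
    refine Finset.sum_congr ?_ fun _ _ => rfl
    ext i
    simp only [Finset.mem_Ico, Finset.mem_filter]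
    exact ⟨fun hi => ⟨h n hn (Finset.mem_Ico.2 hi), hi⟩, fun hi => hi.2⟩
  rw [Finset.sum_congr rfl e1, Finset.sum_comm, Finset.mul_sum]
  refine Finset.sum_le_sum fun i _ => ?_
  rw [← Finset.sum_filter, Finset.sum_const, nsmul_eq_mul]
  refine mul_le_mul_of_nonneg_right ?_ (hd i)
  have h2 : S.filter (fun n => n - k ≤ i ∧ i < n) ⊆ Finset.Ioc i (i + k) := by
    intro n hn
    have := (Finset.mem_filter.1 hn).2
    rw [Finset.mem_Ioc]
    omega
  have h3 := Finset.card_le_card h2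
  rw [Nat.card_Ioc] at h3
  have h4 : (S.filter (fun n => n - k ≤ i ∧ i < n)).card ≤ k := by omega
  exact_mod_cast h4

/-- the sum over an interval, up to one term -/
theorem one_extra (x : ℕ → ℝ) (hx0 : ∀ n, 0 ≤ x n) (hx1 : ∀ n, x n ≤ 1) (S : Finset ℕ) (P : ℕ → Prop)
    [DecidablePred P] (n0 : ℕ) (h : ∀ n ∈ S, ¬ P n → n = n0) :
    ∑ n ∈ S, x n ≤ ∑ n ∈ S.filter P, x n + 1 := by
  rw [← Finset.sum_filter_add_sum_filter_not S P]
  have h1 : ∑ n ∈ S.filter (fun n => ¬ P n), x n ≤ ∑ n ∈ ({n0} : Finset ℕ), x n := by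
    refine Finset.sum_le_sum_of_subset_of_nonneg ?_ fun n _ _ => hx0 n
    intro n hn
    rw [Finset.mem_filter] at hn
    rw [Finset.mem_singleton]
    exact h n hn.1 hn.2
  rw [Finset.sum_singleton] at h1
  linarith [hx1 n0]

theorem window (a : ℕ → ℝ) (ha : Antitone a) (h01 : ∀ n, 0 ≤ a n ∧ a n ≤ 1) (C1 : ℝ) (hC1 : 1 ≤ C1)
    (k : ℕ) (H : ℕ → ℝ) (hD : DropIneq C1 a k H) (L : ℝ) (hL : ∀ n, L ≤ a n) (u v b : ℕ)
    (hu : 2 * k ≤ u) (huv : u ≤ v) (B M1 : ℝ) (hB : 2 ≤ B) (hM1 : 2 ≤ M1) (η : ℝ)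
    (hη : ∑ i ∈ (Finset.Ico (u - k) (v + 1)) \ (Finset.Ico b (b + k)), (a i - a (i + 1)) ≤ η) :
    H u - H v ≤ 2 * C1 * (2 + k * η) * Real.log M1 + C1 * ((v : ℝ) - u) / M1 +
      C1 * (1 + k * (a k - L)) * Real.log B + 2 * C1 * k / B := by
  have hx0 : ∀ n, 0 ≤ a (n - k) - a n := fun n => sub_nonneg.2 (ha (Nat.sub_le n k))
  have hx1 : ∀ n, a (n - k) - a n ≤ 1 := fun n => by
    have h1 := (h01 (n - k)).2
    have h2 := (h01 n).1
    linarith
  have hlM : 0 ≤ Real.log M1 := Real.log_nonneg (by linarith)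
  have hlB : 0 ≤ Real.log B := Real.log_nonneg (by linarith)
  obtain ⟨u', hu'⟩ : ∃ u', u' = min v (max u b) := ⟨_, rfl⟩
  obtain ⟨v', hv'⟩ : ∃ v', v' = min v (max u (b + 2 * k)) := ⟨_, rfl⟩
  have a1 : u ≤ u' := by omega
  have a2 : u' ≤ v' := by omega
  have a3 : v' ≤ v := by omega
  have a4 : v' ≤ u' + 2 * k := by omega
  have hkη : (k : ℝ) * ∑ i ∈ (Finset.Ico (u - k) (v + 1)) \ (Finset.Ico b (b + k)),
      (a i - a (i + 1)) ≤ k * η := mul_le_mul_of_nonneg_left hη (Nat.cast_nonneg _)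
  -- first part
  have s1 : ∑ n ∈ Finset.Icc u u', (a (n - k) - a n) ≤ k * η + 1 := by
    have h1 := one_extra (fun n => a (n - k) - a n) hx0 hx1 (Finset.Icc u u') (fun n => n ≤ b) u (by
      intro n hn hnb
      rw [Finset.mem_Icc] at hn
      omega)
    have h2 := dbl a ha ((Finset.Icc u u').filter (fun n => n ≤ b))
      ((Finset.Ico (u - k) (v + 1)) \ (Finset.Ico b (b + k))) k (by
      intro n hn i hi
      rw [Finset.mem_filter, Finset.mem_Icc] at hn
      rw [Finset.mem_Ico] at hi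
      rw [Finset.mem_sdiff, Finset.mem_Ico, Finset.mem_Ico]
      omega)
    linarith
  have s3 : ∑ n ∈ Finset.Icc v' v, (a (n - k) - a n) ≤ k * η + 1 := by
    have h1 := one_extra (fun n => a (n - k) - a n) hx0 hx1 (Finset.Icc v' v)
      (fun n => b + 2 * k ≤ n) v (by
      intro n hn hnb
      rw [Finset.mem_Icc] at hn
      omega)
    have h2 := dbl a ha ((Finset.Icc v' v).filter (fun n => b + 2 * k ≤ n))
      ((Finset.Ico (u - k) (v + 1)) \ (Finset.Ico b (b + k))) k (by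
      intro n hn i hi
      rw [Finset.mem_filter, Finset.mem_Icc] at hn
      rw [Finset.mem_Ico] at hi
      rw [Finset.mem_sdiff, Finset.mem_Ico, Finset.mem_Ico]
      omega)
    linarith
  have s2 : ∑ n ∈ Finset.Icc u' v', (a (n - k) - a n) ≤ k * (a k - L) := by
    have h2 := dbl a ha (Finset.Icc u' v') (Finset.Ico k (v' + 1)) k (by
      intro n hn i hi
      rw [Finset.mem_Icc] at hn
      rw [Finset.mem_Ico] at hi
      rw [Finset.mem_Ico]
      omega)
    rw [tele a (by omega)] at h2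
    refine h2.trans (mul_le_mul_of_nonneg_left ?_ (Nat.cast_nonneg _))
    linarith [hL (v' + 1)]
  have d1 := hD u u' (by omega) a1 M1 hM1
  have d2 := hD u' v' (by omega) a2 B hB
  have d3 := hD v' v (by omega) a3 M1 hM1
  have t1 : C1 * (1 + ∑ n ∈ Finset.Icc u u', (a (n - k) - a n)) * Real.log M1 ≤
      C1 * (2 + k * η) * Real.log M1 := by
    refine mul_le_mul_of_nonneg_right (mul_le_mul_of_nonneg_left ?_ (by linarith)) hlM
    linarith
  have t3 : C1 * (1 + ∑ n ∈ Finset.Icc v' v, (a (n - k) - a n)) * Real.log M1 ≤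
      C1 * (2 + k * η) * Real.log M1 := by
    refine mul_le_mul_of_nonneg_right (mul_le_mul_of_nonneg_left ?_ (by linarith)) hlM
    linarith
  have t2 : C1 * (1 + ∑ n ∈ Finset.Icc u' v', (a (n - k) - a n)) * Real.log B ≤
      C1 * (1 + k * (a k - L)) * Real.log B := by
    refine mul_le_mul_of_nonneg_right (mul_le_mul_of_nonneg_left ?_ (by linarith)) hlB
    linarith
  have t4 : C1 * ((v' : ℝ) - u') / B ≤ 2 * C1 * k / B := by
    refine div_le_div_of_nonneg_right ?_ (by linarith)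
    have : (v' : ℝ) ≤ u' + 2 * k := by exact_mod_cast a4
    nlinarith
  have t5 : C1 * ((u' : ℝ) - u) / M1 + C1 * ((v : ℝ) - v') / M1 ≤ C1 * ((v : ℝ) - u) / M1 := by
    rw [← add_div]
    refine div_le_div_of_nonneg_right ?_ (by linarith)
    have : (u' : ℝ) ≤ v' := by exact_mod_cast a2
    nlinarith
  linarith

end P2

theorem t_P_step : P_step := by
  intro a C1 C2 c N ha h01 hC1 hC2 hc
  have hbdd : BddBelow (Set.range a) := ⟨0, by rintro _ ⟨j, rfl⟩; exact (h01 j).1⟩
  have ht := tendsto_atTop_ciInf ha hbdd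
  obtain ⟨L, hLdef⟩ : ∃ L, L = ⨅ i, a i := ⟨_, rfl⟩
  have hL : ∀ n, L ≤ a n := fun n => by rw [hLdef]; exact ciInf_le hbdd n
  rw [← hLdef] at ht
  obtain ⟨B, hBdef⟩ : ∃ B : ℝ, B = 2 + 24 * N * C1 / c := ⟨_, rfl⟩
  have hNC : 0 ≤ 24 * (N : ℝ) * C1 / c := by positivity
  have hB2 : 2 ≤ B := by rw [hBdef]; linarith
  have hlB : 0 ≤ Real.log B := Real.log_nonneg (by linarith)
  obtain ⟨c2, hc2def⟩ : ∃ c2 : ℝ, c2 = c / (64 * C1 * (N + 1)) := ⟨_, rfl⟩
  have hc2 : 0 < c2 := by rw [hc2def]; positivity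
  -- eventually small
  have hev : ∃ k1 : ℕ, ∀ k, k1 ≤ k → N * C1 * Real.log B * (a k - L) ≤ c / 8 := by
    have h1 : Tendsto (fun k => N * C1 * Real.log B * (a k - L)) atTop (nhds 0) := by
      have := (ht.sub_const L).const_mul (N * C1 * Real.log B)
      simpa using this
    have h2 := h1.eventually (gt_mem_nhds (show (0 : ℝ) < c / 8 by linarith))
    obtain ⟨k1, hk1⟩ := Filter.eventually_atTop.1 h2
    exact ⟨k1, fun k hk => (hk1 k hk).le⟩
  obtain ⟨k1, hk1⟩ := hev
  obtain ⟨G, hG⟩ := exists_nat_ge (max (B * C2) (8 * (C2 + 16 * N * C1 + N * C1 * Real.log B) / c))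
  refine ⟨c2, hc2, max 2 (max k1 G), le_max_left _ _, fun g hg k hk H hD u v huv hsum => ?_⟩
  have hg2 : 2 ≤ g := (le_max_left _ _).trans hg
  have hgk1 : k1 ≤ g := ((le_max_left _ _).trans (le_max_right _ _)).trans hg
  have hgG : G ≤ g := ((le_max_right _ _).trans (le_max_right _ _)).trans hg
  have hgR : (2 : ℝ) ≤ g := by exact_mod_cast hg2
  have hgGR : (G : ℝ) ≤ g := by exact_mod_cast hgG
  have hgB : B * C2 ≤ g := ((le_max_left _ _).trans hG).trans hgGR
  have hgC : 8 * (C2 + 16 * N * C1 + N * C1 * Real.log B) / c ≤ g :=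
    ((le_max_right _ _).trans hG).trans hgGR
  have hk3 : g ^ 3 < k := (Nat.lt_two_pow_self).trans_le hk
  have hk2 : g ^ 2 ≤ k := by
    have : g ^ 2 ≤ g ^ 3 := Nat.pow_le_pow_right (by omega) (by norm_num)
    omega
  have hkk1 : k1 ≤ k := by
    have : g ≤ g ^ 3 := Nat.le_self_pow (by norm_num) g
    omega
  have hkpos : 0 < k := by omega
  have hkR : (0 : ℝ) < k := by exact_mod_cast hkpos
  have hk2R : (g : ℝ) ^ 2 ≤ k := by exact_mod_cast hk2
  have hlg : 0 < Real.log g := Real.log_pos (by linarith)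
  by_contra hcon
  push Not at hcon
  choose b hb using hcon
  obtain ⟨M1, hM1def⟩ : ∃ M1 : ℝ, M1 = B * C2 * (g : ℝ) ^ 3 := ⟨_, rfl⟩
  have hBC : 2 ≤ B * C2 := by nlinarith
  have hg3 : (1 : ℝ) ≤ (g : ℝ) ^ 3 := one_le_pow₀ (by linarith)
  have hM12 : 2 ≤ M1 := by rw [hM1def]; nlinarith
  have hlM1 : Real.log M1 ≤ 4 * Real.log g := by
    have h1 : M1 ≤ (g : ℝ) ^ 4 := by
      rw [hM1def, pow_succ (g : ℝ) 3, mul_comm]
      exact mul_le_mul_of_nonneg_left hgB (by positivity)
    have h2 := Real.log_le_log (by linarith) h1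
    rw [Real.log_pow] at h2
    exact_mod_cast h2
  have hlM0 : 0 ≤ Real.log M1 := Real.log_nonneg (by linarith)
  have hwin : ∀ j, H (u j) - H (v j) ≤
      16 * C1 * g + 8 * C1 * c2 * k + 3 * C1 * k / B +
        C1 * Real.log B + k * (C1 * Real.log B * (a k - L)) := by
    intro j
    obtain ⟨h1, h2, h3⟩ := huv j
    have h4 := P2.window a ha h01 C1 hC1 k H hD L hL (u j) (v j) (b j) h1 h2 B M1 hB2 hM12
      (c2 / Real.log g) (hb j).le
    have h5 : 2 * C1 * (2 + k * (c2 / Real.log g)) * Real.log M1 ≤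
        16 * C1 * g + 8 * C1 * c2 * k := by
      have h6 : 2 * C1 * (2 + k * (c2 / Real.log g)) * Real.log M1 ≤
          2 * C1 * (2 + k * (c2 / Real.log g)) * (4 * Real.log g) :=
        mul_le_mul_of_nonneg_left hlM1 (by positivity)
      have h7 : 2 * C1 * (2 + k * (c2 / Real.log g)) * (4 * Real.log g) =
          16 * C1 * Real.log g + 8 * C1 * c2 * k := by
        field_simp
        ring
      have h8 : Real.log g ≤ g := (Real.log_le_sub_one_of_pos (by linarith)).trans (by linarith)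
      have h9 : 16 * C1 * Real.log g ≤ 16 * C1 * g := mul_le_mul_of_nonneg_left h8 (by linarith)
      linarith
    have h10 : C1 * ((v j : ℝ) - u j) / M1 ≤ C1 * k / B := by
      have h11 : (v j : ℝ) - u j ≤ C2 * k * (g : ℝ) ^ 3 := by linarith
      have h12 : C1 * ((v j : ℝ) - u j) / M1 ≤ C1 * (C2 * k * (g : ℝ) ^ 3) / M1 :=
        div_le_div_of_nonneg_right (mul_le_mul_of_nonneg_left h11 (by linarith)) (by linarith)
      have h13 : C1 * (C2 * k * (g : ℝ) ^ 3) / M1 = C1 * k / B := by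
        rw [hM1def]
        have : (0 : ℝ) < g := by linarith
        have : (0 : ℝ) < B := by linarith
        have : (0 : ℝ) < C2 := by linarith
        field_simp
      linarith
    have h14 : 3 * C1 * k / B = C1 * k / B + 2 * C1 * k / B := by ring
    have h15 : C1 * (1 + k * (a k - L)) * Real.log B =
        C1 * Real.log B + k * (C1 * Real.log B * (a k - L)) := by ring
    linarith
  have hS : ∑ j, (H (u j) - H (v j)) ≤ N * (16 * C1 * g + 8 * C1 * c2 * k + 3 * C1 * k / B +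
        C1 * Real.log B + k * (C1 * Real.log B * (a k - L))) := by
    have h1 := Finset.sum_le_sum fun j (_ : j ∈ (Finset.univ : Finset (Fin N))) => hwin j
    rw [Finset.sum_const, Finset.card_univ, Fintype.card_fin, nsmul_eq_mul] at h1
    exact h1
  -- the five contributions
  have q1 : C2 + N * (16 * C1 * g) + N * (C1 * Real.log B) ≤ c / 8 * k := by
    have h1 : 8 * (C2 + 16 * N * C1 + N * C1 * Real.log B) ≤ g * c := by
      rw [div_le_iff₀ hc] at hgC
      exact hgC
    have h2 : C2 + N * (16 * C1 * g) + N * (C1 * Real.log B) ≤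
        (C2 + 16 * N * C1 + N * C1 * Real.log B) * g := by
      have h3 : 0 ≤ N * C1 * Real.log B := by positivity
      have h6 : C2 * 1 ≤ C2 * g := mul_le_mul_of_nonneg_left (by linarith) (by linarith)
      have h7 : N * C1 * Real.log B * 1 ≤ N * C1 * Real.log B * g :=
        mul_le_mul_of_nonneg_left (by linarith) h3
      linarith
    have h4 : (C2 + 16 * N * C1 + N * C1 * Real.log B) * g ≤ c / 8 * (g : ℝ) ^ 2 := by
      have h6 := mul_le_mul_of_nonneg_right h1 (show (0 : ℝ) ≤ g by linarith)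
      have h7 : (g : ℝ) * c * g = 8 * (c / 8 * (g : ℝ) ^ 2) := by ring
      rw [h7] at h6
      linarith
    have h5 : c / 8 * (g : ℝ) ^ 2 ≤ c / 8 * k := mul_le_mul_of_nonneg_left hk2R (by linarith)
    linarith
  have q2 : N * (8 * C1 * c2 * k) ≤ c / 8 * k := by
    have h1 : N * (8 * C1 * c2) ≤ c / 8 := by
      rw [hc2def]
      have h2 : (N : ℝ) * (8 * C1 * (c / (64 * C1 * (N + 1)))) = (N / (N + 1)) * (c / 8) := by
        field_simp
        ring
      rw [h2]
      have h3 : (N : ℝ) / (N + 1) ≤ 1 := by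
        rw [div_le_one (by positivity)]
        linarith
      have h4 : (N : ℝ) / (N + 1) * (c / 8) ≤ 1 * (c / 8) :=
        mul_le_mul_of_nonneg_right h3 (by linarith)
      linarith
    nlinarith
  have q3 : N * (3 * C1 * k / B) ≤ c / 8 * k := by
    have h1 : 24 * N * C1 ≤ B * c := by
      rw [hBdef, add_mul, div_mul_cancel₀ _ hc.ne']
      linarith
    have h2 : N * (3 * C1 * k / B) = (24 * N * C1) * (k / (8 * B)) := by
      field_simp
      ring
    have h3 : c / 8 * k = (B * c) * (k / (8 * B)) := by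
      have : (0 : ℝ) < B := by linarith
      field_simp
    rw [h2, h3]
    exact mul_le_mul_of_nonneg_right h1 (by positivity)
  have q4 : N * (k * (C1 * Real.log B * (a k - L))) ≤ c / 8 * k := by
    have h1 := mul_le_mul_of_nonneg_right (hk1 k hkk1) hkR.le
    linarith
  have hck : 0 < c * k := mul_pos hc hkR
  have hexp : N * (16 * C1 * g + 8 * C1 * c2 * k + 3 * C1 * k / B +
        C1 * Real.log B + k * (C1 * Real.log B * (a k - L))) =
      N * (16 * C1 * g) + N * (8 * C1 * c2 * k) + N * (3 * C1 * k / B) + N * (C1 * Real.log B) +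
        N * (k * (C1 * Real.log B * (a k - L))) := by ring
  rw [hexp] at hS
  linarith

end H517.EO
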