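import Pool.Agent.H517R2.EO.Basic

/-! Task P3: drifting windows, combinatorial part. -/

set_option autoImplicit false

open Finset Filter MeasureTheory

namespace H517.EO

private lemma p3_mono {G : ℕ} {k : ℕ → ℕ} (hk : ∀ i, i + 1 < G → 2 * k i ≤ k (i + 1)) :
    ∀ (i j : ℕ), i ≤ j → j < G → k i ≤ k j := by
  intro i j hij
  induction j, hij using Nat.le_induction with
  | base => intro _; exact le_rfl
  | succ j hij ih =>
    intro hj
    have h1 := ih (by omega)
    have h2 := hk j hj
    omega

private lemma p3_one {d : ℕ → ℝ} {η : ℝ} {G : ℕ} {k s e : ℕ → ℕ}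
    (hd : ∀ i, 0 ≤ d i)
    (hlen : ∀ i, i + 1 < G → 4 * (e i - s i) ≤ k (i + 1))
    (hk : ∀ i, i + 1 < G → 2 * k i ≤ k (i + 1))
    (hη : ∀ i, i < G → ∀ b : ℕ,
      η ≤ ∑ j ∈ (Finset.Ico (s i) (e i)) \ (Finset.Ico b (b + k i)), d j)
    (j : ℕ) (T : Finset ℕ) : (∀ i ∈ T, i < G ∧ j ∈ Finset.Ico (s i) (e i)) →
    (T.card : ℝ) * η ≤ ∑ x ∈ T.biUnion (fun i => Finset.Ico (s i) (e i)), d x := by
  induction T using Finset.induction_on_max with
  | empty => intro _; simp
  | insert a T hmax ih =>
    intro hT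
    have ha := hT a (Finset.mem_insert_self a T)
    have ih' := ih (fun i hi => hT i (Finset.mem_insert_of_mem hi))
    have haT : a ∉ T := fun h => lt_irrefl a (hmax a h)
    rw [Finset.card_insert_of_notMem haT, Finset.biUnion_insert]
    set V := T.biUnion (fun i => Finset.Ico (s i) (e i)) with hV
    have h1 : ∑ x ∈ Finset.Ico (s a) (e a) ∪ V, d x =
        ∑ x ∈ V, d x + ∑ x ∈ Finset.Ico (s a) (e a) \ V, d x := by
      rw [Finset.union_comm, ← Finset.union_sdiff_self_eq_union,
        Finset.sum_union Finset.disjoint_sdiff]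
    have h2 : V ⊆ Finset.Ico (j - k a / 4) (j - k a / 4 + k a) := by
      intro x hx
      rw [hV, Finset.mem_biUnion] at hx
      obtain ⟨i, hi, hx⟩ := hx
      have hia := hmax i hi
      have h3 := hT i (Finset.mem_insert_of_mem hi)
      have h4 := hlen i (by omega)
      have h5 := p3_mono hk (i + 1) a (by omega) ha.1
      have h6 := h3.2
      rw [Finset.mem_Ico] at hx h6 ⊢
      omega
    have h3 : Finset.Ico (s a) (e a) \ Finset.Ico (j - k a / 4) (j - k a / 4 + k a) ⊆
        Finset.Ico (s a) (e a) \ V := Finset.sdiff_subset_sdiff (Finset.Subset.refl _) h2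
    have h4 := hη a ha.1 (j - k a / 4)
    have h5 := Finset.sum_le_sum_of_subset_of_nonneg h3 (f := d) (fun x _ _ => hd x)
    rw [h1]
    push_cast
    linarith

theorem t_P_multi : P_multi := by
  intro d η G k s e hd hsum hηpos _ hlen hk hη
  classical
  have hf : ∀ j : ℕ, (((Finset.range G).filter (fun i => j ∈ Finset.Ico (s i) (e i))).card : ℝ) * η
      ≤ 1 := by
    intro j
    refine (p3_one hd hlen hk hη j _ ?_).trans (hsum _)
    intro i hi
    rw [Finset.mem_filter, Finset.mem_range] at hi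
    exact hi
  set U := (Finset.range G).biUnion (fun i => Finset.Ico (s i) (e i)) with hU
  have h1 : (G : ℝ) * η ≤ ∑ i ∈ Finset.range G, ∑ j ∈ Finset.Ico (s i) (e i), d j := by
    have h2 : ∀ i ∈ Finset.range G, η ≤ ∑ j ∈ Finset.Ico (s i) (e i), d j := by
      intro i hi
      refine (hη i (Finset.mem_range.1 hi) 0).trans ?_
      exact Finset.sum_le_sum_of_subset_of_nonneg Finset.sdiff_subset (fun x _ _ => hd x)
    have h3 := Finset.sum_le_sum h2
    rw [Finset.sum_const, Finset.card_range, nsmul_eq_mul] at h3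
    exact h3
  have h2 : ∑ i ∈ Finset.range G, ∑ j ∈ Finset.Ico (s i) (e i), d j =
      ∑ j ∈ U, (((Finset.range G).filter (fun i => j ∈ Finset.Ico (s i) (e i))).card : ℝ) * d j := by
    have h3 : ∀ i ∈ Finset.range G, ∑ j ∈ Finset.Ico (s i) (e i), d j =
        ∑ j ∈ U, if j ∈ Finset.Ico (s i) (e i) then d j else 0 := by
      intro i hi
      rw [← Finset.sum_filter]
      apply Finset.sum_congr _ (fun _ _ => rfl)
      ext j
      rw [Finset.mem_filter, hU, Finset.mem_biUnion]
      constructor
      · intro h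
        exact ⟨⟨i, hi, h⟩, h⟩
      · intro h
        exact h.2
    rw [Finset.sum_congr rfl h3, Finset.sum_comm]
    apply Finset.sum_congr rfl
    intro j _
    rw [← Finset.sum_filter, Finset.sum_const, nsmul_eq_mul]
  have h4 : (∑ j ∈ U, (((Finset.range G).filter
      (fun i => j ∈ Finset.Ico (s i) (e i))).card : ℝ) * d j) * η ≤ 1 := by
    rw [Finset.sum_mul]
    calc ∑ j ∈ U, (((Finset.range G).filter
          (fun i => j ∈ Finset.Ico (s i) (e i))).card : ℝ) * d j * η
        ≤ ∑ j ∈ U, d j := by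
          apply Finset.sum_le_sum
          intro j _
          have := mul_le_mul_of_nonneg_right (hf j) (hd j)
          linarith
      _ ≤ 1 := hsum U
  rw [← h2] at h4
  have h5 := mul_le_mul_of_nonneg_right h1 hηpos.le
  calc (G : ℝ) * η ^ 2 = G * η * η := by ring
    _ ≤ 1 := h5.trans h4

end H517.EO
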