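import Pool.Agent.H517R2.EO.Basic

set_option autoImplicit false

/-! P_grid (helper913): drifting windows. -/

namespace H517.EO

theorem P4_sqrt_le (n : ℕ) : Nat.sqrt n ≤ n := Nat.sqrt_le_self n

theorem P4_log (ε : ℝ) (hε : 0 < ε) : ∃ g1 : ℕ, ∀ g : ℕ, g1 ≤ g →
    1 ≤ Nat.sqrt (Nat.sqrt g) ∧ Real.log g ≤ ε * (Nat.sqrt (Nat.sqrt g) : ℝ) := by
  have h1 : ∀ᶠ x : ℝ in Filter.atTop, ‖Real.log x‖ ≤ (ε / 8) * ‖id x‖ :=
    Real.isLittleO_log_id_atTop.def (by positivity)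
  obtain ⟨X, hX⟩ := Filter.eventually_atTop.1 h1
  refine ⟨(⌈X⌉₊ + 1) ^ 4, ?_⟩
  intro g hg
  have hQ : ⌈X⌉₊ + 1 ≤ Nat.sqrt (Nat.sqrt g) := by
    rw [Nat.le_sqrt, Nat.le_sqrt]
    calc (⌈X⌉₊ + 1) * (⌈X⌉₊ + 1) * ((⌈X⌉₊ + 1) * (⌈X⌉₊ + 1)) = (⌈X⌉₊ + 1) ^ 4 := by ring
      _ ≤ g := hg
  set Q := Nat.sqrt (Nat.sqrt g) with hQdef
  have hQ1 : 1 ≤ Q := by omega
  refine ⟨hQ1, ?_⟩
  have hgQ : g < (Q + 1) ^ 4 := by
    have e1 : g < (Nat.sqrt g + 1) * (Nat.sqrt g + 1) := Nat.lt_succ_sqrt g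
    have e2 : Nat.sqrt g < (Q + 1) * (Q + 1) := Nat.lt_succ_sqrt (Nat.sqrt g)
    have e3 : Nat.sqrt g + 1 ≤ (Q + 1) * (Q + 1) := e2
    calc g < (Nat.sqrt g + 1) * (Nat.sqrt g + 1) := e1
      _ ≤ ((Q + 1) * (Q + 1)) * ((Q + 1) * (Q + 1)) := Nat.mul_le_mul e3 e3
      _ = (Q + 1) ^ 4 := by ring
  have hg0 : 0 < g := by
    have : 0 < (⌈X⌉₊ + 1) ^ 4 := by positivity
    omega
  have h2 : Real.log g ≤ 4 * Real.log ((Q : ℝ) + 1) := by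
    have : (g : ℝ) ≤ ((Q : ℝ) + 1) ^ 4 := by exact_mod_cast hgQ.le
    calc Real.log g ≤ Real.log (((Q : ℝ) + 1) ^ 4) :=
          Real.log_le_log (by exact_mod_cast hg0) this
      _ = 4 * Real.log ((Q : ℝ) + 1) := by
          rw [Real.log_pow]; norm_num
  have h3 : X ≤ (Q : ℝ) + 1 := by
    have e1 : X ≤ (⌈X⌉₊ : ℝ) := Nat.le_ceil X
    have e2 : ((⌈X⌉₊ + 1 : ℕ) : ℝ) ≤ (Q : ℝ) := by exact_mod_cast hQ
    push_cast at e2
    linarith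
  have h4 := hX _ h3
  have hQr : (1 : ℝ) ≤ (Q : ℝ) := by exact_mod_cast hQ1
  rw [Real.norm_eq_abs, id, Real.norm_eq_abs, abs_of_nonneg (by linarith : (0 : ℝ) ≤ (Q : ℝ) + 1)]
    at h4
  have h5 := (le_abs_self _).trans h4
  nlinarith

theorem P4_tele (a : ℕ → ℝ) (ha : Antitone a) (hb : ∀ n, 0 ≤ a n ∧ a n ≤ 1) (S : Finset ℕ) :
    ∑ i ∈ S, (a i - a (i + 1)) ≤ 1 := by
  have h0 : ∀ i, 0 ≤ a i - a (i + 1) := fun i => sub_nonneg.2 (ha (Nat.le_succ i))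
  obtain ⟨M, hM⟩ : ∃ M, S ⊆ Finset.range M := by
    refine ⟨S.sup id + 1, fun x hx => ?_⟩
    rw [Finset.mem_range]
    exact Nat.lt_succ_of_le (Finset.le_sup (f := id) hx)
  calc ∑ i ∈ S, (a i - a (i + 1)) ≤ ∑ i ∈ Finset.range M, (a i - a (i + 1)) :=
        Finset.sum_le_sum_of_subset_of_nonneg hM fun i _ _ => h0 i
    _ = a 0 - a M := Finset.sum_range_sub' a M
    _ ≤ 1 := by linarith [(hb 0).2, (hb M).1]

theorem t_P_grid (h1 : P_step) (h2 : P_multi) : P_grid := by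
  intro a C1 C2 c N ha hb hC1 hC2 hc
  obtain ⟨c2, hc2, g0, hg0, hstep⟩ := h1 a C1 C2 c N ha hb hC1 hC2 hc
  obtain ⟨g1, hg1⟩ := P4_log (min (1 / 8) (c2 / 2)) (lt_min (by norm_num) (by linarith))
  refine ⟨g0 + g1 + ⌈4 * C2 + 8⌉₊, ?_⟩
  intro g hg K hK hcon
  have hgg0 : g0 ≤ g := by omega
  have hgg1 : g1 ≤ g := by omega
  have hg2 : 2 ≤ g := by omega
  have hgC : 4 * C2 + 8 ≤ (g : ℝ) := by
    have e1 : 4 * C2 + 8 ≤ (⌈4 * C2 + 8⌉₊ : ℝ) := Nat.le_ceil _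
    have e2 : ((⌈4 * C2 + 8⌉₊ : ℕ) : ℝ) ≤ (g : ℝ) := by
      exact_mod_cast (by omega : ⌈4 * C2 + 8⌉₊ ≤ g)
    linarith
  obtain ⟨hQ1, hQlog⟩ := hg1 g hgg1
  set Q := Nat.sqrt (Nat.sqrt g) with hQ
  set G := Nat.sqrt g with hG
  have hQG : Q * Q ≤ G := Nat.sqrt_le G
  have hGg : G * G ≤ g := Nat.sqrt_le g
  have hQG' : Q ≤ G := Nat.sqrt_le_self G
  have hG1 : 1 ≤ G := le_trans hQ1 hQG'
  have hgr : (2 : ℝ) ≤ (g : ℝ) := by exact_mod_cast hg2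
  have hlogpos : 0 < Real.log g := Real.log_pos (by linarith)
  have hQr : (1 : ℝ) ≤ (Q : ℝ) := by exact_mod_cast hQ1
  have hlog8 : Real.log g ≤ 1 / 8 * (Q : ℝ) := hQlog.trans
    (mul_le_mul_of_nonneg_right (min_le_left _ _) (by linarith))
  have hlogc : Real.log g ≤ c2 / 2 * (Q : ℝ) := hQlog.trans
    (mul_le_mul_of_nonneg_right (min_le_right _ _) (by linarith))
  have hQGr : (Q : ℝ) * Q ≤ G := by exact_mod_cast hQG
  have hQGr' : (Q : ℝ) ≤ G := by exact_mod_cast hQG'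
  have hGgr : (G : ℝ) * G ≤ g := by exact_mod_cast hGg
  have hG1r : (1 : ℝ) ≤ (G : ℝ) := by exact_mod_cast hG1
  -- `g ^ (4 G) ≤ 2 ^ g`
  have hpow : g ^ (4 * G) ≤ 2 ^ g := by
    have e1 : Real.log ((g : ℝ) ^ (4 * G)) ≤ Real.log ((2 : ℝ) ^ g) := by
      rw [Real.log_pow, Real.log_pow]
      push_cast
      have e2 : Real.log g ≤ 1 / 8 * (G : ℝ) := by linarith
      have e3 : (4 * (G : ℝ)) * Real.log g ≤ 4 * G * (1 / 8 * G) :=
        mul_le_mul_of_nonneg_left e2 (by positivity)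
      have e4 : (1 / 2 : ℝ) ≤ Real.log 2 := by linarith [Real.log_two_gt_d9]
      have e5 : (g : ℝ) * (1 / 2) ≤ g * Real.log 2 := mul_le_mul_of_nonneg_left e4 (by positivity)
      nlinarith
    have e6 : ((g : ℝ) ^ (4 * G)) ≤ (2 : ℝ) ^ g :=
      (Real.log_le_log_iff (by positivity) (by positivity)).1 e1
    exact_mod_cast e6
  have hK1 : 1 ≤ K := le_trans Nat.one_le_two_pow hK
  obtain ⟨kk, hkk⟩ : ∃ kk : ℕ → ℕ, ∀ i, kk i = K * g ^ (4 * i) := ⟨_, fun _ => rfl⟩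
  have hkk1 : ∀ i, 1 ≤ kk i := fun i => by
    rw [hkk]
    exact Nat.mul_pos hK1 (Nat.pow_pos (by omega))
  have hkksucc : ∀ i, kk (i + 1) = kk i * g ^ 4 := by
    intro i
    rw [hkk, hkk, Nat.mul_add, pow_add]
    ring
  have hKk : ∀ i, K ≤ kk i := fun i => by
    rw [hkk]
    exact Nat.le_mul_of_pos_right K (Nat.pow_pos (by omega))
  have hkK : ∀ i, i < G → kk i ≤ K * 2 ^ g := by
    intro i hi
    rw [hkk]
    refine Nat.mul_le_mul_left K ?_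
    refine le_trans (Nat.pow_le_pow_right (by omega) (by omega)) hpow
  have hg4 : 4 * (C2 * (g : ℝ) ^ 3 + 2) ≤ (g : ℝ) ^ 4 := by
    have e1 : (1 : ℝ) ≤ (g : ℝ) ^ 3 := one_le_pow₀ (by linarith)
    have e2 : (g : ℝ) ^ 4 = g * (g : ℝ) ^ 3 := by ring
    rw [e2]
    have e3 : (4 * C2 + 8) * (g : ℝ) ^ 3 ≤ g * (g : ℝ) ^ 3 :=
      mul_le_mul_of_nonneg_right hgC (by positivity)
    nlinarith
  have hwin : ∀ i, ∃ s e : ℕ, i < G → s ≤ e ∧ 4 * (e - s) ≤ kk (i + 1) ∧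
      ∀ b : ℕ, c2 / Real.log g ≤
        ∑ j ∈ (Finset.Ico s e) \ (Finset.Ico b (b + kk i)), (a j - a (j + 1)) := by
    intro i
    by_cases hi : i < G
    · obtain ⟨H, hH, u, v, huv, hsum⟩ := hcon (kk i) (hKk i) (hkK i hi)
      obtain ⟨j, hj⟩ := hstep g hgg0 (kk i) (le_trans hK (hKk i)) H hH u v huv hsum
      obtain ⟨h3, h4, h5⟩ := huv j
      refine ⟨u j - kk i, v j + 1, fun _ => ⟨by omega, ?_, hj⟩⟩
      have hk1 := hkk1 i
      have hk1r : (1 : ℝ) ≤ (kk i : ℝ) := by exact_mod_cast hk1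
      have e1 : ((4 * (v j + 1 - (u j - kk i)) : ℕ) : ℝ) ≤ ((kk (i + 1) : ℕ) : ℝ) := by
        rw [hkksucc]
        have e2 : v j + 1 - (u j - kk i) + u j = v j + 1 + kk i := by omega
        have e3 : ((v j + 1 - (u j - kk i) : ℕ) : ℝ) = v j + 1 + kk i - u j := by
          have := congrArg (Nat.cast (R := ℝ)) e2
          push_cast at this
          linarith
        rw [Nat.cast_mul, e3, Nat.cast_mul, Nat.cast_pow]
        push_cast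
        have e4 : (v j : ℝ) + 1 + kk i - u j ≤ (C2 * (g : ℝ) ^ 3 + 2) * kk i := by
          nlinarith
        nlinarith [mul_le_mul_of_nonneg_right hg4 (by linarith : (0 : ℝ) ≤ (kk i : ℝ))]
      exact_mod_cast e1
    · exact ⟨0, 0, fun h => absurd h hi⟩
  choose s e hse using hwin
  have hfin := h2 (fun i => a i - a (i + 1)) (c2 / Real.log g) G kk s e
    (fun i => sub_nonneg.2 (ha (Nat.le_succ i))) (P4_tele a ha hb) (div_pos hc2 hlogpos)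
    (fun i hi => (hse i hi).1) (fun i hi => (hse i (by omega)).2.1)
    (fun i hi => by
      rw [hkksucc]
      have : 2 ≤ g ^ 4 := le_trans hg2 (Nat.le_self_pow (by norm_num) g)
      rw [mul_comm (kk i)]
      exact Nat.mul_le_mul_right _ this)
    (fun i hi => (hse i hi).2.2)
  rw [div_pow, mul_div_assoc', div_le_one (by positivity)] at hfin
  have e1 : (Real.log g) ^ 2 ≤ (c2 / 2 * (Q : ℝ)) ^ 2 := pow_le_pow_left₀ hlogpos.le hlogc 2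
  have e2 : (c2 / 2 * (Q : ℝ)) ^ 2 ≤ c2 ^ 2 / 4 * G := by
    have : (c2 / 2 * (Q : ℝ)) ^ 2 = c2 ^ 2 / 4 * (Q * Q) := by ring
    rw [this]
    exact mul_le_mul_of_nonneg_left hQGr (by positivity)
  have e3 : 0 < (G : ℝ) * c2 ^ 2 := by positivity
  nlinarith

end H517.EO
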