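import Pool.Agent.H517R2.EO.Basic

/-!
# TEAM EO, task W2 : separation of roots of integer polynomials (Mahler)
-/

set_option autoImplicit false

open Finset

namespace H517.EO

namespace W2

open Polynomial

/-! ### Vandermonde determinants -/

theorem norm_pow_sub_pow_le (z w : ℂ) (hz : ‖z‖ ≤ 1) (hw : ‖w‖ ≤ 1) (k : ℕ) :
    ‖z ^ k - w ^ k‖ ≤ k * ‖z - w‖ := by
  induction k with
  | zero => simp
  | succ k ih =>
    have h : z ^ (k + 1) - w ^ (k + 1) = z * (z ^ k - w ^ k) + (z - w) * w ^ k := by ring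
    rw [h]
    refine (norm_add_le _ _).trans ?_
    rw [norm_mul, norm_mul, norm_pow]
    have h1 : ‖z‖ * ‖z ^ k - w ^ k‖ ≤ 1 * (k * ‖z - w‖) :=
      mul_le_mul hz ih (norm_nonneg _) zero_le_one
    have h2 : ‖z - w‖ * ‖w‖ ^ k ≤ ‖z - w‖ * 1 :=
      mul_le_mul_of_nonneg_left (pow_le_one₀ (norm_nonneg _) hw) (norm_nonneg _)
    push_cast
    linarith

theorem det_bound {n : ℕ} (v : Fin n → ℂ) (i0 i1 : Fin n) (hne : i0 ≠ i1) (h0 : ‖v i0‖ ≤ 1)
    (h1 : ‖v i1‖ ≤ 1) :
    ‖(Matrix.vandermonde v).det‖ ≤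
      n.factorial * (n * ‖v i0 - v i1‖) * (∏ i, max 1 ‖v i‖) ^ (n - 1) := by
  classical
  set A := Matrix.vandermonde v with hA
  set B := Matrix.updateRow A i0 (A i0 + (-1 : ℂ) • A i1) with hB
  have hdet : A.det = B.det := (Matrix.det_updateRow_add_smul_self A hne (-1 : ℂ)).symm
  rw [hdet, Matrix.det_apply']
  set P : ℝ := (∏ i, max 1 ‖v i‖) ^ (n - 1) with hP
  have hterm : ∀ σ : Equiv.Perm (Fin n),
      ‖((Equiv.Perm.sign σ : ℤ) : ℂ) * ∏ i, B (σ i) i‖ ≤ n * ‖v i0 - v i1‖ * P := by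
    intro σ
    have e1 : ‖((Equiv.Perm.sign σ : ℤ) : ℂ) * ∏ i, B (σ i) i‖ = ∏ i, ‖B (σ i) i‖ := by
      rw [norm_mul, norm_prod]
      rcases Int.units_eq_one_or (Equiv.Perm.sign σ) with h | h
      · rw [h]; simp
      · rw [h]; simp
    have e2 : ∏ i, ‖B (σ i) i‖ = ∏ r, ‖B r (σ.symm r)‖ := by
      rw [← Equiv.prod_comp σ (fun r => ‖B r (σ.symm r)‖)]
      exact Finset.prod_congr rfl fun i _ => by rw [Equiv.symm_apply_apply]
    rw [e1, e2, ← Finset.mul_prod_erase _ _ (Finset.mem_univ i0)]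
    have f1 : ‖B i0 (σ.symm i0)‖ ≤ n * ‖v i0 - v i1‖ := by
      rw [hB, Matrix.updateRow_self, hA]
      simp only [Pi.add_apply, Pi.smul_apply, Matrix.vandermonde_apply, smul_eq_mul]
      rw [neg_one_mul, ← sub_eq_add_neg]
      refine (norm_pow_sub_pow_le _ _ h0 h1 _).trans ?_
      refine mul_le_mul_of_nonneg_right ?_ (norm_nonneg _)
      exact_mod_cast (σ.symm i0).2.le
    have f2 : ∏ r ∈ Finset.univ.erase i0, ‖B r (σ.symm r)‖ ≤ P := by
      calc ∏ r ∈ Finset.univ.erase i0, ‖B r (σ.symm r)‖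
          ≤ ∏ r ∈ Finset.univ.erase i0, (max 1 ‖v r‖) ^ (n - 1) := by
            refine Finset.prod_le_prod (fun _ _ => norm_nonneg _) fun r hr => ?_
            have hr' : r ≠ i0 := Finset.ne_of_mem_erase hr
            rw [hB, Matrix.updateRow_ne hr', hA, Matrix.vandermonde_apply, norm_pow]
            refine (pow_le_pow_left₀ (norm_nonneg _) (le_max_right 1 ‖v r‖) _).trans ?_
            refine pow_le_pow_right₀ (le_max_left _ _) ?_
            have := (σ.symm r).2
            omega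
        _ ≤ ∏ r, (max 1 ‖v r‖) ^ (n - 1) := by
            rw [← Finset.mul_prod_erase _ _ (Finset.mem_univ i0)]
            exact le_mul_of_one_le_left
              (Finset.prod_nonneg fun _ _ => by positivity) (one_le_pow₀ (le_max_left _ _))
        _ = P := by rw [hP, Finset.prod_pow]
    exact mul_le_mul f1 f2 (Finset.prod_nonneg fun _ _ => norm_nonneg _) (by positivity)
  calc ‖∑ σ : Equiv.Perm (Fin n), ((Equiv.Perm.sign σ : ℤ) : ℂ) * ∏ i, B (σ i) i‖
      ≤ ∑ σ : Equiv.Perm (Fin n), ‖((Equiv.Perm.sign σ : ℤ) : ℂ) * ∏ i, B (σ i) i‖ :=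
        norm_sum_le _ _
    _ ≤ ∑ σ : Equiv.Perm (Fin n), (n * ‖v i0 - v i1‖ * P) :=
        Finset.sum_le_sum fun σ _ => hterm σ
    _ = n.factorial * (n * ‖v i0 - v i1‖) * P := by
        rw [Finset.sum_const, Finset.card_univ, Fintype.card_perm, Fintype.card_fin, nsmul_eq_mul]
        ring

/-! ### The resultant of a polynomial and its derivative -/

theorem eval_deriv {n : ℕ} (v : Fin n → ℂ) (l : ℂ) (i : Fin n) :
    (C l * ∏ j, (X - C (v j))).derivative.eval (v i)
      = l * ∏ j ∈ Finset.univ.erase i, (v i - v j) := by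
  classical
  rw [derivative_C_mul, eval_C_mul, derivative_prod_finset, eval_finsetSum,
    Finset.sum_eq_single i]
  · simp [eval_prod]
  · intro j _ hj
    rw [eval_mul, eval_prod]
    have : ∏ x ∈ Finset.univ.erase j, eval (v i) (X - C (v x)) = 0 :=
      Finset.prod_eq_zero (Finset.mem_erase.2 ⟨Ne.symm hj, Finset.mem_univ _⟩) (by simp)
    rw [this, zero_mul]
  · intro h; exact absurd (Finset.mem_univ _) h

theorem disc_ge (Q : ℤ[X]) {n : ℕ} (hn : Q.natDegree = n) (hn0 : 0 < n) (v : Fin n → ℂ)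
    (hv : Function.Injective v)
    (hF : Q.map (Int.castRingHom ℂ) = C ((Q.leadingCoeff : ℤ) : ℂ) * ∏ j, (X - C (v j))) :
    1 ≤ ‖((Q.leadingCoeff : ℤ) : ℂ)‖ *
      (‖((Q.leadingCoeff : ℤ) : ℂ)‖ ^ (n - 1) * ‖(Matrix.vandermonde v).det‖) ^ 2 := by
  classical
  set l : ℂ := ((Q.leadingCoeff : ℤ) : ℂ) with hl
  have hQ0 : Q ≠ 0 := by
    rintro rfl
    simp at hn; omega
  have hl0 : l ≠ 0 := by
    rw [hl]
    exact_mod_cast leadingCoeff_ne_zero.2 hQ0
  set F : ℂ[X] := Q.map (Int.castRingHom ℂ) with hFd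
  have hFdeg : F.natDegree = n := by
    rw [hFd, natDegree_map_eq_of_injective (RingHom.injective_int _), hn]
  have hFlc : F.leadingCoeff = l := by
    rw [hFd, leadingCoeff_map_of_injective (RingHom.injective_int _)]
    rfl
  have hroots : F.roots = Finset.univ.val.map v := by
    rw [hF, roots_C_mul _ hl0]
    have : (∏ j : Fin n, (X - C (v j))) = ((Finset.univ.val.map v).map fun a => X - C a).prod := by
      rw [Multiset.map_map]; rfl
    rw [this, roots_multiset_prod_X_sub_C]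
  have hres := resultant_map_map Q Q.derivative n (n - 1) (Int.castRingHom ℂ)
  rw [← derivative_map, ← hFd] at hres
  have hdeg' : F.derivative.natDegree ≤ n - 1 := by
    rw [← hFdeg]; exact natDegree_derivative_le F
  have h2 := resultant_eq_prod_eval F F.derivative (n - 1) hdeg' (IsAlgClosed.splits F)
  rw [hFdeg, hFlc, hroots, Multiset.map_map] at h2
  have h3 : (Multiset.map ((fun x => eval x F.derivative) ∘ v) Finset.univ.val).prod
      = ∏ i, (l * ∏ j ∈ Finset.univ.erase i, (v i - v j)) := by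
    have : (Multiset.map ((fun x => eval x F.derivative) ∘ v) Finset.univ.val).prod
      = ∏ i, eval (v i) F.derivative := rfl
    rw [this]
    refine Finset.prod_congr rfl fun i _ => ?_
    rw [hF, eval_deriv]
  rw [h3] at h2
  rw [h2] at hres
  set ρ : ℤ := resultant Q Q.derivative n (n - 1) with hρ
  have hval : ((ρ : ℤ) : ℂ) = l ^ (n - 1) * ∏ i, (l * ∏ j ∈ Finset.univ.erase i, (v i - v j)) := by
    rw [hres]; rfl
  have hne : ((ρ : ℤ) : ℂ) ≠ 0 := by
    rw [hval]
    refine mul_ne_zero (pow_ne_zero _ hl0) (Finset.prod_ne_zero_iff.2 fun i _ => ?_)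
    refine mul_ne_zero hl0 (Finset.prod_ne_zero_iff.2 fun j hj => ?_)
    rw [sub_ne_zero]
    intro h
    exact Finset.ne_of_mem_erase hj (hv h).symm
  have hρ0 : ρ ≠ 0 := by
    rintro h; rw [h] at hne; simp at hne
  have hge : 1 ≤ ‖((ρ : ℤ) : ℂ)‖ := by
    rw [Complex.norm_intCast]
    exact_mod_cast Int.one_le_abs hρ0
  rw [hval, norm_mul, norm_pow, norm_prod] at hge
  have h4 : ∏ i : Fin n, ‖l * ∏ j ∈ Finset.univ.erase i, (v i - v j)‖
      = ‖l‖ ^ n * ∏ i : Fin n, ∏ j ∈ ({i} : Finset (Fin n))ᶜ, ‖v i - v j‖ := by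
    have e : ‖l‖ ^ n = ∏ _i : Fin n, ‖l‖ := by simp
    rw [e, ← Finset.prod_mul_distrib]
    refine Finset.prod_congr rfl fun i _ => ?_
    rw [norm_mul, norm_prod, Finset.compl_singleton]
  have h5 : ∏ i : Fin n, ∏ j ∈ ({i} : Finset (Fin n))ᶜ, ‖v i - v j‖
      = ‖(Matrix.vandermonde v).det‖ ^ 2 := by
    rw [← Finset.prod_prod_Ioi_mul_eq_prod_prod_off_diag (fun j i => ‖v i - v j‖),
      Matrix.det_vandermonde, norm_prod, ← Finset.prod_pow]
    refine Finset.prod_congr rfl fun i _ => ?_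
    rw [norm_prod, ← Finset.prod_pow]
    refine Finset.prod_congr rfl fun j _ => ?_
    rw [sq, norm_sub_rev (v i) (v j)]
  rw [h4, h5] at hge
  calc (1 : ℝ) ≤ ‖l‖ ^ (n - 1) * (‖l‖ ^ n * ‖(Matrix.vandermonde v).det‖ ^ 2) := hge
    _ = ‖l‖ * (‖l‖ ^ (n - 1) * ‖(Matrix.vandermonde v).det‖) ^ 2 := by
        obtain ⟨k, rfl⟩ : ∃ k, n = k + 1 := ⟨n - 1, by omega⟩
        simp only [Nat.add_sub_cancel]
        ring

/-! ### Mahler measures -/

/-- Mahler measure of an integer polynomial -/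
noncomputable def MM' (P : ℤ[X]) : ℝ := (P.map (Int.castRingHom ℂ)).mahlerMeasure

theorem MM'_mul (P Q : ℤ[X]) : MM' (P * Q) = MM' P * MM' Q := by
  unfold MM'
  rw [Polynomial.map_mul, mahlerMeasure_mul]

theorem one_le_MM' {P : ℤ[X]} (hP : P ≠ 0) : 1 ≤ MM' P := by
  unfold MM'
  apply one_le_mahlerMeasure_of_one_le_norm_leadingCoeff
  rw [leadingCoeff_map_of_injective (RingHom.injective_int _)]
  simp only [eq_intCast, Complex.norm_intCast]
  exact_mod_cast Int.one_le_abs (leadingCoeff_ne_zero.2 hP)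

theorem MM'_le_L1 (P : ℤ[X]) : MM' P ≤ L1 P := by
  unfold MM' L1
  refine (mahlerMeasure_le_sum_norm_coeff _).trans (le_of_eq ?_)
  rw [sum_over_range _ (by simp), natDegree_map_eq_of_injective (RingHom.injective_int _)]
  refine Finset.sum_congr rfl fun i _ => ?_
  simp [coeff_map]

theorem MM'_le_of_dvd {P Q : ℤ[X]} (hQ : Q ≠ 0) (h : P ∣ Q) : MM' P ≤ MM' Q := by
  obtain ⟨R, rfl⟩ := h
  rw [MM'_mul]
  have hR : R ≠ 0 := right_ne_zero_of_mul hQ
  have hP : P ≠ 0 := left_ne_zero_of_mul hQ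
  exact le_mul_of_one_le_right (zero_le_one.trans (one_le_MM' hP)) (one_le_MM' hR)

/-- separation of two roots of a separable integer polynomial -/
theorem sep_of_separable (Q : ℤ[X]) (hQ0 : Q ≠ 0)
    (hsep : (Q.map (Int.castRingHom ℂ)).Separable) (z z' : ℂ)
    (hz : aeval z Q = 0) (hz' : aeval z' Q = 0) (hne : z ≠ z') (h1 : ‖z‖ ≤ 1) (h2 : ‖z'‖ ≤ 1) :
    1 ≤ (Q.natDegree.factorial * Q.natDegree : ℝ) * ‖z - z'‖ * MM' Q ^ Q.natDegree := by
  classical
  set F : ℂ[X] := Q.map (Int.castRingHom ℂ) with hFd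
  set n := Q.natDegree with hn
  have hFdeg : F.natDegree = n := by
    rw [hFd, natDegree_map_eq_of_injective (RingHom.injective_int _)]
  have hF0 : F ≠ 0 := hsep.ne_zero
  set l : ℂ := ((Q.leadingCoeff : ℤ) : ℂ) with hl
  have hFlc : F.leadingCoeff = l := by
    rw [hFd, leadingCoeff_map_of_injective (RingHom.injective_int _)]
    rfl
  have hnodup : F.roots.Nodup := nodup_roots hsep
  have hcard : Multiset.card F.roots = n := by
    rw [← hFdeg]
    exact (IsAlgClosed.splits F).natDegree_eq_card_roots.symm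
  have hs : F.roots.toFinset.card = n := by
    rw [Multiset.toFinset_card_of_nodup hnodup, hcard]
  let e := Finset.equivFinOfCardEq hs
  let v : Fin n → ℂ := fun i => (e.symm i : ℂ)
  have hv : Function.Injective v := Subtype.val_injective.comp e.symm.injective
  have hrv : F.roots = Finset.univ.val.map v := by
    have h3 : F.roots.toFinset.val = F.roots := by
      rw [Multiset.toFinset_val, Multiset.dedup_eq_self.2 hnodup]
    rw [← h3]
    have h4 : F.roots.toFinset = Finset.univ.map ⟨v, hv⟩ := by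
      ext a
      simp only [Finset.mem_map, Finset.mem_univ, true_and, Function.Embedding.coeFn_mk]
      constructor
      · intro ha
        exact ⟨e ⟨a, ha⟩, by simp [v]⟩
      · rintro ⟨i, rfl⟩
        exact (e.symm i).2
    rw [h4]
    rfl
  have hF : F = C l * ∏ j, (X - C (v j)) := by
    have := (IsAlgClosed.splits F).eq_prod_roots
    rw [hFlc, hrv, Multiset.map_map] at this
    exact this
  have hmem : ∀ a : ℂ, aeval a Q = 0 → ∃ i, v i = a := by
    intro a ha
    have : a ∈ F.roots := by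
      rw [mem_roots hF0, IsRoot.def, hFd, eval_map]
      rw [aeval_def] at ha
      exact ha
    rw [hrv, Multiset.mem_map] at this
    obtain ⟨i, -, hi⟩ := this
    exact ⟨i, hi⟩
  obtain ⟨i0, hi0⟩ := hmem z hz
  obtain ⟨i1, hi1⟩ := hmem z' hz'
  have hne' : i0 ≠ i1 := by
    rintro rfl
    exact hne (hi0.symm.trans hi1)
  have hn0 : 0 < n := Nat.pos_of_ne_zero (by
    intro h0
    have := i0.2
    omega)
  have hD := disc_ge Q hn.symm hn0 v hv hF
  have hB := det_bound v i0 i1 hne' (by rw [hi0]; exact h1) (by rw [hi1]; exact h2)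
  rw [hi0, hi1] at hB
  have hM : MM' Q = ‖l‖ * ∏ i, max 1 ‖v i‖ := by
    unfold MM'
    rw [mahlerMeasure_eq_leadingCoeff_mul_prod_roots, ← hFd, hFlc, hrv, Multiset.map_map]
    rfl
  have hM1 : 1 ≤ MM' Q := one_le_MM' hQ0
  have hl1 : 1 ≤ ‖l‖ := by
    rw [hl, Complex.norm_intCast]
    exact_mod_cast Int.one_le_abs (leadingCoeff_ne_zero.2 hQ0)
  have hp1 : 1 ≤ ∏ i, max 1 ‖v i‖ := by
    have := one_le_prod_max_one_norm_roots F
    rw [hrv, Multiset.map_map] at this
    exact this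
  have hlM : ‖l‖ ≤ MM' Q := by
    rw [hM]; exact le_mul_of_one_le_right (by positivity) hp1
  set V : ℝ := ‖l‖ ^ (n - 1) * ‖(Matrix.vandermonde v).det‖ with hV
  have hV0 : 0 ≤ V := by positivity
  have hVle : V ≤ (n.factorial * n : ℝ) * ‖z - z'‖ * MM' Q ^ (n - 1) := by
    calc V ≤ ‖l‖ ^ (n - 1) * (n.factorial * (n * ‖z - z'‖) * (∏ i, max 1 ‖v i‖) ^ (n - 1)) :=
          mul_le_mul_of_nonneg_left hB (by positivity)
      _ = (n.factorial * n : ℝ) * ‖z - z'‖ * MM' Q ^ (n - 1) := by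
          rw [hM, mul_pow]; ring
  have hMV : 1 ≤ MM' Q * V := by
    by_contra hcon
    push Not at hcon
    have h3 : ‖l‖ * V ^ 2 ≤ (MM' Q * V) * V := by
      calc ‖l‖ * V ^ 2 ≤ MM' Q * V ^ 2 := mul_le_mul_of_nonneg_right hlM (by positivity)
        _ = _ := by ring
    have h4 : V ≤ MM' Q * V := le_mul_of_one_le_left hV0 hM1
    have h5 : (MM' Q * V) * V ≤ 1 * V := mul_le_mul_of_nonneg_right hcon.le hV0
    linarith
  calc (1 : ℝ) ≤ MM' Q * V := hMV
    _ ≤ MM' Q * ((n.factorial * n : ℝ) * ‖z - z'‖ * MM' Q ^ (n - 1)) :=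
        mul_le_mul_of_nonneg_left hVle (by linarith)
    _ = (n.factorial * n : ℝ) * ‖z - z'‖ * MM' Q ^ n := by
        obtain ⟨k, hk⟩ : ∃ k, n = k + 1 := ⟨n - 1, by omega⟩
        rw [hk]
        simp only [Nat.add_sub_cancel]
        ring

/-- an irreducible factor vanishing at `z` -/
theorem exists_factor (P : ℤ[X]) (hP : P ≠ 0) (z : ℂ) (hz : aeval z P = 0) :
    ∃ p : ℤ[X], p ∣ P ∧ Irreducible p ∧ aeval z p = 0 ∧ p.natDegree ≠ 0 := by
  obtain ⟨u, hu⟩ := UniqueFactorizationMonoid.factors_prod hP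
  have h1 : aeval z (UniqueFactorizationMonoid.factors P).prod = 0 := by
    have h2 : aeval z (UniqueFactorizationMonoid.factors P).prod * aeval z (u : ℤ[X]) = 0 := by
      rw [← map_mul, hu, hz]
    rcases mul_eq_zero.1 h2 with h | h
    · exact h
    · exact absurd h ((u.isUnit.map (aeval z)).ne_zero)
  rw [map_multiset_prod, Multiset.prod_eq_zero_iff, Multiset.mem_map] at h1
  obtain ⟨p, hp, hpz⟩ := h1
  have hirr := UniqueFactorizationMonoid.irreducible_of_factor p hp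
  refine ⟨p, UniqueFactorizationMonoid.dvd_of_mem_factors hp, hirr, hpz, ?_⟩
  intro h0
  obtain ⟨c, hc⟩ := natDegree_eq_zero.1 h0
  rw [← hc, aeval_C] at hpz
  have : c = 0 := by
    have h3 : ((c : ℤ) : ℂ) = 0 := by simpa using hpz
    exact_mod_cast h3
  rw [this] at hc
  rw [← hc, C_0] at hirr
  exact hirr.ne_zero rfl

theorem irr_rat {p : ℤ[X]} (hp : Irreducible p) (hd : p.natDegree ≠ 0) :
    Irreducible (p.map (Int.castRingHom ℚ)) :=
  (IsPrimitive.Int.irreducible_iff_irreducible_map_cast (hp.isPrimitive hd)).1 hp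

theorem map_map_C (p : ℤ[X]) :
    p.map (Int.castRingHom ℂ) = (p.map (Int.castRingHom ℚ)).map (algebraMap ℚ ℂ) := by
  rw [Polynomial.map_map]
  congr 1

theorem aeval_eq_zero_iff (p : ℤ[X]) (z : ℂ) :
    aeval z p = 0 ↔ aeval z (p.map (Int.castRingHom ℚ)) = 0 := by
  rw [aeval_def, aeval_def, eval₂_map]
  have : (algebraMap ℚ ℂ).comp (Int.castRingHom ℚ) = algebraMap ℤ ℂ := RingHom.ext_int _ _
  rw [this]

end W2

open W2 Polynomial in
theorem t_W_sep : W_sep := by
  classical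
  intro P Q z z' hP hQ hz hz' hne h1 h2
  set D : ℕ := P.natDegree + Q.natDegree with hD
  have hLP : 1 ≤ L1 P := (one_le_MM' hP).trans (MM'_le_L1 P)
  have hLQ : 1 ≤ L1 Q := (one_le_MM' hQ).trans (MM'_le_L1 Q)
  -- it is enough to find a separable polynomial
  have key : ∀ R : ℤ[X], R ≠ 0 → (R.map (Int.castRingHom ℂ)).Separable → aeval z R = 0 →
      aeval z' R = 0 → R.natDegree ≤ D → MM' R ≤ MM' P * MM' Q →
      1 ≤ ‖z - z'‖ * (D : ℝ) ^ (2 * D + 2) * (L1 P * L1 Q) ^ D := by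
    intro R hR hsep hzR hzR' hdeg hMR
    have h3 := sep_of_separable R hR hsep z z' hzR hzR' hne h1 h2
    set n := R.natDegree with hn
    have hn0 : n ≠ 0 := by
      intro h0
      rw [h0] at h3
      norm_num at h3
    have hD1 : (1 : ℝ) ≤ D := by
      have : 1 ≤ D := le_trans (Nat.one_le_iff_ne_zero.2 hn0) hdeg
      exact_mod_cast this
    have h4 : (n.factorial * n : ℝ) ≤ (D : ℝ) ^ (2 * D + 2) := by
      have h5 : n.factorial ≤ n ^ n := Nat.factorial_le_pow n
      have h6 : (n : ℝ) ≤ D := by exact_mod_cast hdeg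
      calc (n.factorial * n : ℝ) ≤ (n : ℝ) ^ n * n := by
            refine mul_le_mul_of_nonneg_right ?_ (Nat.cast_nonneg _)
            exact_mod_cast h5
        _ = (n : ℝ) ^ (n + 1) := by ring
        _ ≤ (D : ℝ) ^ (n + 1) := pow_le_pow_left₀ (Nat.cast_nonneg _) h6 _
        _ ≤ (D : ℝ) ^ (2 * D + 2) := pow_le_pow_right₀ hD1 (by omega)
    have h7 : MM' R ^ n ≤ (L1 P * L1 Q) ^ D := by
      have h8 : MM' R ≤ L1 P * L1 Q :=
        hMR.trans (mul_le_mul (MM'_le_L1 P) (MM'_le_L1 Q)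
          (zero_le_one.trans (one_le_MM' hQ)) (by linarith))
      have h9 : 1 ≤ L1 P * L1 Q := one_le_mul_of_one_le_of_one_le hLP hLQ
      calc MM' R ^ n ≤ (L1 P * L1 Q) ^ n :=
            pow_le_pow_left₀ (zero_le_one.trans (one_le_MM' hR)) h8 _
        _ ≤ (L1 P * L1 Q) ^ D := pow_le_pow_right₀ h9 hdeg
    calc (1 : ℝ) ≤ (n.factorial * n : ℝ) * ‖z - z'‖ * MM' R ^ n := h3
      _ ≤ (D : ℝ) ^ (2 * D + 2) * ‖z - z'‖ * (L1 P * L1 Q) ^ D := by
          refine mul_le_mul (mul_le_mul_of_nonneg_right h4 (norm_nonneg _)) h7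
            (pow_nonneg (zero_le_one.trans (one_le_MM' hR)) _) (by positivity)
      _ = _ := by ring
  obtain ⟨p, hpP, hpi, hpz, hpd⟩ := exists_factor P hP z hz
  obtain ⟨q, hqQ, hqi, hqz, hqd⟩ := exists_factor Q hQ z' hz'
  have hpr := irr_rat hpi hpd
  have hqr := irr_rat hqi hqd
  have hdP : p.natDegree ≤ P.natDegree := natDegree_le_of_dvd hpP hP
  have hdQ : q.natDegree ≤ Q.natDegree := natDegree_le_of_dvd hqQ hQ
  have hMP := MM'_le_of_dvd hP hpP
  have hMQ := MM'_le_of_dvd hQ hqQ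
  by_cases hpz' : aeval z' p = 0
  · refine key p hpi.ne_zero ?_ hpz hpz' (by omega) ?_
    · rw [map_map_C]
      exact hpr.separable.map
    · exact hMP.trans (le_mul_of_one_le_right (zero_le_one.trans (one_le_MM' hP)) (one_le_MM' hQ))
  · refine key (p * q) (mul_ne_zero hpi.ne_zero hqi.ne_zero) ?_ (by rw [map_mul, hpz, zero_mul])
      (by rw [map_mul, hqz, mul_zero])
      (by rw [natDegree_mul hpi.ne_zero hqi.ne_zero]; omega) ?_
    · rw [map_map_C, Polynomial.map_mul]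
      refine (Separable.mul hpr.separable hqr.separable ?_).map
      rw [hpr.coprime_iff_not_dvd]
      intro hdvd
      apply hpz'
      have hass : Associated (p.map (Int.castRingHom ℚ)) (q.map (Int.castRingHom ℚ)) :=
        hpr.associated_of_dvd hqr hdvd
      obtain ⟨g, hg⟩ := hass.symm.dvd
      rw [aeval_eq_zero_iff, hg, map_mul, (aeval_eq_zero_iff q z').1 hqz, zero_mul]
    · rw [MM'_mul]
      exact mul_le_mul hMP hMQ (zero_le_one.trans (one_le_MM' hqi.ne_zero))
        (zero_le_one.trans (one_le_MM' hP))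

end H517.EO
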