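import Pool.Agent.H517R2.EO.Basic

/-!
# Taylor expansion at a nearby complex number (task W4)
-/

namespace H517.EO

open Polynomial

theorem W4_map_hasse (e : ℕ) (F : Polynomial ℤ) :
    (hasseDeriv e F).map (Int.castRingHom ℂ) = hasseDeriv e (F.map (Int.castRingHom ℂ)) := by
  ext n
  rw [coeff_map, hasseDeriv_coeff, hasseDeriv_coeff, coeff_map]
  simp

theorem W4_aeval (F : Polynomial ℤ) (w : ℂ) :
    aeval w F = (F.map (Int.castRingHom ℂ)).eval w := by
  rw [aeval_def, eval_map]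
  rfl

theorem W4_aeval_hasse (e : ℕ) (F : Polynomial ℤ) (z : ℂ) :
    aeval z (hasseDeriv e F) = (taylor z (F.map (Int.castRingHom ℂ))).coeff e := by
  rw [W4_aeval, W4_map_hasse, taylor_coeff]

theorem W4_bound (e : ℕ) (F : Polynomial ℤ) (hF : ∀ i, |F.coeff i| ≤ 1) (z : ℂ)
    (hz : ‖z‖ < 1) : ‖aeval z (hasseDeriv e F)‖ ≤ (1 / (1 - ‖z‖)) ^ (e + 1) := by
  rw [aeval_eq_sum_range]
  have h1 := hasSum_choose_mul_geometric_of_norm_lt_one e (r := ‖z‖)
    (by rw [norm_norm]; exact hz)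
  have h2 : ‖∑ i ∈ Finset.range ((hasseDeriv e F).natDegree + 1),
      (hasseDeriv e F).coeff i • z ^ i‖ ≤
      ∑ i ∈ Finset.range ((hasseDeriv e F).natDegree + 1), ((i + e).choose e : ℝ) * ‖z‖ ^ i := by
    refine (norm_sum_le _ _).trans (Finset.sum_le_sum fun i _ => ?_)
    rw [hasseDeriv_coeff]
    rw [zsmul_eq_mul, norm_mul, norm_pow]
    refine mul_le_mul_of_nonneg_right ?_ (by positivity)
    have h3 : |F.coeff (i + e)| ≤ 1 := hF _
    have h4 : ((|F.coeff (i + e)| : ℤ) : ℝ) ≤ 1 := by exact_mod_cast h3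
    push_cast
    rw [norm_mul]
    simp only [Complex.norm_natCast, Complex.norm_intCast]
    rw [Int.cast_abs] at h4
    nlinarith [Nat.cast_nonneg (α := ℝ) ((i + e).choose e)]
  refine h2.trans ?_
  have h5 := sum_le_hasSum (Finset.range ((hasseDeriv e F).natDegree + 1))
    (fun i _ => by positivity) h1
  refine h5.trans (le_of_eq ?_)
  rw [one_div, one_div, inv_pow]

theorem W4_geom (c δ : ℝ) (hc : 0 ≤ c) (hδ : 0 ≤ δ) (h : c * δ ≤ 1 / 3) (E N : ℕ) :
    ∑ j ∈ Finset.range N, c ^ (E + 2 + j) * δ ^ (E + 1 + j) ≤ 3 / 2 * (c ^ (E + 2) * δ ^ (E + 1)) := by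
  have h1 : ∀ j ∈ Finset.range N, c ^ (E + 2 + j) * δ ^ (E + 1 + j) ≤
      (1 / 3 : ℝ) ^ j * (c ^ (E + 2) * δ ^ (E + 1)) := by
    intro j _
    have h2 : (c * δ) ^ j ≤ (1 / 3 : ℝ) ^ j := by
      gcongr
    calc c ^ (E + 2 + j) * δ ^ (E + 1 + j) = (c * δ) ^ j * (c ^ (E + 2) * δ ^ (E + 1)) := by ring
      _ ≤ _ := by
        apply mul_le_mul_of_nonneg_right h2
        positivity
  refine (Finset.sum_le_sum h1).trans ?_
  rw [← Finset.sum_mul]
  apply mul_le_mul_of_nonneg_right _ (by positivity)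
  have h3 := hasSum_geometric_of_lt_one (r := (1 / 3 : ℝ)) (by norm_num) (by norm_num)
  refine (sum_le_hasSum (Finset.range N) (fun i _ => by positivity) h3).trans ?_
  norm_num

theorem t_W_taylor : W_taylor := by
  intro lam z E h0 h1 hz F hF
  have hl : 0 < 1 - lam := by linarith
  have hr : ‖z‖ ≤ lam + (1 - lam) / 4 := by
    have : ‖z‖ ≤ ‖(lam : ℂ)‖ + ‖(lam : ℂ) - z‖ := by
      have h := norm_sub_le (lam : ℂ) ((lam : ℂ) - z)
      rwa [sub_sub_cancel] at h
    rw [Complex.norm_real, Real.norm_eq_abs, abs_of_pos h0] at this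
    linarith
  have hr1 : ‖z‖ < 1 := by linarith
  have hc : 1 / (1 - ‖z‖) ≤ (4 / 3) / (1 - lam) := by
    rw [div_le_div_iff₀ (by linarith) hl]
    linarith
  have hc0 : 0 ≤ 1 / (1 - ‖z‖) := by
    apply div_nonneg zero_le_one
    linarith
  have hb : ∀ e, ‖aeval z (hasseDeriv e F)‖ ≤ ((4 / 3) / (1 - lam)) ^ (e + 1) := by
    intro e
    refine (W4_bound e F hF z hr1).trans ?_
    gcongr
  refine ⟨?_, ?_⟩
  · set c := (4 / 3) / (1 - lam) with hcdef
    set δ := ‖(lam : ℂ) - z‖ with hδ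
    have hcpos : 0 < c := by positivity
    have hcδ : c * δ ≤ 1 / 3 := by
      have : c * δ ≤ c * ((1 - lam) / 4) := by gcongr
      refine this.trans (le_of_eq ?_)
      rw [hcdef]
      field_simp
    set G := F.map (Int.castRingHom ℂ) with hG
    have h2 : aeval (lam : ℂ) F = ∑ e ∈ Finset.range (E + 1 + (F.natDegree + 1)),
        ((lam : ℂ) - z) ^ e * aeval z (hasseDeriv e F) := by
      have h3 : aeval (lam : ℂ) F = (taylor z G).eval ((lam : ℂ) - z) := by
        rw [taylor_eval, sub_add_cancel, W4_aeval]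
      rw [h3, eval_eq_sum_range' (n := E + 1 + (F.natDegree + 1))]
      · refine Finset.sum_congr rfl fun e _ => ?_
        rw [W4_aeval_hasse, mul_comm]
      · rw [natDegree_taylor]
        have : G.natDegree ≤ F.natDegree := natDegree_map_le
        omega
    rw [h2, Finset.sum_range_add, add_sub_cancel_left]
    have h4 : ‖∑ x ∈ Finset.range (F.natDegree + 1),
        ((lam : ℂ) - z) ^ (E + 1 + x) * aeval z (hasseDeriv (E + 1 + x) F)‖ ≤
        ∑ j ∈ Finset.range (F.natDegree + 1), c ^ (E + 2 + j) * δ ^ (E + 1 + j) := by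
      refine (norm_sum_le _ _).trans (Finset.sum_le_sum fun j _ => ?_)
      rw [norm_mul, norm_pow, mul_comm]
      have := hb (E + 1 + j)
      rw [show E + 1 + j + 1 = E + 2 + j by ring] at this
      gcongr
    refine h4.trans ((W4_geom c δ hcpos.le (norm_nonneg _) hcδ E _).trans ?_)
    rw [← mul_assoc]
    apply mul_le_mul_of_nonneg_right _ (by positivity)
    have h5 : (8 / (1 - lam)) = 6 * c := by
      rw [hcdef]
      ring
    rw [h5, mul_pow]
    apply mul_le_mul_of_nonneg_right _ (by positivity)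
    have h6 : (6 : ℝ) ^ 2 ≤ 6 ^ (E + 2) := pow_le_pow_right₀ (by norm_num) (by omega)
    linarith
  · intro e _
    refine (hb e).trans ?_
    gcongr
    norm_num

end H517.EO
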