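import Pool.Agent.H517R2.EO.Basic

set_option autoImplicit false

open Finset Polynomial

namespace H517.EO

namespace W5

theorem L1_eq_support (P : Polynomial ℤ) : L1 P = ∑ i ∈ P.support, |((P.coeff i : ℤ) : ℝ)| := by
  unfold L1
  symm
  refine Finset.sum_subset ?_ ?_
  · intro i hi
    rw [Finset.mem_range]
    have := Polynomial.le_natDegree_of_mem_supp i hi
    omega
  · intro i _ hi
    rw [Polynomial.notMem_support_iff] at hi
    rw [hi]; simp

theorem L1_eq_of_subset (P : Polynomial ℤ) (s : Finset ℕ) (hs : P.support ⊆ s) :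
    L1 P = ∑ i ∈ s, |((P.coeff i : ℤ) : ℝ)| := by
  rw [L1_eq_support]
  refine Finset.sum_subset hs ?_
  intro i _ hi
  rw [Polynomial.notMem_support_iff] at hi
  rw [hi]; simp

theorem L1_nonneg (P : Polynomial ℤ) : 0 ≤ L1 P := by
  unfold L1; positivity

theorem L1_zero : L1 (0 : Polynomial ℤ) = 0 := by
  rw [L1_eq_support]; simp

theorem L1_add_le (P Q : Polynomial ℤ) : L1 (P + Q) ≤ L1 P + L1 Q := by
  classical
  rw [L1_eq_of_subset P (P.support ∪ Q.support) Finset.subset_union_left,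
    L1_eq_of_subset Q (P.support ∪ Q.support) Finset.subset_union_right,
    L1_eq_of_subset (P + Q) (P.support ∪ Q.support) Polynomial.support_add,
    ← Finset.sum_add_distrib]
  refine Finset.sum_le_sum fun i _ => ?_
  rw [Polynomial.coeff_add]
  push_cast
  exact abs_add_le _ _

theorem L1_sum_le {ι : Type} (s : Finset ι) (f : ι → Polynomial ℤ) :
    L1 (∑ i ∈ s, f i) ≤ ∑ i ∈ s, L1 (f i) := by
  classical
  induction s using Finset.induction_on with
  | empty => simp [L1_zero]
  | insert a s ha ih =>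
    rw [Finset.sum_insert ha, Finset.sum_insert ha]
    exact (L1_add_le _ _).trans (by linarith)

theorem L1_monomial (n : ℕ) (c : ℤ) : L1 (Polynomial.monomial n c) = |(c : ℝ)| := by
  rw [L1_eq_of_subset _ {n} (Polynomial.support_monomial_subset n c)]
  simp

theorem L1_mul_le (P Q : Polynomial ℤ) : L1 (P * Q) ≤ L1 P * L1 Q := by
  have h : P * Q = ∑ i ∈ P.support, ∑ j ∈ Q.support,
      Polynomial.monomial (i + j) (P.coeff i * Q.coeff j) := by
    conv_lhs => rw [Polynomial.as_sum_support P, Polynomial.as_sum_support Q]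
    rw [Finset.sum_mul_sum]
    simp only [Polynomial.monomial_mul_monomial]
  rw [h]
  refine (L1_sum_le _ _).trans ?_
  rw [L1_eq_support P, L1_eq_support Q, Finset.sum_mul_sum]
  refine Finset.sum_le_sum fun i _ => (L1_sum_le _ _).trans ?_
  refine Finset.sum_le_sum fun j _ => ?_
  rw [L1_monomial]
  push_cast
  rw [abs_mul]

theorem L1_one : L1 (1 : Polynomial ℤ) = 1 := by
  have : (1 : Polynomial ℤ) = Polynomial.monomial 0 1 := by simp
  rw [this, L1_monomial]; simp

theorem L1_neg (P : Polynomial ℤ) : L1 (-P) = L1 P := by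
  unfold L1; simp

theorem L1_units_smul (u : ℤˣ) (P : Polynomial ℤ) : L1 (u • P) = L1 P := by
  rcases Int.units_eq_one_or u with h | h
  · rw [h]; simp
  · rw [h]; simp [L1_neg]

theorem L1_prod_le {ι : Type} (s : Finset ι) (f : ι → Polynomial ℤ) (B : ℝ) (hB : 0 ≤ B)
    (hf : ∀ i ∈ s, L1 (f i) ≤ B) : L1 (∏ i ∈ s, f i) ≤ B ^ s.card := by
  classical
  induction s using Finset.induction_on with
  | empty => simp [L1_one]
  | insert a s ha ih =>
    rw [Finset.prod_insert ha, Finset.card_insert_of_notMem ha, pow_succ']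
    refine (L1_mul_le _ _).trans ?_
    exact mul_le_mul (hf a (Finset.mem_insert_self _ _))
      (ih fun i hi => hf i (Finset.mem_insert_of_mem hi)) (L1_nonneg _) hB

theorem L1_ge_one (P : Polynomial ℤ) (hP : P ≠ 0) : 1 ≤ L1 P := by
  rw [L1_eq_support]
  obtain ⟨i, hi⟩ : P.support.Nonempty := Polynomial.support_nonempty.mpr hP
  have h1 : (1 : ℝ) ≤ |((P.coeff i : ℤ) : ℝ)| := by
    have h2 : (1 : ℤ) ≤ |P.coeff i| := Int.one_le_abs (Polynomial.mem_support_iff.mp hi)
    exact_mod_cast h2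
  refine h1.trans ?_
  exact Finset.single_le_sum (f := fun i => |((P.coeff i : ℤ) : ℝ)|) (fun _ _ => abs_nonneg _) hi

theorem L1_det_le {r : ℕ} (M : Matrix (Fin r) (Fin r) (Polynomial ℤ)) (B : ℝ) (hB : 0 ≤ B)
    (h : ∀ i j, L1 (M i j) ≤ B) : L1 M.det ≤ (r.factorial : ℝ) * B ^ r := by
  classical
  rw [Matrix.det_apply]
  refine (L1_sum_le _ _).trans ?_
  have : ∀ σ : Equiv.Perm (Fin r), L1 (Equiv.Perm.sign σ • ∏ i, M (σ i) i) ≤ B ^ r := by
    intro σ
    rw [L1_units_smul]
    have := L1_prod_le Finset.univ (fun i => M (σ i) i) B hB (fun i _ => h _ _)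
    simpa using this
  refine (Finset.sum_le_sum fun σ _ => this σ).trans ?_
  rw [Finset.sum_const, Finset.card_univ, Fintype.card_perm, Fintype.card_fin, nsmul_eq_mul]

theorem natDegree_det_le {r : ℕ} (M : Matrix (Fin r) (Fin r) (Polynomial ℤ)) (k : ℕ)
    (h : ∀ i j, (M i j).natDegree ≤ k) : M.det.natDegree ≤ r * k := by
  classical
  rw [Matrix.det_apply]
  refine Polynomial.natDegree_sum_le_of_forall_le _ _ fun σ _ => ?_
  have h1 : (Equiv.Perm.sign σ • ∏ i, M (σ i) i).natDegree ≤ (∏ i, M (σ i) i).natDegree := by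
    rcases Int.units_eq_one_or (Equiv.Perm.sign σ) with h | h
    · rw [h]; simp
    · rw [h]; simp
  refine h1.trans ((Polynomial.natDegree_prod_le _ _).trans ?_)
  refine (Finset.sum_le_sum fun i _ => h (σ i) i).trans ?_
  simp

theorem coeff_hasse_le (F : Polynomial ℤ) (e E k : ℕ) (he : e ≤ E) (hd : F.natDegree ≤ k)
    (hc : ∀ n, |F.coeff n| ≤ 1) (n : ℕ) :
    |(((Polynomial.hasseDeriv e F).coeff n : ℤ) : ℝ)| ≤ ((k : ℝ) + 1) ^ E := by
  rw [Polynomial.hasseDeriv_coeff]
  by_cases hn : n + e ≤ k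
  · push_cast
    rw [abs_mul]
    have h1 : |((F.coeff (n + e) : ℤ) : ℝ)| ≤ 1 := by exact_mod_cast hc (n + e)
    have h2 : |(((n + e).choose e : ℕ) : ℝ)| ≤ ((k : ℝ) + 1) ^ E := by
      rw [abs_of_nonneg (by positivity)]
      have h3 : (n + e).choose e ≤ (n + e) ^ e := Nat.choose_le_pow _ _
      have h4 : (((n + e).choose e : ℕ) : ℝ) ≤ ((k : ℝ) + 1) ^ e := by
        have h5 : (n + e) ^ e ≤ (k + 1) ^ e := Nat.pow_le_pow_left (by omega) _
        have h6 : (n + e).choose e ≤ (k + 1) ^ e := h3.trans h5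
        exact_mod_cast h6
      refine h4.trans (pow_le_pow_right₀ ?_ he)
      have : (0 : ℝ) ≤ k := by positivity
      linarith
    calc _ ≤ ((k : ℝ) + 1) ^ E * 1 := by
          exact mul_le_mul h2 h1 (abs_nonneg _) (by positivity)
      _ = _ := mul_one _
  · have : F.coeff (n + e) = 0 := Polynomial.coeff_eq_zero_of_natDegree_lt (by omega)
    rw [this]
    simp
    positivity

theorem L1_hasse_le (F : Polynomial ℤ) (e E k : ℕ) (he : e ≤ E) (hd : F.natDegree ≤ k)
    (hc : ∀ n, |F.coeff n| ≤ 1) :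
    L1 (Polynomial.hasseDeriv e F) ≤ ((k : ℝ) + 1) ^ (E + 1) := by
  have hdeg : (Polynomial.hasseDeriv e F).natDegree ≤ k :=
    (Polynomial.natDegree_hasseDeriv_le F e).trans (by omega)
  unfold L1
  refine (Finset.sum_le_sum fun i _ => coeff_hasse_le F e E k he hd hc i).trans ?_
  rw [Finset.sum_const, Finset.card_range, nsmul_eq_mul, pow_succ']
  refine mul_le_mul_of_nonneg_right ?_ (by positivity)
  exact_mod_cast Nat.add_le_add_right hdeg 1

end W5

open W5 in
theorem t_W_minor (hL : W_liou) : W_minor := by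
  intro N E m Cp hCp
  have hlogC : 0 ≤ Real.log Cp := Real.log_nonneg hCp
  have hfacN : (1 : ℝ) ≤ (N.factorial : ℝ) := by exact_mod_cast Nat.factorial_pos N
  have hlogN : 0 ≤ Real.log (N.factorial : ℝ) := Real.log_nonneg hfacN
  refine ⟨m * (2 * Real.log (N.factorial : ℝ) + 2 * (N * (E + 1))) +
    N * (2 * Real.log Cp + m) + 1, ?_, ?_⟩
  · have : 0 ≤ (m : ℝ) * (2 * Real.log (N.factorial : ℝ) + 2 * (N * (E + 1))) +
      N * (2 * Real.log Cp + m) := by positivity
    linarith
  intro K P z hK hP hPd hPL hPz k hKk r hr F e he hFd hFc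
  set D : Polynomial ℤ := (Matrix.of (fun i j => Polynomial.hasseDeriv (e j) (F i j))).det with hD
  have hdet : (Matrix.of (fun i j =>
      Polynomial.aeval z (Polynomial.hasseDeriv (e j) (F i j)))).det = Polynomial.aeval z D := by
    rw [hD]
    have := (Polynomial.aeval z : Polynomial ℤ →ₐ[ℤ] ℂ).map_det
      (Matrix.of (fun i j => Polynomial.hasseDeriv (e j) (F i j)))
    rw [this]
    rfl
  rw [hdet]
  by_cases hz : Polynomial.aeval z D = 0
  · exact Or.inl hz
  right
  have hD0 : D ≠ 0 := by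
    intro h
    rw [h] at hz
    simp at hz
  have hli := hL P D z hP hPz hz
  have hk2 : (2 : ℝ) ≤ k := by exact_mod_cast hK.trans hKk
  have hk0 : (0 : ℝ) < k := by linarith
  have hlk : (1 : ℝ) / 2 ≤ Real.log k := by
    have h1 : Real.log 2 ≤ Real.log k := Real.log_le_log (by norm_num) hk2
    have h2 := Real.log_two_gt_d9
    linarith
  have hDL : L1 D ≤ (N.factorial : ℝ) * (((k : ℝ) + 1) ^ (E + 1)) ^ N := by
    have h1 : L1 D ≤ (r.factorial : ℝ) * (((k : ℝ) + 1) ^ (E + 1)) ^ r :=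
      L1_det_le _ _ (by positivity) (fun i j => by
        simpa using L1_hasse_le (F i j) (e j) E k (he j) (hFd i j) (hFc i j))
    refine h1.trans ?_
    have h2 : (r.factorial : ℝ) ≤ N.factorial := by exact_mod_cast Nat.factorial_le hr
    have h3 : (((k : ℝ) + 1) ^ (E + 1)) ^ r ≤ (((k : ℝ) + 1) ^ (E + 1)) ^ N := by
      refine pow_le_pow_right₀ ?_ hr
      exact one_le_pow₀ (by linarith)
    exact mul_le_mul h2 h3 (by positivity) (by positivity)
  have hDd : D.natDegree ≤ N * k := by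
    have h1 : D.natDegree ≤ r * k := natDegree_det_le _ k (fun i j => by
      have := Polynomial.natDegree_hasseDeriv_le (F i j) (e j)
      have h2 := hFd i j
      simp only [Matrix.of_apply]
      omega)
    exact h1.trans (Nat.mul_le_mul_right _ hr)
  have hPd' : P.natDegree ≤ m * k := hPd.trans (Nat.mul_le_mul_left _ hKk)
  have hPL' : L1 P ≤ Cp * (k : ℝ) ^ m := by
    refine hPL.trans ?_
    have : (K : ℝ) ≤ k := by exact_mod_cast hKk
    gcongr
  have hD1 := L1_ge_one D hD0
  have hP1 := L1_ge_one P hP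
  have hA1 : L1 D ^ P.natDegree ≤
      ((N.factorial : ℝ) * (((k : ℝ) + 1) ^ (E + 1)) ^ N) ^ (m * k) :=
    (pow_le_pow_right₀ hD1 hPd').trans (pow_le_pow_left₀ (by linarith) hDL _)
  have hA2 : L1 P ^ D.natDegree ≤ (Cp * (k : ℝ) ^ m) ^ (N * k) :=
    (pow_le_pow_right₀ hP1 hDd).trans (pow_le_pow_left₀ (by linarith) hPL' _)
  set A : ℝ := ((N.factorial : ℝ) * (((k : ℝ) + 1) ^ (E + 1)) ^ N) ^ (m * k) *
    (Cp * (k : ℝ) ^ m) ^ (N * k) with hA
  have hfacpos : (0 : ℝ) < N.factorial := by linarith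
  have hCpos : (0 : ℝ) < Cp := by linarith
  have hApos : 0 < A := by
    rw [hA]; positivity
  have hfin : 1 ≤ ‖Polynomial.aeval z D‖ * A := by
    refine hli.trans ?_
    rw [mul_assoc]
    refine mul_le_mul_of_nonneg_left ?_ (norm_nonneg _)
    exact mul_le_mul hA1 hA2 (by positivity) (by positivity)
  have hlogk1 : Real.log ((k : ℝ) + 1) ≤ 2 * Real.log k := by
    have h1 : (k : ℝ) + 1 ≤ (k : ℝ) ^ 2 := by nlinarith
    have h2 := Real.log_le_log (by linarith) h1
    rw [Real.log_pow] at h2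
    exact_mod_cast h2
  have hlogA : Real.log A ≤ (m * (2 * Real.log (N.factorial : ℝ) + 2 * (N * (E + 1))) +
    N * (2 * Real.log Cp + m) + 1) * k * Real.log k := by
    have hk1 : (0 : ℝ) < (k : ℝ) + 1 := by linarith
    rw [hA, Real.log_mul (by positivity) (by positivity), Real.log_pow, Real.log_pow,
      Real.log_mul (by positivity) (by positivity), Real.log_mul (by positivity) (by positivity),
      Real.log_pow, Real.log_pow, Real.log_pow]
    push_cast
    have hlk0 : 0 ≤ Real.log k := by linarith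
    have e1 : Real.log (N.factorial : ℝ) ≤ 2 * Real.log (N.factorial : ℝ) * Real.log k := by
      nlinarith
    have e2 : (N : ℝ) * (((E : ℝ) + 1) * Real.log ((k : ℝ) + 1)) ≤
        2 * (N * (E + 1)) * Real.log k := by
      have : (N : ℝ) * (((E : ℝ) + 1) * Real.log ((k : ℝ) + 1)) ≤
          (N : ℝ) * (((E : ℝ) + 1) * (2 * Real.log k)) := by gcongr
      linarith
    have e3 : Real.log Cp ≤ 2 * Real.log Cp * Real.log k := by nlinarith
    have e4 : (m : ℝ) * k * (Real.log (N.factorial : ℝ) +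
        N * (((E : ℝ) + 1) * Real.log ((k : ℝ) + 1))) ≤
        (m : ℝ) * k * ((2 * Real.log (N.factorial : ℝ) + 2 * (N * (E + 1))) * Real.log k) := by
      refine mul_le_mul_of_nonneg_left ?_ (by positivity)
      linarith
    have e5 : (N : ℝ) * k * (Real.log Cp + m * Real.log k) ≤
        (N : ℝ) * k * ((2 * Real.log Cp + m) * Real.log k) := by
      refine mul_le_mul_of_nonneg_left ?_ (by positivity)
      linarith
    have e6 : 0 ≤ (k : ℝ) * Real.log k := by positivity
    nlinarith [e4, e5, e6]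
  have hexp : A ≤ Real.exp ((m * (2 * Real.log (N.factorial : ℝ) + 2 * (N * (E + 1))) +
    N * (2 * Real.log Cp + m) + 1) * k * Real.log k) := by
    rw [← Real.log_le_iff_le_exp hApos]
    exact hlogA
  rw [Real.exp_neg, inv_le_iff_one_le_mul₀ (Real.exp_pos _)]
  refine hfin.trans ?_
  exact mul_le_mul_of_nonneg_left hexp (norm_nonneg _)

end H517.EO
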