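import Pool.Agent.H517R2.EO.Basic

/-!
# TEAM EO : W_win (task W6)
differences of words avoid most scales near an algebraic number
-/

set_option autoImplicit false

open Finset

namespace H517.EO

namespace W6

/-- greedy choice of windows -/
theorem greedy (L : ℝ) : ∀ (N : ℕ) (V : Finset ℝ),
    (¬ ∃ f : Fin (N + 1) → ℝ, (∀ i, f i ∈ V) ∧ ∀ i : Fin N, f i.castSucc + L < f i.succ) →
    ∃ v : Fin N → ℝ, ∀ x ∈ V, ∃ i, v i ≤ x ∧ x ≤ v i + L := by
  intro N
  induction N with
  | zero =>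
    intro V h
    refine ⟨fun _ => 0, fun x hx => ?_⟩
    exact absurd ⟨fun _ => x, fun _ => hx, fun i => i.elim0⟩ h
  | succ N ih =>
    intro V h
    rcases V.eq_empty_or_nonempty with hV | hV
    · refine ⟨fun _ => 0, fun x hx => ?_⟩
      rw [hV] at hx
      exact absurd hx (Finset.notMem_empty x)
    · obtain ⟨v', hv'⟩ := ih (V.filter (fun x => V.min' hV + L < x)) (by
        rintro ⟨f, hf1, hf2⟩
        apply h
        refine ⟨Fin.cons (V.min' hV) f, ?_, ?_⟩
        · intro i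
          refine Fin.cases ?_ (fun j => ?_) i
          · rw [Fin.cons_zero]; exact V.min'_mem hV
          · rw [Fin.cons_succ]; exact (Finset.mem_filter.1 (hf1 j)).1
        · intro i
          refine Fin.cases ?_ (fun j => ?_) i
          · rw [Fin.castSucc_zero, Fin.cons_zero, Fin.cons_succ]
            exact (Finset.mem_filter.1 (hf1 0)).2
          · rw [← Fin.succ_castSucc, Fin.cons_succ, Fin.cons_succ]
            exact hf2 j)
      refine ⟨Fin.cons (V.min' hV) v', fun x hx => ?_⟩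
      by_cases hx2 : V.min' hV + L < x
      · obtain ⟨i, hi⟩ := hv' x (Finset.mem_filter.2 ⟨hx, hx2⟩)
        exact ⟨i.succ, by simpa using hi⟩
      · exact ⟨0, V.min'_le x hx, not_lt.1 hx2⟩

/-- a chain with gaps is strictly increasing with gaps -/
theorem chain (L : ℝ) (hL : 0 ≤ L) (N : ℕ) (f : Fin (N + 1) → ℝ)
    (h : ∀ i : Fin N, f i.castSucc + L < f i.succ) (i j : Fin (N + 1)) (hij : i < j) :
    f i + L < f j := by
  have hm : StrictMono f := Fin.strictMono_iff_lt_succ.2 fun i => by linarith [h i]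
  have hi : (i : ℕ) < N := by
    have := j.2
    have := Fin.lt_def.1 hij
    omega
  have e1 : i = (⟨i, hi⟩ : Fin N).castSucc := rfl
  have h2 := h ⟨i, hi⟩
  have h3 : (⟨i, hi⟩ : Fin N).succ ≤ j := by
    rw [Fin.le_def]
    have := Fin.lt_def.1 hij
    simpa using this
  have h4 := hm.monotone h3
  rw [← e1] at h2
  linarith

theorem aeval_cast (lam : ℝ) (F : Polynomial ℤ) :
    Polynomial.aeval (lam : ℂ) F = ((Polynomial.aeval lam F : ℝ) : ℂ) := by
  have := Polynomial.aeval_algebraMap_apply ℂ lam F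
  simpa using this

variable {A : Type} [Fintype A] [DecidableEq A]

/-- the vector of a pair of words -/
noncomputable def ww (z : ℂ) (E : ℕ) {k : ℕ} (p q : Fin k → A) (x : A × Fin (E + 1)) : ℂ :=
  Polynomial.aeval z (Polynomial.hasseDeriv (x.2 : ℕ) (FF p q x.1))

/-- the fixed vector -/
noncomputable def zz (lam : ℝ) (t : A → ℝ) (z : ℂ) (E : ℕ) (x : A × Fin (E + 1)) : ℂ :=
  (t x.1 : ℂ) * ((lam : ℂ) - z) ^ (x.2 : ℕ)

theorem approx (h3 : W_taylor) (h4 : A_rel) (lam : ℝ) (t : A → ℝ) (hl0 : 0 < lam) (hl1 : lam < 1)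
    (E : ℕ) (z : ℂ) (hz : ‖(lam : ℂ) - z‖ ≤ (1 - lam) / 4) {k : ℕ} (p q : Fin k → A) :
    ‖((XX lam t p - XX lam t q : ℝ) : ℂ) - ∑ x, ww z E p q x * zz lam t z E x‖ ≤
      (∑ a, |t a|) * ((8 / (1 - lam)) ^ (E + 2) * ‖(lam : ℂ) - z‖ ^ (E + 1)) := by
  obtain ⟨r1, r2, r3, r4, r5, r6⟩ := h4 A lam t (fun _ _ => 0) k p q
  have e1 : ∑ x, ww z E p q x * zz lam t z E x =
      ∑ a, (t a : ℂ) * ∑ e ∈ Finset.range (E + 1),
        ((lam : ℂ) - z) ^ e * Polynomial.aeval z (Polynomial.hasseDeriv e (FF p q a)) := by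
    rw [Fintype.sum_prod_type]
    refine Finset.sum_congr rfl fun a _ => ?_
    rw [Finset.mul_sum, Finset.sum_range]
    refine Finset.sum_congr rfl fun e _ => ?_
    unfold ww zz
    ring
  have e2 : ((XX lam t p - XX lam t q : ℝ) : ℂ) =
      ∑ a, (t a : ℂ) * Polynomial.aeval (lam : ℂ) (FF p q a) := by
    rw [← r6]
    push_cast
    refine Finset.sum_congr rfl fun a _ => ?_
    rw [aeval_cast]
  rw [e1, e2, ← Finset.sum_sub_distrib, Finset.sum_mul]
  refine le_trans (norm_sum_le _ _) (Finset.sum_le_sum fun a _ => ?_)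
  rw [← mul_sub, norm_mul, Complex.norm_real, Real.norm_eq_abs]
  exact mul_le_mul_of_nonneg_left (h3 lam z E hl0 hl1 hz (FF p q a) (r2 a)).1 (abs_nonneg _)

end W6

open W6 in
theorem t_W_win (h1 : W_lemma) (h2 : W_minor) (h3 : W_taylor) (h4 : A_rel) : W_win := by
  intro A _ _ _ lam t hl0 hl1 E Cp hCp
  set N : ℕ := Fintype.card (A × Fin (E + 1)) with hN
  have hNe : N = Fintype.card A * (E + 1) := by simp [hN]
  have hNpos : 0 < N := Fintype.card_pos
  obtain ⟨C', hC'1, hC'⟩ := h2 N E (Fintype.card A) Cp hCp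
  set B : ℝ := (2 / (1 - lam)) ^ (E + 1) with hB
  have hone : 1 ≤ 2 / (1 - lam) := by
    rw [le_div_iff₀ (by linarith)]
    linarith
  have hB1 : 1 ≤ B := one_le_pow₀ hone
  set C5 : ℝ := (∑ a, |t a|) * (8 / (1 - lam)) ^ (E + 2) with hC5
  have hC5n : 0 ≤ C5 := by
    apply mul_nonneg (Finset.sum_nonneg fun _ _ => abs_nonneg _)
    apply pow_nonneg
    apply div_nonneg (by norm_num)
    linarith
  set C0 : ℝ := 3 * (N * N.factorial * B ^ N) with hC0
  have hC0p : 0 < C0 := by
    have : (0 : ℝ) < N := by exact_mod_cast hNpos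
    positivity
  refine ⟨C' + |Real.log C0| + 2 + 2 * C5, by linarith [abs_nonneg (Real.log C0)], ?_⟩
  intro K P z hK hP hdeg hL1 hroot hz k hKk
  set C : ℝ := C' + |Real.log C0| + 2 + 2 * C5 with hC
  have hk2 : (2 : ℝ) ≤ k := by exact_mod_cast le_trans hK hKk
  have hlogk : Real.log 2 ≤ Real.log k := Real.log_le_log (by norm_num) hk2
  have hlog2 : 0.69 < Real.log 2 := by have := Real.log_two_gt_d9; linarith
  have hkl : 1 ≤ (k : ℝ) * Real.log k := by nlinarith
  set L : ℝ := C * k * Real.log k with hL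
  have hLeq : L = C * (k * Real.log k) := by rw [hL]; ring
  have hL1' : C' * (k * Real.log k) + |Real.log C0| + 2 ≤ L := by
    rw [hLeq, hC]
    nlinarith [abs_nonneg (Real.log C0)]
  have hC'k : 0 ≤ C' * (k * Real.log k) := by positivity
  have hL0 : 0 ≤ L := by linarith [abs_nonneg (Real.log C0)]
  set κ0 : ℝ := Real.exp (-(C' * k * Real.log k)) with hκ
  have hκ0 : 0 < κ0 := Real.exp_pos _
  have hκ1 : κ0 ≤ 1 := by
    rw [hκ, Real.exp_le_one_iff]
    have : C' * k * Real.log k = C' * (k * Real.log k) := by ring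
    rw [this]
    linarith
  have hexp : Real.exp (-L) * C0 < κ0 := by
    have e : C0 = Real.exp (Real.log C0) := (Real.exp_log hC0p).symm
    rw [e, ← Real.exp_add, hκ, Real.exp_lt_exp]
    have : C' * k * Real.log k = C' * (k * Real.log k) := by ring
    rw [this]
    linarith [le_abs_self (Real.log C0)]
  have hexp3 : 3 * Real.exp (-L) ≤ 1 := by
    have h5 : 3 ≤ Real.exp L := by
      have := Real.add_one_le_exp L
      linarith [abs_nonneg (Real.log C0)]
    rw [Real.exp_neg]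
    rw [← div_eq_mul_inv, div_le_one (Real.exp_pos _)]
    exact h5
  -- the finite set of values
  classical
  set D : (Fin k → A) × (Fin k → A) → ℝ := fun x => |XX lam t x.1 - XX lam t x.2| with hD
  set S : Finset ((Fin k → A) × (Fin k → A)) := Finset.univ.filter (fun x =>
    XX lam t x.1 ≠ XX lam t x.2 ∧ C * ‖(lam : ℂ) - z‖ ^ (E + 1) ≤ D x) with hS
  have hgoal := greedy L N (S.image (fun x => -Real.log (D x))) (by
    rintro ⟨f, hf1, hf2⟩
    have hf3 : ∀ i, ∃ x ∈ S, -Real.log (D x) = f i := fun i => Finset.mem_image.1 (hf1 i)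
    choose x hxS hxf using hf3
    have hDp : ∀ i, 0 < D (x i) := by
      intro i
      have := (Finset.mem_filter.1 (hxS i)).2.1
      exact abs_pos.2 (sub_ne_zero.2 this)
    have hDe : ∀ i, D (x i) = Real.exp (-f i) := by
      intro i
      rw [← hxf i, neg_neg, Real.exp_log (hDp i)]
    -- estimates of the linear forms
    have hest : ∀ i, D (x i) / 2 ≤ ‖∑ y, ww z E (x i).1 (x i).2 y * zz lam t z E y‖ ∧
        ‖∑ y, ww z E (x i).1 (x i).2 y * zz lam t z E y‖ ≤ 3 / 2 * D (x i) := by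
      intro i
      have ha := approx h3 h4 lam t hl0 hl1 E z hz (x i).1 (x i).2
      have hb := (Finset.mem_filter.1 (hxS i)).2.2
      have hnn : 0 ≤ ‖(lam : ℂ) - z‖ ^ (E + 1) := by positivity
      have hc : C5 * ‖(lam : ℂ) - z‖ ^ (E + 1) ≤ D (x i) / 2 := by
        have : 2 * C5 * ‖(lam : ℂ) - z‖ ^ (E + 1) ≤ C * ‖(lam : ℂ) - z‖ ^ (E + 1) := by
          apply mul_le_mul_of_nonneg_right _ hnn
          rw [hC]
          linarith [abs_nonneg (Real.log C0)]
        linarith
      have hd : (∑ a, |t a|) * ((8 / (1 - lam)) ^ (E + 2) * ‖(lam : ℂ) - z‖ ^ (E + 1)) =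
          C5 * ‖(lam : ℂ) - z‖ ^ (E + 1) := by rw [hC5]; ring
      rw [hd] at ha
      have he : ‖((XX lam t (x i).1 - XX lam t (x i).2 : ℝ) : ℂ)‖ = D (x i) := by
        rw [Complex.norm_real, Real.norm_eq_abs]
      have hf := norm_sub_norm_le ((XX lam t (x i).1 - XX lam t (x i).2 : ℝ) : ℂ)
        (∑ y, ww z E (x i).1 (x i).2 y * zz lam t z E y)
      have hg := norm_sub_norm_le (∑ y, ww z E (x i).1 (x i).2 y * zz lam t z E y)
        ((XX lam t (x i).1 - XX lam t (x i).2 : ℝ) : ℂ)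
      rw [norm_sub_rev] at hg
      rw [he] at hf hg
      constructor <;> linarith
    have hlt : ∀ i j, i < j → D (x j) ≤ Real.exp (-L) * D (x i) := by
      intro i j hij
      have := chain L hL0 N f hf2 i j hij
      rw [hDe, hDe, ← Real.exp_add, Real.exp_le_exp]
      linarith
    have g1 : ∀ i y, ‖ww z E (x i).1 (x i).2 y‖ ≤ B := by
      intro i y
      obtain ⟨r1, r2, r3, r4, r5, r6⟩ := h4 A lam t (fun _ _ => 0) k (x i).1 (x i).2
      have h6 := (h3 lam z E hl0 hl1 hz (FF (x i).1 (x i).2 y.1) (r2 y.1)).2 y.2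
        (Nat.lt_succ_iff.1 y.2.2)
      refine le_trans h6 ?_
      exact pow_le_pow_right₀ hone (by have := y.2.2; omega)
    have g2 : ∀ (r : ℕ) (g : Fin r → Fin (N + 1)) (y : Fin r → A × Fin (E + 1)), r ≤ N →
        (Matrix.of (fun i j => ww z E (x (g i)).1 (x (g i)).2 (y j))).det = 0 ∨
        κ0 ≤ ‖(Matrix.of (fun i j => ww z E (x (g i)).1 (x (g i)).2 (y j))).det‖ := by
      intro r g y hr
      have h6 := hC' K P z hK hP hdeg hL1 hroot k hKk r hr
        (fun i j => FF (x (g i)).1 (x (g i)).2 (y j).1) (fun j => ((y j).2 : ℕ))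
        (fun j => Nat.lt_succ_iff.1 (y j).2.2)
        (fun i j => (h4 A lam t (fun _ _ => 0) k _ _).1 _)
        (fun i j n => (h4 A lam t (fun _ _ => 0) k _ _).2.1 _ _)
      exact h6
    have g3 : ∀ i, 0 < ‖∑ y, ww z E (x i).1 (x i).2 y * zz lam t z E y‖ := by
      intro i
      have := (hest i).1
      have := hDp i
      linarith
    have g4 : ∀ i j, i ≤ j → ‖∑ y, ww z E (x j).1 (x j).2 y * zz lam t z E y‖ ≤
        ‖∑ y, ww z E (x i).1 (x i).2 y * zz lam t z E y‖ := by
      intro i j hij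
      rcases eq_or_lt_of_le hij with rfl | hij
      · exact le_rfl
      · have h6 := hlt i j hij
        have h7 := (hest i).1
        have h8 := (hest j).2
        have h9 := hDp i
        have h10 : 3 * Real.exp (-L) * D (x i) ≤ 1 * D (x i) :=
          mul_le_mul_of_nonneg_right hexp3 h9.le
        linarith
    obtain ⟨i, hi⟩ := h1 (A × Fin (E + 1)) (zz lam t z E) B κ0 hB1 hκ0 hκ1
      (fun i => ww z E (x i).1 (x i).2) g1 g2 g3 g4
    have h6 := hlt i.castSucc i.succ Fin.castSucc_lt_succ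
    have h7 := (hest i.castSucc).1
    have h8 := (hest i.succ).2
    have h9 : ((N : ℝ) * N.factorial * B ^ N / κ0) *
        ‖∑ y, ww z E (x i.succ).1 (x i.succ).2 y * zz lam t z E y‖ ≤
        ((N : ℝ) * N.factorial * B ^ N / κ0) * (3 / 2 * (Real.exp (-L) * D (x i.castSucc))) := by
      apply mul_le_mul_of_nonneg_left
      · linarith
      · positivity
    have h10 : ((N : ℝ) * N.factorial * B ^ N / κ0) *
        (3 / 2 * (Real.exp (-L) * D (x i.castSucc))) =
        (Real.exp (-L) * C0 / κ0) * (D (x i.castSucc) / 2) := by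
      rw [hC0]; ring
    have h11 : Real.exp (-L) * C0 / κ0 < 1 := by
      rw [div_lt_one hκ0]; exact hexp
    have h12 := hDp i.castSucc
    have h13 : Real.exp (-L) * C0 / κ0 * (D (x i.castSucc) / 2) < D (x i.castSucc) / 2 := by
      nlinarith
    have h14 := le_trans (le_trans h7 hi) h9
    rw [h10] at h14
    linarith)
  obtain ⟨v, hv⟩ := hgoal
  rw [← hNe]
  refine ⟨v, fun p q hne hge => ?_⟩
  exact hv (-Real.log |XX lam t p - XX lam t q|)
    (Finset.mem_image.2 ⟨(p, q), Finset.mem_filter.2 ⟨Finset.mem_univ _, hne, hge⟩, rfl⟩)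

end H517.EO
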