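import Pool.Agent.H517R2.EO.Basic

/-!
# TEAM EO, task W7: drop through windows (`W_drop`)
-/

set_option autoImplicit false

open Finset

namespace H517.EO

namespace W7

/-- the induction over the set of windows -/
theorem main (hin : E_inactive) {Ω β : Type} [Fintype Ω] (κ : Ω → β) (x : Ω → ℝ) (lam : ℝ)
    (h0 : 0 < lam) (h1 : lam < 1) (N : ℕ) (v : Fin N → ℝ) (ell : ℝ) (hell : 0 ≤ ell) :
    ∀ (M : ℕ) (S : Finset (Fin N)), S.card = M → ∀ nA nE : ℕ, nA ≤ nE →
    (∀ p q, κ p = κ q → lam ^ nE ≤ |x p - x q| → |x p - x q| < lam ^ nA →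
      ∃ i ∈ S, v i ≤ -Real.log |x p - x q| ∧ -Real.log |x p - x q| ≤ v i + ell) →
    ∃ u u' : Fin N → ℕ, (∀ j, nA ≤ u j ∧ u j ≤ u' j ∧
        (u' j : ℝ) ≤ u j + ell / Real.log (1 / lam) + 4) ∧
      HR (fun p => (κ p, ⌊x p / lam ^ nA⌋)) - HR (fun p => (κ p, ⌊x p / lam ^ nE⌋)) ≤
        10 * (M + 1) + ∑ j ∈ S, (HR (fun p => (κ p, ⌊x p / lam ^ (u j)⌋)) -
          HR (fun p => (κ p, ⌊x p / lam ^ (u' j)⌋))) := by
  have hL : 0 < Real.log (1 / lam) := Real.log_pos (by rw [lt_div_iff₀ h0]; linarith)
  have hLeq : Real.log lam = - Real.log (1 / lam) := by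
    rw [one_div, Real.log_inv]; ring
  set L := Real.log (1 / lam) with hLdef
  have hlog3 : Real.log 3 ≤ 2 := by
    have := Real.log_le_sub_one_of_pos (show (0 : ℝ) < 3 by norm_num)
    linarith
  have hellL : 0 ≤ ell / L := div_nonneg hell hL.le
  intro M
  induction M with
  | zero =>
    intro S hS nA nE hAE hcov
    have hSe : S = ∅ := Finset.card_eq_zero.mp hS
    refine ⟨fun _ => nA, fun _ => nA, fun j => ⟨le_rfl, le_rfl, by linarith⟩, ?_⟩
    have := hin Ω β κ x (lam ^ nA) (lam ^ nE) (pow_pos h0 _)
      (pow_le_pow_of_le_one h0.le h1.le hAE) (by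
        intro p q hpq hlt
        by_contra hcon
        push Not at hcon
        obtain ⟨i, hi, _⟩ := hcov p q hpq hcon.le hlt
        rw [hSe] at hi
        exact absurd hi (Finset.notMem_empty _))
    simp only [sub_self, Finset.sum_const_zero]
    push_cast
    linarith
  | succ M ih =>
    intro S hS nA nE hAE hcov
    classical
    by_cases hact : ∃ pq : Ω × Ω, κ pq.1 = κ pq.2 ∧ lam ^ nE ≤ |x pq.1 - x pq.2| ∧
        |x pq.1 - x pq.2| < lam ^ nA
    · -- largest active pair
      obtain ⟨pq0, hpq0⟩ := hact
      obtain ⟨pq, hpqm, hmax⟩ := Finset.exists_max_image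
        (Finset.univ.filter (fun pq : Ω × Ω => κ pq.1 = κ pq.2 ∧ lam ^ nE ≤ |x pq.1 - x pq.2| ∧
          |x pq.1 - x pq.2| < lam ^ nA)) (fun pq => |x pq.1 - x pq.2|)
        ⟨pq0, by simpa using hpq0⟩
      simp only [Finset.mem_filter, Finset.mem_univ, true_and] at hpqm hmax
      obtain ⟨hk, hge, hlt⟩ := hpqm
      obtain ⟨i, hiS, hi1, hi2⟩ := hcov pq.1 pq.2 hk hge hlt
      set d := |x pq.1 - x pq.2| with hd
      have hdpos : 0 < d := lt_of_lt_of_le (pow_pos h0 _) hge
      set w := -Real.log d with hw
      have hwA : nA * L < w := by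
        have := Real.log_lt_log hdpos hlt
        rw [Real.log_pow, hLeq] at this
        rw [hw]; linarith
      have hwE : w ≤ nE * L := by
        have := Real.log_le_log (pow_pos h0 _) hge
        rw [Real.log_pow, hLeq] at this
        rw [hw]; linarith
      have hw0 : 0 < w := lt_of_le_of_lt (by positivity) hwA
      set s := ⌊w / L⌋₊ with hs
      have hsle : (s : ℝ) ≤ w / L := Nat.floor_le (by positivity)
      have hslt : w / L < s + 1 := Nat.lt_floor_add_one _
      have hAs : nA ≤ s := by
        apply Nat.le_floor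
        rw [le_div_iff₀ hL]; exact hwA.le
      have hsE : s ≤ nE := by
        have : (s : ℝ) ≤ nE := hsle.trans (by rw [div_le_iff₀ hL]; exact hwE)
        exact_mod_cast this
      have hds : d ≤ lam ^ s := by
        rw [← Real.log_le_log_iff hdpos (pow_pos h0 _), Real.log_pow, hLeq]
        have h2 : (s : ℝ) * L ≤ w := by rwa [le_div_iff₀ hL] at hsle
        rw [hw] at h2
        linarith
      have hstep : HR (fun p => (κ p, ⌊x p / lam ^ nA⌋)) ≤
          HR (fun p => (κ p, ⌊x p / lam ^ s⌋)) + Real.log 3 := by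
        refine hin Ω β κ x (lam ^ nA) (lam ^ s) (pow_pos h0 _)
          (pow_le_pow_of_le_one h0.le h1.le hAs) ?_
        intro p q hpq hlt'
        by_cases hE : lam ^ nE ≤ |x p - x q|
        · exact (hmax (p, q) ⟨hpq, hE, hlt'⟩).trans hds
        · push Not at hE
          exact hE.le.trans (pow_le_pow_of_le_one h0.le h1.le hsE)
      set m := ⌈(v i + ell) / L⌉₊ + 1 with hm
      have hvi0 : 0 ≤ (v i + ell) / L := div_nonneg (by linarith) hL.le
      have hwv : w / L ≤ (v i + ell) / L := div_le_div_of_nonneg_right hi2 hL.le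
      have hceil : (v i + ell) / L ≤ (⌈(v i + ell) / L⌉₊ : ℝ) := Nat.le_ceil _
      have hceil2 : (⌈(v i + ell) / L⌉₊ : ℝ) < (v i + ell) / L + 1 := Nat.ceil_lt_add_one hvi0
      have hmR : (m : ℝ) = (⌈(v i + ell) / L⌉₊ : ℝ) + 1 := by rw [hm]; push_cast; ring
      have hsm : s ≤ m := by
        have : (s : ℝ) ≤ m := by rw [hmR]; linarith
        exact_mod_cast this
      have hvw : (v i + ell) / L ≤ w / L + ell / L := by
        rw [← add_div]
        exact div_le_div_of_nonneg_right (by linarith) hL.le
      have hmbd : (m : ℝ) ≤ s + ell / L + 4 := by rw [hmR]; linarith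
      by_cases hmE : nE ≤ m
      · -- last window
        refine ⟨fun j => if j = i then s else nA, fun j => if j = i then nE else nA, ?_, ?_⟩
        · intro j
          by_cases hj : j = i
          · simp only [hj, if_true]
            refine ⟨hAs, hsE, ?_⟩
            have : (nE : ℝ) ≤ m := by exact_mod_cast hmE
            linarith
          · simp only [hj, if_false]
            exact ⟨le_rfl, le_rfl, by linarith⟩
        · have hsum : ∑ j ∈ S, (HR (fun p => (κ p, ⌊x p / lam ^ (if j = i then s else nA)⌋)) -
              HR (fun p => (κ p, ⌊x p / lam ^ (if j = i then nE else nA)⌋))) =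
              HR (fun p => (κ p, ⌊x p / lam ^ s⌋)) - HR (fun p => (κ p, ⌊x p / lam ^ nE⌋)) := by
            rw [Finset.sum_eq_single i]
            · simp only [if_true]
            · intro j _ hj
              simp only [hj, if_false, sub_self]
            · intro h; exact absurd hiS h
          rw [hsum]
          push_cast
          have : (0 : ℝ) ≤ M := Nat.cast_nonneg _
          linarith
      · push Not at hmE
        obtain ⟨u, u', hu, hdrop⟩ := ih (S.erase i) (by rw [Finset.card_erase_of_mem hiS, hS]; rfl)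
          m nE hmE.le (by
            intro p q hpq hge' hlt'
            have hpos : 0 < |x p - x q| := lt_of_lt_of_le (pow_pos h0 _) hge'
            obtain ⟨j, hjS, hj1, hj2⟩ := hcov p q hpq hge'
              (lt_of_lt_of_le hlt' (pow_le_pow_of_le_one h0.le h1.le (hAs.trans hsm)))
            refine ⟨j, Finset.mem_erase.mpr ⟨?_, hjS⟩, hj1, hj2⟩
            intro hji
            rw [hji] at hj2
            have h3 := Real.log_lt_log hpos hlt'
            rw [Real.log_pow, hLeq] at h3
            have h4 : (v i + ell) ≤ (⌈(v i + ell) / L⌉₊ : ℝ) * L := by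
              rwa [div_le_iff₀ hL] at hceil
            rw [hmR] at h3
            nlinarith)
        refine ⟨fun j => if j = i then s else u j, fun j => if j = i then m else u' j, ?_, ?_⟩
        · intro j
          by_cases hj : j = i
          · simp only [hj, if_true]
            exact ⟨hAs, hsm, hmbd⟩
          · simp only [hj, if_false]
            exact ⟨(hAs.trans hsm).trans (hu j).1, (hu j).2⟩
        · have hsum : ∑ j ∈ S, (HR (fun p => (κ p, ⌊x p / lam ^ (if j = i then s else u j)⌋)) -
              HR (fun p => (κ p, ⌊x p / lam ^ (if j = i then m else u' j)⌋))) =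
              (HR (fun p => (κ p, ⌊x p / lam ^ s⌋)) - HR (fun p => (κ p, ⌊x p / lam ^ m⌋))) +
              ∑ j ∈ S.erase i, (HR (fun p => (κ p, ⌊x p / lam ^ (u j)⌋)) -
                HR (fun p => (κ p, ⌊x p / lam ^ (u' j)⌋))) := by
            rw [← Finset.add_sum_erase S _ hiS]
            congr 1
            · simp only [if_true]
            · refine Finset.sum_congr rfl ?_
              intro j hj
              have hji : j ≠ i := Finset.ne_of_mem_erase hj
              simp only [hji, if_false]
          rw [hsum]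
          push_cast
          linarith
    · refine ⟨fun _ => nA, fun _ => nA, fun j => ⟨le_rfl, le_rfl, by linarith⟩, ?_⟩
      have := hin Ω β κ x (lam ^ nA) (lam ^ nE) (pow_pos h0 _)
        (pow_le_pow_of_le_one h0.le h1.le hAE) (by
          intro p q hpq hlt
          by_contra hcon
          push Not at hcon
          exact hact ⟨(p, q), hpq, hcon.le, hlt⟩)
      simp only [sub_self, Finset.sum_const_zero]
      push_cast
      have : (0 : ℝ) ≤ M := Nat.cast_nonneg _
      linarith

end W7

/-- drop through windows -/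
theorem t_W_drop (hin : E_inactive) (_hmono : E_mono) : W_drop := by
  intro Ω β _ κ x lam h0 h1 N v ell hell nA nE hAE hcov
  obtain ⟨u, u', hu, hd⟩ := W7.main hin κ x lam h0 h1 N v ell hell N Finset.univ (by simp) nA nE
    hAE (by
      intro p q hpq hge hlt
      have hpos : 0 < |x p - x q| := lt_of_lt_of_le (pow_pos h0 _) hge
      obtain ⟨i, hi⟩ := hcov p q hpq (fun h => by rw [h, sub_self, abs_zero] at hpos; exact lt_irrefl _ hpos) hge
      exact ⟨i, Finset.mem_univ _, hi⟩)
  exact ⟨u, u', hu, hd⟩

end H517.EO
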