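import Pool.Agent.H517R2.EO.T_A2
import Pool.Agent.H517R2.EO.T_A3
import Pool.Agent.H517R2.EO.T_A4
import Pool.Agent.H517R2.EO.T_A5
import Pool.Agent.H517R2.EO.T_A6
import Pool.Agent.H517R2.EO.T_A_bds
import Pool.Agent.H517R2.EO.T_A8
import Pool.Agent.H517R2.EO.T_A9
import Pool.Agent.H517R2.EO.T_D1
import Pool.Agent.H517R2.EO.T_D2
import Pool.Agent.H517R2.EO.T_D3
import Pool.Agent.H517R2.EO.T_E1
import Pool.Agent.H517R2.EO.T_E2
import Pool.Agent.H517R2.EO.T_E3
import Pool.Agent.H517R2.EO.T_F1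
import Pool.Agent.H517R2.EO.T_F2
import Pool.Agent.H517R2.EO.T_F_one
import Pool.Agent.H517R2.EO.T_F4
import Pool.Agent.H517R2.EO.T_F5
import Pool.Agent.H517R2.EO.T_F6
import Pool.Agent.H517R2.EO.T_F7
import Pool.Agent.H517R2.EO.T_F8
import Pool.Agent.H517R2.EO.T_G_holder
import Pool.Agent.H517R2.EO.T_G2
import Pool.Agent.H517R2.EO.T_G_upper
import Pool.Agent.H517R2.EO.T_G5
import Pool.Agent.H517R2.EO.T_G6
import Pool.Agent.H517R2.EO.T_L1
import Pool.Agent.H517R2.EO.T_L2
import Pool.Agent.H517R2.EO.T_L3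
import Pool.Agent.H517R2.EO.T_L4
import Pool.Agent.H517R2.EO.T_M1
import Pool.Agent.H517R2.EO.T_M2
import Pool.Agent.H517R2.EO.T_N1
import Pool.Agent.H517R2.EO.T_N2
import Pool.Agent.H517R2.EO.T_P1
import Pool.Agent.H517R2.EO.T_P2
import Pool.Agent.H517R2.EO.T_P3
import Pool.Agent.H517R2.EO.T_P4
import Pool.Agent.H517R2.EO.T_W2
import Pool.Agent.H517R2.EO.T_W4
import Pool.Agent.H517R2.EO.T_W5
import Pool.Agent.H517R2.EO.T_W6
import Pool.Agent.H517R2.EO.T_W7
import Pool.Agent.H517R2.EO.T_W8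

/-!
# TEAM EO : everything except A1, G3, W1, W3
-/

set_option autoImplicit false

namespace H517.EO

theorem final0 (hker : A_ker) (hspan : A_span) (hlim : A_lim) (htype : G_type) (hliou : W_liou)
    (hlem : W_lemma) : G_main := by
  have hLm : L_mono := t_L_mono
  have hLl : L_leak := t_L_leak (t_L_prod t_L_single) hLm
  have hDd : D_drop := t_D_drop t_D_pair t_E_bin t_E_grid
  have hDl : D_lam := t_D_lam hDd hLl hLm t_E_grid
  have hF1 : F_one := t_F_one t_F_conv
  have hFh : F_h := t_F_h hF1 t_E_submod t_E_mono t_E_bound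
  have hF2 : F_two := t_F_two (t_F_ent t_E_submod) t_E_submod hFh
  have hFt : F_thm := t_F_thm hF1 hF2 hFh t_F_act t_E_mono
  have hFl : F_low := t_F_low hFt t_E_submod t_E_mono
  have hN : N_nonflat := t_N_nonflat t_N_fejer hLl hLm t_E_grid t_E_card
  have hPg : P_grid := t_P_grid t_P_step t_P_multi
  have hAc : A_compact := t_A_compact hker (t_A_caseA t_E_mono t_E_card t_E_submod) t_A_anal
    t_A_root t_A_rel hlim hspan t_A_det t_A_bds
  have hWw : W_win := t_W_win hlem (t_W_minor hliou) t_W_taylor t_A_rel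
  have hWk : W_kappa := t_W_kappa hPg hWw (t_W_drop t_E_inactive t_E_mono) t_E_grid
  have hM : M_claim := t_M_claim hDl hFl t_P_near t_A_chain hAc hWk t_W_sep
  have hMc : M_cells := t_M_cells hM hN t_E_bound t_E_card
  exact t_G_main (t_G_homog hMc t_G_holder) htype t_G_upper

end H517.EO
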