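import Pool.Agent.H517R2.EO.Basic

/-!
# TEAM EO : A2, case A
-/

set_option autoImplicit false

open Finset

namespace H517.EO

namespace A2

theorem fib_fst {Ω1 Ω2 β : Type} [Fintype Ω1] [Fintype Ω2] (F : Ω1 → β) (x : Ω1 × Ω2) :
    fib (fun x : Ω1 × Ω2 => F x.1) x = fib F x.1 * (Fintype.card Ω2 : ℝ) := by
  unfold fib
  have : fiber (fun x : Ω1 × Ω2 => F x.1) x = (fiber F x.1) ×ˢ (Finset.univ : Finset Ω2) := by
    ext q
    simp only [mem_fiber, Finset.mem_product, Finset.mem_univ, and_true]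
  rw [this, Finset.card_product, Finset.card_univ]
  push_cast
  rfl

theorem HR_fst {Ω1 Ω2 β : Type} [Fintype Ω1] [Fintype Ω2] [Nonempty Ω1] [Nonempty Ω2]
    (F : Ω1 → β) :
    HR (fun x : Ω1 × Ω2 => F x.1) = HR F + Real.log (Fintype.card Ω2 : ℝ) := by
  have hc : (Fintype.card Ω2 : ℝ) ≠ 0 := by exact_mod_cast Fintype.card_ne_zero
  have h1 : HR (fun x : Ω1 × Ω2 => F x.1) =
      avg (fun x : Ω1 × Ω2 => Real.log (fib F x.1) + Real.log (Fintype.card Ω2 : ℝ)) := by
    unfold HR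
    apply avg_congr
    intro x
    rw [fib_fst, Real.log_mul (fib_pos F x.1).ne' hc]
  rw [h1, avg_prod]
  have h2 : ∀ p : Ω1, avg (fun p' : Ω2 => Real.log (fib F (p, p').1) +
      Real.log (Fintype.card Ω2 : ℝ)) = Real.log (fib F p) + Real.log (Fintype.card Ω2 : ℝ) := by
    intro p
    exact avg_const (Ω := Ω2) (Real.log (fib F p) + Real.log (Fintype.card Ω2 : ℝ))
  rw [avg_congr h2, avg_add, avg_const (Ω := Ω1)]
  rfl

theorem ncard_floor {Ω : Type} (S : Set Ω) (v : Ω → ℝ) (B : ℝ) (hB : 0 ≤ B) (hf : S.Finite)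
    (h : ∀ p ∈ S, ∀ q ∈ S, |v p - v q| ≤ B) :
    (((S.image (fun p => ⌊v p⌋)).ncard : ℕ) : ℝ) ≤ B + 2 := by
  rcases S.eq_empty_or_nonempty with he | hne
  · rw [he]
    simp
    linarith
  obtain ⟨a, ha, hmin⟩ := Set.exists_min_image S v hf hne
  have hsub : S.image (fun p => ⌊v p⌋) ⊆ ((Finset.Icc ⌊v a⌋ ⌊v a + B⌋ : Finset ℤ) : Set ℤ) := by
    rintro _ ⟨p, hp, rfl⟩
    simp only [Finset.coe_Icc, Set.mem_Icc]
    refine ⟨Int.floor_le_floor (hmin p hp), Int.floor_le_floor ?_⟩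
    have := (abs_le.1 (h p hp a ha)).2
    linarith
  have h1 : (S.image (fun p => ⌊v p⌋)).ncard ≤ (Finset.Icc ⌊v a⌋ ⌊v a + B⌋ : Finset ℤ).card := by
    rw [← Set.ncard_coe_finset]
    exact Set.ncard_le_ncard hsub (Finset.finite_toSet _)
  have h2 : (((Finset.Icc ⌊v a⌋ ⌊v a + B⌋ : Finset ℤ).card : ℕ) : ℝ) ≤ B + 2 := by
    rw [Int.card_Icc]
    have h3 : ⌊v a⌋ ≤ ⌊v a + B⌋ := Int.floor_le_floor (by linarith)
    have h4 : (((⌊v a + B⌋ + 1 - ⌊v a⌋).toNat : ℕ) : ℝ) = ((⌊v a + B⌋ + 1 - ⌊v a⌋ : ℤ) : ℝ) := by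
      have : (((⌊v a + B⌋ + 1 - ⌊v a⌋).toNat : ℕ) : ℤ) = ⌊v a + B⌋ + 1 - ⌊v a⌋ :=
        Int.toNat_of_nonneg (by linarith)
      exact_mod_cast this
    rw [h4]
    push_cast
    have h5 := Int.floor_le (v a + B)
    have h6 := Int.lt_floor_add_one (v a)
    linarith
  calc _ ≤ (((Finset.Icc ⌊v a⌋ ⌊v a + B⌋ : Finset ℤ).card : ℕ) : ℝ) := by exact_mod_cast h1
    _ ≤ B + 2 := h2

theorem HR_nonneg {Ω β : Type} [Fintype Ω] (f : Ω → β) : 0 ≤ HR f :=
  avg_nonneg fun p => Real.log_nonneg (one_le_fib f p)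

theorem HR_empty {Ω β : Type} [Fintype Ω] [IsEmpty Ω] (f : Ω → β) : HR f = 0 := by
  unfold HR avg
  simp

end A2

open A2

theorem t_A_caseA (_h1 : E_mono) (h2 : E_card) (h3 : E_submod) : A_caseA := by
  intro A _ _ lam t τ' hlam hlam1 l k h β g B hB hg
  have hlog : 0 ≤ Real.log (B + 2) := Real.log_nonneg (by linarith)
  rcases isEmpty_or_nonempty (Fin k → A) with hE | hE
  · unfold condH
    rw [HR_empty, HR_empty]
    have : 0 ≤ HT lam t τ' l := HR_nonneg _
    linarith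
  have hpl : 0 < lam ^ l := pow_pos hlam l
  set y : (Fin k → A) → (A → ℕ → ℤ) := fun p => YM τ' l (pre h p) with hy
  set c : (Fin k → A) → ℤ := fun p => ⌊XX lam t (pre h p) / lam ^ l⌋ with hc
  -- step 1
  have s1 : HR g ≤ HR (fun p => (g p, c p)) + Real.log (B + 2) := by
    apply h2 (Fin k → A) β ℤ g c (B + 2) (by linarith)
    intro p
    apply ncard_floor _ (fun q => XX lam t (pre h q) / lam ^ l) B hB (Finset.finite_toSet _)
    intro q hq r hr
    have hq' : g q = g p := by simpa [mem_fiber] using hq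
    have hr' : g r = g p := by simpa [mem_fiber] using hr
    have := (hg q r (hq'.trans hr'.symm)).2
    rw [← sub_div, abs_div, abs_of_pos hpl, div_le_iff₀ hpl]
    exact this
  -- step 2
  have s2 := h3 (Fin k → A) ((A → ℕ → ℤ) × ℤ) β (Fin l → A) (fun p => (y p, c p)) g (pre h)
  have e1 : HR (fun p => ((y p, c p), g p)) = HR (fun p => (g p, c p)) := by
    apply HR_congr
    intro p q
    simp only [Prod.mk.injEq]
    constructor
    · rintro ⟨⟨-, h4⟩, h5⟩
      exact ⟨h5, h4⟩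
    · rintro ⟨h5, h4⟩
      exact ⟨⟨(hg p q h5).1, h4⟩, h5⟩
  have e2 : HR (fun p => (((y p, c p), g p), pre h p)) = HR (fun p => (g p, pre h p)) := by
    apply HR_congr
    intro p q
    simp only [Prod.mk.injEq]
    constructor
    · rintro ⟨⟨-, h4⟩, h5⟩
      exact ⟨h4, h5⟩
    · rintro ⟨h4, h5⟩
      refine ⟨⟨⟨?_, ?_⟩, h4⟩, h5⟩
      · simp only [hy, h5]
      · simp only [hc, h5]
  -- step 3
  have s3 : condH (pre h) (fun p => (y p, c p)) = HT lam t τ' l := by
    obtain ⟨b, rfl⟩ := Nat.exists_eq_add_of_le h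
    haveI : Nonempty ((Fin l → A) × (Fin b → A)) :=
      (Fin.appendEquiv (α := A) l b).nonempty_congr.2 hE
    haveI : Nonempty (Fin l → A) := (nonempty_prod.1 this).1
    haveI : Nonempty (Fin b → A) := (nonempty_prod.1 ‹Nonempty ((Fin l → A) × (Fin b → A))›).2
    unfold condH
    rw [HR_append, HR_append]
    have e3 : (fun x : (Fin l → A) × (Fin b → A) =>
        (y (Fin.append x.1 x.2), c (Fin.append x.1 x.2))) =
        fun x => (fun p : Fin l → A => (YM τ' l p, ⌊XX lam t p / lam ^ l⌋)) x.1 := by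
      funext x
      simp only [hy, hc, pre_append]
    have e4 : HR (fun x : (Fin l → A) × (Fin b → A) =>
        ((y (Fin.append x.1 x.2), c (Fin.append x.1 x.2)), pre h (Fin.append x.1 x.2))) =
        HR (fun x : (Fin l → A) × (Fin b → A) => (id : (Fin l → A) → (Fin l → A)) x.1) := by
      apply HR_congr
      intro p q
      simp only [Prod.mk.injEq, hy, hc, pre_append, id]
      constructor
      · exact fun h => h.2
      · intro h
        rw [h]
        exact ⟨⟨rfl, rfl⟩, rfl⟩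
    rw [e3, e4, HR_fst (fun p : Fin l → A => (YM τ' l p, ⌊XX lam t p / lam ^ l⌋)),
      HR_fst (id : (Fin l → A) → (Fin l → A))]
    have e5 : HR (id : (Fin l → A) → (Fin l → A)) = 0 := by
      unfold HR
      have : ∀ p : Fin l → A, Real.log (fib (id : (Fin l → A) → (Fin l → A)) p) = 0 := by
        intro p
        have h1 : fiber (id : (Fin l → A) → (Fin l → A)) p = {p} := by
          ext q
          simp [mem_fiber]
        unfold fib
        rw [h1]
        simp
      rw [avg_congr this, avg_const]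
    rw [e5]
    unfold HT
    ring
  unfold condH at s2 s3 ⊢
  rw [e1, e2] at s2
  linarith

end H517.EO
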