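import Pool.Agent.H517R2.EO.Basic

/-!
# TEAM EO, task F1 : collision of a sum of independent digits (F_conv)
-/

set_option autoImplicit false

open Finset

namespace H517.EO

namespace F1

open Classical in
/-- number of pairs with difference `w` -/
noncomputable def NN {V S : Type} [AddCommGroup V] [Fintype S] (f : S → V) (w : V) : ℝ :=
  ∑ a : S, ∑ b : S, if f a = f b + w then (1 : ℝ) else 0

/-- translated counting vector -/
noncomputable def vec {V S : Type} [AddCommGroup V] [DecidableEq V] [Fintype S] (f : S → V)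
    (w : V) : lp (fun _ : V => ℝ) 2 :=
  ∑ a : S, lp.single 2 (f a + w) (1 : ℝ)

theorem inner_vec {V S : Type} [AddCommGroup V] [DecidableEq V] [Fintype S] (f : S → V)
    (u v : V) : inner ℝ (vec f u) (vec f v) = NN f (v - u) := by
  classical
  unfold vec NN
  rw [sum_inner]
  refine Finset.sum_congr rfl fun a _ => ?_
  rw [inner_sum]
  refine Finset.sum_congr rfl fun b _ => ?_
  rw [lp.inner_single_left, lp.single_apply]
  by_cases h : f a = f b + (v - u)
  · have h' : f a + u = f b + v := by rw [h]; abel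
    rw [if_pos h, h']
    simp
  · have h' : f a + u ≠ f b + v := by
      intro h'
      apply h
      have : f a = f b + v - u := by rw [← h']; abel
      rw [this]; abel
    rw [if_neg h, Pi.single_apply, if_neg h']
    simp

theorem NN_neg {V S : Type} [AddCommGroup V] [Fintype S] (f : S → V) (w : V) :
    NN f (-w) = NN f w := by
  classical
  unfold NN
  rw [Finset.sum_comm]
  refine Finset.sum_congr rfl fun a _ => Finset.sum_congr rfl fun b _ => ?_
  by_cases h : f a = f b + w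
  · have h' : f b = f a + -w := by rw [h]; abel
    rw [if_pos h, if_pos h']
  · have h' : ¬ f b = f a + -w := by
      intro h'
      apply h
      rw [h']; abel
    rw [if_neg h, if_neg h']

theorem norm_sq_vec {V S : Type} [AddCommGroup V] [DecidableEq V] [Fintype S] (f : S → V)
    (u v : V) : ‖vec f u - vec f v‖ ^ 2 = 2 * (NN f 0 - NN f (v - u)) := by
  rw [@norm_sub_sq_real, ← real_inner_self_eq_norm_sq, ← real_inner_self_eq_norm_sq, inner_vec,
    inner_vec, inner_vec, sub_self, sub_self]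
  ring

theorem norm_vec_mul {V S : Type} [AddCommGroup V] [DecidableEq V] [Fintype S] (f : S → V)
    (w : V) (j : ℕ) : ‖vec f 0 - vec f (j • w)‖ ≤ j * ‖vec f 0 - vec f w‖ := by
  induction j with
  | zero => simp
  | succ j ih =>
    have h1 : ‖vec f (j • w) - vec f ((j + 1) • w)‖ = ‖vec f 0 - vec f w‖ := by
      have h : ‖vec f (j • w) - vec f ((j + 1) • w)‖ ^ 2 = ‖vec f 0 - vec f w‖ ^ 2 := by
        rw [norm_sq_vec, norm_sq_vec]
        congr 3
        rw [add_smul, one_smul]; abel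
      exact (pow_left_inj₀ (norm_nonneg _) (norm_nonneg _) two_ne_zero).1 h
    have h2 : vec f 0 - vec f ((j + 1) • w)
        = (vec f 0 - vec f (j • w)) + (vec f (j • w) - vec f ((j + 1) • w)) := by abel
    rw [h2]
    refine (norm_add_le _ _).trans ?_
    rw [h1]
    push_cast
    linarith

theorem NN_mul {V S : Type} [AddCommGroup V] [Fintype S] (f : S → V) (w : V) (j : ℕ) :
    NN f 0 - NN f (j • w) ≤ (j : ℝ) ^ 2 * (NN f 0 - NN f w) := by
  classical
  have h := norm_vec_mul f w j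
  have h2 := pow_le_pow_left₀ (norm_nonneg _) h 2
  rw [mul_pow, norm_sq_vec, norm_sq_vec, sub_zero, sub_zero] at h2
  linarith

theorem NN_nonneg {V S : Type} [AddCommGroup V] [Fintype S] (f : S → V) (w : V) :
    0 ≤ NN f w := by
  classical
  unfold NN
  refine Finset.sum_nonneg fun a _ => Finset.sum_nonneg fun b _ => ?_
  split_ifs <;> norm_num

theorem sum_NN {A S : Type} [Fintype S] (f : S → A → ℤ) (w : A → ℤ) (hw : w ≠ 0) (J : ℕ) :
    ∑ j ∈ Finset.Icc 1 J, NN f (j • w) ≤ (Fintype.card S : ℝ) ^ 2 := by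
  classical
  unfold NN
  rw [Finset.sum_comm]
  have key : ∀ a b : S, ∑ j ∈ Finset.Icc 1 J, (if f a = f b + j • w then (1 : ℝ) else 0) ≤ 1 := by
    intro a b
    rw [Finset.sum_boole]
    norm_cast
    rw [Finset.card_le_one]
    intro i hi j hj
    rw [Finset.mem_filter] at hi hj
    have h : f b + i • w = f b + j • w := by rw [← hi.2, ← hj.2]
    have h' : i • w = j • w := add_left_cancel h
    obtain ⟨x, hx⟩ := Function.ne_iff.1 hw
    have h3 := congrFun h' x
    simp only [Pi.smul_apply, nsmul_eq_mul] at h3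
    have h4 : (i : ℤ) = (j : ℤ) := mul_right_cancel₀ hx h3
    exact_mod_cast h4
  calc ∑ a : S, ∑ j ∈ Finset.Icc 1 J, ∑ b : S, (if f a = f b + j • w then (1 : ℝ) else 0)
      = ∑ a : S, ∑ b : S, ∑ j ∈ Finset.Icc 1 J, (if f a = f b + j • w then (1 : ℝ) else 0) :=
        Finset.sum_congr rfl fun a _ => Finset.sum_comm
    _ ≤ ∑ a : S, ∑ b : S, (1 : ℝ) :=
        Finset.sum_le_sum fun a _ => Finset.sum_le_sum fun b _ => key a b
    _ = (Fintype.card S : ℝ) ^ 2 := by
        simp [sq]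

theorem fib_eq_sum {Ω β : Type} [Fintype Ω] [DecidableEq β] (f : Ω → β) (p : Ω) :
    fib f p = ∑ q, if f q = f p then (1 : ℝ) else 0 := by
  unfold fib fiber
  rw [Finset.sum_boole]
  congr 2
  ext q
  simp

theorem coll_eq {Ω β : Type} [Fintype Ω] [DecidableEq β] (f : Ω → β) :
    coll f = (∑ p, ∑ q, if f q = f p then (1 : ℝ) else 0) / (Fintype.card Ω : ℝ) ^ 2 := by
  unfold coll avg
  rw [← Finset.sum_div, div_div, ← sq]
  congr 1
  exact Finset.sum_congr rfl fun p _ => fib_eq_sum f p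

theorem coll_eq_NN {A S : Type} [Fintype S] (f : S → A → ℤ) :
    coll f = NN f 0 / (Fintype.card S : ℝ) ^ 2 := by
  classical
  rw [coll_eq]
  congr 1
  unfold NN
  rw [Finset.sum_comm]
  refine Finset.sum_congr rfl fun a _ => Finset.sum_congr rfl fun b _ => ?_
  rw [add_zero]

theorem coll_nonneg {Ω β : Type} [Fintype Ω] (f : Ω → β) : 0 ≤ coll f :=
  avg_nonneg fun p => div_nonneg (fib_pos f p).le (Nat.cast_nonneg _)

theorem coll_pos {Ω β : Type} [Fintype Ω] [Nonempty Ω] (f : Ω → β) : 0 < coll f := by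
  have hc : (0 : ℝ) < Fintype.card Ω := by exact_mod_cast Fintype.card_pos
  have h : 1 / (Fintype.card Ω : ℝ) ≤ coll f :=
    le_avg_of_le fun p => div_le_div_of_nonneg_right (one_le_fib f p) hc.le
  exact lt_of_lt_of_le (by positivity) h

theorem coll_le_one {Ω β : Type} [Fintype Ω] [Nonempty Ω] (f : Ω → β) : coll f ≤ 1 := by
  have hc : (0 : ℝ) < Fintype.card Ω := by exact_mod_cast Fintype.card_pos
  exact avg_le_of_le fun p => (div_le_one hc).2 (fib_le_card f p)

/-- the gain for a nonzero translation -/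
theorem gain {A S : Type} [Fintype S] [Nonempty S] (f : S → A → ℤ) (w : A → ℤ) (hw : w ≠ 0) :
    NN f w / (Fintype.card S : ℝ) ^ 2 ≤ coll f - 1 / 32 * coll f ^ 3 := by
  set n : ℝ := (Fintype.card S : ℝ) with hn
  have hn0 : 0 < n := by rw [hn]; exact_mod_cast Fintype.card_pos
  set c : ℝ := coll f with hc
  have hc0 : 0 < c := coll_pos f
  have hc1 : c ≤ 1 := coll_le_one f
  have hN0 : NN f 0 = c * n ^ 2 := by
    rw [hc, coll_eq_NN, ← hn]
    field_simp
  by_contra hcon
  push Not at hcon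
  rw [lt_div_iff₀ (by positivity)] at hcon
  set J : ℕ := ⌈2 / c⌉₊ + 1 with hJ
  have hJ1 : (J : ℝ) ≤ 4 / c := by
    rw [hJ]
    push_cast
    have h1 := Nat.ceil_lt_add_one (show (0 : ℝ) ≤ 2 / c by positivity)
    have h2 : 1 ≤ 1 / c := by rw [le_div_iff₀ hc0]; linarith
    have h3 : 4 / c = 2 / c + 1 / c + 1 / c := by field_simp; norm_num
    rw [h3]; linarith
  have hJ2 : 2 / c < (J : ℝ) := by
    rw [hJ]
    push_cast
    have h1 := Nat.le_ceil (2 / c)
    linarith
  have hj : ∀ j ∈ Finset.Icc 1 J, c * n ^ 2 / 2 ≤ NN f (j • w) := by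
    intro j hj
    have hjJ : (j : ℝ) ≤ 4 / c := le_trans (by exact_mod_cast (Finset.mem_Icc.1 hj).2) hJ1
    have h1 := NN_mul f w j
    have h2 : (j : ℝ) ^ 2 ≤ (4 / c) ^ 2 := pow_le_pow_left₀ (Nat.cast_nonneg _) hjJ 2
    have h3 : NN f 0 - NN f w ≤ 1 / 32 * c ^ 3 * n ^ 2 := by rw [hN0]; nlinarith
    have h4 : (j : ℝ) ^ 2 * (NN f 0 - NN f w) ≤ (4 / c) ^ 2 * (1 / 32 * c ^ 3 * n ^ 2) := by
      calc (j : ℝ) ^ 2 * (NN f 0 - NN f w) ≤ (j : ℝ) ^ 2 * (1 / 32 * c ^ 3 * n ^ 2) :=
            mul_le_mul_of_nonneg_left h3 (by positivity)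
        _ ≤ _ := mul_le_mul_of_nonneg_right h2 (by positivity)
    have h5 : (4 / c) ^ 2 * (1 / 32 * c ^ 3 * n ^ 2) = c * n ^ 2 / 2 := by
      field_simp; norm_num
    rw [h5] at h4
    have h6 := h1.trans h4
    rw [hN0] at h6
    linarith
  have hsum := sum_NN f w hw J
  have h6 : ∑ j ∈ Finset.Icc 1 J, (c * n ^ 2 / 2) ≤ ∑ j ∈ Finset.Icc 1 J, NN f (j • w) :=
    Finset.sum_le_sum hj
  rw [Finset.sum_const, Nat.card_Icc, nsmul_eq_mul, Nat.add_sub_cancel] at h6
  have h7 : (J : ℝ) * (c * n ^ 2 / 2) ≤ n ^ 2 := h6.trans hsum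
  have h8 : 2 / c * (c * n ^ 2 / 2) < (J : ℝ) * (c * n ^ 2 / 2) :=
    mul_lt_mul_of_pos_right hJ2 (by positivity)
  have h9 : 2 / c * (c * n ^ 2 / 2) = n ^ 2 := by field_simp
  rw [h9] at h8
  linarith

end F1

open F1 in
theorem t_F_conv : F_conv := by
  classical
  intro A S S' _ _ _ _ _ d d'
  set n : ℝ := (Fintype.card S' : ℝ) with hn
  set m : ℝ := (Fintype.card S : ℝ) with hm
  have hn0 : 0 < n := by rw [hn]; exact_mod_cast Fintype.card_pos
  have hm0 : 0 < m := by rw [hm]; exact_mod_cast Fintype.card_pos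
  set c : ℝ := coll d' with hc
  have hc0 : 0 < c := coll_pos d'
  have e1 : coll (fun x : S × S' => d x.1 + d' x.2)
      = (∑ s1 : S, ∑ s2 : S, NN d' (d s1 - d s2) / n ^ 2) / m ^ 2 := by
    rw [coll_eq, Fintype.card_prod]
    push_cast
    rw [← hn, ← hm]
    have e2 : (∑ p : S × S', ∑ q : S × S',
        if d q.1 + d' q.2 = d p.1 + d' p.2 then (1 : ℝ) else 0)
        = ∑ s1 : S, ∑ s2 : S, NN d' (d s1 - d s2) := by
      rw [Fintype.sum_prod_type]
      refine Finset.sum_congr rfl fun s1 _ => ?_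
      simp only [Fintype.sum_prod_type]
      rw [Finset.sum_comm]
      refine Finset.sum_congr rfl fun s2 _ => ?_
      unfold NN
      rw [Finset.sum_comm]
      refine Finset.sum_congr rfl fun b _ => Finset.sum_congr rfl fun a _ => ?_
      by_cases h : d' b = d' a + (d s1 - d s2)
      · have h' : d s2 + d' b = d s1 + d' a := by rw [h]; abel
        rw [if_pos h, if_pos h']
      · have h' : ¬ d s2 + d' b = d s1 + d' a := by
          intro h'
          apply h
          have : d' b = (d s2 + d' b) - d s2 := by abel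
          rw [this, h']; abel
        rw [if_neg h, if_neg h']
    rw [e2]
    simp only [← Finset.sum_div]
    rw [div_div]
    congr 1
    ring
  have e3 : coll d = (∑ s1 : S, ∑ s2 : S, if d s2 = d s1 then (1 : ℝ) else 0) / m ^ 2 := coll_eq d
  have key : ∀ s1 s2 : S, NN d' (d s1 - d s2) / n ^ 2
      ≤ (c - 1 / 32 * c ^ 3) + 1 / 32 * c ^ 3 * (if d s2 = d s1 then (1 : ℝ) else 0) := by
    intro s1 s2
    by_cases h : d s2 = d s1
    · rw [if_pos h, h, sub_self, hc, coll_eq_NN, ← hn]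
      linarith
    · rw [if_neg h, mul_zero, add_zero]
      exact gain d' _ (sub_ne_zero.2 (Ne.symm h))
  rw [e1]
  have h1 : (∑ s1 : S, ∑ s2 : S, NN d' (d s1 - d s2) / n ^ 2)
      ≤ ∑ s1 : S, ∑ s2 : S, ((c - 1 / 32 * c ^ 3)
        + 1 / 32 * c ^ 3 * (if d s2 = d s1 then (1 : ℝ) else 0)) :=
    Finset.sum_le_sum fun s1 _ => Finset.sum_le_sum fun s2 _ => key s1 s2
  have h2 : (∑ s1 : S, ∑ s2 : S, ((c - 1 / 32 * c ^ 3)
        + 1 / 32 * c ^ 3 * (if d s2 = d s1 then (1 : ℝ) else 0)))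
      = m ^ 2 * (c - 1 / 32 * c ^ 3) + 1 / 32 * c ^ 3 * (coll d * m ^ 2) := by
    rw [e3, div_mul_cancel₀ _ (by positivity)]
    simp only [Finset.sum_add_distrib, Finset.sum_const, Finset.card_univ, nsmul_eq_mul,
      ← Finset.mul_sum]
    rw [hm]; ring
  rw [h2] at h1
  rw [div_le_iff₀ (by positivity)]
  calc _ ≤ m ^ 2 * (c - 1 / 32 * c ^ 3) + 1 / 32 * c ^ 3 * (coll d * m ^ 2) := h1
    _ = _ := by ring

end H517.EO
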