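import Pool.Agent.H517R2.EO.Basic

set_option autoImplicit false

open Finset MeasureTheory

namespace H517.EO

namespace TL3

theorem int_exp : (∫ x : ℝ, Real.exp (-|x|)) = 2 := by
  have h := integral_comp_abs (f := fun x : ℝ => Real.exp (-x))
  rw [h, integral_exp_neg_Ioi_zero, mul_one]

theorem integrable_exp : Integrable (fun x : ℝ => Real.exp (-|x|)) := by
  by_contra h
  have h2 := integral_undef h
  rw [int_exp] at h2
  norm_num at h2

theorem integrable_exp_shift (a : ℝ) : Integrable (fun x : ℝ => Real.exp (-|x - a|)) :=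
  integrable_exp.comp_sub_right a

theorem int_exp_shift (a : ℝ) : (∫ x : ℝ, Real.exp (-|x - a|)) = 2 := by
  rw [integral_sub_right_eq_self (fun x : ℝ => Real.exp (-|x|)) a, int_exp]

theorem integrable_mm {ι : Type} (S : Finset ι) (y : ι → ℝ) : Integrable (mm S y) := by
  unfold mm
  exact integrable_finset_sum _ fun i _ => integrable_exp_shift (y i)

theorem int_mm {ι : Type} (S : Finset ι) (y : ι → ℝ) : (∫ z, mm S y z) = 2 * (S.card : ℝ) := by
  unfold mm
  rw [integral_finset_sum _ fun i _ => integrable_exp_shift (y i)]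
  simp only [int_exp_shift]
  rw [Finset.sum_const, nsmul_eq_mul, mul_comm]

theorem cont_mm {ι : Type} (S : Finset ι) (y : ι → ℝ) : Continuous (mm S y) := by
  unfold mm
  fun_prop

theorem cont_MM {ι : Type} (R : ℝ) (S : Finset ι) (y : ι → ℝ) : Continuous (MM R S y) := by
  unfold MM
  refine continuous_finset_sum _ fun i _ => ?_
  refine Continuous.mul ?_ continuous_const
  exact Complex.continuous_ofReal.comp (by fun_prop)

theorem mm_pos {ι : Type} {S : Finset ι} (hS : S.Nonempty) (y : ι → ℝ) (z : ℝ) : 0 < mm S y z := by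
  unfold mm
  exact Finset.sum_pos (fun i _ => Real.exp_pos _) hS

theorem norm_cexp (R a : ℝ) : ‖Complex.exp (2 * Real.pi * R * a * Complex.I)‖ = 1 := by
  have : (2 * Real.pi * R * a * Complex.I : ℂ) = ((2 * Real.pi * R * a : ℝ) : ℂ) * Complex.I := by
    push_cast; ring
  rw [this, Complex.norm_exp_ofReal_mul_I]

theorem norm_MM_le {ι : Type} (R : ℝ) (S : Finset ι) (y : ι → ℝ) (z : ℝ) :
    ‖MM R S y z‖ ≤ mm S y z := by
  unfold MM mm
  refine (norm_sum_le _ _).trans (Finset.sum_le_sum fun i _ => ?_)
  rw [norm_mul, norm_cexp, mul_one, Complex.norm_real, Real.norm_eq_abs, abs_of_pos (Real.exp_pos _)]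

theorem exp_shift_le (z w a : ℝ) : Real.exp (-|z + w - a|) ≤ Real.exp |w| * Real.exp (-|z - a|) := by
  rw [← Real.exp_add]
  apply Real.exp_le_exp.2
  have h : |z - a| ≤ |z + w - a| + |w| := by
    have : z - a = (z + w - a) + (-w) := by ring
    rw [this]
    refine (abs_add_le _ _).trans ?_
    rw [abs_neg]
  linarith

theorem exp_shift_abs (z w a : ℝ) :
    |Real.exp (-|z + w - a|) - Real.exp (-|z - a|)| ≤ (Real.exp |w| - 1) * Real.exp (-|z - a|) := by
  have h1 := exp_shift_le z w a
  have h2 := exp_shift_le (z + w) (-w) a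
  rw [abs_neg, add_neg_cancel_right] at h2
  have he : 0 < Real.exp (-|z - a|) := Real.exp_pos _
  have hw : 1 ≤ Real.exp |w| := Real.one_le_exp (abs_nonneg w)
  have hw0 : 0 < Real.exp |w| := Real.exp_pos _
  rw [abs_le]
  constructor
  · -- e - e' ≤ (E - 1) e
    have h3 : Real.exp (-|z - a|) / Real.exp |w| ≤ Real.exp (-|z + w - a|) := by
      rw [div_le_iff₀ hw0]; linarith
    have h4 : Real.exp (-|z - a|) * (2 - Real.exp |w|) ≤ Real.exp (-|z - a|) / Real.exp |w| := by
      rw [le_div_iff₀ hw0]
      nlinarith [mul_nonneg he.le (sq_nonneg (Real.exp |w| - 1))]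
    nlinarith
  · nlinarith

theorem mm_shift_le {ι : Type} (S : Finset ι) (y : ι → ℝ) (z w : ℝ) :
    mm S y (z + w) ≤ Real.exp |w| * mm S y z := by
  unfold mm
  rw [Finset.mul_sum]
  exact Finset.sum_le_sum fun i _ => exp_shift_le z w (y i)

theorem MM_shift_le {ι : Type} (R : ℝ) (S : Finset ι) (y : ι → ℝ) (z w : ℝ) :
    ‖MM R S y (z + w) - MM R S y z‖ ≤ (Real.exp |w| - 1) * mm S y z := by
  unfold MM mm
  rw [← Finset.sum_sub_distrib, Finset.mul_sum]
  refine (norm_sum_le _ _).trans (Finset.sum_le_sum fun i _ => ?_)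
  rw [← sub_mul, norm_mul, norm_cexp, mul_one, ← Complex.ofReal_sub, Complex.norm_real,
    Real.norm_eq_abs]
  exact exp_shift_abs z w (y i)

/-- averaging over fibres -/
theorem sum_fibre_avg {Ω β : Type} [Fintype Ω] (f : Ω → β) (u : Ω → ℝ) :
    (∑ p, (∑ p' ∈ fiber f p, u p') / fib f p) = ∑ p, u p := by
  classical
  have h1 : ∀ p, (∑ p' ∈ fiber f p, u p') / fib f p
      = ∑ p', if f p' = f p then u p' / fib f p' else 0 := by
    intro p
    rw [Finset.sum_div, ← Finset.sum_filter]
    have h2 : fiber f p = Finset.univ.filter (fun p' => f p' = f p) := by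
      ext q; simp [mem_fiber]
    rw [← h2]
    refine Finset.sum_congr rfl fun q hq => ?_
    rw [mem_fiber] at hq
    rw [fib_congr f hq]
  simp only [h1]
  rw [Finset.sum_comm]
  refine Finset.sum_congr rfl fun p' _ => ?_
  rw [← Finset.sum_filter, Finset.sum_const, nsmul_eq_mul]
  have h3 : (Finset.univ.filter (fun p => f p' = f p)) = fiber f p' := by
    ext q; simp [mem_fiber, eq_comm]
  rw [h3]
  have h4 : ((fiber f p').card : ℝ) = fib f p' := rfl
  rw [h4, mul_div_assoc', mul_comm, mul_div_assoc, div_self (fib_pos f p').ne', mul_one]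

end TL3

open TL3 in
theorem t_L_prod (hs : L_single) : L_prod := by
  classical
  intro P Q β γ _ _ _ _ R hR g h s y hsp
  set c : ℝ := Real.exp (-(1 / (2 * R))) / 2 with hc
  set W : P → P → ℝ := fun a b => (R * (s a - s b)) ^ 2 with hW
  set V : P → ℝ := fun p => ∑ a ∈ fiber g p, ∑ b ∈ fiber g p, W a b with hV
  set T : Q → ℝ := fun q => Gam R (fiber h q) y with hT
  set F : P × Q → β × γ := fun x => (g x.1, h x.2) with hF
  set Y : P × Q → ℝ := fun x => s x.1 + y x.2 with hY
  have hfiber : ∀ p q, fiber F (p, q) = fiber g p ×ˢ fiber h q := by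
    intro p q
    ext x
    simp only [mem_fiber, Finset.mem_product, hF, Prod.mk.injEq]
  have hfib : ∀ p q, fib F (p, q) = fib g p * fib h q := by
    intro p q
    unfold fib
    rw [hfiber, Finset.card_product]
    push_cast
    rfl
  have key : ∀ p q, Gam R (fiber F (p, q)) Y ≤
      fib g p * T q - c / fib g p * V p * (8 * T q - 12 / R ^ 2 * (2 * fib h q)) := by
    intro p q
    have hne : (fiber h q).Nonempty := ⟨q, self_mem_fiber h q⟩
    haveI : Nonempty {p' // p' ∈ fiber g p} := ⟨⟨p, self_mem_fiber g p⟩⟩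
    have := hs (mm (fiber h q) y) (MM R (fiber h q) y) R hR (cont_mm _ _) (cont_MM _ _ _)
      (mm_pos hne y) (integrable_mm _ _) (norm_MM_le R _ y) (fun z w => mm_shift_le _ _ z w)
      (fun z w => MM_shift_le R _ _ z w) {p' // p' ∈ fiber g p} (fun i => s i.1)
      (by
        intro i j
        apply hsp
        have hi := i.2
        have hj := j.2
        rw [mem_fiber] at hi hj
        rw [hi, hj])
    have hcard : (Fintype.card {p' // p' ∈ fiber g p} : ℝ) = fib g p := by
      unfold fib
      rw [Fintype.card_coe]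
    have e1 : ∀ z, (∑ i : {p' // p' ∈ fiber g p},
        Complex.exp (2 * Real.pi * R * (s i.1 : ℝ) * Complex.I) * MM R (fiber h q) y (z - s i.1))
        = MM R (fiber F (p, q)) Y z := by
      intro z
      rw [Finset.sum_coe_sort (fiber g p) (fun a => Complex.exp (2 * Real.pi * R * (s a : ℝ) * Complex.I)
        * MM R (fiber h q) y (z - s a))]
      rw [hfiber]
      unfold MM
      rw [Finset.sum_product]
      refine Finset.sum_congr rfl fun a _ => ?_
      rw [Finset.mul_sum]
      refine Finset.sum_congr rfl fun b _ => ?_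
      simp only [hY]
      have h1 : z - s a - y b = z - (s a + y b) := by ring
      rw [h1, mul_left_comm, ← Complex.exp_add]
      congr 2
      push_cast
      ring
    have e2 : ∀ z, (∑ i : {p' // p' ∈ fiber g p}, mm (fiber h q) y (z - s i.1))
        = mm (fiber F (p, q)) Y z := by
      intro z
      rw [Finset.sum_coe_sort (fiber g p) (fun a => mm (fiber h q) y (z - s a))]
      rw [hfiber]
      unfold mm
      rw [Finset.sum_product]
      refine Finset.sum_congr rfl fun a _ => ?_
      refine Finset.sum_congr rfl fun b _ => ?_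
      simp only [hY]
      have h1 : z - s a - y b = z - (s a + y b) := by ring
      rw [h1]
    have e3 : (∑ i : {p' // p' ∈ fiber g p}, ∑ j : {p' // p' ∈ fiber g p}, (R * (s i.1 - s j.1)) ^ 2)
        = V p := by
      rw [Finset.sum_coe_sort (fiber g p) (fun a => ∑ j : {p' // p' ∈ fiber g p}, (R * (s a - s j.1)) ^ 2)]
      simp only [hV]
      refine Finset.sum_congr rfl fun a _ => ?_
      rw [Finset.sum_coe_sort (fiber g p) (fun b => (R * (s a - s b)) ^ 2)]
    simp only [e1, e2, e3, hcard] at this
    have e4 : (∫ z, mm (fiber h q) y z) = 2 * fib h q := by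
      rw [int_mm]
      rfl
    rw [e4] at this
    exact this
  -- averages
  have hgp : ∀ p, 0 < fib g p := fib_pos g
  have hhq : ∀ q, 0 < fib h q := fib_pos h
  set K : P → ℝ := fun p => V p / fib g p ^ 2 with hK
  have key2 : ∀ p q, Gam R (fiber F (p, q)) Y / fib F (p, q) ≤
      T q / fib h q - c * K p * (8 * (T q / fib h q) - 24 / R ^ 2) := by
    intro p q
    rw [hfib, div_le_iff₀ (mul_pos (hgp p) (hhq q))]
    refine (key p q).trans (le_of_eq ?_)
    simp only [hK]
    have h1 := (hgp p).ne'
    have h2 := (hhq q).ne'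
    have h3 : R ≠ 0 := by positivity
    field_simp
    ring
  have hG1 : GG R F Y ≤ (avg (fun q => T q / fib h q) - c * avg K * (8 * avg (fun q => T q / fib h q) - 24 / R ^ 2)) / 2 := by
    unfold GG
    apply div_le_div_of_nonneg_right _ (by norm_num)
    rw [avg_prod]
    have h1 : avg (fun p => avg fun q => Gam R (fiber F (p, q)) Y / fib F (p, q)) ≤
        avg (fun p => avg fun q => T q / fib h q - c * K p * (8 * (T q / fib h q) - 24 / R ^ 2)) :=
      avg_mono fun p => avg_mono fun q => key2 p q
    refine h1.trans (le_of_eq ?_)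
    have h2 : ∀ p, avg (fun q => T q / fib h q - c * K p * (8 * (T q / fib h q) - 24 / R ^ 2))
        = avg (fun q => T q / fib h q) - c * K p * (8 * avg (fun q => T q / fib h q) - 24 / R ^ 2) := by
      intro p
      rw [avg_sub, avg_const_mul, avg_sub, avg_const_mul, avg_const]
    simp only [h2]
    rw [avg_sub, avg_const]
    congr 1
    have h3 : (fun p => c * K p * (8 * avg (fun q => T q / fib h q) - 24 / R ^ 2))
        = fun p => c * (8 * avg (fun q => T q / fib h q) - 24 / R ^ 2) * K p := by
      funext p; ring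
    rw [h3, avg_const_mul]
    ring
  have hG0 : GG R h y = avg (fun q => T q / fib h q) / 2 := rfl
  have hK2 : avg K = avg (fun p : P => (∑ p' ∈ fiber g p, (R * (s p - s p')) ^ 2) / fib g p) := by
    unfold avg
    congr 1
    rw [← sum_fibre_avg g (fun p => (∑ p' ∈ fiber g p, (R * (s p - s p')) ^ 2) / fib g p)]
    refine Finset.sum_congr rfl fun p _ => ?_
    simp only [hK, hV]
    rw [sq (fib g p), ← div_div]
    congr 1
    rw [Finset.sum_div]
    refine Finset.sum_congr rfl fun a ha => ?_
    rw [mem_fiber] at ha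
    rw [fiber_congr g ha, fib_congr g ha]
  rw [← hK2]
  rw [hG0] at *
  have h24 : (24 : ℝ) / R ^ 2 = 2 * (12 / R ^ 2) := by ring
  rw [h24] at hG1
  linarith [hG1]

end H517.EO
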