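import Pool.Agent.H517R2.EO.Basic

/-!
# W8 : existence of a good length
-/

set_option autoImplicit false

open Finset Filter

namespace H517.EO

namespace W8

/-- injective maps have conditional entropy zero -/
theorem HR_inj {Ω β : Type} [Fintype Ω] (f : Ω → β) (h : Function.Injective f) : HR f = 0 := by
  unfold HR
  have h1 : ∀ p, Real.log (fib f p) = 0 := by
    intro p
    have h2 : fib f p = 1 := by
      unfold fib
      have h3 : fiber f p = {p} := by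
        ext q
        rw [mem_fiber, Finset.mem_singleton]
        exact ⟨fun e => h e, fun e => by rw [e]⟩
      rw [h3]
      simp
    rw [h2, Real.log_one]
  rw [avg_congr h1]
  unfold avg
  simp

theorem num (q θ M : ℝ) (hq0 : 0 ≤ q) (hq1 : q < 1) (hθ : 0 < θ) :
    ∃ K1 : ℕ, ∀ K : ℕ, K1 ≤ K → M * (K * q ^ K) ≤ θ := by
  have h1 : Tendsto (fun K : ℕ => M * ((K : ℝ) * q ^ K)) atTop (nhds (M * 0)) :=
    (tendsto_self_mul_const_pow_of_lt_one hq0 hq1).const_mul M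
  rw [mul_zero] at h1
  have h2 := (h1.eventually (gt_mem_nhds hθ))
  obtain ⟨K1, hK1⟩ := eventually_atTop.1 h2
  exact ⟨K1, fun K hK => (hK1 K hK).le⟩

/-- distinct values are far apart at a fine scale -/
theorem fine {A : Type} [Fintype A] [Nonempty A] (lam : ℝ) (t : A → ℝ)
    (τ : A → A → PowerSeries ℤ) (h0 : 0 < lam) (h1 : lam < 1) (hf : Free lam t) (k n0 : ℕ) :
    ∃ n : ℕ, n0 ≤ n ∧ HW lam t τ k (lam ^ n) = 0 := by
  classical
  let f : (Fin k → A) × (Fin k → A) → ℝ := fun x =>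
    if x.1 = x.2 then 1 else |XX lam t x.1 - XX lam t x.2|
  obtain ⟨x0, hx0⟩ := Finite.exists_min f
  have hpos : 0 < f x0 := by
    simp only [f]
    split_ifs with h
    · exact one_pos
    · rw [abs_pos]
      intro hc
      exact h (hf k _ _ (sub_eq_zero.1 hc))
  obtain ⟨n1, hn1⟩ := exists_pow_lt_of_lt_one hpos h1
  refine ⟨max n0 n1, le_max_left _ _, ?_⟩
  have hlt : lam ^ (max n0 n1) < f x0 :=
    lt_of_le_of_lt (pow_le_pow_of_le_one h0.le h1.le (le_max_right _ _)) hn1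
  have hw : 0 < lam ^ (max n0 n1) := pow_pos h0 _
  apply HR_inj
  intro p q hpq
  by_contra hne
  have h2 : f x0 ≤ |XX lam t p - XX lam t q| := by
    have h3 := hx0 (p, q)
    simp only [f] at h3 ⊢
    rw [if_neg hne] at h3
    exact h3
  have h4 : ⌊XX lam t p / lam ^ (max n0 n1)⌋ = ⌊XX lam t q / lam ^ (max n0 n1)⌋ :=
    (Prod.mk.injEq _ _ _ _ ▸ hpq : _ ∧ _).2
  have h5 : |XX lam t p / lam ^ (max n0 n1) - XX lam t q / lam ^ (max n0 n1)| < 1 :=
    Int.abs_sub_lt_one_of_floor_eq_floor h4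
  rw [← sub_div, abs_div, abs_of_pos hw, div_lt_one hw] at h5
  linarith

end W8

open W8

theorem t_W_kappa (h1 : P_grid) (h2 : W_win) (h3 : W_drop) (h4 : E_grid) : W_kappa := by
  intro A _ _ _ lam t hl0 hl1 hfree τ a C1 c0 ha ha01 hC1 hc0 hdrop E e Cp he hCp
  obtain ⟨C, hC, hwin⟩ := h2 A lam t hl0 hl1 E Cp hCp
  have hχ : 0 < Real.log (1 / lam) := by
    apply Real.log_pos
    rw [one_lt_div hl0]
    exact hl1
  have hC2 : 1 ≤ 9 * C / Real.log (1 / lam) + 4 +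
      10 * (((Fintype.card A * (E + 1) : ℕ) : ℝ) + 1) + 1 := by
    have : 0 ≤ 9 * C / Real.log (1 / lam) := by positivity
    have h5 : (0 : ℝ) ≤ ((Fintype.card A * (E + 1) : ℕ) : ℝ) := Nat.cast_nonneg _
    linarith
  obtain ⟨g1, hg1⟩ := h1 a C1 (9 * C / Real.log (1 / lam) + 4 +
      10 * (((Fintype.card A * (E + 1) : ℕ) : ℝ) + 1) + 1) (c0 / 4)
      (Fintype.card A * (E + 1)) ha ha01 hC1 hC2 (by positivity)
  have he0 : (0 : ℝ) < e := by exact_mod_cast he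
  have hq0 : 0 ≤ lam ^ ((1 : ℝ) / e) := Real.rpow_nonneg hl0.le _
  have hq1 : lam ^ ((1 : ℝ) / e) < 1 := Real.rpow_lt_one hl0.le hl1 (by positivity)
  have hθ : 0 < min ((1 - lam) / 4) (lam / C) := by
    apply lt_min
    · linarith
    · positivity
  obtain ⟨K1, hK1⟩ := num (lam ^ ((1 : ℝ) / e)) (min ((1 - lam) / 4) (lam / C))
    (Fintype.card A * Cp) hq0 hq1 hθ
  refine ⟨max (max g1 K1) (max ⌈16 / c0⌉₊ 1), ?_⟩
  intro g hg K hKl hKu hlow P z hP hdeg hL1 hroot hlz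
  have hgg1 : g1 ≤ g := le_trans (le_trans (le_max_left _ _) (le_max_left _ _)) hg
  have hgK1 : K1 ≤ g := le_trans (le_trans (le_max_right _ _) (le_max_left _ _)) hg
  have hgc : ⌈16 / c0⌉₊ ≤ g := le_trans (le_trans (le_max_left _ _) (le_max_right _ _)) hg
  have hg1' : 1 ≤ g := le_trans (le_trans (le_max_right _ _) (le_max_right _ _)) hg
  have hgK : g ≤ K := by
    have h5 : g ≤ g ^ 3 := Nat.le_self_pow (by norm_num) g
    have h6 : g ^ 3 < 2 ^ (g ^ 3) := Nat.lt_two_pow_self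
    omega
  have hK2 : 2 ≤ K := by
    have h5 : 2 ^ 1 ≤ 2 ^ (g ^ 3) := Nat.pow_le_pow_right (by norm_num) (Nat.one_le_pow _ _ hg1')
    omega
  -- the distance
  have hε : ‖(lam : ℂ) - z‖ ≤ min ((1 - lam) / 4) (lam / C) := by
    have h5 : (Cp * lam ^ (K * (8 ^ g - 1))) ^ ((1 : ℝ) / e) ≤
        Cp * (lam ^ ((1 : ℝ) / e)) ^ K := by
      rw [Real.mul_rpow (by linarith) (pow_nonneg hl0.le _)]
      apply mul_le_mul
      · calc Cp ^ ((1 : ℝ) / e) ≤ Cp ^ (1 : ℝ) := by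
              apply Real.rpow_le_rpow_of_exponent_le hCp
              rw [div_le_one he0]
              exact_mod_cast he
          _ = Cp := Real.rpow_one _
      · rw [← Real.rpow_pow_comm hl0.le]
        apply pow_le_pow_of_le_one hq0 hq1.le
        have h6 : 8 ^ 1 ≤ 8 ^ g := Nat.pow_le_pow_right (by norm_num) hg1'
        apply Nat.le_mul_of_pos_right
        omega
      · exact Real.rpow_nonneg (pow_nonneg hl0.le _) _
      · linarith
    calc ‖(lam : ℂ) - z‖ ≤ (Fintype.card A : ℝ) * K *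
          (Cp * lam ^ (K * (8 ^ g - 1))) ^ ((1 : ℝ) / e) := hlz
      _ ≤ (Fintype.card A : ℝ) * K * (Cp * (lam ^ ((1 : ℝ) / e)) ^ K) :=
          mul_le_mul_of_nonneg_left h5 (by positivity)
      _ = (Fintype.card A * Cp) * (K * (lam ^ ((1 : ℝ) / e)) ^ K) := by ring
      _ ≤ _ := hK1 K (by omega)
  have hε1 : ‖(lam : ℂ) - z‖ ≤ (1 - lam) / 4 := le_trans hε (min_le_left _ _)
  have hε2 : C * ‖(lam : ℂ) - z‖ ≤ lam := by
    have h5 := le_trans hε (min_le_right _ _)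
    rw [le_div_iff₀ (by linarith)] at h5
    linarith
  have hε0 : 0 ≤ ‖(lam : ℂ) - z‖ := norm_nonneg _
  by_contra hcon
  push Not at hcon
  apply hg1 g hgg1 K hKl
  intro k hkK hkK2
  refine ⟨fun n => HW lam t τ k (lam ^ n), hdrop k (by omega), ?_⟩
  have hkr : 16 / c0 ≤ (k : ℝ) := by
    have h5 : (⌈16 / c0⌉₊ : ℝ) ≤ (k : ℝ) := by exact_mod_cast (by omega : ⌈16 / c0⌉₊ ≤ k)
    exact le_trans (Nat.le_ceil _) h5
  have hkc : 2 ≤ c0 / 8 * k := by
    rw [div_le_iff₀ hc0] at hkr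
    linarith
  have hlog3 : Real.log 3 ≤ 2 := by
    have := Real.log_le_sub_one_of_pos (show (0 : ℝ) < 3 by norm_num)
    linarith
  -- the end of the range of scales
  have hend : ∃ nE : ℕ, k * 8 ^ g ≤ nE ∧ C * ‖(lam : ℂ) - z‖ ^ (E + 1) ≤ lam ^ nE ∧
      c0 / 4 * k ≤ HW lam t τ k (lam ^ (k * 8 ^ g)) - HW lam t τ k (lam ^ nE) := by
    have hA := hlow k hkK hkK2
    by_cases hz : (lam : ℂ) = z
    · obtain ⟨nE, hn1, hn2⟩ := fine lam t τ hl0 hl1 hfree k (k * 8 ^ g)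
      refine ⟨nE, hn1, ?_, ?_⟩
      · rw [hz, sub_self, norm_zero, zero_pow (by omega), mul_zero]
        exact pow_nonneg hl0.le _
      · rw [hn2, sub_zero]
        have : 0 ≤ c0 / 4 * k := by positivity
        linarith
    · have hεpos : 0 < ‖(lam : ℂ) - z‖ := norm_pos_iff.2 (sub_ne_zero.2 hz)
      have hsmall := hcon k hkK hkK2 hz
      have hεE : 0 < ‖(lam : ℂ) - z‖ ^ E := pow_pos hεpos _
      have hεE1 : ‖(lam : ℂ) - z‖ ^ E ≤ 1 := pow_le_one₀ hε0 (by linarith)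
      have hx1 : C * ‖(lam : ℂ) - z‖ ^ (E + 1) = C * ‖(lam : ℂ) - z‖ * ‖(lam : ℂ) - z‖ ^ E := by
        ring
      have hx2 : C * ‖(lam : ℂ) - z‖ ^ (E + 1) ≤ lam * ‖(lam : ℂ) - z‖ ^ E := by
        rw [hx1]
        exact mul_le_mul_of_nonneg_right hε2 hεE.le
      have hx3 : 0 < C * ‖(lam : ℂ) - z‖ ^ (E + 1) := by positivity
      have hx4 : C * ‖(lam : ℂ) - z‖ ^ (E + 1) ≤ 1 := by
        refine le_trans hx2 ?_
        nlinarith
      obtain ⟨nE, hn1, hn2⟩ := exists_nat_pow_near_of_lt_one hx3 hx4 hl0 hl1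
      have hn3 : lam ^ nE ≤ ‖(lam : ℂ) - z‖ ^ E := by
        have h5 : lam * lam ^ nE ≤ lam * ‖(lam : ℂ) - z‖ ^ E := by
          rw [← pow_succ']
          linarith
        exact le_of_mul_le_mul_left h5 hl0
      have hgrid : ∀ n : ℕ, nE ≤ n → HW lam t τ k (lam ^ n) ≤
          HW lam t τ k (‖(lam : ℂ) - z‖ ^ E) + Real.log 3 := by
        intro n hn
        have h5 : lam ^ n ≤ 1 * ‖(lam : ℂ) - z‖ ^ E := by
          rw [one_mul]
          exact le_trans (pow_le_pow_of_le_one hl0.le hl1.le hn) hn3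
        have h6 := h4 (Fin k → A) (A → PowerSeries ℤ) (fun p => YY τ p) (fun p => XX lam t p)
          (lam ^ n) (‖(lam : ℂ) - z‖ ^ E) 0 0 1 (pow_pos hl0 _) hεE zero_le_one h5
        simp only [add_zero] at h6
        have h7 : (1 : ℝ) + 2 = 3 := by norm_num
        rw [h7] at h6
        exact h6
      have hle : k * 8 ^ g ≤ nE := by
        by_contra hlt
        have h5 := hgrid (k * 8 ^ g) (by omega)
        have h6 : 0 < c0 / 8 * k := by linarith
        linarith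
      refine ⟨nE, hle, hn2, ?_⟩
      have h5 := hgrid nE le_rfl
      linarith
  obtain ⟨nE, hnE1, hnE2, hnE3⟩ := hend
  obtain ⟨v, hv⟩ := hwin K P z hK2 hP hdeg hL1 hroot hε1 k hkK
  have hk1 : (1 : ℝ) ≤ k := by exact_mod_cast (by omega : 1 ≤ k)
  have hlogk : 0 ≤ Real.log k := Real.log_nonneg hk1
  obtain ⟨u, u', hu1, hu2⟩ := h3 (Fin k → A) (A → PowerSeries ℤ) (fun p => YY τ p)
    (fun p => XX lam t p) lam hl0 hl1 (Fintype.card A * (E + 1)) v (C * k * Real.log k)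
    (by positivity) (k * 8 ^ g) nE hnE1 (by
      intro p q _ hx hpq
      exact hv p q hx (le_trans hnE2 hpq))
  -- the logarithm of the length
  have hlog : Real.log k ≤ 9 * (g : ℝ) ^ 3 := by
    have h5 : k ≤ 2 ^ ((g + 1) ^ 3 + g) := by
      rw [pow_add]
      exact le_trans hkK2 (Nat.mul_le_mul_right _ hKu)
    have h6 : (k : ℝ) ≤ 2 ^ ((g + 1) ^ 3 + g) := by exact_mod_cast h5
    have h7 : Real.log k ≤ Real.log (2 ^ ((g + 1) ^ 3 + g)) :=
      Real.log_le_log (by linarith) h6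
    rw [Real.log_pow] at h7
    have h8 : Real.log 2 ≤ 1 := by
      have := Real.log_le_sub_one_of_pos (show (0 : ℝ) < 2 by norm_num)
      linarith
    have h9 : (g + 1) ^ 3 + g ≤ 9 * g ^ 3 := by
      have e1 : (g + 1) ^ 3 ≤ (2 * g) ^ 3 := Nat.pow_le_pow_left (by omega) 3
      have e2 : (2 * g) ^ 3 = 8 * g ^ 3 := by ring
      have e3 : g ≤ g ^ 3 := Nat.le_self_pow (by norm_num) g
      omega
    have h10 : ((((g + 1) ^ 3 + g : ℕ)) : ℝ) ≤ 9 * (g : ℝ) ^ 3 := by exact_mod_cast h9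
    have h11 : (0 : ℝ) ≤ (((g + 1) ^ 3 + g : ℕ) : ℝ) := Nat.cast_nonneg _
    calc Real.log k ≤ (((g + 1) ^ 3 + g : ℕ) : ℝ) * Real.log 2 := h7
      _ ≤ (((g + 1) ^ 3 + g : ℕ) : ℝ) * 1 := mul_le_mul_of_nonneg_left h8 h11
      _ ≤ _ := by rw [mul_one]; exact h10
  refine ⟨u, u', ?_, ?_⟩
  · intro j
    obtain ⟨b1, b2, b3⟩ := hu1 j
    refine ⟨?_, b2, ?_⟩
    · have h5 : 8 ^ 1 ≤ 8 ^ g := Nat.pow_le_pow_right (by norm_num) hg1'
      have h6 : k * 2 ≤ k * 8 ^ g := Nat.mul_le_mul_left _ (by omega)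
      omega
    · refine le_trans b3 ?_
      have hg3 : (1 : ℝ) ≤ (g : ℝ) ^ 3 := one_le_pow₀ (by exact_mod_cast hg1')
      have hkg : (1 : ℝ) ≤ k * (g : ℝ) ^ 3 := by nlinarith
      have h5 : C * k * Real.log k / Real.log (1 / lam) ≤
          9 * C / Real.log (1 / lam) * (k * (g : ℝ) ^ 3) := by
        rw [div_mul_eq_mul_div]
        apply div_le_div_of_nonneg_right _ hχ.le
        calc C * k * Real.log k ≤ C * k * (9 * (g : ℝ) ^ 3) :=
              mul_le_mul_of_nonneg_left hlog (by positivity)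
          _ = 9 * C * (k * (g : ℝ) ^ 3) := by ring
      have hN : (0 : ℝ) ≤ ((Fintype.card A * (E + 1) : ℕ) : ℝ) := Nat.cast_nonneg _
      have h6 : (9 * C / Real.log (1 / lam) + 4 +
          10 * (((Fintype.card A * (E + 1) : ℕ) : ℝ) + 1) + 1) * k * (g : ℝ) ^ 3 =
          9 * C / Real.log (1 / lam) * (k * (g : ℝ) ^ 3) + 4 * (k * (g : ℝ) ^ 3) +
          (10 * (((Fintype.card A * (E + 1) : ℕ) : ℝ) + 1) + 1) * (k * (g : ℝ) ^ 3) := by ring
      rw [h6]
      have h7 : 0 ≤ (10 * (((Fintype.card A * (E + 1) : ℕ) : ℝ) + 1) + 1) *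
          (k * (g : ℝ) ^ 3) := by positivity
      linarith
  · have h5 : HW lam t τ k (lam ^ (k * 8 ^ g)) - HW lam t τ k (lam ^ nE) ≤
        10 * (((Fintype.card A * (E + 1) : ℕ) : ℝ) + 1) +
        ∑ j, (HW lam t τ k (lam ^ u j) - HW lam t τ k (lam ^ u' j)) := hu2
    have h6 : 0 ≤ 9 * C / Real.log (1 / lam) := by positivity
    linarith

end H517.EO
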